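import Mathlib

/-! Theta functions, their twists by a derivation of `ℂ`, and models of complex multiplication. -/

namespace Pool.Agent.Lib.MP_caab05_ag.GB

open MvPolynomial Filter Topology Asymptotics Complex Matrix

abbrev Der : Type := Derivation ℚ ℂ ℂ
abbrev V (g : ℕ) : Type := Fin g → ℂ
abbrev Mat (g : ℕ) : Type := Fin g → Fin g → ℂ
/-- the complexified lattice -/
abbrev W (g : ℕ) : Type := Fin g ⊕ Fin g → ℂ
abbrev Zg (g : ℕ) : Type := Fin g ⊕ Fin g → ℤ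
abbrev Ix (g : ℕ) : Type := Fin g → ZMod 4

/-! ### Twisting by a derivation -/

/-- the derivation applied to the coefficients -/
noncomputable def cD {σ : Type} (D : Der) (P : MvPolynomial σ ℂ) : MvPolynomial σ ℂ :=
  ∑ m ∈ P.support, monomial m (D (coeff m P))

/-- the Taylor series of `G` at the origin is obtained from that of `F` by applying `D` -/
def Tw {κ : Type} [Fintype κ] (D : Der) (F G : (κ → ℂ) → ℂ) : Prop :=
  ∀ j : ℕ, ∃ P : MvPolynomial κ ℂ,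
    (fun u => F u - eval u P) =O[𝓝 0] (fun u => ‖u‖ ^ j) ∧
    (fun u => G u - eval u (cD D P)) =O[𝓝 0] (fun u => ‖u‖ ^ j)

/-- derivative of the polynomial `P` at `x` in the direction `x'` -/
noncomputable def dP {σ : Type} [Fintype σ] (P : MvPolynomial σ ℂ) (x x' : σ → ℂ) : ℂ :=
  ∑ i, eval x (pderiv i P) * x' i

/-- bihomogeneous polynomials -/
def BiH {α β : Type} (Q : MvPolynomial (α ⊕ β) ℂ) (k l : ℕ) : Prop :=
  Q.IsWeightedHomogeneous (Sum.elim (fun _ => 1) (fun _ => 0) : α ⊕ β → ℕ) k ∧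
  Q.IsWeightedHomogeneous (Sum.elim (fun _ => 0) (fun _ => 1) : α ⊕ β → ℕ) l

/-! ### Theta functions of level four -/

variable {g : ℕ}

def lft {α : Type} (x : Fin g ⊕ Fin g → α) : Fin g → α := fun i => x (.inl i)
def rgt {α : Type} (x : Fin g ⊕ Fin g → α) : Fin g → α := fun i => x (.inr i)

noncomputable def app (M : Mat g) (x : V g) : V g := Matrix.of M *ᵥ x

/-- the period map `(m, n) ↦ τ m + n` -/
noncomputable def per (τ : Mat g) (x : W g) : V g := app τ (lft x) + rgt x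

/-- the standard symplectic form -/
def JJ {R : Type} [CommRing R] (x y : Fin g ⊕ Fin g → R) : R :=
  lft x ⬝ᵥ rgt y - rgt x ⬝ᵥ lft y

def Pos (τ : Mat g) : Prop :=
  ∀ x : Fin g → ℝ, x ≠ 0 → 0 < ∑ i, ∑ j, x i * (τ i j).im * x j

/-- the Siegel upper half space -/
def Sg (τ : Mat g) : Prop := (∀ i j, τ i j = τ j i) ∧ Pos τ

def cst (p : Zg g) : W g := fun i => (p i : ℂ)

noncomputable def th (τ : Mat g) (u : V g) (a : Ix g) : ℂ :=
  ∑' m : Fin g → ℤ, if ∀ j, (m j : ZMod 4) = a j then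
    cexp (Real.pi * I * (∑ i, ∑ j, (m i : ℂ) * τ i j * (m j : ℂ)) / 4 +
      2 * Real.pi * I * ∑ i, (m i : ℂ) * u i) else 0

/-- the four-torsion point attached to `p` -/
noncomputable def tor (τ : Mat g) (p : Zg g) : V g := (1 / 4 : ℂ) • per τ (cst p)

noncomputable def ee (τ : Mat g) (p : Zg g) (u : V g) : ℂ :=
  cexp (-(2 * Real.pi * I) * ∑ j, (p (.inl j) : ℂ) * (u j + per τ (cst p) j / 8))

noncomputable def hh (p : Zg g) (a : Ix g) : ℂ :=
  cexp (Real.pi * I / 4 * ∑ j, ((p (.inl j) : ℂ) + 2 * ((a j).val : ℂ)) * (p (.inr j) : ℂ))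

def sh (p : Zg g) : Ix g := fun j => (p (.inl j) : ZMod 4)

/-- the action of the Heisenberg group -/
noncomputable def HH (p : Zg g) (X : Ix g → ℂ) : Ix g → ℂ := fun a => hh p a * X (a + sh p)

/-- derivative in the variable `u` -/
noncomputable def du (τ : Mat g) (u w : V g) : Ix g → ℂ := fderiv ℂ (th τ) u w

/-- derivative in the variable `τ` -/
noncomputable def dK (τ K : Mat g) (u : V g) : Ix g → ℂ := fderiv ℂ (fun σ => th σ u) τ K

/-- the twist of the theta functions by `D` -/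
def IsTw (D : Der) (τ M K N : Mat g) (c : ℂ) : Prop :=
  (∀ i j, K i j = K j i) ∧ ∀ a, Tw D (fun u => th τ u a)
    fun u => du τ u (app M u) a + dK τ K u a + (u ⬝ᵥ app N u + c) * th τ u a

/-- the derivative of the period map, corrected by the motion of the abelian variety -/
noncomputable def beta (D : Der) (τ M K : Mat g) (x : W g) : V g :=
  app M (per τ x) + app (fun i j => D (τ i j) - K i j) (lft x)

/-- an algebraic differential form at the origin -/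
noncomputable def om (τ : Mat g) (w : V g) (s : Ix g × Ix g) : ℂ :=
  th τ 0 s.2 * du τ 0 w s.1 - th τ 0 s.1 * du τ 0 w s.2

noncomputable def Jm (τ : Mat g) (s : Fin g → Ix g × Ix g) : Matrix (Fin g) (Fin g) ℂ :=
  Matrix.of fun k j => om τ (Pi.single j 1) (s k)

noncomputable def Xi (τ : Mat g) (ab : Ix g × Ix g) (u : V g) : ℂ :=
  th τ u ab.1 * th τ (I • u) ab.2

abbrev Al (g J : ℕ) : Type :=
  Fin (J + 1) × (Ix g × Ix g) × (Fin g → Ix g × Ix g) × (Fin g → Fin (J + 1)) × Ix g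

/-- modular forms built from the jets of the theta functions -/
noncomputable def Xc (τ : Mat g) (J : ℕ) (q : Al g J) : ℂ :=
  iteratedDeriv q.1 (fun t : ℂ => Xi τ q.2.1
      (t • ((Jm τ q.2.2.1).adjugate *ᵥ fun k => ((q.2.2.2.1 k : ℕ) : ℂ)))) 0 *
    th τ 0 q.2.2.2.2 ^ (2 * (q.1 : ℕ)) * (Jm τ q.2.2.1).det ^ (J - q.1)

/-! ### Complex multiplication -/

section CM

open NumberField

variable {L : Type} [Field L] [NumberField L]

abbrev Emb (L : Type) [Field L] : Type := L →+* ℂ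

/-- the conjugate embedding -/
noncomputable abbrev cj (φ : Emb L) : Emb L := ComplexEmbedding.conjugate φ

/-- `c` induces complex conjugation under every embedding -/
def IsCj (c : L ≃ₐ[ℚ] L) : Prop := ∀ (φ : Emb L) x, φ (c x) = starRingEnd ℂ (φ x)

def IsType (Φ : Set (Emb L)) : Prop := ∀ φ, φ ∈ Φ ↔ cj φ ∉ Φ

def IsRat (w : W g) : Prop := ∀ j, ∃ q : ℚ, w j = q

/-- `x ↦ ∑ φ(x) v_φ` is a map `L → ℚ^{2g}` -/
def RatF (v : Emb L → W g) : Prop := ∀ x : L, IsRat (∑ φ : Emb L, φ x • v φ)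

/-- `ℓ` is the logarithmic derivative of the period symbol `p(φ, Φ)` -/
def Ell (D : Der) (Φ : Set (Emb L)) (φ : Emb L) (l : ℂ) : Prop :=
  ∀ (g : ℕ) (τ M K N : Mat g) (c : ℂ) (v : Emb L → W g), Sg τ → IsTw D τ M K N c → RatF v →
    (∀ ψ, ψ ∉ Φ → per τ (v ψ) = 0) → beta D τ M K (v φ) = l • per τ (v φ)

noncomputable def ell (D : Der) (Φ : Set (Emb L)) (φ : Emb L) : ℂ :=
  Classical.epsilon (Ell D Φ φ)

open Classical in
noncomputable def elt (D : Der) (Φ : Set (Emb L)) (φ : Emb L) : ℂ :=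
  if φ ∈ Φ then ell D Φ φ else - ell D Φ (cj φ)

/-- the vector with coordinates `X` -/
noncomputable def vec {k : ℕ} (v : Emb L → Fin k → W g) (X : Emb L → Fin k → ℂ) : W g :=
  ∑ φ : Emb L, ∑ i, X φ i • v φ i

open Classical in
/-- a symplectic identification of `L^k`, with the form `Tr ∑ ξ_i x_i c(y_i)`, and `ℚ^{2g}` -/
structure IsSym {k : ℕ} (ξ : Fin k → L) (v : Emb L → Fin k → W g) : Prop where
  rat : ∀ x : Fin k → L, IsRat (vec v fun φ i => φ (x i))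
  surj : ∀ w : W g, IsRat w → ∃ x : Fin k → L, w = vec v fun φ i => φ (x i)
  symp : ∀ φ ψ i j, JJ (v φ i) (v ψ j) = if ψ = cj φ ∧ i = j then φ (ξ i) else 0
  span : ∀ w : W g, ∃ X, w = vec v X
  indep : ∀ X, vec v X = 0 → X = 0
  conj : ∀ φ i, star (v φ i) = v (cj φ) i
  alg : ∀ φ i j, IsAlgebraic ℚ (v φ i j)
  card : 2 * g = k * Module.finrank ℚ L

/-- a principally polarised abelian variety of type `Φ` -/
structure IsModel (Φ : Set (Emb L)) (τ : Mat g) (v : Emb L → W g) : Prop where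
  sg : Sg τ
  rat : RatF v
  surj : ∀ w : W g, IsRat w → ∃ x : L, w = ∑ φ : Emb L, φ x • v φ
  span : ∀ w : W g, ∃ X : Emb L → ℂ, w = ∑ φ : Emb L, X φ • v φ
  indep : ∀ X : Emb L → ℂ, ∑ φ : Emb L, X φ • v φ = 0 → X = 0
  alg : ∀ φ j, IsAlgebraic ℚ (v φ j)
  ker : ∀ X : Emb L → ℂ, per τ (∑ φ : Emb L, X φ • v φ) = 0 ↔ ∀ φ ∈ Φ, X φ = 0
  card : 2 * g = Module.finrank ℚ L

/-- the places where the form is indefinite -/
abbrev Mx (ξ : Fin 2 → L) : Type := {φ : Emb L // 0 < (φ (ξ 0)).im ∧ (φ (ξ 1)).im < 0}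

noncomputable instance (ξ : Fin 2 → L) : Fintype (Mx ξ) := Fintype.ofFinite _

noncomputable def rr (ξ : Fin 2 → L) (φ : Emb L) : ℝ := -(φ (ξ 1)).im / (φ (ξ 0)).im

def Dom (ξ : Fin 2 → L) (t : ℝ) : Set (Mx ξ → ℂ) := {z | ∀ φ, rr ξ φ.1 * ‖z φ‖ ^ 2 < t}

/-- the data of a skew-hermitian plane which is definite at some place -/
structure IsXi (c : L ≃ₐ[ℚ] L) (ξ : Fin 2 → L) : Prop where
  cj : IsCj c
  skew : ∀ i, c (ξ i) = -ξ i
  ne : ∀ i, ξ i ≠ 0
  defin : ∃ ψ : Emb L, 0 < (ψ (ξ 0)).im ∧ 0 < (ψ (ξ 1)).im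

/-- the Hodge filtration at the point `z` -/
def InF (ξ : Fin 2 → L) (z : Mx ξ → ℂ) (X : Emb L → Fin 2 → ℂ) : Prop :=
  (∀ φ : Mx ξ, X φ.1 1 = z φ * X φ.1 0 ∧ X (cj φ.1) 0 = rr ξ φ.1 * z φ * X (cj φ.1) 1) ∧
  ∀ ψ : Emb L, (ψ (ξ 0)).im < 0 → (ψ (ξ 1)).im < 0 → X ψ = 0

/-- the family of abelian varieties with multiplication by `L` -/
structure IsFam (ξ : Fin 2 → L) (v : Emb L → Fin 2 → W g) (τ : (Mx ξ → ℂ) → Mat g) : Prop where
  sym : IsSym ξ v
  hol : DifferentiableOn ℂ τ (Dom ξ 1)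
  sg : ∀ z ∈ Dom ξ 1, Sg (τ z)
  ker : ∀ z ∈ Dom ξ 1, ∀ X, per (τ z) (vec v X) = 0 ↔ InF ξ z X

/-- the special unitary group -/
def IsSU (c : L ≃ₐ[ℚ] L) (ξ : Fin 2 → L) (γ : Matrix (Fin 2) (Fin 2) L) : Prop :=
  γ.det = 1 ∧ ∀ i j, ∑ k, ξ k * γ k i * c (γ k j) = if i = j then ξ i else 0

/-- `γ` moves `z` to `z'` -/
def Moves (ξ : Fin 2 → L) (γ : Matrix (Fin 2) (Fin 2) L) (z z' : Mx ξ → ℂ) : Prop :=
  ∀ φ : Mx ξ, z' φ * (φ.1 (γ 0 0) + φ.1 (γ 0 1) * z φ) = φ.1 (γ 1 0) + φ.1 (γ 1 1) * z φ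

/-- the two families of differential forms whose quotient is a modular function -/
noncomputable def Yv (τ : Mat g) (v : Emb L → Fin 2 → W g) (φ : Emb L) :
    (Ix g × Ix g) ⊕ (Ix g × Ix g) → ℂ :=
  Sum.elim (om τ (per τ (v (cj φ) 0))) (om τ (per τ (v φ 1)))

end CM

/-! ### The curve `y ^ 2 = 1 - x ^ N` -/

def St (N : ℕ) : Set ℂ := {x | 1 - x ^ N ∈ slitPlane}

noncomputable def II (N t : ℕ) (x : ℂ) : ℂ :=
  ∫ r in (0 : ℝ)..1, x ^ t * (r : ℂ) ^ (t - 1) * (1 - ((r : ℂ) * x) ^ N) ^ (-1 / 2 : ℂ)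

noncomputable def JI (N t : ℕ) (s : ℂ) : ℂ :=
  ∫ r in (0 : ℝ)..1, 2 / (N : ℂ) * s * (1 - ((r : ℂ) * s) ^ 2) ^ ((t : ℂ) / N - 1)

noncomputable def BB (N t : ℕ) : ℝ := ∫ x in (0 : ℝ)..1, x ^ (t - 1) / √(1 - x ^ N)

noncomputable def ze (N : ℕ) : ℂ := cexp (2 * Real.pi * I / N)

end Pool.Agent.Lib.MP_caab05_ag.GB
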