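import Mathlib
import Pool.Agent.Lib.MP_caab05_ag.GB.Defs

/-! Statements of the steps (analysis, theta functions, twisting). -/

namespace Pool.Agent.Lib.MP_caab05_ag.GB

open MvPolynomial Filter Topology Asymptotics Complex Matrix

/-! ### Analysis -/

/-- holomorphic functions of several variables are analytic -/
def OsgS : Prop :=
  ∀ (E F : Type) [NormedAddCommGroup E] [NormedSpace ℂ E] [FiniteDimensional ℂ E]
    [NormedAddCommGroup F] [NormedSpace ℂ F] [CompleteSpace F] (f : E → F) (U : Set E),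
    IsOpen U → DifferentiableOn ℂ f U → AnalyticOnNhd ℂ f U

/-- the data of a compact space covered by finitely many charts with two line bundles -/
structure Charts {κ ι α β : Type} [Fintype κ] [Fintype α] [Fintype β]
    (Ω K : ι → Set (κ → ℂ)) (X : ι → (κ → ℂ) → α → ℂ) (Y : ι → (κ → ℂ) → β → ℂ) : Prop where
  op : ∀ i, IsOpen (Ω i)
  cpt : ∀ i, IsCompact (K i)
  sub : ∀ i, K i ⊆ Ω i
  holX : ∀ i, DifferentiableOn ℂ (X i) (Ω i)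
  holY : ∀ i, DifferentiableOn ℂ (Y i) (Ω i)
  neX : ∀ i, ∀ p ∈ K i, X i p ≠ 0
  neY : ∀ i, ∀ p ∈ K i, Y i p ≠ 0
  mtch : ∀ i, Ω i ⊆ closure {p | p ∈ Ω i ∧ ∃ j, ∃ p' ∈ K j, ∃ a b : ℂ,
    X i p = a • X j p' ∧ Y i p = b • Y j p'}

/-- Siegel's theorem on algebraic dependence -/
def DepS : Prop :=
  ∀ (κ ι α β : Type) [Fintype κ] [Fintype ι] [Fintype α] [Fintype β]
    (Ω K : ι → Set (κ → ℂ)) (X : ι → (κ → ℂ) → α → ℂ) (Y : ι → (κ → ℂ) → β → ℂ),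
    Charts Ω K X Y → ∀ (s : Option κ → α) (t : Fin 2 → β),
    ∃ (Q : MvPolynomial (Option κ ⊕ Fin 2) ℂ) (k l : ℕ), Q ≠ 0 ∧ BiH Q k l ∧
      ∀ i, ∀ p ∈ Ω i, eval (Sum.elim (fun a => X i p (s a)) fun b => Y i p (t b)) Q = 0

/-- a relation which really involves the last variable -/
def RelS : Prop :=
  ∀ (κ ι α β : Type) [Fintype κ] [Fintype ι] [Fintype α] [Fintype β]
    (Ω K : ι → Set (κ → ℂ)) (X : ι → (κ → ℂ) → α → ℂ) (Y : ι → (κ → ℂ) → β → ℂ),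
    Charts Ω K X Y → ∀ (i : ι) (t : Fin 2 → β), IsPreconnected (Ω i) →
    (∃ p ∈ Ω i, X i p ≠ 0 ∧ ∀ (w : κ → ℂ) (c : ℂ), fderiv ℂ (X i) p w = c • X i p → w = 0) →
    (∃ p ∈ Ω i, Y i p (t 0) ≠ 0) →
    ∃ (Q : MvPolynomial (α ⊕ Fin 2) ℂ) (k l : ℕ), BiH Q k l ∧
      (∀ p ∈ Ω i, eval (Sum.elim (X i p) fun b => Y i p (t b)) Q = 0) ∧
      ∃ p ∈ Ω i, eval (Sum.elim (X i p) fun b => Y i p (t b)) (pderiv (Sum.inr 1) Q) ≠ 0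

/-- Chow's theorem for an embedded complex torus -/
def ImgS : Prop :=
  ∀ (d : ℕ) (ι : Type) [Fintype ι] (θ : V d → ι → ℂ) (Λ : Set (V d)) (R : ℝ),
    Differentiable ℂ θ → (∀ z, θ z ≠ 0) → (∀ z, ∃ l ∈ Λ, ‖z - l‖ ≤ R) →
    (∀ l ∈ Λ, ∀ z, ∃ c : ℂ, θ (z + l) = c • θ z) →
    (∀ (z w : V d) (c : ℂ), θ z = c • θ w → z - w ∈ Λ) →
    (∀ (z w : V d) (c : ℂ), fderiv ℂ θ z w = c • θ z → w = 0) →
    ∀ x : ι → ℂ, (∀ (P : MvPolynomial ι ℂ) (k : ℕ), P.IsHomogeneous k →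
      (∀ z, eval (θ z) P = 0) → eval x P = 0) → ∃ (c : ℂ) (z : V d), x = c • θ z

/-- a number killed by all derivations which kill `F` is algebraic over `F` -/
def DerS : Prop :=
  ∀ (F : IntermediateField ℚ ℂ) (x : ℂ),
    (∀ D : Der, (∀ y ∈ F, D y = 0) → D x = 0) → IsAlgebraic F x

/-! ### Polynomials and twisting -/

/-- elementary facts on `cD`, `dP`, `BiH` -/
structure PolS : Prop where
  coeff_cD : ∀ (σ : Type) (D : Der) (P : MvPolynomial σ ℂ) m, coeff m (cD D P) = D (coeff m P)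
  D_eval : ∀ (σ : Type) [Fintype σ] (D : Der) (P : MvPolynomial σ ℂ) (x : σ → ℂ),
    D (eval x P) = eval x (cD D P) + dP P x fun i => D (x i)
  D_alg : ∀ (D : Der) (x : ℂ), IsAlgebraic ℚ x → D x = 0
  D_hh : ∀ (D : Der) (g : ℕ) (p : Zg g) (a : Ix g), D (hh p a) = 0
  fderiv_eval : ∀ (σ : Type) [Fintype σ] (P : MvPolynomial σ ℂ) (x x' : σ → ℂ),
    fderiv ℂ (fun y : σ → ℂ => eval y P) x x' = dP P x x'
  diff_eval : ∀ (σ : Type) [Fintype σ] (P : MvPolynomial σ ℂ),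
    Differentiable ℂ fun y : σ → ℂ => eval y P
  dP_add : ∀ (σ : Type) [Fintype σ] (P : MvPolynomial σ ℂ) (x y z : σ → ℂ),
    dP P x (y + z) = dP P x y + dP P x z
  dP_smul : ∀ (σ : Type) [Fintype σ] (P : MvPolynomial σ ℂ) (x y : σ → ℂ) (c : ℂ),
    dP P x (c • y) = c * dP P x y
  bih_cD : ∀ (α β : Type) (D : Der) (Q : MvPolynomial (α ⊕ β) ℂ) k l, BiH Q k l → BiH (cD D Q) k l
  bih_eval : ∀ (α β : Type) (Q : MvPolynomial (α ⊕ β) ℂ) k l, BiH Q k l →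
    ∀ (a b : ℂ) (x : α → ℂ) (y : β → ℂ),
    eval (Sum.elim (a • x) (b • y)) Q = a ^ k * b ^ l * eval (Sum.elim x y) Q
  bih_dP : ∀ (α β : Type) [Fintype α] [Fintype β] (Q : MvPolynomial (α ⊕ β) ℂ) k l, BiH Q k l →
    ∀ (a b : ℂ) (x x' : α → ℂ) (y y' : β → ℂ),
    dP Q (Sum.elim (a • x) (b • y)) (Sum.elim (a • x') (b • y')) =
      a ^ k * b ^ l * dP Q (Sum.elim x y) (Sum.elim x' y')
  euler : ∀ (α β : Type) [Fintype α] [Fintype β] (Q : MvPolynomial (α ⊕ β) ℂ) k l, BiH Q k l →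
    ∀ (a b : ℂ) (x : α → ℂ) (y : β → ℂ),
    dP Q (Sum.elim x y) (Sum.elim (a • x) (b • y)) = (a * k + b * l) * eval (Sum.elim x y) Q
  /-- the Wronskian step -/
  wronski : ∀ (α : Type) [Fintype α] (Q : MvPolynomial (α ⊕ Fin 2) ℂ) k l, BiH Q k l →
    ∀ (x : α → ℂ) (y y' : Fin 2 → ℂ), eval (Sum.elim x y) Q = 0 →
    dP Q (Sum.elim x y) (Sum.elim 0 y') = 0 →
    eval (Sum.elim x y) (pderiv (Sum.inr 1) Q) * (y 0 * y' 1 - y 1 * y' 0) = 0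

/-- the calculus of twists -/
structure TwS : Prop where
  val : ∀ (κ : Type) [Fintype κ] (D : Der) (F G : (κ → ℂ) → ℂ), Tw D F G → G 0 = D (F 0)
  const : ∀ (κ : Type) [Fintype κ] (D : Der) (a : ℂ),
    Tw D (fun _ : κ → ℂ => a) fun _ => D a
  coord : ∀ (κ : Type) [Fintype κ] (D : Der) (k : κ), Tw D (fun u : κ → ℂ => u k) fun _ => 0
  add : ∀ (κ : Type) [Fintype κ] (D : Der) (F G F' G' : (κ → ℂ) → ℂ), Tw D F G → Tw D F' G' →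
    Tw D (fun u => F u + F' u) fun u => G u + G' u
  mul : ∀ (κ : Type) [Fintype κ] (D : Der) (F G F' G' : (κ → ℂ) → ℂ), Tw D F G → Tw D F' G' →
    Tw D (fun u => F u * F' u) fun u => G u * F' u + F u * G' u
  sum : ∀ (κ σ : Type) [Fintype κ] [Fintype σ] (D : Der) (F G : σ → (κ → ℂ) → ℂ),
    (∀ i, Tw D (F i) (G i)) → Tw D (fun u => ∑ i, F i u) fun u => ∑ i, G i u
  poly : ∀ (κ σ : Type) [Fintype κ] [Fintype σ] (D : Der) (F G : (κ → ℂ) → σ → ℂ)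
    (P : MvPolynomial σ ℂ), (∀ i, Tw D (fun u => F u i) fun u => G u i) →
    Tw D (fun u => eval (F u) P) fun u => eval (F u) (cD D P) + dP P (F u) (G u)
  congr : ∀ (κ : Type) [Fintype κ] (D : Der) (F G F' G' : (κ → ℂ) → ℂ), Tw D F G →
    F =ᶠ[𝓝 0] F' → G =ᶠ[𝓝 0] G' → Tw D F' G'
  uniq : ∀ (κ : Type) [Fintype κ] (D : Der) (F G G' : (κ → ℂ) → ℂ), Tw D F G → Tw D F G' →
    AnalyticAt ℂ G 0 → AnalyticAt ℂ G' 0 → G =ᶠ[𝓝 0] G'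
  comp : ∀ (κ σ : Type) [Fintype κ] [Fintype σ] (D : Der) (F G : (σ → ℂ) → ℂ)
    (U U' : (κ → ℂ) → σ → ℂ), Tw D F G → AnalyticAt ℂ F 0 → U 0 = 0 →
    (∀ i, Tw D (fun u => U u i) fun u => U' u i) →
    Tw D (fun u => F (U u)) fun u => G (U u) + fderiv ℂ F (U u) (U' u)
  grad : ∀ (κ : Type) [Fintype κ] (D : Der) (F G : (κ → ℂ) → ℂ), Tw D F G →
    DifferentiableAt ℂ F 0 → DifferentiableAt ℂ G 0 → ∀ w : κ → ℂ,
    D (fderiv ℂ F 0 w) = fderiv ℂ G 0 w + fderiv ℂ F 0 fun k => D (w k)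
  flat : ∀ (κ : Type) [Fintype κ] (D : Der) (P : MvPolynomial κ ℂ) (j : ℕ),
    ((fun u : κ → ℂ => eval u P) =O[𝓝 0] fun u => ‖u‖ ^ j) →
    (fun u : κ → ℂ => eval u (cD D P)) =O[𝓝 0] fun u => ‖u‖ ^ j
  taylor : ∀ (κ : Type) [Fintype κ] (F : (κ → ℂ) → ℂ), AnalyticAt ℂ F 0 → ∀ j : ℕ,
    ∃ P : MvPolynomial κ ℂ, (fun u => F u - eval u P) =O[𝓝 0] fun u => ‖u‖ ^ j
  jet : ∀ (D : Der) (f f' : ℂ → ℂ), AnalyticAt ℂ f 0 → AnalyticAt ℂ f' 0 →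
    (Tw D (fun u : Unit → ℂ => f (u ())) (fun u => f' (u ())) ↔
      ∀ j, iteratedDeriv j f' 0 = D (iteratedDeriv j f 0))

/-- an entire map with a polynomial duplication formula has an entire twist -/
def TwExS : Prop :=
  ∀ (κ ι : Type) [Fintype κ] [Fintype ι] (D : Der) (θ : (κ → ℂ) → ι → ℂ)
    (P : ι → MvPolynomial ι ℂ), Differentiable ℂ θ →
    (∀ u i, θ ((2 : ℂ) • u) i = eval (θ u) (P i)) →
    ∃ ψ : (κ → ℂ) → ι → ℂ, Differentiable ℂ ψ ∧ ∀ i, Tw D (fun u => θ u i) fun u => ψ u i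

/-! ### Theta functions -/

def SumS : Prop :=
  ∀ (g : ℕ) (τ : Mat g), Pos τ → ∀ t : ℝ, 0 < t → ∀ u : V g, Summable fun m : Fin g → ℤ =>
    ‖cexp (Real.pi * I * (∑ i, ∑ j, (m i : ℂ) * τ i j * (m j : ℂ)) * t +
      2 * Real.pi * I * ∑ i, (m i : ℂ) * u i)‖

def HolS : Prop :=
  ∀ g : ℕ, IsOpen {τ : Mat g | Pos τ} ∧
    DifferentiableOn ℂ (fun q : Mat g × V g => th q.1 q.2) {q | Pos q.1}

structure LawS : Prop where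
  law : ∀ (g : ℕ) (τ : Mat g), Sg τ → ∀ p u, th τ (u + tor τ p) = ee τ p u • HH p (th τ u)
  even : ∀ (g : ℕ) (τ : Mat g) (u : V g) (a : Ix g), th τ (-u) a = th τ u (-a)
  lawu : ∀ (g : ℕ) (τ : Mat g), Sg τ → ∀ p u w, du τ (u + tor τ p) w =
    ee τ p u • HH p (du τ u w - (2 * Real.pi * I * (lft (cst p) ⬝ᵥ w)) • th τ u)
  lawK : ∀ (g : ℕ) (τ K : Mat g), Sg τ → (∀ i j, K i j = K j i) → ∀ p, ∃ r : ℂ, ∀ u,
    dK τ K (u + tor τ p) = ee τ p u •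
      HH p (dK τ K u - du τ u ((1 / 4 : ℂ) • app K (lft (cst p))) + r • th τ u)
  evenu : ∀ (g : ℕ) (τ : Mat g), Sg τ → ∀ (u w : V g) (a : Ix g),
    du τ (-u) w a = -du τ u w (-a)
  evenK : ∀ (g : ℕ) (τ K : Mat g), Sg τ → ∀ (u : V g) (a : Ix g),
    dK τ K (-u) a = dK τ K u (-a)
  holu : ∀ (g : ℕ) (τ : Mat g), Sg τ → Differentiable ℂ (th τ) ∧
    Differentiable ℂ fun q : V g × V g => du τ q.1 q.2
  holK : ∀ (g : ℕ) (τ K : Mat g), Sg τ → Differentiable ℂ (dK τ K)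
  cocycle : ∀ (g : ℕ) (τ : Mat g), Sg τ → ∀ (p q : Zg g) (u : V g) (X : Ix g → ℂ),
    ee τ (p + q) u • HH (p + q) X = (ee τ p (u + tor τ q) * ee τ q u) • HH p (HH q X)
  /-- translations by full periods act by scalars -/
  hh_four : ∀ (g : ℕ) (p : Zg g) (X : Ix g → ℂ), HH ((4 : ℤ) • p) X = X
  tor_four : ∀ (g : ℕ) (τ : Mat g) (p : Zg g), tor τ ((4 : ℤ) • p) = per τ (cst p)
  tor_add : ∀ (g : ℕ) (τ : Mat g) (p q : Zg g), tor τ (p + q) = tor τ p + tor τ q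
  hh_ne : ∀ (g : ℕ) (p : Zg g) (a : Ix g), hh p a ≠ 0
  HH_inj : ∀ (g : ℕ) (p : Zg g) (X Y : Ix g → ℂ), HH p X = HH p Y → X = Y
  /-- the periods form a lattice -/
  cocompact : ∀ (g : ℕ) (τ : Mat g), Sg τ → ∃ R : ℝ, ∀ u, ∃ p, ‖u - per τ (cst p)‖ ≤ R
  per_real : ∀ (g : ℕ) (τ : Mat g), Sg τ →
    Function.Bijective fun x : Fin g ⊕ Fin g → ℝ => per τ fun i => (x i : ℂ)

structure UniqS : Prop where
  uniq : ∀ (g : ℕ) (τ : Mat g), Sg τ → ∀ G : V g → Ix g → ℂ, Differentiable ℂ G →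
    (∀ p u, G (u + tor τ p) = ee τ p u • HH p (G u)) → ∃ κ : ℂ, ∀ u, G u = κ • th τ u
  ne : ∀ (g : ℕ) (τ : Mat g), Sg τ → ∀ a, ∃ u, th τ u a ≠ 0

/-- Mumford's combinations of products of two theta functions -/
noncomputable def UU {g : ℕ} (s : Fin g → Fin 2) (X Y : Ix g → ℂ) (a b : Fin g → ℤ) : ℂ :=
  ∑ η : Fin g → Fin 2, (-1) ^ (∑ j, (s j : ℕ) * (η j : ℕ)) *
    X (fun j => ((a j + 2 * (η j : ℕ) : ℤ) : ZMod 4)) *
    Y fun j => ((b j + 2 * (η j : ℕ) : ℤ) : ZMod 4)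

noncomputable def AA {g : ℕ} (τ : Mat g) (s : Fin g → Fin 2) (r : Fin g → ℤ) (w : V g) : ℂ :=
  ∑' x : Fin g → ℤ, (-1) ^ (∑ j, ((s j : ℕ) : ℤ) * x j) *
    cexp (Real.pi * I * (∑ i, ∑ j, ((r i + 4 * x i : ℤ) : ℂ) * τ i j * ((r j + 4 * x j : ℤ) : ℂ)) / 8
      + Real.pi * I * ∑ i, ((r i + 4 * x i : ℤ) : ℂ) * w i)

/-- the product formula -/
def FacS : Prop :=
  ∀ (g : ℕ) (τ : Mat g), Sg τ → ∀ (s : Fin g → Fin 2) (x y : V g) (a b : Fin g → ℤ),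
    UU s (th τ x) (th τ y) a b = AA τ s (a + b) (x + y) * AA τ s (a - b) (x - y)

/-- Riemann's theta relation -/
def RieS : Prop :=
  ∀ (g : ℕ) (τ : Mat g), Sg τ → ∀ (s : Fin g → Fin 2) (u v : V g)
    (a₁ a₂ a₃ a₄ b₁ b₂ b₃ b₄ : Fin g → ℤ),
    (2 : ℤ) • b₁ = a₁ + a₂ + a₃ + a₄ → (2 : ℤ) • b₂ = a₁ + a₂ - a₃ - a₄ →
    (2 : ℤ) • b₃ = a₁ - a₂ + a₃ - a₄ → (2 : ℤ) • b₄ = a₁ - a₂ - a₃ + a₄ →
    UU s (th τ (u + v)) (th τ (u - v)) a₁ a₂ * UU s (th τ 0) (th τ 0) a₃ a₄ =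
      UU s (th τ u) (th τ u) b₁ b₂ * UU s (th τ v) (th τ v) b₃ b₄

/-- Mumford's non-vanishing lemma -/
def MumS : Prop :=
  ∀ (g : ℕ) (τ : Mat g), Sg τ → ∀ (s : Fin g → Fin 2) (π : Fin g → ℤ),
    ∃ κ : Fin g → ℤ, UU s (th τ 0) (th τ 0) (π + (2 : ℤ) • κ) 0 ≠ 0

/-- an addition formula compatible with the Heisenberg group -/
structure AddF {g : ℕ} (τ : Mat g) (B : Ix g → Ix g → MvPolynomial (Ix g ⊕ Ix g) ℂ) : Prop where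
  bih : ∀ a b, BiH (B a b) 2 2
  add : ∀ u v a b, th τ (u + v) a * th τ (u - v) b = eval (Sum.elim (th τ u) (th τ v)) (B a b)
  eqv₁ : ∀ p X Y a b, eval (Sum.elim (HH p X) Y) (B a b) =
    hh p a * hh p b * eval (Sum.elim X Y) (B (a + sh p) (b + sh p))
  eqv₂ : ∀ p X Y a b, eval (Sum.elim X (HH p Y)) (B a b) =
    hh p a * hh (-p) b * eval (Sum.elim X Y) (B (a + sh p) (b - sh p))
  alg : ∀ t : ℂ, t ≠ 0 → (∀ a, IsAlgebraic ℚ (th τ 0 a / t)) →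
    ∀ a b m, IsAlgebraic ℚ (coeff m (B a b) * t ^ 2)

def AddS : Prop := ∀ (g : ℕ) (τ : Mat g), Sg τ → ∃ B, AddF τ B

/-- the theta functions of level four give an embedding -/
structure GeoS : Prop where
  nz : ∀ (g : ℕ) (τ : Mat g), Sg τ → ∀ u, th τ u ≠ 0
  inj : ∀ (g : ℕ) (τ : Mat g), Sg τ → ∀ (u w : V g) (c : ℂ), th τ u = c • th τ w →
    ∃ p, u - w = per τ (cst p)
  imm : ∀ (g : ℕ) (τ : Mat g), Sg τ → ∀ (u w : V g) (c : ℂ), du τ u w = c • th τ u → w = 0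

/-- the theta transformation formula for the congruence group of level eight -/
def TransS : Prop :=
  ∀ (g : ℕ) (τ τ' j : Mat g) (ρ : Matrix (Fin g ⊕ Fin g) (Fin g ⊕ Fin g) ℤ), Sg τ → Sg τ' →
    (∀ p q : Zg g, JJ (ρ *ᵥ p) (ρ *ᵥ q) = JJ p q) → (∀ a b, (8 : ℤ) ∣ (ρ - 1) a b) →
    (∀ p : Zg g, app j (per τ (cst p)) = per τ' (cst (ρ *ᵥ p))) →
    ∃ (κ : ℂ) (q : Mat g), κ ≠ 0 ∧
      ∀ u, th τ' (app j u) = (κ * cexp (u ⬝ᵥ app q u)) • th τ u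

/-- infinitesimal rigidity of the theta functions -/
structure RigS : Prop where
  rig₀ : ∀ (g : ℕ) (τ : Mat g), Sg τ → ∀ (ψ : V g → Ix g → ℂ) (r : Zg g → ℂ),
    Differentiable ℂ ψ → (∀ p u, ψ (u + tor τ p) = ee τ p u • HH p (ψ u + r p • th τ u)) →
    ∃ (μ l : V g) (c : ℂ), ∀ u, ψ u = du τ u μ + (l ⬝ᵥ u + c) • th τ u
  rig₁ : ∀ (g : ℕ) (τ : Mat g), Sg τ → ∀ (ψ : V g → Ix g → ℂ) (μ l : Zg g → V g) (r : Zg g → ℂ),
    Differentiable ℂ ψ → (∀ p u, ψ (u + tor τ p) =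
      ee τ p u • HH p (ψ u + du τ u (μ p) + (l p ⬝ᵥ u + r p) • th τ u)) →
    ∃ (M K N : Mat g) (μ₀ l₀ : V g) (c : ℂ), (∀ i j, K i j = K j i) ∧ ∀ u,
      ψ u = du τ u (app M u + μ₀) + dK τ K u + (u ⬝ᵥ app N u + l₀ ⬝ᵥ u + c) • th τ u

/-- the twisted addition formula -/
def TwAdd {g : ℕ} (D : Der) (τ : Mat g) (B : Ix g → Ix g → MvPolynomial (Ix g ⊕ Ix g) ℂ)
    (ψ : V g → Ix g → ℂ) : Prop :=
  ∀ u v a b, ψ (u + v) a * th τ (u - v) b + th τ (u + v) a * ψ (u - v) b =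
    eval (Sum.elim (th τ u) (th τ v)) (cD D (B a b)) +
      dP (B a b) (Sum.elim (th τ u) (th τ v)) (Sum.elim (ψ u) (ψ v))

def TwAS : Prop :=
  ∀ (g : ℕ) (D : Der) (τ : Mat g), Sg τ → ∀ B, AddF τ B → ∃ ψ : V g → Ix g → ℂ,
    Differentiable ℂ ψ ∧ (∀ a, Tw D (fun u => th τ u a) fun u => ψ u a) ∧ TwAdd D τ B ψ ∧
    ∀ u a, ψ (-u) a = ψ u (-a)

def TwLS : Prop :=
  ∀ (g : ℕ) (D : Der) (τ : Mat g), Sg τ → ∀ B, AddF τ B → ∀ ψ : V g → Ix g → ℂ,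
    Differentiable ℂ ψ → TwAdd D τ B ψ → ∃ (μ l : Zg g → V g) (r : Zg g → ℂ), ∀ p u,
      ψ (u + tor τ p) = ee τ p u • HH p (ψ u + du τ u (μ p) + (l p ⬝ᵥ u + r p) • th τ u)

def TwMS : Prop := ∀ (g : ℕ) (D : Der) (τ : Mat g), Sg τ → ∃ M K N c, IsTw D τ M K N c

/-- an algebraic relation along a homomorphism -/
def HomRelS : Prop :=
  ∀ (g g' : ℕ) (τ : Mat g) (τ' : Mat g') (a : V g →L[ℂ] V g'), Sg τ → Sg τ' →
    (∀ p : Zg g, ∃ p' : Zg g', a (per τ (cst p)) = per τ' (cst p')) →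
    ∀ t : Fin 2 → Ix g', th τ' 0 (t 0) ≠ 0 →
    ∃ (Q : MvPolynomial (Ix g ⊕ Fin 2) ℂ) (k l : ℕ), BiH Q k l ∧
      (∀ u, eval (Sum.elim (th τ u) fun b => th τ' (a u) (t b)) Q = 0) ∧
      ∃ u, eval (Sum.elim (th τ u) fun b => th τ' (a u) (t b)) (pderiv (Sum.inr 1) Q) ≠ 0

/-- `beta` is compatible with homomorphisms up to isogeny -/
def HomS : Prop :=
  ∀ (g g' : ℕ) (D : Der) (τ M K N : Mat g) (c : ℂ) (τ' M' K' N' : Mat g') (c' : ℂ)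
    (a : V g →ₗ[ℂ] V g') (ρ : W g →ₗ[ℂ] W g'), Sg τ → Sg τ' → IsTw D τ M K N c →
    IsTw D τ' M' K' N' c' → (∀ w, IsRat w → IsRat (ρ w)) → (∀ w, a (per τ w) = per τ' (ρ w)) →
    ∀ w, a (beta D τ M K w) = beta D τ' M' K' (ρ w)

/-- properties of the modular forms `Xc` and `om` -/
structure XHolS : Prop where
  hol : ∀ g J : ℕ, DifferentiableOn ℂ (fun τ : Mat g => Xc τ J) {τ | Pos τ}
  holom : ∀ g : ℕ, DifferentiableOn ℂ (fun q : Mat g × V g => om q.1 q.2) {q | Pos q.1}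
  ne : ∀ (g J : ℕ) (τ : Mat g), Sg τ → Xc τ J ≠ 0
  neom : ∀ (g : ℕ) (τ : Mat g) (w : V g), Sg τ → om τ w = 0 → w = 0
  neom' : ∀ (g : ℕ) (τ : Mat g) (w : V g) (a₀ : Ix g), Sg τ → th τ 0 a₀ ≠ 0 →
    (∀ a, om τ w (a, a₀) = 0) → w = 0
  trans : ∀ (g J : ℕ) (τ τ' j q : Mat g) (κ : ℂ), 0 < g → Sg τ → Sg τ' → κ ≠ 0 →
    (Matrix.of j).det ≠ 0 → (∀ u, th τ' (app j u) = (κ * cexp (u ⬝ᵥ app q u)) • th τ u) →
    (∃ κ' : ℂ, Xc τ J = κ' • Xc τ' J) ∧ ∀ w, om τ' (app j w) = κ ^ 2 • om τ w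
  om_smul : ∀ (g : ℕ) (τ : Mat g) (c : ℂ) (w : V g), om τ (c • w) = c • om τ w

structure XDS : Prop where
  nul : ∀ (g : ℕ) (D : Der) (τ M N : Mat g) (c : ℂ), Sg τ → IsTw D τ M 0 N c →
    ∀ a, D (th τ 0 a) = c * th τ 0 a
  dom : ∀ (g : ℕ) (D : Der) (τ M N : Mat g) (c : ℂ), Sg τ → IsTw D τ M 0 N c →
    ∀ w s, D (om τ w s) = om τ (app M w + fun k => D (w k)) s + 2 * c * om τ w s
  dX : ∀ (g J : ℕ) (D : Der) (τ M N : Mat g) (c : ℂ), 0 < g → Sg τ → IsTw D τ M 0 N c →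
    ∃ c' : ℂ, ∀ q, D (Xc τ J q) = c' * Xc τ J q
  /-- at a point with complex multiplication the abelian variety does not move -/
  rigid : ∀ (g : ℕ) (D : Der) (τ M K : Mat g) (S : Set (W g)),
    (∀ f ∈ S, (∀ j, D (f j) = 0) ∧ per τ f = 0 ∧ beta D τ M K f = 0) →
    (∀ w, per τ w = 0 → w ∈ Submodule.span ℂ S) → K = 0 ∧ ∀ i j, D (τ i j) = 0

/-- infinitesimal Torelli theorem -/
def TorS : Prop :=
  ∀ (g : ℕ) (τ : Mat g), Sg τ → ∃ J : ℕ, ∀ (K : Mat g) (t : ℂ), (∀ i j, K i j = K j i) →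
    fderiv ℂ (fun σ : Mat g => Xc σ J) τ K = t • Xc τ J → K = 0

end Pool.Agent.Lib.MP_caab05_ag.GB
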