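import Mathlib
import Pool.Agent.Lib.MP_caab05_ag.GB.Stmt

/-! Holomorphic maps on a finite dimensional complex space are analytic. -/

namespace Pool.Agent.Lib.MP_caab05_ag.GB

open Filter Topology Metric Asymptotics

namespace OsgAux

variable {E : Type} [NormedAddCommGroup E] [NormedSpace ℂ E]

/-- Cauchy estimate. -/
lemma cauchy {F : Type} [NormedAddCommGroup F] [NormedSpace ℂ F] {f : E → F} {c : E} {R M : ℝ}
    (hR : 0 < R) (hd : DifferentiableOn ℂ f (ball c R)) (hM : ∀ x ∈ ball c R, ‖f x‖ ≤ M) :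
    ‖fderiv ℂ f c‖ ≤ 2 * M / R := by
  refine Complex.norm_fderiv_le_div_of_mapsTo_ball hd (fun x hx => ?_) hR
  rw [mem_closedBall_iff_norm]
  linarith [norm_sub_le (f x) (f c), hM x hx, hM c (mem_ball_self hR)]

omit [NormedSpace ℂ E] in
lemma ball_sub {c x : E} {a b : ℝ} (hx : x ∈ ball c a) : ball x b ⊆ ball c (a + b) := fun y hy => by
  rw [mem_ball] at hx hy ⊢
  linarith [dist_triangle y x c]

/-- A uniform limit of holomorphic maps is holomorphic. -/
lemma lim_diff {F : Type} [NormedAddCommGroup F] [NormedSpace ℂ F] [CompleteSpace F]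
    {g : ℕ → E → F} {G : E → F} {c : E} {R : ℝ} (hR : 0 < R)
    (hd : ∀ n, DifferentiableOn ℂ (g n) (ball c (R + R)))
    (hu : TendstoUniformlyOn g G atTop (ball c (R + R))) : DifferentiableAt ℂ G c := by
  have hs : ball c R ⊆ ball c (R + R) := ball_subset_ball (by linarith)
  have hat : ∀ n, ∀ x ∈ ball c R, DifferentiableAt ℂ (g n) x := fun n x hx =>
    (hd n).differentiableAt (isOpen_ball.mem_nhds (hs hx))
  have hC : UniformCauchySeqOn (fun n => fderiv ℂ (g n)) atTop (ball c R) := by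
    rw [Metric.uniformCauchySeqOn_iff]
    intro ε hε
    obtain ⟨N, hN⟩ := Metric.uniformCauchySeqOn_iff.1 hu.uniformCauchySeqOn (ε * R / 4)
      (by positivity)
    refine ⟨N, fun m hm n hn x hx => ?_⟩
    have h1 := cauchy (f := fun y => g m y - g n y) (c := x) (M := ε * R / 4) hR
      (((hd m).sub (hd n)).mono (ball_sub hx)) fun y hy => by
        have := hN m hm n hn y (ball_sub hx hy)
        rw [dist_eq_norm] at this
        exact this.le
    rw [fderiv_fun_sub (hat m x hx) (hat n x hx)] at h1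
    rw [dist_eq_norm]
    have h2 : 2 * (ε * R / 4) / R = ε / 2 := by field_simp; ring
    linarith
  have hT := hC.tendstoUniformlyOn_of_tendsto
    (f := fun x => limUnder atTop fun n => fderiv ℂ (g n) x)
    fun x hx => (hC.cauchySeq hx).tendsto_limUnder
  exact (hasFDerivAt_of_tendstoUniformlyOn isOpen_ball hT (fun n x hx => (hat n x hx).hasFDerivAt)
    (fun x hx => hu.tendsto_at (hs hx)) (mem_ball_self hR)).differentiableAt

/-- Second order estimate. -/
lemma second {F : Type} [NormedAddCommGroup F] [NormedSpace ℂ F] {f : E → F} {x z : E} {R M : ℝ}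
    (hd : DifferentiableOn ℂ f (ball x R)) (hM : ∀ y ∈ ball x R, ‖f y‖ ≤ M) (hz : z ∈ ball x R) :
    ‖f z - f x - fderiv ℂ f x (z - x)‖ ≤ 4 * M * (‖z - x‖ / R) ^ 2 := by
  have hR : 0 < R := pos_of_mem_ball hz
  have h0 := cauchy hR hd hM
  have hM0 : 0 ≤ M := (norm_nonneg _).trans (hM x (mem_ball_self hR))
  have hx : HasFDerivAt f (fderiv ℂ f x) x :=
    (hd.differentiableAt (ball_mem_nhds x hR)).hasFDerivAt
  have h := Complex.dist_le_mul_div_pow_of_mapsTo_ball_of_isLittleO
    (f := fun y => f y - f x - fderiv ℂ f x (y - x)) (c := x) (z := z) (R₁ := R) (R₂ := 4 * M)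
    (n := 1) ((hd.sub_const _).sub (by fun_prop)) (fun y hy => by
      have h1 : ‖fderiv ℂ f x (y - x)‖ ≤ 2 * M / R * R :=
        ((fderiv ℂ f x).le_opNorm _).trans
          (mul_le_mul h0 (mem_ball_iff_norm.1 hy).le (norm_nonneg _) (by positivity))
      have h2 : 2 * M / R * R = 2 * M := by field_simp
      have h3 := norm_sub_le (f y - f x) (fderiv ℂ f x (y - x))
      have h4 := norm_sub_le (f y) (f x)
      simp only [sub_self, map_zero, mem_closedBall, dist_zero_right]
      linarith [hM y hy, hM x (mem_ball_self hR)]) (by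
      simpa using (hasFDerivAt_iff_isLittleO.1 hx)) hz
  simpa [dist_eq_norm] using h

/-- local boundedness -/
lemma loc {F : Type} [NormedAddCommGroup F] [NormedSpace ℂ F] {f : E → F} {U : Set E}
    (hU : IsOpen U) (hf : DifferentiableOn ℂ f U) {c : E} (hc : c ∈ U) :
    ∃ R M : ℝ, 0 < R ∧ ball c R ⊆ U ∧ ∀ x ∈ ball c R, ‖f x‖ ≤ M := by
  have h1 : ContinuousAt f c := (hf.differentiableAt (hU.mem_nhds hc)).continuousAt
  have h2 : ∀ᶠ x in 𝓝 c, ‖f x‖ < ‖f c‖ + 1 :=
    h1.norm.eventually (gt_mem_nhds (lt_add_one _))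
  obtain ⟨R, hR, h⟩ := Metric.eventually_nhds_iff_ball.1 (h2.and (hU.mem_nhds hc))
  exact ⟨R, ‖f c‖ + 1, hR, fun x hx => (h x hx).2, fun x hx => (h x hx).1.le⟩

lemma diff_apply {F : Type} [NormedAddCommGroup F] [NormedSpace ℂ F] [CompleteSpace F]
    {f : E → F} {U : Set E} (hU : IsOpen U) (hf : DifferentiableOn ℂ f U) (v : E) :
    DifferentiableOn ℂ (fun x => fderiv ℂ f x v) U := by
  intro c hc
  obtain ⟨R, M, hR, hsub, hM⟩ := loc hU hf hc
  set r := R / 3 with hr
  have hr0 : 0 < r := by positivity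
  have hM0 : 0 ≤ M := (norm_nonneg _).trans (hM c (mem_ball_self hR))
  set s : ℝ := r / (‖v‖ + 1) with hs
  have hs0 : 0 < s := by positivity
  set t : ℕ → ℝ := fun n => s * (1 / ((n : ℝ) + 1)) with ht
  have ht0 : ∀ n, 0 < t n := fun n => by positivity
  have htl : Tendsto t atTop (𝓝 0) := by
    have := (tendsto_one_div_add_atTop_nhds_zero_nat (𝕜 := ℝ)).const_mul s
    rwa [mul_zero] at this
  have htv : ∀ n, ‖(t n : ℂ) • v‖ < r := fun n => by
    rw [norm_smul, Complex.norm_real, Real.norm_of_nonneg (ht0 n).le]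
    have h1 : t n ≤ s := mul_le_of_le_one_right hs0.le
      (by rw [div_le_one (by positivity)]; linarith [Nat.cast_nonneg (α := ℝ) n])
    have h2 : s * (‖v‖ + 1) = r := by rw [hs]; field_simp
    nlinarith [norm_nonneg v, ht0 n]
  have hb : ∀ x ∈ ball c (r + r), ball x r ⊆ ball c R := fun x hx =>
    (ball_sub hx).trans (ball_subset_ball (by rw [hr]; linarith))
  have hmem : ∀ n x, x + (t n : ℂ) • v ∈ ball x r := fun n x => by
    rw [mem_ball_iff_norm, add_sub_cancel_left]; exact htv n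
  refine (lim_diff (g := fun n x => ((t n : ℂ))⁻¹ • (f (x + (t n : ℂ) • v) - f x)) hr0
    (fun n => ?_) ?_).differentiableWithinAt
  · refine DifferentiableOn.const_smul (DifferentiableOn.sub ?_ ?_) _
    · exact hf.comp (f := fun x => x + (t n : ℂ) • v) (by fun_prop)
        fun x hx => hsub (hb x hx (hmem n x))
    · exact hf.mono fun x hx => hsub (hb x hx (mem_ball_self hr0))
  · rw [Metric.tendstoUniformlyOn_iff]
    intro ε hε
    have h1 : Tendsto (fun n => 4 * M * (‖v‖ / r) ^ 2 * t n) atTop (𝓝 0) := by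
      simpa using htl.const_mul (4 * M * (‖v‖ / r) ^ 2)
    filter_upwards [h1.eventually (gt_mem_nhds hε)] with n hn x hx
    have h2 := second (hf.mono ((hb x hx).trans hsub)) (fun y hy => hM y (hb x hx hy)) (hmem n x)
    have hne : (t n : ℂ) ≠ 0 := by exact_mod_cast (ht0 n).ne'
    rw [add_sub_cancel_left, map_smul, norm_smul, Complex.norm_real,
      Real.norm_of_nonneg (ht0 n).le] at h2
    have h3 : (t n : ℂ)⁻¹ • (f (x + (t n : ℂ) • v) - f x) - fderiv ℂ f x v =
        (t n : ℂ)⁻¹ • (f (x + (t n : ℂ) • v) - f x - (t n : ℂ) • fderiv ℂ f x v) := by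
      rw [smul_sub _ _ ((t n : ℂ) • _), inv_smul_smul₀ hne]
    rw [dist_comm, dist_eq_norm, h3, norm_smul, norm_inv, Complex.norm_real,
      Real.norm_of_nonneg (ht0 n).le]
    refine lt_of_le_of_lt ?_ hn
    rw [inv_mul_le_iff₀ (ht0 n)]
    refine h2.trans_eq ?_
    ring

variable [FiniteDimensional ℂ E]

lemma diff_fderiv {F : Type} [NormedAddCommGroup F] [NormedSpace ℂ F] [CompleteSpace F]
    {f : E → F} {U : Set E} (hU : IsOpen U) (hf : DifferentiableOn ℂ f U) :
    DifferentiableOn ℂ (fderiv ℂ f) U := by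
  let d := Module.finrank ℂ E
  have hd : d = Module.finrank ℂ (Fin d → ℂ) := (Module.finrank_fin_fun ℂ).symm
  let e₁ := ContinuousLinearEquiv.ofFinrankEq hd
  let e₂ := (e₁.arrowCongr (1 : F ≃L[ℂ] F)).trans (ContinuousLinearEquiv.piRing (Fin d))
  rw [← Function.id_comp (fderiv ℂ f), ← e₂.symm_comp_self]
  exact e₂.symm.differentiable.comp_differentiableOn
    (differentiableOn_pi.mpr fun i => diff_apply hU hf _)

lemma contDiff (n : ℕ) : ∀ {F : Type} [NormedAddCommGroup F] [NormedSpace ℂ F] [CompleteSpace F]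
    {f : E → F} {U : Set E}, IsOpen U → DifferentiableOn ℂ f U → ContDiffOn ℂ n f U := by
  induction n with
  | zero => intro F _ _ _ f U _ hf; simpa using hf.continuousOn
  | succ n ih =>
    intro F _ _ _ f U hU hf
    rw [Nat.cast_succ, contDiffOn_succ_iff_fderiv_of_isOpen hU]
    exact ⟨hf, by simp, ih hU (diff_fderiv hU hf)⟩

lemma bound {r : ℝ} (hr : 0 < r) (n : ℕ) : ∀ {F : Type} [NormedAddCommGroup F] [NormedSpace ℂ F]
    [CompleteSpace F] {f : E → F} {c : E} {M : ℝ}, DifferentiableOn ℂ f (ball c ((n + 1) * r)) →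
    (∀ x ∈ ball c ((n + 1) * r), ‖f x‖ ≤ M) → ‖iteratedFDeriv ℂ n f c‖ ≤ M * (2 / r) ^ n := by
  induction n with
  | zero =>
    intro F _ _ _ f c M _ hM
    simpa using hM c (mem_ball_self (by simpa using hr))
  | succ n ih =>
    intro F _ _ _ f c M hf hM
    have hb : ∀ x ∈ ball c ((n + 1) * r), ball x r ⊆ ball c (((n + 1 : ℕ) + 1) * r) := fun x hx =>
      (ball_sub hx).trans (ball_subset_ball (by push_cast; linarith))
    rw [← norm_iteratedFDeriv_fderiv]
    refine (ih (M := 2 * M / r) ((diff_fderiv isOpen_ball hf).mono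
      fun x hx => hb x hx (mem_ball_self hr))
      fun x hx => cauchy hr (hf.mono (hb x hx)) fun y hy => hM y (hb x hx hy)).trans_eq ?_
    rw [pow_succ]
    ring

lemma line {F : Type} [NormedAddCommGroup F] [NormedSpace ℂ F] [CompleteSpace F]
    {f : E → F} {U : Set E} (hU : IsOpen U) (hf : DifferentiableOn ℂ f U) (c y : E) (n : ℕ) :
    ∀ t : ℂ, c + t • y ∈ U → iteratedDeriv n (fun s : ℂ => f (c + s • y)) t =
      iteratedFDeriv ℂ n f (c + t • y) fun _ => y := by
  induction n with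
  | zero => intro t _; simp
  | succ n ih =>
    intro t ht
    have hl : HasDerivAt (fun s : ℂ => c + s • y) y t := by
      simpa using ((hasDerivAt_id t).smul_const y).const_add c
    have hev : ∀ᶠ s in 𝓝 t, c + s • y ∈ U := hl.continuousAt.eventually (hU.mem_nhds ht)
    have hD : DifferentiableAt ℂ (iteratedFDeriv ℂ n f) (c + t • y) :=
      ((contDiff (n + 1) hU hf).contDiffAt (hU.mem_nhds ht)).differentiableAt_iteratedFDeriv
        (by exact_mod_cast Nat.lt_succ_self n)
    rw [iteratedDeriv_succ, Filter.EventuallyEq.deriv_eq (hev.mono fun s hs => ih s hs),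
      hD.iteratedFDeriv_succ_apply_left']
    have h1 : DifferentiableAt ℂ (fun z => iteratedFDeriv ℂ n f z fun _ => y) (c + t • y) :=
      hD.continuousMultilinear_apply_const _
    exact (h1.hasFDerivAt.comp_hasDerivAt t hl).deriv

end OsgAux

open OsgAux in
theorem osg : OsgS := by
  intro E F _ _ _ _ _ _ f U hU hf c hc
  obtain ⟨R, M, hR, hsub, hM⟩ := loc hU hf hc
  have hM0 : 0 ≤ M := (norm_nonneg _).trans (hM c (mem_ball_self hR))
  set p : FormalMultilinearSeries ℂ E F := fun n => ((n.factorial : ℂ))⁻¹ • iteratedFDeriv ℂ n f c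
    with hp
  have he : 0 < Real.exp 1 := Real.exp_pos 1
  have he1 : 1 ≤ Real.exp 1 := Real.one_le_exp zero_le_one
  set ρ : ℝ := R / (2 * Real.exp 1) with hρ
  have hρ0 : 0 < ρ := by positivity
  have hρR : 2 * ρ ≤ R := by
    rw [hρ, ← mul_div_assoc, div_le_iff₀ (by positivity)]
    nlinarith
  have hbd : ∀ n : ℕ, ‖p n‖ * ρ ^ n ≤ M * Real.exp 1 := fun n => by
    have hn : (0 : ℝ) < n + 1 := by positivity
    have h0 : ((n : ℝ) + 1) * (R / (n + 1)) = R := by field_simp
    have h1 := bound (r := R / (n + 1)) (by positivity) n (f := f) (c := c) (M := M)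
      (by rw [h0]; exact hf.mono hsub) (by rw [h0]; exact hM)
    have h2 := Real.pow_div_factorial_le_exp ((n : ℝ) + 1) hn.le n
    have h3 : Real.exp ((n : ℝ) + 1) = Real.exp 1 ^ n * Real.exp 1 := by
      rw [Real.exp_add, ← Real.exp_nat_mul, mul_one]
    have h4 : (2 / (R / (n + 1))) ^ n * ρ ^ n = ((n : ℝ) + 1) ^ n / Real.exp 1 ^ n := by
      rw [← mul_pow, ← div_pow, hρ]
      congr 1
      field_simp
    have hf0 : (0 : ℝ) < n.factorial := by exact_mod_cast n.factorial_pos
    calc ‖p n‖ * ρ ^ n = (n.factorial : ℝ)⁻¹ * ‖iteratedFDeriv ℂ n f c‖ * ρ ^ n := by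
          rw [hp]; simp [norm_smul]
      _ ≤ (n.factorial : ℝ)⁻¹ * (M * (2 / (R / (n + 1))) ^ n) * ρ ^ n := by gcongr
      _ = M * (((n : ℝ) + 1) ^ n / n.factorial) / Real.exp 1 ^ n := by
          rw [mul_assoc, mul_assoc, h4]; ring
      _ ≤ M * (Real.exp 1 ^ n * Real.exp 1) / Real.exp 1 ^ n := by rw [← h3]; gcongr
      _ = M * Real.exp 1 := by field_simp
  have hco : ((ρ.toNNReal : NNReal) : ℝ) = ρ := Real.coe_toNNReal _ hρ0.le
  refine ⟨p, (ρ.toNNReal : NNReal), p.le_radius_of_bound (M * Real.exp 1) (by rw [hco]; exact hbd),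
    by simpa using hρ0, ?_⟩
  intro y hy
  rw [Metric.eball_coe, mem_ball_zero_iff, hco] at hy
  have hin : ∀ s ∈ ball (0 : ℂ) 2, c + s • y ∈ U := fun s hs => hsub (by
    rw [mem_ball_iff_norm, add_sub_cancel_left, norm_smul]
    rw [mem_ball_zero_iff] at hs
    nlinarith [norm_nonneg s, norm_nonneg y])
  have h := Complex.hasSum_taylorSeries_on_ball (f := fun s : ℂ => f (c + s • y)) (c := 0) (r := 2)
    (hf.comp (f := fun s : ℂ => c + s • y) (by fun_prop) hin) (z := 1) (by simp)
  have h0 : c + (0 : ℂ) • y ∈ U := by simpa using hc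
  simp only [line hU hf c y _ 0 h0] at h
  simpa [hp] using h

end Pool.Agent.Lib.MP_caab05_ag.GB
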