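import Mathlib
import Pool.Agent.Lib.MP_caab05_ag.GB.Stmt
import Pool.Agent.Lib.MP_caab05_ag.LT.Defs

/-! Statements of the steps (complex multiplication, the curve, the abelian variety). -/

namespace Pool.Agent.Lib.MP_caab05_ag.GB

open MvPolynomial Filter Topology Asymptotics Complex Matrix

/-- weak approximation at the complex places -/
structure WeakS : Prop where
  approx : ∀ (L : Type) [Field L] [NumberField L] (Φ : Set (Emb L)), (∀ φ ∈ Φ, cj φ ∉ Φ) →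
    ∀ (t : Emb L → ℂ) (ε : ℝ), 0 < ε → ∃ y : L, ∀ φ ∈ Φ, ‖φ y - t φ‖ < ε
  xi : ∀ (L : Type) [Field L] [NumberField L] (c : L ≃ₐ[ℚ] L) (Φ : Set (Emb L)), IsCj c →
    IsType Φ → ∃ ξ : L, c ξ = -ξ ∧ ξ ≠ 0 ∧ ∀ φ : Emb L, φ ∈ Φ ↔ (φ ξ).im < 0
  dedekind : ∀ (L : Type) [Field L] [NumberField L] (X : Emb L → ℂ),
    (∀ x : L, ∑ φ : Emb L, φ x * X φ = 0) → X = 0
  /-- every coordinate vector is a complex combination of rational points -/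
  dual : ∀ (L : Type) [Field L] [NumberField L] (φ : Emb L), ∃ (n : ℕ) (x : Fin n → L)
    (a : Fin n → ℂ), (∀ k, IsAlgebraic ℚ (a k)) ∧ ∑ k, a k * φ (x k) = 1 ∧
      ∀ ψ : Emb L, ψ ≠ φ → ∑ k, a k * ψ (x k) = 0
  ratf_alg : ∀ (L : Type) [Field L] [NumberField L] (g : ℕ) (v : Emb L → W g), RatF v →
    ∀ φ j, IsAlgebraic ℚ (v φ j)

/-- symplectic bases -/
def SymS : Prop :=
  ∀ (L : Type) [Field L] [NumberField L] (c : L ≃ₐ[ℚ] L) (k : ℕ) (ξ : Fin k → L), IsCj c →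
    (∀ i, c (ξ i) = -ξ i) → (∀ i, ξ i ≠ 0) → ∃ (g : ℕ) (v : Emb L → Fin k → W g), IsSym ξ v

/-- positive Lagrangian subspaces and the Siegel upper half space -/
def RiemS : Prop :=
  ∀ (g : ℕ) (κ ι : Type) [Fintype κ] [Fintype ι] (Ω : Set (κ → ℂ)) (f : (κ → ℂ) → ι → W g),
    Fintype.card ι = g → DifferentiableOn ℂ f Ω →
    (∀ z ∈ Ω, ∀ a b, JJ (f z a) (f z b) = 0) →
    (∀ z ∈ Ω, ∀ t : ι → ℂ, t ≠ 0 →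
      0 < (-I * JJ (∑ a, t a • f z a) (star (∑ a, t a • f z a))).re) →
    ∃ τ : (κ → ℂ) → Mat g, DifferentiableOn ℂ τ Ω ∧ ∀ z ∈ Ω, Sg (τ z) ∧
      ∀ w, per (τ z) w = 0 ↔ w ∈ Submodule.span ℂ (Set.range (f z))

def ModS : Prop :=
  ∀ (L : Type) [Field L] [NumberField L] (c : L ≃ₐ[ℚ] L) (Φ : Set (Emb L)), IsCj c → IsType Φ →
    ∃ (g : ℕ) (τ : Mat g) (v : Emb L → W g), IsModel Φ τ v

def FamS : Prop :=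
  ∀ (L : Type) [Field L] [NumberField L] (c : L ≃ₐ[ℚ] L) (ξ : Fin 2 → L), IsXi c ξ →
    ∃ (g : ℕ) (v : Emb L → Fin 2 → W g) (τ : (Mx ξ → ℂ) → Mat g), IsFam ξ v τ

structure EllS : Prop where
  spec : ∀ (L : Type) [Field L] [NumberField L] (c : L ≃ₐ[ℚ] L) (Φ : Set (Emb L)) (D : Der),
    IsCj c → IsType Φ → ∀ φ, Ell D Φ φ (ell D Φ φ)
  eqv : ∀ (L : Type) [Field L] [NumberField L] (Φ : Set (Emb L)) (D : Der) (σ : L ≃ₐ[ℚ] L)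
    (φ : Emb L), elt D {ψ | ψ.comp (σ : L →+* L) ∈ Φ} φ = elt D Φ (φ.comp (σ : L →+* L))
  odd : ∀ (L : Type) [Field L] [NumberField L] (Φ : Set (Emb L)) (D : Der), IsType Φ →
    ∀ φ, elt D Φ (cj φ) = -elt D Φ φ
  /-- a model does not move -/
  still : ∀ (L : Type) [Field L] [NumberField L] (c : L ≃ₐ[ℚ] L) (Φ : Set (Emb L)) (D : Der)
    (g : ℕ) (τ : Mat g) (v : Emb L → W g), IsCj c → IsType Φ → IsModel Φ τ v →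
    ∃ M N c', IsTw D τ M 0 N c' ∧ (∀ φ k, D (per τ (v φ) k) = 0) ∧
      ∀ φ, app M (per τ (v φ)) = ell D Φ φ • per τ (v φ)

/-- compactness of the arithmetic quotient -/
def CptS : Prop :=
  ∀ (L : Type) [Field L] [NumberField L] (c : L ≃ₐ[ℚ] L) (ξ : Fin 2 → L), IsXi c ξ →
    ∀ m : ℕ, m ≠ 0 → ∃ t : ℝ, t < 1 ∧ ∀ z ∈ Dom ξ 1, ∃ (γ : Matrix (Fin 2) (Fin 2) L)
      (z' : Mx ξ → ℂ), IsSU c ξ γ ∧ (∀ i j, IsIntegral ℤ ((γ - 1) i j / m)) ∧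
        Moves ξ γ z z' ∧ z' ∈ Dom ξ t

/-- the isomorphism of abelian varieties attached to an element of the congruence group -/
def MatS : Prop :=
  ∀ (L : Type) [Field L] [NumberField L] (c : L ≃ₐ[ℚ] L) (ξ : Fin 2 → L) (g : ℕ)
    (v : Emb L → Fin 2 → W g) (τ : (Mx ξ → ℂ) → Mat g), IsXi c ξ → IsFam ξ v τ →
    ∃ m : ℕ, m ≠ 0 ∧ ∀ (γ : Matrix (Fin 2) (Fin 2) L) (z z' : Mx ξ → ℂ), z ∈ Dom ξ 1 →
      z' ∈ Dom ξ 1 → IsSU c ξ γ → (∀ i j, IsIntegral ℤ ((γ - 1) i j / m)) → Moves ξ γ z z' →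
      ∃ (ρ : Matrix (Fin g ⊕ Fin g) (Fin g ⊕ Fin g) ℤ) (j : Mat g),
        (∀ p q : Zg g, JJ (ρ *ᵥ p) (ρ *ᵥ q) = JJ p q) ∧ (∀ a b, (8 : ℤ) ∣ (ρ - 1) a b) ∧
        (∀ p : Zg g, app j (per (τ z) (cst p)) = per (τ z') (cst (ρ *ᵥ p))) ∧
        (Matrix.of j).det ≠ 0 ∧ ∀ φ : Mx ξ, ∃ μ : ℂ,
          app j (per (τ z) (v φ.1 1)) = μ • per (τ z') (v φ.1 1) ∧
          app j (per (τ z) (v (cj φ.1) 0)) = μ • per (τ z') (v (cj φ.1) 0)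

/-- the point of the family at which the relation is evaluated -/
noncomputable def pt {L : Type} [Field L] {g : ℕ} (τ : Mat g) (v : Emb L → Fin 2 → W g)
    (φ : Emb L) (J : ℕ) (s₀ s₁ : Ix g × Ix g) : Al g J ⊕ Fin 2 → ℂ :=
  Sum.elim (Xc τ J) ![om τ (per τ (v (cj φ) 0)) s₀, om τ (per τ (v φ 1)) s₁]

/-- an algebraic relation on the family -/
def FamRelS : Prop :=
  ∀ (L : Type) [Field L] [NumberField L] (c : L ≃ₐ[ℚ] L) (ξ : Fin 2 → L) (g : ℕ)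
    (v : Emb L → Fin 2 → W g) (τ : (Mx ξ → ℂ) → Mat g), IsXi c ξ → IsFam ξ v τ →
    ∀ φ : Mx ξ, ∃ (J : ℕ) (s₀ s₁ : Ix g × Ix g) (Q : MvPolynomial (Al g J ⊕ Fin 2) ℂ) (k l : ℕ),
      BiH Q k l ∧ (∀ z ∈ Dom ξ 1, eval (pt (τ z) v φ.1 J s₀ s₁) Q = 0) ∧
      (∃ z ∈ Dom ξ 1, pt (τ z) v φ.1 J s₀ s₁ (Sum.inr 1) *
        eval (pt (τ z) v φ.1 J s₀ s₁) (pderiv (Sum.inr 1) Q) ≠ 0) ∧
      ContinuousOn (fun z => pt (τ z) v φ.1 J s₀ s₁) (Dom ξ 1)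

/-- the points with complex multiplication of given type are dense in the family -/
def CMPtS : Prop :=
  ∀ (L : Type) [Field L] [NumberField L] (c : L ≃ₐ[ℚ] L) (ξ : Fin 2 → L) (g : ℕ)
    (v : Emb L → Fin 2 → W g) (τ : (Mx ξ → ℂ) → Mat g) (D : Der), IsXi c ξ → IsFam ξ v τ →
    ∀ Ψ₀ Ψ₁ : Set (Emb L), IsType Ψ₀ → IsType Ψ₁ →
    Ψ₀ ∩ Ψ₁ = {ψ | (ψ (ξ 0)).im < 0 ∧ (ψ (ξ 1)).im < 0} → ∀ φ : Mx ξ,
    Dom ξ 1 ⊆ closure {z | z ∈ Dom ξ 1 ∧ ∃ (M N : Mat g) (c' l₀ l₁ : ℂ),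
      IsTw D (τ z) M 0 N c' ∧
      (∀ k, D (per (τ z) (v (cj φ.1) 0) k) = 0) ∧ (∀ k, D (per (τ z) (v φ.1 1) k) = 0) ∧
      app M (per (τ z) (v (cj φ.1) 0)) = l₀ • per (τ z) (v (cj φ.1) 0) ∧
      app M (per (τ z) (v φ.1 1)) = l₁ • per (τ z) (v φ.1 1) ∧
      l₁ - l₀ = elt D Ψ₀ φ.1 + elt D Ψ₁ φ.1}

/-- Shimura's monomial relations, in logarithmic form -/
def ShiS : Prop :=
  ∀ (L : Type) [Field L] [NumberField L] (c : L ≃ₐ[ℚ] L) (D : Der), IsCj c →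
    ∀ Φ₀ Φ₁ Ψ₀ Ψ₁ : Set (Emb L), IsType Φ₀ → IsType Φ₁ → IsType Ψ₀ → IsType Ψ₁ →
    Φ₀ ∩ Φ₁ = Ψ₀ ∩ Ψ₁ → (Φ₀ ∩ Φ₁).Nonempty → ∀ φ, φ ∉ Φ₀ → φ ∈ Φ₁ →
    elt D Φ₀ φ + elt D Φ₁ φ = elt D Ψ₀ φ + elt D Ψ₁ φ

/-- combinatorics of types: the second differences vanish -/
def AffS : Prop :=
  ∀ (L : Type) [Field L] [NumberField L] (c : L ≃ₐ[ℚ] L) (f : Set (Emb L) → Emb L → ℂ),
    IsCj c → 8 ≤ Module.finrank ℚ L →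
    (∀ Φ₀ Φ₁ Ψ₀ Ψ₁ : Set (Emb L), IsType Φ₀ → IsType Φ₁ → IsType Ψ₀ → IsType Ψ₁ →
      Φ₀ ∩ Φ₁ = Ψ₀ ∩ Ψ₁ → (Φ₀ ∩ Φ₁).Nonempty → ∀ φ, φ ∉ Φ₀ → φ ∈ Φ₁ →
      f Φ₀ φ + f Φ₁ φ = f Ψ₀ φ + f Ψ₁ φ) →
    (∀ (Φ : Set (Emb L)) (σ : L ≃ₐ[ℚ] L) (φ : Emb L),
      f {ψ | ψ.comp (σ : L →+* L) ∈ Φ} φ = f Φ (φ.comp (σ : L →+* L))) →
    (∀ Φ, IsType Φ → ∀ φ, f Φ (cj φ) = -f Φ φ) →
    ∃ q : Emb L → Emb L → ℂ, (∀ φ ψ, q φ (cj ψ) = -q φ ψ) ∧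
      (∀ (σ : L ≃ₐ[ℚ] L) φ ψ, q (φ.comp (σ : L →+* L)) (ψ.comp (σ : L →+* L)) = q φ ψ) ∧
      ∀ Φ, IsType Φ → ∀ φ, f Φ φ = ∑ ψ : Emb L, Φ.indicator (q φ) ψ

/-- the square wave is invertible on the primitive odd part -/
def SqS : Prop :=
  ∀ (r : ℕ) (L : Type) [Field L] [NumberField L] [IsCyclotomicExtension {2 ^ r} ℚ L] (ζ : L)
    (q : Emb L → Emb L → ℂ), 4 ≤ r → IsPrimitiveRoot ζ (2 ^ r) →
    (∀ φ ψ, q φ (cj ψ) = -q φ ψ) →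
    (∀ (σ : L ≃ₐ[ℚ] L) φ ψ, q (φ.comp (σ : L →+* L)) (ψ.comp (σ : L →+* L)) = q φ ψ) →
    (∀ φ, ∑ ψ : Emb L, {ψ : Emb L | 0 < (ψ ζ).im}.indicator (q φ) ψ = 0) →
    ∀ φ φ' ψ : Emb L, φ' ζ = -φ ζ → q φ' ψ = q φ ψ

/-! ### The curve -/

structure CuAS : Prop where
  hol : ∀ N t : ℕ, 0 < t → ∀ x ∈ St N,
    HasDerivAt (II N t) (x ^ (t - 1) * (1 - x ^ N) ^ (-1 / 2 : ℂ)) x
  holJ : ∀ N t : ℕ, ∀ s ∈ St 2,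
    HasDerivAt (JI N t) (2 / (N : ℂ) * (1 - s ^ 2) ^ ((t : ℂ) / N - 1)) s
  op : ∀ N : ℕ, IsOpen (St N)
  conn : ∀ N : ℕ, 0 < N → IsPreconnected (St N)
  zero : ∀ N t : ℕ, 0 < t → II N t 0 = 0 ∧ JI N t 0 = 0
  jet : ∀ N t : ℕ, 0 < N → 0 < t → ∀ j, ∃ q : ℚ, iteratedDeriv j (II N t) 0 = q
  jetJ : ∀ N t : ℕ, 0 < N → ∀ j, ∃ q : ℚ, iteratedDeriv j (JI N t) 0 = q
  rot : ∀ (N t : ℕ) (ω x : ℂ), ω ^ N = 1 → II N t (ω * x) = ω ^ t * II N t x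
  oddJ : ∀ (N t : ℕ) (s : ℂ), JI N t (-s) = -JI N t s
  pos : ∀ N t : ℕ, 0 < N → 0 < t → 0 < BB N t
  /-- passage to the local parameter at the branch point `x = 1` -/
  branch : ∀ N t : ℕ, 0 < N → 0 < t → ∀ s ∈ St 2, 0 < s.re →
    (1 - s ^ 2) ^ (1 / N : ℂ) ∈ St N ∧ ((1 - s ^ 2) ^ (1 / N : ℂ)) ^ N = 1 - s ^ 2 ∧
    II N t ((1 - s ^ 2) ^ (1 / N : ℂ)) = BB N t - JI N t s

/-- passage to the local parameter at infinity -/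
def CuBS : Prop :=
  ∀ n : ℕ, 0 < n → ∀ x : ℂ, (x ^ (2 * n)).im ≠ 0 → ∃ (j : ℕ) (ε : ℂ), ε ^ 2 = -1 ∧
    ∀ t : ℕ, 0 < t → t < n → II (2 * n) t x =
      ze (2 * n) ^ (j * t) * (2 * ze (2 * n) ^ t / (1 + ze (2 * n) ^ t)) * BB (2 * n) t +
        ε * II (2 * n) (n - t) x⁻¹

/-- the data of an Abel-Jacobi map -/
structure IsAJ {g : ℕ} {ι : Type} [Fintype ι] (n : ℕ) (τ : Mat g) (t : ι → ℕ) (w : ι → V g) :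
    Prop where
  sg : Sg τ
  even : Even n
  odd : ∀ i, Odd (t i)
  lt : ∀ i, t i < n
  npos : 0 < n
  lat₁ : ∀ j : ℕ, ∃ p, ∑ i, (ze (2 * n) ^ (j * t i) * BB (2 * n) (t i)) • w i = per τ (cst p)
  lat₂ : ∀ j : ℕ, ∃ p, ∑ i, (ze (2 * n) ^ (j * t i) *
    (2 * ze (2 * n) ^ t i / (1 + ze (2 * n) ^ t i)) * BB (2 * n) (t i)) • w i = per τ (cst p)

noncomputable def cpt {g : ℕ} {ι : Type} [Fintype ι] (n : ℕ) (τ : Mat g) (t : ι → ℕ)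
    (w : ι → V g) (a : Fin 2 → Ix g) (x : ℂ) : Fin 2 ⊕ Fin 2 → ℂ :=
  Sum.elim ![1, x ^ (2 * n)] fun b => th τ (∑ i, II (2 * n) (t i) x • w i) (a b)

def CuRelS : Prop :=
  ∀ (g : ℕ) (ι : Type) [Fintype ι] (n : ℕ) (τ : Mat g) (t : ι → ℕ) (w : ι → V g),
    IsAJ n τ t w → ∀ a : Fin 2 → Ix g, th τ 0 (a 0) ≠ 0 →
    ∃ (Q : MvPolynomial (Fin 2 ⊕ Fin 2) ℂ) (k l : ℕ), BiH Q k l ∧
      (∀ x ∈ St (2 * n), eval (cpt n τ t w a x) Q = 0) ∧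
      ∃ x ∈ St (2 * n), eval (cpt n τ t w a x) (pderiv (Sum.inr 1) Q) ≠ 0

def CuTwS : Prop :=
  ∀ (g : ℕ) (ι : Type) [Fintype ι] (n : ℕ) (τ : Mat g) (t : ι → ℕ) (w : ι → V g) (D : Der)
    (M N : Mat g) (c : ℂ), IsAJ n τ t w → IsTw D τ M 0 N c →
    ∑ i, (BB (2 * n) (t i) : ℂ) • (app M (w i) + fun k => D (w i k)) = 0

/-- the periods of the type of the curve -/
def CurveS : Prop :=
  ∀ (r : ℕ) (L : Type) [Field L] [NumberField L] (c : L ≃ₐ[ℚ] L) (ζ : L) (D : Der), 2 ≤ r →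
    IsCj c → IsPrimitiveRoot ζ (2 ^ r) →
    (∀ t : ℕ, Odd t → 2 * t < 2 ^ r → D (BB (2 ^ r) t) = 0) →
    IsType {ψ : Emb L | 0 < (ψ ζ).im} ∧ ∀ φ, elt D {ψ : Emb L | 0 < (ψ ζ).im} φ = 0

/-! ### The abelian variety -/

/-- the ideal of the image is defined over the algebraic numbers -/
def IdealS : Prop :=
  ∀ (g : ℕ) (τ : Mat g), Sg τ → (∀ D : Der, ∃ M N c, IsTw D τ M 0 N c) →
    ∃ S : Set (MvPolynomial (Ix g) ℂ),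
      (∀ P ∈ S, (∃ k, P.IsHomogeneous k) ∧ LT.AlgCoeff P) ∧
      {x | ∀ P ∈ S, eval x P = 0} = {x | ∃ (c : ℂ) (z : V g), x = c • th τ z}

def VarS : Prop :=
  ∀ (L : Type) [Field L] [NumberField L] (c : L ≃ₐ[ℚ] L) (Φ : Set (Emb L)) (d : ℕ)
    (e : Fin d → Emb L), IsCj c → IsType Φ → Function.Injective e → Set.range e = Φ →
    ∃ (M : ℕ) (A : LT.AbVar d M) (ω : Fin d → ℂ) (𝔪 : Submodule ℤ L), (∀ k, ω k ≠ 0) ∧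
      (∀ x : L, ∃ n : ℤ, n ≠ 0 ∧ n • x ∈ 𝔪) ∧
      (∀ y, y ∈ A.Λ ↔ ∃ x ∈ 𝔪, y = fun k => e k x * ω k) ∧
      ∀ (D : Der) (k : Fin d), D (ω k) = elt D Φ (e k) * ω k

/-- primitive types give simple abelian varieties -/
def SimS : Prop :=
  ∀ (L : Type) [Field L] [NumberField L] (Φ : Set (Emb L)) (d M : ℕ) (e : Fin d → Emb L)
    (A : LT.AbVar d M) (ω : Fin d → ℂ) (𝔪 : Submodule ℤ L), IsType Φ → Function.Injective e →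
    Set.range e = Φ → (∀ k, ω k ≠ 0) → (∀ y, y ∈ A.Λ ↔ ∃ x ∈ 𝔪, y = fun k => e k x * ω k) →
    (∀ φ ψ : Emb L, ∃ σ : L ≃ₐ[ℚ] L, ψ = φ.comp (σ : L →+* L)) →
    (∀ σ σ' : L ≃ₐ[ℚ] L, σ * σ' = σ' * σ) →
    (∀ φ ψ : Emb L, φ ≠ ψ → ∃ σ : L ≃ₐ[ℚ] L,
      φ.comp (σ : L →+* L) ∈ Φ ∧ ψ.comp (σ : L →+* L) ∉ Φ) → A.Simple

/-- cyclotomic fields of two-power conductor and the nearly induced type -/
def CycS : Prop :=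
  ∀ (r : ℕ) (L : Type) [Field L] [NumberField L] [IsCyclotomicExtension {2 ^ r} ℚ L] (ζ : L),
    4 ≤ r → IsPrimitiveRoot ζ (2 ^ r) →
    Module.finrank ℚ L = 2 * 2 ^ (r - 2) ∧ (∃ c : L ≃ₐ[ℚ] L, IsCj c) ∧
    (∀ φ ψ : Emb L, ∃ σ : L ≃ₐ[ℚ] L, ψ = φ.comp (σ : L →+* L)) ∧
    (∀ σ σ' : L ≃ₐ[ℚ] L, σ * σ' = σ' * σ) ∧
    LinearIndependent ℤ (fun i : Fin (2 ^ (r - 2)) => ζ ^ (2 * (i : ℕ))) ∧
    ∃ (Φ : Set (Emb L)) (e : Fin (2 ^ (r - 2)) → Emb L), IsType Φ ∧ Function.Injective e ∧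
      Set.range e = Φ ∧
      (∀ φ ψ : Emb L, φ ≠ ψ → ∃ σ : L ≃ₐ[ℚ] L,
        φ.comp (σ : L →+* L) ∈ Φ ∧ ψ.comp (σ : L →+* L) ∉ Φ) ∧
      (∀ k k', e k (ζ ^ 2) = e k' (ζ ^ 2) → k = k' ∨ e k' ζ = -e k ζ) ∧
      (Finset.univ.image fun k => e k (ζ ^ 2)).card ≤ 2 ^ (r - 3) + 1

/-- the subspace spanned by the periods of the subfield -/
def SpanS : Prop :=
  ∀ (d l : ℕ) (a ω : Fin d → ℂ) (n : Fin l → ℂ) (F : IntermediateField ℚ ℂ), (∀ k, a k ∈ F) →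
    (∀ k, ω k ≠ 0) → (∀ k k', a k = a k' → ω k / ω k' ∈ F) → (∀ i, n i ≠ 0) →
    (Finset.univ.image a).card ≤ l →
    let y : Fin l → Fin d → ℂ := fun i k => n i * a k ^ (i : ℕ) * ω k
    Module.finrank ℂ (Submodule.span ℂ (Set.range y)) = (Finset.univ.image a).card ∧
    Submodule.span ℂ {w | w ∈ Submodule.span ℂ (Set.range y) ∧ ∀ j, w j ∈ F} =
      Submodule.span ℂ (Set.range y)

def FinalS : Prop :=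
  ∀ r : ℕ, ((2 ^ r : ℕ) : Cardinal) ≤ 32 * Algebra.trdeg ℚ (IntermediateField.adjoin ℚ
    {b : ℝ | ∃ t : ℕ, Odd t ∧ 2 * t < 2 ^ r ∧
      b = ∫ x in (0 : ℝ)..1, x ^ (t - 1) / √(1 - x ^ 2 ^ r)}) + 8

end Pool.Agent.Lib.MP_caab05_ag.GB
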