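import Mathlib
import Pool.Agent.Lib.MP_caab05_ag.GB.Stmt2
import Pool.Agent.Lib.MP_caab05_ag.LT.Defs3

/-! Statements of the steps for a general level. -/

namespace Pool.Agent.Lib.MP_caab05_ag.GB

open MvPolynomial Filter Topology Asymptotics Complex Matrix

/-- the data of an Abel-Jacobi map, for any parity of `n` -/
structure IsAJ2 {g : ℕ} {ι : Type} [Fintype ι] (n : ℕ) (τ : Mat g) (t : ι → ℕ) (w : ι → V g) :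
    Prop where
  sg : Sg τ
  odd : ∀ i, Odd (t i)
  lt : ∀ i, t i < n
  npos : 0 < n
  lat₁ : ∀ j : ℕ, ∃ p, ∑ i, (ze (2 * n) ^ (j * t i) * BB (2 * n) (t i)) • w i = per τ (cst p)
  lat₂ : ∀ j : ℕ, ∃ p, ∑ i, (ze (2 * n) ^ (j * t i) *
    (2 * ze (2 * n) ^ t i / (1 + ze (2 * n) ^ t i)) * BB (2 * n) (t i)) • w i = per τ (cst p)

def CuRel2S : Prop :=
  ∀ (g : ℕ) (ι : Type) [Fintype ι] (n : ℕ) (τ : Mat g) (t : ι → ℕ) (w : ι → V g),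
    IsAJ2 n τ t w → ∀ a : Fin 2 → Ix g, th τ 0 (a 0) ≠ 0 →
    ∃ (Q : MvPolynomial (Fin 2 ⊕ Fin 2) ℂ) (k l : ℕ), BiH Q k l ∧
      (∀ x ∈ St (2 * n), eval (cpt n τ t w a x) Q = 0) ∧
      ∃ x ∈ St (2 * n), eval (cpt n τ t w a x) (pderiv (Sum.inr 1) Q) ≠ 0

def CuTw2S : Prop :=
  ∀ (g : ℕ) (ι : Type) [Fintype ι] (n : ℕ) (τ : Mat g) (t : ι → ℕ) (w : ι → V g) (D : Der)
    (M N : Mat g) (c : ℂ), IsAJ2 n τ t w → IsTw D τ M 0 N c →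
    ∑ i, (BB (2 * n) (t i) : ℂ) • (app M (w i) + fun k => D (w i k)) = 0

def Curve2S : Prop :=
  ∀ (n : ℕ) (L : Type) [Field L] [NumberField L] (c : L ≃ₐ[ℚ] L) (ζ : L) (D : Der), 2 ≤ n →
    IsCj c → IsPrimitiveRoot ζ (2 * n) → (∀ t : ℕ, 0 < t → t < n → D (BB (2 * n) t) = 0) →
    IsType {ψ : Emb L | 0 < (ψ ζ).im} ∧ ∀ φ, elt D {ψ : Emb L | 0 < (ψ ζ).im} φ = 0

/-- relations between the integrals -/
structure BetS : Prop where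
  scale : ∀ e N s : ℕ, 0 < e → 0 < N → 0 < s → BB (e * N) (e * s) = BB N s / e
  refl : ∀ n t : ℕ, 0 < t → t < n →
    ∃ a : ℝ, IsAlgebraic ℚ a ∧ BB (2 * n) t = a * BB (2 * n) (n - t)

/-- the first Bernoulli number of an odd primitive character does not vanish -/
def NonvS : Prop :=
  ∀ (f : ℕ) [NeZero f] (χ : DirichletCharacter ℂ f), χ.IsPrimitive → χ.Odd →
    ∑ s ∈ Finset.range f, (s : ℂ) * χ (s : ZMod f) ≠ 0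

/-- the square waves of all levels generate the odd part of the group ring -/
def CharS : Prop :=
  ∀ (n : ℕ) (L : Type) [Field L] [NumberField L] [IsCyclotomicExtension {2 * n} ℚ L] (ζ : L)
    (q : Emb L → Emb L → ℂ), 0 < n → IsPrimitiveRoot ζ (2 * n) →
    (∀ φ ψ, q φ (cj ψ) = -q φ ψ) →
    (∀ (σ : L ≃ₐ[ℚ] L) φ ψ, q (φ.comp (σ : L →+* L)) (ψ.comp (σ : L →+* L)) = q φ ψ) →
    (∀ e m : ℕ, 2 ≤ m → e * m = n →
      ∀ φ, ∑ ψ : Emb L, {ψ : Emb L | 0 < (ψ (ζ ^ e)).im}.indicator (q φ) ψ = 0) →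
    ∀ φ ψ : Emb L, q φ ψ = 0

/-- the product of two abelian varieties with complex multiplication -/
def Var2S : Prop :=
  ∀ (L : Type) [Field L] [NumberField L] (c : L ≃ₐ[ℚ] L) (Φ : Fin 2 → Set (Emb L)) (d : ℕ)
    (e : Fin d → Emb L × Fin 2), IsCj c → (∀ i, IsType (Φ i)) → Function.Injective e →
    Set.range e = {p | p.1 ∈ Φ p.2} →
    ∃ (M : ℕ) (A : LT.AbVar d M) (ω : Fin d → ℂ) (𝔪 : Submodule ℤ (Fin 2 → L)),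
      (∀ k, ω k ≠ 0) ∧ (∀ x : Fin 2 → L, ∃ n : ℤ, n ≠ 0 ∧ n • x ∈ 𝔪) ∧
      (∀ y, y ∈ A.Λ ↔ ∃ x ∈ 𝔪, y = fun k => (e k).1 (x (e k).2) * ω k) ∧
      ∀ (D : Der) (k : Fin d), D (ω k) = elt D (Φ (e k).2) (e k).1 * ω k

/-- the diagonal is in general position -/
def Gen2S : Prop :=
  ∀ (L : Type) [Field L] [NumberField L] (Φ : Fin 2 → Set (Emb L)) (d M : ℕ)
    (e : Fin d → Emb L × Fin 2) (A : LT.AbVar d M) (ω : Fin d → ℂ)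
    (𝔪 : Submodule ℤ (Fin 2 → L)) (W : Submodule ℂ (Fin d → ℂ)), (∀ i, IsType (Φ i)) →
    Function.Injective e → Set.range e = {p | p.1 ∈ Φ p.2} → (∀ k, ω k ≠ 0) →
    (∀ y, y ∈ A.Λ ↔ ∃ x ∈ 𝔪, y = fun k => (e k).1 (x (e k).2) * ω k) →
    (∀ φ ψ : Emb L, ∃ σ : L ≃ₐ[ℚ] L, ψ = φ.comp (σ : L →+* L)) →
    (∀ σ σ' : L ≃ₐ[ℚ] L, σ * σ' = σ' * σ) →
    (∀ p q : Emb L × Fin 2, p ≠ q → ∃ σ : L ≃ₐ[ℚ] L,
      p.1.comp (σ : L →+* L) ∈ Φ p.2 ∧ q.1.comp (σ : L →+* L) ∉ Φ q.2) →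
    (∀ x : L, (fun k => (e k).1 x * ω k) ∈ W) → A.Gen W

/-- two adjacent primitive types which are not conjugate -/
def PairS : Prop :=
  ∀ (L : Type) [Field L] [NumberField L] (c : L ≃ₐ[ℚ] L), IsCj c → c ≠ 1 →
    22 ≤ Module.finrank ℚ L →
    (∀ φ ψ : Emb L, ∃ σ : L ≃ₐ[ℚ] L, ψ = φ.comp (σ : L →+* L)) →
    (∀ σ σ' : L ≃ₐ[ℚ] L, σ * σ' = σ' * σ) →
    ∃ (Φ : Fin 2 → Set (Emb L)) (e : Fin (Module.finrank ℚ L) → Emb L × Fin 2),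
      (∀ i, IsType (Φ i)) ∧ Function.Injective e ∧ Set.range e = {p | p.1 ∈ Φ p.2} ∧
      (∀ p q : Emb L × Fin 2, p ≠ q → ∃ σ : L ≃ₐ[ℚ] L,
        p.1.comp (σ : L →+* L) ∈ Φ p.2 ∧ q.1.comp (σ : L →+* L) ∉ Φ q.2) ∧
      2 * (Set.range fun k => (e k).1).ncard = Module.finrank ℚ L + 2

/-- cyclotomic fields -/
def Cyc2S : Prop :=
  ∀ (N : ℕ) (L : Type) [Field L] [NumberField L] [IsCyclotomicExtension {N} ℚ L] (ζ : L),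
    3 ≤ N → IsPrimitiveRoot ζ N →
    Module.finrank ℚ L = N.totient ∧ (∃ c : L ≃ₐ[ℚ] L, IsCj c ∧ c ≠ 1) ∧
    (∀ φ ψ : Emb L, ∃ σ : L ≃ₐ[ℚ] L, ψ = φ.comp (σ : L →+* L)) ∧
    (∀ σ σ' : L ≃ₐ[ℚ] L, σ * σ' = σ' * σ) ∧
    LinearIndependent ℚ (fun i : Fin (Module.finrank ℚ L) => ζ ^ (i : ℕ)) ∧
    Submodule.span ℚ (Set.range fun i : Fin (Module.finrank ℚ L) => ζ ^ (i : ℕ)) = ⊤ ∧
    ∀ φ ψ : Emb L, φ ζ = ψ ζ → φ = ψ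

/-- the transcendence theorem for a subspace in general position -/
def MainS : Prop :=
  ∀ (d M l n : ℕ) (A : LT.AbVar d M) (y : Fin l → Fin d → ℂ), (∀ i, y i ∈ A.Λ) →
    LinearIndependent ℤ y → Module.finrank ℂ (Submodule.span ℂ (Set.range y)) = n →
    A.Gen (Submodule.span ℂ (Set.range y)) → ∀ F : IntermediateField ℚ ℂ,
    Submodule.span ℂ {w | w ∈ Submodule.span ℂ (Set.range y) ∧ ∀ j, w j ∈ F} =
      Submodule.span ℂ (Set.range y) →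
    ((l * (d - n) : ℕ) : Cardinal) ≤ ((d * (2 * n + 2 - l) : ℕ) : Cardinal) * Algebra.trdeg ℚ F

def Final2S : Prop :=
  ∀ N : ℕ, 22 ≤ N.totient → ((N.totient : ℕ) : Cardinal) ≤
    8 * Algebra.trdeg ℚ (IntermediateField.adjoin ℚ
      {b : ℝ | ∃ t : ℕ, 0 < t ∧ 2 * t < N ∧
        b = ∫ x in (0 : ℝ)..1, x ^ (t - 1) / √(1 - x ^ N)}) + 2

end Pool.Agent.Lib.MP_caab05_ag.GB
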