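import Mathlib
import Pool.Agent.Lib.MP_caab05_ag.GB.Stmt3
import Pool.Agent.Lib.MP_caab05_ag.LT.Defs4

/-! The diagonal is in general position (coordinate form). -/

namespace Pool.Agent.Lib.MP_caab05_ag.GB

def Gen3S : Prop :=
  ∀ (L : Type) [Field L] [NumberField L] (Φ : Fin 2 → Set (Emb L)) (d M : ℕ)
    (e : Fin d → Emb L × Fin 2) (A : LT.AbVar d M) (ω : Fin d → ℂ)
    (𝔪 : Submodule ℤ (Fin 2 → L)) (W : Submodule ℂ (Fin d → ℂ)), (∀ i, IsType (Φ i)) →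
    Function.Injective e → Set.range e = {p | p.1 ∈ Φ p.2} → (∀ k, ω k ≠ 0) →
    (∀ y, y ∈ A.Λ ↔ ∃ x ∈ 𝔪, y = fun k => (e k).1 (x (e k).2) * ω k) →
    (∀ φ ψ : Emb L, ∃ σ : L ≃ₐ[ℚ] L, ψ = φ.comp (σ : L →+* L)) →
    (∀ σ σ' : L ≃ₐ[ℚ] L, σ * σ' = σ' * σ) →
    (∀ p q : Emb L × Fin 2, p ≠ q → ∃ σ : L ≃ₐ[ℚ] L,
      p.1.comp (σ : L →+* L) ∈ Φ p.2 ∧ q.1.comp (σ : L →+* L) ∉ Φ q.2) →
    (∀ x : L, (fun k => (e k).1 x * ω k) ∈ W) → A.GenC W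

end Pool.Agent.Lib.MP_caab05_ag.GB
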