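import Mathlib
import Pool.Agent.Lib.MP_caab05_ag.GB.Stmt4
import Pool.Agent.Lib.MP_caab05_ag.LT.Defs5

/-! Statements for the improved bound. -/

namespace Pool.Agent.Lib.MP_caab05_ag.GB

/-- two adjacent primitive types which are not conjugate, for cyclotomic fields -/
def Pair2S : Prop :=
  ∀ (n : ℕ) (L : Type) [Field L] [NumberField L] [IsCyclotomicExtension {2 * n} ℚ L]
    (c : L ≃ₐ[ℚ] L), IsCj c → c ≠ 1 → 10 ≤ (2 * n).totient →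
    Module.finrank ℚ L = (2 * n).totient →
    (∀ φ ψ : Emb L, ∃ σ : L ≃ₐ[ℚ] L, ψ = φ.comp (σ : L →+* L)) →
    (∀ σ σ' : L ≃ₐ[ℚ] L, σ * σ' = σ' * σ) →
    ∃ (Φ : Fin 2 → Set (Emb L)) (e : Fin (Module.finrank ℚ L) → Emb L × Fin 2),
      (∀ i, IsType (Φ i)) ∧ Function.Injective e ∧ Set.range e = {p | p.1 ∈ Φ p.2} ∧
      (∀ p q : Emb L × Fin 2, p ≠ q → ∃ σ : L ≃ₐ[ℚ] L,
        p.1.comp (σ : L →+* L) ∈ Φ p.2 ∧ q.1.comp (σ : L →+* L) ∉ Φ q.2) ∧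
      2 * (Set.range fun k => (e k).1).ncard = Module.finrank ℚ L + 2

def Final4S : Prop :=
  ∀ N : ℕ, 10 ≤ N.totient → ((N.totient : ℕ) : Cardinal) ≤
    4 * Algebra.trdeg ℚ (IntermediateField.adjoin ℚ
      {b : ℝ | ∃ t : ℕ, 0 < t ∧ 2 * t < N ∧
        b = ∫ x in (0 : ℝ)..1, x ^ (t - 1) / √(1 - x ^ N)}) + 2

end Pool.Agent.Lib.MP_caab05_ag.GB
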