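import Mathlib
import Pool.Agent.Lib.MP_caab05_ag.GB.Stmt3

/-! Subtori of a product of two tori with complex multiplication. -/

namespace Pool.Agent.Lib.MP_caab05_ag.GB

open Complex NumberField Matrix

namespace Gen2Aux

variable {L : Type} [Field L] [NumberField L] {ι : Type} [Fintype ι]

theorem trace_eq (x : L) : ((Algebra.trace ℚ L x : ℚ) : ℂ) = ∑ ψ : Emb L, ψ x := by
  have h := trace_eq_sum_embeddings ℂ (K := ℚ) (L := L) (x := x)
  rw [eq_ratCast] at h
  rw [h]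
  exact (Fintype.sum_equiv (RingHom.equivRatAlgHom L ℂ) _ _ (fun ψ => rfl)).symm

/-- all conjugates of all coordinates -/
def ev (L ι : Type) [Field L] [NumberField L] : (ι → L) →ₗ[ℚ] (Emb L × ι → ℂ) where
  toFun x p := p.1 (x p.2)
  map_add' x y := funext fun p => map_add p.1 (x p.2) (y p.2)
  map_smul' q x := funext fun p => map_rat_smul p.1 q (x p.2)

theorem ev_apply {ι : Type} (x : ι → L) (p : Emb L × ι) : ev L ι x p = p.1 (x p.2) := rfl

/-- the trace form -/
noncomputable def tf (L ι : Type) [Field L] [NumberField L] [Fintype ι] :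
    (ι → L) →ₗ[ℚ] (ι → L) →ₗ[ℚ] ℚ :=
  ∑ i : ι, (Algebra.traceForm ℚ L).compl₁₂ (LinearMap.proj i) (LinearMap.proj i)

theorem tf_apply (x y : ι → L) : tf L ι x y = ∑ i, Algebra.trace ℚ L (x i * y i) := by
  unfold tf
  rw [LinearMap.sum_apply, LinearMap.sum_apply]
  rfl

theorem tf_cast (x y : ι → L) : ((tf L ι x y : ℚ) : ℂ) = ev L ι x ⬝ᵥ ev L ι y := by
  rw [tf_apply, Rat.cast_sum, dotProduct, Fintype.sum_prod_type_right]
  refine Finset.sum_congr rfl fun i _ => ?_
  rw [trace_eq]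
  exact Finset.sum_congr rfl fun ψ _ => map_mul ψ _ _

theorem exists_dual : ∃ (n : ℕ) (β β' : ι × Fin n → ι → L),
    ∀ x : ι → L, x = ∑ s, tf L ι x (β' s) • β s := by
  classical
  let b := Module.finBasis ℚ L
  have hb : ∀ x : L, x = ∑ j, Algebra.trace ℚ L (x * b.traceDual j) • b j := by
    intro x
    conv_lhs => rw [← b.sum_repr x]
    refine Finset.sum_congr rfl fun j _ => ?_
    congr 1
    have h1 := b.traceDual.traceDual_repr_apply x j
    rw [Module.Basis.traceDual_traceDual] at h1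
    rw [h1, Algebra.traceForm_apply]
  refine ⟨_, fun s => Pi.single s.1 (b s.2), fun s => Pi.single s.1 (b.traceDual s.2),
    fun x => funext fun i => ?_⟩
  have h2 : ∀ (l : ι) (z : L), tf L ι x (Pi.single l z) = Algebra.trace ℚ L (x l * z) := by
    intro l z
    rw [tf_apply, Finset.sum_eq_single l
      (fun k _ hk => by rw [Pi.single_eq_of_ne hk, mul_zero, map_zero])
      (fun h => absurd (Finset.mem_univ l) h), Pi.single_eq_same]
  rw [Finset.sum_apply, Fintype.sum_prod_type, Finset.sum_eq_single i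
    (fun l _ hl => Finset.sum_eq_zero fun j _ => by
      dsimp only
      rw [Pi.smul_apply, Pi.single_eq_of_ne hl.symm, smul_zero])
    (fun h => absurd (Finset.mem_univ i) h)]
  refine (hb (x i)).trans (Finset.sum_congr rfl fun j _ => ?_)
  dsimp only
  rw [h2, Pi.smul_apply, Pi.single_eq_same]

theorem dedek (h : WeakS) (X : Emb L × ι → ℂ) (hX : ∀ y : ι → L, ev L ι y ⬝ᵥ X = 0) : X = 0 := by
  classical
  funext p
  refine congrFun (h.dedekind L (fun φ => X (φ, p.2)) fun z => ?_) p.1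
  have h1 := hX (Pi.single p.2 z)
  rw [dotProduct, Fintype.sum_prod_type_right, Finset.sum_eq_single p.2
    (fun l _ hl => Finset.sum_eq_zero fun φ _ => by
      rw [ev_apply, Pi.single_eq_of_ne hl, map_zero, zero_mul])
    (fun h => absurd (Finset.mem_univ _) h)] at h1
  refine Eq.trans (Finset.sum_congr rfl fun φ _ => ?_) h1
  rw [ev_apply, Pi.single_eq_same]

/-- double annihilator -/
theorem biorth (h : WeakS) (P : Submodule ℚ (ι → L)) (X : Emb L × ι → ℂ)
    (hX : ∀ y : ι → L, (∀ x ∈ P, tf L ι x y = 0) → ev L ι y ⬝ᵥ X = 0) :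
    X ∈ Submodule.span ℂ (ev L ι '' (P : Set (ι → L))) := by
  obtain ⟨P', hP'⟩ := P.exists_isCompl
  let π : (ι → L) →ₗ[ℚ] (ι → L) := P.subtype ∘ₗ P.projectionOnto P' hP'
  have hπ1 : ∀ x, π x ∈ P := fun x => (P.projectionOnto P' hP' x).2
  have hπ2 : ∀ x ∈ P, π x = x := fun x hx =>
    congrArg Subtype.val (Submodule.projectionOnto_apply_left hP' ⟨x, hx⟩)
  obtain ⟨n, β, β', hβ⟩ := exists_dual (L := L) (ι := ι)
  have key : X - ∑ s, (ev L ι (β' s) ⬝ᵥ X) • ev L ι (π (β s)) = 0 := by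
    refine dedek h _ fun y => ?_
    have h1 := hX (y - ∑ s, tf L ι (π (β s)) y • β' s) (by
      intro x hx
      have h2 : tf L ι x y = ∑ s, tf L ι x (β' s) * tf L ι (π (β s)) y := by
        conv_lhs => rw [← hπ2 x hx, hβ x, map_sum, map_sum, LinearMap.sum_apply]
        refine Finset.sum_congr rfl fun s _ => ?_
        rw [map_smul, map_smul, LinearMap.smul_apply, smul_eq_mul]
      rw [map_sub, map_sum, h2, sub_eq_zero]
      refine Finset.sum_congr rfl fun s _ => ?_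
      rw [map_smul, smul_eq_mul, mul_comm])
    rw [map_sub, map_sum, sub_dotProduct, sum_dotProduct] at h1
    rw [dotProduct_sub, dotProduct_sum, ← h1]
    congr 1
    refine Finset.sum_congr rfl fun s _ => ?_
    rw [map_smul, smul_dotProduct, dotProduct_smul, Rat.smul_def, tf_cast, smul_eq_mul, mul_comm,
      dotProduct_comm (ev L ι y)]
  rw [sub_eq_zero.1 key]
  exact Submodule.sum_mem _ fun s _ =>
    Submodule.smul_mem _ _ (Submodule.subset_span ⟨_, hπ1 _, rfl⟩)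

theorem sum_range {κ : Type} [Fintype κ] {d : ℕ} (e : Fin d → κ) (he : Function.Injective e)
    (f : κ → ℂ) : ∑ p, (Set.range e).indicator f p = ∑ k, f (e k) :=
  (Fintype.sum_of_injective e he _ _ (fun _ hp => Set.indicator_of_notMem hp f)
    fun k => (Set.indicator_of_mem (Set.mem_range_self k) f).symm).symm

/-- the trace is twice the real part of the sum over the types -/
theorem sum_type {d : ℕ} {Φ : ι → Set (Emb L)} (hΦ : ∀ i, IsType (Φ i)) (e : Fin d → Emb L × ι)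
    (he : Function.Injective e) (hr : Set.range e = {p | p.1 ∈ Φ p.2}) (z : ι → L) :
    ∑ p, ev L ι z p = ∑ k, ev L ι z (e k) + starRingEnd ℂ (∑ k, ev L ι z (e k)) := by
  let c : Emb L × ι ≃ Emb L × ι :=
    (ComplexEmbedding.involutive_conjugate L).toPerm.prodCongr (Equiv.refl ι)
  have h1 : ∀ p : Emb L × ι, ev L ι z p = (Set.range e).indicator (ev L ι z) p +
      starRingEnd ℂ ((Set.range e).indicator (ev L ι z) (c p)) := by
    intro p
    rw [hr]
    by_cases hp : p.1 ∈ Φ p.2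
    · rw [Set.indicator_of_mem (by exact hp),
        Set.indicator_of_notMem (by exact (hΦ p.2 p.1).1 hp), map_zero, add_zero]
    · rw [Set.indicator_of_notMem (by exact hp), Set.indicator_of_mem
        (by exact not_not.1 fun h3 => hp ((hΦ p.2 p.1).2 h3)), zero_add]
      exact (Complex.conj_conj _).symm
  rw [Finset.sum_congr rfl fun p _ => h1 p, Finset.sum_add_distrib, ← map_sum,
    c.sum_comp ((Set.range e).indicator (ev L ι z)), sum_range e he]

/-- a relation over the types holds over all translates -/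
theorem translate {ι : Type} {d : ℕ} (e : Fin d → Emb L × ι)
    (h1 : ∀ φ ψ : Emb L, ∃ σ : L ≃ₐ[ℚ] L, ψ = φ.comp (σ : L →+* L))
    (h2 : ∀ σ σ' : L ≃ₐ[ℚ] L, σ * σ' = σ' * σ) (z : ι → L) (hz : ∑ k, ev L ι z (e k) = 0)
    (τ : L ≃ₐ[ℚ] L) : ∑ k, ev L ι (fun i => τ (z i)) (e k) = 0 := by
  obtain ⟨φ₀⟩ : Nonempty (Emb L) := inferInstance
  choose s hs using fun k => h1 φ₀ (e k).1
  have h3 : ∀ k w, (e k).1 w = φ₀ (s k w) := fun k w => by rw [hs k]; rfl
  have h4 : ∑ k, s k (z (e k).2) = 0 := by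
    apply φ₀.injective
    rw [map_sum, map_zero, ← hz]
    exact Finset.sum_congr rfl fun k _ => (h3 k _).symm
  have h5 : ∀ k w, s k (τ w) = τ (s k w) := fun k w =>
    congrArg (fun f : L ≃ₐ[ℚ] L => f w) (h2 (s k) τ)
  have h6 : ∀ k, ev L ι (fun i => τ (z i)) (e k) = φ₀ (τ (s k (z (e k).2))) := fun k => by
    rw [ev_apply, h3, h5]
  rw [Finset.sum_congr rfl fun k _ => h6 k, ← map_sum, ← map_sum, h4, map_zero, map_zero]

/-- translation of embeddings -/
def shift (ι : Type) (σ : L ≃ₐ[ℚ] L) : Emb L × ι ≃ Emb L × ι where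
  toFun p := (p.1.comp (σ : L →+* L), p.2)
  invFun p := (p.1.comp (σ.symm : L →+* L), p.2)
  left_inv p := Prod.ext (RingHom.ext fun x => congrArg p.1 (σ.apply_symm_apply x)) rfl
  right_inv p := Prod.ext (RingHom.ext fun x => congrArg p.1 (σ.symm_apply_apply x)) rfl

theorem translate' {d : ℕ} (e : Fin d → Emb L × ι) (he : Function.Injective e)
    (h1 : ∀ φ ψ : Emb L, ∃ σ : L ≃ₐ[ℚ] L, ψ = φ.comp (σ : L →+* L))
    (h2 : ∀ σ σ' : L ≃ₐ[ℚ] L, σ * σ' = σ' * σ) (z : ι → L) (hz : ∑ k, ev L ι z (e k) = 0)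
    (σ : L ≃ₐ[ℚ] L) :
    ∑ p, (shift ι σ ⁻¹' Set.range e).indicator (ev L ι z) p = 0 := by
  rw [← translate e h1 h2 z hz σ.symm, ← sum_range e he,
    ← (shift ι σ).sum_comp ((Set.range e).indicator (ev L ι fun i => σ.symm (z i)))]
  refine Finset.sum_congr rfl fun p _ => ?_
  by_cases hp : shift ι σ p ∈ Set.range e
  · rw [Set.indicator_of_mem hp, Set.indicator_of_mem (by exact hp)]
    exact congrArg p.1 (σ.apply_symm_apply _).symm
  · rw [Set.indicator_of_notMem hp, Set.indicator_of_notMem (by exact hp)]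

/-- the complex span is stable under the indicators of the translates -/
theorem stab (h : WeakS) {d : ℕ} (e : Fin d → Emb L × ι) (he : Function.Injective e)
    (h1 : ∀ φ ψ : Emb L, ∃ σ : L ≃ₐ[ℚ] L, ψ = φ.comp (σ : L →+* L))
    (h2 : ∀ σ σ' : L ≃ₐ[ℚ] L, σ * σ' = σ' * σ) (P : Submodule ℚ (ι → L))
    (rel : ∀ y : ι → L, (∀ x ∈ P, tf L ι x y = 0) → ∀ x ∈ P, ∑ k, ev L ι (x * y) (e k) = 0)
    (σ : L ≃ₐ[ℚ] L) {X : Emb L × ι → ℂ}
    (hX : X ∈ Submodule.span ℂ (ev L ι '' (P : Set (ι → L)))) :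
    (shift ι σ ⁻¹' Set.range e).indicator X ∈
      Submodule.span ℂ (ev L ι '' (P : Set (ι → L))) := by
  induction hX using Submodule.span_induction with
  | mem X hX =>
    obtain ⟨x, hx, rfl⟩ := hX
    refine biorth h P _ fun y hy => ?_
    rw [← translate' e he h1 h2 (x * y) (rel y hy x hx) σ, dotProduct]
    refine Finset.sum_congr rfl fun p _ => ?_
    by_cases hp : p ∈ shift ι σ ⁻¹' Set.range e
    · rw [Set.indicator_of_mem hp, Set.indicator_of_mem hp, mul_comm]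
      exact (map_mul p.1 _ _).symm
    · rw [Set.indicator_of_notMem hp, Set.indicator_of_notMem hp, mul_zero]
  | zero =>
    rw [Set.indicator_zero']
    exact Submodule.zero_mem _
  | add X Y _ _ hX hY =>
    rw [Set.indicator_add']
    exact Submodule.add_mem _ hX hY
  | smul c X _ hX =>
    have e1 : (shift ι σ ⁻¹' Set.range e).indicator (c • X) =
        c • (shift ι σ ⁻¹' Set.range e).indicator X := Set.indicator_const_smul _ c X
    rw [e1]
    exact Submodule.smul_mem _ _ hX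

/-- a subspace stable under a separating family of indicators contains coordinate vectors -/
theorem single_mem {κ γ : Type} [Fintype κ] [DecidableEq κ] (Q : Submodule ℂ (κ → ℂ))
    (S : γ → Set κ) (hS : ∀ σ, ∀ X ∈ Q, (S σ).indicator X ∈ Q)
    (hsep : ∀ p q : κ, p ≠ q → ∃ σ, p ∈ S σ ∧ q ∉ S σ) {X₀ : κ → ℂ} (h0 : X₀ ∈ Q) {p : κ}
    (hp : X₀ p ≠ 0) : (Pi.single p 1 : κ → ℂ) ∈ Q := by
  have ind : ∀ s : Finset κ, p ∉ s → ∃ X ∈ Q, X p ≠ 0 ∧ ∀ q ∈ s, X q = 0 := by
    intro s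
    induction s using Finset.induction_on with
    | empty => exact fun _ => ⟨X₀, h0, hp, fun q hq => absurd hq (Finset.notMem_empty q)⟩
    | insert q s _ ih =>
      intro hq
      rw [Finset.mem_insert, not_or] at hq
      obtain ⟨X, hX1, hX2, hX3⟩ := ih hq.2
      obtain ⟨σ, hσ1, hσ2⟩ := hsep p q hq.1
      refine ⟨_, hS σ X hX1, by rwa [Set.indicator_of_mem hσ1], fun r hr => ?_⟩
      rcases Finset.mem_insert.1 hr with rfl | hr
      · exact Set.indicator_of_notMem hσ2 _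
      · exact Set.indicator_apply_eq_zero.2 fun _ => hX3 r hr
  obtain ⟨X, hX1, hX2, hX3⟩ := ind (Finset.univ.erase p) (Finset.notMem_erase _ _)
  have e1 : (Pi.single p 1 : κ → ℂ) = (X p)⁻¹ • X := by
    funext q
    by_cases hq : q = p
    · rw [hq, Pi.single_eq_same, Pi.smul_apply, smul_eq_mul, inv_mul_cancel₀ hX2]
    · rw [Pi.single_eq_of_ne hq, Pi.smul_apply,
        hX3 q (Finset.mem_erase.2 ⟨hq, Finset.mem_univ q⟩), smul_zero]
  rw [e1]
  exact Q.smul_mem _ hX1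

/-- passage to the coordinates of the torus -/
def rho {κ : Type} {d : ℕ} (e : Fin d → κ) (ω : Fin d → ℂ) : (κ → ℂ) →ₗ[ℂ] (Fin d → ℂ) where
  toFun X k := X (e k) * ω k
  map_add' X Y := funext fun k => add_mul (X (e k)) (Y (e k)) (ω k)
  map_smul' c X := funext fun k => mul_assoc c (X (e k)) (ω k)

theorem rho_surj {κ : Type} {d : ℕ} {e : Fin d → κ} (he : Function.Injective e) {ω : Fin d → ℂ}
    (hω : ∀ k, ω k ≠ 0) (w : Fin d → ℂ) : ∃ X, rho e ω X = w :=
  ⟨Function.extend e (fun k => w k / ω k) 0, funext fun k => by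
    show Function.extend e (fun k => w k / ω k) 0 (e k) * ω k = w k
    rw [he.extend_apply, div_mul_cancel₀ _ (hω k)]⟩

theorem relation {d : ℕ} {Φ : ι → Set (Emb L)} (hΦ : ∀ i, IsType (Φ i)) (e : Fin d → Emb L × ι)
    (he : Function.Injective e) (hr : Set.range e = {p | p.1 ∈ Φ p.2}) {ω : Fin d → ℂ}
    (hω : ∀ k, ω k ≠ 0) (U : Submodule ℂ (Fin d → ℂ)) (S : Set (ι → L))
    (hU : ∀ w ∈ U, w ∈ Submodule.span ℝ ((fun x => rho e ω (ev L ι x)) '' S)) (y : ι → L)
    (hy : ∀ x ∈ S, tf L ι x y = 0) (x : ι → L) (hx : rho e ω (ev L ι x) ∈ U) :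
    ∑ k, ev L ι (x * y) (e k) = 0 := by
  let μ : (Fin d → ℂ) →ₗ[ℂ] ℂ := ∑ k, ((ω k)⁻¹ * ev L ι y (e k)) • LinearMap.proj k
  have hμ : ∀ x : ι → L, μ (rho e ω (ev L ι x)) = ∑ k, ev L ι (x * y) (e k) := by
    intro x
    rw [LinearMap.sum_apply]
    refine Finset.sum_congr rfl fun k _ => ?_
    have e1 : ev L ι (x * y) (e k) = ev L ι x (e k) * ev L ι y (e k) := map_mul (e k).1 _ _
    show (ω k)⁻¹ * ev L ι y (e k) * (ev L ι x (e k) * ω k) = _
    rw [e1]
    field_simp [hω k]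
  have hre : ∀ w ∈ U, (μ w).re = 0 := by
    intro w hw
    have hle : Submodule.span ℝ ((fun x => rho e ω (ev L ι x)) '' S) ≤
        LinearMap.ker (Complex.reLm ∘ₗ (μ.restrictScalars ℝ : (Fin d → ℂ) →ₗ[ℝ] ℂ)) := by
      rw [Submodule.span_le]
      rintro _ ⟨x', hx', rfl⟩
      have h4 : ∑ p, ev L ι (x' * y) p = 0 := by
        have h5 := tf_cast x' y
        rw [hy x' hx', Rat.cast_zero] at h5
        exact (Finset.sum_congr rfl fun p _ => map_mul p.1 _ _).trans h5.symm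
      rw [sum_type hΦ e he hr, Complex.add_conj, ← hμ] at h4
      have h6 : (2 * (μ (rho e ω (ev L ι x'))).re : ℝ) = 0 := by exact_mod_cast h4
      show (μ (rho e ω (ev L ι x'))).re = 0
      linarith
    exact hle (hU w hw)
  rw [← hμ]
  have h7 := hre _ hx
  have h8 := hre _ (U.smul_mem I hx)
  rw [map_smul, smul_eq_mul, Complex.I_mul_re, neg_eq_zero] at h8
  exact Complex.ext h7 h8

end Gen2Aux

open Gen2Aux in
theorem gen2 (h : WeakS) : Gen2S := by
  classical
  intro L _ _ Φ d M e A ω 𝔪 W hΦ he hr hω hΛ h1 h2 h3 hW U hU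
  rw [or_iff_not_imp_left]
  intro hU0
  let S : Set (Fin 2 → L) := {x | rho e ω (ev L (Fin 2) x) ∈ U}
  let P : Submodule ℚ (Fin 2 → L) :=
    (U.restrictScalars ℚ).comap (((rho e ω).restrictScalars ℚ).comp (ev L (Fin 2)))
  have hUS : ∀ w ∈ U, w ∈ Submodule.span ℝ ((fun x => rho e ω (ev L (Fin 2) x)) '' S) := by
    intro w hw
    have hw' : w ∈ Submodule.span ℝ ((U : Set (Fin d → ℂ)) ∩ (A.Λ : Set (Fin d → ℂ))) := by
      rw [hU]
      exact hw
    refine Submodule.span_mono ?_ hw'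
    rintro y ⟨hy1, hy2⟩
    obtain ⟨x, -, rfl⟩ := (hΛ y).1 hy2
    exact ⟨x, hy1, rfl⟩
  obtain ⟨x₀, hx₀, hx₀0⟩ : ∃ x ∈ P, x ≠ 0 := by
    by_contra hne
    refine hU0 (eq_bot_iff.2 fun w hw => ?_)
    have hle : Submodule.span ℝ ((fun x => rho e ω (ev L (Fin 2) x)) '' S) ≤ ⊥ := by
      rw [Submodule.span_le]
      rintro _ ⟨x, hx, rfl⟩
      have hx0 : x = 0 := not_not.1 fun h0 => hne ⟨x, hx, h0⟩
      show rho e ω (ev L (Fin 2) x) = 0
      rw [hx0, map_zero, map_zero]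
    exact hle (hUS w hw)
  obtain ⟨i, hi⟩ := Function.ne_iff.1 hx₀0
  let Q : Submodule ℂ (Emb L × Fin 2 → ℂ) := (U ⊔ W).comap (rho e ω)
  have hPQ : Submodule.span ℂ (ev L (Fin 2) '' (P : Set (Fin 2 → L))) ≤ Q := by
    rw [Submodule.span_le]
    rintro _ ⟨x, hx, rfl⟩
    exact Submodule.mem_sup_left (S := U) (T := W) hx
  have hs : ∀ φ : Emb L, (Pi.single (φ, i) 1 : Emb L × Fin 2 → ℂ) ∈ Q := fun φ =>
    hPQ (single_mem _ (fun σ : L ≃ₐ[ℚ] L => shift (Fin 2) σ ⁻¹' Set.range e)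
      (fun σ X hX => stab h e he h1 h2 P
        (fun y hy x hx => relation hΦ e he hr hω U S hUS y hy x hx) σ hX)
      (fun p q hpq => by
        obtain ⟨σ, hσ1, hσ2⟩ := h3 p q hpq
        rw [hr]
        exact ⟨σ, hσ1, hσ2⟩)
      (Submodule.subset_span ⟨x₀, hx₀, rfl⟩) ((_root_.map_ne_zero φ).2 hi))
  have hd : ∀ φ : Emb L,
      (Pi.single (φ, 0) 1 + Pi.single (φ, 1) 1 : Emb L × Fin 2 → ℂ) ∈ Q := by
    intro φ
    obtain ⟨n, x, a, -, ha1, ha2⟩ := h.dual L φ
    have e1 : (Pi.single (φ, 0) 1 + Pi.single (φ, 1) 1 : Emb L × Fin 2 → ℂ) =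
        ∑ k, a k • ev L (Fin 2) fun _ => x k := by
      funext ⟨ψ, l⟩
      rw [Finset.sum_apply]
      by_cases hψ : ψ = φ
      · subst hψ
        refine Eq.trans ?_ ha1.symm
        fin_cases l <;> simp
      · refine Eq.trans ?_ (ha2 ψ hψ).symm
        simp [hψ]
    rw [e1]
    exact Q.sum_mem fun k _ => Q.smul_mem _
      (Submodule.mem_sup_right (S := U) (T := W) (hW (x k)))
  have hall : ∀ p : Emb L × Fin 2, (Pi.single p 1 : Emb L × Fin 2 → ℂ) ∈ Q := by
    rintro ⟨φ, j⟩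
    have h4 := hs φ
    have h5 := hd φ
    fin_cases i <;> fin_cases j
    · exact h4
    · exact (Q.add_mem_iff_right h4).1 h5
    · exact (Q.add_mem_iff_left h4).1 h5
    · exact h4
  refine eq_top_iff.2 fun w _ => ?_
  obtain ⟨X, rfl⟩ := rho_surj he hω w
  have hX : X ∈ Q := by
    rw [pi_eq_sum_univ' X]
    exact Q.sum_mem fun p _ => Q.smul_mem _ (hall p)
  exact hX

end Pool.Agent.Lib.MP_caab05_ag.GB
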