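import Mathlib
import Pool.Agent.Lib.MP_caab05_ag.GB.Stmt2

/-! Weak approximation, Dedekind independence and dual vectors for the embeddings of a
number field. -/

namespace Pool.Agent.Lib.MP_caab05_ag.GB

open Complex NumberField

namespace WeakAux

variable {L : Type} [Field L] [NumberField L]

theorem cj_apply (φ : Emb L) (x : L) : cj φ x = starRingEnd ℂ (φ x) := rfl

theorem cj_cj (φ : Emb L) : cj (cj φ) = φ := by
  ext x; simp [cj_apply]

theorem approx_sym (T : Emb L → ℂ) (hT : ∀ φ, T (cj φ) = starRingEnd ℂ (T φ)) (ε : ℝ)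
    (hε : 0 < ε) : ∃ y : L, ∀ φ, ‖φ y - T φ‖ < ε := by
  classical
  set B := canonicalEmbedding.latticeBasis L with hB
  set b := integralBasis L with hb
  have hBb : ∀ i (φ : Emb L), B i φ = φ (b i) := fun i φ => by
    rw [hB, canonicalEmbedding.latticeBasis_apply]; rfl
  have h1 : ∀ φ : Emb L, ∑ i, B.repr T i * φ (b i) = T φ := fun φ => by
    have := congrFun (B.sum_repr T) φ
    simpa [Finset.sum_apply, hBb] using this
  have h2 : ∀ i, starRingEnd ℂ (B.repr T i) = B.repr T i := by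
    have e : T = ∑ i, starRingEnd ℂ (B.repr T i) • B i := by
      funext φ
      have := congrArg (starRingEnd ℂ) (h1 (cj φ))
      rw [hT, Complex.conj_conj, map_sum] at this
      rw [← this]
      simp [Finset.sum_apply, hBb, cj_apply]
    intro i
    have := congrArg (fun X => B.repr X i) e
    simp only [map_sum, map_smul, Module.Basis.repr_self] at this
    rw [Finsupp.finset_sum_apply, Finset.sum_eq_single i] at this
    · simpa using this.symm
    · intro j _ hj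
      simp [Finsupp.single_apply, hj]
    · simp
  have ho : IsOpen {r : Module.Free.ChooseBasisIndex ℤ (𝓞 L) → ℝ |
      ∀ φ : Emb L, ‖∑ i, (r i : ℂ) * φ (b i) - T φ‖ < ε} := by
    rw [Set.setOf_forall]
    exact isOpen_iInter_of_finite fun φ => isOpen_lt (by fun_prop) continuous_const
  have hne : Set.Nonempty {r : Module.Free.ChooseBasisIndex ℤ (𝓞 L) → ℝ |
      ∀ φ : Emb L, ‖∑ i, (r i : ℂ) * φ (b i) - T φ‖ < ε} := by
    refine ⟨fun i => (B.repr T i).re, fun φ => ?_⟩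
    have : ∀ i, (((B.repr T i).re : ℝ) : ℂ) = B.repr T i := fun i =>
      Complex.conj_eq_iff_re.mp (h2 i)
    simp only [this, h1, sub_self, norm_zero, hε]
  have hd : DenseRange (Pi.map fun (_ : Module.Free.ChooseBasisIndex ℤ (𝓞 L)) (q : ℚ) =>
      (q : ℝ)) := DenseRange.piMap fun _ => Rat.denseRange_cast
  obtain ⟨q, hq⟩ := hd.exists_mem_open ho hne
  refine ⟨∑ i, (q i : L) * b i, fun φ => ?_⟩
  have := hq φ
  simpa [map_sum] using this

theorem approx (Φ : Set (Emb L)) (hΦ : ∀ φ ∈ Φ, cj φ ∉ Φ) (t : Emb L → ℂ) (ε : ℝ)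
    (hε : 0 < ε) : ∃ y : L, ∀ φ ∈ Φ, ‖φ y - t φ‖ < ε := by
  classical
  obtain ⟨y, hy⟩ := approx_sym
    (fun φ => if φ ∈ Φ then t φ else if cj φ ∈ Φ then starRingEnd ℂ (t (cj φ)) else 0)
    (fun φ => by
      by_cases h1 : φ ∈ Φ
      · simp [h1, hΦ φ h1, cj_cj]
      · by_cases h2 : cj φ ∈ Φ
        · simp [h1, h2]
        · simp [h1, h2, cj_cj]) ε hε
  refine ⟨y, fun φ hφ => ?_⟩
  simpa [hφ] using hy φ

theorem xi (c : L ≃ₐ[ℚ] L) (Φ : Set (Emb L)) (hc : IsCj c) (hΦ : IsType Φ) :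
    ∃ ξ : L, c ξ = -ξ ∧ ξ ≠ 0 ∧ ∀ φ : Emb L, φ ∈ Φ ↔ (φ ξ).im < 0 := by
  obtain ⟨y, hy⟩ := approx Φ (fun φ h => (hΦ φ).mp h) (fun _ => -I) (1 / 2) (by norm_num)
  obtain ⟨φ₀⟩ : Nonempty (Emb L) := inferInstance
  have hcc : c (c y) = y := φ₀.injective (by rw [hc, hc, Complex.conj_conj])
  have h1 : ∀ φ ∈ Φ, (φ (y - c y)).im < 0 := by
    intro φ hφ
    have h2 := (Complex.abs_im_le_norm _).trans_lt (hy φ hφ)
    rw [abs_lt] at h2
    rw [map_sub, hc]
    simp at h2 ⊢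
    linarith [h2.2]
  have h2 : ∀ φ, φ ∉ Φ → 0 < (φ (y - c y)).im := by
    intro φ hφ
    have h3 : cj φ ∈ Φ := by
      by_contra h4
      exact hφ ((hΦ φ).mpr h4)
    have := h1 _ h3
    rw [cj_apply, Complex.conj_im] at this
    linarith
  refine ⟨y - c y, by rw [map_sub, hcc]; ring, fun h0 => ?_, fun φ => ⟨h1 φ, fun h => ?_⟩⟩
  · by_cases h : φ₀ ∈ Φ
    · simpa [h0] using h1 _ h
    · simpa [h0] using h2 _ h
  · by_contra h3
    linarith [h2 φ h3]

theorem dedekind (X : Emb L → ℂ) (h : ∀ x : L, ∑ φ : Emb L, φ x * X φ = 0) : X = 0 := by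
  have h1 : LinearIndependent ℂ fun φ : Emb L => ((φ : L →* ℂ) : L → ℂ) :=
    (linearIndependent_monoidHom L ℂ).comp (fun φ : Emb L => (φ : L →* ℂ))
      fun φ ψ h => RingHom.coe_monoidHom_injective h
  funext φ
  refine Fintype.linearIndependent_iff.mp h1 X ?_ φ
  funext x
  simpa [Finset.sum_apply, mul_comm] using h x

theorem emb_alg (φ : Emb L) (x : L) : IsAlgebraic ℚ (φ x) :=
  (Algebra.IsAlgebraic.isAlgebraic (R := ℚ) x).algHom φ.toRatAlgHom

theorem dual (φ : Emb L) : ∃ (n : ℕ) (x : Fin n → L) (a : Fin n → ℂ),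
    (∀ k, IsAlgebraic ℚ (a k)) ∧ ∑ k, a k * φ (x k) = 1 ∧
      ∀ ψ : Emb L, ψ ≠ φ → ∑ k, a k * ψ (x k) = 0 := by
  classical
  set K := algebraicClosure ℚ ℂ with hK
  set E := canonicalEmbedding L with hE
  have hsep : ∀ ψ : Emb L, ψ ≠ φ → ∃ x, φ x ≠ ψ x := fun ψ h => by
    by_contra h1
    push Not at h1
    exact h (RingHom.ext fun x => (h1 x).symm)
  choose! z hz using hsep
  have hm : ∀ (ψ : Emb L) x, ψ x ∈ K := fun ψ x => mem_algebraicClosure_iff.mpr (emb_alg ψ x)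
  set f : Emb L → ℂ := ∏ ψ ∈ Finset.univ.erase φ,
    ((⟨φ (z ψ), hm _ _⟩ - ⟨ψ (z ψ), hm _ _⟩ : K)⁻¹ •
      (E (z ψ) - algebraMap K (Emb L → ℂ) ⟨ψ (z ψ), hm _ _⟩)) with hf
  have hv : ∀ χ : Emb L, f χ = ∏ ψ ∈ Finset.univ.erase φ,
      (φ (z ψ) - ψ (z ψ))⁻¹ * (χ (z ψ) - ψ (z ψ)) := by
    intro χ
    rw [hf, Finset.prod_apply]
    refine Finset.prod_congr rfl fun ψ _ => ?_
    rfl
  have hA : f ∈ Algebra.adjoin K (Set.range E) := by
    refine Subalgebra.prod_mem _ fun ψ _ => Subalgebra.smul_mem _ (Subalgebra.sub_mem _ ?_ ?_) _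
    · exact Algebra.subset_adjoin ⟨_, rfl⟩
    · exact Subalgebra.algebraMap_mem _ _
  have hS : f ∈ Submodule.span K (Set.range E) := by
    have h1 := Algebra.adjoin_eq_span K (Set.range E)
    have h2 : (Submonoid.closure (Set.range E) : Set (Emb L → ℂ)) = Set.range E := by
      have : Set.range E = (MonoidHom.mrange E : Set (Emb L → ℂ)) := (MonoidHom.coe_mrange E).symm
      rw [this, Submonoid.closure_eq]
    rw [h2] at h1
    rw [← h1]
    exact hA
  obtain ⟨n, a, y, hy⟩ := Submodule.mem_span_set'.mp hS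
  choose x hx using fun k => (y k).2
  have hs : ∀ χ : Emb L, ∑ k, (a k : ℂ) * χ (x k) = f χ := by
    intro χ
    rw [← hy, Finset.sum_apply]
    refine Finset.sum_congr rfl fun k _ => ?_
    rw [← hx k]
    rfl
  refine ⟨n, x, fun k => a k, fun k => mem_algebraicClosure_iff.mp (a k).2, ?_, fun ψ hψ => ?_⟩
  · rw [hs, hv]
    exact Finset.prod_eq_one fun ψ hψ =>
      inv_mul_cancel₀ (sub_ne_zero.mpr (hz ψ (Finset.ne_of_mem_erase hψ)))
  · rw [hs, hv]
    exact Finset.prod_eq_zero (Finset.mem_erase.mpr ⟨hψ, Finset.mem_univ _⟩) (by simp)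

theorem ratf_alg (g : ℕ) (v : Emb L → W g) (hv : RatF v) (φ : Emb L) (j : Fin g ⊕ Fin g) :
    IsAlgebraic ℚ (v φ j) := by
  classical
  obtain ⟨n, x, a, ha, h1, h0⟩ := dual φ
  choose q hq using fun k => hv (x k) j
  have e : v φ j = ∑ k, a k * (q k : ℂ) := by
    simp only [← hq, Finset.sum_apply, Pi.smul_apply, smul_eq_mul, Finset.mul_sum, ← mul_assoc]
    rw [Finset.sum_comm]
    simp only [← Finset.sum_mul]
    rw [Finset.sum_eq_single φ]
    · rw [h1, one_mul]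
    · intro ψ _ h
      rw [h0 ψ h, zero_mul]
    · simp
  rw [e, ← mem_algebraicClosure_iff]
  exact sum_mem fun k _ => mul_mem (mem_algebraicClosure_iff.mpr (ha k))
    (mem_algebraicClosure_iff.mpr (isAlgebraic_algebraMap (q k)))

end WeakAux

theorem weak : WeakS where
  approx := fun _ _ _ Φ hΦ t ε hε => WeakAux.approx Φ hΦ t ε hε
  xi := fun _ _ _ c Φ hc hΦ => WeakAux.xi c Φ hc hΦ
  dedekind := fun _ _ _ X h => WeakAux.dedekind X h
  dual := fun _ _ _ φ => WeakAux.dual φ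
  ratf_alg := fun _ _ _ g v hv φ j => WeakAux.ratf_alg g v hv φ j

end Pool.Agent.Lib.MP_caab05_ag.GB
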