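import Mathlib
import Pool.Agent.Lib.MP_caab05_ag.GB.Stmt

/-! The addition formula for the theta functions of level four. -/

namespace Pool.Agent.Lib.MP_caab05_ag.GB

open MvPolynomial Complex

namespace AddAux

variable {g : ℕ}

/-- reduction modulo four -/
def rd (a : Fin g → ℤ) : Ix g := fun j => (a j : ZMod 4)

/-- the standard lift -/
def lf (a : Ix g) : Fin g → ℤ := fun j => ((a j).val : ℤ)

theorem rd_lf (a : Ix g) : rd (lf a) = a := by
  funext j
  simp [rd, lf]

/-- the vector `a + 2 η` -/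
def sf (a : Fin g → ℤ) (η : Fin g → Fin 2) : Fin g → ℤ := fun j => a j + 2 * (η j : ℕ)

/-- the sign -/
noncomputable def sg (s η : Fin g → Fin 2) : ℂ := (-1) ^ (∑ j, (s j : ℕ) * (η j : ℕ))

theorem UU_eq (s : Fin g → Fin 2) (X Y : Ix g → ℂ) (a b : Fin g → ℤ) :
    UU s X Y a b = ∑ η : Fin g → Fin 2, sg s η * X (rd (sf a η)) * Y (rd (sf b η)) := rfl

theorem sg_prod (s η : Fin g → Fin 2) : sg s η = ∏ j, (-1 : ℂ) ^ ((s j : ℕ) * (η j : ℕ)) := by
  rw [sg, Finset.prod_pow_eq_pow_sum]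

theorem sg_add (s η κ : Fin g → Fin 2) : sg s (η + κ) = sg s η * sg s κ := by
  rw [sg_prod, sg_prod, sg_prod, ← Finset.prod_mul_distrib]
  refine Finset.prod_congr rfl fun j _ => ?_
  rw [Pi.add_apply]
  generalize s j = x
  generalize η j = y
  generalize κ j = z
  fin_cases x <;> fin_cases y <;> fin_cases z <;> simp

theorem sg_sq (s η : Fin g → Fin 2) : sg s η * sg s η = 1 := by
  rw [sg, ← mul_pow]
  simp

theorem sum_sg (η : Fin g → Fin 2) :
    ∑ s : Fin g → Fin 2, sg s η = if η = 0 then (2 : ℂ) ^ g else 0 := by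
  simp only [sg_prod]
  rw [← Fintype.prod_sum (fun j (x : Fin 2) => (-1 : ℂ) ^ ((x : ℕ) * (η j : ℕ)))]
  split_ifs with h
  · subst h
    simp
  · obtain ⟨j, hj⟩ := Function.ne_iff.1 h
    refine Finset.prod_eq_zero (Finset.mem_univ j) ?_
    rw [Pi.zero_apply] at hj
    revert hj
    generalize η j = y
    fin_cases y <;> simp

theorem sum_UU (X Y : Ix g → ℂ) (a b : Fin g → ℤ) :
    ∑ s : Fin g → Fin 2, UU s X Y a b = 2 ^ g * (X (rd a) * Y (rd b)) := by
  simp only [UU_eq]
  rw [Finset.sum_comm]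
  have h : ∀ η : Fin g → Fin 2, ∑ s : Fin g → Fin 2, sg s η * X (rd (sf a η)) * Y (rd (sf b η)) =
      if η = 0 then 2 ^ g * (X (rd a) * Y (rd b)) else 0 := by
    intro η
    rw [← Finset.sum_mul, ← Finset.sum_mul, sum_sg]
    split_ifs with h
    · subst h
      have e : ∀ c : Fin g → ℤ, sf c 0 = c := fun c => by
        funext j
        simp [sf]
      rw [e, e, mul_assoc]
    · simp
  simp only [h]
  simp

/-- the parity of an integer vector -/
def par (k : Fin g → ℤ) : Fin g → Fin 2 := fun j => if k j % 2 = 0 then 0 else 1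

theorem rd_sf_add (a k : Fin g → ℤ) (η : Fin g → Fin 2) :
    rd (sf (a + (2 : ℤ) • k) η) = rd (sf a (η + par k)) := by
  funext j
  simp only [rd, sf, par, Pi.add_apply, Pi.smul_apply, smul_eq_mul]
  rw [ZMod.intCast_eq_intCast_iff_dvd_sub]
  generalize η j = y
  split_ifs with h
  · fin_cases y <;> simp <;> omega
  · fin_cases y <;> simp <;> omega

theorem UU_shift (s : Fin g → Fin 2) (X Y : Ix g → ℂ) (a b k : Fin g → ℤ) :
    UU s X Y (a + (2 : ℤ) • k) (b + (2 : ℤ) • k) = sg s (par k) * UU s X Y a b := by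
  simp only [UU_eq, rd_sf_add]
  rw [Finset.mul_sum, ← Equiv.sum_comp (Equiv.addRight (par k))
    (fun η => sg s (par k) * (sg s η * X (rd (sf a η)) * Y (rd (sf b η))))]
  refine Finset.sum_congr rfl fun η _ => ?_
  simp only [Equiv.coe_addRight, sg_add]
  have := sg_sq s (par k)
  linear_combination (-(sg s η * X (rd (sf a (η + par k))) * Y (rd (sf b (η + par k))))) * this

/-- the eighth root of unity -/
noncomputable def zt : ℂ := cexp (Real.pi * I / 4)

theorem zt_ne : zt ≠ 0 := exp_ne_zero _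

theorem zt_eight : zt ^ (8 : ℤ) = 1 := by
  rw [zt, ← exp_int_mul, ← exp_two_pi_mul_I]
  congr 1
  push_cast
  ring

theorem zt_congr {x y : ℤ} (h : (8 : ℤ) ∣ x - y) : zt ^ x = zt ^ y := by
  obtain ⟨k, hk⟩ := h
  have e : x = y + 8 * k := by linarith
  rw [e, zpow_add₀ zt_ne, zpow_mul, zt_eight, one_zpow, mul_one]

/-- the exponent in the Heisenberg action -/
def ex (p : Zg g) (a : Fin g → ℤ) : ℤ := ∑ j, (p (.inl j) + 2 * a j) * p (.inr j)

theorem hh_lf (p : Zg g) (a : Ix g) : hh p a = zt ^ ex p (lf a) := by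
  rw [hh, zt, ← exp_int_mul]
  congr 1
  simp only [ex, lf]
  push_cast
  ring

theorem hh_rd (p : Zg g) (a : Fin g → ℤ) : hh p (rd a) = zt ^ ex p a := by
  rw [hh_lf]
  refine zt_congr ?_
  rw [ex, ex, ← Finset.sum_sub_distrib]
  refine Finset.dvd_sum fun j _ => ?_
  have h : (4 : ℤ) ∣ lf (rd a) j - a j := by
    have := (ZMod.intCast_eq_intCast_iff_dvd_sub (a j) (lf (rd a) j) 4).1
      (by simp [lf, rd])
    exact_mod_cast this
  obtain ⟨k, hk⟩ := h
  refine ⟨k * p (.inr j), ?_⟩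
  have e : lf (rd a) j = a j + 4 * k := by linarith
  rw [e]
  ring

theorem UU_HH (s : Fin g → Fin 2) (p : Zg g) (X : Ix g → ℂ) (a b : Fin g → ℤ) :
    UU s (HH p X) (HH p X) a b =
      zt ^ (ex p a + ex p b) * UU s X X (a + lft p) (b + lft p) := by
  simp only [UU_eq]
  rw [Finset.mul_sum]
  refine Finset.sum_congr rfl fun η _ => ?_
  have e : ∀ c : Fin g → ℤ, rd (sf c η) + sh p = rd (sf (c + lft p) η) := fun c => by
    funext j
    simp only [rd, sf, sh, lft, Pi.add_apply]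
    push_cast
    ring
  have e2 : zt ^ ex p (sf a η) * zt ^ ex p (sf b η) = zt ^ (ex p a + ex p b) := by
    rw [← zpow_add₀ zt_ne]
    refine zt_congr ?_
    simp only [ex]
    rw [← Finset.sum_add_distrib, ← Finset.sum_add_distrib, ← Finset.sum_sub_distrib]
    refine Finset.dvd_sum fun j _ => ⟨(η j : ℕ) * p (.inr j), ?_⟩
    simp only [sf]
    ring
  simp only [HH, hh_rd, e]
  rw [← e2]
  ring

/-- half of an integer vector -/
def hf (x : Fin g → ℤ) : Fin g → ℤ := fun j => x j / 2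

/-- the parity as an integer vector -/
def pr (a b : Fin g → ℤ) : Fin g → ℤ := fun j => (a j + b j) % 2

/-- the value of the addition polynomial -/
noncomputable def BF (c : (Fin g → Fin 2) → (Fin g → ℤ) → Fin g → ℤ)
    (N : (Fin g → Fin 2) → (Fin g → ℤ) → ℂ) (a b : Fin g → ℤ) (X Y : Ix g → ℂ) : ℂ :=
  ∑ s : Fin g → Fin 2, N s (pr a b) *
    (UU s X X (hf (a + b + c s (pr a b))) (hf (a + b - c s (pr a b))) *
      UU s Y Y (hf (a - b + c s (pr a b))) (hf (a - b - c s (pr a b))))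

theorem BF_four (c : (Fin g → Fin 2) → (Fin g → ℤ) → Fin g → ℤ)
    (N : (Fin g → Fin 2) → (Fin g → ℤ) → ℂ) {a b a' b' : Fin g → ℤ} (ha : rd a = rd a')
    (hb : rd b = rd b') (X Y : Ix g → ℂ) : BF c N a' b' X Y = BF c N a b X Y := by
  have h1 : ∀ j, ∃ k : ℤ, a' j = a j + 4 * k := fun j => by
    have := (ZMod.intCast_eq_intCast_iff_dvd_sub (a j) (a' j) 4).1 (congrFun ha j)
    obtain ⟨k, hk⟩ := this
    exact ⟨k, by push_cast at hk; linarith⟩
  have h2 : ∀ j, ∃ k : ℤ, b' j = b j + 4 * k := fun j => by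
    have := (ZMod.intCast_eq_intCast_iff_dvd_sub (b j) (b' j) 4).1 (congrFun hb j)
    obtain ⟨k, hk⟩ := this
    exact ⟨k, by push_cast at hk; linarith⟩
  choose k hk using h1
  choose l hl using h2
  have e0 : pr a' b' = pr a b := by
    funext j
    simp only [pr, hk j, hl j]
    omega
  have ep : par (k - l) = par (k + l) := by
    funext j
    have : (k - l) j % 2 = (k + l) j % 2 := by
      simp only [Pi.add_apply, Pi.sub_apply]
      omega
    simp only [par, this]
  simp only [BF, e0]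
  refine Finset.sum_congr rfl fun s _ => ?_
  generalize c s (pr a b) = d
  have e1 : hf (a' + b' + d) = hf (a + b + d) + (2 : ℤ) • (k + l) := by
    funext j
    simp only [hf, Pi.add_apply, Pi.smul_apply, smul_eq_mul, hk j, hl j]
    omega
  have e2 : hf (a' + b' - d) = hf (a + b - d) + (2 : ℤ) • (k + l) := by
    funext j
    simp only [hf, Pi.add_apply, Pi.sub_apply, Pi.smul_apply, smul_eq_mul, hk j, hl j]
    omega
  have e3 : hf (a' - b' + d) = hf (a - b + d) + (2 : ℤ) • (k - l) := by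
    funext j
    simp only [hf, Pi.add_apply, Pi.sub_apply, Pi.smul_apply, smul_eq_mul, hk j, hl j]
    omega
  have e4 : hf (a' - b' - d) = hf (a - b - d) + (2 : ℤ) • (k - l) := by
    funext j
    simp only [hf, Pi.add_apply, Pi.sub_apply, Pi.smul_apply, smul_eq_mul, hk j, hl j]
    omega
  rw [e1, e2, e3, e4, UU_shift, UU_shift, ep]
  have := sg_sq s (par (k + l))
  linear_combination (N s (pr a b) * (UU s X X (hf (a + b + d)) (hf (a + b - d)) *
    UU s Y Y (hf (a - b + d)) (hf (a - b - d)))) * this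

theorem ex_sum (p : Zg g) {a b a' b' : Fin g → ℤ} (h : ∀ j, a j + b j = a' j + b' j) :
    ex p a + ex p b = ex p a' + ex p b' := by
  simp only [ex]
  rw [← Finset.sum_add_distrib, ← Finset.sum_add_distrib]
  refine Finset.sum_congr rfl fun j _ => ?_
  linear_combination (2 * p (.inr j)) * h j

theorem BF_left {c : (Fin g → Fin 2) → (Fin g → ℤ) → Fin g → ℤ}
    (hc : ∀ s π j, c s π j % 2 = π j % 2)
    (N : (Fin g → Fin 2) → (Fin g → ℤ) → ℂ) (a b : Fin g → ℤ) (p : Zg g) (X Y : Ix g → ℂ) :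
    BF c N a b (HH p X) Y = zt ^ (ex p a + ex p b) * BF c N (a + lft p) (b + lft p) X Y := by
  have e0 : pr (a + lft p) (b + lft p) = pr a b := by
    funext j
    simp only [pr, Pi.add_apply]
    omega
  simp only [BF, e0]
  rw [Finset.mul_sum]
  refine Finset.sum_congr rfl fun s _ => ?_
  have hd := hc s (pr a b)
  revert hd
  generalize c s (pr a b) = d
  intro hd
  simp only [pr] at hd
  have e1 : hf (a + lft p + (b + lft p) + d) = hf (a + b + d) + lft p := by
    funext j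
    simp only [hf, Pi.add_apply]
    omega
  have e2 : hf (a + lft p + (b + lft p) - d) = hf (a + b - d) + lft p := by
    funext j
    simp only [hf, Pi.add_apply, Pi.sub_apply]
    omega
  have e3 : a + lft p - (b + lft p) = a - b := by abel
  have e5 : ex p (hf (a + b + d)) + ex p (hf (a + b - d)) = ex p a + ex p b := by
    refine ex_sum p fun j => ?_
    have := hd j
    simp only [hf, Pi.add_apply, Pi.sub_apply]
    omega
  rw [e1, e2, e3, UU_HH, e5]
  ring

theorem BF_right {c : (Fin g → Fin 2) → (Fin g → ℤ) → Fin g → ℤ}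
    (hc : ∀ s π j, c s π j % 2 = π j % 2)
    (N : (Fin g → Fin 2) → (Fin g → ℤ) → ℂ) (a b : Fin g → ℤ) (p : Zg g) (X Y : Ix g → ℂ) :
    BF c N a b X (HH p Y) = zt ^ (ex p a + ex (-p) b) * BF c N (a + lft p) (b - lft p) X Y := by
  have e0 : pr (a + lft p) (b - lft p) = pr a b := by
    funext j
    simp only [pr, Pi.add_apply, Pi.sub_apply]
    omega
  simp only [BF, e0]
  rw [Finset.mul_sum]
  refine Finset.sum_congr rfl fun s _ => ?_
  have hd := hc s (pr a b)
  revert hd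
  generalize c s (pr a b) = d
  intro hd
  simp only [pr] at hd
  have e1 : hf (a + lft p - (b - lft p) + d) = hf (a - b + d) + lft p := by
    funext j
    simp only [hf, Pi.add_apply, Pi.sub_apply]
    omega
  have e2 : hf (a + lft p - (b - lft p) - d) = hf (a - b - d) + lft p := by
    funext j
    simp only [hf, Pi.add_apply, Pi.sub_apply]
    omega
  have e3 : a + lft p + (b - lft p) = a + b := by abel
  have e4 : ex (-p) b = ex p (-b) := by
    simp only [ex, Pi.neg_apply]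
    refine Finset.sum_congr rfl fun j _ => ?_
    ring
  have e5 : ex p (hf (a - b + d)) + ex p (hf (a - b - d)) = ex p a + ex (-p) b := by
    rw [e4]
    refine ex_sum p fun j => ?_
    have := hd j
    simp only [hf, Pi.add_apply, Pi.sub_apply, Pi.neg_apply]
    omega
  rw [e1, e2, e3, UU_HH, e5]
  ring

/-- the quadratic polynomial which represents `UU` -/
noncomputable def PU {σ : Type} (s : Fin g → Fin 2) (f : Ix g → σ) (a b : Fin g → ℤ) :
    MvPolynomial σ ℚ :=
  ∑ η : Fin g → Fin 2, C ((-1) ^ (∑ j, (s j : ℕ) * (η j : ℕ))) *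
    (X (f (rd (sf a η))) * X (f (rd (sf b η))))

theorem eval_PU {σ : Type} (s : Fin g → Fin 2) (f : Ix g → σ) (a b : Fin g → ℤ) (z : σ → ℂ) :
    eval z (map (algebraMap ℚ ℂ) (PU s f a b)) =
      UU s (fun i => z (f i)) (fun i => z (f i)) a b := by
  simp only [PU, UU_eq, map_sum, map_mul, map_X, eval_X, sg, map_pow, map_neg,
    map_one, mul_assoc]

theorem hom_PU {σ : Type} (w : σ → ℕ) (n : ℕ) (s : Fin g → Fin 2) (f : Ix g → σ)
    (hf : ∀ i, w (f i) = n) (a b : Fin g → ℤ) :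
    (PU s f a b).IsWeightedHomogeneous w (n + n) := by
  refine IsWeightedHomogeneous.sum _ _ _ fun η _ => ?_
  refine IsWeightedHomogeneous.C_mul ?_ _
  have h1 := isWeightedHomogeneous_X ℚ w (f (rd (sf a η)))
  have h2 := isWeightedHomogeneous_X ℚ w (f (rd (sf b η)))
  rw [hf] at h1 h2
  exact h1.mul h2

theorem hom_map {σ : Type} {w : σ → ℕ} {n : ℕ} {P : MvPolynomial σ ℚ}
    (h : P.IsWeightedHomogeneous w n) :
    (map (algebraMap ℚ ℂ) P).IsWeightedHomogeneous w n := by
  intro d hd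
  refine h ?_
  intro h0
  rw [coeff_map, h0, map_zero] at hd
  exact hd rfl

/-- the addition polynomial -/
noncomputable def BP (c : (Fin g → Fin 2) → (Fin g → ℤ) → Fin g → ℤ)
    (N : (Fin g → Fin 2) → (Fin g → ℤ) → ℂ) (a b : Fin g → ℤ) : MvPolynomial (Ix g ⊕ Ix g) ℂ :=
  ∑ s : Fin g → Fin 2, C (N s (pr a b)) * map (algebraMap ℚ ℂ)
    (PU s Sum.inl (hf (a + b + c s (pr a b))) (hf (a + b - c s (pr a b))) *
      PU s Sum.inr (hf (a - b + c s (pr a b))) (hf (a - b - c s (pr a b))))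

theorem eval_BP (c : (Fin g → Fin 2) → (Fin g → ℤ) → Fin g → ℤ)
    (N : (Fin g → Fin 2) → (Fin g → ℤ) → ℂ) (a b : Fin g → ℤ) (X Y : Ix g → ℂ) :
    eval (Sum.elim X Y) (BP c N a b) = BF c N a b X Y := by
  simp only [BP, BF, map_sum, map_mul, eval_C, eval_PU, Sum.elim_inl, Sum.elim_inr]

theorem bih_BP (c : (Fin g → Fin 2) → (Fin g → ℤ) → Fin g → ℤ)
    (N : (Fin g → Fin 2) → (Fin g → ℤ) → ℂ) (a b : Fin g → ℤ) : BiH (BP c N a b) 2 2 := by
  constructor
  · refine IsWeightedHomogeneous.sum _ _ _ fun s _ => IsWeightedHomogeneous.C_mul (hom_map ?_) _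
    exact (hom_PU _ 1 s Sum.inl (fun _ => rfl) _ _).mul (hom_PU _ 0 s Sum.inr (fun _ => rfl) _ _)
  · refine IsWeightedHomogeneous.sum _ _ _ fun s _ => IsWeightedHomogeneous.C_mul (hom_map ?_) _
    exact (hom_PU _ 0 s Sum.inl (fun _ => rfl) _ _).mul (hom_PU _ 1 s Sum.inr (fun _ => rfl) _ _)

theorem alg_BP (c : (Fin g → Fin 2) → (Fin g → ℤ) → Fin g → ℤ)
    (N : (Fin g → Fin 2) → (Fin g → ℤ) → ℂ) (a b : Fin g → ℤ) {T : ℂ}
    (h : ∀ s π, N s π * T ∈ algebraicClosure ℚ ℂ) (m : Ix g ⊕ Ix g →₀ ℕ) :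
    coeff m (BP c N a b) * T ∈ algebraicClosure ℚ ℂ := by
  rw [BP, coeff_sum, Finset.sum_mul]
  refine sum_mem fun s _ => ?_
  rw [coeff_C_mul, coeff_map, mul_right_comm]
  exact mul_mem (h _ _) (IntermediateField.algebraMap_mem _ _)

theorem alg_UU (s : Fin g → Fin 2) (X : Ix g → ℂ) (a b : Fin g → ℤ) {t : ℂ}
    (h : ∀ i, X i / t ∈ algebraicClosure ℚ ℂ) :
    UU s X X a b / t ^ 2 ∈ algebraicClosure ℚ ℂ := by
  rw [UU_eq, Finset.sum_div]
  refine sum_mem fun η _ => ?_
  have e : sg s η * X (rd (sf a η)) * X (rd (sf b η)) / t ^ 2 =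
      sg s η * (X (rd (sf a η)) / t) * (X (rd (sf b η)) / t) := by ring
  rw [e]
  exact mul_mem (mul_mem (pow_mem (neg_mem (one_mem _)) _) (h _)) (h _)

end AddAux

open AddAux in
theorem addS (h1 : PolS) (h2 : RieS) (h3 : MumS) : AddS := by
  intro g τ hτ
  choose κ hκ using h3 g τ hτ
  obtain ⟨c, hc⟩ : ∃ c : (Fin g → Fin 2) → (Fin g → ℤ) → Fin g → ℤ,
      c = fun s π => π + (2 : ℤ) • κ s π := ⟨_, rfl⟩
  have hc1 : ∀ s π, UU s (th τ 0) (th τ 0) (c s π) 0 ≠ 0 := by
    rw [hc]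
    exact hκ
  have hc2 : ∀ s π j, c s π j % 2 = π j % 2 := by
    intro s π j
    rw [hc]
    simp only [Pi.add_apply, Pi.smul_apply, smul_eq_mul]
    omega
  obtain ⟨N, hN⟩ : ∃ N : (Fin g → Fin 2) → (Fin g → ℤ) → ℂ,
      N = fun s π => (2 ^ g * UU s (th τ 0) (th τ 0) (c s π) 0)⁻¹ := ⟨_, rfl⟩
  refine ⟨fun a b => BP c N (lf a) (lf b), fun a b => bih_BP c N _ _, ?_, ?_, ?_, ?_⟩
  · intro u v a b
    rw [eval_BP, BF]
    have h2g : (2 : ℂ) ^ g ≠ 0 := pow_ne_zero _ two_ne_zero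
    have e := sum_UU (th τ (u + v)) (th τ (u - v)) (lf a) (lf b)
    rw [rd_lf, rd_lf] at e
    apply mul_left_cancel₀ h2g
    rw [← e, Finset.mul_sum]
    refine Finset.sum_congr rfl fun s _ => ?_
    have hd := hc2 s (pr (lf a) (lf b))
    have hn := hc1 s (pr (lf a) (lf b))
    rw [hN]
    simp only
    revert hd hn
    generalize c s (pr (lf a) (lf b)) = d
    intro hd hn
    simp only [pr] at hd
    rw [← h2 g τ hτ s u v (lf a) (lf b) d 0]
    · field_simp
    all_goals
      funext j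
      have := hd j
      simp only [hf, Pi.add_apply, Pi.sub_apply, Pi.smul_apply, smul_eq_mul, Pi.zero_apply]
      omega
  · intro p X Y a b
    rw [eval_BP, eval_BP, BF_left hc2, hh_lf, hh_lf, zpow_add₀ zt_ne]
    congr 1
    refine BF_four c N ?_ ?_ X Y
    all_goals
      rw [rd_lf]
      funext j
      simp [rd, lf, sh, lft]
  · intro p X Y a b
    rw [eval_BP, eval_BP, BF_right hc2, hh_lf, hh_lf, zpow_add₀ zt_ne]
    congr 1
    refine BF_four c N ?_ ?_ X Y
    all_goals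
      rw [rd_lf]
      funext j
      simp [rd, lf, sh, lft]
  · intro t ht h a b m
    refine mem_algebraicClosure_iff.1 (alg_BP c N _ _ ?_ m)
    intro s π
    have h0 := alg_UU s (th τ 0) (c s π) 0 fun i => mem_algebraicClosure_iff.2 (h i)
    have e : N s π * t ^ 2 = (2 ^ g * (UU s (th τ 0) (th τ 0) (c s π) 0 / t ^ 2))⁻¹ := by
      rw [hN]
      have := hc1 s π
      field_simp
    rw [e]
    refine inv_mem (mul_mem (pow_mem ?_ _) h0)
    exact_mod_cast natCast_mem (algebraicClosure ℚ ℂ) 2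

end Pool.Agent.Lib.MP_caab05_ag.GB
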