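import Mathlib
import Pool.Agent.Lib.MP_caab05_ag.GB.Stmt2

/-! Combinatorics of types, and the square wave. -/

namespace Pool.Agent.Lib.MP_caab05_ag.GB

namespace AffAux

section abstract

variable {E : Type} {j : E → E}

/-- a type for the involution `j` -/
def Ty (j : E → E) (Φ : Set E) : Prop := ∀ x, x ∈ Φ ↔ j x ∉ Φ

/-- a union of places -/
def Stb (j : E → E) (S : Set E) : Prop := ∀ x, j x ∈ S ↔ x ∈ S

/-- the place of `v` -/
def pl (j : E → E) (v : E) : Set E := {x | x = v ∨ x = j v}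

theorem mem_pl {v x : E} : x ∈ pl j v ↔ x = v ∨ x = j v := Iff.rfl

theorem stb_pl (hj : Function.Involutive j) (v : E) : Stb j (pl j v) := by
  intro x
  simp only [mem_pl]
  constructor
  · rintro (h | h)
    · right; rw [← h, hj]
    · left; exact hj.injective h
  · rintro (h | h)
    · right; rw [h]
    · left; rw [h, hj]

theorem stb_union {S T : Set E} (hS : Stb j S) (hT : Stb j T) : Stb j (S ∪ T) := by
  intro x
  simp only [Set.mem_union, hS x, hT x]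

theorem stb_diff {S T : Set E} (hS : Stb j S) (hT : Stb j T) : Stb j (S \ T) := by
  intro x
  simp only [Set.mem_sdiff, hS x, hT x]

theorem ty_sd {Φ S : Set E} (hΦ : Ty j Φ) (hS : Stb j S) : Ty j (symmDiff Φ S) := by
  intro x
  have h1 := hΦ x
  have h2 := hS x
  simp only [Set.mem_symmDiff]
  tauto

theorem pl_disj (hj : Function.Involutive j) {v w : E} (h : w ∉ pl j v) (x : E)
    (h1 : x ∈ pl j v) (h2 : x ∈ pl j w) : False := by
  apply h
  rcases h2 with h2 | h2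
  · rw [← h2]; exact h1
  · have := (stb_pl hj v w).1
    rw [← h2] at this
    exact this h1

/-- the relations -/
def Rl (j : E → E) (F : Set E → ℂ) (φ : E) : Prop :=
  ∀ Φ₀ Φ₁ Ψ₀ Ψ₁ : Set E, Ty j Φ₀ → Ty j Φ₁ → Ty j Ψ₀ → Ty j Ψ₁ →
    Φ₀ ∩ Φ₁ = Ψ₀ ∩ Ψ₁ → (Φ₀ ∩ Φ₁).Nonempty → φ ∉ Φ₀ → φ ∈ Φ₁ → F Φ₀ + F Φ₁ = F Ψ₀ + F Ψ₁

theorem rel {F : Set E → ℂ} {φ : E} (H : Rl j F φ) {Φ S T : Set E} (hΦ : Ty j Φ)
    (hS : Stb j S) (hT : Stb j T) (hTS : T ⊆ S) (hφ : φ ∈ S) {χ : E} (hχ : χ ∉ S) :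
    F Φ + F (symmDiff Φ S) = F (symmDiff Φ T) + F (symmDiff Φ (S \ T)) := by
  have e1 : Φ ∩ symmDiff Φ S = symmDiff Φ T ∩ symmDiff Φ (S \ T) := by
    ext x
    have := @hTS x
    simp only [Set.mem_inter_iff, Set.mem_symmDiff, Set.mem_sdiff]
    tauto
  have e2 : (Φ ∩ symmDiff Φ S).Nonempty := by
    by_cases h : χ ∈ Φ
    · exact ⟨χ, h, by simp only [Set.mem_symmDiff]; tauto⟩
    · have h1 : j χ ∈ Φ := by
        by_contra h2
        exact h ((hΦ χ).2 h2)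
      have h2 : j χ ∉ S := fun h3 => hχ ((hS χ).1 h3)
      exact ⟨j χ, h1, by simp only [Set.mem_symmDiff]; tauto⟩
  by_cases h : φ ∈ Φ
  · have := H (symmDiff Φ S) Φ (symmDiff Φ T) (symmDiff Φ (S \ T)) (ty_sd hΦ hS) hΦ
      (ty_sd hΦ hT) (ty_sd hΦ (stb_diff hS hT)) (by rw [Set.inter_comm]; exact e1)
      (by rw [Set.inter_comm]; exact e2) (by simp only [Set.mem_symmDiff]; tauto) h
    rw [← this]; ring
  · exact H Φ (symmDiff Φ S) (symmDiff Φ T) (symmDiff Φ (S \ T)) hΦ (ty_sd hΦ hS)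
      (ty_sd hΦ hT) (ty_sd hΦ (stb_diff hS hT)) e1 e2 h
      (by simp only [Set.mem_symmDiff]; tauto)

theorem exists_out [Fintype E] (hc : 8 ≤ Fintype.card E) (u v w : E) :
    ∃ χ, χ ∉ pl j u ∪ pl j v ∪ pl j w := by
  classical
  by_contra h
  push Not at h
  have h1 : (Finset.univ : Finset E) ⊆ {u, j u, v, j v, w, j w} := by
    intro x _
    have := h x
    simp only [Set.mem_union, mem_pl] at this
    simp only [Finset.mem_insert, Finset.mem_singleton]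
    tauto
  have h2 := Finset.card_le_card h1
  have h3 : ({u, j u, v, j v, w, j w} : Finset E).card ≤ 6 := Finset.card_le_six
  rw [Finset.card_univ] at h2
  omega

theorem set_a (Φ A B : Set E) (d1 : ∀ x, x ∈ A → x ∈ B → False) :
    symmDiff (symmDiff Φ B) A = symmDiff Φ (A ∪ B) ∧ (A ∪ B) \ A = B := by
  constructor
  · ext x
    have := d1 x
    simp only [Set.mem_symmDiff, Set.mem_union]
    tauto
  · ext x
    have := d1 x
    simp only [Set.mem_sdiff, Set.mem_union]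
    tauto

theorem set_b (Φ A B C : Set E) (d1 : ∀ x, x ∈ A → x ∈ B → False)
    (d2 : ∀ x, x ∈ A → x ∈ C → False) (d3 : ∀ x, x ∈ B → x ∈ C → False) :
    symmDiff (symmDiff Φ B) (A ∪ C) = symmDiff Φ (A ∪ B ∪ C) ∧
      symmDiff (symmDiff Φ B) ((A ∪ C) \ A) = symmDiff Φ ((A ∪ B ∪ C) \ A) := by
  constructor
  · ext x
    have := d1 x
    have := d2 x
    have := d3 x
    simp only [Set.mem_symmDiff, Set.mem_union]
    tauto
  · ext x
    have := d1 x
    have := d2 x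
    have := d3 x
    simp only [Set.mem_symmDiff, Set.mem_union, Set.mem_sdiff]
    tauto

theorem second [Fintype E] (hj : Function.Involutive j) (hc : 8 ≤ Fintype.card E)
    {F : Set E → ℂ} {φ : E} (H : Rl j F φ) {Φ : Set E} (hΦ : Ty j Φ) {v w : E}
    (hvw : w ∉ pl j v) :
    F Φ + F (symmDiff (symmDiff Φ (pl j w)) (pl j v)) =
      F (symmDiff Φ (pl j v)) + F (symmDiff Φ (pl j w)) := by
  obtain ⟨χ, hχ⟩ := exists_out (j := j) hc v w φ
  have d1 := pl_disj hj hvw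
  obtain ⟨e0, e1⟩ := set_a Φ _ _ d1
  by_cases h : φ ∈ pl j v ∪ pl j w
  · have r := rel H hΦ (stb_union (stb_pl hj v) (stb_pl hj w)) (stb_pl hj v)
      Set.subset_union_left h (χ := χ) (fun h' => hχ (Or.inl h'))
    rw [e1] at r
    rw [e0, r]
  · have d2 := pl_disj hj (v := v) (w := φ) (fun h' => h (Or.inl h'))
    have d3 := pl_disj hj (v := w) (w := φ) (fun h' => h (Or.inr h'))
    have hφ : φ ∈ pl j φ := Or.inl rfl
    have r1 := rel H hΦ (stb_union (stb_union (stb_pl hj v) (stb_pl hj w)) (stb_pl hj φ))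
      (stb_pl hj v) (fun x hx => Or.inl (Or.inl hx)) (Or.inr hφ) hχ
    have r2 := rel H (ty_sd hΦ (stb_pl hj w)) (stb_union (stb_pl hj v) (stb_pl hj φ))
      (stb_pl hj v) Set.subset_union_left (Or.inr hφ) (χ := χ)
      (fun h' => hχ (by rcases h' with h' | h'; exacts [Or.inl (Or.inl h'), Or.inr h']))
    obtain ⟨e2, e3⟩ := set_b Φ _ _ _ d1 d2 d3
    rw [e2, e3] at r2
    linear_combination r1 - r2

theorem flip_ind [Fintype E] {Φ' : Set E} (hΦ' : Ty j Φ') (hj : Function.Involutive j)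
    (P : Set E → Prop)
    (hP : ∀ Ψ, Ty j Ψ → P Ψ → ∀ w ∈ Ψ, w ∉ Φ' → P (symmDiff Ψ (pl j w))) :
    ∀ (n : ℕ) (Φ : Set E), Ty j Φ → (Φ \ Φ').ncard = n → P Φ → P Φ' := by
  intro n
  induction n with
  | zero =>
    intro Φ hΦ hn h
    have h0 : Φ \ Φ' = ∅ := (Set.ncard_eq_zero (Set.toFinite _)).1 hn
    have h1 : Φ ⊆ Φ' := Set.sdiff_eq_empty.1 h0
    have : Φ = Φ' := by
      refine Set.Subset.antisymm h1 fun x hx => ?_
      by_contra h2
      have h3 : j x ∈ Φ := by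
        by_contra h4
        exact h2 ((hΦ x).2 h4)
      exact (hΦ' x).1 hx (h1 h3)
    rw [← this]; exact h
  | succ n ih =>
    intro Φ hΦ hn h
    have hne : (Φ \ Φ').Nonempty := by
      apply Set.nonempty_of_ncard_ne_zero
      omega
    obtain ⟨w, hw1, hw2⟩ := hne
    refine ih _ (ty_sd hΦ (stb_pl hj w)) ?_ (hP Φ hΦ h w hw1 hw2)
    have hjw : j w ∈ Φ' := by
      by_contra h4
      exact hw2 ((hΦ' w).2 h4)
    have hjw' : j w ∉ Φ := (hΦ w).1 hw1
    have e : symmDiff Φ (pl j w) \ Φ' = (Φ \ Φ') \ {w} := by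
      ext x
      simp only [Set.mem_sdiff, Set.mem_symmDiff, mem_pl, Set.mem_singleton_iff]
      constructor
      · rintro ⟨h1 | h1, h2⟩
        · exact ⟨⟨h1.1, h2⟩, fun h3 => h1.2 (Or.inl h3)⟩
        · rcases h1.1 with h3 | h3
          · exact absurd (h3 ▸ hw1) h1.2
          · exact absurd (h3 ▸ hjw) h2
      · rintro ⟨⟨h1, h2⟩, h3⟩
        refine ⟨Or.inl ⟨h1, ?_⟩, h2⟩
        rintro (h4 | h4)
        · exact h3 h4
        · exact hjw' (h4 ▸ h1)
    rw [e, Set.ncard_sdiff_singleton_of_mem (show w ∈ Φ \ Φ' from ⟨hw1, hw2⟩), hn]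
    rfl

theorem indep [Fintype E] (hj : Function.Involutive j) (hc : 8 ≤ Fintype.card E)
    {F : Set E → ℂ} {φ : E} (H : Rl j F φ) {Φ Φ' : Set E} (hΦ : Ty j Φ) (hΦ' : Ty j Φ') {ψ : E}
    (h1 : ψ ∈ Φ) (h2 : ψ ∈ Φ') :
    F Φ' - F (symmDiff Φ' (pl j ψ)) = F Φ - F (symmDiff Φ (pl j ψ)) := by
  have := flip_ind hΦ' hj
    (fun Ψ => ψ ∈ Ψ ∧ F Ψ - F (symmDiff Ψ (pl j ψ)) = F Φ - F (symmDiff Φ (pl j ψ))) ?_ _ Φ hΦ
    rfl ⟨h1, rfl⟩
  · exact this.2
  · rintro Ψ hΨ ⟨h3, h4⟩ w hw1 hw2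
    have hw : w ∉ pl j ψ := by
      rintro (h5 | h5)
      · exact hw2 (h5 ▸ h2)
      · exact (hΨ ψ).1 h3 (h5 ▸ hw1)
    refine ⟨Set.mem_symmDiff.2 (Or.inl ⟨h3, fun h5 => pl_disj hj hw ψ (Or.inl rfl) h5⟩), ?_⟩
    have := second hj hc H hΨ hw
    linear_combination h4 - this

theorem sum_flip [Fintype E] {Φ : Set E} (hΦ : Ty j Φ) (q : E → ℂ)
    {w : E} (hw : w ∈ Φ) :
    ∑ x, (symmDiff Φ (pl j w)).indicator q x = ∑ x, Φ.indicator q x - q w + q (j w) := by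
  classical
  have hjw : j w ∉ Φ := (hΦ w).1 hw
  have hne : j w ≠ w := fun h => hjw (by rw [h]; exact hw)
  have e : ∀ x, (symmDiff Φ (pl j w)).indicator q x =
      Φ.indicator q x - (if x = w then q w else 0) + (if x = j w then q (j w) else 0) := by
    intro x
    by_cases h1 : x = w
    · subst h1
      have : x ∉ symmDiff Φ (pl j x) := by
        simp only [Set.mem_symmDiff, mem_pl]; tauto
      rw [Set.indicator_of_notMem this, Set.indicator_of_mem hw, if_pos rfl, if_neg hne.symm]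
      ring
    · by_cases h2 : x = j w
      · subst h2
        have : j w ∈ symmDiff Φ (pl j w) := by
          simp only [Set.mem_symmDiff, mem_pl]; tauto
        rw [Set.indicator_of_mem this, Set.indicator_of_notMem hjw, if_neg h1, if_pos rfl]
        ring
      · rw [if_neg h1, if_neg h2]
        by_cases h3 : x ∈ Φ
        · have : x ∈ symmDiff Φ (pl j w) := by
            simp only [Set.mem_symmDiff, mem_pl]; tauto
          rw [Set.indicator_of_mem this, Set.indicator_of_mem h3]; ring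
        · have : x ∉ symmDiff Φ (pl j w) := by
            simp only [Set.mem_symmDiff, mem_pl]; tauto
          rw [Set.indicator_of_notMem this, Set.indicator_of_notMem h3]; ring
  simp only [e, Finset.sum_add_distrib, Finset.sum_sub_distrib, Finset.sum_ite_eq',
    Finset.mem_univ, if_true]

theorem exists_q [Fintype E] (hj : Function.Involutive j) (hc : 8 ≤ Fintype.card E)
    {F : Set E → ℂ} {φ : E} (H : Rl j F φ) {Φ₀ : Set E} (h0 : Ty j Φ₀) :
    ∃ q : E → ℂ, ∀ ψ Φ, Ty j Φ → ψ ∈ Φ → q ψ = (F Φ - F (symmDiff Φ (pl j ψ))) / 2 := by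
  have ex : ∀ ψ, ∃ T, Ty j T ∧ ψ ∈ T := by
    intro ψ
    by_cases h : ψ ∈ Φ₀
    · exact ⟨Φ₀, h0, h⟩
    · exact ⟨_, ty_sd h0 (stb_pl hj ψ), Set.mem_symmDiff.2 (Or.inr ⟨Or.inl rfl, h⟩)⟩
  choose T hT1 hT2 using ex
  refine ⟨fun ψ => (F (T ψ) - F (symmDiff (T ψ) (pl j ψ))) / 2, fun ψ Φ hΦ hψ => ?_⟩
  show (F (T ψ) - F (symmDiff (T ψ) (pl j ψ))) / 2 = _
  rw [indep hj hc H hΦ (hT1 ψ) hψ (hT2 ψ)]

theorem q_odd (hj : Function.Involutive j) {F : Set E → ℂ} {Φ₀ : Set E} (h0 : Ty j Φ₀)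
    {q : E → ℂ}
    (hq : ∀ ψ Φ, Ty j Φ → ψ ∈ Φ → q ψ = (F Φ - F (symmDiff Φ (pl j ψ))) / 2) (ψ : E) :
    q (j ψ) = -q ψ := by
  have key : ∀ Φ, Ty j Φ → ψ ∈ Φ → q (j ψ) = -q ψ := by
    intro Φ hΦ h
    have h1 : j ψ ∈ symmDiff Φ (pl j ψ) :=
      Set.mem_symmDiff.2 (Or.inr ⟨Or.inr rfl, (hΦ ψ).1 h⟩)
    have e : pl j (j ψ) = pl j ψ := by
      ext x
      simp only [mem_pl, hj ψ]
      tauto
    rw [hq ψ Φ hΦ h, hq (j ψ) _ (ty_sd hΦ (stb_pl hj ψ)) h1, e, symmDiff_symmDiff_cancel_right]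
    ring
  by_cases h : ψ ∈ Φ₀
  · exact key _ h0 h
  · exact key _ (ty_sd h0 (stb_pl hj ψ)) (Set.mem_symmDiff.2 (Or.inr ⟨Or.inl rfl, h⟩))

theorem q_sum [Fintype E] (hj : Function.Involutive j) {F : Set E → ℂ} {q : E → ℂ}
    (hq : ∀ ψ Φ, Ty j Φ → ψ ∈ Φ → q ψ = (F Φ - F (symmDiff Φ (pl j ψ))) / 2)
    (hF : ∀ Φ, Ty j Φ → F Φᶜ = -F Φ) {Φ : Set E} (hΦ : Ty j Φ) :
    F Φ = ∑ ψ, Φ.indicator q ψ := by
  have ho := q_odd hj hΦ hq
  have hc : Ty j Φᶜ := by
    intro x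
    have := hΦ x
    simp only [Set.mem_compl_iff]
    tauto
  have h1 := flip_ind hc hj
    (fun Ψ => F Ψ - ∑ ψ, Ψ.indicator q ψ = F Φ - ∑ ψ, Φ.indicator q ψ) ?_ _ Φ hΦ rfl rfl
  · have h2 : ∑ ψ, q ψ = 0 := by
      have h3 := Equiv.sum_comp hj.toPerm q
      simp only [Function.Involutive.coe_toPerm, ho, Finset.sum_neg_distrib] at h3
      linear_combination (-1 / 2 : ℂ) * h3
    have h4 : ∑ ψ, Φᶜ.indicator q ψ + ∑ ψ, Φ.indicator q ψ = 0 := by
      rw [← h2, ← Finset.sum_add_distrib]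
      exact Finset.sum_congr rfl fun x _ => Set.indicator_compl_add_self_apply Φ q x
    have h5 := hF Φ hΦ
    linear_combination (-1 / 2 : ℂ) * h1 + (1 / 2 : ℂ) * h5 - (1 / 2 : ℂ) * h4
  · intro Ψ hΨ h w hw _
    rw [sum_flip hΨ q hw, ho, ← h]
    have := hq w Ψ hΨ hw
    linear_combination 2 * this

end abstract

theorem cj_comp {L : Type} [Field L] [NumberField L] (φ : Emb L) (σ : L ≃ₐ[ℚ] L) :
    (cj φ).comp (σ : L →+* L) = cj (φ.comp (σ : L →+* L)) := by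
  ext x
  simp [NumberField.ComplexEmbedding.conjugate_coe_eq]

theorem comp_inj {L : Type} [Field L] [NumberField L] (σ : L ≃ₐ[ℚ] L) {φ ψ : Emb L}
    (h : φ.comp (σ : L →+* L) = ψ.comp (σ : L →+* L)) : φ = ψ := by
  ext x
  have := RingHom.congr_fun h (σ.symm x)
  simpa using this

open Polynomial in
theorem negacyclic (k : ℕ) (s : ℕ → ℚ) (hs : s 0 ≠ 0) (ρ : ℕ → ℂ)
    (h1 : ∀ j, ρ (j + 2 ^ k) = -ρ j)
    (h2 : ∀ j, ∑ i ∈ Finset.range (2 ^ k), (s i : ℂ) * ρ (j + i) = 0) : ρ 0 = 0 := by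
  let T : Module.End ℚ (ℕ → ℂ) := LinearMap.funLeft ℚ ℂ Nat.succ
  have hT : ∀ (i : ℕ) (f : ℕ → ℂ) (n : ℕ), (T ^ i) f n = f (n + i) := by
    intro i
    induction i with
    | zero => intro f n; simp
    | succ i ih =>
      intro f n
      rw [pow_succ, Module.End.mul_apply, ih]
      rfl
  let p : ℚ[X] := ∑ i ∈ Finset.range (2 ^ k), C (s i) * X ^ i
  have hp0 : p ≠ 0 := by
    intro h
    have : p.coeff 0 = s 0 := by
      simp only [p, finsetSum_coeff, coeff_C_mul_X_pow]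
      rw [Finset.sum_eq_single 0]
      · simp
      · intro b _ hb
        rw [if_neg (Ne.symm hb)]
      · intro hb
        exact absurd (Finset.mem_range.2 (by positivity)) hb
    rw [h, coeff_zero] at this
    exact hs this.symm
  have hpd : p.natDegree < 2 ^ k := by
    have : p.natDegree ≤ 2 ^ k - 1 := by
      refine natDegree_sum_le_of_forall_le _ _ fun i hi => ?_
      have := Finset.mem_range.1 hi
      exact (natDegree_C_mul_X_pow_le _ _).trans (by omega)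
    have h3 : 0 < 2 ^ k := by positivity
    omega
  have hcyc : cyclotomic (2 ^ (k + 1)) ℚ = X ^ 2 ^ k + 1 := by
    rw [cyclotomic_prime_pow_eq_geom_sum Nat.prime_two]
    simp [Finset.sum_range_succ, add_comm]
  have hirr : Irreducible (X ^ 2 ^ k + 1 : ℚ[X]) := by
    rw [← hcyc]
    exact cyclotomic.irreducible_rat (by positivity)
  have hcop : IsCoprime (X ^ 2 ^ k + 1 : ℚ[X]) p := by
    rw [hirr.coprime_iff_not_dvd]
    refine not_dvd_of_natDegree_lt hp0 ?_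
    rw [← C_1, natDegree_X_pow_add_C]
    exact hpd
  obtain ⟨a, b, hab⟩ := hcop
  have e1 : aeval T (X ^ 2 ^ k + 1 : ℚ[X]) ρ = 0 := by
    ext n
    simp [hT, h1]
  have e2 : aeval T p ρ = 0 := by
    ext n
    simp only [p, map_sum, map_mul, aeval_C, map_pow, aeval_X, LinearMap.sum_apply,
      Module.End.mul_apply, Module.algebraMap_end_apply, Finset.sum_apply, Pi.smul_apply, hT,
      Pi.zero_apply, Rat.smul_def]
    exact h2 n
  have e3 : aeval T (a * (X ^ 2 ^ k + 1) + b * p) ρ = 0 := by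
    rw [map_add, map_mul, map_mul, LinearMap.add_apply, Module.End.mul_apply,
      Module.End.mul_apply, e1, e2, map_zero, map_zero, add_zero]
  rw [hab, map_one, Module.End.one_apply] at e3
  rw [e3]; rfl

theorem five_pow (k : ℕ) : ∃ t : ℕ, 5 ^ 2 ^ k = 1 + 2 ^ (k + 2) + 2 ^ (k + 3) * t := by
  induction k with
  | zero => exact ⟨0, by norm_num⟩
  | succ k ih =>
    obtain ⟨t, ht⟩ := ih
    refine ⟨t + 2 ^ k * (1 + 2 * t) ^ 2, ?_⟩
    rw [pow_succ 2 k, pow_mul, ht]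
    ring

theorem five_mod (i : ℕ) : 5 ^ i % 4 = 1 := by
  rw [Nat.pow_mod]; simp

theorem emb_ext {n : ℕ} [NeZero n] {L : Type} [Field L] [NumberField L]
    [IsCyclotomicExtension {n} ℚ L] {ζ : L} (hζ : IsPrimitiveRoot ζ n) {φ ψ : Emb L}
    (h : φ ζ = ψ ζ) : φ = ψ := by
  have : φ.toRatAlgHom = ψ.toRatAlgHom := by
    apply (hζ.powerBasis ℚ).algHom_ext
    rw [hζ.powerBasis_gen ℚ]
    exact h
  ext x
  exact AlgHom.congr_fun this x

theorem aut_ext {n : ℕ} [NeZero n] {L : Type} [Field L] [NumberField L]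
    [IsCyclotomicExtension {n} ℚ L] {ζ : L} (hζ : IsPrimitiveRoot ζ n) {σ τ : L ≃ₐ[ℚ] L}
    (h : σ ζ = τ ζ) : σ = τ := by
  have : (σ : L →ₐ[ℚ] L) = (τ : L →ₐ[ℚ] L) := by
    apply (hζ.powerBasis ℚ).algHom_ext
    rw [hζ.powerBasis_gen ℚ]
    exact h
  ext x
  exact AlgHom.congr_fun this x

theorem exists_tau {n : ℕ} [NeZero n] {L : Type} [Field L] [NumberField L]
    [IsCyclotomicExtension {n} ℚ L] {ζ : L} (hζ : IsPrimitiveRoot ζ n) (a : ℕ)
    (ha : a.Coprime n) : ∃ τ : L ≃ₐ[ℚ] L, ∀ i : ℕ, (τ ^ i) ζ = ζ ^ a ^ i := by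
  have hirr := Polynomial.cyclotomic.irreducible_rat (NeZero.pos n)
  have h5 := hζ.pow_of_coprime a ha
  let τ : L ≃ₐ[ℚ] L := IsCyclotomicExtension.fromZetaAut h5 hirr *
    (IsCyclotomicExtension.fromZetaAut hζ hirr)⁻¹
  have hτ : τ ζ = ζ ^ a := by
    have e1 := IsCyclotomicExtension.fromZetaAut_spec hζ hirr
    have e2 := IsCyclotomicExtension.fromZetaAut_spec h5 hirr
    have e3 : (IsCyclotomicExtension.fromZetaAut hζ hirr)⁻¹ ζ =
        IsCyclotomicExtension.zeta n ℚ L := by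
      rw [AlgEquiv.aut_inv, AlgEquiv.symm_apply_eq, e1]
    show IsCyclotomicExtension.fromZetaAut h5 hirr
      ((IsCyclotomicExtension.fromZetaAut hζ hirr)⁻¹ ζ) = _
    rw [e3, e2]
  refine ⟨τ, fun i => ?_⟩
  induction i with
  | zero => simp
  | succ i ih =>
    rw [pow_succ', AlgEquiv.mul_apply, ih, map_pow, hτ, ← pow_mul, pow_succ']

theorem not_conj {N : ℕ} (h4 : 4 ∣ N) (hN : N ≠ 0) {z : ℂ} (hz : IsPrimitiveRoot z N)
    (i i' : ℕ) : z ^ 5 ^ i ≠ starRingEnd ℂ (z ^ 5 ^ i') := by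
  intro h
  have h1 : ‖z‖ = 1 := hz.norm'_eq_one hN
  have h2 : ‖z ^ 5 ^ i'‖ = 1 := by rw [norm_pow, h1, one_pow]
  have h3 : z ^ 5 ^ i' ≠ 0 := by
    intro h0
    rw [h0, norm_zero] at h2
    exact zero_ne_one h2
  rw [← Complex.inv_eq_conj h2] at h
  have h5 : z ^ (5 ^ i + 5 ^ i') = 1 := by
    rw [pow_add, h, inv_mul_cancel₀ h3]
  have h6 := h4.trans ((hz.pow_eq_one_iff_dvd _).1 h5)
  have := five_mod i
  have := five_mod i'
  omega

end AffAux

open AffAux in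
theorem aff : AffS := by
  intro L _ _ c f hc h8 hrel heqv hodd
  by_cases hex : ∃ Φ₀ : Set (Emb L), IsType Φ₀
  swap
  · exact ⟨fun _ _ => 0, by simp, by simp, fun Φ hΦ => absurd ⟨Φ, hΦ⟩ hex⟩
  obtain ⟨Φ₀, h0⟩ := hex
  have hj : Function.Involutive (cj : Emb L → Emb L) :=
    NumberField.ComplexEmbedding.involutive_conjugate L
  have hcard : 8 ≤ Fintype.card (Emb L) := by
    rw [NumberField.Embeddings.card L ℂ]; exact h8
  have H : ∀ φ : Emb L, Rl cj (fun Φ => f Φ φ) φ := fun φ Φ₀ Φ₁ Ψ₀ Ψ₁ a1 a2 a3 a4 a5 a6 a7 a8 =>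
    hrel Φ₀ Φ₁ Ψ₀ Ψ₁ a1 a2 a3 a4 a5 a6 φ a7 a8
  have ex := fun φ : Emb L => exists_q hj hcard (H φ) (Φ₀ := Φ₀) h0
  choose q hq using ex
  refine ⟨q, fun φ ψ => q_odd hj (Φ₀ := Φ₀) h0 (hq φ) ψ, fun σ φ ψ => ?_, fun Φ hΦ φ => ?_⟩
  · have key : ∀ Φ, Ty cj Φ → ψ.comp (σ : L →+* L) ∈ Φ →
        q (φ.comp (σ : L →+* L)) (ψ.comp (σ : L →+* L)) = q φ ψ := by
      intro Φ hΦ h
      have h1 : Ty cj {χ : Emb L | χ.comp (σ : L →+* L) ∈ Φ} := by
        intro χ
        simp only [Set.mem_ofPred_eq, cj_comp]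
        exact hΦ _
      have e : symmDiff {χ : Emb L | χ.comp (σ : L →+* L) ∈ Φ} (pl cj ψ) =
          {χ : Emb L | χ.comp (σ : L →+* L) ∈ symmDiff Φ (pl cj (ψ.comp (σ : L →+* L)))} := by
        ext χ
        have a1 : χ.comp (σ : L →+* L) = ψ.comp (σ : L →+* L) ↔ χ = ψ :=
          ⟨comp_inj σ, fun a => by rw [a]⟩
        have a2 : χ.comp (σ : L →+* L) = cj (ψ.comp (σ : L →+* L)) ↔ χ = cj ψ := by
          rw [← cj_comp]
          exact ⟨comp_inj σ, fun a => by rw [a]⟩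
        simp only [Set.mem_symmDiff, Set.mem_ofPred_eq, mem_pl, a1, a2]
      rw [hq _ _ Φ hΦ h, hq φ ψ _ h1 h, e]
      simp only [heqv]
    by_cases h : ψ.comp (σ : L →+* L) ∈ Φ₀
    · exact key _ h0 h
    · exact key _ (ty_sd h0 (stb_pl hj _)) (Set.mem_symmDiff.2 (Or.inr ⟨Or.inl rfl, h⟩))
  · refine q_sum hj (F := fun Φ => f Φ φ) (hq φ) (fun Ψ hΨ => ?_) hΦ
    have hcc : ∀ χ : Emb L, χ.comp (c : L →+* L) = cj χ := by
      intro χ
      ext x
      simp [NumberField.ComplexEmbedding.conjugate_coe_eq, hc χ x]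
    have e : Ψᶜ = {χ : Emb L | χ.comp (c : L →+* L) ∈ Ψ} := by
      ext χ
      have := hΨ χ
      simp only [Set.mem_compl_iff, Set.mem_ofPred_eq, hcc]
      tauto
    show f Ψᶜ φ = -f Ψ φ
    rw [e, heqv, hcc, hodd Ψ hΨ]

open AffAux in
theorem sqS : SqS := by
  intro r L _ _ _ ζ q hr hζ hodd hinv hsum φ φ' ψ hφ'
  classical
  obtain ⟨k, rfl⟩ : ∃ k, r = k + 3 := ⟨r - 3, by omega⟩
  have : NeZero (2 ^ (k + 3)) := ⟨by positivity⟩
  obtain ⟨τ, hτ⟩ := exists_tau hζ 5 (Nat.Coprime.pow_right _ (by norm_num))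
  have hneg : ζ ^ 2 ^ (k + 2) = -1 := by
    apply IsPrimitiveRoot.eq_neg_one_of_two_right
    exact hζ.pow (by positivity) (by ring)
  have hm : (τ ^ 2 ^ k) ζ = -ζ := by
    obtain ⟨t, ht⟩ := five_pow k
    rw [hτ, ht, pow_add, pow_add, pow_mul, hζ.pow_eq_one, hneg]
    ring
  have hζ0 : ζ ≠ 0 := hζ.ne_zero (by positivity)
  have hmm : τ ^ 2 ^ (k + 1) = 1 := by
    apply aut_ext hζ
    rw [pow_succ, mul_two, pow_add, AlgEquiv.mul_apply, hm, map_neg, hm, neg_neg]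
    rfl
  have hord : orderOf τ = 2 ^ (k + 1) := by
    have : Fact (Nat.Prime 2) := ⟨Nat.prime_two⟩
    refine orderOf_eq_prime_pow (fun h => ?_) hmm
    rw [h] at hm
    apply hζ0
    have : ζ = -ζ := hm
    linear_combination (1 / 2 : L) * this
  let e : ℕ → Emb L := fun i => ψ.comp ((τ ^ i : L ≃ₐ[ℚ] L) : L →+* L)
  have he : ∀ i x, e i x = ψ ((τ ^ i) x) := fun i x => rfl
  have hz : IsPrimitiveRoot (ψ ζ) (2 ^ (k + 3)) := hζ.map_of_injective ψ.injective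
  have heζ : ∀ i, e i ζ = ψ ζ ^ 5 ^ i := fun i => by rw [he, hτ, map_pow]
  have h4 : 4 ∣ 2 ^ (k + 3) := ⟨2 ^ (k + 1), by ring⟩
  have hnc : ∀ i i', e i ζ ≠ starRingEnd ℂ (e i' ζ) := fun i i' => by
    rw [heζ, heζ]
    exact not_conj h4 (by positivity) hz i i'
  have hshift : ∀ i j, (e i).comp ((τ ^ j : L ≃ₐ[ℚ] L) : L →+* L) = e (i + j) := by
    intro i j
    ext x
    show ψ ((τ ^ i) ((τ ^ j) x)) = ψ ((τ ^ (i + j)) x)
    rw [pow_add, AlgEquiv.mul_apply]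
  have hper : ∀ i, e (i + 2 ^ k + 2 ^ k) = e i := by
    intro i
    ext x
    rw [he, he, add_assoc, ← mul_two, ← pow_succ, pow_add, hmm, mul_one]
  have hanti : ∀ i, e (i + 2 ^ k) ζ = -e i ζ := by
    intro i
    rw [he, he, pow_add, AlgEquiv.mul_apply, hm, map_neg, map_neg]
  have einj : ∀ i i', i < 2 ^ (k + 1) → i' < 2 ^ (k + 1) → e i = e i' → i = i' := by
    intro i i' hi hi' h
    refine pow_injOn_Iio_orderOf (x := τ) (by rw [hord]; exact hi) (by rw [hord]; exact hi') ?_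
    apply aut_ext hζ
    apply ψ.injective
    exact RingHom.congr_fun h ζ
  let b : Fin (2 ^ (k + 1)) ⊕ Fin (2 ^ (k + 1)) → Emb L :=
    Sum.elim (fun i => e i) fun i => cj (e i)
  have hb : Function.Bijective b := by
    rw [Fintype.bijective_iff_injective_and_card]
    constructor
    · rintro (i | i) (i' | i') h
      · rw [Fin.ext (einj _ _ i.2 i'.2 h)]
      · exact absurd (RingHom.congr_fun h ζ) (hnc i i')
      · exact absurd (RingHom.congr_fun h.symm ζ) (hnc i' i)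
      · have h1 : e i = e i' :=
          (NumberField.ComplexEmbedding.involutive_conjugate L).injective h
        rw [Fin.ext (einj _ _ i.2 i'.2 h1)]
    · rw [NumberField.Embeddings.card L ℂ, IsCyclotomicExtension.finrank (n := 2 ^ (k + 3)) L
        (Polynomial.cyclotomic.irreducible_rat (by positivity)),
        Nat.totient_prime_pow Nat.prime_two (by omega), Fintype.card_sum, Fintype.card_fin]
      rw [show k + 3 - 1 = k + 2 from rfl]
      ring
  let s : ℕ → ℚ := fun i => if 0 < (e i ζ).im then 1 else -1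
  have him : ∀ i, (e i ζ).im ≠ 0 := fun i h =>
    hnc i i (Complex.conj_eq_iff_im.2 h).symm
  have hs : ∀ i, s (i + 2 ^ k) = -s i := by
    intro i
    have := him i
    simp only [s, hanti, Complex.neg_im]
    by_cases h : 0 < (e i ζ).im
    · rw [if_pos h, if_neg (by linarith)]
    · rw [if_neg h, if_pos (by rcases lt_or_gt_of_ne this with h' | h' <;> linarith), neg_neg]
  have hA : ∀ χ : Emb L, ∑ i ∈ Finset.range (2 ^ k),
      (s i : ℂ) * (q χ (e i) - q χ (e (i + 2 ^ k))) = 0 := by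
    intro χ
    have h1 := hsum χ
    rw [← hb.sum_comp, Fintype.sum_sum_type, ← Finset.sum_add_distrib] at h1
    have h2 : ∀ i : ℕ, {ψ : Emb L | 0 < (ψ ζ).im}.indicator (q χ) (e i) +
        {ψ : Emb L | 0 < (ψ ζ).im}.indicator (q χ) (cj (e i)) = (s i : ℂ) * q χ (e i) := by
      intro i
      have h3 : (cj (e i) ζ).im = -(e i ζ).im := by
        rw [NumberField.ComplexEmbedding.conjugate_coe_eq, Complex.conj_im]
      have h5 := him i
      by_cases h : 0 < (e i ζ).im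
      · rw [Set.indicator_of_mem (show e i ∈ {ψ : Emb L | 0 < (ψ ζ).im} from h),
          Set.indicator_of_notMem (show cj (e i) ∉ {ψ : Emb L | 0 < (ψ ζ).im} from
            fun h6 => by have h7 : 0 < (cj (e i) ζ).im := h6; linarith)]
        simp [s, h]
      · rw [Set.indicator_of_notMem (show e i ∉ {ψ : Emb L | 0 < (ψ ζ).im} from h),
          Set.indicator_of_mem (show cj (e i) ∈ {ψ : Emb L | 0 < (ψ ζ).im} from by
            show 0 < (cj (e i) ζ).im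
            rcases lt_or_gt_of_ne h5 with h' | h' <;> linarith), hodd]
        simp [s, h]
    have h3 : ∑ i : Fin (2 ^ (k + 1)), (s i : ℂ) * q χ (e i) = 0 := by
      rw [← h1]
      exact Finset.sum_congr rfl fun i _ => (h2 i).symm
    rw [Fin.sum_univ_eq_sum_range (fun i => (s i : ℂ) * q χ (e i)), pow_succ, mul_two,
      Finset.sum_range_add, ← Finset.sum_add_distrib] at h3
    rw [← h3]
    refine Finset.sum_congr rfl fun i _ => ?_
    rw [add_comm (2 ^ k) i, hs]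
    push_cast
    ring
  have hρ := negacyclic k s (by simp only [s]; split_ifs <;> norm_num)
    (fun j => q φ (e j) - q φ (e (j + 2 ^ k))) (fun j => by simp only [hper]; ring) (fun j => ?_)
  · have h1 : φ' = φ.comp ((τ ^ 2 ^ k : L ≃ₐ[ℚ] L) : L →+* L) := by
      apply emb_ext hζ
      rw [hφ']
      show _ = φ ((τ ^ 2 ^ k) ζ)
      rw [hm, map_neg]
    have h2 : e 0 = ψ := by
      ext x
      rw [he, pow_zero]; rfl
    have h3 : (e (0 + 2 ^ k)).comp ((τ ^ 2 ^ k : L ≃ₐ[ℚ] L) : L →+* L) = ψ := by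
      rw [hshift, hper, h2]
    have h5 := hinv (τ ^ 2 ^ k) φ (e (0 + 2 ^ k))
    rw [h3, ← h1] at h5
    rw [h5]
    have h6 : q φ (e 0) - q φ (e (0 + 2 ^ k)) = 0 := hρ
    rw [h2] at h6
    linear_combination -h6
  · let χ : Emb L := φ.comp (((τ ^ j)⁻¹ : L ≃ₐ[ℚ] L) : L →+* L)
    have h1 : χ.comp ((τ ^ j : L ≃ₐ[ℚ] L) : L →+* L) = φ := by
      ext x
      show φ ((τ ^ j)⁻¹ ((τ ^ j) x)) = φ x
      rw [← AlgEquiv.mul_apply, inv_mul_cancel]; rfl
    have h2 : ∀ i, q χ (e i) = q φ (e (i + j)) := fun i => by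
      rw [← hinv (τ ^ j) χ (e i), h1, hshift]
    rw [← hA χ]
    refine Finset.sum_congr rfl fun i _ => ?_
    rw [h2, h2, add_comm j i, add_right_comm i (2 ^ k) j]

end Pool.Agent.Lib.MP_caab05_ag.GB
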