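import Mathlib
import Pool.Agent.Lib.MP_caab05_ag.GB.Stmt2

/-! Points with complex multiplication of a given type are dense in the unitary family. -/

namespace Pool.Agent.Lib.MP_caab05_ag.GB

open MvPolynomial Filter Topology Asymptotics Complex Matrix

namespace CMPtAux

variable {g : ℕ}

theorem app_add (M : Mat g) (x y : V g) : app M (x + y) = app M x + app M y :=
  Matrix.mulVec_add _ _ _

theorem app_smul (M : Mat g) (a : ℂ) (x : V g) : app M (a • x) = a • app M x :=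
  Matrix.mulVec_smul _ _ _

theorem per_add (τ : Mat g) (x y : W g) : per τ (x + y) = per τ x + per τ y := by
  have h1 : lft (x + y) = lft x + lft y := rfl
  have h2 : rgt (x + y) = rgt x + rgt y := rfl
  unfold per
  rw [h1, h2, app_add]
  abel

theorem per_smul (τ : Mat g) (a : ℂ) (x : W g) : per τ (a • x) = a • per τ x := by
  have h1 : lft (a • x) = a • lft x := rfl
  have h2 : rgt (a • x) = a • rgt x := rfl
  unfold per
  rw [h1, h2, app_smul, smul_add]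

theorem D_per (D : Der) (τ : Mat g) (x : W g) (hτ : ∀ i j, D (τ i j) = 0)
    (hx : ∀ j, D (x j) = 0) (k : Fin g) : D (per τ x k) = 0 := by
  have e : per τ x k = ∑ j, τ k j * x (.inl j) + x (.inr k) := rfl
  rw [e, map_add, map_sum, hx, add_zero]
  refine Finset.sum_eq_zero fun j _ => ?_
  rw [Derivation.leibniz, hτ, hx, smul_zero, smul_zero, add_zero]

theorem beta_zero (D : Der) (τ M : Mat g) (hτ : ∀ i j, D (τ i j) = 0) (x : W g) :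
    beta D τ M 0 x = app M (per τ x) := by
  unfold beta
  have e : (fun i j => D (τ i j) - (0 : Mat g) i j) = (0 : Mat g) := by
    funext i j
    simp [hτ]
  rw [e]
  have e2 : app (0 : Mat g) (lft x) = 0 := Matrix.zero_mulVec _
  rw [e2, add_zero]

variable {L : Type} [Field L] [NumberField L]

omit [NumberField L] in
theorem cj_apply (φ : Emb L) (x : L) : cj φ x = starRingEnd ℂ (φ x) := rfl

omit [NumberField L] in
theorem cj_cj (φ : Emb L) : cj (cj φ) = φ := by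
  ext x
  rw [cj_apply, cj_apply, conj_conj]

omit [NumberField L] in
theorem im_cj (φ : Emb L) (x : L) : (cj φ x).im = -(φ x).im := by
  rw [cj_apply, conj_im]

variable {c : L ≃ₐ[ℚ] L} {ξ : Fin 2 → L}

theorem xi_eq (h : IsXi c ξ) (ψ : Emb L) (i : Fin 2) : ψ (ξ i) = (ψ (ξ i)).im * I := by
  have h1 := h.cj ψ (ξ i)
  rw [h.skew, map_neg] at h1
  have h2 := congrArg Complex.re h1
  simp only [neg_re, conj_re] at h2
  refine Complex.ext ?_ ?_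
  · simp; linarith
  · simp

theorem im_ne (h : IsXi c ξ) (ψ : Emb L) (i : Fin 2) : (ψ (ξ i)).im ≠ 0 := fun h0 => by
  have h1 := xi_eq h ψ i
  rw [h0, ofReal_zero, zero_mul] at h1
  exact h.ne i ((map_eq_zero ψ).1 h1)

/-- the partner of `q` -/
noncomputable def pp (c : L ≃ₐ[ℚ] L) (ξ : Fin 2 → L) (q : L) : L := -ξ 1 * c q / ξ 0

theorem pp_apply (h : IsXi c ξ) (q : L) (ψ : Emb L) :
    ψ (pp c ξ q) = rr ξ ψ * starRingEnd ℂ (ψ q) := by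
  have h0 : ((ψ (ξ 0)).im : ℂ) ≠ 0 := ofReal_ne_zero.2 (im_ne h ψ 0)
  unfold pp rr
  rw [map_div₀, map_mul, map_neg, h.cj ψ q]
  push_cast
  conv_lhs => rw [xi_eq h ψ 0, xi_eq h ψ 1]
  field_simp

theorem pp_cj (h : IsXi c ξ) (q : L) (ψ : Emb L) : cj ψ (pp c ξ q) = rr ξ ψ * ψ q := by
  rw [cj_apply, pp_apply h, map_mul, conj_conj, conj_ofReal]

theorem det_ne (h : IsXi c ξ) (q : L) (ψ : Emb L) : 1 - ψ (pp c ξ q) * ψ q ≠ 0 := by
  have e : ∀ χ : Emb L, 1 - χ (pp c ξ q) * χ q = χ (1 - pp c ξ q * q) := fun χ => by simp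
  rw [e, map_ne_zero]
  intro h0
  obtain ⟨χ, h1, h2⟩ := h.defin
  have h3 := e χ
  rw [h0, map_zero, pp_apply h, mul_assoc, ← Complex.normSq_eq_conj_mul_self] at h3
  have h4 : (1 : ℝ) - rr ξ χ * normSq (χ q) = 0 := by exact_mod_cast h3
  have h5 : rr ξ χ < 0 := by
    unfold rr
    exact div_neg_of_neg_of_pos (by linarith) h1
  nlinarith [normSq_nonneg (χ q)]

omit [NumberField L] in
theorem rr_pos (φ : Mx ξ) : 0 < rr ξ φ.1 := div_pos (by linarith [φ.2.2]) φ.2.1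

section Types

variable {Ψ₀ Ψ₁ : Set (Emb L)}

omit [NumberField L] in
theorem one_of (t0 : IsType Ψ₀) (t1 : IsType Ψ₁)
    (hΨ : Ψ₀ ∩ Ψ₁ = {ψ | (ψ (ξ 0)).im < 0 ∧ (ψ (ξ 1)).im < 0}) (φ : Mx ξ) :
    φ.1 ∈ Ψ₁ ↔ φ.1 ∉ Ψ₀ := by
  constructor
  · intro h1 h0
    have : φ.1 ∈ Ψ₀ ∩ Ψ₁ := ⟨h0, h1⟩
    rw [hΨ] at this
    exact absurd this.1 (not_lt.2 φ.2.1.le)
  · intro h0
    by_contra h1
    have a0 : cj φ.1 ∈ Ψ₀ := by
      by_contra h2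
      exact h0 ((t0 _).2 h2)
    have a1 : cj φ.1 ∈ Ψ₁ := by
      by_contra h2
      exact h1 ((t1 _).2 h2)
    have : cj φ.1 ∈ Ψ₀ ∩ Ψ₁ := ⟨a0, a1⟩
    rw [hΨ] at this
    have h3 := this.2
    rw [im_cj] at h3
    linarith [φ.2.2]

/-- the four kinds of embeddings -/
theorem kinds (h : IsXi c ξ) (t0 : IsType Ψ₀) (t1 : IsType Ψ₁)
    (hΨ : Ψ₀ ∩ Ψ₁ = {ψ | (ψ (ξ 0)).im < 0 ∧ (ψ (ξ 1)).im < 0}) (ψ : Emb L) :
    ((ψ (ξ 0)).im < 0 ∧ (ψ (ξ 1)).im < 0) ∨ (ψ ∉ Ψ₀ ∧ ψ ∉ Ψ₁) ∨ (∃ φ : Mx ξ, ψ = φ.1) ∨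
      ∃ φ : Mx ξ, ψ = cj φ.1 := by
  rcases lt_or_gt_of_ne (im_ne h ψ 0) with h0 | h0 <;>
    rcases lt_or_gt_of_ne (im_ne h ψ 1) with h1 | h1
  · exact Or.inl ⟨h0, h1⟩
  · refine Or.inr (Or.inr (Or.inr ⟨⟨cj ψ, ?_, ?_⟩, (cj_cj ψ).symm⟩))
    · rw [im_cj]; linarith
    · rw [im_cj]; linarith
  · exact Or.inr (Or.inr (Or.inl ⟨⟨ψ, h0, h1⟩, rfl⟩))
  · have : cj ψ ∈ Ψ₀ ∩ Ψ₁ := by
      rw [hΨ]
      refine ⟨?_, ?_⟩
      · rw [im_cj]; linarith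
      · rw [im_cj]; linarith
    exact Or.inr (Or.inl ⟨fun a => (t0 ψ).1 a this.1, fun a => (t1 ψ).1 a this.2⟩)

/-- the Hodge filtration at a special point -/
theorem inF_iff (h : IsXi c ξ) (t0 : IsType Ψ₀) (t1 : IsType Ψ₁)
    (hΨ : Ψ₀ ∩ Ψ₁ = {ψ | (ψ (ξ 0)).im < 0 ∧ (ψ (ξ 1)).im < 0}) {q : L} {z : Mx ξ → ℂ}
    (hz0 : ∀ φ : Mx ξ, φ.1 ∈ Ψ₀ → z φ * φ.1 (pp c ξ q) = 1)
    (hz1 : ∀ φ : Mx ξ, φ.1 ∉ Ψ₀ → z φ = φ.1 q) (X : Emb L → Fin 2 → ℂ) :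
    InF ξ z X ↔ (∀ ψ ∈ Ψ₀, X ψ 0 = ψ (pp c ξ q) * X ψ 1) ∧ ∀ ψ ∈ Ψ₁, X ψ 1 = ψ q * X ψ 0 := by
  constructor
  · rintro ⟨h1, h2⟩
    refine ⟨fun ψ hψ => ?_, fun ψ hψ => ?_⟩
    · rcases kinds h t0 t1 hΨ ψ with a | a | ⟨φ, rfl⟩ | ⟨φ, rfl⟩
      · simp [h2 ψ a.1 a.2]
      · exact absurd hψ a.1
      · have b := hz0 φ hψ
        rw [(h1 φ).1]
        linear_combination (-X φ.1 0) * b
      · have b := hz1 φ fun a => (t0 _).1 a hψ
        rw [(h1 φ).2, pp_cj h, b]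
    · rcases kinds h t0 t1 hΨ ψ with a | a | ⟨φ, rfl⟩ | ⟨φ, rfl⟩
      · simp [h2 ψ a.1 a.2]
      · exact absurd hψ a.2
      · rw [(h1 φ).1, hz1 φ ((one_of t0 t1 hΨ φ).1 hψ)]
      · have a0 : φ.1 ∈ Ψ₀ := by
          by_contra a
          exact (t1 _).1 ((one_of t0 t1 hΨ φ).2 a) hψ
        have b := hz0 φ a0
        rw [pp_apply h] at b
        rw [(h1 φ).2, cj_apply]
        linear_combination (-X (cj φ.1) 1) * b
  · rintro ⟨h1, h2⟩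
    refine ⟨fun φ => ?_, fun ψ a0 a1 => ?_⟩
    · by_cases a : φ.1 ∈ Ψ₀
      · have b := hz0 φ a
        have a1 : cj φ.1 ∈ Ψ₁ := by
          by_contra a1
          exact (one_of t0 t1 hΨ φ).1 ((t1 _).2 a1) a
        refine ⟨?_, ?_⟩
        · rw [h1 _ a]
          linear_combination (-X φ.1 1) * b
        · rw [pp_apply h] at b
          rw [h2 _ a1, cj_apply]
          linear_combination (-X (cj φ.1) 0) * b
      · have a0 : cj φ.1 ∈ Ψ₀ := by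
          by_contra a0
          exact a ((t0 _).2 a0)
        refine ⟨?_, ?_⟩
        · rw [h2 _ ((one_of t0 t1 hΨ φ).2 a), hz1 φ a]
        · rw [h1 _ a0, pp_cj h, hz1 φ a]
    · have a : ψ ∈ Ψ₀ ∩ Ψ₁ := by rw [hΨ]; exact ⟨a0, a1⟩
      have b0 := h1 ψ a.1
      have b1 := h2 ψ a.2
      have b2 : (1 - ψ (pp c ξ q) * ψ q) * X ψ 0 = 0 := by
        linear_combination b0 + ψ (pp c ξ q) * b1
      have b3 : X ψ 0 = 0 := (mul_eq_zero.1 b2).resolve_left (det_ne h q ψ)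
      funext i
      fin_cases i
      · exact b3
      · simpa [b3] using b1

end Types

theorem vec_eq (v : Emb L → Fin 2 → W g) (X : Emb L → Fin 2 → ℂ) :
    vec v X = ∑ ψ : Emb L, (X ψ 0 • v ψ 0 + X ψ 1 • v ψ 1) := by
  unfold vec
  simp only [Fin.sum_univ_two]

open Classical in
theorem vec_single (v : Emb L → Fin 2 → W g) (ψ : Emb L) (a b : ℂ) :
    vec v (fun χ => if χ = ψ then ![a, b] else 0) = a • v ψ 0 + b • v ψ 1 := by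
  rw [vec_eq, Finset.sum_eq_single ψ]
  · simp
  · intro χ _ hχ
    simp [hχ]
  · simp

theorem ratF {v : Emb L → Fin 2 → W g} (hs : IsSym ξ v) (a b : L) :
    RatF fun ψ : Emb L => ψ a • v ψ 0 + ψ b • v ψ 1 := fun x => by
  have h1 := hs.rat ![x * a, x * b]
  rw [vec_eq] at h1
  have e : ∑ ψ : Emb L, ψ x • (ψ a • v ψ 0 + ψ b • v ψ 1) =
      ∑ ψ : Emb L, (ψ (![x * a, x * b] 0) • v ψ 0 + ψ (![x * a, x * b] 1) • v ψ 1) := by
    refine Finset.sum_congr rfl fun ψ _ => ?_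
    simp [smul_add, smul_smul]
  rw [e]
  exact h1

theorem comb {E : Type} [AddCommGroup E] [Module ℂ E] (x y : E) {p q : ℂ} (h : 1 - p * q ≠ 0)
    (a b : ℂ) : a • x + b • y = ((a - p * b) / (1 - p * q)) • ((1 : ℂ) • x + q • y) +
      ((b - q * a) / (1 - p * q)) • (p • x + (1 : ℂ) • y) := by
  have e1 : a = (a - p * b) / (1 - p * q) * 1 + (b - q * a) / (1 - p * q) * p := by
    field_simp
    ring
  have e2 : b = (a - p * b) / (1 - p * q) * q + (b - q * a) / (1 - p * q) * 1 := by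
    field_simp
    ring
  rw [smul_add, smul_add, smul_smul, smul_smul, smul_smul, smul_smul, add_add_add_comm,
    ← add_smul, ← add_smul, ← e1, ← e2]

/-- the twist at a special point -/
theorem point (h1 : PolS) (h2 : TwMS) (h4 : XDS) (h5 : WeakS) (h6 : EllS) (h : IsXi c ξ)
    {v : Emb L → Fin 2 → W g} (hs : IsSym ξ v) {τ : Mat g} (hτ : Sg τ) (D : Der)
    {Ψ₀ Ψ₁ : Set (Emb L)} (t0 : IsType Ψ₀) (t1 : IsType Ψ₁) {q : L}
    (hk : ∀ X, per τ (vec v X) = 0 ↔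
      (∀ ψ ∈ Ψ₀, X ψ 0 = ψ (pp c ξ q) * X ψ 1) ∧ ∀ ψ ∈ Ψ₁, X ψ 1 = ψ q * X ψ 0) :
    ∃ (M N : Mat g) (c' : ℂ), IsTw D τ M 0 N c' ∧ (∀ ψ i k, D (per τ (v ψ i) k) = 0) ∧
      (∀ ψ ∉ Ψ₀, ∀ i, app M (per τ (v ψ i)) = ell D Ψ₁ ψ • per τ (v ψ i)) ∧
      ∀ ψ ∉ Ψ₁, ∀ i, app M (per τ (v ψ i)) = ell D Ψ₀ ψ • per τ (v ψ i) := by
  classical
  obtain ⟨M, K, N, c', hT⟩ := h2 g D τ hτ
  set p := pp c ξ q with hp
  set v0 : Emb L → W g := fun ψ => ψ 1 • v ψ 0 + ψ q • v ψ 1 with hv0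
  set v1 : Emb L → W g := fun ψ => ψ p • v ψ 0 + ψ 1 • v ψ 1 with hv1
  have r0 : RatF v0 := ratF hs 1 q
  have r1 : RatF v1 := ratF hs p 1
  have k0 : ∀ ψ, ψ ∉ Ψ₀ → per τ (v0 ψ) = 0 := fun ψ hψ => by
    rw [hv0]
    dsimp only
    rw [← vec_single, hk]
    refine ⟨fun χ hχ => ?_, fun χ _ => ?_⟩
    · have : χ ≠ ψ := fun e => hψ (e ▸ hχ)
      simp [this]
    · by_cases e : χ = ψ <;> simp [e]
  have k1 : ∀ ψ, ψ ∉ Ψ₁ → per τ (v1 ψ) = 0 := fun ψ hψ => by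
    rw [hv1]
    dsimp only
    rw [← vec_single, hk]
    refine ⟨fun χ _ => ?_, fun χ hχ => ?_⟩
    · by_cases e : χ = ψ <;> simp [e]
    · have : χ ≠ ψ := fun e => hψ (e ▸ hχ)
      simp [this]
  have b0 : ∀ ψ, beta D τ M K (v0 ψ) = ell D Ψ₀ ψ • per τ (v0 ψ) := fun ψ =>
    h6.spec L c Ψ₀ D h.cj t0 ψ g τ M K N c' v0 hτ hT r0 k0
  have b1 : ∀ ψ, beta D τ M K (v1 ψ) = ell D Ψ₁ ψ • per τ (v1 ψ) := fun ψ =>
    h6.spec L c Ψ₁ D h.cj t1 ψ g τ M K N c' v1 hτ hT r1 k1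
  have cb : ∀ (ψ : Emb L) (a b : ℂ), a • v ψ 0 + b • v ψ 1 =
      ((a - ψ p * b) / (1 - ψ p * ψ q)) • v0 ψ + ((b - ψ q * a) / (1 - ψ p * ψ q)) • v1 ψ :=
    fun ψ a b => by
      rw [comb (v ψ 0) (v ψ 1) (det_ne h q ψ) a b, hv0, hv1]
      simp only [map_one]
      rfl
  have rig := h4.rigid g D τ M K (v0 '' Ψ₀ᶜ ∪ v1 '' Ψ₁ᶜ) ?_ ?_
  · obtain ⟨rfl, hD⟩ := rig
    simp only [beta_zero D τ M hD] at b0 b1
    have cb' : ∀ (ψ : Emb L) (i : Fin 2), ∃ a b : ℂ, v ψ i = a • v0 ψ + b • v1 ψ := fun ψ i => by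
      fin_cases i
      · have := cb ψ 1 0
        rw [one_smul, zero_smul, add_zero] at this
        exact ⟨_, _, this⟩
      · have := cb ψ 0 1
        rw [one_smul, zero_smul, zero_add] at this
        exact ⟨_, _, this⟩
    refine ⟨M, N, c', hT, fun ψ i k => D_per D τ _ hD (fun j => h1.D_alg D _ (hs.alg ψ i j)) k,
      fun ψ hψ i => ?_, fun ψ hψ i => ?_⟩
    · obtain ⟨a, b, e⟩ := cb' ψ i
      rw [e, per_add, per_smul, per_smul, k0 ψ hψ, smul_zero, zero_add, app_smul, b1, smul_comm]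
    · obtain ⟨a, b, e⟩ := cb' ψ i
      rw [e, per_add, per_smul, per_smul, k1 ψ hψ, smul_zero, add_zero, app_smul, b0, smul_comm]
  · rintro f (⟨ψ, hψ, rfl⟩ | ⟨ψ, hψ, rfl⟩)
    · refine ⟨fun j => h1.D_alg D _ (h5.ratf_alg L g v0 r0 ψ j), k0 ψ hψ, ?_⟩
      rw [b0, k0 ψ hψ, smul_zero]
    · refine ⟨fun j => h1.D_alg D _ (h5.ratf_alg L g v1 r1 ψ j), k1 ψ hψ, ?_⟩
      rw [b1, k1 ψ hψ, smul_zero]
  · intro w hw
    obtain ⟨X, rfl⟩ := hs.span w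
    obtain ⟨a0, a1⟩ := (hk X).1 hw
    rw [vec_eq]
    refine Submodule.sum_mem _ fun ψ _ => ?_
    rw [cb]
    refine Submodule.add_mem _ ?_ ?_
    · by_cases e : ψ ∈ Ψ₀
      · rw [← a0 ψ e, sub_self, zero_div, zero_smul]
        exact Submodule.zero_mem _
      · exact Submodule.smul_mem _ _ (Submodule.subset_span (Or.inl ⟨ψ, e, rfl⟩))
    · by_cases e : ψ ∈ Ψ₁
      · rw [← a1 ψ e, sub_self, zero_div, zero_smul]
        exact Submodule.zero_mem _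
      · exact Submodule.smul_mem _ _ (Submodule.subset_span (Or.inr ⟨ψ, e, rfl⟩))

theorem isOpen_Dom (ξ : Fin 2 → L) (t : ℝ) : IsOpen (Dom ξ t) := by
  unfold Dom
  rw [Set.ofPred_forall]
  exact isOpen_iInter_of_finite fun φ => isOpen_lt (by fun_prop) continuous_const

theorem denseRange_mx (h5 : WeakS) (ξ : Fin 2 → L) :
    DenseRange fun (q : L) (φ : Mx ξ) => φ.1 q := by
  classical
  rw [Metric.denseRange_iff]
  intro y ε hε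
  obtain ⟨q, hq⟩ := h5.approx L {φ | 0 < (φ (ξ 0)).im ∧ (φ (ξ 1)).im < 0}
    (fun φ a b => by
      have b1 := b.1
      rw [im_cj] at b1
      linarith [a.1])
    (fun φ => if a : 0 < (φ (ξ 0)).im ∧ (φ (ξ 1)).im < 0 then y ⟨φ, a⟩ else 0) ε hε
  refine ⟨q, (dist_pi_lt_iff hε).2 fun φ => ?_⟩
  have := hq φ.1 φ.2
  rw [dif_pos φ.2] at this
  rwa [dist_comm, dist_eq_norm]

/-- special points are dense -/
theorem dense_special (h5 : WeakS) (h : IsXi c ξ) (Ψ₀ : Set (Emb L)) {O : Set (Mx ξ → ℂ)}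
    (hO : IsOpen O) (hne : O.Nonempty) : ∃ (q : L), ∃ z ∈ O,
      (∀ φ : Mx ξ, φ.1 ∈ Ψ₀ → z φ * φ.1 (pp c ξ q) = 1) ∧ ∀ φ : Mx ξ, φ.1 ∉ Ψ₀ → z φ = φ.1 q := by
  classical
  let F : (Mx ξ → ℂ) → Mx ξ → ℂ := fun y φ =>
    if φ.1 ∈ Ψ₀ then ((rr ξ φ.1 : ℂ) * starRingEnd ℂ (y φ))⁻¹ else y φ
  let U : Set (Mx ξ → ℂ) := Set.pi Set.univ fun _ => {0}ᶜ
  have hr : ∀ φ : Mx ξ, (rr ξ φ.1 : ℂ) ≠ 0 := fun φ => ofReal_ne_zero.2 (rr_pos φ).ne'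
  have hU : IsOpen U := isOpen_set_pi Set.finite_univ fun _ _ => isOpen_compl_singleton
  have hUd : Dense U := dense_pi Set.univ fun _ _ => dense_compl_singleton 0
  have hne' : ∀ y ∈ U, ∀ φ, (rr ξ φ.1 : ℂ) * starRingEnd ℂ (y φ) ≠ 0 := fun y hy φ =>
    mul_ne_zero (hr φ) ((map_ne_zero _).2 (hy φ trivial))
  have hF : ContinuousOn F U := by
    refine continuousOn_pi.2 fun φ => ?_
    by_cases a : φ.1 ∈ Ψ₀
    · simp only [F, if_pos a]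
      refine ContinuousOn.inv₀ ?_ fun y hy => hne' y hy φ
      exact (continuous_const.mul (continuous_conj.comp (continuous_apply φ))).continuousOn
    · simp only [F, if_neg a]
      exact (continuous_apply φ).continuousOn
  obtain ⟨z₁, hz₁, hz₁U⟩ := hUd.inter_open_nonempty O hO hne
  have hFU : F z₁ ∈ U := fun φ _ => by
    by_cases a : φ.1 ∈ Ψ₀
    · simp only [F, if_pos a]
      exact inv_ne_zero (hne' z₁ hz₁U φ)
    · simp only [F, if_neg a]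
      exact hz₁U φ trivial
  have hFF : F (F z₁) = z₁ := by
    funext φ
    by_cases a : φ.1 ∈ Ψ₀
    · simp only [F, if_pos a]
      rw [map_inv₀, map_mul, conj_conj, conj_ofReal, mul_inv, inv_inv, ← mul_assoc,
        inv_mul_cancel₀ (hr φ), one_mul]
    · simp only [F, if_neg a]
  obtain ⟨q, hqU, hqO⟩ := (denseRange_mx h5 ξ).exists_mem_open
    (hF.isOpen_inter_preimage hU hO) ⟨F z₁, hFU, by rw [Set.mem_preimage, hFF]; exact hz₁⟩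
  refine ⟨q, _, hqO, fun φ a => ?_, fun φ a => ?_⟩
  · simp only [F, if_pos a]
    rw [pp_apply h]
    exact inv_mul_cancel₀ (hne' _ hqU φ)
  · simp only [F, if_neg a]

end CMPtAux

open CMPtAux in
theorem cmPt (h1 : PolS) (h2 : TwMS) (h4 : XDS) (h5 : WeakS) (h6 : EllS) : CMPtS := by
  intro L _ _ c ξ g v τ D h hf Ψ₀ Ψ₁ t0 t1 hΨ φ z₀ hz₀
  rw [mem_closure_iff]
  intro O hO hzO
  obtain ⟨q, z, ⟨hz, hzD⟩, a0, a1⟩ :=
    dense_special h5 h Ψ₀ (hO.inter (isOpen_Dom ξ 1)) ⟨z₀, hzO, hz₀⟩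
  obtain ⟨M, N, c', hT, hD, e0, e1⟩ := point h1 h2 h4 h5 h6 h hf.sym (hf.sg z hzD) D t0 t1
    fun X => (hf.ker z hzD X).trans (inF_iff h t0 t1 hΨ a0 a1 X)
  refine ⟨z, hz, hzD, M, N, c', ?_⟩
  by_cases a : φ.1 ∈ Ψ₀
  · have b : φ.1 ∉ Ψ₁ := fun b => (one_of t0 t1 hΨ φ).1 b a
    refine ⟨_, _, hT, hD _ _, hD _ _, e0 _ ((t0 _).1 a) 0, e1 _ b 1, ?_⟩
    unfold elt
    rw [if_pos a, if_neg b, sub_eq_add_neg]
  · have b : φ.1 ∈ Ψ₁ := (one_of t0 t1 hΨ φ).2 a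
    refine ⟨_, _, hT, hD _ _, hD _ _, e1 _ ((t1 _).1 b) 0, e0 _ a 1, ?_⟩
    unfold elt
    rw [if_neg a, if_pos b, sub_eq_neg_add]

end Pool.Agent.Lib.MP_caab05_ag.GB
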