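import Mathlib
import Pool.Agent.Lib.MP_caab05_ag.GB.Stmt2

/-! Minkowski's theorem for the lattice `O ^ 2` and a family of unimodular maps. -/

namespace Pool.Agent.Lib.MP_caab05_ag.GB

namespace CptAux

open NumberField NumberField.mixedEmbedding NumberField.InfinitePlace MeasureTheory Matrix
open scoped ComplexConjugate Classical

theorem minkE {E ι : Type} [NormedAddCommGroup E] [NormedSpace ℝ E] [Nontrivial E] [Fintype ι]
    (b : Module.Basis ι ℝ E) : ∃ C : ℝ, 0 < C ∧ ∀ G : E →ₗ[ℝ] E, LinearMap.det G = 1 →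
      ∃ x ∈ Submodule.span ℤ (Set.range b), x ≠ 0 ∧ ‖G x‖ ≤ C := by
  have : FiniteDimensional ℝ E := b.finiteDimensional_of_finite
  borelize E
  let μ : Measure E := Measure.addHaar
  have hF : μ (ZSpan.fundamentalDomain b) * 2 ^ Module.finrank ℝ E < ⊤ :=
    ENNReal.mul_lt_top (ZSpan.fundamentalDomain_isBounded b).measure_lt_top
      (ENNReal.pow_lt_top (by simp))
  have ht : Filter.Tendsto (fun n : ℕ => μ (Metric.closedBall 0 n)) Filter.atTop (nhds ⊤) := by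
    have h := tendsto_measure_iUnion_atTop (μ := μ)
      (s := fun n : ℕ => Metric.closedBall (0 : E) n)
      (fun a b hab => Metric.closedBall_subset_closedBall (by exact_mod_cast hab))
    rwa [Metric.iUnion_closedBall_nat, measure_univ_of_isAddLeftInvariant] at h
  obtain ⟨n, hn, hn0⟩ := ((ht.eventually (lt_mem_nhds hF)).and (Filter.eventually_gt_atTop 0)).exists
  refine ⟨n, by exact_mod_cast hn0, fun G hG => ?_⟩
  have hs : μ (G ⁻¹' Metric.closedBall 0 n) = μ (Metric.closedBall 0 n) := by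
    rw [Measure.addHaar_preimage_linearMap μ (hG ▸ one_ne_zero), hG]
    simp
  have hc : Countable (Submodule.span ℤ (Set.range b)).toAddSubgroup :=
    inferInstanceAs (Countable (Submodule.span ℤ (Set.range b)))
  obtain ⟨⟨x, hx⟩, hx0, hxs⟩ := exists_ne_zero_mem_lattice_of_measure_mul_two_pow_lt_measure
    (ZSpan.isAddFundamentalDomain' b μ) (s := G ⁻¹' Metric.closedBall 0 n)
    (fun x hx => by simpa using hx) ((convex_closedBall _ _).linear_preimage G) (hs ▸ hn)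
  exact ⟨x, hx, fun h => hx0 (Subtype.ext h), by simpa using hxs⟩

theorem mink0 (L : Type) [Field L] [NumberField L] : ∃ C : ℝ, 0 < C ∧
    ∀ g : Matrix (Fin 2) (Fin 2) (mixedSpace L), g.det = 1 → ∃ x : Fin 2 → 𝓞 L, x ≠ 0 ∧
      ‖g *ᵥ (fun k => mixedEmbedding L (x k))‖ ≤ C := by
  let b := Pi.basis fun _ : Fin 2 => latticeBasis L
  obtain ⟨C, hC, h⟩ := minkE b
  refine ⟨C, hC, fun g hg => ?_⟩
  obtain ⟨x, hx, hx0, hxs⟩ := h ((Matrix.toLin' g).restrictScalars ℝ) (by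
    rw [LinearMap.det_restrictScalars, LinearMap.det_toLin', hg, map_one])
  have hk : ∀ k, ∃ y : 𝓞 L, mixedEmbedding L y = x k := by
    intro k
    have hle : Submodule.span ℤ (Set.range b) ≤
        (mixedEmbedding.integerLattice L).comap (LinearMap.proj k) := by
      rw [Submodule.span_le]
      rintro _ ⟨⟨j, i⟩, rfl⟩
      simp only [b, Pi.basis_apply, SetLike.mem_coe, Submodule.mem_comap, LinearMap.proj_apply]
      by_cases hj : k = j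
      · subst hj
        rw [Pi.single_eq_same, ← mem_span_latticeBasis]
        exact Submodule.subset_span ⟨i, rfl⟩
      · rw [Pi.single_eq_of_ne hj]
        exact zero_mem _
    exact hle hx
  choose y hy using hk
  refine ⟨y, fun h => hx0 (funext fun k => ?_), ?_⟩
  · have := hy k
    rw [h] at this
    simpa using this.symm
  · rw [funext hy]
    exact hxs

theorem mink1 (L : Type) [Field L] [NumberField L] : ∃ C : ℝ, 0 < C ∧
    ∀ p q r s : Emb L → ℂ, (∀ φ, p φ * s φ - q φ * r φ = 1) → ∃ x : Fin 2 → 𝓞 L, x ≠ 0 ∧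
      ∀ φ : Emb L, ¬ ComplexEmbedding.IsReal φ → ∃ ψ, (ψ = φ ∨ ψ = cj φ) ∧
        ‖p ψ * ψ (x 0) + q ψ * ψ (x 1)‖ ≤ C ∧ ‖r ψ * ψ (x 0) + s ψ * ψ (x 1)‖ ≤ C := by
  obtain ⟨C, hC, h⟩ := mink0 L
  refine ⟨C, hC, fun p q r s hd => ?_⟩
  obtain ⟨x, hx, hb⟩ := h !![(1, fun w => p w.1.embedding), (0, fun w => q w.1.embedding);
    (0, fun w => r w.1.embedding), (1, fun w => s w.1.embedding)] (by
      rw [Matrix.det_fin_two_of]
      refine Prod.ext (by simp) (funext fun w => hd _))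
  refine ⟨x, hx, fun φ hφ => ⟨(mk φ).embedding, embedding_mk_eq φ, ?_, ?_⟩⟩
  · have h1 := (norm_le_pi_norm _ ⟨mk φ, isComplex_mk_iff.2 hφ⟩).trans
      ((norm_snd_le _).trans ((norm_le_pi_norm _ 0).trans hb))
    simpa [Matrix.mulVec, dotProduct, Fin.sum_univ_two] using h1
  · have h1 := (norm_le_pi_norm _ ⟨mk φ, isComplex_mk_iff.2 hφ⟩).trans
      ((norm_snd_le _).trans ((norm_le_pi_norm _ 1).trans hb))
    simpa [Matrix.mulVec, dotProduct, Fin.sum_univ_two] using h1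

theorem mink2 (L : Type) [Field L] [NumberField L]
    (hL : ∀ φ : Emb L, ¬ ComplexEmbedding.IsReal φ) : ∃ C : ℝ, 0 < C ∧
    ∀ (ρ : Emb L → ℝ) (Z : Emb L → ℂ), (∀ φ, ρ (cj φ) = ρ φ) → (∀ φ, Z (cj φ) = conj (Z φ)) →
      (∀ φ, 0 < 1 - ρ φ * ‖Z φ‖ ^ 2) → ∃ x : Fin 2 → 𝓞 L, x ≠ 0 ∧ ∀ φ : Emb L,
        ‖φ (x 0) - ρ φ * conj (Z φ) * φ (x 1)‖ ≤ C * √(1 - ρ φ * ‖Z φ‖ ^ 2) ∧
        ‖φ (x 1) - Z φ * φ (x 0)‖ ≤ C * √(1 - ρ φ * ‖Z φ‖ ^ 2) := by
  obtain ⟨C, hC, h⟩ := mink1 L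
  refine ⟨C, hC, fun ρ Z hρ hZ hD => ?_⟩
  set d : Emb L → ℝ := fun φ => √(1 - ρ φ * ‖Z φ‖ ^ 2) with hd
  have hd0 : ∀ φ, 0 < d φ := fun φ => Real.sqrt_pos.2 (hD φ)
  have hd2 : ∀ φ, (d φ : ℂ) ^ 2 = 1 - ρ φ * (Z φ * conj (Z φ)) := fun φ => by
    rw [Complex.mul_conj, Complex.normSq_eq_norm_sq]
    exact_mod_cast Real.sq_sqrt (hD φ).le
  obtain ⟨x, hx, hb⟩ := h (fun φ => 1 / d φ) (fun φ => -(ρ φ * conj (Z φ)) / d φ)
    (fun φ => -Z φ / d φ) (fun φ => 1 / d φ) (fun φ => by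
      have h0 : (d φ : ℂ) ≠ 0 := by exact_mod_cast (hd0 φ).ne'
      field_simp
      rw [hd2]
      ring)
  have key : ∀ ψ : Emb L,
      (‖1 / (d ψ : ℂ) * ψ (x 0) + -(ρ ψ * conj (Z ψ)) / d ψ * ψ (x 1)‖ ≤ C ∧
        ‖-Z ψ / d ψ * ψ (x 0) + 1 / (d ψ : ℂ) * ψ (x 1)‖ ≤ C) →
      ‖ψ (x 0) - ρ ψ * conj (Z ψ) * ψ (x 1)‖ ≤ C * d ψ ∧ ‖ψ (x 1) - Z ψ * ψ (x 0)‖ ≤ C * d ψ := by
    intro ψ ⟨h1, h2⟩
    have e1 : 1 / (d ψ : ℂ) * ψ (x 0) + -(ρ ψ * conj (Z ψ)) / d ψ * ψ (x 1) =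
        (ψ (x 0) - ρ ψ * conj (Z ψ) * ψ (x 1)) / d ψ := by ring
    have e2 : -Z ψ / d ψ * ψ (x 0) + 1 / (d ψ : ℂ) * ψ (x 1) =
        (ψ (x 1) - Z ψ * ψ (x 0)) / d ψ := by ring
    rw [e1, norm_div, Complex.norm_real, Real.norm_of_nonneg (hd0 ψ).le, div_le_iff₀ (hd0 ψ)] at h1
    rw [e2, norm_div, Complex.norm_real, Real.norm_of_nonneg (hd0 ψ).le, div_le_iff₀ (hd0 ψ)] at h2
    exact ⟨h1, h2⟩
  refine ⟨x, hx, fun φ => ?_⟩
  obtain ⟨ψ, rfl | rfl, hψ⟩ := hb φ (hL φ)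
  · exact key _ hψ
  · obtain ⟨h1, h2⟩ := key _ hψ
    have e0 : d (cj φ) = d φ := by simp only [hd, hρ, hZ, Complex.norm_conj]
    rw [e0, hρ, hZ, ← Complex.norm_conj] at h1
    rw [e0, hZ, ← Complex.norm_conj] at h2
    constructor
    · simpa using h1
    · simpa using h2

end CptAux

end Pool.Agent.Lib.MP_caab05_ag.GB
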