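import Mathlib
import Pool.Agent.Lib.MP_caab05_ag.GB.Cpt1

/-! Compactness of the arithmetic quotient. -/

namespace Pool.Agent.Lib.MP_caab05_ag.GB

namespace CptAux

open NumberField Matrix
open scoped ComplexConjugate Classical

theorem form1 (A B z : ℂ) (r : ℝ) :
    ‖A + r * conj B * z‖ ^ 2 - r * ‖B + conj A * z‖ ^ 2 =
      (‖A‖ ^ 2 - r * ‖B‖ ^ 2) * (1 - r * ‖z‖ ^ 2) := by
  simp only [Complex.sq_norm, Complex.normSq_apply]
  simp
  ring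

theorem form2 (A B z : ℂ) (r : ℝ) :
    ‖A - r * conj z * B‖ ^ 2 - r * ‖B - z * A‖ ^ 2 =
      (‖A‖ ^ 2 - r * ‖B‖ ^ 2) * (1 - r * ‖z‖ ^ 2) := by
  simp only [Complex.sq_norm, Complex.normSq_apply]
  simp
  ring

theorem form_bound {A B z : ℂ} {r C : ℝ} (hD : 0 < 1 - r * ‖z‖ ^ 2)
    (h1 : ‖A - r * conj z * B‖ ≤ C * √(1 - r * ‖z‖ ^ 2))
    (h2 : ‖B - z * A‖ ≤ C * √(1 - r * ‖z‖ ^ 2)) :
    |‖A‖ ^ 2 - r * ‖B‖ ^ 2| ≤ (1 + |r|) * C ^ 2 := by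
  have h3 := pow_le_pow_left₀ (norm_nonneg _) h1 2
  have h4 := pow_le_pow_left₀ (norm_nonneg _) h2 2
  rw [mul_pow, Real.sq_sqrt hD.le] at h3 h4
  refine le_of_mul_le_mul_right ?_ hD
  rw [← abs_of_pos hD, ← abs_mul, ← form2, abs_of_pos hD]
  refine (abs_sub _ _).trans ?_
  rw [abs_mul, abs_sq, abs_sq]
  nlinarith [mul_le_mul_of_nonneg_left h4 (abs_nonneg r)]

variable {L : Type} [Field L] [NumberField L] {c : L ≃ₐ[ℚ] L} {ξ : Fin 2 → L}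

theorem cc (h : IsXi c ξ) (x : L) : c (c x) = x := by
  obtain ⟨ψ, -⟩ := h.defin
  apply ψ.injective
  rw [h.cj, h.cj, Complex.conj_conj]

theorem conj_xi (h : IsXi c ξ) (φ : Emb L) (i : Fin 2) : conj (φ (ξ i)) = -φ (ξ i) := by
  rw [← h.cj, h.skew, map_neg]

theorem re_xi (h : IsXi c ξ) (φ : Emb L) (i : Fin 2) : (φ (ξ i)).re = 0 := by
  have := congrArg Complex.re (conj_xi h φ i)
  simp only [Complex.conj_re, Complex.neg_re] at this
  linarith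

theorem im_xi (h : IsXi c ξ) (φ : Emb L) (i : Fin 2) : (φ (ξ i)).im ≠ 0 := fun h0 =>
  (map_ne_zero φ).2 (h.ne i) (Complex.ext (re_xi h φ i) h0)

theorem not_real (h : IsXi c ξ) (φ : Emb L) : ¬ ComplexEmbedding.IsReal φ := by
  intro hφ
  have h1 : conj (φ (ξ 0)) = φ (ξ 0) := by
    rw [← ComplexEmbedding.conjugate_coe_eq, ComplexEmbedding.isReal_iff.1 hφ]
  exact im_xi h φ 0 (Complex.conj_eq_iff_im.1 h1)

theorem xi_one (h : IsXi c ξ) (φ : Emb L) : φ (ξ 1) = -(rr ξ φ : ℂ) * φ (ξ 0) := by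
  have h0 := im_xi h φ 0
  apply Complex.ext
  · simp [re_xi h]
  · simp only [rr, Complex.mul_im, Complex.neg_re, Complex.ofReal_re, Complex.neg_im,
      Complex.ofReal_im, re_xi h]
    field_simp
    ring

omit [NumberField L] in
theorem rr_cj (φ : Emb L) : rr ξ (cj φ) = rr ξ φ := by
  simp [rr, neg_div_neg_eq, neg_div, div_neg]

/-- the skew-hermitian form -/
def hf (c : L ≃ₐ[ℚ] L) (ξ x : Fin 2 → L) : L := ξ 0 * x 0 * c (x 0) + ξ 1 * x 1 * c (x 1)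

theorem emb_hf (h : IsXi c ξ) (φ : Emb L) (x : Fin 2 → L) :
    φ (hf c ξ x) = φ (ξ 0) * ((‖φ (x 0)‖ ^ 2 - rr ξ φ * ‖φ (x 1)‖ ^ 2 : ℝ) : ℂ) := by
  simp only [hf, map_add, map_mul, h.cj _ _, xi_one h φ, mul_assoc, Complex.mul_conj,
    Complex.normSq_eq_norm_sq]
  push_cast
  ring

theorem hf_ne (h : IsXi c ξ) {x : Fin 2 → L} (hx : x ≠ 0) : hf c ξ x ≠ 0 := by
  obtain ⟨ψ, h0, h1⟩ := h.defin
  intro h2
  have h3 := emb_hf h ψ x
  rw [h2, map_zero, eq_comm, mul_eq_zero, or_iff_right ((map_ne_zero ψ).2 (h.ne 0)),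
    Complex.ofReal_eq_zero] at h3
  have hr : 0 < -rr ξ ψ := by
    rw [rr, neg_div, neg_neg]
    exact div_pos h1 h0
  have h4 := mul_nonneg hr.le (sq_nonneg ‖ψ (x 1)‖)
  have h5 : ‖ψ (x 0)‖ ^ 2 = 0 := by nlinarith [sq_nonneg ‖ψ (x 0)‖]
  have h6 : ‖ψ (x 1)‖ ^ 2 = 0 := by
    have : -rr ξ ψ * ‖ψ (x 1)‖ ^ 2 = 0 := by linarith
    exact (mul_eq_zero.1 this).resolve_left hr.ne'
  apply hx
  funext k
  fin_cases k
  · simpa using h5
  · simpa using h6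

theorem c_hf (h : IsXi c ξ) (x : Fin 2 → L) : c (hf c ξ x) = -hf c ξ x := by
  simp only [hf, map_add, map_mul, h.skew, cc h]
  ring

theorem su_of (h : IsXi c ξ) {α β : L} (hd : α * c α - ξ 0 * ξ 1 * (β * c β) = 1) :
    IsSU c ξ !![α, ξ 1 * c β; ξ 0 * β, c α] := by
  constructor
  · rw [Matrix.det_fin_two_of]
    linear_combination hd
  · intro i j
    fin_cases i <;> fin_cases j <;>
      simp [Fin.sum_univ_two, h.skew, cc h]
    · linear_combination ξ 0 * hd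
    · ring
    · ring
    · linear_combination ξ 1 * hd

noncomputable def al (c : L ≃ₐ[ℚ] L) (ξ x y : Fin 2 → L) : L :=
  (ξ 0 * y 0 * c (x 0) + ξ 1 * c (y 1) * x 1) / hf c ξ x

noncomputable def be (c : L ≃ₐ[ℚ] L) (ξ x y : Fin 2 → L) : L :=
  (y 1 * c (x 0) - c (y 0) * x 1) / hf c ξ x

theorem c_al (h : IsXi c ξ) (x y : Fin 2 → L) :
    c (al c ξ x y) = (ξ 0 * c (y 0) * x 0 + ξ 1 * y 1 * c (x 1)) / hf c ξ x := by
  simp only [al, map_div₀, map_add, map_mul, h.skew, cc h, c_hf h]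
  ring

theorem c_be (h : IsXi c ξ) (x y : Fin 2 → L) :
    c (be c ξ x y) = (y 0 * c (x 1) - c (y 1) * x 0) / hf c ξ x := by
  simp only [be, map_div₀, map_sub, map_mul, cc h, c_hf h]
  ring

theorem al_be (h : IsXi c ξ) {x y : Fin 2 → L} (h0 : hf c ξ x ≠ 0) (hy : hf c ξ y = hf c ξ x) :
    al c ξ x y * c (al c ξ x y) - ξ 0 * ξ 1 * (be c ξ x y * c (be c ξ x y)) = 1 := by
  rw [c_al h, c_be h, al, be]
  field_simp
  rw [sq]
  nth_rw 1 [← hy]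
  unfold hf
  ring

theorem congr_int (h : IsXi c ξ) {x y w : Fin 2 → L} {m : ℕ} {n : ℤ} (hm : m ≠ 0)
    (h0 : hf c ξ x ≠ 0) (hx : ∀ k, IsIntegral ℤ (x k)) (hw : ∀ k, IsIntegral ℤ (w k))
    (hy : ∀ k, y k = x k + m * n * w k) (hn : ∀ k, IsIntegral ℤ (n • (ξ k / hf c ξ x))) (i j) :
    IsIntegral ℤ (((!![al c ξ x y, ξ 1 * c (be c ξ x y); ξ 0 * be c ξ x y, c (al c ξ x y)] :
      Matrix (Fin 2) (Fin 2) L) - 1) i j / m) := by
  have hm' : (m : L) ≠ 0 := by exact_mod_cast hm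
  have hcx : ∀ k, IsIntegral ℤ (c (x k)) := fun k => map_isIntegral_int c (hx k)
  have hcw : ∀ k, IsIntegral ℤ (c (w k)) := fun k => map_isIntegral_int c (hw k)
  have hh : hf c ξ x = ξ 0 * x 0 * c (x 0) + ξ 1 * x 1 * c (x 1) := rfl
  fin_cases i <;> fin_cases j
  · refine Eq.subst (motive := IsIntegral ℤ) (Eq.symm ?_)
      (((hn 0).mul ((hw 0).mul (hcx 0))).add ((hn 1).mul ((hcw 1).mul (hx 1))))
    simp [al, hy]
    field_simp
    linear_combination -hh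
  · refine Eq.subst (motive := IsIntegral ℤ) (Eq.symm ?_)
      ((hn 1).mul (((hw 0).mul (hcx 1)).sub ((hcw 1).mul (hx 0))))
    simp [c_be h, hy]
    field_simp
    ring
  · refine Eq.subst (motive := IsIntegral ℤ) (Eq.symm ?_)
      ((hn 0).mul (((hw 1).mul (hcx 0)).sub ((hcw 0).mul (hx 1))))
    simp [be, hy]
    field_simp
    ring
  · refine Eq.subst (motive := IsIntegral ℤ) (Eq.symm ?_)
      (((hn 0).mul ((hcw 0).mul (hx 0))).add ((hn 1).mul ((hw 1).mul (hcx 1))))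
    simp [c_al h, hy]
    field_simp
    linear_combination -hh

/-- the denominator of the action preserves the hermitian form -/
theorem den_form (h : IsXi c ξ) (φ : Emb L) {α β : L}
    (hd : α * c α - ξ 0 * ξ 1 * (β * c β) = 1) (z : ℂ) :
    ‖φ α + φ (ξ 1 * c β) * z‖ ^ 2 - rr ξ φ * ‖φ (ξ 0 * β) + φ (c α) * z‖ ^ 2 =
      1 - rr ξ φ * ‖z‖ ^ 2 := by
  have e1 : φ (ξ 1 * c β) = rr ξ φ * conj (φ (ξ 0 * β)) := by
    rw [map_mul, map_mul, map_mul, conj_xi h, xi_one h, h.cj]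
    ring
  have e2 : ‖φ α‖ ^ 2 - rr ξ φ * ‖φ (ξ 0 * β)‖ ^ 2 = 1 := by
    have h1 := congrArg φ hd
    simp only [map_sub, map_mul, h.cj _ _, map_one, xi_one h φ] at h1
    have h2 := conj_xi h φ 0
    apply Complex.ofReal_injective
    push_cast
    rw [← Complex.mul_conj', ← Complex.mul_conj', map_mul, map_mul, h2]
    linear_combination h1
  rw [e1, h.cj, form1, e2, one_mul]

theorem den_bound (h : IsXi c ξ) (φ : Emb L) {x y : Fin 2 → L} (z : ℂ) {E : ℝ}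
    (h1 : ‖φ (x 0) - rr ξ φ * conj z * φ (x 1)‖ ≤ E) (h2 : ‖φ (x 1) - z * φ (x 0)‖ ≤ E) :
    ‖φ (al c ξ x y) + φ (ξ 1 * c (be c ξ x y)) * z‖ ≤
      (‖φ (y 0)‖ * ‖φ (ξ 0)‖ + ‖φ (ξ 1)‖ * ‖φ (y 1)‖) / ‖φ (hf c ξ x)‖ * E := by
  have e : φ (al c ξ x y) + φ (ξ 1 * c (be c ξ x y)) * z =
      (φ (y 0) * φ (ξ 0) * conj (φ (x 0) - rr ξ φ * conj z * φ (x 1)) +
        φ (ξ 1) * conj (φ (y 1)) * (φ (x 1) - z * φ (x 0))) / φ (hf c ξ x) := by
    rw [c_be h, al]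
    simp only [map_div₀, map_add, map_sub, map_mul, h.cj _ _, xi_one h φ, Complex.conj_conj,
      Complex.conj_ofReal]
    ring
  rw [e, norm_div, div_mul_eq_mul_div]
  refine div_le_div_of_nonneg_right ((norm_add_le _ _).trans ?_) (norm_nonneg _)
  simp only [norm_mul, Complex.norm_conj]
  rw [add_mul]
  gcongr

omit [NumberField L] in
/-- extension of a point of the domain to all embeddings -/
theorem exists_ext (z : Mx ξ → ℂ) (hz : z ∈ Dom ξ 1) : ∃ Z : Emb L → ℂ,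
    (∀ φ, Z (cj φ) = conj (Z φ)) ∧ (∀ φ, 0 < 1 - rr ξ φ * ‖Z φ‖ ^ 2) ∧ ∀ φ : Mx ξ, Z φ.1 = z φ := by
  let z0 : Emb L → ℂ := fun φ =>
    if hφ : 0 < (φ (ξ 0)).im ∧ (φ (ξ 1)).im < 0 then z ⟨φ, hφ⟩ else 0
  have hcc : ∀ φ : Emb L, cj (cj φ) = φ := ComplexEmbedding.involutive_conjugate L
  have h1 : ∀ φ : Mx ξ, z0 φ.1 = z φ := fun φ => dif_pos φ.2
  have h2 : ∀ φ : Mx ξ, z0 (cj φ.1) = 0 := fun φ => dif_neg fun hφ => by
    have := φ.2.1
    have h3 := hφ.1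
    simp only [ComplexEmbedding.conjugate_coe_eq, Complex.conj_im] at h3
    linarith
  have h3 : ∀ φ : Mx ξ, z0 φ.1 + conj (z0 (cj φ.1)) = z φ := fun φ => by simp [h1, h2]
  have h4 : ∀ φ, z0 (cj φ) + conj (z0 (cj (cj φ))) = conj (z0 φ + conj (z0 (cj φ))) := fun φ => by
    simp [hcc, add_comm]
  refine ⟨fun φ => z0 φ + conj (z0 (cj φ)), h4, fun φ => ?_, h3⟩
  beta_reduce
  by_cases ha : 0 < (φ (ξ 0)).im ∧ (φ (ξ 1)).im < 0
  · rw [h3 ⟨φ, ha⟩]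
    exact sub_pos.2 (hz ⟨φ, ha⟩)
  · by_cases hb : 0 < (cj φ (ξ 0)).im ∧ (cj φ (ξ 1)).im < 0
    · rw [← Complex.norm_conj, ← h4, h3 ⟨cj φ, hb⟩, ← rr_cj]
      exact sub_pos.2 (hz ⟨cj φ, hb⟩)
    · have e1 : z0 φ = 0 := dif_neg ha
      have e2 : z0 (cj φ) = 0 := dif_neg hb
      simp [e1, e2]

/-- short vectors have finitely many lengths -/
theorem finite_len (h : IsXi c ξ) (C : ℝ) : ∃ F : Set L, F.Finite ∧ ∀ x : Fin 2 → 𝓞 L,
    (∀ φ : Emb L, |‖φ (x 0)‖ ^ 2 - rr ξ φ * ‖φ (x 1)‖ ^ 2| ≤ (1 + |rr ξ φ|) * C ^ 2) →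
      hf c ξ (fun k => x k) ∈ F := by
  obtain ⟨n, hn, hi⟩ := exists_integral_multiples ℤ ℚ (Finset.univ.image ξ)
  have hi' : ∀ k, IsIntegral ℤ (n • ξ k) := fun k =>
    hi _ (Finset.mem_image_of_mem _ (Finset.mem_univ k))
  obtain ⟨B, hB⟩ := Finite.exists_le fun φ : Emb L =>
    ‖(n : ℂ)‖ * (‖φ (ξ 0)‖ * ((1 + |rr ξ φ|) * C ^ 2))
  have hn' : (n : L) ≠ 0 := by exact_mod_cast hn
  refine ⟨(fun y => (n : L) * y) ⁻¹' _, (Embeddings.finite_of_norm_le L ℂ B).preimage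
    (mul_right_injective₀ hn').injOn, fun x hx => ⟨?_, fun φ => ?_⟩⟩
  · have hx' : ∀ k, IsIntegral ℤ (x k : L) := fun k => (x k).isIntegral_coe
    refine Eq.subst (motive := IsIntegral ℤ) (Eq.symm ?_)
      (((hi' 0).mul ((hx' 0).mul (map_isIntegral_int c (hx' 0)))).add
      ((hi' 1).mul ((hx' 1).mul (map_isIntegral_int c (hx' 1)))))
    simp only [hf, zsmul_eq_mul]
    ring
  · refine le_trans ?_ (hB φ)
    rw [map_mul, map_intCast, emb_hf h, norm_mul, norm_mul, Complex.norm_real, Real.norm_eq_abs]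
    gcongr
    exact hx φ

end CptAux

open CptAux NumberField in
theorem cptS (_h : WeakS) : CptS := by
  intro L _ _ c ξ h m hm
  classical
  obtain ⟨C, hC, hmk⟩ := mink2 L (not_real h)
  obtain ⟨F, hF, hFx⟩ := finite_len h C
  obtain ⟨n, hn, hi⟩ := exists_integral_multiples ℤ ℚ
    ((Finset.univ ×ˢ hF.toFinset).image fun p : Fin 2 × L => ξ p.1 / p.2)
  let I : Ideal (𝓞 L) := Ideal.span {((m : 𝓞 L) * (n : 𝓞 L))}
  have hI : I ≠ ⊥ := by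
    rw [Ne, Ideal.span_singleton_eq_bot]
    exact mul_ne_zero (by exact_mod_cast hm) (by exact_mod_cast hn)
  have : Finite (𝓞 L ⧸ I) := I.finiteQuotientOfFreeOfNeBot hI
  let κ : (Fin 2 → 𝓞 L) → L × (Fin 2 → 𝓞 L ⧸ I) := fun x =>
    (hf c ξ fun k => x k, fun k => Ideal.Quotient.mk I (x k))
  have hR : ((Function.invFun κ '' (F ×ˢ Set.univ)) ×ˢ (Set.univ : Set (Emb L))).Finite :=
    ((hF.prod Set.finite_univ).image _).prod Set.finite_univ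
  obtain ⟨K, hK⟩ := (hR.image fun p => (‖p.2 (p.1 0)‖ * ‖p.2 (ξ 0)‖ + ‖p.2 (ξ 1)‖ * ‖p.2 (p.1 1)‖) /
    ‖p.2 (hf c ξ fun k => p.1 k)‖).bddAbove
  have hKC : 0 < (K * C) ^ 2 + 1 := by positivity
  refine ⟨1 - 1 / ((K * C) ^ 2 + 1), by simpa using hKC, fun z hz => ?_⟩
  obtain ⟨Z, hZ1, hZ2, hZ3⟩ := exists_ext z hz
  obtain ⟨x, hx0, hx⟩ := hmk (rr ξ) Z rr_cj hZ1 hZ2
  have hxF := hFx x fun φ => form_bound (hZ2 φ) (hx φ).1 (hx φ).2
  have h0 : hf c ξ (fun k => x k) ≠ 0 := hf_ne h fun h1 => hx0 (funext fun k => by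
    simpa using congrFun h1 k)
  set y := Function.invFun κ (κ x) with hy
  have hκ : κ y = κ x := Function.invFun_eq ⟨x, rfl⟩
  have hy1 : hf c ξ (fun k => y k) = hf c ξ (fun k => x k) := congrArg Prod.fst hκ
  have hy2 : ∀ k, ∃ w : 𝓞 L, (y k : L) = x k + m * n * w := by
    intro k
    obtain ⟨w, hw⟩ := Ideal.mem_span_singleton.1
      (Ideal.Quotient.eq.1 (congrFun (congrArg Prod.snd hκ) k))
    refine ⟨w, ?_⟩
    have h1 := congrArg (algebraMap (𝓞 L) L) hw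
    simp only [map_sub, map_mul, map_natCast, map_intCast] at h1
    linear_combination h1
  choose w hw using hy2
  have hd := al_be h h0 hy1
  set α := al c ξ (fun k => x k) (fun k => y k) with hα
  set β := be c ξ (fun k => x k) (fun k => y k) with hβ
  have hden : ∀ φ : Mx ξ, φ.1 α + φ.1 (ξ 1 * c β) * z φ ≠ 0 ∧
      rr ξ φ.1 * ‖(φ.1 (ξ 0 * β) + φ.1 (c α) * z φ) / (φ.1 α + φ.1 (ξ 1 * c β) * z φ)‖ ^ 2 <
        1 - 1 / ((K * C) ^ 2 + 1) := by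
    intro φ
    have hr : 0 < rr ξ φ.1 := div_pos (neg_pos.2 φ.2.2) φ.2.1
    have h1 := den_form h φ.1 hd (z φ)
    have hD : 0 < 1 - rr ξ φ.1 * ‖z φ‖ ^ 2 := sub_pos.2 (hz φ)
    have h2 := den_bound h φ.1 (x := fun k => x k) (y := fun k => y k) (Z φ.1) (hx φ.1).1 (hx φ.1).2
    have h3 := hK ⟨(y, φ.1), ⟨⟨κ x, ⟨hxF, trivial⟩, rfl⟩, trivial⟩, rfl⟩
    simp only [hy1] at h3
    rw [hZ3] at h2
    have h4 := h2.trans (mul_le_mul_of_nonneg_right h3 (by positivity))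
    have h5 := pow_le_pow_left₀ (norm_nonneg _) h4 2
    rw [← mul_assoc, mul_pow, Real.sq_sqrt hD.le, ← hα, ← hβ] at h5
    set P := ‖φ.1 α + φ.1 (ξ 1 * c β) * z φ‖ with hP
    set Q := ‖φ.1 (ξ 0 * β) + φ.1 (c α) * z φ‖ with hQ
    have hP2 : 0 < P ^ 2 := by nlinarith [mul_nonneg hr.le (sq_nonneg Q)]
    refine ⟨fun h6 => ?_, ?_⟩
    · rw [hP, h6] at hP2
      simp at hP2
    · rw [norm_div, div_pow, ← hP, ← hQ, ← mul_div_assoc, div_lt_iff₀ hP2]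
      have h7 : 1 / ((K * C) ^ 2 + 1) * P ^ 2 < 1 - rr ξ φ.1 * ‖z φ‖ ^ 2 := by
        rw [div_mul_eq_mul_div, div_lt_iff₀ hKC]
        nlinarith
      nlinarith
  refine ⟨_, fun φ => (φ.1 (ξ 0 * β) + φ.1 (c α) * z φ) / (φ.1 α + φ.1 (ξ 1 * c β) * z φ),
    su_of h hd, congr_int h (w := fun k => w k) (n := n) hm h0 (fun k => (x k).isIntegral_coe)
      (fun k => (w k).isIntegral_coe) hw fun k => hi _ ?_, fun φ => ?_, fun φ => (hden φ).2⟩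
  · exact Finset.mem_image.2 ⟨(k, _), Finset.mem_product.2
      ⟨Finset.mem_univ _, hF.mem_toFinset.2 hxF⟩, rfl⟩
  · exact div_mul_cancel₀ _ (hden φ).1

end Pool.Agent.Lib.MP_caab05_ag.GB
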