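import Mathlib
import Pool.Agent.Lib.MP_caab05_ag.GB.Defs

/-! Primitives on star-shaped sets and rationality of jets. -/

namespace Pool.Agent.Lib.MP_caab05_ag.GB

namespace CuAAux

open Filter Topology Complex Set MeasureTheory Metric

/-- the primitive of a holomorphic function on a star-shaped open set -/
lemma prim {U : Set ℂ} (hU : IsOpen U) (hs : ∀ x ∈ U, ∀ r ∈ Icc (0 : ℝ) 1, (r : ℂ) * x ∈ U)
    {f : ℂ → ℂ} (hf : DifferentiableOn ℂ f U) {x : ℂ} (hx : x ∈ U) :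
    HasDerivAt (fun y => ∫ r in (0 : ℝ)..1, y * f ((r : ℂ) * y)) (f x) x := by
  obtain ⟨ε, hε, hb⟩ := Metric.nhds_basis_closedBall.mem_iff.1 (hU.mem_nhds hx)
  have hc : ContinuousOn f U := hf.continuousOn
  have hc' : ContinuousOn (deriv f) U := (hf.deriv hU).continuousOn
  have hm : ContinuousOn (fun p : ℝ × ℂ => (p.1 : ℂ) * p.2) (Icc 0 1 ×ˢ U) := by fun_prop
  have hmaps : MapsTo (fun p : ℝ × ℂ => (p.1 : ℂ) * p.2) (Icc 0 1 ×ˢ U) U :=
    fun p hp => hs _ hp.2 _ hp.1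
  have hΦ : ContinuousOn (fun p : ℝ × ℂ => 1 * f ((p.1 : ℂ) * p.2) +
      p.2 * (deriv f ((p.1 : ℂ) * p.2) * p.1)) (Icc 0 1 ×ˢ U) :=
    (continuousOn_const.mul (hc.comp hm hmaps)).add
      (continuousOn_snd.mul ((hc'.comp hm hmaps).mul (by fun_prop)))
  obtain ⟨C, hC⟩ := (isCompact_Icc.prod (isCompact_closedBall x ε)).exists_bound_of_continuousOn
    (hΦ.mono (prod_mono Subset.rfl hb))
  have hr1 : ∀ y : ℂ, ContinuousOn (fun r : ℝ => (r : ℂ) * y) (Icc 0 1) := fun y => by fun_prop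
  have hr2 : ∀ y ∈ U, MapsTo (fun r : ℝ => (r : ℂ) * y) (Icc 0 1) U :=
    fun y hy r hr => hs y hy r hr
  have hF0 : ∀ y ∈ U, ContinuousOn (fun r : ℝ => f ((r : ℂ) * y)) (Icc 0 1) := fun y hy =>
    hc.comp (hr1 y) (hr2 y hy)
  have hF1 : ∀ y ∈ U, ContinuousOn (fun r : ℝ => deriv f ((r : ℂ) * y)) (Icc 0 1) := fun y hy =>
    hc'.comp (hr1 y) (hr2 y hy)
  have hF : ∀ y ∈ U, ContinuousOn (fun r : ℝ => y * f ((r : ℂ) * y)) (Icc 0 1) := fun y hy =>
    continuousOn_const.mul (hF0 y hy)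
  have hsub : uIoc (0 : ℝ) 1 ⊆ Icc 0 1 := by
    rw [uIoc_of_le zero_le_one]
    exact Ioc_subset_Icc_self
  have hd : ∀ z ∈ U, HasDerivAt f (deriv f z) z := fun z hz =>
    (hf.differentiableAt (hU.mem_nhds hz)).hasDerivAt
  have hΦx : ContinuousOn (fun r : ℝ => 1 * f ((r : ℂ) * x) +
      x * (deriv f ((r : ℂ) * x) * r)) (Icc 0 1) :=
    (continuousOn_const.mul (hF0 x hx)).add
      (continuousOn_const.mul ((hF1 x hx).mul continuous_ofReal.continuousOn))
  have key := intervalIntegral.hasDerivAt_integral_of_dominated_loc_of_deriv_le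
    (μ := volume) (a := (0 : ℝ)) (b := 1) (F := fun y r => y * f ((r : ℂ) * y))
    (F' := fun y r => 1 * f ((r : ℂ) * y) + y * (deriv f ((r : ℂ) * y) * r)) (x₀ := x)
    (bound := fun _ => C) (closedBall_mem_nhds x hε)
    (by
      filter_upwards [hU.mem_nhds hx] with y hy
      exact ((hF y hy).mono hsub).aestronglyMeasurable measurableSet_uIoc)
    (((hF x hx).mono (by rw [uIcc_of_le zero_le_one])).intervalIntegrable)
    ((hΦx.mono hsub).aestronglyMeasurable measurableSet_uIoc)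
    (Eventually.of_forall fun r hr y hy => hC (r, y) ⟨hsub hr, hy⟩)
    intervalIntegrable_const
    (Eventually.of_forall fun r hr y hy => by
      have h1 : HasDerivAt (fun y : ℂ => (r : ℂ) * y) (r : ℂ) y := by
        simpa using (hasDerivAt_id y).const_mul (r : ℂ)
      exact (hasDerivAt_id y).mul ((hd _ (hs y (hb hy) r (hsub hr))).comp y h1))
  have e : ∫ r in (0 : ℝ)..1, (1 * f ((r : ℂ) * x) + x * (deriv f ((r : ℂ) * x) * r)) = f x := by
    rw [intervalIntegral.integral_eq_sub_of_hasDerivAt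
      (f := fun r : ℝ => (r : ℂ) * f ((r : ℂ) * x))
      (fun r hr => by
        rw [uIcc_of_le zero_le_one] at hr
        have h1 : HasDerivAt (fun z : ℂ => z * x) x (r : ℂ) := by
          simpa using (hasDerivAt_id (r : ℂ)).mul_const x
        have h3 : HasDerivAt (fun z : ℂ => f (z * x)) (deriv f ((r : ℂ) * x) * x) (r : ℂ) :=
          HasDerivAt.comp (r : ℂ) (hd _ (hs x hx r hr)) h1
        have h2 : HasDerivAt (fun z : ℂ => z * f (z * x))
            (1 * f ((r : ℂ) * x) + x * (deriv f ((r : ℂ) * x) * r)) (r : ℂ) := by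
          refine ((hasDerivAt_id' (r : ℂ)).fun_mul h3).congr_deriv ?_
          ring
        exact h2.comp_ofReal)
      ((hΦx.mono (by rw [uIcc_of_le zero_le_one])).intervalIntegrable)]
    simp
  exact e ▸ key.2

lemma isOpen_St (N : ℕ) : IsOpen (St N) :=
  isOpen_slitPlane.preimage (by fun_prop : Continuous fun x : ℂ => 1 - x ^ N)

lemma star_St (N : ℕ) : ∀ x ∈ St N, ∀ r ∈ Icc (0 : ℝ) 1, (r : ℂ) * x ∈ St N := by
  intro x hx r hr
  have h := starConvex_one_slitPlane (show 1 - x ^ N ∈ slitPlane from hx)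
    (sub_nonneg.2 (pow_le_one₀ hr.1 hr.2 (n := N))) (pow_nonneg hr.1 N) (sub_add_cancel _ _)
  have e : (1 - r ^ N : ℝ) • (1 : ℂ) + (r ^ N : ℝ) • (1 - x ^ N) = 1 - ((r : ℂ) * x) ^ N := by
    simp only [real_smul]
    push_cast
    ring
  rw [e] at h
  exact h

lemma zero_mem_St {N : ℕ} (hN : 0 < N) : (0 : ℂ) ∈ St N := by
  simp [St, hN.ne']

lemma conn_St {N : ℕ} (hN : 0 < N) : IsPreconnected (St N) := by
  have h : StarConvex ℝ 0 (St N) := by
    intro y hy a b ha hb hab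
    have := star_St N y hy b ⟨hb, by linarith⟩
    simpa using this
  exact (h.isPathConnected (zero_mem_St hN)).isConnected.isPreconnected

lemma hasDeriv_base (N : ℕ) (x : ℂ) :
    HasDerivAt (fun x : ℂ => 1 - x ^ N) (-(N * x ^ (N - 1))) x := by
  simpa using (hasDerivAt_pow N x).const_sub 1

lemma diff_cpow (N : ℕ) (a : ℂ) : DifferentiableOn ℂ (fun x : ℂ => (1 - x ^ N) ^ a) (St N) :=
  fun x hx => ((hasDeriv_base N x).cpow_const hx).differentiableAt.differentiableWithinAt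

/-- the generators of the differential algebra -/
def gens (N : ℕ) (a : ℚ) : Set (ℂ → ℂ) :=
  {fun x => x, fun x => (1 - x ^ N)⁻¹, fun x => (1 - x ^ N) ^ (a : ℂ)}

lemma der_mem (N : ℕ) (a : ℚ) (f : ℂ → ℂ) (hf : f ∈ Algebra.adjoin ℚ (gens N a)) :
    ∃ g ∈ Algebra.adjoin ℚ (gens N a), ∀ x ∈ St N, HasDerivAt f (g x) x := by
  have m1 : (fun x : ℂ => x) ∈ Algebra.adjoin ℚ (gens N a) :=
    Algebra.subset_adjoin (by simp [gens])
  have m2 : (fun x : ℂ => (1 - x ^ N)⁻¹) ∈ Algebra.adjoin ℚ (gens N a) :=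
    Algebra.subset_adjoin (by simp [gens])
  have m3 : (fun x : ℂ => (1 - x ^ N) ^ (a : ℂ)) ∈ Algebra.adjoin ℚ (gens N a) :=
    Algebra.subset_adjoin (by simp [gens])
  induction hf using Algebra.adjoin_induction with
  | mem f hf =>
    rcases hf with rfl | rfl | rfl
    · exact ⟨1, one_mem _, fun x _ => hasDerivAt_id x⟩
    · refine ⟨_, Subalgebra.smul_mem _ (mul_mem (pow_mem m1 (N - 1)) (pow_mem m2 2)) (N : ℚ),
        fun x hx => ?_⟩
      refine ((hasDeriv_base N x).inv (slitPlane_ne_zero hx)).congr_deriv ?_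
      simp only [Pi.smul_apply, Pi.mul_apply, Pi.pow_apply, Rat.smul_def]
      push_cast
      rw [neg_neg, div_eq_mul_inv, inv_pow, mul_assoc]
    · refine ⟨_, Subalgebra.smul_mem _ (mul_mem (pow_mem m1 (N - 1)) (mul_mem m2 m3))
        (-(a * N) : ℚ), fun x hx => ?_⟩
      refine ((hasDeriv_base N x).cpow_const hx).congr_deriv ?_
      simp only [Pi.smul_apply, Pi.mul_apply, Pi.pow_apply, Rat.smul_def]
      rw [cpow_sub _ _ (slitPlane_ne_zero hx), cpow_one]
      push_cast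
      ring
  | algebraMap r => exact ⟨0, zero_mem _, fun x _ => hasDerivAt_const x _⟩
  | add f g _ _ hf hg =>
    obtain ⟨f', hf', h1⟩ := hf
    obtain ⟨g', hg', h2⟩ := hg
    exact ⟨f' + g', add_mem hf' hg', fun x hx => (h1 x hx).add (h2 x hx)⟩
  | mul f g hfm hgm hf hg =>
    obtain ⟨f', hf', h1⟩ := hf
    obtain ⟨g', hg', h2⟩ := hg
    exact ⟨f' * g + f * g', add_mem (mul_mem hf' hgm) (mul_mem hfm hg'),
      fun x hx => (h1 x hx).mul (h2 x hx)⟩

lemma val_mem {N : ℕ} (hN : 0 < N) (a : ℚ) (f : ℂ → ℂ) (hf : f ∈ Algebra.adjoin ℚ (gens N a)) :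
    ∃ q : ℚ, f 0 = q := by
  induction hf using Algebra.adjoin_induction with
  | mem f hf =>
    rcases hf with rfl | rfl | rfl
    · exact ⟨0, by simp⟩
    · exact ⟨1, by simp [hN.ne']⟩
    · exact ⟨1, by simp [hN.ne']⟩
  | algebraMap r => exact ⟨r, by simp⟩
  | add f g _ _ hf hg =>
    obtain ⟨p, hp⟩ := hf
    obtain ⟨q, hq⟩ := hg
    exact ⟨p + q, by simp [hp, hq]⟩
  | mul f g _ _ hf hg =>
    obtain ⟨p, hp⟩ := hf
    obtain ⟨q, hq⟩ := hg
    exact ⟨p * q, by simp [hp, hq]⟩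

lemma jet_step {N : ℕ} (hN : 0 < N) {f g : ℂ → ℂ} (h : ∀ x ∈ St N, HasDerivAt f (g x) x)
    (j : ℕ) : iteratedDeriv (j + 1) f 0 = iteratedDeriv j g 0 := by
  rw [iteratedDeriv_succ']
  refine EventuallyEq.iteratedDeriv_eq j ?_
  filter_upwards [(isOpen_St N).mem_nhds (zero_mem_St hN)] with x hx using (h x hx).deriv

lemma jet_mem {N : ℕ} (hN : 0 < N) (a : ℚ) (j : ℕ) :
    ∀ f ∈ Algebra.adjoin ℚ (gens N a), ∃ q : ℚ, iteratedDeriv j f 0 = q := by
  induction j with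
  | zero => intro f hf; simpa using val_mem hN a f hf
  | succ j ih =>
    intro f hf
    obtain ⟨g, hg, h⟩ := der_mem N a f hf
    rw [jet_step hN h]
    exact ih g hg

lemma jet_prim {N : ℕ} (hN : 0 < N) (a c : ℚ) (k : ℕ) {F : ℂ → ℂ} (h0 : F 0 = 0)
    (h : ∀ x ∈ St N, HasDerivAt F (c * (x ^ k * (1 - x ^ N) ^ (a : ℂ))) x) (j : ℕ) :
    ∃ q : ℚ, iteratedDeriv j F 0 = q := by
  cases j with
  | zero => exact ⟨0, by simpa using h0⟩
  | succ j =>
    rw [jet_step hN h]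
    have m1 : (fun x : ℂ => x) ∈ Algebra.adjoin ℚ (gens N a) :=
      Algebra.subset_adjoin (by simp [gens])
    have m3 : (fun x : ℂ => (1 - x ^ N) ^ (a : ℂ)) ∈ Algebra.adjoin ℚ (gens N a) :=
      Algebra.subset_adjoin (by simp [gens])
    have m := Subalgebra.smul_mem _ (mul_mem (pow_mem m1 k) m3) c
    refine jet_mem hN a j _ ?_
    have e : (fun x : ℂ => (c : ℂ) * (x ^ k * (1 - x ^ N) ^ (a : ℂ))) =
        c • ((fun x : ℂ => x) ^ k * fun x : ℂ => (1 - x ^ N) ^ (a : ℂ)) := by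
      funext x
      simp [Rat.smul_def]
    rw [e]
    exact m

end CuAAux

end Pool.Agent.Lib.MP_caab05_ag.GB
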