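import Mathlib
import Pool.Agent.Lib.MP_caab05_ag.GB.Stmt2
import Pool.Agent.Lib.MP_caab05_ag.GB.CuA1

/-! Elementary analysis of the integrals on the curve `y ^ 2 = 1 - x ^ N`. -/

namespace Pool.Agent.Lib.MP_caab05_ag.GB

namespace CuAAux

open Filter Topology Complex Set MeasureTheory Metric

lemma hol (N t : ℕ) (ht : 0 < t) (x : ℂ) (hx : x ∈ St N) :
    HasDerivAt (II N t) (x ^ (t - 1) * (1 - x ^ N) ^ (-1 / 2 : ℂ)) x := by
  have h := prim (isOpen_St N) (star_St N)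
    (f := fun x => x ^ (t - 1) * (1 - x ^ N) ^ (-1 / 2 : ℂ))
    ((differentiable_pow (t - 1)).differentiableOn.mul (diff_cpow N _)) hx
  have e : II N t = fun y => ∫ r in (0 : ℝ)..1,
      y * (((r : ℂ) * y) ^ (t - 1) * (1 - ((r : ℂ) * y) ^ N) ^ (-1 / 2 : ℂ)) := by
    funext y
    unfold II
    congr 1
    funext r
    obtain ⟨k, rfl⟩ : ∃ k, t = k + 1 := ⟨t - 1, by omega⟩
    simp only [Nat.add_sub_cancel]
    rw [mul_pow (r : ℂ) y k, pow_succ]
    ring
  rw [e]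
  exact h

lemma holJ (N t : ℕ) (s : ℂ) (hs : s ∈ St 2) :
    HasDerivAt (JI N t) (2 / (N : ℂ) * (1 - s ^ 2) ^ ((t : ℂ) / N - 1)) s := by
  have h := prim (isOpen_St 2) (star_St 2)
    (f := fun s => 2 / (N : ℂ) * (1 - s ^ 2) ^ ((t : ℂ) / N - 1))
    ((diff_cpow 2 _).const_mul _) hs
  have e : JI N t = fun y => ∫ r in (0 : ℝ)..1,
      y * (2 / (N : ℂ) * (1 - ((r : ℂ) * y) ^ 2) ^ ((t : ℂ) / N - 1)) := by
    funext y
    unfold JI
    congr 1
    funext r
    ring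
  rw [e]
  exact h

lemma II_zero (N t : ℕ) (ht : 0 < t) : II N t 0 = 0 := by
  simp [II, ht.ne']

lemma JI_zero (N t : ℕ) : JI N t 0 = 0 := by
  simp [JI]

lemma integrable_BB (N t : ℕ) (hN : 0 < N) :
    IntervalIntegrable (fun x : ℝ => x ^ (t - 1) / √(1 - x ^ N)) volume 0 1 := by
  have h1 : IntervalIntegrable (fun x : ℝ => (1 - x) ^ (-1 / 2 : ℝ)) volume 0 1 := by
    have := (intervalIntegral.intervalIntegrable_rpow' (a := 0) (b := 1)
      (r := -1 / 2) (by norm_num)).comp_sub_left 1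
    simpa using this.symm
  refine h1.mono_fun' (Measurable.aestronglyMeasurable (by fun_prop)) ?_
  rw [uIoc_of_le zero_le_one, ← restrict_Ioo_eq_restrict_Ioc]
  filter_upwards [ae_restrict_mem measurableSet_Ioo] with x hx
  have hx1 : 0 < 1 - x := sub_pos.2 hx.2
  have h2 : x ^ N ≤ x := pow_le_of_le_one hx.1.le hx.2.le hN.ne'
  have h3 : x ^ (t - 1) ≤ 1 := pow_le_one₀ hx.1.le hx.2.le
  rw [Real.norm_of_nonneg (div_nonneg (pow_nonneg hx.1.le _) (Real.sqrt_nonneg _)), neg_div,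
    Real.rpow_neg hx1.le, ← Real.sqrt_eq_rpow, ← one_div]
  exact div_le_div₀ zero_le_one h3 (Real.sqrt_pos.2 hx1) (Real.sqrt_le_sqrt (by linarith))

lemma BB_pos (N t : ℕ) (hN : 0 < N) : 0 < BB N t := by
  refine intervalIntegral.intervalIntegral_pos_of_pos_on (integrable_BB N t hN)
    (fun x hx => div_pos (pow_pos hx.1 _) (Real.sqrt_pos.2 ?_)) zero_lt_one
  exact sub_pos.2 (pow_lt_one₀ hx.1.le hx.2 hN.ne')

lemma sq_mem {s : ℂ} (hs : 0 < s.re) : s ^ 2 ∈ slitPlane := by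
  rw [mem_slitPlane_iff]
  by_cases h : s.im = 0
  · left
    simp only [sq, mul_re, h, mul_zero, sub_zero]
    positivity
  · right
    simp only [sq, mul_im]
    intro h'
    have : 2 * s.re * s.im = 0 := by linarith
    simp [hs.ne', h] at this

lemma root_pow {N : ℕ} (hN : 0 < N) (z : ℂ) : (z ^ (1 / N : ℂ)) ^ N = z := by
  rw [one_div, cpow_nat_inv_pow _ hN.ne']

lemma root_mem {N : ℕ} (hN : 0 < N) {s : ℂ} (hs : 0 < s.re) :
    (1 - s ^ 2) ^ (1 / N : ℂ) ∈ St N := by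
  show 1 - ((1 - s ^ 2) ^ (1 / N : ℂ)) ^ N ∈ slitPlane
  rw [root_pow hN, sub_sub_cancel]
  exact sq_mem hs

/-- the domain of the local parameter -/
def Dm : Set ℂ := St 2 ∩ {s | 0 < s.re}

lemma isOpen_Dm : IsOpen Dm := (isOpen_St 2).inter (isOpen_lt continuous_const continuous_re)

lemma real_mem_Dm {s : ℂ} (h0 : 0 < s.re) (h1 : s.re < 1) : s ∈ Dm := by
  refine ⟨?_, h0⟩
  show 1 - s ^ 2 ∈ slitPlane
  left
  simp only [sq, sub_re, one_re, mul_re]
  nlinarith [mul_self_nonneg s.im]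

lemma im_mem_Dm {s : ℂ} (h0 : 0 < s.re) (h1 : s.im ≠ 0) : s ∈ Dm := by
  refine ⟨?_, h0⟩
  show 1 - s ^ 2 ∈ slitPlane
  right
  simp only [sq, sub_im, one_im, mul_im]
  intro h'
  have : 2 * s.re * s.im = 0 := by linarith
  simp [h0.ne', h1] at this

lemma conn_Dm : IsPreconnected Dm := by
  have hm : ((1 / 2 : ℝ) : ℂ) ∈ Dm := real_mem_Dm (by simp) (by norm_num)
  have h : StarConvex ℝ ((1 / 2 : ℝ) : ℂ) Dm := by
    intro y hy a b ha hb hab
    have hy2 : 0 < y.re := hy.2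
    have hre : (a • ((1 / 2 : ℝ) : ℂ) + b • y).re = a * (1 / 2) + b * y.re := by simp
    have him : (a • ((1 / 2 : ℝ) : ℂ) + b • y).im = b * y.im := by simp
    rcases hb.eq_or_lt with rfl | hb'
    · have : a = 1 := by linarith
      simpa [this] using hm
    have hpos : 0 < a * (1 / 2) + b * y.re := by positivity
    by_cases hi : y.im = 0
    · refine real_mem_Dm (hre ▸ hpos) ?_
      have h1 : 1 - y ^ 2 ∈ slitPlane := hy.1
      rw [mem_slitPlane_iff] at h1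
      simp only [sq, sub_re, one_re, mul_re, sub_im, one_im, mul_im, hi, mul_zero, zero_mul,
        add_zero, sub_zero, ne_eq, not_true_eq_false, or_false] at h1
      have h2 : y.re < 1 := by nlinarith
      rw [hre]
      nlinarith
    · exact im_mem_Dm (hre ▸ hpos) (him ▸ mul_ne_zero hb'.ne' hi)
  exact (h.isPathConnected hm).isConnected.isPreconnected

lemma deriv_zero (N t : ℕ) (hN : 0 < N) (ht : 0 < t) {s : ℂ} (hs : s ∈ Dm) :
    HasDerivAt (fun s : ℂ => II N t ((1 - s ^ 2) ^ (1 / N : ℂ)) + JI N t s) 0 s := by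
  have h1 := (hasDeriv_base 2 s).cpow_const (c := (1 / N : ℂ)) hs.1
  have h2 := ((hol N t ht _ (root_mem hN hs.2)).comp s h1).add (holJ N t s hs.1)
  refine h2.congr_deriv ?_
  have hz : 1 - s ^ 2 ≠ 0 := slitPlane_ne_zero hs.1
  have hs0 : s ≠ 0 := fun h => by simpa [h] using hs.2
  have hN' : (N : ℂ) ≠ 0 := Nat.cast_ne_zero.2 hN.ne'
  have e1 : (s ^ 2) ^ (-1 / 2 : ℂ) = s⁻¹ := by
    rw [neg_div, cpow_neg, one_div, sq_cpow_two_inv hs.2]
  have e2 : ((1 - s ^ 2) ^ (1 / N : ℂ)) ^ (t - 1) * (1 - s ^ 2) ^ (1 / N - 1 : ℂ) =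
      (1 - s ^ 2) ^ ((t : ℂ) / N - 1) := by
    rw [← cpow_nat_mul, ← cpow_add _ _ hz, Nat.cast_sub ht]
    congr 1
    push_cast
    ring
  rw [root_pow hN, sub_sub_cancel, e1, ← e2]
  generalize ((1 - s ^ 2) ^ (1 / N : ℂ)) ^ (t - 1) = A
  generalize (1 - s ^ 2) ^ (1 / N - 1 : ℂ) = B
  push_cast
  field_simp
  ring

lemma real_deriv (N t : ℕ) (hN : 0 < N) (ht : 0 < t) {x : ℝ} (hx : x ∈ Ioo (0 : ℝ) 1) :
    HasDerivAt (fun x : ℝ => II N t x) ((x ^ (t - 1) / √(1 - x ^ N) : ℝ) : ℂ) x := by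
  have h0 : 0 < 1 - x ^ N := sub_pos.2 (pow_lt_one₀ hx.1.le hx.2 hN.ne')
  have e0 : (1 : ℂ) - (x : ℂ) ^ N = ((1 - x ^ N : ℝ) : ℂ) := by push_cast; rfl
  have hm : (x : ℂ) ∈ St N := by
    show (1 : ℂ) - (x : ℂ) ^ N ∈ slitPlane
    rw [e0]
    exact ofReal_mem_slitPlane.2 h0
  refine (hol N t ht _ hm).comp_ofReal.congr_deriv ?_
  have e1 : (-1 / 2 : ℂ) = ((-(1 / 2) : ℝ) : ℂ) := by push_cast; ring
  rw [e0, e1, ← ofReal_cpow h0.le, Real.rpow_neg h0.le, ← Real.sqrt_eq_rpow, div_eq_mul_inv]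
  push_cast
  rfl

lemma branch (N t : ℕ) (hN : 0 < N) (ht : 0 < t) {s : ℂ} (hs : s ∈ Dm) :
    II N t ((1 - s ^ 2) ^ (1 / N : ℂ)) = BB N t - JI N t s := by
  obtain ⟨C, hC⟩ := isOpen_Dm.exists_is_const_of_deriv_eq_zero conn_Dm
    (fun s hs => (deriv_zero N t hN ht hs).differentiableAt.differentiableWithinAt)
    fun s hs => (deriv_zero N t hN ht hs).deriv
  have hreal : ∀ x ∈ Ioo (0 : ℝ) 1, II N t x = C - JI N t ((√(1 - x ^ N) : ℝ) : ℂ) := by
    intro x hx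
    have h0 : 0 < 1 - x ^ N := sub_pos.2 (pow_lt_one₀ hx.1.le hx.2 hN.ne')
    have hp : 0 < x ^ N := pow_pos hx.1 N
    have hm : ((√(1 - x ^ N) : ℝ) : ℂ) ∈ Dm := by
      refine real_mem_Dm (by simpa using h0) ?_
      rw [ofReal_re, Real.sqrt_lt' zero_lt_one]
      linarith
    have e : (1 - ((√(1 - x ^ N) : ℝ) : ℂ) ^ 2) ^ (1 / N : ℂ) = x := by
      rw [← ofReal_pow, Real.sq_sqrt h0.le]
      push_cast
      have hπ : 0 < Real.pi / N := div_pos Real.pi_pos (Nat.cast_pos.2 hN)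
      rw [sub_sub_cancel, one_div, pow_cpow_nat_inv hN.ne']
      · rw [arg_ofReal_of_nonneg hx.1.le]
        linarith
      · rw [arg_ofReal_of_nonneg hx.1.le]
        exact hπ.le
    have := hC _ hm
    rw [e] at this
    exact eq_sub_of_add_eq this
  have ha : Tendsto (fun x : ℝ => II N t x) (𝓝[>] 0) (𝓝 0) := by
    have h1 := (hol N t ht 0 (zero_mem_St hN)).continuousAt
    have h2 : Tendsto (fun x : ℝ => (x : ℂ)) (𝓝[>] 0) (𝓝 0) :=
      (continuous_ofReal.tendsto' 0 0 (by simp)).mono_left nhdsWithin_le_nhds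
    have h3 := h1.tendsto.comp h2
    rwa [II_zero N t ht] at h3
  have hb : Tendsto (fun x : ℝ => II N t x) (𝓝[<] 1) (𝓝 C) := by
    have h1 := (holJ N t 0 (zero_mem_St two_pos)).continuousAt
    have h2 : Tendsto (fun x : ℝ => ((√(1 - x ^ N) : ℝ) : ℂ)) (𝓝[<] 1) (𝓝 0) :=
      ((by fun_prop : Continuous fun x : ℝ => ((√(1 - x ^ N) : ℝ) : ℂ)).tendsto' 1 0
        (by simp)).mono_left nhdsWithin_le_nhds
    have h3 := (h1.tendsto.comp h2).const_sub C
    rw [JI_zero, sub_zero] at h3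
    refine h3.congr' ?_
    filter_upwards [Ioo_mem_nhdsLT (zero_lt_one' ℝ)] with x hx using (hreal x hx).symm
  have hI := intervalIntegral.integral_eq_sub_of_hasDerivAt_of_tendsto zero_lt_one
    (fun x hx => real_deriv N t hN ht hx) 
    ⟨(integrable_BB N t hN).1.ofReal, (integrable_BB N t hN).2.ofReal⟩ ha hb
  rw [intervalIntegral.integral_ofReal, sub_zero] at hI
  have hB : (BB N t : ℂ) = C := hI
  rw [hB]
  exact eq_sub_of_add_eq (hC s hs)

end CuAAux

open CuAAux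

theorem cuA : CuAS where
  hol := hol
  holJ := holJ
  op := isOpen_St
  conn := fun _ hN => conn_St hN
  zero := fun N t ht => ⟨II_zero N t ht, JI_zero N t⟩
  jet := fun N t hN ht j => jet_prim hN (-1 / 2) 1 (t - 1) (II_zero N t ht)
    (fun x hx => (hol N t ht x hx).congr_deriv (by push_cast; rw [one_mul])) j
  jetJ := fun N t _ j => jet_prim two_pos (t / N - 1) (2 / N) 0 (JI_zero N t)
    (fun x hx => (holJ N t x hx).congr_deriv (by push_cast; rw [pow_zero, one_mul])) j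
  rot := fun N t ω x hω => by
    unfold II
    rw [← intervalIntegral.integral_const_mul]
    congr 1
    funext r
    have e : ((r : ℂ) * (ω * x)) ^ N = ((r : ℂ) * x) ^ N := by
      rw [mul_left_comm, mul_pow, hω, one_mul]
    rw [e, mul_pow ω x t]
    ring
  oddJ := fun N t s => by
    unfold JI
    rw [← intervalIntegral.integral_neg]
    congr 1
    funext r
    rw [mul_neg (r : ℂ), neg_sq]
    ring
  pos := fun N t hN _ => BB_pos N t hN
  branch := fun N t hN ht _ hs hre =>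
    ⟨root_mem hN hre, root_pow hN _, branch N t hN ht ⟨hs, hre⟩⟩

end Pool.Agent.Lib.MP_caab05_ag.GB
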