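import Mathlib
import Pool.Agent.Lib.MP_caab05_ag.GB.Stmt2

/-! Passage to the local parameter at infinity for the integrals on the curve. -/

namespace Pool.Agent.Lib.MP_caab05_ag.GB

open Filter Topology Complex

namespace CuBAux

theorem cpow_re_pos {z : ℂ} (hz : z ∈ slitPlane) {a : ℝ} (ha : |a| ≤ 1 / 2) :
    0 < (z ^ (a : ℂ)).re := by
  rw [cpow_def_of_ne_zero (slitPlane_ne_zero hz), exp_re]
  refine mul_pos (Real.exp_pos _) (Real.cos_pos_of_mem_Ioo ?_)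
  have h1 : |arg z| < Real.pi := by
    rw [abs_lt]
    exact ⟨neg_pi_lt_arg z, lt_of_le_of_ne (arg_le_pi z) (slitPlane_arg_ne_pi hz)⟩
  have e : (log z * (a : ℂ)).im = arg z * a := by simp [log_im]
  have h2 : |arg z * a| < Real.pi / 2 := by
    rw [abs_mul]
    calc |arg z| * |a| ≤ |arg z| * (1 / 2) := mul_le_mul_of_nonneg_left ha (abs_nonneg _)
      _ < Real.pi / 2 := by linarith
  rw [e]
  exact abs_lt.1 h2

theorem half_re_pos {z : ℂ} (hz : z ∈ slitPlane) : 0 < (z ^ (-1 / 2 : ℂ)).re := by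
  have h := cpow_re_pos hz (a := -1 / 2) (by rw [abs_le]; constructor <;> norm_num)
  have e : ((-1 / 2 : ℝ) : ℂ) = -1 / 2 := by push_cast; rfl
  rwa [e] at h

theorem half_sq {z : ℂ} (hz : z ≠ 0) : (z ^ (-1 / 2 : ℂ)) ^ 2 * z = 1 := by
  have e : (z ^ (-1 / 2 : ℂ)) ^ 2 = z ^ (-1 : ℂ) := by
    rw [sq, ← cpow_add _ _ hz]; norm_num
  rw [e, cpow_neg_one, inv_mul_cancel₀ hz]

theorem slit {u : ℂ} (hu : u.im ≠ 0) : 1 - u ^ 2 ∈ slitPlane := by
  rw [mem_slitPlane_iff]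
  by_cases h : u.re = 0
  · left
    simp only [sq, sub_re, one_re, mul_re, h]
    nlinarith [mul_self_nonneg u.im]
  · right
    simp only [sq, sub_im, one_im, mul_im]
    intro h0
    have : u.re * u.im = 0 := by linarith
    exact (mul_ne_zero h hu) this

theorem real_sign {a b c d : ℝ} (ha : 0 < a) (hc : 0 < c)
    (h1 : (c * c - d * d) * (1 - (b * b - a * a)) - (c * d + d * c) * (0 - (b * a + a * b)) = 1)
    (h2 : (c * c - d * d) * (0 - (b * a + a * b)) + (c * d + d * c) * (1 - (b * b - a * a)) = 0) :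
    0 ≤ b * d := by
  have h3 : (c * d + d * c) * ((1 - (b * b - a * a)) ^ 2 + (b * a + a * b) ^ 2) = 2 * a * b := by
    linear_combination (1 - (b * b - a * a)) * h2 - (b * a + a * b) * h1 * (-1) * (-1) * (-1)
  by_contra hc0
  have h4 : b * d < 0 := not_le.1 hc0
  have h5 : 0 ≤ (1 - (b * b - a * a)) ^ 2 + (b * a + a * b) ^ 2 := by positivity
  have h6 : 2 * c * (b * d) * ((1 - (b * b - a * a)) ^ 2 + (b * a + a * b) ^ 2) = 2 * a * (b * b) := by
    linear_combination b * h3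
  have h7 : 2 * c * (b * d) * ((1 - (b * b - a * a)) ^ 2 + (b * a + a * b) ^ 2) ≤ 0 :=
    mul_nonpos_of_nonpos_of_nonneg (mul_nonpos_of_nonneg_of_nonpos (by linarith) h4.le) h5
  have hb : b ≠ 0 := by
    rintro rfl
    simp at h4
  have h8 : 0 < 2 * a * (b * b) := mul_pos (by linarith) (mul_self_pos.2 hb)
  linarith

/-- the two square roots in the upper half plane -/
theorem key {u : ℂ} (hu : 0 < u.im) :
    u * (1 - u ^ 2) ^ (-1 / 2 : ℂ) = I * (1 - u⁻¹ ^ 2) ^ (-1 / 2 : ℂ) := by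
  have hu0 : u ≠ 0 := by
    rintro rfl
    simp at hu
  have hs1 := slit hu.ne'
  have hs2 : 1 - u⁻¹ ^ 2 ∈ slitPlane := by
    refine slit ?_
    rw [inv_im]
    exact div_ne_zero (neg_ne_zero.2 hu.ne') (normSq_pos.2 hu0).ne'
  have hA := half_re_pos hs1
  have hB := half_re_pos hs2
  have hA2 := half_sq (slitPlane_ne_zero hs1)
  have hB2 := half_sq (slitPlane_ne_zero hs2)
  have hne := slitPlane_ne_zero hs1
  generalize (1 - u ^ 2) ^ (-1 / 2 : ℂ) = A at hA hA2 ⊢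
  generalize (1 - u⁻¹ ^ 2) ^ (-1 / 2 : ℂ) = B at hB hB2 ⊢
  have hB3 : B ^ 2 * (1 - u ^ 2) = -u ^ 2 := by
    have e : (1 - u ^ 2) = -u ^ 2 * (1 - u⁻¹ ^ 2) := by field_simp; ring
    rw [e]
    linear_combination (-u ^ 2) * hB2
  have h1 : (u * A - I * B) * (u * A + I * B) * (1 - u ^ 2) = 0 := by
    linear_combination u ^ 2 * hA2 + hB3 - B ^ 2 * (1 - u ^ 2) * I_sq
  rcases mul_eq_zero.1 ((mul_eq_zero.1 h1).resolve_right hne) with h | h
  · exact sub_eq_zero.1 h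
  · exfalso
    have h2 := congrArg Complex.im h
    have h3 := congrArg Complex.re hA2
    have h4 := congrArg Complex.im hA2
    simp only [sq, mul_re, mul_im, sub_re, sub_im, one_re, one_im, add_im, I_re, I_im,
      zero_im] at h2 h3 h4
    have h5 := real_sign hu hA h3 h4
    have h6 := mul_pos hu hA
    linarith

theorem ze_pow (N j : ℕ) : ze N ^ j = cexp (j * (2 * Real.pi * I / N)) := by
  rw [ze, exp_nat_mul]

theorem ze_pow_self {N : ℕ} (hN : 0 < N) : ze N ^ N = 1 := by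
  have h : (N : ℂ) ≠ 0 := by exact_mod_cast hN.ne'
  rw [ze_pow, mul_div_cancel₀ _ h, exp_two_pi_mul_I]

theorem ze_half {n : ℕ} (hn : 0 < n) : ze (2 * n) ^ n = -1 := by
  have h : (n : ℂ) ≠ 0 := by exact_mod_cast hn.ne'
  have e : (n : ℂ) * (2 * Real.pi * I / ((2 * n : ℕ) : ℂ)) = Real.pi * I := by
    push_cast; field_simp
  rw [ze_pow, e, exp_pi_mul_I]

theorem ze_eq {n : ℕ} (hn : 0 < n) : ze (2 * n) = cexp (((Real.pi / n : ℝ) : ℂ) * I) := by
  have h : (n : ℂ) ≠ 0 := by exact_mod_cast hn.ne'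
  unfold ze
  congr 1
  push_cast; field_simp

theorem one_add_ne {n t : ℕ} (hn : 0 < n) (ht : 0 < t) (htn : t < n) :
    1 + ze (2 * n) ^ t ≠ 0 := by
  have hn' : (0 : ℝ) < n := by exact_mod_cast hn
  have ht' : (0 : ℝ) < t := by exact_mod_cast ht
  have htn' : (t : ℝ) < n := by exact_mod_cast htn
  intro h
  have h1 := congrArg Complex.im h
  have e : ze (2 * n) ^ t = cexp (((t * (Real.pi / n) : ℝ) : ℂ) * I) := by
    rw [ze_eq hn, ← exp_nat_mul]
    congr 1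
    push_cast; ring
  rw [e, add_im, one_im, zero_add, exp_ofReal_mul_I_im, zero_im] at h1
  have h2 : 0 < Real.sin (t * (Real.pi / n)) := by
    refine Real.sin_pos_of_pos_of_lt_pi (mul_pos ht' (div_pos Real.pi_pos hn')) ?_
    rw [← mul_div_assoc, div_lt_iff₀ hn', mul_comm]
    exact mul_lt_mul_of_pos_left htn' Real.pi_pos
  exact h2.ne' h1

/-- the limit at the branch point along the unit circle -/
theorem lim (h : CuAS) {N t : ℕ} (hN : 0 < N) (ht : 0 < t) :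
    Tendsto (fun θ : ℝ => II N t (cexp (θ * I))) (𝓝[≠] 0) (𝓝 (BB N t : ℂ)) := by
  have hN' : (0 : ℝ) < N := by exact_mod_cast hN
  have hNc : (N : ℂ) ≠ 0 := by exact_mod_cast hN.ne'
  have h0 : (0 : ℂ) ∈ St 2 := by simp [St]
  have c1 : Continuous fun θ : ℝ => 1 - cexp (((N * θ : ℝ) : ℂ) * I) := by fun_prop
  have c2 : Tendsto (fun θ : ℝ => 1 - cexp (((N * θ : ℝ) : ℂ) * I)) (𝓝 0) (𝓝 0) := by
    simpa using c1.tendsto 0
  have c3 : Tendsto (fun z : ℂ => z ^ (((1 / 2 : ℝ)) : ℂ)) (𝓝 0) (𝓝 0) := by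
    have := continuousAt_cpow_const_of_re_pos (z := 0) (w := ((1 / 2 : ℝ) : ℂ)) (Or.inl le_rfl)
      (by simp)
    rwa [ContinuousAt, zero_cpow (by simp)] at this
  have c4 : Tendsto (JI N t) (𝓝 0) (𝓝 0) := by
    have := (h.holJ N t 0 h0).continuousAt
    rwa [ContinuousAt, (h.zero N t ht).2] at this
  have c5 : Tendsto (fun θ : ℝ => (BB N t : ℂ) -
      JI N t ((1 - cexp (((N * θ : ℝ) : ℂ) * I)) ^ (((1 / 2 : ℝ)) : ℂ))) (𝓝[≠] 0)
      (𝓝 (BB N t : ℂ)) := by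
    have := ((c4.comp (c3.comp c2)).const_sub (BB N t : ℂ)).mono_left
      (nhdsWithin_le_nhds (s := {0}ᶜ))
    simpa using this
  refine c5.congr' ?_
  have hsm : ∀ᶠ θ : ℝ in 𝓝[≠] 0, |θ| < Real.pi / N :=
    nhdsWithin_le_nhds (s := {0}ᶜ) (by
      have : Continuous fun θ : ℝ => |θ| := continuous_abs
      exact this.continuousAt.eventually_lt continuousAt_const
        (by simpa using div_pos Real.pi_pos hN'))
  filter_upwards [hsm, self_mem_nhdsWithin] with θ hθ hθ0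
  have hθ1 : |N * θ| < Real.pi := by
    rw [abs_mul, abs_of_pos hN', mul_comm]
    exact (lt_div_iff₀ hN').1 hθ
  obtain ⟨hl, hr⟩ := abs_lt.1 hθ1
  have hsin : Real.sin (N * θ) ≠ 0 := by
    rw [Ne, Real.sin_eq_zero_iff_of_lt_of_lt hl hr]
    exact mul_ne_zero hN'.ne' hθ0
  have hz : 1 - cexp (((N * θ : ℝ) : ℂ) * I) ∈ slitPlane := by
    refine Or.inr ?_
    rw [sub_im, one_im, exp_ofReal_mul_I_im, zero_sub]
    exact neg_ne_zero.2 hsin
  have hs2 : 1 - ((1 - cexp (((N * θ : ℝ) : ℂ) * I)) ^ (((1 / 2 : ℝ)) : ℂ)) ^ 2 =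
      cexp (((N * θ : ℝ) : ℂ) * I) := by
    rw [sq, ← cpow_add _ _ (slitPlane_ne_zero hz)]
    have e : (((1 / 2 : ℝ)) : ℂ) + (((1 / 2 : ℝ)) : ℂ) = 1 := by push_cast; norm_num
    rw [e, cpow_one]; ring
  have hst : (1 - cexp (((N * θ : ℝ) : ℂ) * I)) ^ (((1 / 2 : ℝ)) : ℂ) ∈ St 2 := by
    change 1 - _ ^ 2 ∈ slitPlane
    rw [hs2]
    refine Or.inr ?_
    rw [exp_ofReal_mul_I_im]
    exact hsin
  have hb := (h.branch N t hN ht _ hst (cpow_re_pos hz (by norm_num [abs_of_pos]))).2.2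
  rw [← hb, hs2, cpow_def_of_ne_zero (exp_ne_zero _), log_exp (by simpa using hl)
    (by simpa using hr.le)]
  congr 2
  push_cast; field_simp

/-- the strip -/
def Str (n : ℕ) : Set ℂ := {w | 0 < w.im ∧ w.im < Real.pi / n}

theorem str_im {n : ℕ} (hn : 0 < n) {w : ℂ} (hw : w ∈ Str n) : 0 < (cexp w ^ n).im := by
  have hn' : (0 : ℝ) < n := by exact_mod_cast hn
  rw [← exp_nat_mul, exp_im]
  refine mul_pos (Real.exp_pos _) (Real.sin_pos_of_pos_of_lt_pi ?_ ?_)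
  · simpa using mul_pos hn' hw.1
  · have := (lt_div_iff₀ hn').1 hw.2
    simpa [mul_comm] using this

theorem deriv_zero (h : CuAS) {n t : ℕ} (ht : 0 < t) (htn : t < n) {w : ℂ} (hw : w ∈ Str n) :
    HasDerivAt (fun w => II (2 * n) t (cexp w) + I * II (2 * n) (n - t) (cexp (-w))) 0 w := by
  have hn : 0 < n := ht.trans htn
  have hu := str_im hn hw
  have e1 : cexp w ^ (2 * n) = (cexp w ^ n) ^ 2 := by rw [← pow_mul, mul_comm]
  have e2 : cexp (-w) ^ (2 * n) = (cexp w ^ n)⁻¹ ^ 2 := by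
    rw [exp_neg, ← inv_pow, ← pow_mul, mul_comm]
  have hne : cexp w ≠ 0 := exp_ne_zero w
  have m1 : cexp w ∈ St (2 * n) := by
    change 1 - _ ∈ slitPlane
    rw [e1]; exact slit hu.ne'
  have m2 : cexp (-w) ∈ St (2 * n) := by
    change 1 - _ ∈ slitPlane
    rw [e2]
    refine slit ?_
    rw [inv_im]
    exact div_ne_zero (neg_ne_zero.2 hu.ne') (normSq_pos.2 (pow_ne_zero _ hne)).ne'
  have d1 := (h.hol (2 * n) t ht _ m1).comp w (hasDerivAt_exp w)
  have d2 := (h.hol (2 * n) (n - t) (by omega) _ m2).comp w (hasDerivAt_neg w).cexp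
  refine (d1.add (d2.const_mul I)).congr_deriv ?_
  have hk := key hu
  rw [e1, e2]
  generalize (1 - (cexp w ^ n) ^ 2) ^ (-1 / 2 : ℂ) = A at hk ⊢
  generalize (1 - (cexp w ^ n)⁻¹ ^ 2) ^ (-1 / 2 : ℂ) = B at hk ⊢
  obtain ⟨a, rfl⟩ : ∃ a, t = a + 1 := ⟨t - 1, by omega⟩
  obtain ⟨b, rfl⟩ : ∃ b, n = a + 1 + (b + 1) := ⟨n - (a + 1) - 1, by omega⟩
  have e3 : a + 1 + (b + 1) - (a + 1) - 1 = b := by omega
  rw [e3, Nat.add_sub_cancel, exp_neg]
  have e4 : (cexp w)⁻¹ ^ b * (cexp w)⁻¹ * cexp w ^ (a + 1 + (b + 1)) = cexp w ^ a * cexp w := by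
    rw [inv_pow]; field_simp; ring
  linear_combination ((cexp w)⁻¹ ^ b * (cexp w)⁻¹) * hk - A * e4

theorem const (h : CuAS) {n t : ℕ} (ht : 0 < t) (htn : t < n) {w w' : ℂ} (hw : w ∈ Str n)
    (hw' : w' ∈ Str n) : II (2 * n) t (cexp w) + I * II (2 * n) (n - t) (cexp (-w)) =
      II (2 * n) t (cexp w') + I * II (2 * n) (n - t) (cexp (-w')) := by
  have ho : IsOpen (Str n) :=
    (isOpen_lt continuous_const continuous_im).inter (isOpen_lt continuous_im continuous_const)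
  have hc : Convex ℝ (Str n) := (convex_halfSpace_im_gt 0).inter (convex_halfSpace_im_lt _)
  exact ho.is_const_of_deriv_eq_zero (𝕜 := ℂ)
    (f := fun w => II (2 * n) t (cexp w) + I * II (2 * n) (n - t) (cexp (-w))) hc.isPreconnected
    (fun z hz => (deriv_zero h ht htn hz).differentiableAt.differentiableWithinAt)
    (fun z hz => (deriv_zero h ht htn hz).deriv) hw hw'

theorem value (h : CuAS) {n t : ℕ} (ht : 0 < t) (htn : t < n) {w : ℂ} (hw : w ∈ Str n) :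
    II (2 * n) t (cexp w) + I * II (2 * n) (n - t) (cexp (-w)) =
      2 * ze (2 * n) ^ t / (1 + ze (2 * n) ^ t) * BB (2 * n) t := by
  have hn : 0 < n := ht.trans htn
  have hn' : (0 : ℝ) < n := by exact_mod_cast hn
  have hp : Tendsto (fun θ : ℝ => θ) (𝓝[>] 0) (𝓝[≠] 0) :=
    tendsto_id'.2 (nhdsWithin_mono _ fun x hx => ne_of_gt hx)
  have hm : Tendsto (fun θ : ℝ => -θ) (𝓝[>] 0) (𝓝[≠] 0) := by
    refine tendsto_nhdsWithin_iff.2 ⟨?_, ?_⟩
    · simpa using (continuous_neg.tendsto (0 : ℝ)).mono_left (nhdsWithin_le_nhds (s := Set.Ioi 0))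
    · filter_upwards [self_mem_nhdsWithin] with x hx
      exact neg_ne_zero.2 (ne_of_gt hx)
  have l1 := lim h (N := 2 * n) (by omega) ht
  have l2 := lim h (N := 2 * n) (t := n - t) (by omega) (by omega)
  have hev : ∀ᶠ θ : ℝ in 𝓝[>] 0, θ ∈ Set.Ioo 0 (Real.pi / n) :=
    Ioo_mem_nhdsGT (div_pos Real.pi_pos hn')
  have hz := ze_pow_self (N := 2 * n) (by omega)
  have hz0 : ze (2 * n) ≠ 0 := exp_ne_zero _
  have a1 : II (2 * n) t (cexp w) + I * II (2 * n) (n - t) (cexp (-w)) =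
      BB (2 * n) t + I * BB (2 * n) (n - t) := by
    refine tendsto_nhds_unique (tendsto_const_nhds.congr' ?_)
      ((l1.comp hp).add ((l2.comp hm).const_mul I))
    filter_upwards [hev] with θ hθ
    rw [const h ht htn hw (w' := θ * I) ⟨by simpa using hθ.1, by simpa using hθ.2⟩]
    simp
  have a2 : II (2 * n) t (cexp w) + I * II (2 * n) (n - t) (cexp (-w)) =
      ze (2 * n) ^ t * BB (2 * n) t + I * ((ze (2 * n))⁻¹ ^ (n - t) * BB (2 * n) (n - t)) := by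
    refine tendsto_nhds_unique (tendsto_const_nhds.congr' ?_)
      (((l1.comp hm).const_mul (ze (2 * n) ^ t)).add
        (((l2.comp hp).const_mul ((ze (2 * n))⁻¹ ^ (n - t))).const_mul I))
    filter_upwards [hev] with θ hθ
    rw [const h ht htn hw (w' := ((Real.pi / n - θ : ℝ) : ℂ) * I)
      ⟨by rw [mul_I_im, ofReal_re]; linarith [hθ.2], by rw [mul_I_im, ofReal_re]; linarith [hθ.1]⟩]
    have e1 : cexp (((Real.pi / n - θ : ℝ) : ℂ) * I) = ze (2 * n) * cexp (((-θ : ℝ) : ℂ) * I) := by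
      rw [ze_eq hn, ← exp_add]; congr 1; push_cast; ring
    have e2 : cexp (-(((Real.pi / n - θ : ℝ) : ℂ) * I)) = (ze (2 * n))⁻¹ * cexp (θ * I) := by
      rw [ze_eq hn, ← exp_neg, ← exp_add]; congr 1; push_cast; ring
    rw [e1, e2, h.rot _ _ _ _ hz, h.rot _ _ _ _ (by rw [inv_pow, hz, inv_one])]
    rfl
  have a3 : (ze (2 * n))⁻¹ ^ (n - t) = -ze (2 * n) ^ t := by
    have e : ze (2 * n) ^ (n - t) * ze (2 * n) ^ t = -1 := by
      rw [← pow_add, Nat.sub_add_cancel htn.le, ze_half hn]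
    rw [inv_pow]
    refine inv_eq_of_mul_eq_one_right ?_
    linear_combination -e
  rw [a3] at a2
  have hne := one_add_ne hn ht htn
  rw [div_mul_eq_mul_div, eq_div_iff hne]
  linear_combination a2 + ze (2 * n) ^ t * a1

theorem decomp {n : ℕ} (hn : 0 < n) {x : ℂ} (hx : (x ^ (2 * n)).im ≠ 0) :
    ∃ (j : ℕ) (w : ℂ), w ∈ Str n ∧ x = ze (2 * n) ^ j * cexp w := by
  have hn' : (0 : ℝ) < n := by exact_mod_cast hn
  have hd : 0 < Real.pi / n := div_pos Real.pi_pos hn'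
  have hx0 : x ≠ 0 := by
    rintro rfl
    rw [zero_pow (by omega)] at hx
    exact hx rfl
  have ha : 0 ≤ (arg x + 2 * Real.pi) / (Real.pi / n) :=
    div_nonneg (by linarith [neg_pi_lt_arg x, Real.pi_pos]) hd.le
  obtain ⟨j, hj1, hj2⟩ : ∃ j : ℕ, (j : ℝ) * (Real.pi / n) ≤ arg x + 2 * Real.pi ∧
      arg x + 2 * Real.pi < (j + 1) * (Real.pi / n) :=
    ⟨⌊(arg x + 2 * Real.pi) / (Real.pi / n)⌋₊, (le_div_iff₀ hd).1 (Nat.floor_le ha),
      (div_lt_iff₀ hd).1 (Nat.lt_floor_add_one _)⟩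
  obtain ⟨w, hw1, hw2⟩ : ∃ w : ℂ, w.im = arg x + 2 * Real.pi - j * (Real.pi / n) ∧
      x = ze (2 * n) ^ j * cexp w := by
    refine ⟨log x + ((2 * Real.pi - j * (Real.pi / n) : ℝ) : ℂ) * I, ?_, ?_⟩
    · rw [add_im, log_im, mul_I_im, ofReal_re]; ring
    · rw [ze_eq hn, ← exp_nat_mul, ← exp_add]
      have e : (j : ℂ) * (((Real.pi / n : ℝ) : ℂ) * I) +
          (log x + ((2 * Real.pi - j * (Real.pi / n) : ℝ) : ℂ) * I) = log x + 2 * Real.pi * I := by
        push_cast; ring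
      rw [e, exp_add, exp_two_pi_mul_I, mul_one, exp_log hx0]
  refine ⟨j, w, ⟨lt_of_le_of_ne (by linarith) fun h0 => hx ?_, by linarith⟩, hw2⟩
  rw [hw2, mul_pow, ← pow_mul, mul_comm j, pow_mul, ze_pow_self (by omega), one_pow, one_mul,
    ← exp_nat_mul, exp_im]
  have e : (((2 * n : ℕ) : ℂ) * w).im = 0 := by
    rw [mul_im, natCast_im, ← h0]; simp
  rw [e, Real.sin_zero, mul_zero]

end CuBAux

open CuBAux in
theorem cuB (h : CuAS) : CuBS := by
  intro n hn x hx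
  obtain ⟨j, w, hw, rfl⟩ := decomp hn hx
  have hz := ze_pow_self (N := 2 * n) (by omega)
  have hz0 : ze (2 * n) ≠ 0 := exp_ne_zero _
  have hj : (ze (2 * n) ^ j) ^ (2 * n) = 1 := by rw [← pow_mul, mul_comm j, pow_mul, hz, one_pow]
  refine ⟨j, -I * (ze (2 * n) ^ j) ^ n, ?_, fun t ht htn => ?_⟩
  · rw [mul_pow, ← pow_mul, mul_comm n 2, hj]
    simp
  · have hv := value h ht htn hw
    have e : cexp (-w) = ze (2 * n) ^ j * (ze (2 * n) ^ j * cexp w)⁻¹ := by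
      rw [exp_neg]; field_simp
    rw [e, h.rot _ _ _ _ hj] at hv
    rw [h.rot _ _ _ _ hj, pow_mul]
    have e2 : (ze (2 * n) ^ j) ^ n = (ze (2 * n) ^ j) ^ t * (ze (2 * n) ^ j) ^ (n - t) := by
      rw [← pow_add, Nat.add_sub_cancel' htn.le]
    rw [e2]
    linear_combination (ze (2 * n) ^ j) ^ t * hv

end Pool.Agent.Lib.MP_caab05_ag.GB
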