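import Mathlib
import Pool.Agent.Lib.MP_caab05_ag.GB.Stmt

/-! Siegel's theorem on algebraic dependence. -/

namespace Pool.Agent.Lib.MP_caab05_ag.GB

open MvPolynomial Filter Topology Asymptotics Complex Matrix Metric

namespace DepAux

theorem taylor {κ : Type} [Fintype κ] (F : (κ → ℂ) → ℂ) (c : κ → ℂ) (hF : AnalyticAt ℂ F c)
    (j : ℕ) : ∃ P : MvPolynomial κ ℂ, P.totalDegree ≤ j ∧
      (fun y => F (c + y) - eval y P) =O[𝓝 0] fun y => ‖y‖ ^ (j + 1) := by
  classical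
  obtain ⟨p, hp⟩ := hF
  refine ⟨∑ d ∈ Finset.range (j + 1), ∑ σ : Fin d → κ,
    C (p d fun i => Pi.single (σ i) 1) * ∏ i, X (σ i), ?_, ?_⟩
  · refine totalDegree_finsetSum_le fun d hd => totalDegree_finsetSum_le fun σ _ => ?_
    refine (totalDegree_mul _ _).trans ?_
    rw [totalDegree_C, zero_add]
    refine (totalDegree_finsetProd _ _).trans ?_
    simp only [totalDegree_X, Finset.sum_const, Finset.card_univ, Fintype.card_fin, smul_eq_mul,
      mul_one]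
    exact Nat.lt_succ_iff.1 (Finset.mem_range.1 hd)
  · refine (hp.isBigO_sub_partialSum_pow (j + 1)).congr_left fun y => ?_
    congr 1
    rw [FormalMultilinearSeries.partialSum, map_sum]
    refine Finset.sum_congr rfl fun d _ => ?_
    have hy : y = ∑ a, y a • (Pi.single a 1 : κ → ℂ) := by
      ext b
      simp [Finset.sum_apply, Pi.single_apply]
    conv_lhs => rw [hy]
    rw [ContinuousMultilinearMap.map_sum, map_sum]
    refine Finset.sum_congr rfl fun σ _ => ?_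
    rw [ContinuousMultilinearMap.map_smul_univ]
    simp [mul_comm]

theorem schwarz {κ : Type} [Fintype κ] (F : (κ → ℂ) → ℂ) (c : κ → ℂ) (R M : ℝ) (j : ℕ)
    (hd : DifferentiableOn ℂ F (ball c R)) (hM : ∀ p ∈ ball c R, ‖F p‖ ≤ M)
    (hO : (fun y => F (c + y)) =O[𝓝 0] fun y => ‖y‖ ^ (j + 1)) (hR : 0 < R) :
    ∀ p ∈ ball c (R / 2), ‖F p‖ ≤ M * (1 / 2) ^ (j + 1) := by
  intro p hp
  have h0 : F c = 0 := by
    simpa using hO.eq_zero_imp.self_of_nhds (by simp)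
  have hM0 : 0 ≤ M := (norm_nonneg _).trans (hM c (mem_ball_self hR))
  have ho : (fun w => F w - F c) =o[𝓝 c] fun w => ‖w - c‖ ^ j := by
    have h1 : (fun y => F (c + y)) =o[𝓝 0] fun y : κ → ℂ => ‖y‖ ^ j :=
      hO.trans_isLittleO (isLittleO_norm_pow_norm_pow (Nat.lt_succ_self j))
    have h2 : Tendsto (fun w : κ → ℂ => w - c) (𝓝 c) (𝓝 0) := by
      have : Tendsto (fun w : κ → ℂ => w - c) (𝓝 c) (𝓝 (c - c)) :=
        (continuous_id.sub continuous_const).tendsto c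
      simpa using this
    simpa [Function.comp_def, h0] using h1.comp_tendsto h2
  have hp' : p ∈ ball c R := ball_subset_ball (by linarith) hp
  have h := Complex.dist_le_mul_div_pow_of_mapsTo_ball_of_isLittleO (R₂ := M) hd
    (fun z hz => by simpa [h0] using hM z hz) ho hp'
  rw [h0, dist_zero_right] at h
  refine h.trans (mul_le_mul_of_nonneg_left (pow_le_pow_left₀ (by positivity) ?_ _) hM0)
  rw [div_le_iff₀ hR]
  have := mem_ball.1 hp
  linarith

theorem cover {κ ι : Type} [Fintype κ] [Fintype ι] (Ω K : ι → Set (κ → ℂ))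
    (op : ∀ i, IsOpen (Ω i)) (cpt : ∀ i, IsCompact (K i)) (sub : ∀ i, K i ⊆ Ω i) :
    ∃ (S : Finset (ι × (κ → ℂ))) (R : ι × (κ → ℂ) → ℝ),
      (∀ q ∈ S, 0 < R q ∧ closedBall q.2 (R q) ⊆ Ω q.1) ∧
      ∀ i, ∀ p ∈ K i, ∃ c, (i, c) ∈ S ∧ p ∈ ball c (R (i, c) / 2) := by
  classical
  have h1 : ∀ q : ι × (κ → ℂ), ∃ r : ℝ, 0 < r ∧ (q.2 ∈ K q.1 → closedBall q.2 r ⊆ Ω q.1) := by
    intro q
    by_cases hq : q.2 ∈ K q.1
    · obtain ⟨r, hr, h⟩ := nhds_basis_closedBall.mem_iff.1 ((op q.1).mem_nhds (sub _ hq))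
      exact ⟨r, hr, fun _ => h⟩
    · exact ⟨1, one_pos, fun h => absurd h hq⟩
  choose R hR hRΩ using h1
  have h2 : ∀ i, ∃ t : Finset (κ → ℂ), (∀ x ∈ t, x ∈ K i) ∧
      K i ⊆ ⋃ x ∈ t, ball x (R (i, x) / 2) := fun i =>
    (cpt i).elim_nhds_subcover (fun x => ball x (R (i, x) / 2))
      fun x _ => ball_mem_nhds x (half_pos (hR _))
  choose t ht hcov using h2
  refine ⟨Finset.univ.biUnion fun i => (t i).image fun x => (i, x), R, ?_, ?_⟩
  · intro q hq
    simp only [Finset.mem_biUnion, Finset.mem_univ, true_and, Finset.mem_image] at hq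
    obtain ⟨i, x, hx, rfl⟩ := hq
    exact ⟨hR _, hRΩ _ (ht i x hx)⟩
  · intro i p hp
    obtain ⟨x, hx, hpx⟩ := Set.mem_iUnion₂.1 (hcov i hp)
    refine ⟨x, ?_, hpx⟩
    simp only [Finset.mem_biUnion, Finset.mem_univ, true_and, Finset.mem_image]
    exact ⟨i, x, hx, rfl⟩

theorem unif {τ E : Type} (S : Finset τ) (A : τ → Set E) (f : τ → E → ℝ)
    (h : ∀ q ∈ S, ∃ B : ℝ, ∀ p ∈ A q, f q p ≤ B) :
    ∃ B : ℝ, 0 ≤ B ∧ ∀ q ∈ S, ∀ p ∈ A q, f q p ≤ B := by
  choose! B hB using h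
  refine ⟨∑ q ∈ S, |B q|, Finset.sum_nonneg fun _ _ => abs_nonneg _, fun q hq p hp => ?_⟩
  exact (hB q hq p hp).trans ((le_abs_self _).trans
    (Finset.single_le_sum (f := fun q => |B q|) (fun _ _ => abs_nonneg _) hq))

theorem scal {κ ι γ : Type} [Fintype κ] [Fintype ι] [Fintype γ] (Ω K : ι → Set (κ → ℂ))
    (cpt : ∀ i, IsCompact (K i)) (sub : ∀ i, K i ⊆ Ω i) (Z : ι → (κ → ℂ) → γ → ℂ)
    (hol : ∀ i, DifferentiableOn ℂ (Z i) (Ω i)) (ne : ∀ i, ∀ p ∈ K i, Z i p ≠ 0)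
    (S : Finset (ι × (κ → ℂ))) (R : ι × (κ → ℂ) → ℝ)
    (hS : ∀ q ∈ S, 0 < R q ∧ closedBall q.2 (R q) ⊆ Ω q.1) :
    ∃ c : ℕ, ∀ q ∈ S, ∀ p ∈ closedBall q.2 (R q), ∀ j, ∀ p' ∈ K j, ∀ a : ℂ,
      Z q.1 p = a • Z j p' → ‖a‖ ≤ 2 ^ c := by
  obtain ⟨B, hB0, hB⟩ := unif S (fun q => closedBall q.2 (R q)) (fun q p => ‖Z q.1 p‖)
    fun q hq => (isCompact_closedBall q.2 (R q)).exists_bound_of_continuousOn
      ((hol q.1).continuousOn.mono (hS q hq).2)
  obtain ⟨B', -, hB'⟩ := unif Finset.univ K (fun j p => ‖Z j p‖⁻¹) fun j _ => by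
    have hc : ContinuousOn (fun p => ‖Z j p‖⁻¹) (K j) :=
      ((hol j).continuousOn.mono (sub j)).norm.inv₀ fun p hp => norm_ne_zero_iff.2 (ne j p hp)
    obtain ⟨C, hC⟩ := (cpt j).exists_bound_of_continuousOn hc
    exact ⟨C, fun p hp => (le_abs_self _).trans (hC p hp)⟩
  obtain ⟨c, hc⟩ := pow_unbounded_of_one_lt (B * B') (one_lt_two (α := ℝ))
  refine ⟨c, fun q hq p hp j p' hp' a ha => ?_⟩
  have h1 := hB q hq p hp
  have h2 := hB' j (Finset.mem_univ _) p' hp'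
  have h3 : ‖Z j p'‖ ≠ 0 := norm_ne_zero_iff.2 (ne j p' hp')
  have h4 : ‖a‖ = ‖Z q.1 p‖ * ‖Z j p'‖⁻¹ := by
    rw [ha, norm_smul, mul_assoc, mul_inv_cancel₀ h3, mul_one]
  rw [h4]
  exact (mul_le_mul h1 h2 (by positivity) hB0).trans hc.le

theorem bih_eval {α β : Type} (Q : MvPolynomial (α ⊕ β) ℂ) (k l : ℕ) (h : BiH Q k l)
    (a b : ℂ) (x : α → ℂ) (y : β → ℂ) :
    eval (Sum.elim (fun i => a * x i) fun i => b * y i) Q
      = a ^ k * b ^ l * eval (Sum.elim x y) Q := by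
  rw [eval_eq, eval_eq, Finset.mul_sum]
  refine Finset.sum_congr rfl fun m hm => ?_
  have h1 := h.1 (mem_support_iff.1 hm)
  have h2 := h.2 (mem_support_iff.1 hm)
  rw [Finsupp.weight_apply, Finsupp.sum] at h1 h2
  rw [← h1, ← h2, ← Finset.prod_pow_eq_pow_sum, ← Finset.prod_pow_eq_pow_sum, mul_left_comm,
    ← Finset.prod_mul_distrib, ← Finset.prod_mul_distrib]
  congr 1
  refine Finset.prod_congr rfl fun i _ => ?_
  rcases i with i | i <;> simp [mul_pow]

/-- exponents of the monomials which are used -/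
noncomputable def ex {κ : Type} [Fintype κ] (l : ℕ) (μ : (κ → Fin (l + 1)) × Fin (l + 1)) :
    Option κ ⊕ Fin 2 →₀ ℕ :=
  Finsupp.equivFunOnFinite.symm (Sum.elim
    (fun o => o.elim (Fintype.card κ * l - ∑ a, (μ.1 a : ℕ)) fun a => μ.1 a) ![l - μ.2, μ.2])

theorem ex_inj {κ : Type} [Fintype κ] (l : ℕ) : Function.Injective (ex (κ := κ) l) := by
  intro μ ν h
  refine Prod.ext (funext fun a => Fin.ext ?_) (Fin.ext ?_)
  · simpa [ex] using DFunLike.congr_fun h (.inl (some a))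
  · simpa [ex] using DFunLike.congr_fun h (.inr 1)

theorem ex_bih {κ : Type} [Fintype κ] (l : ℕ) (μ : (κ → Fin (l + 1)) × Fin (l + 1)) (c : ℂ) :
    BiH (monomial (ex l μ) c) (Fintype.card κ * l) l := by
  constructor
  · refine isWeightedHomogeneous_monomial _ _ _ ?_
    rw [Finsupp.weight_apply, Finsupp.sum_fintype _ _ (by simp)]
    have : ∑ a, (μ.1 a : ℕ) ≤ Fintype.card κ * l := by
      rw [← smul_eq_mul, ← Finset.card_univ]
      exact Finset.sum_le_card_nsmul _ _ _ fun a _ => Nat.lt_succ_iff.1 (μ.1 a).2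
    simp [ex, Fintype.sum_option]
    omega
  · refine isWeightedHomogeneous_monomial _ _ _ ?_
    rw [Finsupp.weight_apply, Finsupp.sum_fintype _ _ (by simp)]
    have := μ.2.2
    simp [ex]
    omega

theorem kernel {κ τ σ : Type} [Fintype κ] [Fintype τ] [Fintype σ] (j : ℕ)
    (T : τ → σ → MvPolynomial κ ℂ) (hT : ∀ μ q, (T μ q).totalDegree ≤ j)
    (hc : Fintype.card σ * (j + 1) ^ Fintype.card κ < Fintype.card τ) :
    ∃ a : τ → ℂ, a ≠ 0 ∧ ∀ q, ∑ μ, a μ • T μ q = 0 := by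
  classical
  let Φ : (τ → ℂ) →ₗ[ℂ] (σ × (κ → Fin (j + 1)) → ℂ) :=
    { toFun := fun a e => ∑ μ, a μ *
        coeff (Finsupp.equivFunOnFinite.symm fun i => (e.2 i : ℕ)) (T μ e.1)
      map_add' := fun a b => by
        ext e
        simp [add_mul, Finset.sum_add_distrib]
      map_smul' := fun c a => by
        ext e
        simp [Finset.mul_sum, mul_assoc] }
  have hk : LinearMap.ker Φ ≠ ⊥ := LinearMap.ker_ne_bot_of_finrank_lt (by simpa using hc)
  obtain ⟨a, ha, ha0⟩ := Submodule.exists_mem_ne_zero_of_ne_bot hk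
  refine ⟨a, ha0, fun q => ?_⟩
  ext m
  rw [coeff_sum, coeff_zero]
  simp only [coeff_smul, smul_eq_mul]
  by_cases hm : ∀ i, m i < j + 1
  · have h := congrFun (LinearMap.mem_ker.1 ha) (q, fun i => ⟨m i, hm i⟩)
    have e : (Finsupp.equivFunOnFinite.symm fun i => m i) = m := by
      ext i
      simp
    simpa [Φ, e] using h
  · refine Finset.sum_eq_zero fun μ _ => ?_
    by_contra h
    refine hm fun i => ?_
    have h1 : m ∈ (T μ q).support := mem_support_iff.2 (right_ne_zero_of_mul h)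
    have h2 := monomial_le_degreeOf i h1
    have h3 := degreeOf_le_totalDegree (T μ q) i
    have h4 := hT μ q
    omega

theorem count (m c n : ℕ) : ∃ l : ℕ, m * (c * (n * l + l) + 1) ^ n < (l + 1) ^ n * (l + 1) := by
  obtain ⟨l, hl⟩ : ∃ l, l = m * (c * (n + 1) + 1) ^ n := ⟨_, rfl⟩
  refine ⟨l, ?_⟩
  have h1 : c * (n * l + l) + 1 ≤ (c * (n + 1) + 1) * (l + 1) := by nlinarith [Nat.zero_le (c * n)]
  calc m * (c * (n * l + l) + 1) ^ n ≤ m * ((c * (n + 1) + 1) * (l + 1)) ^ n := by gcongr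
    _ = (l + 1) ^ n * l := by rw [mul_pow, ← mul_assoc, ← hl, mul_comm]
    _ < (l + 1) ^ n * (l + 1) := by gcongr; omega

end DepAux

open DepAux

theorem dep (h0 : OsgS) : DepS := by
  classical
  intro κ ι α β _ _ _ _ Ω K X Y hC s t
  obtain ⟨S, R, hS, hcov⟩ := cover Ω K hC.op hC.cpt hC.sub
  obtain ⟨c₁, hc₁⟩ := scal Ω K hC.cpt hC.sub X hC.holX hC.neX S R hS
  obtain ⟨c₂, hc₂⟩ := scal Ω K hC.cpt hC.sub Y hC.holY hC.neY S R hS
  obtain ⟨l, hl⟩ := count S.card (c₁ + c₂) (Fintype.card κ)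
  obtain ⟨k, hk⟩ : ∃ k, k = Fintype.card κ * l := ⟨_, rfl⟩
  obtain ⟨j, hj⟩ : ∃ j, j = (c₁ + c₂) * (k + l) := ⟨_, rfl⟩
  rw [← hk, ← hj] at hl
  have hjk : c₁ * k + c₂ * l ≤ j := by
    rw [hj, add_mul, mul_add, mul_add]
    omega
  let ev : ι → (κ → ℂ) → Option κ ⊕ Fin 2 → ℂ := fun i p =>
    Sum.elim (fun a => X i p (s a)) fun b => Y i p (t b)
  have hev : ∀ i v, DifferentiableOn ℂ (fun p => ev i p v) (Ω i) := by
    rintro i (v | v)
    · exact differentiableOn_pi.1 (hC.holX i) _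
    · exact differentiableOn_pi.1 (hC.holY i) _
  have hol : ∀ (Q : MvPolynomial (Option κ ⊕ Fin 2) ℂ) i,
      DifferentiableOn ℂ (fun p => eval (ev i p) Q) (Ω i) := by
    intro Q i
    induction Q using MvPolynomial.induction_on with
    | C a => simpa only [eval_C] using differentiableOn_const a
    | add P Q hP hQ => simpa only [map_add] using hP.fun_add hQ
    | mul_X P v hP => simpa only [map_mul, eval_X] using hP.fun_mul (hev i v)
  have hT : ∀ (μ : (κ → Fin (l + 1)) × Fin (l + 1)) (q : S), ∃ P : MvPolynomial κ ℂ,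
      P.totalDegree ≤ j ∧ (fun y => eval (ev q.1.1 (q.1.2 + y)) (monomial (ex l μ) 1) - eval y P)
        =O[𝓝 0] fun y => ‖y‖ ^ (j + 1) := fun μ q =>
    taylor (fun p => eval (ev q.1.1 p) (monomial (ex l μ) 1)) q.1.2
      (h0 _ _ _ _ (hC.op _) (hol _ _) _ ((hS q q.2).2 (mem_closedBall_self (hS q q.2).1.le))) j
  choose T hTd hTO using hT
  obtain ⟨a, ha0, ha⟩ := kernel j T hTd (by simpa using hl)
  obtain ⟨Q, hQ⟩ : ∃ Q : MvPolynomial (Option κ ⊕ Fin 2) ℂ,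
      Q = ∑ μ, monomial (ex l μ) (a μ) := ⟨_, rfl⟩
  have hbi : BiH Q k l := by
    rw [hQ, hk]
    exact ⟨IsWeightedHomogeneous.sum _ _ _ fun μ _ => (ex_bih l μ _).1,
      IsWeightedHomogeneous.sum _ _ _ fun μ _ => (ex_bih l μ _).2⟩
  have hne : Q ≠ 0 := by
    intro h
    refine ha0 (funext fun μ => ?_)
    have h1 := congrArg (coeff (ex l μ)) hQ
    rw [h, coeff_zero, coeff_sum] at h1
    simpa [coeff_monomial, (ex_inj l).eq_iff] using h1.symm
  have hO : ∀ i c, (i, c) ∈ S →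
      (fun y => eval (ev i (c + y)) Q) =O[𝓝 0] fun y => ‖y‖ ^ (j + 1) := by
    intro i c hq
    refine (IsBigO.sum (s := Finset.univ)
      fun μ _ => (hTO μ ⟨(i, c), hq⟩).const_mul_left (a μ)).congr_left fun y => ?_
    have h1 := congrArg (eval y) (ha ⟨(i, c), hq⟩)
    simp only [map_sum, smul_eval, map_zero] at h1
    simp only [Finset.sum_apply, mul_sub, Finset.sum_sub_distrib, h1, sub_zero, hQ, map_sum,
      eval_monomial, one_mul]
  have hm : ∀ (i i' : ι) (p p' : κ → ℂ) (a b : ℂ), X i p = a • X i' p' → Y i p = b • Y i' p' →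
      eval (ev i p) Q = a ^ k * b ^ l * eval (ev i' p') Q := by
    intro i i' p p' a b h1 h2
    rw [← bih_eval Q k l hbi]
    simp only [ev, h1, h2, Pi.smul_apply, smul_eq_mul]
  have step : ∀ M : ℝ, 0 ≤ M → (∀ i, ∀ p ∈ K i, ‖eval (ev i p) Q‖ ≤ M) →
      ∀ i, ∀ p ∈ K i, ‖eval (ev i p) Q‖ ≤ M * (1 / 2) := by
    intro M hM0 hM i p hp
    obtain ⟨c, hc, hpc⟩ := hcov i p hp
    have hsub : ball c (R (i, c)) ⊆ Ω i := ball_subset_closedBall.trans (hS _ hc).2
    have hb : ∀ z ∈ ball c (R (i, c)), ‖eval (ev i z) Q‖ ≤ 2 ^ j * M := by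
      intro z hz
      have hz' := isOpen_ball.inter_closure ⟨hz, hC.mtch i (hsub hz)⟩
      refine ContinuousWithinAt.closure_le (g := fun _ => (2 : ℝ) ^ j * M)
        (f := fun p => ‖eval (ev i p) Q‖) hz' ?_ continuousWithinAt_const ?_
      · exact (((hol Q i).continuousOn.continuousAt
          ((hC.op i).mem_nhds (hsub hz))).norm).continuousWithinAt
      · rintro w ⟨hw, -, i', p', hp', a, b, h1, h2⟩
        have e1 := hc₁ _ hc w (ball_subset_closedBall hw) i' p' hp' a h1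
        have e2 := hc₂ _ hc w (ball_subset_closedBall hw) i' p' hp' b h2
        rw [hm i i' w p' a b h1 h2, norm_mul, norm_mul, norm_pow, norm_pow]
        refine mul_le_mul ?_ (hM i' p' hp') (norm_nonneg _) (by positivity)
        calc ‖a‖ ^ k * ‖b‖ ^ l ≤ (2 ^ c₁) ^ k * (2 ^ c₂) ^ l := by gcongr
          _ = 2 ^ (c₁ * k + c₂ * l) := by rw [pow_add, pow_mul, pow_mul]
          _ ≤ 2 ^ j := pow_le_pow_right₀ one_le_two hjk
    have h := schwarz (fun z => eval (ev i z) Q) c (R (i, c)) _ j ((hol Q i).mono hsub) hb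
      (hO i c hc) (hS _ hc).1 p hpc
    refine h.trans (le_of_eq ?_)
    rw [pow_succ, one_div, inv_pow]
    field_simp
  obtain ⟨M, hM0, hM⟩ := unif Finset.univ K (fun i p => ‖eval (ev i p) Q‖) fun i _ =>
    (hC.cpt i).exists_bound_of_continuousOn ((hol Q i).continuousOn.mono (hC.sub i))
  have hn : ∀ n : ℕ, ∀ i, ∀ p ∈ K i, ‖eval (ev i p) Q‖ ≤ M * (1 / 2) ^ n := by
    intro n
    induction n with
    | zero => simpa using hM
    | succ n ih =>
      rw [pow_succ, ← mul_assoc]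
      exact step _ (by positivity) ih
  have hK : ∀ i, ∀ p ∈ K i, eval (ev i p) Q = 0 := by
    intro i p hp
    have h1 : Tendsto (fun n : ℕ => M * (1 / 2 : ℝ) ^ n) atTop (𝓝 (M * 0)) :=
      (tendsto_pow_atTop_nhds_zero_of_lt_one (by norm_num) (by norm_num)).const_mul M
    rw [mul_zero] at h1
    exact norm_le_zero_iff.1 (ge_of_tendsto' h1 fun n => hn n i p hp)
  refine ⟨Q, k, l, hne, hbi, fun i p hp => ?_⟩
  refine norm_le_zero_iff.1 (ContinuousWithinAt.closure_le (g := fun _ => (0 : ℝ))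
    (f := fun p => ‖eval (ev i p) Q‖) (hC.mtch i hp) ?_ continuousWithinAt_const ?_)
  · exact (((hol Q i).continuousOn.continuousAt ((hC.op i).mem_nhds hp)).norm).continuousWithinAt
  · rintro w ⟨-, i', p', hp', a, b, h1, h2⟩
    rw [hm i i' w p' a b h1 h2, hK i' p' hp', mul_zero, norm_zero]

end Pool.Agent.Lib.MP_caab05_ag.GB
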