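import Mathlib
import Pool.Agent.Lib.MP_caab05_ag.GB.Stmt

/-! A number killed by all derivations which kill `F` is algebraic over `F`. -/

namespace Pool.Agent.Lib.MP_caab05_ag.GB

namespace DerAux

open Polynomial TrivSqZeroExt

theorem smooth (K L : Type) [Field K] [Field L] [Algebra K L] [CharZero K] :
    Algebra.FormallySmooth K L := by
  obtain ⟨s, hs⟩ := exists_isTranscendenceBasis K L
  have h1 : Algebra.IsAlgebraic (IntermediateField.adjoin K (Set.range ((↑) : s → L))) L :=
    hs.isAlgebraic_field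
  have h2 : CharZero (IntermediateField.adjoin K (Set.range ((↑) : s → L))) :=
    algebraRat.charZero _
  exact Algebra.FormallySmooth.of_algebraicIndependent_of_isSeparable hs.1

theorem lift_ringHom {K L B : Type} [Field K] [CharZero K] [Field L] [CommRing B]
    (φ : K →+* L) (ψ : K →+* B) (g : B →+* L) (hg : Function.Surjective g)
    (hn : IsNilpotent (RingHom.ker g)) (h : ∀ k, g (ψ k) = φ k) :
    ∃ f : L →+* B, (∀ y, g (f y) = y) ∧ ∀ k, f (φ k) = ψ k := by
  let _ : Algebra K L := φ.toAlgebra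
  let _ : Algebra K B := ψ.toAlgebra
  have := smooth K L
  let g' : B →ₐ[K] L := { g with commutes' := h }
  let f := Algebra.FormallySmooth.liftOfSurjective (AlgHom.id K L) g' hg hn
  refine ⟨f.toRingHom, fun y => ?_, fun k => f.commutes k⟩
  exact Algebra.FormallySmooth.liftOfSurjective_apply (AlgHom.id K L) g' hg hn y

/-- the derivation attached to a section of the dual numbers -/
noncomputable def ofSec (f : ℂ →+* TrivSqZeroExt ℂ ℂ) (hf : ∀ y, (f y).fst = y) : Der :=
  Derivation.mk'
    ((AddMonoidHom.mk' (fun y => (f y).snd) (fun a b => by simp)).toRatLinearMap)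
    (fun a b => by
      simp only [AddMonoidHom.coe_toRatLinearMap, AddMonoidHom.mk'_apply, map_mul, snd_mul, hf,
        smul_eq_mul, MulOpposite.smul_eq_mul_unop, MulOpposite.unop_op]
      ring)

theorem ofSec_apply (f : ℂ →+* TrivSqZeroExt ℂ ℂ) (hf : ∀ y, (f y).fst = y) (y : ℂ) :
    ofSec f hf y = (f y).snd := rfl

theorem nil : IsNilpotent (RingHom.ker (fstHom ℂ ℂ ℂ).toRingHom) := by
  refine ⟨2, ?_⟩
  rw [Submodule.pow_succ, Submodule.pow_one, Ideal.zero_eq_bot, eq_bot_iff, Ideal.mul_le]
  intro a ha b hb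
  have ha' : a.fst = 0 := ha
  have hb' : b.fst = 0 := hb
  rw [Ideal.mem_bot]
  ext <;> simp [ha', hb']

end DerAux

open Polynomial TrivSqZeroExt DerAux in
theorem der : DerS := by
  intro F x h
  by_contra hx
  let φ : F[X] →+* ℂ := eval₂RingHom (algebraMap F ℂ) x
  have hφ : Function.Injective φ := by
    have : Function.Injective (aeval x : F[X] →ₐ[F] ℂ) :=
      (transcendental_iff_injective (R := F) (x := x)).1 hx
    exact this
  let ψ : F[X] →+* TrivSqZeroExt ℂ ℂ :=
    eval₂RingHom ((inlHom ℂ ℂ).comp (algebraMap F ℂ)) (inl x + inr 1)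
  have hψ : (fstHom ℂ ℂ ℂ).toRingHom.comp ψ = φ := by
    apply Polynomial.ringHom_ext
    · intro a
      simp [φ, ψ]
    · simp [φ, ψ]
  have hψ' : ∀ p, (ψ p).fst = φ p := fun p => RingHom.congr_fun hψ p
  have hu : ∀ y : nonZeroDivisors F[X], IsUnit (ψ y) := by
    intro y
    rw [isUnit_iff_isUnit_fst, hψ', isUnit_iff_ne_zero]
    intro h0
    exact nonZeroDivisors.coe_ne_zero y (hφ (by rw [h0, map_zero]))
  let φK : FractionRing F[X] →+* ℂ := IsFractionRing.lift hφ
  let ψK : FractionRing F[X] →+* TrivSqZeroExt ℂ ℂ := IsLocalization.lift hu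
  have hK : (fstHom ℂ ℂ ℂ).toRingHom.comp ψK = φK := by
    apply IsLocalization.ringHom_ext (nonZeroDivisors F[X])
    rw [RingHom.comp_assoc, IsLocalization.lift_comp, hψ]
    refine RingHom.ext fun p => ?_
    rw [RingHom.comp_apply, IsFractionRing.lift_algebraMap]
  have : CharZero (FractionRing F[X]) := φK.charZero
  obtain ⟨f, hf0, hf2⟩ := lift_ringHom φK ψK (fstHom ℂ ℂ ℂ).toRingHom
    (fun y => ⟨inl y, rfl⟩) nil (fun k => RingHom.congr_fun hK k)
  have hf1 : ∀ y, (f y).fst = y := hf0
  have key : ∀ p : F[X], f (φ p) = ψ p := by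
    intro p
    have := hf2 (algebraMap _ _ p)
    rwa [IsFractionRing.lift_algebraMap, IsLocalization.lift_eq] at this
  have h0 := h (ofSec f hf1) (by
    intro y hy
    have := key (C ⟨y, hy⟩)
    rw [ofSec_apply]
    have e : φ (C ⟨y, hy⟩) = y := by simp [φ]
    rw [e] at this
    rw [this]
    simp [ψ])
  have := key X
  have e : φ X = x := by simp [φ]
  rw [e] at this
  rw [ofSec_apply, this] at h0
  simp [ψ] at h0

end Pool.Agent.Lib.MP_caab05_ag.GB
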