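import Mathlib
import Pool.Agent.Lib.MP_caab05_ag.GB.Stmt2

/-! The logarithmic period symbol. -/

namespace Pool.Agent.Lib.MP_caab05_ag.GB

open MvPolynomial Filter Topology Asymptotics Complex Matrix

namespace EllAux

variable {g g' : ℕ} {L : Type} [Field L] [NumberField L]

/-- the period map as a linear map -/
noncomputable def perL (τ : Mat g) : W g →ₗ[ℂ] V g where
  toFun := per τ
  map_add' x y := by
    have h1 : lft (x + y) = lft x + lft y := rfl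
    have h2 : rgt (x + y) = rgt x + rgt y := rfl
    simp only [per, app, h1, h2, mulVec_add]
    abel
  map_smul' c x := by
    have h1 : lft (c • x) = c • lft x := rfl
    have h2 : rgt (c • x) = c • rgt x := rfl
    simp only [per, app, h1, h2, mulVec_smul, smul_add, RingHom.id_apply]

theorem perL_apply (τ : Mat g) (x : W g) : perL τ x = per τ x := rfl

theorem per_smul (τ : Mat g) (c : ℂ) (x : W g) : per τ (c • x) = c • per τ x :=
  (perL τ).map_smul c x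

theorem per_sum (τ : Mat g) (X : Emb L → ℂ) (v : Emb L → W g) :
    per τ (∑ φ : Emb L, X φ • v φ) = ∑ φ : Emb L, X φ • per τ (v φ) := by
  simp only [← perL_apply, map_sum, map_smul]

/-- the inclusion of the second factor -/
def inrL (g : ℕ) : V g →ₗ[ℂ] W g where
  toFun u := Sum.elim 0 u
  map_add' x y := by
    ext i
    rcases i with i | i <;> simp
  map_smul' c x := by
    ext i
    rcases i with i | i <;> simp

theorem per_inr (τ : Mat g) (u : V g) : per τ (inrL g u) = u := by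
  have h1 : lft (inrL g u) = 0 := rfl
  have h2 : rgt (inrL g u) = u := rfl
  simp only [per, app, h1, h2, mulVec_zero, zero_add]

theorem beta_smul (D : Der) (τ M K : Mat g) (c : ℂ) (x : W g) :
    beta D τ M K (c • x) = c • beta D τ M K x := by
  have h1 : lft (c • x) = c • lft x := rfl
  simp only [beta, per_smul, app, h1, mulVec_smul, smul_add]

theorem model_ker {Φ : Set (Emb L)} {τ : Mat g} {v : Emb L → W g} (h : IsModel Φ τ v)
    (ψ : Emb L) (hψ : ψ ∉ Φ) : per τ (v ψ) = 0 := by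
  classical
  have h1 := (h.ker (Pi.single ψ 1)).2 fun φ hφ =>
    Pi.single_eq_of_ne (fun he : φ = ψ => hψ (he ▸ hφ)) _
  rwa [Finset.sum_eq_single ψ (fun b _ hb => by rw [Pi.single_eq_of_ne hb, zero_smul])
    (fun hb => (hb (Finset.mem_univ _)).elim), Pi.single_eq_same, one_smul] at h1

theorem transfer (h3 : HomS) {D : Der} {Φ : Set (Emb L)} {τ M K N : Mat g} {c : ℂ}
    {v : Emb L → W g} {τ' M' K' N' : Mat g'} {c' : ℂ} {v' : Emb L → W g'} (h : IsModel Φ τ v)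
    (ht : IsTw D τ M K N c) (hs : Sg τ') (ht' : IsTw D τ' M' K' N' c') (hr : RatF v')
    (hk : ∀ ψ, ψ ∉ Φ → per τ' (v' ψ) = 0) : ∃ a : V g →ₗ[ℂ] V g',
      (∀ ψ, a (per τ (v ψ)) = per τ' (v' ψ)) ∧
      ∀ ψ, a (beta D τ M K (v ψ)) = beta D τ' M' K' (v' ψ) := by
  have hli : LinearIndependent ℂ v :=
    Fintype.linearIndependent_iff.2 fun X hX i => congrFun (h.indep X hX) i
  have hsp : ⊤ ≤ Submodule.span ℂ (Set.range v) := by
    intro w _
    obtain ⟨X, rfl⟩ := h.span w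
    exact Submodule.sum_mem _ fun φ _ =>
      Submodule.smul_mem _ _ (Submodule.subset_span ⟨φ, rfl⟩)
  obtain ⟨ρ, hρ⟩ : ∃ ρ : W g →ₗ[ℂ] W g', ∀ ψ, ρ (v ψ) = v' ψ := by
    refine ⟨(Module.Basis.mk hli hsp).constr ℂ v', fun ψ => ?_⟩
    have h1 := (Module.Basis.mk hli hsp).constr_basis ℂ v' ψ
    rwa [Module.Basis.mk_apply] at h1
  have hrat : ∀ w, IsRat w → IsRat (ρ w) := by
    intro w hw
    obtain ⟨x, rfl⟩ := h.surj w hw
    simp only [map_sum, map_smul, hρ]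
    exact hr x
  have hker : ∀ w, per τ w = 0 → per τ' (ρ w) = 0 := by
    intro w hw
    obtain ⟨X, rfl⟩ := h.span w
    have h1 := (h.ker X).1 hw
    simp only [map_sum, map_smul, hρ]
    rw [per_sum]
    refine Finset.sum_eq_zero fun φ _ => ?_
    by_cases hφ : φ ∈ Φ
    · rw [h1 φ hφ, zero_smul]
    · rw [hk φ hφ, smul_zero]
  have ha : ∀ w, (perL τ' ∘ₗ ρ ∘ₗ inrL g) (per τ w) = per τ' (ρ w) := by
    intro w
    have h1 := hker (inrL g (per τ w) - w) (by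
      rw [← perL_apply, map_sub, perL_apply, perL_apply, per_inr, sub_self])
    rw [map_sub, ← perL_apply, map_sub, sub_eq_zero] at h1
    exact h1
  refine ⟨perL τ' ∘ₗ ρ ∘ₗ inrL g, fun ψ => by rw [ha, hρ], fun ψ => ?_⟩
  rw [h3 g g' D τ M K N c τ' M' K' N' c' _ ρ h.sg hs ht ht' hrat ha, hρ]

theorem eigen (h3 : HomS) {D : Der} {Φ : Set (Emb L)} {τ M K N : Mat g} {c : ℂ}
    {v : Emb L → W g} (h : IsModel Φ τ v) (ht : IsTw D τ M K N c) (φ : Emb L) :
    ∃ l : ℂ, beta D τ M K (v φ) = l • per τ (v φ) := by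
  obtain ⟨X, hX⟩ := h.span (inrL g (beta D τ M K (v φ)))
  have h1 : beta D τ M K (v φ) = ∑ ψ : Emb L, X ψ • per τ (v ψ) := by
    rw [← per_sum, ← hX, per_inr]
  have h2 : ∀ α : L, ∀ ψ ∈ Φ, X ψ * (ψ α - φ α) = 0 := by
    intro α
    obtain ⟨a, ha, hb⟩ := transfer h3 (v' := fun ψ => ψ α • v ψ) h ht h.sg ht
      (fun x => by
        have h4 := h.rat (x * α)
        simpa only [map_mul, smul_smul] using h4)
      (fun ψ hψ => by rw [per_smul, model_ker h ψ hψ, smul_zero])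
    have h4 := hb φ
    rw [beta_smul, h1] at h4
    simp only [map_sum, map_smul, ha, per_smul, Finset.smul_sum, smul_smul] at h4
    refine (h.ker fun ψ => X ψ * (ψ α - φ α)).1 ?_
    rw [per_sum]
    simp only [mul_sub, sub_smul, Finset.sum_sub_distrib, h4]
    rw [sub_eq_zero]
    exact Finset.sum_congr rfl fun ψ _ => by rw [mul_comm]
  refine ⟨X φ, h1.trans (Finset.sum_eq_single φ (fun ψ _ hψ => ?_)
    fun hb => (hb (Finset.mem_univ _)).elim)⟩
  by_cases hΦ : ψ ∈ Φ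
  · obtain ⟨α, hα⟩ := DFunLike.ne_iff.1 hψ
    rw [(mul_eq_zero.1 (h2 α ψ hΦ)).resolve_right (sub_ne_zero.2 hα), zero_smul]
  · rw [model_ker h ψ hΦ, smul_zero]

theorem spec (h2 : TwMS) (h3 : HomS) (h6 : ModS) (c : L ≃ₐ[ℚ] L) (Φ : Set (Emb L)) (D : Der)
    (hc : IsCj c) (hΦ : IsType Φ) (φ : Emb L) : Ell D Φ φ (ell D Φ φ) := by
  refine Classical.epsilon_spec (p := Ell D Φ φ) ?_
  obtain ⟨g, τ, v, h⟩ := h6 L c Φ hc hΦ
  obtain ⟨M, K, N, c₀, ht⟩ := h2 g D τ h.sg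
  obtain ⟨l, hl⟩ := eigen h3 h ht φ
  refine ⟨l, fun g' τ' M' K' N' c' v' hs ht' hr hk => ?_⟩
  obtain ⟨a, ha, hb⟩ := transfer h3 h ht hs ht' hr hk
  rw [← hb, hl, map_smul, ha]

theorem comp_symm (σ : L ≃ₐ[ℚ] L) (ψ : Emb L) :
    (ψ.comp (σ.symm : L →+* L)).comp (σ : L →+* L) = ψ := by
  ext x
  simp

theorem comp_symm' (σ : L ≃ₐ[ℚ] L) (ψ : Emb L) :
    (ψ.comp (σ : L →+* L)).comp (σ.symm : L →+* L) = ψ := by
  ext x
  simp

theorem ratf_comp {v : Emb L → W g} (h : RatF v) (σ : L ≃ₐ[ℚ] L) :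
    RatF fun ψ : Emb L => v (ψ.comp (σ : L →+* L)) := by
  intro x
  have h1 := h (σ.symm x)
  let e : Emb L ≃ Emb L :=
    ⟨fun ψ => ψ.comp (σ : L →+* L), fun ψ => ψ.comp (σ.symm : L →+* L), comp_symm' σ, comp_symm σ⟩
  rw [← e.sum_comp] at h1
  simpa [e] using h1

theorem ell_comp (Φ : Set (Emb L)) (D : Der) (σ : L ≃ₐ[ℚ] L) (φ : Emb L) :
    ell D {ψ | ψ.comp (σ : L →+* L) ∈ Φ} φ = ell D Φ (φ.comp (σ : L →+* L)) := by
  unfold ell
  congr 1
  funext l
  refine propext ⟨fun h g τ M K N c v hs ht hr hk => ?_, fun h g τ M K N c v hs ht hr hk => ?_⟩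
  · exact h g τ M K N c (fun ψ => v (ψ.comp (σ : L →+* L))) hs ht (ratf_comp hr σ)
      fun ψ hψ => hk (ψ.comp (σ : L →+* L)) hψ
  · have h1 := h g τ M K N c (fun ψ => v (ψ.comp (σ.symm : L →+* L))) hs ht (ratf_comp hr σ.symm)
      fun ψ hψ => hk (ψ.comp (σ.symm : L →+* L)) fun h2 => hψ (by
        rw [← comp_symm σ ψ]; exact h2)
    simpa only [comp_symm'] using h1

omit [NumberField L] in
theorem cj_cj (φ : Emb L) : cj (cj φ) = φ := by
  ext x
  simp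

theorem D_per {D : Der} {τ : Mat g} {x : W g} (h1 : ∀ i j, D (τ i j) = 0) (h2 : ∀ j, D (x j) = 0)
    (k : Fin g) : D (per τ x k) = 0 := by
  have h3 : per τ x k = ∑ j, τ k j * x (.inl j) + x (.inr k) := rfl
  simp [h3, h1, h2]

end EllAux

open EllAux in
theorem ellS (h1 : PolS) (h2 : TwMS) (h3 : HomS) (h4 : XDS) (_h5 : WeakS) (h6 : ModS) : EllS := by
  refine ⟨fun L _ _ c Φ D hc hΦ φ => spec h2 h3 h6 c Φ D hc hΦ φ, fun L _ _ Φ D σ φ => ?_,
    fun L _ _ Φ D hΦ φ => ?_, fun L _ _ c Φ D g τ v hc hΦ h => ?_⟩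
  · have h7 : cj (φ.comp (σ : L →+* L)) = (cj φ).comp (σ : L →+* L) := rfl
    unfold elt
    rw [h7, ell_comp, ell_comp]
    rfl
  · unfold elt
    by_cases hφ : φ ∈ Φ
    · rw [if_pos hφ, if_neg ((hΦ φ).1 hφ), cj_cj]
    · rw [if_neg hφ, if_pos (not_not.1 fun h7 => hφ ((hΦ φ).2 h7)), neg_neg]
  · obtain ⟨M, K, N, c₀, ht⟩ := h2 g D τ h.sg
    have h7 : ∀ φ, beta D τ M K (v φ) = ell D Φ φ • per τ (v φ) := fun φ =>
      spec h2 h3 h6 c Φ D hc hΦ φ g τ M K N c₀ v h.sg ht h.rat (model_ker h)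
    have h8 : ∀ φ j, D (v φ j) = 0 := fun φ j => h1.D_alg D _ (h.alg φ j)
    obtain ⟨rfl, h9⟩ := h4.rigid g D τ M K {f | ∃ ψ, ψ ∉ Φ ∧ f = v ψ} (by
      rintro _ ⟨ψ, hψ, rfl⟩
      exact ⟨h8 ψ, model_ker h ψ hψ, by rw [h7, model_ker h ψ hψ, smul_zero]⟩) (by
      intro w hw
      obtain ⟨X, rfl⟩ := h.span w
      refine Submodule.sum_mem _ fun φ _ => ?_
      by_cases hφ : φ ∈ Φ
      · rw [(h.ker X).1 hw φ hφ, zero_smul]
        exact Submodule.zero_mem _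
      · exact Submodule.smul_mem _ _ (Submodule.subset_span ⟨φ, hφ, rfl⟩))
    refine ⟨M, N, c₀, ht, fun φ k => D_per h9 (h8 φ) k, fun φ => ?_⟩
    rw [← h7]
    ext k
    simp [beta, app, h9, mulVec, dotProduct]

end Pool.Agent.Lib.MP_caab05_ag.GB
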