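import Mathlib
import Pool.Agent.Lib.MP_caab05_ag.GB.Stmt

/-! The product formula for theta series and Riemann's relation. -/

namespace Pool.Agent.Lib.MP_caab05_ag.GB

open Complex

namespace FacAux

variable {g : ℕ}

/-- general term of the theta series -/
noncomputable def E (τ : Mat g) (u : V g) (m : Fin g → ℤ) : ℂ :=
  cexp (Real.pi * I * (∑ i, ∑ j, (m i : ℂ) * τ i j * (m j : ℂ)) / 4 +
    2 * Real.pi * I * ∑ i, (m i : ℂ) * u i)

/-- general term of the series `AA` -/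
noncomputable def F (τ : Mat g) (w : V g) (m : Fin g → ℤ) : ℂ :=
  cexp (Real.pi * I * (∑ i, ∑ j, (m i : ℂ) * τ i j * (m j : ℂ)) / 8 +
    Real.pi * I * ∑ i, (m i : ℂ) * w i)

theorem sumE (h1 : SumS) {τ : Mat g} (hτ : Pos τ) (u : V g) : Summable fun m => ‖E τ u m‖ := by
  refine (h1 g τ hτ (1 / 4) (by norm_num) u).congr fun m => ?_
  unfold E
  congr 2
  push_cast
  ring

theorem sumF (h1 : SumS) {τ : Mat g} (hτ : Pos τ) (w : V g) : Summable fun m => ‖F τ w m‖ := by
  refine (h1 g τ hτ (1 / 8) (by norm_num) ((1 / 2 : ℂ) • w)).congr fun m => ?_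
  unfold F
  have e : ∑ i, (m i : ℂ) * ((1 / 2 : ℂ) • w) i = 1 / 2 * ∑ i, (m i : ℂ) * w i := by
    rw [Finset.mul_sum]
    refine Finset.sum_congr rfl fun i _ => ?_
    rw [Pi.smul_apply, smul_eq_mul]
    ring
  rw [e]
  congr 2
  push_cast
  ring

theorem EF (τ : Mat g) (x y : V g) (k l : Fin g → ℤ) :
    E τ x k * E τ y l = F τ (x + y) (k + l) * F τ (x - y) (k - l) := by
  have e1 : (∑ i, ∑ j, ((k + l) i : ℂ) * τ i j * ((k + l) j : ℂ)) +
      ∑ i, ∑ j, ((k - l) i : ℂ) * τ i j * ((k - l) j : ℂ) =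
      2 * (∑ i, ∑ j, (k i : ℂ) * τ i j * (k j : ℂ)) +
        2 * ∑ i, ∑ j, (l i : ℂ) * τ i j * (l j : ℂ) := by
    simp only [Finset.mul_sum, ← Finset.sum_add_distrib]
    refine Finset.sum_congr rfl fun i _ => Finset.sum_congr rfl fun j _ => ?_
    simp only [Pi.add_apply, Pi.sub_apply]
    push_cast
    ring
  have e2 : (∑ i, ((k + l) i : ℂ) * (x + y) i) + ∑ i, ((k - l) i : ℂ) * (x - y) i =
      2 * (∑ i, (k i : ℂ) * x i) + 2 * ∑ i, (l i : ℂ) * y i := by
    simp only [Finset.mul_sum, ← Finset.sum_add_distrib]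
    refine Finset.sum_congr rfl fun i _ => ?_
    simp only [Pi.add_apply, Pi.sub_apply]
    push_cast
    ring
  unfold E F
  rw [← Complex.exp_add, ← Complex.exp_add]
  congr 1
  linear_combination (-(Real.pi * I / 8)) * e1 - Real.pi * I * e2

/-- the congruence condition -/
def Cd (a : Fin g → ℤ) (η : Fin g → Fin 2) (k : Fin g → ℤ) : Prop :=
  ∀ j, (k j : ZMod 4) = ((a j + 2 * (η j : ℕ) : ℤ) : ZMod 4)

instance (a : Fin g → ℤ) (η : Fin g → Fin 2) (k : Fin g → ℤ) : Decidable (Cd a η k) :=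
  inferInstanceAs (Decidable (∀ j, (k j : ZMod 4) = ((a j + 2 * (η j : ℕ) : ℤ) : ZMod 4)))

theorem Cd_iff (a : Fin g → ℤ) (η : Fin g → Fin 2) (k : Fin g → ℤ) :
    Cd a η k ↔ ∀ j, k j % 4 = (a j + 2 * (η j : ℕ)) % 4 :=
  forall_congr' fun _ => ZMod.intCast_eq_intCast_iff' _ _ 4

/-- restricted general term -/
noncomputable def T (τ : Mat g) (u : V g) (a : Fin g → ℤ) (η : Fin g → Fin 2)
    (k : Fin g → ℤ) : ℂ := if Cd a η k then E τ u k else 0

theorem th_eq (τ : Mat g) (u : V g) (a : Fin g → ℤ) (η : Fin g → Fin 2) :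
    th τ u (fun j => ((a j + 2 * (η j : ℕ) : ℤ) : ZMod 4)) = ∑' k, T τ u a η k := rfl

theorem sumT (h1 : SumS) {τ : Mat g} (hτ : Pos τ) (u : V g) (a : Fin g → ℤ) (η : Fin g → Fin 2) :
    Summable fun k => ‖T τ u a η k‖ := by
  refine (sumE h1 hτ u).of_nonneg_of_le (fun _ => norm_nonneg _) fun k => ?_
  unfold T
  split_ifs
  · exact le_rfl
  · rw [norm_zero]
    exact norm_nonneg _

/-- signed general term of `AA` -/
noncomputable def S (τ : Mat g) (s : Fin g → Fin 2) (r : Fin g → ℤ) (w : V g)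
    (x : Fin g → ℤ) : ℂ :=
  (-1) ^ (∑ j, ((s j : ℕ) : ℤ) * x j) * F τ w fun i => r i + 4 * x i

theorem AA_eq (τ : Mat g) (s : Fin g → Fin 2) (r : Fin g → ℤ) (w : V g) :
    AA τ s r w = ∑' x, S τ s r w x := rfl

theorem sumS' (h1 : SumS) {τ : Mat g} (hτ : Pos τ) (s : Fin g → Fin 2) (r : Fin g → ℤ) (w : V g) :
    Summable fun x => ‖S τ s r w x‖ := by
  have hi : Function.Injective fun (x : Fin g → ℤ) i => r i + 4 * x i := by
    intro x y h
    funext i
    have := congrFun h i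
    dsimp only at this
    omega
  refine ((sumF h1 hτ w).comp_injective hi).congr fun x => ?_
  unfold S
  rw [norm_mul, norm_zpow, norm_neg, norm_one, one_zpow, one_mul]
  rfl

/-- the change of the summation variables -/
def io (a b : Fin g → ℤ) (z : (Fin g → ℤ) × (Fin g → ℤ)) : (Fin g → ℤ) × (Fin g → ℤ) :=
  (fun i => a i + 2 * (z.1 i + z.2 i), fun i => b i + 2 * (z.1 i - z.2 i))

theorem io_inj (a b : Fin g → ℤ) : Function.Injective (io a b) := by
  intro z z' h
  have h1 := fun i => congrFun (congrArg Prod.fst h) i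
  have h2 := fun i => congrFun (congrArg Prod.snd h) i
  simp only [io] at h1 h2
  refine Prod.ext (funext fun i => ?_) (funext fun i => ?_)
  · have := h1 i
    have := h2 i
    omega
  · have := h1 i
    have := h2 i
    omega

/-- general term of the double series -/
noncomputable def G (τ : Mat g) (s : Fin g → Fin 2) (x y : V g) (a b : Fin g → ℤ)
    (z : (Fin g → ℤ) × (Fin g → ℤ)) : ℂ :=
  ∑ η : Fin g → Fin 2, (-1) ^ (∑ j, (s j : ℕ) * (η j : ℕ)) * (T τ x a η z.1 * T τ y b η z.2)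

theorem G_supp (τ : Mat g) (s : Fin g → Fin 2) (x y : V g) (a b : Fin g → ℤ) :
    Function.support (G τ s x y a b) ⊆ Set.range (io a b) := by
  intro z hz
  obtain ⟨η, -, hη⟩ := Finset.exists_ne_zero_of_sum_ne_zero hz
  have h1 : Cd a η z.1 := by
    by_contra h
    exact hη (by rw [T, if_neg h, zero_mul, mul_zero])
  have h2 : Cd b η z.2 := by
    by_contra h
    exact hη (by rw [T.eq_1 τ y, if_neg h, mul_zero, mul_zero])
  rw [Cd_iff] at h1 h2
  refine ⟨(fun i => (z.1 i - a i + (z.2 i - b i)) / 4, fun i => (z.1 i - a i - (z.2 i - b i)) / 4),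
    Prod.ext (funext fun i => ?_) (funext fun i => ?_)⟩
  · have := h1 i
    have := h2 i
    simp only [io]
    omega
  · have := h1 i
    have := h2 i
    simp only [io]
    omega

theorem G_io (τ : Mat g) (s : Fin g → Fin 2) (x y : V g) (a b : Fin g → ℤ)
    (z : (Fin g → ℤ) × (Fin g → ℤ)) :
    G τ s x y a b (io a b z) = S τ s (a + b) (x + y) z.1 * S τ s (a - b) (x - y) z.2 := by
  obtain ⟨η, hη⟩ : ∃ η : Fin g → Fin 2, ∀ i, ((η i : ℕ) : ℤ) = (z.1 i + z.2 i) % 2 :=
    ⟨fun i => ⟨((z.1 i + z.2 i) % 2).toNat, by omega⟩, fun i => by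
      show ((((z.1 i + z.2 i) % 2).toNat : ℕ) : ℤ) = _
      omega⟩
  have c1 : Cd a η (io a b z).1 := by
    rw [Cd_iff]
    intro j
    have := hη j
    simp only [io]
    omega
  have c2 : Cd b η (io a b z).2 := by
    rw [Cd_iff]
    intro j
    have := hη j
    simp only [io]
    omega
  have e1 : (io a b z).1 + (io a b z).2 = fun i => (a + b) i + 4 * z.1 i := by
    funext i
    simp only [io, Pi.add_apply]
    ring
  have e2 : (io a b z).1 - (io a b z).2 = fun i => (a - b) i + 4 * z.2 i := by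
    funext i
    simp only [io, Pi.sub_apply]
    ring
  have e3 : (∑ j, ((s j : ℕ) : ℤ) * z.1 j) + ∑ j, ((s j : ℕ) : ℤ) * z.2 j =
      ((∑ j, (s j : ℕ) * (η j : ℕ) : ℕ) : ℤ) +
        2 * ∑ j, ((s j : ℕ) : ℤ) * ((z.1 j + z.2 j) / 2) := by
    push_cast
    rw [Finset.mul_sum, ← Finset.sum_add_distrib, ← Finset.sum_add_distrib]
    refine Finset.sum_congr rfl fun j _ => ?_
    rw [hη j]
    linear_combination (-((s j : ℕ) : ℤ)) * Int.emod_add_mul_ediv (z.1 j + z.2 j) 2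
  have e4 : (-1 : ℂ) ^ (∑ j, ((s j : ℕ) : ℤ) * z.1 j) * (-1) ^ (∑ j, ((s j : ℕ) : ℤ) * z.2 j) =
      (-1) ^ (∑ j, (s j : ℕ) * (η j : ℕ)) := by
    rw [← zpow_add₀ (by norm_num), e3, zpow_add₀ (by norm_num), zpow_natCast, zpow_mul]
    norm_num
  unfold G S
  rw [Finset.sum_eq_single η, T, T, if_pos c1, if_pos c2, EF, e1, e2, ← e4]
  · ring
  · intro η' _ hne
    have h : ¬Cd a η' (io a b z).1 := by
      intro h
      rw [Cd_iff] at h c1
      refine hne (funext fun j => Fin.ext ?_)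
      have := h j
      have := c1 j
      have := (η j).2
      have := (η' j).2
      omega
    rw [T, if_neg h, zero_mul, mul_zero]
  · intro h
    exact absurd (Finset.mem_univ _) h

end FacAux

open FacAux in
theorem fac (h1 : SumS) : FacS := by
  intro g τ hτ s x y a b
  rw [AA_eq, AA_eq, tsum_mul_tsum_of_summable_norm (sumS' h1 hτ.2 _ _ _) (sumS' h1 hτ.2 _ _ _)]
  simp only [← G_io]
  rw [(io_inj a b).tsum_eq (G_supp τ s x y a b)]
  unfold G UU
  rw [Summable.tsum_finsetSum fun η _ =>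
    (summable_mul_of_summable_norm (sumT h1 hτ.2 x a η) (sumT h1 hτ.2 y b η)).mul_left _]
  refine Finset.sum_congr rfl fun η _ => ?_
  rw [th_eq, th_eq, mul_assoc,
    tsum_mul_tsum_of_summable_norm (sumT h1 hτ.2 x a η) (sumT h1 hτ.2 y b η), tsum_mul_left]

theorem rie (h : FacS) : RieS := by
  intro g τ hτ s u v a₁ a₂ a₃ a₄ b₁ b₂ b₃ b₄ e1 e2 e3 e4
  have k : ∀ i, 2 * b₁ i = a₁ i + a₂ i + a₃ i + a₄ i ∧ 2 * b₂ i = a₁ i + a₂ i - a₃ i - a₄ i ∧
      2 * b₃ i = a₁ i - a₂ i + a₃ i - a₄ i ∧ 2 * b₄ i = a₁ i - a₂ i - a₃ i + a₄ i := fun i =>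
    ⟨congrFun e1 i, congrFun e2 i, congrFun e3 i, congrFun e4 i⟩
  have f1 : b₁ + b₂ = a₁ + a₂ := funext fun i => by
    have := k i
    simp only [Pi.add_apply]
    omega
  have f2 : b₁ - b₂ = a₃ + a₄ := funext fun i => by
    have := k i
    simp only [Pi.add_apply, Pi.sub_apply]
    omega
  have f3 : b₃ + b₄ = a₁ - a₂ := funext fun i => by
    have := k i
    simp only [Pi.add_apply, Pi.sub_apply]
    omega
  have f4 : b₃ - b₄ = a₃ - a₄ := funext fun i => by
    have := k i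
    simp only [Pi.sub_apply]
    omega
  have g1 : u + v + (u - v) = u + u := by abel
  have g2 : u + v - (u - v) = v + v := by abel
  rw [h g τ hτ, h g τ hτ, h g τ hτ, h g τ hτ, f1, f2, f3, f4, g1, g2, sub_self, sub_self, sub_self,
    add_zero]
  ring

end Pool.Agent.Lib.MP_caab05_ag.GB
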