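import Mathlib
import Pool.Agent.Lib.MP_caab05_ag.GB.Stmt2

/-! An algebraic relation on the unitary family. -/

namespace Pool.Agent.Lib.MP_caab05_ag.GB

open MvPolynomial Filter Topology Asymptotics Complex Matrix

namespace FamRelAux

theorem isOpen_pos (g : ℕ) : IsOpen {τ : Mat g | Pos τ} := by
  have hcl : IsClosed {q : Mat g × Metric.sphere (0 : Fin g → ℝ) 1 |
      ∑ i, ∑ j, q.2.1 i * (q.1 i j).im * q.2.1 j ≤ 0} := by
    apply isClosed_le _ continuous_const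
    have hx : ∀ i, Continuous fun q : Mat g × Metric.sphere (0 : Fin g → ℝ) 1 => q.2.1 i :=
      fun i => (continuous_apply i).comp (continuous_subtype_val.comp continuous_snd)
    have hm : ∀ i j, Continuous fun q : Mat g × Metric.sphere (0 : Fin g → ℝ) 1 =>
        (q.1 i j).im := fun i j => Complex.continuous_im.comp
      ((continuous_apply j).comp ((continuous_apply i).comp continuous_fst))
    exact continuous_finsetSum _ fun i _ => continuous_finsetSum _ fun j _ =>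
      ((hx i).mul (hm i j)).mul (hx j)
  have h2 := isClosedMap_fst_of_compactSpace _ hcl
  rw [← isClosed_compl_iff]
  have he : {τ : Mat g | Pos τ}ᶜ = Prod.fst '' {q : Mat g × Metric.sphere (0 : Fin g → ℝ) 1 |
      ∑ i, ∑ j, q.2.1 i * (q.1 i j).im * q.2.1 j ≤ 0} := by
    ext τ
    simp only [Set.mem_compl_iff, Set.mem_ofPred_eq, Set.mem_image, Prod.exists, Pos]
    constructor
    · intro h
      push Not at h
      obtain ⟨x, hx, hle⟩ := h
      have hn : ‖x‖ ≠ 0 := norm_ne_zero_iff.mpr hx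
      refine ⟨τ, ⟨‖x‖⁻¹ • x, ?_⟩, ?_, rfl⟩
      · simp [norm_smul, hn]
      · have : ∑ i, ∑ j, (‖x‖⁻¹ • x) i * (τ i j).im * (‖x‖⁻¹ • x) j =
            ‖x‖⁻¹ ^ 2 * ∑ i, ∑ j, x i * (τ i j).im * x j := by
          simp only [Pi.smul_apply, smul_eq_mul, Finset.mul_sum]
          refine Finset.sum_congr rfl fun i _ => Finset.sum_congr rfl fun j _ => by ring
        show ∑ i, ∑ j, (‖x‖⁻¹ • x) i * (τ i j).im * (‖x‖⁻¹ • x) j ≤ 0
        rw [this]
        exact mul_nonpos_of_nonneg_of_nonpos (by positivity) hle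
    · rintro ⟨σ, x, hle, rfl⟩ h
      have hx : x.1 ≠ 0 := by
        intro h0
        have := x.2
        rw [h0] at this
        simp at this
      exact absurd (h x.1 hx) (not_lt.mpr hle)
  rw [he]
  exact h2

variable {L : Type} [Field L] [NumberField L] {g : ℕ}

omit [NumberField L] in
theorem rr_pos (ξ : Fin 2 → L) (φ : Mx ξ) : 0 < rr ξ φ.1 := by
  unfold rr
  exact div_pos (neg_pos.mpr φ.2.2) φ.2.1

theorem isOpen_dom (ξ : Fin 2 → L) (t : ℝ) : IsOpen (Dom ξ t) := by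
  have : Dom ξ t = ⋂ φ : Mx ξ, {z : Mx ξ → ℂ | rr ξ φ.1 * ‖z φ‖ ^ 2 < t} := by
    ext z
    simp [Dom]
  rw [this]
  exact isOpen_iInter_of_finite fun φ => isOpen_lt (by fun_prop) continuous_const

omit [NumberField L] in
theorem zero_mem_dom (ξ : Fin 2 → L) : (0 : Mx ξ → ℂ) ∈ Dom ξ 1 := by
  intro φ
  simp

omit [NumberField L] in
theorem pre_dom (ξ : Fin 2 → L) : IsPreconnected (Dom ξ 1) := by
  have hs : StarConvex ℝ (0 : Mx ξ → ℂ) (Dom ξ 1) := by
    intro z hz a b ha hb hab φ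
    have h1 := hz φ
    have h2 := rr_pos ξ φ
    have hb1 : b ≤ 1 := by linarith
    simp only [smul_zero, zero_add, Pi.smul_apply, norm_smul, Real.norm_eq_abs, abs_of_nonneg hb]
    have h3 : b ^ 2 ≤ 1 := by nlinarith
    have h4 : 0 ≤ rr ξ φ.1 * ‖z φ‖ ^ 2 := by positivity
    calc rr ξ φ.1 * (b * ‖z φ‖) ^ 2 = b ^ 2 * (rr ξ φ.1 * ‖z φ‖ ^ 2) := by ring
      _ ≤ 1 * (rr ξ φ.1 * ‖z φ‖ ^ 2) := mul_le_mul_of_nonneg_right h3 h4
      _ < 1 := by linarith
  exact (hs.isPathConnected (zero_mem_dom ξ)).isConnected.isPreconnected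

/-- the compact part of the domain -/
def Kp (ξ : Fin 2 → L) (t : ℝ) : Set (Mx ξ → ℂ) := {z | ∀ φ, rr ξ φ.1 * ‖z φ‖ ^ 2 ≤ t}

omit [NumberField L] in
theorem isCompact_kp (ξ : Fin 2 → L) (t : ℝ) : IsCompact (Kp ξ t) := by
  have : Kp ξ t = Set.pi Set.univ fun φ : Mx ξ => {x : ℂ | rr ξ φ.1 * ‖x‖ ^ 2 ≤ t} := by
    ext z
    simp [Kp]
  rw [this]
  refine isCompact_univ_pi fun φ => ?_
  apply Metric.isCompact_of_isClosed_isBounded
  · exact isClosed_le (by fun_prop) continuous_const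
  · have h2 := rr_pos ξ φ
    refine (Metric.isBounded_closedBall (x := (0 : ℂ)) (r := t / rr ξ φ.1 + 1)).subset ?_
    intro x hx
    simp only [Set.mem_ofPred_eq] at hx
    simp only [Metric.mem_closedBall, dist_zero_right]
    have h3 : ‖x‖ ^ 2 ≤ t / rr ξ φ.1 := by
      rw [le_div_iff₀ h2]
      linarith
    nlinarith [sq_nonneg (‖x‖ - 1), norm_nonneg x]

open Classical in
theorem vec_two (v : Emb L → Fin 2 → W g) (ψ : Emb L) (a b : ℂ) :
    vec v (Pi.single ψ ![a, b]) = a • v ψ 0 + b • v ψ 1 := by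
  unfold vec
  rw [Finset.sum_eq_single ψ]
  · simp [Fin.sum_univ_two]
  · intro φ _ hφ
    simp [Pi.single_eq_of_ne hφ]
  · simp

omit [NumberField L] in
theorem cj_im (φ : Emb L) (x : L) : (cj φ x).im = -(φ x).im := by
  simp [cj, NumberField.ComplexEmbedding.conjugate_coe_eq]

theorem per_ne_one {ξ : Fin 2 → L} {v : Emb L → Fin 2 → W g} {τ : (Mx ξ → ℂ) → Mat g}
    (h : IsFam ξ v τ) (φ : Mx ξ) {z : Mx ξ → ℂ} (hz : z ∈ Dom ξ 1) :
    per (τ z) (v φ.1 1) ≠ 0 := by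
  classical
  intro h0
  have h1 := (h.ker z hz (Pi.single φ.1 ![0, 1])).mp (by rw [vec_two]; simpa using h0)
  have h2 := (h1.1 φ).1
  simp at h2

theorem per_ne_zero {ξ : Fin 2 → L} {v : Emb L → Fin 2 → W g} {τ : (Mx ξ → ℂ) → Mat g}
    (h : IsFam ξ v τ) (φ : Mx ξ) {z : Mx ξ → ℂ} (hz : z ∈ Dom ξ 1) :
    per (τ z) (v (cj φ.1) 0) ≠ 0 := by
  classical
  intro h0
  have h1 := (h.ker z hz (Pi.single (cj φ.1) ![1, 0])).mp (by rw [vec_two]; simpa using h0)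
  have h2 := (h1.1 φ).2
  simp at h2

theorem per_line {ξ : Fin 2 → L} {v : Emb L → Fin 2 → W g} {τ : (Mx ξ → ℂ) → Mat g}
    (h : IsFam ξ v τ) (ψ : Mx ξ) {z : Mx ξ → ℂ} (hz : z ∈ Dom ξ 1) :
    per (τ z) (v ψ.1 0 + z ψ • v ψ.1 1) = 0 := by
  classical
  have h1 := (h.ker z hz (Pi.single ψ.1 ![1, z ψ])).mpr ?_
  · rw [vec_two] at h1
    simpa using h1
  · refine ⟨fun φ => ⟨?_, ?_⟩, fun χ h0 _ => ?_⟩
    · by_cases hφ : φ = ψ
      · subst hφ
        simp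
      · have : φ.1 ≠ ψ.1 := fun e => hφ (Subtype.ext e)
        simp [Pi.single_eq_of_ne this]
    · have : cj φ.1 ≠ ψ.1 := by
        intro e
        have h2 := ψ.2.1
        rw [← e, cj_im] at h2
        have h3 := φ.2.1
        linarith
      simp [Pi.single_eq_of_ne this]
    · have : χ ≠ ψ.1 := by
        intro e
        have h2 := ψ.2.1
        rw [← e] at h2
        linarith
      simp [Pi.single_eq_of_ne this]

theorem per_apply (σ : Mat g) (x : W g) (k : Fin g) :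
    per σ x k = ∑ i, σ k i * x (.inl i) + x (.inr k) := by
  simp [per, app, lft, rgt, Matrix.mulVec, dotProduct]

theorem diff_per (x : W g) : Differentiable ℂ fun σ : Mat g => per σ x := by
  rw [differentiable_pi]
  intro k
  simp only [per_apply]
  fun_prop

/-- differentiating the equation of the Hodge filtration -/
theorem imm_aux {ξ : Fin 2 → L} {v : Emb L → Fin 2 → W g} {τ : (Mx ξ → ℂ) → Mat g}
    (h : IsFam ξ v τ) (w : Mx ξ → ℂ) (hw : fderiv ℂ τ 0 w = 0) : w = 0 := by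
  funext ψ
  have hn := (isOpen_dom ξ 1).mem_nhds (zero_mem_dom ξ)
  have hτ : HasFDerivAt τ (fderiv ℂ τ 0) 0 := (h.hol.differentiableAt hn).hasFDerivAt
  have hne := per_ne_one h ψ (zero_mem_dom ξ)
  obtain ⟨k, hk⟩ := Function.ne_iff.mp hne
  -- restrict to the line through `w`
  have hl : HasDerivAt (fun s : ℂ => s • w) w 0 := by
    simpa using (hasDerivAt_id (0 : ℂ)).smul_const w
  have hτl : HasDerivAt (fun s : ℂ => τ (s • w)) 0 0 := by
    have := HasFDerivAt.comp_hasDerivAt_of_eq (0 : ℂ) hτ hl (by simp)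
    rw [hw] at this
    exact this
  have hc : ∀ a b, HasDerivAt (fun s : ℂ => τ (s • w) a b) 0 0 := fun a b =>
    hasDerivAt_pi.mp (hasDerivAt_pi.mp hτl a) b
  have hA : ∀ x : W g, HasDerivAt (fun s : ℂ => per (τ (s • w)) x k) 0 0 := by
    intro x
    simp only [per_apply]
    have := (HasDerivAt.fun_sum (u := Finset.univ)
      fun i _ => (hc k i).mul_const (x (.inl i))).add_const (x (.inr k))
    simpa using this
  have hs : HasDerivAt (fun s : ℂ => s * w ψ) (w ψ) 0 := by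
    simpa using (hasDerivAt_id (0 : ℂ)).mul_const (w ψ)
  have hB := (hA (v ψ.1 0)).fun_add (hs.fun_mul (hA (v ψ.1 1)))
  have hev : (fun s : ℂ => per (τ (s • w)) (v ψ.1 0) k +
      s * w ψ * per (τ (s • w)) (v ψ.1 1) k) =ᶠ[𝓝 0] fun _ => 0 := by
    have ht : Tendsto (fun s : ℂ => s • w) (𝓝 0) (𝓝 0) := by
      have := hl.continuousAt.tendsto
      simpa using this
    filter_upwards [ht.eventually hn] with s hs
    have h1 := congrFun (per_line h ψ hs) k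
    simp only [per_apply, Pi.add_apply, Pi.smul_apply, smul_eq_mul, Pi.zero_apply] at h1 ⊢
    rw [← h1]
    simp only [mul_add, Finset.sum_add_distrib, Finset.mul_sum]
    have : ∑ i, s * w ψ * (τ (s • w) k i * v ψ.1 1 (.inl i)) =
        ∑ i, τ (s • w) k i * (s * w ψ * v ψ.1 1 (.inl i)) :=
      Finset.sum_congr rfl fun i _ => by ring
    rw [this]
    ring
  have h0 := (hB.congr_of_eventuallyEq hev.symm).unique (hasDerivAt_const (0 : ℂ) (0 : ℂ))
  simp only [zero_smul, zero_mul, mul_zero, add_zero, zero_add] at h0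
  exact (mul_eq_zero.mp h0).resolve_right hk

theorem symm_fderiv {ξ : Fin 2 → L} {v : Emb L → Fin 2 → W g} {τ : (Mx ξ → ℂ) → Mat g}
    (h : IsFam ξ v τ) (w : Mx ξ → ℂ) (a b : Fin g) :
    fderiv ℂ τ 0 w a b = fderiv ℂ τ 0 w b a := by
  have hn := (isOpen_dom ξ 1).mem_nhds (zero_mem_dom ξ)
  have hτ : HasFDerivAt τ (fderiv ℂ τ 0) 0 := (h.hol.differentiableAt hn).hasFDerivAt
  have hl : HasDerivAt (fun s : ℂ => s • w) w 0 := by
    simpa using (hasDerivAt_id (0 : ℂ)).smul_const w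
  have hτl : HasDerivAt (fun s : ℂ => τ (s • w)) (fderiv ℂ τ 0 w) 0 :=
    HasFDerivAt.comp_hasDerivAt_of_eq (0 : ℂ) hτ hl (by simp)
  have hc : ∀ a b, HasDerivAt (fun s : ℂ => τ (s • w) a b) (fderiv ℂ τ 0 w a b) 0 := fun a b =>
    hasDerivAt_pi.mp (hasDerivAt_pi.mp hτl a) b
  have hev : (fun s : ℂ => τ (s • w) b a) =ᶠ[𝓝 0] fun s : ℂ => τ (s • w) a b := by
    have ht : Tendsto (fun s : ℂ => s • w) (𝓝 0) (𝓝 0) := by
      have := hl.continuousAt.tendsto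
      simpa using this
    filter_upwards [ht.eventually hn] with s hs
    exact (h.sg _ hs).1 b a
  exact ((hc a b).congr_of_eventuallyEq hev).unique (hc b a)

theorem hol_X (h4 : XHolS) {ξ : Fin 2 → L} {v : Emb L → Fin 2 → W g}
    {τ : (Mx ξ → ℂ) → Mat g} (h : IsFam ξ v τ) (J : ℕ) :
    DifferentiableOn ℂ (fun z => Xc (τ z) J) (Dom ξ 1) :=
  (h4.hol g J).comp h.hol fun z hz => (h.sg z hz).2

theorem hol_om (h4 : XHolS) {ξ : Fin 2 → L} {v : Emb L → Fin 2 → W g}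
    {τ : (Mx ξ → ℂ) → Mat g} (h : IsFam ξ v τ) (x : W g) :
    DifferentiableOn ℂ (fun z => om (τ z) (per (τ z) x)) (Dom ξ 1) := by
  have h1 : DifferentiableOn ℂ (fun z => (τ z, per (τ z) x)) (Dom ξ 1) :=
    h.hol.prodMk ((diff_per x).comp_differentiableOn h.hol)
  have h2 : Set.MapsTo (fun z => (τ z, per (τ z) x)) (Dom ξ 1) {q : Mat g × V g | Pos q.1} :=
    fun z hz => (h.sg z hz).2
  have h3 := (h4.holom g).comp h1 h2
  exact h3.congr fun z _ => by simp only [Function.comp_apply]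

theorem hol_Y (h4 : XHolS) {ξ : Fin 2 → L} {v : Emb L → Fin 2 → W g}
    {τ : (Mx ξ → ℂ) → Mat g} (h : IsFam ξ v τ) (φ : Emb L) :
    DifferentiableOn ℂ (fun z => Yv (τ z) v φ) (Dom ξ 1) := by
  rw [differentiableOn_pi]
  rintro (s | s)
  · exact differentiableOn_pi.mp (hol_om h4 h (v (cj φ) 0)) s
  · exact differentiableOn_pi.mp (hol_om h4 h (v φ 1)) s

theorem hol_pt (h4 : XHolS) {ξ : Fin 2 → L} {v : Emb L → Fin 2 → W g}
    {τ : (Mx ξ → ℂ) → Mat g} (h : IsFam ξ v τ) (φ : Emb L) (J : ℕ) (s₀ s₁ : Ix g × Ix g) :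
    DifferentiableOn ℂ (fun z => pt (τ z) v φ J s₀ s₁) (Dom ξ 1) := by
  rw [differentiableOn_pi]
  rintro (q | b)
  · exact differentiableOn_pi.mp (hol_X h4 h J) q
  · fin_cases b
    · exact differentiableOn_pi.mp (hol_om h4 h (v (cj φ) 0)) s₀
    · exact differentiableOn_pi.mp (hol_om h4 h (v φ 1)) s₁

omit [NumberField L] in
theorem pt_eq (τ : Mat g) (v : Emb L → Fin 2 → W g) (φ : Emb L) (J : ℕ) (s₀ s₁ : Ix g × Ix g) :
    (Sum.elim (Xc τ J) fun b : Fin 2 => Yv τ v φ (![Sum.inl s₀, Sum.inr s₁] b)) =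
      pt τ v φ J s₀ s₁ := by
  funext q
  rcases q with q | b
  · rfl
  · fin_cases b <;> rfl

theorem charts (h3 : TransS) (h4 : XHolS) (h6 : CptS) (h7 : MatS) {c : L ≃ₐ[ℚ] L}
    {ξ : Fin 2 → L} {v : Emb L → Fin 2 → W g} {τ : (Mx ξ → ℂ) → Mat g} (hξ : IsXi c ξ)
    (h : IsFam ξ v τ) (φ : Mx ξ) (J : ℕ) :
    ∃ t : ℝ, Charts (fun _ : Unit => Dom ξ 1) (fun _ => Kp ξ t) (fun _ z => Xc (τ z) J)
      fun _ z => Yv (τ z) v φ.1 := by
  obtain ⟨m, hm, hmat⟩ := h7 L c ξ g v τ hξ h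
  obtain ⟨t, ht, hcpt⟩ := h6 L c ξ hξ m hm
  have hg : 0 < g := by
    have h1 := h.sym.card
    have h2 : 0 < Module.finrank ℚ L := Module.finrank_pos
    omega
  have hsub : Kp ξ t ⊆ Dom ξ 1 := fun z hz ψ => lt_of_le_of_lt (hz ψ) ht
  refine ⟨t, fun _ => isOpen_dom ξ 1, fun _ => isCompact_kp ξ t, fun _ => hsub,
    fun _ => hol_X h4 h J, fun _ => hol_Y h4 h φ.1,
    fun _ p hp => h4.ne g J _ (h.sg p (hsub hp)), fun _ p hp h0 => ?_, fun _ z hz => ?_⟩
  · refine per_ne_one h φ (hsub hp) (h4.neom g _ _ (h.sg p (hsub hp)) ?_)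
    funext s
    exact congrFun h0 (Sum.inr s)
  · apply subset_closure
    obtain ⟨γ, z', hγ, hint, hmv, hz'⟩ := hcpt z hz
    have hK : z' ∈ Kp ξ t := fun ψ => (hz' ψ).le
    obtain ⟨ρ, j, hρ, h8, hj, hdet, hμ⟩ := hmat γ z z' hz (hsub hK) hγ hint hmv
    obtain ⟨κ, q, hκ, hth⟩ := h3 g (τ z) (τ z') j ρ (h.sg z hz) (h.sg z' (hsub hK)) hρ h8 hj
    obtain ⟨⟨κ', hX⟩, hom⟩ :=
      h4.trans g J (τ z) (τ z') j q κ hg (h.sg z hz) (h.sg z' (hsub hK)) hκ hdet hth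
    obtain ⟨μ, hμ1, hμ0⟩ := hμ φ
    have key : ∀ x : W g, app j (per (τ z) x) = μ • per (τ z') x →
        om (τ z) (per (τ z) x) = (μ / κ ^ 2) • om (τ z') (per (τ z') x) := by
      intro x hx
      have h1 := hom (per (τ z) x)
      rw [hx, h4.om_smul] at h1
      have h2 : κ ^ 2 ≠ 0 := pow_ne_zero 2 hκ
      calc om (τ z) (per (τ z) x) = (κ ^ 2)⁻¹ • κ ^ 2 • om (τ z) (per (τ z) x) := by
            rw [smul_smul, inv_mul_cancel₀ h2, one_smul]
        _ = (μ / κ ^ 2) • om (τ z') (per (τ z') x) := by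
            rw [← h1, smul_smul, div_eq_inv_mul]
    refine ⟨hz, (), z', hK, κ', μ / κ ^ 2, hX, ?_⟩
    funext s
    rcases s with s | s
    · exact congrFun (key _ hμ0) s
    · exact congrFun (key _ hμ1) s

end FamRelAux

open FamRelAux in
theorem famRel (h0 : OsgS) (h1 : PolS) (h2 : RelS) (h3 : TransS) (h4 : XHolS) (h5 : TorS)
    (h6 : CptS) (h7 : MatS) : FamRelS := by
  intro L _ _ c ξ g v τ hξ h φ
  have hz0 := zero_mem_dom ξ
  have hn := (isOpen_dom ξ 1).mem_nhds hz0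
  have hs0 := h.sg 0 hz0
  obtain ⟨J, hJ⟩ := h5 g (τ 0) hs0
  obtain ⟨t, hch⟩ := charts h3 h4 h6 h7 hξ h φ J
  obtain ⟨s₀, hs₀⟩ : ∃ s, om (τ 0) (per (τ 0) (v (cj φ.1) 0)) s ≠ 0 :=
    Function.ne_iff.mp fun e => per_ne_zero h φ hz0 (h4.neom g _ _ hs0 e)
  obtain ⟨s₁, hs₁⟩ : ∃ s, om (τ 0) (per (τ 0) (v φ.1 1)) s ≠ 0 :=
    Function.ne_iff.mp fun e => per_ne_one h φ hz0 (h4.neom g _ _ hs0 e)
  obtain ⟨Q, k, l, hQ, hrel, p, hp, hne⟩ := h2 _ _ _ _ _ _ _ _ hch ()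
    ![Sum.inl s₀, Sum.inr s₁] (pre_dom ξ) ⟨0, hz0, h4.ne g J _ hs0, fun w a hw => by
      apply imm_aux h
      apply hJ _ a (symm_fderiv h w)
      have hτ : DifferentiableAt ℂ τ 0 := h.hol.differentiableAt hn
      have hX : DifferentiableAt ℂ (fun σ : Mat g => Xc σ J) (τ 0) :=
        (h4.hol g J).differentiableAt ((isOpen_pos g).mem_nhds hs0.2)
      have := fderiv_comp (0 : Mx ξ → ℂ) hX hτ
      have h' : fderiv ℂ (fun z => Xc (τ z) J) 0 w =
          fderiv ℂ (fun σ : Mat g => Xc σ J) (τ 0) (fderiv ℂ τ 0 w) :=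
        congrArg (fun T => T w) this
      rw [← h']
      exact hw⟩ ⟨0, hz0, hs₀⟩
  simp only [pt_eq] at hrel hne
  have hpt := hol_pt h4 h φ.1 J s₀ s₁
  refine ⟨J, s₀, s₁, Q, k, l, hQ, hrel, ?_, hpt.continuousOn⟩
  by_contra hcon
  push Not at hcon
  have hf : DifferentiableOn ℂ (fun z => pt (τ z) v φ.1 J s₀ s₁ (Sum.inr 1)) (Dom ξ 1) :=
    differentiableOn_pi.mp hpt _
  have hG : DifferentiableOn ℂ
      (fun z => eval (pt (τ z) v φ.1 J s₀ s₁) (pderiv (Sum.inr 1) Q)) (Dom ξ 1) :=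
    (h1.diff_eval _ (pderiv (Sum.inr 1) Q)).comp_differentiableOn hpt
  have hpn := (isOpen_dom ξ 1).mem_nhds hp
  have hev : (fun z => pt (τ z) v φ.1 J s₀ s₁ (Sum.inr 1)) =ᶠ[𝓝 p] 0 := by
    filter_upwards [hpn, (hG.continuousOn.continuousAt hpn).eventually_ne hne] with z hz hz'
    exact (mul_eq_zero.mp (hcon z hz)).resolve_right hz'
  have hzero := (h0 _ _ _ _ (isOpen_dom ξ 1) hf).eqOn_zero_of_preconnected_of_eventuallyEq_zero
    (pre_dom ξ) hp hev hz0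
  exact hs₁ hzero

end Pool.Agent.Lib.MP_caab05_ag.GB
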