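import Mathlib
import Pool.Agent.Lib.MP_caab05_ag.GB.Stmt

/-! Summability and joint holomorphy of theta series. -/

namespace Pool.Agent.Lib.MP_caab05_ag.GB

open Filter Topology Complex

namespace HolAux

variable {g : ℕ}

/-- the imaginary quadratic form -/
noncomputable def Qf (τ : Mat g) (x : Fin g → ℝ) : ℝ := ∑ i, ∑ j, x i * (τ i j).im * x j

theorem Qf_smul (τ : Mat g) (r : ℝ) (x : Fin g → ℝ) : Qf τ (r • x) = r ^ 2 * Qf τ x := by
  unfold Qf
  simp only [Finset.mul_sum, Pi.smul_apply, smul_eq_mul]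
  refine Finset.sum_congr rfl fun i _ => Finset.sum_congr rfl fun j _ => by ring

theorem Qf_cont (τ : Mat g) : Continuous (Qf τ) := by
  unfold Qf
  fun_prop

theorem coer_norm {τ : Mat g} (h : Pos τ) : ∃ c : ℝ, 0 < c ∧ ∀ x, c * ‖x‖ ^ 2 ≤ Qf τ x := by
  by_cases hne : (Metric.sphere (0 : Fin g → ℝ) 1).Nonempty
  · obtain ⟨x₀, hx₀, hmin⟩ := (isCompact_sphere (0 : Fin g → ℝ) 1).exists_isMinOn hne
      (Qf_cont τ).continuousOn
    have hx₀' : ‖x₀‖ = 1 := by simpa using hx₀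
    have hx0 : x₀ ≠ 0 := by
      intro h0
      rw [h0, norm_zero] at hx₀'
      exact zero_ne_one hx₀'
    refine ⟨Qf τ x₀, h x₀ hx0, fun x => ?_⟩
    by_cases hx : x = 0
    · subst hx
      simp [Qf]
    · have hn : 0 < ‖x‖ := norm_pos_iff.mpr hx
      have h1 : (‖x‖⁻¹ • x) ∈ Metric.sphere (0 : Fin g → ℝ) 1 := by
        simp [norm_smul, hn.ne']
      have h2 : Qf τ x₀ ≤ Qf τ (‖x‖⁻¹ • x) := hmin h1
      rw [Qf_smul] at h2
      have h3 := mul_le_mul_of_nonneg_right h2 (sq_nonneg ‖x‖)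
      have h4 : ‖x‖⁻¹ ^ 2 * Qf τ x * ‖x‖ ^ 2 = Qf τ x := by field_simp
      linarith
  · refine ⟨1, one_pos, fun x => ?_⟩
    by_cases hx : x = 0
    · subst hx
      simp [Qf]
    · exfalso
      apply hne
      have hn : 0 < ‖x‖ := norm_pos_iff.mpr hx
      exact ⟨‖x‖⁻¹ • x, by simp [norm_smul, hn.ne']⟩

theorem sum_sq_le (x : Fin g → ℝ) : ∑ i, x i ^ 2 ≤ g * ‖x‖ ^ 2 := by
  have : ∀ i ∈ (Finset.univ : Finset (Fin g)), x i ^ 2 ≤ ‖x‖ ^ 2 := fun i _ => by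
    have h := norm_le_pi_norm x i
    rw [Real.norm_eq_abs] at h
    rw [← sq_abs]
    exact pow_le_pow_left₀ (abs_nonneg _) h 2
  simpa using Finset.sum_le_card_nsmul _ _ _ this

theorem Qf_sub_le (σ τ : Mat g) (x : Fin g → ℝ) :
    Qf τ x - Qf σ x ≤ ‖σ - τ‖ * (g ^ 2 * ‖x‖ ^ 2) := by
  have h1 : Qf τ x - Qf σ x = ∑ i, ∑ j, x i * ((τ i j).im - (σ i j).im) * x j := by
    unfold Qf
    rw [← Finset.sum_sub_distrib]
    refine Finset.sum_congr rfl fun i _ => ?_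
    rw [← Finset.sum_sub_distrib]
    refine Finset.sum_congr rfl fun j _ => by ring
  have h2 : ∀ i j, x i * ((τ i j).im - (σ i j).im) * x j ≤ ‖σ - τ‖ * ‖x‖ ^ 2 := fun i j => by
    have a1 : |x i| ≤ ‖x‖ := by simpa using norm_le_pi_norm x i
    have a2 : |x j| ≤ ‖x‖ := by simpa using norm_le_pi_norm x j
    have a3 : |(τ i j).im - (σ i j).im| ≤ ‖σ - τ‖ := by
      have b1 : ‖(σ - τ) i j‖ ≤ ‖σ - τ‖ :=
        (norm_le_pi_norm ((σ - τ) i) j).trans (norm_le_pi_norm (σ - τ) i)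
      have b2 := Complex.abs_im_le_norm ((σ - τ) i j)
      rw [abs_sub_comm]
      simpa using b2.trans b1
    calc x i * ((τ i j).im - (σ i j).im) * x j ≤ |x i * ((τ i j).im - (σ i j).im) * x j| :=
          le_abs_self _
      _ = |x i| * |(τ i j).im - (σ i j).im| * |x j| := by rw [abs_mul, abs_mul]
      _ ≤ ‖x‖ * ‖σ - τ‖ * ‖x‖ := by gcongr
      _ = ‖σ - τ‖ * ‖x‖ ^ 2 := by ring
  rw [h1]
  calc ∑ i, ∑ j, x i * ((τ i j).im - (σ i j).im) * x j
      ≤ ∑ _i : Fin g, ∑ _j : Fin g, ‖σ - τ‖ * ‖x‖ ^ 2 :=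
        Finset.sum_le_sum fun i _ => Finset.sum_le_sum fun j _ => h2 i j
    _ = ‖σ - τ‖ * (g ^ 2 * ‖x‖ ^ 2) := by
        simp only [Finset.sum_const, Finset.card_univ, Fintype.card_fin, nsmul_eq_mul]
        ring

/-- locally uniform coercivity -/
theorem coer_loc {τ : Mat g} (h : Pos τ) : ∃ c : ℝ, 0 < c ∧ ∃ δ : ℝ, 0 < δ ∧
    ∀ σ : Mat g, ‖σ - τ‖ < δ → ∀ x : Fin g → ℝ, c * ∑ i, x i ^ 2 ≤ Qf σ x := by
  obtain ⟨c, hc, hQ⟩ := coer_norm h
  have hg : (0 : ℝ) ≤ g := Nat.cast_nonneg g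
  refine ⟨c / (2 * (g + 1)), by positivity, c / (2 * (g ^ 2 + 1)), by positivity,
    fun σ hσ x => ?_⟩
  have h1 := Qf_sub_le σ τ x
  have h2 := hQ x
  have h3 := sum_sq_le x
  have h4 : ‖σ - τ‖ * (g ^ 2 * ‖x‖ ^ 2) ≤ c / 2 * ‖x‖ ^ 2 := by
    calc ‖σ - τ‖ * (g ^ 2 * ‖x‖ ^ 2) ≤ c / (2 * (g ^ 2 + 1)) * ((g ^ 2 + 1) * ‖x‖ ^ 2) := by
          gcongr
          linarith
      _ = c / 2 * ‖x‖ ^ 2 := by field_simp
  have h5 : c / (2 * (g + 1)) * ∑ i, x i ^ 2 ≤ c / 2 * ‖x‖ ^ 2 := by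
    calc c / (2 * (g + 1)) * ∑ i, x i ^ 2 ≤ c / (2 * (g + 1)) * ((g + 1) * ‖x‖ ^ 2) := by
          gcongr
          refine h3.trans ?_
          gcongr
          linarith
      _ = c / 2 * ‖x‖ ^ 2 := by field_simp
  linarith

theorem summable_gauss {a : ℝ} (ha : 0 < a) (b : ℝ) :
    Summable fun n : ℤ => Real.exp (-a * (n : ℝ) ^ 2 + b * |(n : ℝ)|) := by
  have key : Summable fun n : ℕ => Real.exp (-a * (n : ℝ) ^ 2 + b * (n : ℝ)) := by
    refine Summable.of_nonneg_of_le (fun n => (Real.exp_pos _).le)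
      (f := fun n : ℕ => Real.exp ((b + 1) ^ 2 / (4 * a)) * Real.exp (-n)) (fun n => ?_)
      (Real.summable_exp_neg_nat.mul_left _)
    rw [← Real.exp_add]
    apply Real.exp_le_exp.mpr
    have h1 : 0 ≤ (2 * a * n - (b + 1)) ^ 2 / (4 * a) := by positivity
    have h2 : (2 * a * n - (b + 1)) ^ 2 / (4 * a) =
        a * (n : ℝ) ^ 2 - (b + 1) * n + (b + 1) ^ 2 / (4 * a) := by
      field_simp
      ring
    linarith
  refine Summable.of_nat_of_neg ?_ ?_
  · simpa using key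
  · simpa using key

theorem summable_pi (f : ℤ → ℝ) (h0 : ∀ n, 0 ≤ f n) (hf : Summable f) (g : ℕ) :
    Summable fun m : Fin g → ℤ => ∏ i, f (m i) := by
  induction g with
  | zero => exact Summable.of_finite
  | succ k ih =>
    rw [← (Fin.consEquiv fun _ : Fin (k + 1) => ℤ).summable_iff]
    have := Summable.mul_of_nonneg hf ih h0 fun m => Finset.prod_nonneg fun i _ => h0 _
    refine this.congr fun p => ?_
    simp [Fin.prod_univ_succ, Fin.consEquiv]

theorem summable_major {a : ℝ} (ha : 0 < a) (b : ℝ) (g : ℕ) :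
    Summable fun m : Fin g → ℤ =>
      Real.exp (-a * ∑ i, (m i : ℝ) ^ 2 + b * ∑ i, |(m i : ℝ)|) := by
  refine (summable_pi _ (fun n => (Real.exp_pos _).le) (summable_gauss ha b) g).congr fun m => ?_
  rw [← Real.exp_sum, Finset.sum_add_distrib, Finset.mul_sum, Finset.mul_sum]

theorem norm_term (τ : Mat g) (t : ℝ) (u : V g) (m : Fin g → ℤ) :
    ‖cexp (Real.pi * I * (∑ i, ∑ j, (m i : ℂ) * τ i j * (m j : ℂ)) * t +
      2 * Real.pi * I * ∑ i, (m i : ℂ) * u i)‖ =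
      Real.exp (-(Real.pi * t * Qf τ fun i => (m i : ℝ)) -
        2 * Real.pi * ∑ i, (m i : ℝ) * (u i).im) := by
  rw [Complex.norm_exp]
  congr 1
  have h1 : (∑ i, ∑ j, (m i : ℂ) * τ i j * (m j : ℂ)).im = Qf τ fun i => (m i : ℝ) := by
    unfold Qf
    simp [Complex.im_sum]
  have h2 : (∑ i, (m i : ℂ) * u i).im = ∑ i, (m i : ℝ) * (u i).im := by
    simp [Complex.im_sum]
  rw [← h1, ← h2]
  simp
  ring

theorem norm_term_le {τ : Mat g} {c t R : ℝ} (ht : 0 < t)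
    (hc : ∀ x : Fin g → ℝ, c * ∑ i, x i ^ 2 ≤ Qf τ x) {u : V g} (hu : ‖u‖ ≤ R)
    (m : Fin g → ℤ) :
    ‖cexp (Real.pi * I * (∑ i, ∑ j, (m i : ℂ) * τ i j * (m j : ℂ)) * t +
      2 * Real.pi * I * ∑ i, (m i : ℂ) * u i)‖ ≤
      Real.exp (-(Real.pi * t * c) * ∑ i, (m i : ℝ) ^ 2 + 2 * Real.pi * R * ∑ i, |(m i : ℝ)|) := by
  rw [norm_term]
  apply Real.exp_le_exp.mpr
  have h1 := hc fun i => (m i : ℝ)
  have hp := Real.pi_pos
  have h2 : Real.pi * t * (c * ∑ i, (m i : ℝ) ^ 2) ≤ Real.pi * t * Qf τ fun i => (m i : ℝ) := by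
    gcongr
  have h3 : -∑ i, (m i : ℝ) * (u i).im ≤ R * ∑ i, |(m i : ℝ)| := by
    rw [Finset.mul_sum, ← Finset.sum_neg_distrib]
    refine Finset.sum_le_sum fun i _ => ?_
    have a1 : |(u i).im| ≤ R :=
      (Complex.abs_im_le_norm _).trans ((norm_le_pi_norm u i).trans hu)
    calc -((m i : ℝ) * (u i).im) ≤ |(m i : ℝ) * (u i).im| := neg_le_abs _
      _ = |(u i).im| * |(m i : ℝ)| := by rw [abs_mul, mul_comm]
      _ ≤ R * |(m i : ℝ)| := by gcongr
  have h4 := mul_le_mul_of_nonneg_left h3 (by positivity : 0 ≤ 2 * Real.pi)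
  nlinarith

/-- the exponent of the term of index `m` as a linear form -/
noncomputable def Lm (m : Fin g → ℤ) : (Mat g × V g) →L[ℂ] ℂ :=
  LinearMap.toContinuousLinearMap
    { toFun := fun q => Real.pi * I * (∑ i, ∑ j, (m i : ℂ) * q.1 i j * (m j : ℂ)) / 4 +
        2 * Real.pi * I * ∑ i, (m i : ℂ) * q.2 i
      map_add' := fun p q => by
        simp only [Prod.fst_add, Prod.snd_add, Pi.add_apply, mul_add, add_mul,
          Finset.sum_add_distrib]
        ring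
      map_smul' := fun r q => by
        have h1 : (∑ i, ∑ j, (m i : ℂ) * (r * q.1 i j) * (m j : ℂ)) =
            r * ∑ i, ∑ j, (m i : ℂ) * q.1 i j * (m j : ℂ) := by
          simp only [Finset.mul_sum]
          refine Finset.sum_congr rfl fun i _ => Finset.sum_congr rfl fun j _ => by ring
        have h2 : (∑ i, (m i : ℂ) * (r * q.2 i)) = r * ∑ i, (m i : ℂ) * q.2 i := by
          simp only [Finset.mul_sum]
          refine Finset.sum_congr rfl fun i _ => by ring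
        simp only [Prod.smul_fst, Prod.smul_snd, Pi.smul_apply, smul_eq_mul, RingHom.id_apply]
        rw [h1, h2]
        ring }

theorem Lm_apply (m : Fin g → ℤ) (q : Mat g × V g) :
    Lm m q = Real.pi * I * (∑ i, ∑ j, (m i : ℂ) * q.1 i j * (m j : ℂ)) / 4 +
        2 * Real.pi * I * ∑ i, (m i : ℂ) * q.2 i := rfl

theorem norm_Lm (m : Fin g → ℤ) : ‖Lm m‖ ≤ 10 * Real.exp (∑ i, |(m i : ℝ)|) := by
  set S : ℝ := ∑ i, |(m i : ℝ)| with hS
  have hS0 : 0 ≤ S := Finset.sum_nonneg fun i _ => abs_nonneg _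
  refine ContinuousLinearMap.opNorm_le_bound _ (by positivity) fun q => ?_
  have hm : ∀ i, ‖(m i : ℂ)‖ = |(m i : ℝ)| := fun i => by simp
  have h1 : ‖∑ i, ∑ j, (m i : ℂ) * q.1 i j * (m j : ℂ)‖ ≤ S ^ 2 * ‖q‖ := by
    calc ‖∑ i, ∑ j, (m i : ℂ) * q.1 i j * (m j : ℂ)‖
        ≤ ∑ i, ∑ j, |(m i : ℝ)| * ‖q‖ * |(m j : ℝ)| := by
          refine (norm_sum_le _ _).trans (Finset.sum_le_sum fun i _ => ?_)
          refine (norm_sum_le _ _).trans (Finset.sum_le_sum fun j _ => ?_)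
          rw [norm_mul, norm_mul, hm, hm]
          have : ‖q.1 i j‖ ≤ ‖q‖ :=
            ((norm_le_pi_norm (q.1 i) j).trans (norm_le_pi_norm q.1 i)).trans (norm_fst_le q)
          gcongr
      _ = S ^ 2 * ‖q‖ := by
          rw [hS, sq, Finset.sum_mul_sum, Finset.sum_mul]
          refine Finset.sum_congr rfl fun i _ => ?_
          rw [Finset.sum_mul]
          refine Finset.sum_congr rfl fun j _ => by ring
  have h2 : ‖∑ i, (m i : ℂ) * q.2 i‖ ≤ S * ‖q‖ := by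
    rw [hS, Finset.sum_mul]
    refine (norm_sum_le _ _).trans (Finset.sum_le_sum fun i _ => ?_)
    rw [norm_mul, hm]
    have : ‖q.2 i‖ ≤ ‖q‖ := (norm_le_pi_norm q.2 i).trans (norm_snd_le q)
    gcongr
  have hp : Real.pi ≤ 4 := Real.pi_le_four
  have hp0 := Real.pi_pos
  have e1 : S ≤ Real.exp S := by linarith [Real.add_one_le_exp S]
  have e2 : S ^ 2 ≤ 2 * Real.exp S := by
    have := Real.quadratic_le_exp_of_nonneg hS0
    linarith
  have hq := norm_nonneg q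
  rw [Lm_apply]
  refine (norm_add_le _ _).trans ?_
  have n1 : ‖Real.pi * I * (∑ i, ∑ j, (m i : ℂ) * q.1 i j * (m j : ℂ)) / 4‖ ≤
      2 * Real.exp S * ‖q‖ := by
    rw [norm_div, norm_mul, norm_mul, Complex.norm_I, Complex.norm_real, Real.norm_eq_abs,
      abs_of_pos hp0]
    have : ‖(4 : ℂ)‖ = 4 := by simp
    rw [this]
    calc Real.pi * 1 * ‖∑ i, ∑ j, (m i : ℂ) * q.1 i j * (m j : ℂ)‖ / 4
        ≤ 4 * 1 * (2 * Real.exp S * ‖q‖) / 4 := by
          gcongr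
          exact h1.trans (by gcongr)
      _ = 2 * Real.exp S * ‖q‖ := by ring
  have n2 : ‖2 * Real.pi * I * ∑ i, (m i : ℂ) * q.2 i‖ ≤ 8 * Real.exp S * ‖q‖ := by
    rw [norm_mul, norm_mul, norm_mul, Complex.norm_I, Complex.norm_real, Real.norm_eq_abs,
      abs_of_pos hp0]
    have : ‖(2 : ℂ)‖ = 2 := by simp
    rw [this]
    calc 2 * Real.pi * 1 * ‖∑ i, (m i : ℂ) * q.2 i‖ ≤ 2 * 4 * 1 * (Real.exp S * ‖q‖) := by
          gcongr
          exact h2.trans (by gcongr)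
      _ = 8 * Real.exp S * ‖q‖ := by ring
  linarith

theorem norm_exp_Lm {c R : ℝ} {q : Mat g × V g}
    (hc : ∀ x : Fin g → ℝ, c * ∑ i, x i ^ 2 ≤ Qf q.1 x) (hu : ‖q.2‖ ≤ R) (m : Fin g → ℤ) :
    ‖cexp (Lm m q)‖ ≤ Real.exp (-(Real.pi * (1 / 4) * c) * ∑ i, (m i : ℝ) ^ 2 +
      2 * Real.pi * R * ∑ i, |(m i : ℝ)|) := by
  have h := norm_term_le (t := 1 / 4) (by norm_num) hc hu m
  rw [Lm_apply]
  convert h using 4
  push_cast
  ring

theorem isOpen_pos (g : ℕ) : IsOpen {τ : Mat g | Pos τ} := by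
  rw [Metric.isOpen_iff]
  intro τ hτ
  obtain ⟨c, hc, δ, hδ, h⟩ := coer_loc (τ := τ) hτ
  refine ⟨δ, hδ, fun σ hσ x hx => ?_⟩
  have h1 := h σ (by simpa [dist_eq_norm] using hσ) x
  have h2 : 0 < ∑ i, x i ^ 2 := by
    obtain ⟨i, hi⟩ := Function.ne_iff.mp hx
    exact Finset.sum_pos' (fun j _ => sq_nonneg _)
      ⟨i, Finset.mem_univ _, by simpa [sq_pos_iff] using hi⟩
  exact lt_of_lt_of_le (mul_pos hc h2) h1

theorem diffAt (a : Ix g) (q₀ : Mat g × V g) (h : Pos q₀.1) :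
    DifferentiableAt ℂ (fun q : Mat g × V g => th q.1 q.2 a) q₀ := by
  classical
  obtain ⟨c, hc, δ, hδ, hco⟩ := coer_loc h
  have hp := Real.pi_pos
  set R : ℝ := ‖q₀.2‖ + δ with hR
  have hb : ∀ q ∈ Metric.ball q₀ δ,
      (∀ x : Fin g → ℝ, c * ∑ i, x i ^ 2 ≤ Qf q.1 x) ∧ ‖q.2‖ ≤ R := fun q hq => by
    rw [mem_ball_iff_norm] at hq
    refine ⟨hco q.1 (lt_of_le_of_lt (norm_fst_le (q - q₀)) hq), ?_⟩
    have h1 : ‖q.2 - q₀.2‖ ≤ δ := (norm_snd_le (q - q₀)).trans hq.le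
    have h2 := norm_sub_norm_le q.2 q₀.2
    linarith
  have hsum := (summable_major (a := Real.pi * (1 / 4) * c) (by positivity)
    (2 * Real.pi * R + 1) g).mul_left 10
  have key := hasFDerivAt_tsum_of_isPreconnected (𝕜 := ℂ)
    (f := fun (m : Fin g → ℤ) (q : Mat g × V g) =>
      if ∀ j, (m j : ZMod 4) = a j then cexp (Lm m q) else 0)
    (f' := fun (m : Fin g → ℤ) (q : Mat g × V g) =>
      if ∀ j, (m j : ZMod 4) = a j then cexp (Lm m q) • Lm m else 0)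
    (x₀ := q₀) (x := q₀) hsum Metric.isOpen_ball (convex_ball q₀ δ).isPreconnected
    (fun m q _ => by
      split_ifs
      · exact (Lm m).hasFDerivAt.cexp
      · exact hasFDerivAt_const _ _)
    (fun m q hq => by
      split_ifs
      · rw [norm_smul]
        have h1 := norm_exp_Lm (hb q hq).1 (hb q hq).2 m
        have h2 := norm_Lm m
        refine (mul_le_mul h1 h2 (norm_nonneg _) (Real.exp_pos _).le).trans (le_of_eq ?_)
        rw [mul_left_comm, ← Real.exp_add]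
        congr 2
        ring
      · rw [norm_zero]
        positivity)
    (Metric.mem_ball_self hδ)
    (by
      refine Summable.of_norm_bounded (summable_major (a := Real.pi * (1 / 4) * c) (by positivity)
        (2 * Real.pi * R) g) fun m => ?_
      split_ifs
      · exact norm_exp_Lm (hb q₀ (Metric.mem_ball_self hδ)).1 (hb q₀ (Metric.mem_ball_self hδ)).2 m
      · rw [norm_zero]
        positivity)
    (Metric.mem_ball_self hδ)
  exact key.differentiableAt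

end HolAux

open HolAux

theorem sumS : SumS := by
  intro g τ h t ht u
  obtain ⟨c, hc, δ, hδ, hco⟩ := coer_loc h
  have hp := Real.pi_pos
  exact Summable.of_nonneg_of_le (fun _ => norm_nonneg _)
    (fun m => norm_term_le ht (hco τ (by simpa using hδ)) le_rfl m)
    (summable_major (a := Real.pi * t * c) (by positivity) (2 * Real.pi * ‖u‖) g)

theorem hol : HolS := by
  intro g
  refine ⟨isOpen_pos g, fun q hq => DifferentiableAt.differentiableWithinAt ?_⟩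
  exact differentiableAt_pi.mpr fun a => diffAt a q hq

end Pool.Agent.Lib.MP_caab05_ag.GB
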