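import Mathlib
import Pool.Agent.Lib.MP_caab05_ag.GB.Stmt

/-! Compatibility of `beta` with homomorphisms. -/

namespace Pool.Agent.Lib.MP_caab05_ag.GB

open MvPolynomial Filter Topology Asymptotics Complex Matrix

namespace HomAux

variable {g g' : ℕ}

theorem app_add (M : Mat g) (x y : V g) : app M (x + y) = app M x + app M y :=
  Matrix.mulVec_add _ _ _

theorem app_smul (M : Mat g) (c : ℂ) (x : V g) : app M (c • x) = c • app M x :=
  Matrix.mulVec_smul _ _ _

theorem app_apply (M : Mat g) (x : V g) (i : Fin g) : app M x i = ∑ j, M i j * x j := rfl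

theorem app_diff (M : Mat g) : Differentiable ℂ (app M) :=
  (LinearMap.toContinuousLinearMap (Matrix.mulVecLin (Matrix.of M))).differentiable

theorem du_add (τ : Mat g) (u x y : V g) : du τ u (x + y) = du τ u x + du τ u y := map_add _ _ _

theorem du_sub (τ : Mat g) (u x y : V g) : du τ u (x - y) = du τ u x - du τ u y := map_sub _ _ _

theorem shift0 (h4 : LawS) {τ : Mat g} (hτ : Sg τ) (p : Zg g) (u : V g) :
    th τ (u + per τ (cst p)) = ee τ ((4 : ℤ) • p) u • th τ u := by
  rw [← h4.tor_four, h4.law g τ hτ, h4.hh_four]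

theorem shift1 (h4 : LawS) {τ K : Mat g} (hτ : Sg τ) (hK : ∀ i j, K i j = K j i) (p : Zg g)
    (u x : V g) : ∃ s : ℂ, du τ (u + per τ (cst p)) x + dK τ K (u + per τ (cst p)) =
      ee τ ((4 : ℤ) • p) u • (du τ u (x - app K (lft (cst p))) + dK τ K u + s • th τ u) := by
  obtain ⟨r, hr⟩ := h4.lawK g τ K hτ hK ((4 : ℤ) • p)
  have e1 : (1 / 4 : ℂ) • app K (lft (cst ((4 : ℤ) • p))) = app K (lft (cst p)) := by
    rw [← app_smul]
    congr 1
    funext i
    simp only [lft, cst, Pi.smul_apply, smul_eq_mul]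
    push_cast
    ring
  refine ⟨r - 2 * Real.pi * I * (lft (cst ((4 : ℤ) • p)) ⬝ᵥ x), ?_⟩
  rw [← h4.tor_four, h4.lawu g τ hτ, hr, h4.hh_four, h4.hh_four, e1, du_sub, ← smul_add, sub_smul]
  congr 1
  abel

theorem zero_of_mul (h0 : OsgS) {f k : V g → ℂ} (hf : Differentiable ℂ f)
    (hk : Differentiable ℂ k) (h : ∀ u, f u * k u = 0) {u0 : V g} (hu : f u0 ≠ 0) (u : V g) :
    k u = 0 := by
  have ha := h0 _ _ k Set.univ isOpen_univ hk.differentiableOn
  have he : k =ᶠ[𝓝 u0] 0 := by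
    filter_upwards [hf.continuous.continuousAt.eventually_ne hu] with v hv
    exact (mul_eq_zero.1 (h v)).resolve_left hv
  exact ha.eqOn_zero_of_preconnected_of_eventuallyEq_zero isPreconnected_univ (Set.mem_univ u0) he
    (Set.mem_univ u)

theorem diff_elim {α β : Type} [Fintype α] [Fintype β] {X : V g → α → ℂ} {Y : V g → β → ℂ}
    (hX : Differentiable ℂ X) (hY : Differentiable ℂ Y) :
    Differentiable ℂ fun u => Sum.elim (X u) (Y u) := by
  rw [differentiable_pi]
  rintro (i | i)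
  · exact differentiable_pi.1 hX i
  · exact differentiable_pi.1 hY i

theorem diff_ev (h1 : PolS) {σ : Type} [Fintype σ] (P : MvPolynomial σ ℂ) {X : V g → σ → ℂ}
    (hX : Differentiable ℂ X) : Differentiable ℂ fun u => eval (X u) P :=
  (h1.diff_eval σ P).comp hX

theorem diff_dP (h1 : PolS) {σ : Type} [Fintype σ] (P : MvPolynomial σ ℂ) {X Y : V g → σ → ℂ}
    (hX : Differentiable ℂ X) (hY : Differentiable ℂ Y) :
    Differentiable ℂ fun u => dP P (X u) (Y u) := by
  unfold dP
  exact Differentiable.fun_sum fun i _ =>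
    (diff_ev h1 _ hX).mul (differentiable_pi.1 hY i)

theorem fderiv_comp_apply (h4 : LawS) {τ : Mat g} (hτ : Sg τ) (u x : V g) (s : Ix g) :
    fderiv ℂ (fun v => th τ v s) u x = du τ u x s := by
  have hd := (h4.holu g τ hτ).1 u
  have := (hasFDerivAt_pi'.1 hd.hasFDerivAt s).fderiv
  rw [this]
  rfl

/-- the derivation applied to the matrix of a linear map -/
noncomputable def aD (D : Der) (a : V g →ₗ[ℂ] V g') : V g →ₗ[ℂ] V g' :=
  Matrix.mulVecLin (Matrix.of fun i j => D (a (Pi.single j 1) i))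

theorem aD_apply (D : Der) (a : V g →ₗ[ℂ] V g') (u : V g) (i : Fin g') :
    aD D a u i = ∑ j, D (a (Pi.single j 1) i) * u j := rfl

theorem lin_apply {ι : Type} [Fintype ι] [DecidableEq ι] {E : Type} [AddCommGroup E] [Module ℂ E]
    (a : (ι → ℂ) →ₗ[ℂ] E) (u : ι → ℂ) : a u = ∑ j, u j • a (Pi.single j 1) := by
  conv_lhs => rw [← Finset.univ_sum_single u]
  rw [map_sum]
  refine Finset.sum_congr rfl fun j _ => ?_
  rw [← map_smul, ← Pi.single_smul, smul_eq_mul, mul_one]

theorem a_apply (a : V g →ₗ[ℂ] V g') (u : V g) (i : Fin g') :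
    a u i = ∑ j, a (Pi.single j 1) i * u j := by
  rw [lin_apply a u, Finset.sum_apply]
  exact Finset.sum_congr rfl fun j _ => by rw [Pi.smul_apply, smul_eq_mul, mul_comm]

theorem tw_lin (h2 : TwS) (D : Der) (a : V g →ₗ[ℂ] V g') (i : Fin g') :
    Tw D (fun u => a u i) fun u => aD D a u i := by
  have := h2.sum _ _ D (fun j (u : V g) => a (Pi.single j 1) i * u j)
    (fun j (u : V g) => D (a (Pi.single j 1) i) * u j + a (Pi.single j 1) i * 0)
    fun j => h2.mul _ D _ _ _ _ (h2.const _ D _) (h2.coord _ D j)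
  refine h2.congr _ D _ _ _ _ this (Eventually.of_forall fun u => ?_)
    (Eventually.of_forall fun u => ?_)
  · exact (a_apply a u i).symm
  · simp only [mul_zero, add_zero, aD_apply]

theorem D_a (D : Der) (a : V g →ₗ[ℂ] V g') (u : V g) :
    (fun i => D (a u i)) = aD D a u + a fun j => D (u j) := by
  funext i
  rw [Pi.add_apply, aD_apply, a_apply a u, a_apply a (fun j => D (u j)), map_sum,
    ← Finset.sum_add_distrib]
  refine Finset.sum_congr rfl fun j _ => ?_
  rw [Derivation.leibniz, smul_eq_mul, smul_eq_mul]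
  ring

theorem D_per (D : Der) (τ : Mat g) (p : Zg g) :
    (fun i => D (per τ (cst p) i)) = app (fun i j => D (τ i j)) (lft (cst p)) := by
  funext i
  simp only [per, Pi.add_apply, app_apply, map_add, map_sum, lft, rgt, cst, Derivation.leibniz,
    Derivation.map_intCast, smul_eq_mul, mul_zero, zero_add, add_zero, mul_comm]

theorem app_sub_mat (A B : Mat g) (x : V g) :
    app (fun i j => A i j - B i j) x = app A x - app B x := by
  funext i
  simp only [app_apply, Pi.sub_apply, sub_mul, Finset.sum_sub_distrib]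

/-- `beta` as a linear map -/
noncomputable def betaL (D : Der) (τ M K : Mat g) : W g →ₗ[ℂ] V g where
  toFun := beta D τ M K
  map_add' x y := by
    have e1 : lft (x + y) = lft x + lft y := rfl
    have e2 : rgt (x + y) = rgt x + rgt y := rfl
    simp only [beta, per, e1, e2, app_add]
    abel
  map_smul' c x := by
    have e1 : lft (c • x) = c • lft x := rfl
    have e2 : rgt (c • x) = c • rgt x := rfl
    simp only [beta, per, e1, e2, app_add, app_smul, smul_add, RingHom.id_apply]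

theorem per_smul (τ : Mat g) (c : ℂ) (x : W g) : per τ (c • x) = c • per τ x := by
  have e1 : lft (c • x) = c • lft x := rfl
  have e2 : rgt (c • x) = c • rgt x := rfl
  simp only [per, e1, e2, app_smul, smul_add]

theorem exists_scale (ρ : W g →ₗ[ℂ] W g') (h : ∀ w, IsRat w → IsRat (ρ w)) :
    ∃ n : ℂ, n ≠ 0 ∧ ∀ p : Zg g, ∃ p' : Zg g', n • ρ (cst p) = cst p' := by
  have hb : ∀ i : Fin g ⊕ Fin g, IsRat (Pi.single i (1 : ℂ) : W g) := by
    intro i j
    by_cases hij : j = i
    · exact ⟨1, by simp [hij]⟩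
    · exact ⟨0, by simp [hij]⟩
  choose q hq using fun i => h _ (hb i)
  obtain ⟨n, hn⟩ := IsLocalization.exist_integer_multiples_of_finite (nonZeroDivisors ℤ)
    (fun ij : (Fin g ⊕ Fin g) × (Fin g' ⊕ Fin g') => q ij.1 ij.2)
  choose z hz using hn
  refine ⟨((n : ℤ) : ℂ), Int.cast_ne_zero.2 (nonZeroDivisors.coe_ne_zero n), fun p =>
    ⟨fun j => ∑ i, p i * z (i, j), ?_⟩⟩
  funext j
  rw [lin_apply ρ (cst p), Pi.smul_apply, Finset.sum_apply, smul_eq_mul, Finset.mul_sum]
  simp only [cst, Int.cast_sum, Int.cast_mul, Pi.smul_apply, smul_eq_mul]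
  refine Finset.sum_congr rfl fun i _ => ?_
  have e : ((z (i, j) : ℤ) : ℚ) = ((n : ℤ) : ℚ) * q i j := by
    have := hz (i, j)
    simpa using this
  have e' : ((z (i, j) : ℤ) : ℂ) = ((n : ℤ) : ℂ) * (q i j : ℂ) := by
    exact_mod_cast congrArg (fun x : ℚ => (x : ℂ)) e
  rw [hq i j, e']
  ring

/-- the values of the two families of theta functions -/
noncomputable def FF (τ : Mat g) (τ' : Mat g') (a : V g →ₗ[ℂ] V g') (t : Fin 2 → Ix g') (u : V g) :
    Ix g ⊕ Fin 2 → ℂ := Sum.elim (th τ u) fun b => th τ' (a u) (t b)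

/-- the twisted relation -/
theorem twisted (h0 : OsgS) (h1 : PolS) (h2 : TwS) (h4 : LawS) {D : Der} {τ M K N : Mat g} {c : ℂ}
    {τ' M' K' N' : Mat g'} {c' : ℂ} (a : V g →ₗ[ℂ] V g') (hτ : Sg τ) (hτ' : Sg τ')
    (hT : IsTw D τ M K N c) (hT' : IsTw D τ' M' K' N' c') (t : Fin 2 → Ix g')
    {Q : MvPolynomial (Ix g ⊕ Fin 2) ℂ} {k l : ℕ} (hQ : BiH Q k l)
    (hz : ∀ u, eval (FF τ τ' a t u) Q = 0) (u : V g) :
    eval (FF τ τ' a t u) (cD D Q) + dP Q (FF τ τ' a t u)
      (Sum.elim (du τ u (app M u) + dK τ K u)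
        fun b => (du τ' (a u) (app M' (a u) + aD D a u) + dK τ' K' (a u)) (t b)) = 0 := by
  have ha : Differentiable ℂ a := (LinearMap.toContinuousLinearMap a).differentiable
  have haD : Differentiable ℂ (aD D a) := (LinearMap.toContinuousLinearMap (aD D a)).differentiable
  have hθ := (h4.holu g τ hτ).1
  have hθ' := (h4.holu g' τ' hτ').1
  have hF : Differentiable ℂ (FF τ τ' a t) :=
    diff_elim hθ (differentiable_pi.2 fun b => differentiable_pi.1 (hθ'.comp ha) (t b))
  have hG1 : Differentiable ℂ fun u => du τ u (app M u) + dK τ K u :=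
    ((h4.holu g τ hτ).2.comp (differentiable_id.prodMk (app_diff M))).add (h4.holK g τ K hτ)
  have hG2 : Differentiable ℂ fun u =>
      du τ' (a u) (app M' (a u) + aD D a u) + dK τ' K' (a u) :=
    ((h4.holu g' τ' hτ').2.comp (ha.prodMk (((app_diff M').comp ha).add haD))).add
      ((h4.holK g' τ' K' hτ').comp ha)
  have hE : Differentiable ℂ fun u => eval (FF τ τ' a t u) (cD D Q) + dP Q (FF τ τ' a t u)
      (Sum.elim (du τ u (app M u) + dK τ K u)
        fun b => (du τ' (a u) (app M' (a u) + aD D a u) + dK τ' K' (a u)) (t b)) :=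
    (diff_ev h1 _ hF).add (diff_dP h1 Q hF
      (diff_elim hG1 (differentiable_pi.2 fun b => differentiable_pi.1 hG2 (t b))))
  have hA := h0 _ _ _ Set.univ isOpen_univ hE.differentiableOn
  have hp := h2.poly _ _ D (FF τ τ' a t) (fun u => Sum.elim (du τ u (app M u) + dK τ K u)
      (fun b => (du τ' (a u) (app M' (a u) + aD D a u) + dK τ' K' (a u)) (t b)) +
      Sum.elim ((u ⬝ᵥ app N u + c) • th τ u)
        (((a u) ⬝ᵥ app N' (a u) + c') • fun b => th τ' (a u) (t b))) Q (by
    rintro (i | b)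
    · exact hT.2 i
    · have hc := h2.comp _ _ D _ _ a (aD D a) (hT'.2 (t b))
        (h0 _ _ _ Set.univ isOpen_univ (differentiable_pi.1 hθ' (t b)).differentiableOn 0
          (Set.mem_univ _)) (map_zero a) (tw_lin h2 D a)
      refine h2.congr _ D _ _ _ _ hc (Eventually.of_forall fun u => rfl)
        (Eventually.of_forall fun u => ?_)
      simp only [fderiv_comp_apply h4 hτ', du_add, Pi.add_apply, Sum.elim_inr, Pi.smul_apply,
        smul_eq_mul]
      ring)
  have hp' : Tw D (fun _ : V g => (0 : ℂ)) fun u =>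
      eval (FF τ τ' a t u) (cD D Q) + dP Q (FF τ τ' a t u)
      (Sum.elim (du τ u (app M u) + dK τ K u)
        fun b => (du τ' (a u) (app M' (a u) + aD D a u) + dK τ' K' (a u)) (t b)) := by
    refine h2.congr _ D _ _ _ _ hp (Eventually.of_forall hz) (Eventually.of_forall fun u => ?_)
    have e := h1.euler _ _ Q k l hQ (u ⬝ᵥ app N u + c) ((a u) ⬝ᵥ app N' (a u) + c') (th τ u)
      (fun b => th τ' (a u) (t b))
    have e0 : eval (Sum.elim (th τ u) fun b => th τ' (a u) (t b)) Q = 0 := hz u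
    rw [e0, mul_zero] at e
    have e' : dP Q (FF τ τ' a t u) (Sum.elim ((u ⬝ᵥ app N u + c) • th τ u)
        (((a u) ⬝ᵥ app N' (a u) + c') • fun b => th τ' (a u) (t b))) = 0 := e
    simp only [h1.dP_add, e', add_zero]
  have hu := h2.uniq _ D _ _ _ hp' (h2.const _ D 0) (hA 0 (Set.mem_univ _)) analyticAt_const
  rw [map_zero] at hu
  exact hA.eqOn_zero_of_preconnected_of_eventuallyEq_zero isPreconnected_univ (Set.mem_univ 0) hu
    (Set.mem_univ u)

/-- the derivative of the relation -/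
theorem tangent (h1 : PolS) (h4 : LawS) {τ : Mat g} {τ' : Mat g'} (a : V g →ₗ[ℂ] V g')
    (hτ : Sg τ) (hτ' : Sg τ') (t : Fin 2 → Ix g') {Q : MvPolynomial (Ix g ⊕ Fin 2) ℂ}
    (hz : ∀ u, eval (FF τ τ' a t u) Q = 0) (u v : V g) :
    dP Q (FF τ τ' a t u) (Sum.elim (du τ u v) fun b => du τ' (a u) (a v) (t b)) = 0 := by
  have hθ := ((h4.holu g τ hτ).1 u).hasFDerivAt
  have hθ' := ((h4.holu g' τ' hτ').1 (a u)).hasFDerivAt.comp u
    (LinearMap.toContinuousLinearMap a).hasFDerivAt
  have hF : HasFDerivAt (FF τ τ' a t) (ContinuousLinearMap.pi (Sum.elim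
      (fun i => (ContinuousLinearMap.proj i).comp (fderiv ℂ (th τ) u))
      fun b => (ContinuousLinearMap.proj (t b)).comp ((fderiv ℂ (th τ') (a u)).comp
        (LinearMap.toContinuousLinearMap a)))) u := by
    rw [hasFDerivAt_pi']
    rintro (i | b)
    · exact hasFDerivAt_pi'.1 hθ i
    · exact hasFDerivAt_pi'.1 hθ' (t b)
  have hc := ((h1.diff_eval _ Q) (FF τ τ' a t u)).hasFDerivAt.comp u hF
  have hc0 : HasFDerivAt ((fun y => eval y Q) ∘ FF τ τ' a t) (0 : V g →L[ℂ] ℂ) u := by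
    have : (fun y => eval y Q) ∘ FF τ τ' a t = fun _ => 0 := funext hz
    rw [this]
    exact hasFDerivAt_const _ _
  have e := congrArg (fun L : V g →L[ℂ] ℂ => L v) (hc.unique hc0)
  simp only [ContinuousLinearMap.comp_apply, h1.fderiv_eval, _root_.zero_apply] at e
  rw [← e]
  congr 1
  funext s
  rcases s with i | b <;> rfl

theorem core (h0 : OsgS) (h1 : PolS) (h2 : TwS) (h4 : LawS) (h5 : GeoS) (h6 : XHolS)
    (h7 : HomRelS) {D : Der} {τ M K N : Mat g} {c : ℂ} {τ' M' K' N' : Mat g'} {c' : ℂ}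
    (a : V g →ₗ[ℂ] V g') (hτ : Sg τ) (hτ' : Sg τ') (hT : IsTw D τ M K N c)
    (hT' : IsTw D τ' M' K' N' c')
    (hp : ∀ p : Zg g, ∃ p' : Zg g', a (per τ (cst p)) = per τ' (cst p')) {p : Zg g} {p' : Zg g'}
    (hpp : a (per τ (cst p)) = per τ' (cst p')) :
    a (beta D τ M K (cst p)) = beta D τ' M' K' (cst p') := by
  obtain ⟨v, hv⟩ : ∃ v, v = app M (per τ (cst p)) - app K (lft (cst p)) := ⟨_, rfl⟩
  obtain ⟨v', hv'⟩ : ∃ v', v' = app M' (per τ' (cst p')) + aD D a (per τ (cst p)) -
    app K' (lft (cst p')) := ⟨_, rfl⟩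
  have hD := D_a D a (per τ (cst p))
  rw [hpp, D_per, D_per] at hD
  suffices hw : v' - a v = 0 by
    simp only [beta, app_sub_mat, map_add, map_sub]
    rw [hD]
    rw [hv, hv', map_sub, sub_eq_zero] at hw
    have : a (app M (per τ (cst p))) = app M' (per τ' (cst p')) + aD D a (per τ (cst p)) -
      app K' (lft (cst p')) + a (app K (lft (cst p))) := by rw [hw]; abel
    rw [this]
    abel
  obtain ⟨t0, ht0⟩ := Function.ne_iff.1 (h5.nz g' τ' hτ' 0)
  refine h6.neom' g' τ' _ t0 hτ' ht0 fun t1 => ?_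
  obtain ⟨Q, k, l, hQ, hz, u0, hu0⟩ := h7 g g' τ τ' (LinearMap.toContinuousLinearMap a) hτ hτ' hp
    ![t0, t1] ht0
  have hz' : ∀ u, eval (FF τ τ' a ![t0, t1] u) Q = 0 := hz
  have hE := twisted h0 h1 h2 h4 a hτ hτ' hT hT' ![t0, t1] hQ hz'
  have key : ∀ u, dP Q (FF τ τ' a ![t0, t1] u)
      (Sum.elim 0 fun b => du τ' (a u) (v' - a v) (![t0, t1] b)) = 0 := by
    intro u
    obtain ⟨s, hs⟩ := shift1 h4 hτ hT.1 p u (app M (u + per τ (cst p)))
    obtain ⟨s', hs'⟩ := shift1 h4 hτ' hT'.1 p' (a u)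
      (app M' (a (u + per τ (cst p))) + aD D a (u + per τ (cst p)))
    have hE1 := hE (u + per τ (cst p))
    have hau : a (u + per τ (cst p)) = a u + per τ' (cst p') := by rw [map_add, hpp]
    have eF : FF τ τ' a ![t0, t1] (u + per τ (cst p)) = Sum.elim (ee τ ((4 : ℤ) • p) u • th τ u)
        (ee τ' ((4 : ℤ) • p') (a u) • fun b => th τ' (a u) (![t0, t1] b)) := by
      unfold FF
      rw [hau, shift0 h4 hτ, shift0 h4 hτ']
      rfl
    rw [← hau] at hs'
    rw [hs, hs', eF] at hE1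
    have e1 := h1.bih_eval _ _ _ k l (h1.bih_cD _ _ D Q k l hQ) (ee τ ((4 : ℤ) • p) u)
      (ee τ' ((4 : ℤ) • p') (a u)) (th τ u) (fun b => th τ' (a u) (![t0, t1] b))
    have e2 := h1.bih_dP _ _ Q k l hQ (ee τ ((4 : ℤ) • p) u) (ee τ' ((4 : ℤ) • p') (a u)) (th τ u)
      (du τ u (app M (u + per τ (cst p)) - app K (lft (cst p))) + dK τ K u + s • th τ u)
      (fun b => th τ' (a u) (![t0, t1] b))
      (fun b => (du τ' (a u) (app M' (a (u + per τ (cst p))) + aD D a (u + per τ (cst p)) -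
        app K' (lft (cst p'))) + dK τ' K' (a u) + s' • th τ' (a u)) (![t0, t1] b))
    have hE2 := (congrArg₂ (· + ·) e1 e2).symm.trans hE1
    rw [← mul_add] at hE2
    have hne : ee τ ((4 : ℤ) • p) u ^ k * ee τ' ((4 : ℤ) • p') (a u) ^ l ≠ 0 :=
      mul_ne_zero (pow_ne_zero _ (Complex.exp_ne_zero _)) (pow_ne_zero _ (Complex.exp_ne_zero _))
    have hE3 := (mul_eq_zero.1 hE2).resolve_left hne
    have e3 : (Sum.elim
        (du τ u (app M (u + per τ (cst p)) - app K (lft (cst p))) + dK τ K u + s • th τ u)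
        (fun b => (du τ' (a u) (app M' (a (u + per τ (cst p))) + aD D a (u + per τ (cst p)) -
          app K' (lft (cst p'))) + dK τ' K' (a u) + s' • th τ' (a u)) (![t0, t1] b)) :
          Ix g ⊕ Fin 2 → ℂ) =
        (Sum.elim (du τ u (app M u) + dK τ K u) fun b =>
          (du τ' (a u) (app M' (a u) + aD D a u) + dK τ' K' (a u)) (![t0, t1] b)) +
        (Sum.elim (s • th τ u) (s' • fun b => th τ' (a u) (![t0, t1] b))) +
        (Sum.elim (du τ u v) fun b => du τ' (a u) (a v) (![t0, t1] b)) +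
        (Sum.elim (0 : Ix g → ℂ) fun b => du τ' (a u) (v' - a v) (![t0, t1] b)) := by
      have f1 : app M (u + per τ (cst p)) - app K (lft (cst p)) = app M u + v := by
        rw [hv, app_add]; abel
      have f2 : app M' (a (u + per τ (cst p))) + aD D a (u + per τ (cst p)) -
          app K' (lft (cst p')) = (app M' (a u) + aD D a u) + a v + (v' - a v) := by
        rw [hv', hau, app_add, map_add]; abel
      rw [f1, f2, du_add, du_add τ' _ _ (v' - a v), du_add τ' _ _ (a v)]
      funext j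
      rcases j with i | b
      · simp only [Sum.elim_inl, Pi.add_apply, Pi.zero_apply]
        ring
      · simp only [Sum.elim_inr, Pi.add_apply, Pi.smul_apply]
        ring
    rw [e3, h1.dP_add, h1.dP_add, h1.dP_add, h1.euler _ _ Q k l hQ] at hE3
    have g1 := hE u
    have g2 := hz' u
    have g3 := tangent h1 h4 a hτ hτ' ![t0, t1] hz' u v
    unfold FF at g1 g2 g3 ⊢
    rw [g2, g3] at hE3
    linear_combination hE3 - g1
  have ha : Differentiable ℂ a := (LinearMap.toContinuousLinearMap a).differentiable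
  have hθ := (h4.holu g τ hτ).1
  have hθ' := (h4.holu g' τ' hτ').1.comp ha
  have hd' : Differentiable ℂ fun u => du τ' (a u) (v' - a v) :=
    (h4.holu g' τ' hτ').2.comp (ha.prodMk (differentiable_const _))
  have hF : Differentiable ℂ (FF τ τ' a ![t0, t1]) :=
    diff_elim hθ (differentiable_pi.2 fun b => differentiable_pi.1 hθ' (![t0, t1] b))
  have hW := zero_of_mul h0 (f := fun u => eval (FF τ τ' a ![t0, t1] u) (pderiv (Sum.inr 1) Q))
    (k := fun u => th τ' (a u) t0 * du τ' (a u) (v' - a v) t1 -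
      th τ' (a u) t1 * du τ' (a u) (v' - a v) t0) (diff_ev h1 _ hF)
    (((differentiable_pi.1 hθ' t0).mul (differentiable_pi.1 hd' t1)).sub
      ((differentiable_pi.1 hθ' t1).mul (differentiable_pi.1 hd' t0)))
    (fun u => h1.wronski _ Q k l hQ _ _ _ (hz' u) (key u)) hu0 0
  rw [map_zero] at hW
  exact hW

end HomAux

open HomAux

theorem homRel (h2 : RelS) (h4 : LawS) (h5 : GeoS) : HomRelS := by
  intro g g' τ τ' a hτ hτ' hp t ht
  obtain ⟨R, hR⟩ := h4.cocompact g τ hτ
  have hc : Charts (ι := Unit) (fun _ => (Set.univ : Set (V g))) (fun _ => Metric.closedBall 0 R)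
      (fun _ => th τ) (fun _ u => th τ' (a u)) :=
    { op := fun _ => isOpen_univ
      cpt := fun _ => isCompact_closedBall _ _
      sub := fun _ => Set.subset_univ _
      holX := fun _ => (h4.holu g τ hτ).1.differentiableOn
      holY := fun _ => ((h4.holu g' τ' hτ').1.comp a.differentiable).differentiableOn
      neX := fun _ p _ => h5.nz g τ hτ p
      neY := fun _ p _ => h5.nz g' τ' hτ' _
      mtch := fun _ u _ => by
        obtain ⟨p, hp1⟩ := hR u
        obtain ⟨p', hp'⟩ := hp p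
        refine subset_closure ⟨Set.mem_univ _, (), u - per τ (cst p),
          mem_closedBall_zero_iff.2 hp1, ee τ ((4 : ℤ) • p) (u - per τ (cst p)),
          ee τ' ((4 : ℤ) • p') (a (u - per τ (cst p))), ?_, ?_⟩
        · rw [← shift0 h4 hτ, sub_add_cancel]
        · show th τ' (a u) = _ • th τ' (a (u - per τ (cst p)))
          rw [← shift0 h4 hτ', ← hp', ← map_add, sub_add_cancel] }
  obtain ⟨Q, k, l, hQ, h1, u, -, h3⟩ := h2 _ _ _ _ _ _ _ _ hc () t isPreconnected_univ
    ⟨0, Set.mem_univ _, h5.nz g τ hτ 0, fun w c h => h5.imm g τ hτ 0 w c h⟩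
    ⟨0, Set.mem_univ _, by simpa using ht⟩
  exact ⟨Q, k, l, hQ, fun u => h1 u (Set.mem_univ _), u, h3⟩

theorem hom (h0 : OsgS) (h1 : PolS) (h2 : TwS) (h4 : LawS) (h5 : GeoS) (h6 : XHolS)
    (h7 : HomRelS) : HomS := by
  intro g g' D τ M K N c τ' M' K' N' c' a ρ hτ hτ' hT hT' hr ha w
  obtain ⟨n, hn, hp⟩ := exists_scale ρ hr
  have hp' : ∀ (p : Zg g) (p' : Zg g'), n • ρ (cst p) = cst p' →
      (n • a) (per τ (cst p)) = per τ' (cst p') := fun p p' h => by
    rw [LinearMap.smul_apply, ha, ← per_smul, h]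
  have hb : ∀ i : Fin g ⊕ Fin g, a (betaL D τ M K (Pi.single i 1)) =
      betaL D τ' M' K' (ρ (Pi.single i 1)) := by
    intro i
    have e : (Pi.single i 1 : W g) = cst (Pi.single i 1) := by
      funext j
      by_cases hij : j = i <;> simp [cst, hij]
    obtain ⟨p', h⟩ := hp (Pi.single i 1)
    have hc := core h0 h1 h2 h4 h5 h6 h7 (n • a) hτ hτ' hT hT'
      (fun p => (hp p).imp fun p' h => hp' p p' h) (hp' _ _ h)
    rw [← h, ← e] at hc
    have hc' : n • a (betaL D τ M K (Pi.single i 1)) =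
        betaL D τ' M' K' (n • ρ (Pi.single i 1)) := hc
    rw [map_smul] at hc'
    exact smul_right_injective _ hn hc'
  have := lin_apply (a ∘ₗ betaL D τ M K) w
  have e2 := lin_apply (betaL D τ' M' K' ∘ₗ ρ) w
  simp only [LinearMap.comp_apply, hb] at this e2
  exact this.trans e2.symm

end Pool.Agent.Lib.MP_caab05_ag.GB
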