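import Mathlib
import Pool.Agent.Lib.MP_caab05_ag.GB.Stmt2

/-! The ideal of the image of the theta functions is defined over the algebraic numbers. -/

namespace Pool.Agent.Lib.MP_caab05_ag.GB

open MvPolynomial Filter Topology Asymptotics Complex Matrix

namespace IdealAux

theorem alg_of_der (h3 : DerS) (x : ℂ) (h : ∀ D : Der, D x = 0) : IsAlgebraic ℚ x :=
  (h3 ⊥ x fun D _ => h D).restrictScalars ℚ

/-- a space of polynomials stable under all derivations is spanned by algebraic ones -/
theorem descent {σ : Type} (h1 : PolS) (h3 : DerS) (J : Submodule ℂ (MvPolynomial σ ℂ))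
    (hJ : ∀ D : Der, ∀ P ∈ J, cD D P ∈ J) (x : σ → ℂ)
    (hx : ∀ P ∈ J, LT.AlgCoeff P → eval x P = 0) : ∀ P ∈ J, eval x P = 0 := by
  classical
  have key : ∀ n : ℕ, ∀ P ∈ J, P.support.card = n → eval x P = 0 := by
    intro n
    induction n using Nat.strong_induction_on with
    | _ n ih =>
      intro P hP hn
      by_cases hA : ∃ Q ∈ J, Q ≠ 0 ∧ Q.support ⊂ P.support
      · obtain ⟨Q, hQ, hQ0, hQs⟩ := hA
        obtain ⟨m, hm⟩ := support_nonempty.2 hQ0
        have hm' : coeff m Q ≠ 0 := mem_support_iff.1 hm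
        have e1 : eval x Q = 0 := ih _ (hn ▸ Finset.card_lt_card hQs) Q hQ rfl
        have hR : P - (coeff m P / coeff m Q) • Q ∈ J := J.sub_mem hP (J.smul_mem _ hQ)
        have hRs : (P - (coeff m P / coeff m Q) • Q).support ⊂ P.support := by
          refine Finset.ssubset_iff_subset_ne.2 ⟨?_, ?_⟩
          · intro d hd
            by_contra hd'
            have a1 : coeff d P = 0 := notMem_support_iff.1 hd'
            have a2 : coeff d Q = 0 := notMem_support_iff.1 fun h => hd' (hQs.1 h)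
            apply mem_support_iff.1 hd
            rw [coeff_sub, coeff_smul, a1, a2]
            simp
          · intro he
            have : m ∈ (P - (coeff m P / coeff m Q) • Q).support := he ▸ hQs.1 hm
            apply mem_support_iff.1 this
            rw [coeff_sub, coeff_smul, smul_eq_mul, div_mul_cancel₀ _ hm', sub_self]
        have e2 := ih _ (hn ▸ Finset.card_lt_card hRs) _ hR rfl
        rw [map_sub, smul_eval, e1, mul_zero, sub_zero] at e2
        exact e2
      · by_cases hP0 : P = 0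
        · rw [hP0, map_zero]
        obtain ⟨m, hm⟩ := support_nonempty.2 hP0
        have hm' : coeff m P ≠ 0 := mem_support_iff.1 hm
        have hR : (coeff m P)⁻¹ • P ∈ J := J.smul_mem _ hP
        have hD : ∀ D : Der, cD D ((coeff m P)⁻¹ • P) = 0 := by
          intro D
          by_contra hne
          refine hA ⟨_, hJ D _ hR, hne, Finset.ssubset_iff_subset_ne.2 ⟨?_, ?_⟩⟩
          · intro d hd
            by_contra hd'
            apply mem_support_iff.1 hd
            rw [h1.coeff_cD, coeff_smul, notMem_support_iff.1 hd']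
            simp
          · intro he
            have : m ∈ (cD D ((coeff m P)⁻¹ • P)).support := he ▸ hm
            apply mem_support_iff.1 this
            rw [h1.coeff_cD, coeff_smul, smul_eq_mul, inv_mul_cancel₀ hm', Derivation.map_one_eq_zero]
        have e1 := hx _ hR fun d => alg_of_der h3 _ fun D => by
          rw [← h1.coeff_cD, hD, coeff_zero]
        rw [smul_eval] at e1
        exact (mul_eq_zero.1 e1).resolve_left (inv_ne_zero hm')
  exact fun P hP => key _ P hP rfl

theorem eval_smul_hom {σ : Type} (P : MvPolynomial σ ℂ) (k : ℕ) (h : P.IsHomogeneous k) (c : ℂ)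
    (x : σ → ℂ) : eval (c • x) P = c ^ k * eval x P := by
  rw [eval_eq, eval_eq, Finset.mul_sum]
  refine Finset.sum_congr rfl fun d hd => ?_
  rw [h.degree_eq_sum_deg_support hd, ← Finset.prod_pow_eq_pow_sum]
  simp only [Pi.smul_apply, smul_eq_mul, mul_pow, Finset.prod_mul_distrib]
  ring

theorem euler {σ : Type} [Fintype σ] (P : MvPolynomial σ ℂ) (k : ℕ) (h : P.IsHomogeneous k)
    (x : σ → ℂ) : dP P x x = k * eval x P := by
  have := congrArg (eval x) h.sum_X_mul_pderiv
  rw [map_sum, map_nsmul, nsmul_eq_mul] at this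
  rw [← this, dP]
  refine Finset.sum_congr rfl fun i _ => ?_
  rw [map_mul, eval_X, mul_comm]

/-- the forms of degree `k` vanishing on the image -/
def forms {g : ℕ} (τ : Mat g) (k : ℕ) : Submodule ℂ (MvPolynomial (Ix g) ℂ) where
  carrier := {P | P.IsHomogeneous k ∧ ∀ z, eval (th τ z) P = 0}
  add_mem' := fun {P Q} hP hQ => ⟨hP.1.add hQ.1, fun z => by
    rw [map_add, hP.2 z, hQ.2 z, add_zero]⟩
  zero_mem' := ⟨isHomogeneous_zero _ _ _, fun z => map_zero _⟩
  smul_mem' := fun c P hP => ⟨(homogeneousSubmodule (Ix g) ℂ k).smul_mem c hP.1, fun z => by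
    rw [smul_eval, hP.2 z, mul_zero]⟩

theorem stable (h0 : OsgS) (h1 : PolS) (h2 : TwS) (h4 : LawS) {g : ℕ} (τ : Mat g) (hτ : Sg τ)
    (D : Der) (M N : Mat g) (c : ℂ) (hT : IsTw D τ M 0 N c) (k : ℕ)
    (P : MvPolynomial (Ix g) ℂ) (hP : P ∈ forms τ k) : cD D P ∈ forms τ k := by
  obtain ⟨hk, hz⟩ := hP
  have hth : Differentiable ℂ (th τ) := (h4.holu g τ hτ).1
  refine ⟨?_, ?_⟩
  · intro d hd
    apply hk
    intro h
    apply hd
    rw [h1.coeff_cD, h, map_zero]
  · have t1 := h2.poly (Fin g) (Ix g) D (th τ)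
      (fun u a => du τ u (app M u) a + dK τ 0 u a + (u ⬝ᵥ app N u + c) * th τ u a) P hT.2
    have e1 : ∀ u w : V g, dP P (th τ u) (du τ u w) = 0 := by
      intro u w
      have a1 : HasFDerivAt (fun v : V g => eval (th τ v) P)
          ((fderiv ℂ (fun y : Ix g → ℂ => eval y P) (th τ u)).comp (fderiv ℂ (th τ) u)) u :=
        HasFDerivAt.comp (f := th τ) u (h1.diff_eval _ P (th τ u)).hasFDerivAt (hth u).hasFDerivAt
      have a2 : (fun v : V g => eval (th τ v) P) = fun _ => 0 := funext hz
      rw [a2] at a1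
      have a3 := a1.unique (hasFDerivAt_const (0 : ℂ) u)
      rw [← h1.fderiv_eval]
      exact congrArg (fun L : V g →L[ℂ] ℂ => L w) a3
    have e2 : ∀ u : V g, dP P (th τ u)
        (fun a => du τ u (app M u) a + dK τ 0 u a + (u ⬝ᵥ app N u + c) * th τ u a) = 0 := by
      intro u
      have a1 : (fun a => du τ u (app M u) a + dK τ 0 u a + (u ⬝ᵥ app N u + c) * th τ u a) =
          du τ u (app M u) + (u ⬝ᵥ app N u + c) • th τ u := by
        funext a
        simp [dK]
      rw [a1, h1.dP_add, h1.dP_smul, e1, euler P k hk, hz]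
      simp
    simp only [e2, add_zero, hz] at t1
    have t2 := h2.const (Fin g) D 0
    rw [map_zero] at t2
    have an : AnalyticOnNhd ℂ (fun u : V g => eval (th τ u) (cD D P)) Set.univ :=
      h0 _ _ _ _ isOpen_univ ((h1.diff_eval _ (cD D P)).comp hth).differentiableOn
    have t3 := h2.uniq (Fin g) D _ _ _ t1 t2 (an 0 trivial) analyticAt_const
    intro z
    exact an.eqOn_zero_of_preconnected_of_eventuallyEq_zero isPreconnected_univ
      (Set.mem_univ 0) t3 (Set.mem_univ z)

end IdealAux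

theorem ideal (h0 : OsgS) (h1 : PolS) (h2 : TwS) (h3 : DerS) (h4 : LawS) (h5 : GeoS)
    (h6 : ImgS) : IdealS := by
  intro g τ hτ hD
  refine ⟨{P | (∃ k, P ∈ IdealAux.forms τ k) ∧ LT.AlgCoeff P}, ?_, ?_⟩
  · rintro P ⟨⟨k, hk⟩, hP⟩
    exact ⟨⟨k, hk.1⟩, hP⟩
  · ext x
    constructor
    · intro hx
      obtain ⟨R, hR⟩ := h4.cocompact g τ hτ
      refine h6 g (Ix g) (th τ) (Set.range fun p => per τ (cst p)) R (h4.holu g τ hτ).1
        (h5.nz g τ hτ) ?_ ?_ ?_ (h5.imm g τ hτ) x ?_
      · intro z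
        obtain ⟨p, hp⟩ := hR z
        exact ⟨_, ⟨p, rfl⟩, hp⟩
      · rintro l ⟨p, rfl⟩ z
        refine ⟨ee τ ((4 : ℤ) • p) z, ?_⟩
        have := h4.law g τ hτ ((4 : ℤ) • p) z
        rwa [h4.tor_four, h4.hh_four] at this
      · intro z w c h
        obtain ⟨p, hp⟩ := h5.inj g τ hτ z w c h
        exact ⟨p, hp.symm⟩
      · intro P k hk hz
        refine IdealAux.descent h1 h3 (IdealAux.forms τ k) ?_ x ?_ P ⟨hk, hz⟩
        · intro D Q hQ
          obtain ⟨M, N, c, hT⟩ := hD D
          exact IdealAux.stable h0 h1 h2 h4 τ hτ D M N c hT k Q hQ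
        · intro Q hQ hA
          exact hx Q ⟨⟨k, hQ⟩, hA⟩
    · rintro ⟨c, z, rfl⟩ P ⟨⟨k, hk⟩, -⟩
      rw [IdealAux.eval_smul_hom P k hk.1, hk.2 z, mul_zero]

end Pool.Agent.Lib.MP_caab05_ag.GB
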