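import Pool.Agent.Lib.MP_caab05_ag.GB.Img1

/-! Linear projections in general position, and the algebraic relations. -/

namespace Pool.Agent.Lib.MP_caab05_ag.GB.ImgAux

open MvPolynomial Filter Topology Asymptotics Complex Metric Module

section proj

lemma avoid {E₁ E₂ F : Type} [NormedAddCommGroup E₁] [NormedSpace ℂ E₁] [FiniteDimensional ℂ E₁]
    [NormedAddCommGroup E₂] [NormedSpace ℂ E₂] [FiniteDimensional ℂ E₂]
    [NormedAddCommGroup F] [NormedSpace ℂ F] [FiniteDimensional ℂ F]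
    {f₁ : E₁ → F} {f₂ : E₂ → F} (h₁ : ContDiff ℂ 1 f₁) (h₂ : ContDiff ℂ 1 f₂)
    (d₁ : finrank ℂ E₁ < finrank ℂ F) (d₂ : finrank ℂ E₂ < finrank ℂ F) :
    ∃ v, (∀ p, f₁ p ≠ v) ∧ ∀ p, f₂ p ≠ v := by
  have a₁ := (h₁.restrict_scalars ℝ).dimH_range_le
  have a₂ := (h₂.restrict_scalars ℝ).dimH_range_le
  have : dimH (Set.range f₁ ∪ Set.range f₂) < finrank ℝ F := by
    rw [dimH_union, max_lt_iff]
    refine ⟨a₁.trans_lt ?_, a₂.trans_lt ?_⟩ <;>
      (rw [finrank_real_of_complex, finrank_real_of_complex]; norm_cast; omega)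
  obtain ⟨v, hv⟩ := (dense_compl_of_dimH_lt_finrank this).nonempty
  exact ⟨v, fun p e => hv (Or.inl ⟨p, e⟩), fun p e => hv (Or.inr ⟨p, e⟩)⟩

lemma exists_proj {N : ℕ} {v : Fin (N + 1) → ℂ} (hv : v ≠ 0) :
    ∃ π : (Fin (N + 1) → ℂ) →L[ℂ] (Fin N → ℂ), ∀ y, π y = 0 → ∃ a : ℂ, y = a • v := by
  have h1 := Submodule.finrank_quotient_add_finrank (Submodule.span ℂ {v})
  rw [finrank_span_singleton hv, finrank_fin_fun] at h1
  have e : ((Fin (N + 1) → ℂ) ⧸ Submodule.span ℂ {v}) ≃ₗ[ℂ] (Fin N → ℂ) :=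
    LinearEquiv.ofFinrankEq _ _ (by rw [finrank_fin_fun]; omega)
  refine ⟨LinearMap.toContinuousLinearMap (e.toLinearMap ∘ₗ (Submodule.span ℂ {v}).mkQ),
    fun y hy => ?_⟩
  have : e ((Submodule.span ℂ {v}).mkQ y) = 0 := hy
  rw [e.map_eq_zero_iff, Submodule.mkQ_apply, Submodule.Quotient.mk_eq_zero,
    Submodule.mem_span_singleton] at this
  obtain ⟨a, ha⟩ := this
  exact ⟨a, ha.symm⟩

variable {d : ℕ} {ι : Type} [Fintype ι] {θ : V d → ι → ℂ}

/-- a projection which is defined on the image and immersive at the origin -/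
structure Good (θ : V d → ι → ℂ) {N : ℕ} (q : (ι → ℂ) →L[ℂ] (Fin N → ℂ)) : Prop where
  nz : ∀ z, q (θ z) ≠ 0
  im : ∀ (u : V d) (c : ℂ), q (fderiv ℂ θ 0 u) = c • q (θ 0) → u = 0

omit [Fintype ι] in
lemma Good.step {N : ℕ} {q : (ι → ℂ) →L[ℂ] (Fin (N + 1) → ℂ)} (h : Good θ q)
    {v : Fin (N + 1) → ℂ} (h1 : ∀ (c : ℂ) z, c • q (θ z) ≠ v)
    (h2 : ∀ p : ℂ × V d, q (fderiv ℂ θ 0 p.2) + p.1 • q (θ 0) ≠ v)
    {π : (Fin (N + 1) → ℂ) →L[ℂ] (Fin N → ℂ)} (hπ : ∀ y, π y = 0 → ∃ a : ℂ, y = a • v) :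
    Good θ (π.comp q) := by
  refine ⟨fun z hz => ?_, fun u c hu => ?_⟩
  · obtain ⟨a, ha⟩ := hπ (q (θ z)) hz
    have a0 : a ≠ 0 := fun e => h.nz z (by rw [ha, e, zero_smul])
    exact h1 a⁻¹ z (by rw [ha, smul_smul, inv_mul_cancel₀ a0, one_smul])
  · obtain ⟨a, ha⟩ := hπ (q (fderiv ℂ θ 0 u) - c • q (θ 0)) (by
      rw [map_sub, map_smul, sub_eq_zero]; exact hu)
    by_cases a0 : a = 0
    · exact h.im u c (by rw [← sub_eq_zero, ha, a0, zero_smul])
    · refine absurd ?_ (h2 (-(a⁻¹ * c), a⁻¹ • u))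
      simp only [map_smul]
      rw [neg_smul, ← sub_eq_add_neg, mul_smul, ← smul_sub, ha, smul_smul, inv_mul_cancel₀ a0,
        one_smul]

lemma cd_lin {N : ℕ} (q : (ι → ℂ) →L[ℂ] (Fin N → ℂ)) :
    ContDiff ℂ 1 fun p : ℂ × V d => q (fderiv ℂ θ 0 p.2) + p.1 • q (θ 0) := by
  fun_prop

lemma desc (hθ : ContDiff ℂ 1 θ) {x : ι → ℂ} (m : ℕ) :
    ∀ q : (ι → ℂ) →L[ℂ] (Fin (d + 2 + m) → ℂ), Good θ q → (∀ (c : ℂ) z, q x ≠ c • q (θ z)) →
      ∃ q' : (ι → ℂ) →L[ℂ] (Fin (d + 2) → ℂ), Good θ q' ∧ ∀ (c : ℂ) z, q' x ≠ c • q' (θ z) := by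
  induction m with
  | zero => exact fun q h1 h2 => ⟨q, h1, h2⟩
  | succ m ih =>
    intro q h1 h2
    obtain ⟨v, a1, a2⟩ := avoid
      (f₁ := fun p : ℂ × ℂ × V d => p.1 • q x + p.2.1 • q (θ p.2.2)) (by fun_prop) (cd_lin (θ := θ) q)
      (by simp; omega) (by simp; omega)
    have a3 : ∀ (c : ℂ) z, c • q (θ z) ≠ v := fun c z => by simpa using a1 (0, c, z)
    obtain ⟨π, hπ⟩ := exists_proj (N := d + 2 + m) (v := v) (by simpa using (a3 0 0).symm)
    refine ih (π.comp q) (Good.step (N := d + 2 + m) h1 a3 a2 hπ) fun c z e => ?_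
    obtain ⟨a, ha⟩ := hπ (q x - c • q (θ z)) (by rw [map_sub, map_smul, sub_eq_zero]; exact e)
    by_cases a0 : a = 0
    · exact h2 c z (by rw [← sub_eq_zero, ha, a0, zero_smul])
    · refine a1 (a⁻¹, -(a⁻¹ * c), z) ?_
      simp only
      rw [neg_smul, ← sub_eq_add_neg, mul_smul, ← smul_sub, ha, smul_smul, inv_mul_cancel₀ a0,
        one_smul]

lemma proj (hθ : ContDiff ℂ 1 θ) (hnz : ∀ z, θ z ≠ 0)
    (him : ∀ (u : V d) (c : ℂ), fderiv ℂ θ 0 u = c • θ 0 → u = 0) {x : ι → ℂ}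
    (hx : ∀ (c : ℂ) z, x ≠ c • θ z) :
    ∃ (w : (ι → ℂ) →L[ℂ] (Fin (d + 1) → ℂ)) (l : (ι → ℂ) →L[ℂ] ℂ), Good θ w ∧
      ∀ (c : ℂ) z, w x = c • w (θ z) → l x ≠ c * l (θ z) := by
  obtain ⟨f, hf⟩ := (finrank_le_iff_exists_linearMap (R := ℂ) (M := ι → ℂ)
    (M' := Fin (d + 2 + Fintype.card ι) → ℂ)).1 (by simp)
  obtain ⟨q, h1, h2⟩ := desc hθ (x := x) _ (LinearMap.toContinuousLinearMap f)
    ⟨fun z e => hnz z (hf (by rw [map_zero]; exact e)),
      fun u c e => him u c (hf (by rw [map_smul]; exact e))⟩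
    fun c z e => hx c z (hf (by rw [map_smul]; exact e))
  obtain ⟨v, a1, a2⟩ := avoid
    (f₁ := fun p : ℂ × V d => p.1 • q (θ p.2)) (by fun_prop) (cd_lin (θ := θ) q)
    (by simp; omega) (by simp; omega)
  have a3 : ∀ (c : ℂ) z, c • q (θ z) ≠ v := fun c z => a1 (c, z)
  have hv : v ≠ 0 := by simpa using (a3 0 0).symm
  obtain ⟨π, hπ⟩ := exists_proj (N := d + 1) hv
  obtain ⟨i, hi⟩ := Function.ne_iff.1 hv
  refine ⟨π.comp q, (ContinuousLinearMap.proj i).comp q, Good.step (N := d + 1) h1 a3 a2 hπ,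
    fun c z e e' => ?_⟩
  obtain ⟨a, ha⟩ := hπ (q x - c • q (θ z)) (by rw [map_sub, map_smul, sub_eq_zero]; exact e)
  have e2 : q x i = c * q (θ z) i := e'
  have := congrFun ha i
  simp only [Pi.sub_apply, Pi.smul_apply, smul_eq_mul, e2, sub_self] at this
  have a0 : a = 0 := (mul_eq_zero.1 this.symm).resolve_right hi
  exact h2 c z (by rw [← sub_eq_zero, ha, a0, zero_smul])

end proj

section alg

lemma eval_scale {σ : Type} (w : σ → ℕ) {P : MvPolynomial σ ℂ} {k : ℕ}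
    (hP : P.IsWeightedHomogeneous w k) (c : ℂ) (x : σ → ℂ) :
    eval (fun i => c ^ w i * x i) P = c ^ k * eval x P := by
  rw [eval_eq, eval_eq, Finset.mul_sum]
  refine Finset.sum_congr rfl fun m hm => ?_
  have h := hP (mem_support_iff.1 hm)
  rw [Finsupp.weight_apply, Finsupp.sum] at h
  simp only [mul_pow, Finset.prod_mul_distrib, ← pow_mul, Finset.prod_pow_eq_pow_sum, ← h,
    smul_eq_mul, mul_comm (w _)]
  ring

lemma eval_bih {α β : Type} {Q : MvPolynomial (α ⊕ β) ℂ} {k l : ℕ} (h : BiH Q k l) (c : ℂ)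
    (x : α ⊕ β → ℂ) : eval (fun i => c * x i) Q = c ^ l * (c ^ k * eval x Q) := by
  rw [← eval_scale _ h.1, ← eval_scale _ h.2]
  refine congrArg (fun f => eval f Q) (_root_.funext fun i => ?_)
  cases i <;> simp

/-- a polynomial vanishing on a cone vanishes where all homogeneous equations vanish -/
lemma cone_zero {ι Z : Type} {θ : Z → ι → ℂ} {x : ι → ℂ}
    (hx : ∀ (P : MvPolynomial ι ℂ) (k : ℕ), P.IsHomogeneous k →
      (∀ z, eval (θ z) P = 0) → eval x P = 0)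
    {P : MvPolynomial ι ℂ} (hP : ∀ (c : ℂ) z, eval (c • θ z) P = 0) : eval x P = 0 := by
  rw [← sum_homogeneousComponent P, map_sum]
  refine Finset.sum_eq_zero fun k hk => hx _ k (homogeneousComponent_isHomogeneous k P) fun z => ?_
  have : (∑ i ∈ Finset.range (P.totalDegree + 1),
      Polynomial.monomial i (eval (θ z) (homogeneousComponent i P))) = 0 := by
    refine Polynomial.funext fun c => ?_
    rw [Polynomial.eval_finsetSum, Polynomial.eval_zero, ← hP c z]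
    conv_rhs => rw [← sum_homogeneousComponent P, map_sum]
    refine Finset.sum_congr rfl fun i _ => ?_
    have := eval_scale (1 : ι → ℕ) (homogeneousComponent_isHomogeneous i P) c (θ z)
    simp only [Pi.one_apply, pow_one] at this
    rw [Polynomial.eval_monomial, mul_comm, ← this]
    rfl
  have h := congrArg (fun p => Polynomial.coeff p k) this
  simpa [Polynomial.finsetSum_coeff, Polynomial.coeff_monomial, Finset.sum_ite_eq',
    Finset.mem_range.1 hk, Nat.lt_succ_iff.1 (Finset.mem_range.1 hk)] using h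

variable {n : ℕ}

/-- evaluation of a polynomial with polynomial coefficients -/
noncomputable def ev (μ : Polynomial (MvPolynomial (Fin n) ℂ)) (w : Fin n → ℂ) (t : ℂ) : ℂ :=
  Polynomial.eval₂ (eval w) t μ

noncomputable def toP (j : Fin n) :
    MvPolynomial (Fin n ⊕ Fin 2) ℂ →ₐ[ℂ] Polynomial (MvPolynomial (Fin n) ℂ) :=
  aeval (Sum.elim (fun i => Polynomial.C (X i)) ![Polynomial.C (X j), Polynomial.X])

lemma ev_toP (j : Fin n) (Q : MvPolynomial (Fin n ⊕ Fin 2) ℂ) (w : Fin n → ℂ) (t : ℂ) :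
    ev (toP j Q) w t = eval (Sum.elim w ![w j, t]) Q := by
  unfold ev
  induction Q using MvPolynomial.induction_on with
  | C a => simp [toP]
  | add p q hp hq => rw [map_add, Polynomial.eval₂_add, hp, hq, map_add]
  | mul_X p i hp =>
    rw [map_mul, Polynomial.eval₂_mul, hp, map_mul]
    refine congrArg₂ (· * ·) rfl ?_
    rcases i with i | i
    · simp [toP]
    · fin_cases i <;> simp [toP]

lemma deriv_toP (j : Fin n) (Q : MvPolynomial (Fin n ⊕ Fin 2) ℂ) :
    Polynomial.derivative (toP j Q) = toP j (pderiv (Sum.inr 1) Q) := by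
  induction Q using MvPolynomial.induction_on with
  | C a => simp [toP]
  | add p q hp hq => rw [map_add, map_add, hp, hq, map_add, map_add]
  | mul_X p i hp =>
    rw [map_mul, Polynomial.derivative_mul, hp, Derivation.leibniz, smul_eq_mul, smul_eq_mul,
      map_add, map_mul, map_mul, add_comm, mul_comm (toP j (X i))]
    have : Polynomial.derivative (toP j (X i)) = toP j (pderiv (Sum.inr 1) (X i)) := by
      rcases i with i | i
      · simp [toP]
      · fin_cases i <;> simp [toP]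
    rw [this]

lemma rel_of (h3 : RelS) {d : ℕ} {W : V d → Fin n → ℂ} {φ : V d → ℂ} {R : ℝ}
    (hW : Differentiable ℂ W) (hφ : Differentiable ℂ φ) (nz : ∀ z, W z ≠ 0)
    (per : ∀ z, ∃ z' ∈ closedBall (0 : V d) R, ∃ c : ℂ, W z = c • W z' ∧ φ z = c * φ z')
    (im : ∀ (u : V d) (c : ℂ), fderiv ℂ W 0 u = c • W 0 → u = 0) :
    ∃ μ : Polynomial (MvPolynomial (Fin n) ℂ), (∀ (c : ℂ) z, ev μ (c • W z) (c * φ z) = 0) ∧
      ∃ z, ev μ.derivative (W z) (φ z) ≠ 0 := by
  obtain ⟨j, hj⟩ := Function.ne_iff.1 (nz 0)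
  have ch : Charts (fun _ : Unit => (Set.univ : Set (V d))) (fun _ => closedBall 0 R)
      (fun _ => W) (fun _ z => (Sum.elim (W z) fun _ : Unit => φ z)) := by
    refine ⟨fun _ => isOpen_univ, fun _ => isCompact_closedBall _ _, fun _ => Set.subset_univ _,
      fun _ => hW.differentiableOn, fun _ => Differentiable.differentiableOn ?_,
      fun _ p _ => nz p, fun _ p _ e => nz p (_root_.funext fun i => congrFun e (Sum.inl i)),
      fun _ p _ => subset_closure ?_⟩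
    · refine differentiable_pi.2 fun i => ?_
      rcases i with i | i
      · exact differentiable_pi.1 hW i
      · exact hφ
    · obtain ⟨z', hz', c, e1, e2⟩ := per p
      refine ⟨trivial, (), z', hz', c, c, e1, _root_.funext fun i => ?_⟩
      rcases i with i | i
      · exact congrFun e1 i
      · exact e2
  obtain ⟨Q, k, l, hQ, h1, z, -, h2⟩ := h3 _ _ _ _ _ _ _ _ ch () ![Sum.inl j, Sum.inr ()]
    isPreconnected_univ ⟨0, trivial, nz 0, im⟩ ⟨0, trivial, hj⟩
  have e : ∀ z, (Sum.elim (W z) fun b : Fin 2 =>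
      (Sum.elim (W z) fun _ : Unit => φ z) (![Sum.inl j, Sum.inr ()] b)) =
      Sum.elim (W z) ![W z j, φ z] := fun z => by
    funext i
    rcases i with i | i
    · rfl
    · fin_cases i <;> rfl
  simp only [e] at h1 h2
  refine ⟨toP j Q, fun c z => ?_, z, by rwa [deriv_toP, ev_toP]⟩
  have := eval_bih hQ c (Sum.elim (W z) ![W z j, φ z])
  rw [h1 z trivial, mul_zero, mul_zero] at this
  rw [ev_toP, ← this]
  refine congrArg (fun f => eval f Q) (_root_.funext fun i => ?_)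
  rcases i with i | i
  · rfl
  · fin_cases i <;> rfl

/-- the ring of entire functions -/
def Ent (E : Type) [NormedAddCommGroup E] [NormedSpace ℂ E] : Subalgebra ℂ (E → ℂ) where
  carrier := {f | Differentiable ℂ f}
  mul_mem' := fun ha hb => ha.mul hb
  add_mem' := fun ha hb => ha.add hb
  algebraMap_mem' := fun c => differentiable_const c

lemma disc (h0 : OsgS) {E : Type} [NormedAddCommGroup E] [NormedSpace ℂ E] [FiniteDimensional ℂ E]
    {F : E → Fin n → ℂ} {φ : E → ℂ} (hF : Differentiable ℂ F) (hφ : Differentiable ℂ φ)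
    {μ : Polynomial (MvPolynomial (Fin n) ℂ)} (h1 : ∀ p, ev μ (F p) (φ p) = 0) {p₀ : E}
    (h2 : ev μ.derivative (F p₀) (φ p₀) ≠ 0) :
    ∃ Δ : MvPolynomial (Fin n) ℂ, Δ ≠ 0 ∧
      ∀ p, eval (F p) Δ ≠ 0 → ev μ.derivative (F p) (φ p) ≠ 0 := by
  let a : MvPolynomial (Fin n) ℂ →ₐ[ℂ] Ent E :=
    aeval fun j => (⟨fun p => F p j, differentiable_pi.1 hF j⟩ : Ent E)
  let _ : Algebra (MvPolynomial (Fin n) ℂ) (Ent E) := a.toRingHom.toAlgebra
  let e : E → (Ent E →+* ℂ) := fun p => (Pi.evalRingHom (fun _ => ℂ) p).comp (Ent E).val.toRingHom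
  have he : ∀ p, (e p).comp (algebraMap (MvPolynomial (Fin n) ℂ) (Ent E)) = eval (F p) := fun p => by
    refine MvPolynomial.ringHom_ext (fun c => ?_) fun j => ?_
    · show e p (a (C c)) = _
      rw [algHom_C, eval_C]
      rfl
    · show e p (a (X j)) = _
      rw [aeval_X, eval_X]
      rfl
  let t : Ent E := ⟨φ, hφ⟩
  have hev : ∀ (ν : Polynomial (MvPolynomial (Fin n) ℂ)) p,
      (Polynomial.aeval t ν : Ent E).1 p = ev ν (F p) (φ p) := fun ν p => by
    show e p (Polynomial.aeval t ν) = _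
    rw [Polynomial.aeval_def, Polynomial.hom_eval₂, he]
    rfl
  have hμ : μ ≠ 0 := fun e => h2 (by simp [e, ev])
  have ht : IsAlgebraic (MvPolynomial (Fin n) ℂ) t :=
    ⟨μ, hμ, Subtype.ext (_root_.funext fun p => (hev μ p).trans (h1 p))⟩
  have hρ : IsAlgebraic (MvPolynomial (Fin n) ℂ) (Polynomial.aeval t μ.derivative) :=
    Algebra.isAlgebraic_adjoin_singleton_iff.2 ht _ (Polynomial.aeval_mem_adjoin_singleton _ _)
  have hnz : Polynomial.aeval t μ.derivative ∈ nonZeroDivisors (Ent E) := by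
    rw [mem_nonZeroDivisors_iff_left]
    intro g hg
    refine Subtype.ext (_root_.funext fun p => ?_)
    refine mul_zero' h0 (Polynomial.aeval t μ.derivative).2 g.2 (fun y => ?_)
      (b := p₀) (by rwa [hev]) p
    exact congrFun (congrArg Subtype.val hg) y
  obtain ⟨Δ, hΔ, g, hg⟩ := hρ.exists_nonzero_dvd hnz
  refine ⟨Δ, hΔ, fun p hp h => hp ?_⟩
  rw [← he p, RingHom.comp_apply, hg, map_mul]
  exact mul_eq_zero_of_left ((hev _ p).trans h) _

lemma diff_ev (μ : Polynomial (MvPolynomial (Fin n) ℂ)) :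
    Differentiable ℂ fun q : (Fin n → ℂ) × ℂ => ev μ q.1 q.2 := by
  simp only [ev, Polynomial.eval₂_eq_sum_range]
  exact Differentiable.fun_sum fun i _ =>
    ((diff_eval (μ.coeff i)).comp differentiable_fst).mul (differentiable_snd.pow i)

lemma strict_ev (h0 : OsgS) (μ : Polynomial (MvPolynomial (Fin n) ℂ)) (w : Fin n → ℂ) (t : ℂ) :
    ∃ M : ((Fin n → ℂ) × ℂ) →L[ℂ] ℂ,
      HasStrictFDerivAt (fun q : (Fin n → ℂ) × ℂ => ev μ q.1 q.2) M (w, t) ∧
      ∀ s, M (0, s) = s * ev μ.derivative w t := by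
  have h := ((contDiff_of h0 (diff_ev μ) 1).contDiffAt (x := (w, t))).hasStrictFDerivAt one_ne_zero
  refine ⟨_, h, fun s => ?_⟩
  have a : HasDerivAt (fun u : ℂ => ((w, u) : (Fin n → ℂ) × ℂ)) (0, 1) t :=
    (hasDerivAt_const t w).prodMk (hasDerivAt_id t)
  have b := h.hasFDerivAt.comp_hasDerivAt t a
  have c : HasDerivAt (fun u : ℂ => ev μ w u) (ev μ.derivative w t) t := by
    simp only [ev, ← Polynomial.eval_map, ← Polynomial.derivative_map]
    exact Polynomial.hasDerivAt _ t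
  rw [← b.unique c, ← smul_eq_mul, ← map_smul]
  simp

lemma roots_ev (μ : Polynomial (MvPolynomial (Fin n) ℂ)) (w : Fin n → ℂ) :
    ∃ s : Finset ℂ, s.card ≤ μ.natDegree ∧
      ∀ t, ev μ w t = 0 → ev μ.derivative w t ≠ 0 → t ∈ s := by
  classical
  refine ⟨(μ.map (eval w)).roots.toFinset, (Multiset.toFinset_card_le _).trans
    ((Polynomial.card_roots' _).trans Polynomial.natDegree_map_le), fun t h1 h2 => ?_⟩
  have : μ.map (eval w) ≠ 0 := fun e => h2 (by
    rw [ev, ← Polynomial.eval_map, ← Polynomial.derivative_map, e]; simp)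
  rw [Multiset.mem_toFinset, Polynomial.mem_roots this, Polynomial.IsRoot, Polynomial.eval_map]
  exact h1

end alg

end Pool.Agent.Lib.MP_caab05_ag.GB.ImgAux
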