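import Pool.Agent.Lib.MP_caab05_ag.GB.Img2
import Pool.Agent.Lib.MP_caab05_ag.GB.Img3

/-! The cone over an embedded complex torus is Zariski closed. -/

namespace Pool.Agent.Lib.MP_caab05_ag.GB

open MvPolynomial Filter Topology Asymptotics Complex Metric Module

namespace ImgAux

lemma locinv {E F : Type} [NormedAddCommGroup E] [NormedSpace ℂ E] [FiniteDimensional ℂ E]
    [NormedAddCommGroup F] [NormedSpace ℂ F] [FiniteDimensional ℂ F]
    (hd : finrank ℂ E = finrank ℂ F) {f : E → F} {f' : E →L[ℂ] F} {a : E}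
    (h : HasStrictFDerivAt f f' a) (hi : ∀ v, f' v = 0 → v = 0) :
    ∃ σ : F → E, DifferentiableAt ℂ σ (f a) ∧ σ (f a) = a ∧ ∀ᶠ y in 𝓝 (f a), f (σ y) = y := by
  have := FiniteDimensional.complete ℂ E
  have inj : Function.Injective (f' : E →ₗ[ℂ] F) := (injective_iff_map_eq_zero _).2 hi
  let e : E ≃L[ℂ] F := (LinearMap.linearEquivOfInjective _ inj hd).toContinuousLinearEquiv
  have h' : HasStrictFDerivAt f (e : E →L[ℂ] F) a := by
    have : (e : E →L[ℂ] F) = f' := ContinuousLinearMap.ext fun _ => rfl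
    rw [this]
    exact h
  exact ⟨h'.localInverse f e a, h'.to_localInverse.hasFDerivAt.differentiableAt,
    h'.localInverse_apply_image, h'.eventually_right_inverse⟩

lemma uniq_root (h0 : OsgS) {n : ℕ} (μ : Polynomial (MvPolynomial (Fin n) ℂ)) {y : Fin n → ℂ}
    {t : ℂ} (hρ : ev μ.derivative y t ≠ 0) {τ : (Fin n → ℂ) → ℂ} (hτ : ContinuousAt τ y)
    (e : τ y = t) : ∀ᶠ q : (Fin n → ℂ) × ℂ in 𝓝 (y, t),
      ev μ q.1 q.2 = 0 → ev μ q.1 (τ q.1) = 0 → q.2 = τ q.1 := by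
  obtain ⟨M, hM, hM'⟩ := strict_ev h0 μ y t
  have hpos : 0 < ‖ev μ.derivative y t‖ := norm_pos_iff.2 hρ
  have h1 : Tendsto (fun q : (Fin n → ℂ) × ℂ => τ q.1) (𝓝 (y, t)) (𝓝 t) := by
    rw [← e]
    exact hτ.tendsto.comp (continuous_fst.tendsto _)
  have lim : Tendsto (fun q : (Fin n → ℂ) × ℂ => (q, (q.1, τ q.1))) (𝓝 (y, t))
      (𝓝 ((y, t), (y, t))) :=
    tendsto_id.prodMk_nhds ((continuous_fst.tendsto _).prodMk_nhds h1)
  filter_upwards [lim.eventually (hM.isLittleO.bound (half_pos hpos))] with q hq a b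
  have e1 : q - (q.1, τ q.1) = (0, q.2 - τ q.1) := Prod.ext (sub_self _) rfl
  simp only [a, b, e1, hM', sub_self, zero_sub, norm_neg, norm_mul, Prod.norm_mk, norm_zero,
    max_eq_right (norm_nonneg _)] at hq
  have : ‖q.2 - τ q.1‖ ≤ 0 := by nlinarith [norm_nonneg (q.2 - τ q.1)]
  exact sub_eq_zero.1 (norm_le_zero_iff.1 this)

lemma exists_lin {ι : Type} [Fintype ι] (l : (ι → ℂ) →L[ℂ] ℂ) :
    ∃ P : MvPolynomial ι ℂ, ∀ y, eval y P = l y := by
  classical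
  refine ⟨∑ a, C (l (Pi.single a 1)) * X a, fun y => ?_⟩
  have : y = ∑ a, y a • (Pi.single a 1 : ι → ℂ) := by
    funext j
    simp [Finset.sum_apply, Pi.single_apply]
  conv_rhs => rw [this, map_sum]
  simp only [map_sum, map_mul, eval_C, eval_X, map_smul, smul_eq_mul, mul_comm]

lemma graph {Z : Type} [TopologicalSpace Z] {n : ℕ} {K : Set Z} (hK : IsCompact K)
    {W : Z → Fin n → ℂ} {φ : Z → ℂ} (hW : Continuous W) (hφ : Continuous φ) (nz : ∀ z, W z ≠ 0)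
    (per : ∀ z, ∃ z' ∈ K, ∃ c : ℂ, W z = c • W z' ∧ φ z = c * φ z') :
    IsClosed (Set.range fun p : ℂ × Z => (p.1 • W p.2, p.1 * φ p.2)) ∧ ∃ B : ℝ, 0 ≤ B ∧
      ∀ q ∈ Set.range fun p : ℂ × Z => (p.1 • W p.2, p.1 * φ p.2), ‖q.2‖ ≤ B * ‖q.1‖ := by
  obtain ⟨m, hm, hm'⟩ := hK.exists_forall_le' (f := fun z => ‖W z‖) hW.norm.continuousOn (a := 0)
    fun z _ => norm_pos_iff.2 (nz z)
  obtain ⟨B, hB⟩ := hK.exists_bound_of_continuousOn hφ.continuousOn
  have red : ∀ q ∈ Set.range fun p : ℂ × Z => (p.1 • W p.2, p.1 * φ p.2),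
      ∃ c : ℂ, ∃ z ∈ K, q = (c • W z, c * φ z) ∧ ‖c‖ * m ≤ ‖q.1‖ := by
    rintro _ ⟨⟨c, z⟩, rfl⟩
    obtain ⟨z', hz', c', e1, e2⟩ := per z
    refine ⟨c * c', z', hz', by simp only [e1, e2, smul_smul, mul_assoc], ?_⟩
    simp only [e1, smul_smul, norm_smul]
    exact mul_le_mul_of_nonneg_left (hm' z' hz') (norm_nonneg _)
  refine ⟨isClosed_of_closure_subset fun q hq => ?_, max B 0 / m, by positivity, fun q hq => ?_⟩
  · have hO : IsOpen {r : (Fin n → ℂ) × ℂ | ‖r.1‖ < ‖q.1‖ + 1} :=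
      isOpen_lt continuous_fst.norm continuous_const
    have h1 := hO.inter_closure ⟨show ‖q.1‖ < ‖q.1‖ + 1 by linarith, hq⟩
    have hc : IsCompact ((fun p : ℂ × Z => (p.1 • W p.2, p.1 * φ p.2)) ''
        (closedBall (0 : ℂ) ((‖q.1‖ + 1) / m) ×ˢ K)) :=
      ((isCompact_closedBall _ _).prod hK).image (by fun_prop)
    refine Set.image_subset_range _ _ (closure_minimal (fun r hr => ?_) hc.isClosed h1)
    obtain ⟨c, z, hz, e, hc'⟩ := red r hr.2
    refine ⟨(c, z), ⟨?_, hz⟩, e.symm⟩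
    rw [mem_closedBall_zero_iff, le_div_iff₀ hm]
    exact hc'.trans (le_of_lt hr.1)
  · obtain ⟨c, z, hz, e, hc'⟩ := red q hq
    have h2 : ‖q.2‖ = ‖c‖ * ‖φ z‖ := by rw [e, norm_mul]
    have h3 : ‖φ z‖ ≤ max B 0 := (hB z hz).trans (le_max_left _ _)
    rw [h2, div_mul_eq_mul_div, le_div_iff₀ hm]
    calc ‖c‖ * ‖φ z‖ * m = ‖φ z‖ * (‖c‖ * m) := by ring
      _ ≤ _ := mul_le_mul h3 hc' (by positivity) (le_max_right _ _)

end ImgAux

open ImgAux

theorem img (h0 : OsgS) (h2 : DepS) (h3 : RelS) : ImgS := by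
  classical
  intro d ι _ θ Λ R hθ hnz hcov hper _ him x hx
  by_contra hne
  push Not at hne
  have hθ1 := contDiff_of h0 hθ 1
  obtain ⟨w, l, hw, hl⟩ := proj hθ1 hnz (him 0) hne
  obtain ⟨Φ, hΦ⟩ : ∃ Φ : ℂ × V d → ι → ℂ, Φ = fun p => p.1 • θ p.2 := ⟨_, rfl⟩
  have dΦ : Differentiable ℂ Φ := by rw [hΦ]; fun_prop
  have sΦ : ∀ p, ∃ Φ' : (ℂ × V d) →L[ℂ] (ι → ℂ), HasStrictFDerivAt Φ Φ' p ∧
      ∀ v, Φ' v = p.1 • fderiv ℂ θ p.2 v.2 + v.1 • θ p.2 := fun p => by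
    rw [hΦ]
    exact ⟨_, (hasStrictFDerivAt_fst (p := p)).smul
      ((hθ1.contDiffAt.hasStrictFDerivAt one_ne_zero).comp p hasStrictFDerivAt_snd),
      fun v => rfl⟩
  have red : ∀ z, ∃ z' ∈ closedBall (0 : V d) R, ∃ c : ℂ, θ z = c • θ z' := fun z => by
    obtain ⟨a, ha, h⟩ := hcov z
    obtain ⟨c, hc⟩ := hper a ha (z - a)
    exact ⟨z - a, mem_closedBall_zero_iff.2 h, c, by rwa [sub_add_cancel] at hc⟩
  have per : ∀ f : (ι → ℂ) →L[ℂ] ℂ, ∀ z, ∃ z' ∈ closedBall (0 : V d) R, ∃ c : ℂ,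
      w (θ z) = c • w (θ z') ∧ f (θ z) = c * f (θ z') := fun f z => by
    obtain ⟨z', hz', c, hc⟩ := red z
    exact ⟨z', hz', c, by rw [hc, map_smul], by rw [hc, map_smul, smul_eq_mul]⟩
  have dW : Differentiable ℂ fun z => w (θ z) := w.differentiable.comp hθ
  have dF : Differentiable ℂ fun p => w (Φ p) := w.differentiable.comp dΦ
  have hrel : ∀ f : (ι → ℂ) →L[ℂ] ℂ, ∃ (μ : Polynomial (MvPolynomial (Fin (d + 1)) ℂ))
      (Δ : MvPolynomial (Fin (d + 1)) ℂ), Δ ≠ 0 ∧ (∀ p, ev μ (w (Φ p)) (f (Φ p)) = 0) ∧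
      ∀ p, eval (w (Φ p)) Δ ≠ 0 → ev μ.derivative (w (Φ p)) (f (Φ p)) ≠ 0 := fun f => by
    obtain ⟨μ, h1, z, h2⟩ := rel_of h3 (W := fun z => w (θ z)) (φ := fun z => f (θ z)) dW
      (f.differentiable.comp hθ) hw.nz (per f) fun u c e => hw.im u c (by
        have h : HasFDerivAt (fun z => w (θ z)) (w.comp (fderiv ℂ θ 0)) 0 :=
          w.hasFDerivAt.comp 0 (hθ 0).hasFDerivAt
        rw [h.fderiv] at e
        exact e)
    have h1' : ∀ p, ev μ (w (Φ p)) (f (Φ p)) = 0 := fun p => by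
      rw [hΦ]
      simp only [map_smul, smul_eq_mul]
      exact h1 p.1 p.2
    obtain ⟨Δ, a, b⟩ := disc h0 (F := fun p => w (Φ p)) (φ := fun p => f (Φ p)) dF
      (f.differentiable.comp dΦ) h1' (p₀ := (1, z)) (by simpa [hΦ] using h2)
    exact ⟨μ, Δ, a, h1', b⟩
  choose μ Δ hΔ hμ hμ' using hrel
  obtain ⟨D, hD⟩ : ∃ D : MvPolynomial (Fin (d + 1)) ℂ,
      D = X 0 * Δ l * ∏ a, Δ (ContinuousLinearMap.proj a) := ⟨_, rfl⟩
  have D0 : D ≠ 0 := by
    rw [hD]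
    exact mul_ne_zero (mul_ne_zero (X_ne_zero _) (hΔ l)) (Finset.prod_ne_zero_iff.2 fun a _ => hΔ _)
  have Dy : ∀ y, eval y D ≠ 0 → y 0 ≠ 0 ∧ eval y (Δ l) ≠ 0 ∧
      ∀ a, eval y (Δ (ContinuousLinearMap.proj a)) ≠ 0 := fun y hy => by
    rw [hD, map_mul, map_mul, map_prod, eval_X] at hy
    exact ⟨left_ne_zero_of_mul (left_ne_zero_of_mul hy), right_ne_zero_of_mul
      (left_ne_zero_of_mul hy), fun a =>
      Finset.prod_ne_zero_iff.1 (right_ne_zero_of_mul hy) a (Finset.mem_univ a)⟩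
  have rk : finrank ℂ (ℂ × V d) = finrank ℂ (Fin (d + 1) → ℂ) := by simp [add_comm]
  have inv : ∀ p, eval (w (Φ p)) D ≠ 0 → ∃ σ : (Fin (d + 1) → ℂ) → ℂ × V d,
      DifferentiableAt ℂ σ (w (Φ p)) ∧ σ (w (Φ p)) = p ∧
      ∀ᶠ y in 𝓝 (w (Φ p)), w (Φ (σ y)) = y := fun p hp => by
    obtain ⟨Φ', h1, h2⟩ := sΦ p
    obtain ⟨a1, -, a3⟩ := Dy _ hp
    have c0 : p.1 ≠ 0 := fun e => a1 (by simp [hΦ, e])
    refine locinv rk (f := fun p => w (Φ p)) (w.hasStrictFDerivAt.comp p h1) fun v hv => ?_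
    have hv' : w (Φ' v) = 0 := hv
    have z1 : Φ' v = 0 := _root_.funext fun a => by
      obtain ⟨M, hM, hM'⟩ := strict_ev h0 (μ (ContinuousLinearMap.proj a)) (w (Φ p)) (Φ p a)
      have b1 : HasFDerivAt (fun p => (w (Φ p), Φ p a))
          ((w.comp Φ').prod ((ContinuousLinearMap.proj a).comp Φ')) p :=
        (w.hasFDerivAt.comp p h1.hasFDerivAt).prodMk
          ((ContinuousLinearMap.proj (R := ℂ) (φ := fun _ : ι => ℂ) a).hasFDerivAt.comp p
            h1.hasFDerivAt)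
      have b2 := hM.hasFDerivAt.comp p b1
      have b3 : HasFDerivAt ((fun q : (Fin (d + 1) → ℂ) × ℂ =>
          ev (μ (ContinuousLinearMap.proj a)) q.1 q.2) ∘ fun p => (w (Φ p), Φ p a))
          (0 : (ℂ × V d) →L[ℂ] ℂ) p := by
        have : ((fun q : (Fin (d + 1) → ℂ) × ℂ =>
          ev (μ (ContinuousLinearMap.proj a)) q.1 q.2) ∘ fun p => (w (Φ p), Φ p a)) =
            fun _ => 0 := _root_.funext fun p => hμ (ContinuousLinearMap.proj a) p
        rw [this]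
        exact hasFDerivAt_const _ _
      have b4 : M (w (Φ' v), Φ' v a) = 0 := DFunLike.congr_fun (b2.unique b3) v
      rw [hv', hM'] at b4
      exact (mul_eq_zero.1 b4).resolve_right (hμ' (ContinuousLinearMap.proj a) p (a3 a))
    rw [h2] at z1
    have z2 : v.2 = 0 := him p.2 v.2 (-(p.1⁻¹ * v.1)) (by
      rw [neg_smul, mul_smul, ← smul_neg, ← eq_neg_of_add_eq_zero_left z1, smul_smul,
        inv_mul_cancel₀ c0, one_smul])
    rw [z2, map_zero, smul_zero, zero_add] at z1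
    exact Prod.ext ((smul_eq_zero.1 z1).resolve_right (hnz _)) z2
  have hΓ : (fun p : ℂ × V d => (p.1 • w (θ p.2), p.1 * l (θ p.2))) =
      fun p => (w (Φ p), l (Φ p)) := by
    funext p
    simp [hΦ]
  obtain ⟨hcl, B, hB, hb⟩ := graph (isCompact_closedBall (0 : V d) R) dW.continuous
    (l.continuous.comp hθ.continuous) hw.nz (per l)
  simp only [Function.comp_apply] at hcl hb
  rw [hΓ] at hcl hb
  obtain ⟨P, hP1, hP2⟩ := sep h0 (N := (μ l).natDegree) hcl hB hb D0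
    (fun y hy => by
      obtain ⟨s, h1, h2⟩ := roots_ev (μ l) y
      refine ⟨s, h1, ?_⟩
      rintro t ⟨p, hp⟩
      obtain ⟨rfl, rfl⟩ := Prod.mk.inj hp
      exact h2 _ (hμ l p) (hμ' l p (Dy _ hy).2.1))
    (fun y t ⟨p, hp⟩ hy => by
      obtain ⟨rfl, rfl⟩ := Prod.mk.inj hp
      obtain ⟨σ, s1, s2, s3⟩ := inv p hy
      have d1 : DifferentiableAt ℂ (fun y => l (Φ (σ y))) (w (Φ p)) :=
        l.differentiableAt.comp _ ((dΦ _).comp _ s1)
      refine ⟨fun y => l (Φ (σ y)), d1, by simp only [s2],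
        s3.mono fun y e => ⟨σ y, by simp only [e]⟩, ?_⟩
      have u := uniq_root h0 (μ l) (hμ' l p (Dy _ hy).2.1) d1.continuousAt (by simp only [s2])
      have s4 : ∀ᶠ q : (Fin (d + 1) → ℂ) × ℂ in 𝓝 (w (Φ p), l (Φ p)), w (Φ (σ q.1)) = q.1 :=
        (continuous_fst.tendsto (w (Φ p), l (Φ p))).eventually s3
      filter_upwards [u, s4] with q a b ⟨p', hp'⟩
      refine a ?_ ?_
      · rw [← hp']
        exact hμ l p'
      · have := hμ l (σ q.1)
        rwa [b] at this)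
    (w0 := w x) (t0 := l x) (by
      rintro ⟨p, hp⟩
      obtain ⟨e1, e2⟩ := Prod.mk.inj hp
      refine hl p.1 p.2 ?_ ?_
      · rw [← e1, hΦ, map_smul]
      · rw [← e2, hΦ, map_smul, smul_eq_mul])
  -- the polynomial on the ambient space
  obtain ⟨Pl, hPl⟩ := exists_lin l
  choose Pw hPw using fun j : Fin (d + 1) => exists_lin ((ContinuousLinearMap.proj j).comp w)
  obtain ⟨Q, hQ⟩ : ∃ Q : MvPolynomial ι ℂ, ∀ y,
      eval y Q = eval (fun o : Option (Fin (d + 1)) => o.elim (l y) (w y)) P := by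
    refine ⟨aeval (fun o : Option (Fin (d + 1)) => o.elim Pl Pw) P, fun y => ?_⟩
    rw [← coe_aeval_eq_eval, ← coe_aeval_eq_eval, RingHom.coe_coe, RingHom.coe_coe,
      comp_aeval_apply]
    refine congrArg (fun f => aeval f P) (_root_.funext fun o => ?_)
    rcases o with _ | j
    · exact hPl y
    · exact hPw j y
  obtain ⟨p₀, hp₀⟩ : ∃ p, eval (w (Φ p)) D ≠ 0 := by
    obtain ⟨Φ', h1, h2⟩ := sΦ (1, 0)
    obtain ⟨σ, -, -, s3⟩ := locinv rk (f := fun p => w (Φ p))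
      (w.hasStrictFDerivAt.comp (1, 0) h1) fun v hv => by
        have hv' : w (Φ' v) = 0 := hv
        rw [h2, one_smul, map_add, map_smul] at hv'
        have z2 : v.2 = 0 := hw.im v.2 (-v.1) (by rw [neg_smul, eq_neg_of_add_eq_zero_left hv'])
        rw [z2, map_zero, map_zero, zero_add] at hv'
        exact Prod.ext ((smul_eq_zero.1 hv').resolve_right (hw.nz _)) z2
    obtain ⟨b, hb⟩ := exists_eval_ne D0
    obtain ⟨y, e1, e2⟩ := ((freq h0 (diff_eval D) hb _).and_eventually s3).exists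
    exact ⟨σ y, by rwa [e2]⟩
  have van : ∀ p, eval (Φ p) Q = 0 :=
    mul_zero' h0 (f := fun p => eval (w (Φ p)) D) ((diff_eval D).comp dF) ((diff_eval Q).comp dΦ)
      (fun p => by
        by_cases h : eval (w (Φ p)) D = 0
        · rw [h, zero_mul]
        · rw [hQ, hP1 _ _ ⟨p, rfl⟩ h, mul_zero]) hp₀
  refine hP2 ?_
  rw [← hQ]
  exact cone_zero hx fun c z => by simpa [hΦ] using van (c, z)

end Pool.Agent.Lib.MP_caab05_ag.GB
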