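import Mathlib
import Pool.Agent.Lib.MP_caab05_ag.GB.Stmt

/-! Transformation laws of the theta functions of level four. -/

namespace Pool.Agent.Lib.MP_caab05_ag.GB

open MvPolynomial Filter Topology Asymptotics Complex Matrix

namespace LawAux

variable {g : ℕ}

/-- integer vectors as complex vectors -/
def ci (k : Fin g → ℤ) : V g := fun i => (k i : ℂ)

/-- the standard lift of an index -/
def va (a : Ix g) : V g := fun j => ((a j).val : ℂ)

theorem exp_shift (A B : ℂ) (n : ℤ) (h : A = B + n * (2 * Real.pi * I)) : cexp A = cexp B := by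
  rw [h, Complex.exp_add, Complex.exp_int_mul_two_pi_mul_I, mul_one]

theorem app_apply (τ : Mat g) (x : V g) (i : Fin g) : app τ x i = ∑ j, τ i j * x j := by
  simp [app, Matrix.mulVec, dotProduct]

theorem app_add (τ : Mat g) (x y : V g) : app τ (x + y) = app τ x + app τ y := by
  simp [app, Matrix.mulVec_add]

theorem app_smul (τ : Mat g) (c : ℂ) (x : V g) : app τ (c • x) = c • app τ x := by
  simp [app, Matrix.mulVec_smul]

theorem app_neg (τ : Mat g) (x : V g) : app τ (-x) = -app τ x := by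
  simp [app, Matrix.mulVec_neg]

theorem app_line (τ K : Mat g) (s : ℂ) (x : V g) :
    app (τ + s • K) x = app τ x + s • app K x := by
  funext i
  simp only [app_apply, Pi.add_apply, Pi.smul_apply, smul_eq_mul, add_mul, Finset.sum_add_distrib,
    Finset.mul_sum, mul_assoc]

theorem quad_eq (τ : Mat g) (x y : V g) : ∑ i, ∑ j, x i * τ i j * y j = x ⬝ᵥ app τ y := by
  simp only [dotProduct, app_apply, Finset.mul_sum, mul_assoc]

theorem quad_symm (τ : Mat g) (h : ∀ i j, τ i j = τ j i) (x y : V g) :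
    x ⬝ᵥ app τ y = y ⬝ᵥ app τ x := by
  rw [← quad_eq, ← quad_eq, Finset.sum_comm]
  refine Finset.sum_congr rfl fun i _ => Finset.sum_congr rfl fun j _ => ?_
  rw [h j i]; ring

theorem th_eq (τ : Mat g) (u : V g) (a : Ix g) : th τ u a =
    ∑' m : Fin g → ℤ, if ∀ j, (m j : ZMod 4) = a j then
      cexp (Real.pi * I * (ci m ⬝ᵥ app τ (ci m)) / 4 + 2 * Real.pi * I * (ci m ⬝ᵥ u)) else 0 := by
  unfold th
  refine tsum_congr fun m => ?_
  rw [← quad_eq]
  rfl

theorem ee_eq (τ : Mat g) (p : Zg g) (u : V g) : ee τ p u =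
    cexp (-(2 * Real.pi * I) * (lft (cst p) ⬝ᵥ u +
      (lft (cst p) ⬝ᵥ app τ (lft (cst p)) + lft (cst p) ⬝ᵥ rgt (cst p)) / 8)) := by
  unfold ee
  congr 2
  rw [← dotProduct_add]
  simp only [dotProduct, per, Finset.sum_div, ← Finset.sum_add_distrib]
  refine Finset.sum_congr rfl fun j _ => ?_
  simp only [lft, cst]
  ring

theorem hh_eq (p : Zg g) (a : Ix g) : hh p a =
    cexp (Real.pi * I / 4 * (lft (cst p) ⬝ᵥ rgt (cst p) + 2 * (va a ⬝ᵥ rgt (cst p)))) := by
  unfold hh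
  congr 2
  simp only [dotProduct, Finset.mul_sum, ← Finset.sum_add_distrib]
  refine Finset.sum_congr rfl fun j _ => ?_
  simp only [lft, rgt, cst, va]
  ring

theorem tor_eq (τ : Mat g) (p : Zg g) :
    tor τ p = (1 / 4 : ℂ) • (app τ (lft (cst p)) + rgt (cst p)) := rfl

theorem ci_add (k l : Fin g → ℤ) : ci (k + l) = ci k + ci l := by
  funext i; simp [ci]

theorem ci_neg (k : Fin g → ℤ) : ci (-k) = -ci k := by
  funext i; simp [ci]

theorem ci_lft (p : Zg g) : ci (lft p) = lft (cst p) := rfl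

theorem ci_rgt (p : Zg g) : ci (rgt p) = rgt (cst p) := rfl

theorem ci_dot (k l : Fin g → ℤ) : ci k ⬝ᵥ ci l = ((k ⬝ᵥ l : ℤ) : ℂ) := by
  simp [ci, dotProduct]

theorem lift_exists (k : Fin g → ℤ) (a : Ix g) (h : ∀ j, (k j : ZMod 4) = a j) :
    ∃ t : Fin g → ℤ, ci k = va a + (4 : ℂ) • ci t := by
  have : ∀ j, ∃ t : ℤ, k j = ((a j).val : ℤ) + 4 * t := fun j => by
    obtain ⟨t, ht⟩ := (ZMod.intCast_eq_iff 4 (k j) (a j)).1 (h j)
    exact ⟨t, by simpa using ht⟩
  choose t ht using this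
  refine ⟨t, ?_⟩
  funext j
  simp [ci, va, ht j]

theorem cst_add (p q : Zg g) : cst (p + q) = cst p + cst q := by
  funext i; simp [cst]

theorem lft_add (x y : W g) : lft (x + y) = lft x + lft y := rfl

theorem rgt_add (x y : W g) : rgt (x + y) = rgt x + rgt y := rfl

theorem cst_four (p : Zg g) : cst ((4 : ℤ) • p) = (4 : ℂ) • cst p := by
  funext i; simp [cst]

theorem lft_smul (c : ℂ) (x : W g) : lft (c • x) = c • lft x := rfl

theorem rgt_smul (c : ℂ) (x : W g) : rgt (c • x) = c • rgt x := rfl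

theorem law (τ : Mat g) (h : ∀ i j, τ i j = τ j i) (p : Zg g) (u : V g) :
    th τ (u + tor τ p) = ee τ p u • HH p (th τ u) := by
  funext a
  simp only [HH, Pi.smul_apply, smul_eq_mul]
  rw [th_eq, th_eq, ← (Equiv.addRight (lft p)).tsum_eq (fun m : Fin g → ℤ =>
    if ∀ j, (m j : ZMod 4) = (a + sh p) j then
      cexp (Real.pi * I * (ci m ⬝ᵥ app τ (ci m)) / 4 + 2 * Real.pi * I * (ci m ⬝ᵥ u)) else 0),
    ← tsum_mul_left, ← tsum_mul_left]
  refine tsum_congr fun k => ?_
  have hc : (∀ j, (((Equiv.addRight (lft p)) k j : ℤ) : ZMod 4) = (a + sh p) j) ↔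
      ∀ j, (k j : ZMod 4) = a j := by
    refine forall_congr' fun j => ?_
    simp [sh, lft]
  by_cases hk : ∀ j, (k j : ZMod 4) = a j
  · rw [if_pos hk, if_pos (hc.2 hk), ee_eq, hh_eq, ← Complex.exp_add, ← Complex.exp_add]
    obtain ⟨t, ht⟩ := lift_exists k a hk
    apply exp_shift _ _ (t ⬝ᵥ rgt p)
    have h1 : ci k ⬝ᵥ rgt (cst p) = va a ⬝ᵥ rgt (cst p) + 4 * ((t ⬝ᵥ rgt p : ℤ) : ℂ) := by
      rw [ht, add_dotProduct, smul_dotProduct, ← ci_rgt, ci_dot, smul_eq_mul]
    have h2 := quad_symm τ h (lft (cst p)) (ci k)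
    simp only [Equiv.coe_addRight, ci_add, ci_lft, tor_eq, app_add, add_dotProduct, dotProduct_add,
      dotProduct_smul, smul_eq_mul]
    rw [h1, h2]
    ring
  · rw [if_neg hk, if_neg (fun h' => hk (hc.1 h')), mul_zero, mul_zero]

theorem even (τ : Mat g) (u : V g) (a : Ix g) : th τ (-u) a = th τ u (-a) := by
  rw [th_eq, th_eq, ← (Equiv.neg (Fin g → ℤ)).tsum_eq]
  refine tsum_congr fun k => ?_
  have hc : (∀ j, (((Equiv.neg (Fin g → ℤ)) k j : ℤ) : ZMod 4) = a j) ↔
      ∀ j, (k j : ZMod 4) = (-a) j := by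
    refine forall_congr' fun j => ?_
    simp [neg_eq_iff_eq_neg]
  by_cases hk : ∀ j, (k j : ZMod 4) = (-a) j
  · rw [if_pos hk, if_pos (hc.2 hk)]
    simp only [Equiv.neg_apply, ci_neg, app_neg, neg_dotProduct, dotProduct_neg, neg_neg]
  · rw [if_neg hk, if_neg (fun h' => hk (hc.1 h'))]

theorem sh_add (p q : Zg g) : sh (p + q) = sh p + sh q := by
  funext j; simp [sh]

theorem cocycle (τ : Mat g) (h : ∀ i j, τ i j = τ j i) (p q : Zg g) (u : V g) (X : Ix g → ℂ) :
    ee τ (p + q) u • HH (p + q) X = (ee τ p (u + tor τ q) * ee τ q u) • HH p (HH q X) := by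
  funext a
  simp only [HH, Pi.smul_apply, smul_eq_mul, sh_add, add_assoc]
  rw [← mul_assoc, ← mul_assoc, ← mul_assoc]
  congr 1
  rw [ee_eq, ee_eq, ee_eq, hh_eq, hh_eq, hh_eq, ← Complex.exp_add, ← Complex.exp_add,
    ← Complex.exp_add, ← Complex.exp_add]
  obtain ⟨t, ht⟩ := lift_exists (fun j => ((a j).val : ℤ) + p (.inl j)) (a + sh p)
    (fun j => by simp [sh])
  have ht' : va a + lft (cst p) = va (a + sh p) + (4 : ℂ) • ci t := by
    rw [← ht]; funext j; simp [va, ci, lft, cst]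
  apply exp_shift _ _ (t ⬝ᵥ rgt q)
  have h1 : va (a + sh p) ⬝ᵥ rgt (cst q) =
      va a ⬝ᵥ rgt (cst q) + lft (cst p) ⬝ᵥ rgt (cst q) - 4 * ((t ⬝ᵥ rgt q : ℤ) : ℂ) := by
    rw [← add_dotProduct, ht', add_dotProduct, smul_dotProduct, ← ci_rgt, ci_dot, smul_eq_mul]
    ring
  have h2 := quad_symm τ h (lft (cst q)) (lft (cst p))
  simp only [cst_add, lft_add, rgt_add, tor_eq, app_add, add_dotProduct, dotProduct_add,
    dotProduct_smul, smul_eq_mul]
  rw [h1, h2]
  ring

theorem hh_four (p : Zg g) (X : Ix g → ℂ) : HH ((4 : ℤ) • p) X = X := by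
  funext a
  have h1 : sh ((4 : ℤ) • p) = 0 := by
    funext j
    have : (4 : ZMod 4) = 0 := rfl
    simp [sh, this]
  have h2 : hh ((4 : ℤ) • p) a = 1 := by
    rw [hh_eq, ← Complex.exp_zero]
    apply exp_shift _ _ (2 * (lft p ⬝ᵥ rgt p) + (fun j => ((a j).val : ℤ)) ⬝ᵥ rgt p)
    have h3 : va a = ci fun j => ((a j).val : ℤ) := by
      funext j; simp [va, ci]
    simp only [cst_four, lft_smul, rgt_smul, smul_dotProduct, dotProduct_smul, smul_eq_mul]
    rw [h3, ← ci_lft, ← ci_rgt, ci_dot, ci_dot]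
    push_cast
    ring
  simp only [HH, h1, h2, add_zero, one_mul]

theorem tor_four (τ : Mat g) (p : Zg g) : tor τ ((4 : ℤ) • p) = per τ (cst p) := by
  rw [tor_eq, cst_four, lft_smul, rgt_smul, app_smul, ← smul_add, smul_smul]
  norm_num [per]

theorem tor_add (τ : Mat g) (p q : Zg g) : tor τ (p + q) = tor τ p + tor τ q := by
  rw [tor_eq, tor_eq, tor_eq, cst_add, lft_add, rgt_add, app_add, ← smul_add]
  congr 1
  abel

theorem hh_ne (p : Zg g) (a : Ix g) : hh p a ≠ 0 := Complex.exp_ne_zero _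

theorem HH_inj (p : Zg g) (X Y : Ix g → ℂ) (h : HH p X = HH p Y) : X = Y := by
  funext a
  have := congrFun h (a - sh p)
  simp only [HH, sub_add_cancel] at this
  exact mul_left_cancel₀ (hh_ne p _) this

/-! ### The lattice -/

/-- the real period map -/
noncomputable def perL (τ : Mat g) : (Fin g ⊕ Fin g → ℝ) →ₗ[ℝ] V g where
  toFun x := per τ fun i => (x i : ℂ)
  map_add' x y := by
    funext i
    simp only [per, Pi.add_apply, app_apply, lft, rgt, Complex.ofReal_add, mul_add,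
      Finset.sum_add_distrib]
    ring
  map_smul' c x := by
    funext i
    simp only [per, Pi.add_apply, app_apply, lft, rgt, Pi.smul_apply, smul_eq_mul,
      Complex.ofReal_mul, RingHom.id_apply, Complex.real_smul, mul_add, Finset.mul_sum]
    congr 1
    refine Finset.sum_congr rfl fun j _ => ?_
    ring

theorem perL_inj (τ : Mat g) (h : Pos τ) : Function.Injective (perL τ) := by
  rw [injective_iff_map_eq_zero]
  intro x hx
  have h1 : ∀ i, ∑ j, τ i j * (x (.inl j) : ℂ) + (x (.inr i) : ℂ) = 0 := fun i => by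
    have := congrFun hx i
    simpa [perL, per, app_apply, lft, rgt] using this
  have h2 : ∀ i, ∑ j, (τ i j).im * x (.inl j) = 0 := fun i => by
    have := congrArg Complex.im (h1 i)
    simpa [Complex.im_sum] using this
  have h3 : (fun j => x (.inl j)) = 0 := by
    by_contra hne
    have := h _ hne
    simp only [mul_assoc, ← Finset.mul_sum, h2, mul_zero, Finset.sum_const_zero] at this
    exact lt_irrefl _ this
  have h4 : ∀ j, x (.inl j) = 0 := fun j => congrFun h3 j
  funext i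
  rcases i with j | j
  · exact h4 j
  · have := h1 j
    simpa [h4] using this

theorem perL_bij (τ : Mat g) (h : Pos τ) : Function.Bijective (perL τ) := by
  refine ⟨perL_inj τ h, ?_⟩
  refine (LinearMap.injective_iff_surjective_of_finrank_eq_finrank ?_).1 (perL_inj τ h)
  rw [Module.finrank_pi_fintype, Module.finrank_pi_fintype]
  simp [Complex.finrank_real_complex, mul_two]

theorem cocompact (τ : Mat g) (h : Pos τ) : ∃ R : ℝ, ∀ u, ∃ p, ‖u - per τ (cst p)‖ ≤ R := by
  refine ⟨‖LinearMap.toContinuousLinearMap (perL τ)‖, fun u => ?_⟩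
  obtain ⟨x, rfl⟩ := (perL_bij τ h).2 u
  refine ⟨fun i => ⌊x i⌋, ?_⟩
  have h1 : per τ (cst fun i => ⌊x i⌋) = perL τ fun i => (⌊x i⌋ : ℝ) := by
    simp only [perL, LinearMap.coe_mk, AddHom.coe_mk]
    congr 1
  rw [h1, ← map_sub]
  have h2 : ‖x - fun i => (⌊x i⌋ : ℝ)‖ ≤ 1 := by
    rw [pi_norm_le_iff_of_nonneg zero_le_one]
    intro i
    have h3 := Int.fract_nonneg (x i)
    have h4 := Int.fract_lt_one (x i)
    rw [Int.fract] at h3 h4
    simp only [Pi.sub_apply, Real.norm_eq_abs]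
    rw [abs_le]
    constructor <;> linarith
  have := (LinearMap.toContinuousLinearMap (perL τ)).le_opNorm (x - fun i => (⌊x i⌋ : ℝ))
  calc _ ≤ ‖LinearMap.toContinuousLinearMap (perL τ)‖ * ‖x - fun i => (⌊x i⌋ : ℝ)‖ := this
    _ ≤ ‖LinearMap.toContinuousLinearMap (perL τ)‖ * 1 :=
        mul_le_mul_of_nonneg_left h2 (norm_nonneg _)
    _ = _ := mul_one _

/-! ### Derivatives -/

/-- the theta functions as functions of both variables -/
noncomputable def FF (g : ℕ) : Mat g × V g → Ix g → ℂ := fun q => th q.1 q.2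

theorem isOpen_dom (h2 : HolS) : IsOpen {q : Mat g × V g | Pos q.1} :=
  (h2 g).1.preimage continuous_fst

theorem FF_diff (h2 : HolS) (τ : Mat g) (h : Pos τ) (u : V g) :
    DifferentiableAt ℂ (FF g) (τ, u) :=
  (h2 g).2.differentiableAt ((isOpen_dom h2).mem_nhds h)

theorem du_eq (h2 : HolS) (τ : Mat g) (h : Pos τ) (u w : V g) :
    du τ u w = fderiv ℂ (FF g) (τ, u) (0, w) := by
  have h1 : HasFDerivAt (fun v : V g => FF g (τ, v))
      ((fderiv ℂ (FF g) (τ, u)).comp (ContinuousLinearMap.inr ℂ (Mat g) (V g))) u :=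
    (FF_diff h2 τ h u).hasFDerivAt.comp u (hasFDerivAt_prodMk_right τ u)
  have h3 : du τ u w = fderiv ℂ (fun v : V g => FF g (τ, v)) u w := rfl
  rw [h3, h1.fderiv]
  rfl

theorem dK_eq (h2 : HolS) (τ K : Mat g) (h : Pos τ) (u : V g) :
    dK τ K u = fderiv ℂ (FF g) (τ, u) (K, 0) := by
  have h1 : HasFDerivAt (fun σ : Mat g => FF g (σ, u))
      ((fderiv ℂ (FF g) (τ, u)).comp (ContinuousLinearMap.inl ℂ (Mat g) (V g))) τ :=
    HasFDerivAt.comp (f := fun σ : Mat g => (σ, u)) τ (FF_diff h2 τ h u).hasFDerivAt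
      (hasFDerivAt_prodMk_left τ u)
  have h3 : dK τ K u = fderiv ℂ (fun σ : Mat g => FF g (σ, u)) τ K := rfl
  rw [h3, h1.fderiv]
  rfl

/-- the derivative along a line -/
theorem line_deriv (h2 : HolS) (τ K : Mat g) (h : Pos τ) (u w : V g) (a : Ix g) :
    HasDerivAt (fun s : ℂ => th (τ + s • K) (u + s • w) a) (dK τ K u a + du τ u w a) 0 := by
  have h1 : HasDerivAt (fun s : ℂ => ((τ, u) : Mat g × V g) + s • (K, w)) (K, w) 0 := by
    simpa using ((hasDerivAt_id (0 : ℂ)).smul_const ((K, w) : Mat g × V g)).const_add (τ, u)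
  have h3 : HasFDerivAt (FF g) (fderiv ℂ (FF g) (τ, u))
      (((τ, u) : Mat g × V g) + (0 : ℂ) • (K, w)) := by
    simpa using (FF_diff h2 τ h u).hasFDerivAt
  have h4 := h3.comp_hasDerivAt (0 : ℂ) h1
  have h5 : fderiv ℂ (FF g) (τ, u) (K, w) = dK τ K u + du τ u w := by
    rw [dK_eq h2 τ K h, du_eq h2 τ h, ← map_add]
    simp
  rw [h5] at h4
  exact (hasDerivAt_pi.1 h4) a

theorem dK_zero (τ : Mat g) (u : V g) : dK τ 0 u = 0 := by simp [dK]

theorem du_zero (τ : Mat g) (u : V g) : du τ u 0 = 0 := by simp [du]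

theorem du_neg (τ : Mat g) (u w : V g) : du τ u (-w) = -du τ u w := by simp [du]

theorem line_u (h2 : HolS) (τ : Mat g) (h : Pos τ) (u w : V g) (a : Ix g) :
    HasDerivAt (fun s : ℂ => th τ (u + s • w) a) (du τ u w a) 0 := by
  simpa [dK_zero] using line_deriv h2 τ 0 h u w a

theorem line_K (h2 : HolS) (τ K : Mat g) (h : Pos τ) (u : V g) (a : Ix g) :
    HasDerivAt (fun s : ℂ => th (τ + s • K) u a) (dK τ K u a) 0 := by
  simpa [du_zero] using line_deriv h2 τ K h u 0 a

theorem exp_line (A B : ℂ) : HasDerivAt (fun s : ℂ => cexp (A + s * B)) (cexp A * B) 0 := by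
  have h1 : HasDerivAt (fun s : ℂ => A + s * B) B 0 := by
    simpa using ((hasDerivAt_id (0 : ℂ)).mul_const B).const_add A
  simpa using h1.cexp

theorem ee_line_u (τ : Mat g) (p : Zg g) (u w : V g) :
    HasDerivAt (fun s : ℂ => ee τ p (u + s • w))
      (ee τ p u * (-(2 * Real.pi * I) * (lft (cst p) ⬝ᵥ w))) 0 := by
  rw [ee_eq]
  convert exp_line _ (-(2 * Real.pi * I) * (lft (cst p) ⬝ᵥ w)) using 2 with s
  rw [ee_eq, dotProduct_add, dotProduct_smul, smul_eq_mul]
  congr 1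
  ring

theorem ee_line_K (τ K : Mat g) (p : Zg g) (u : V g) :
    HasDerivAt (fun s : ℂ => ee (τ + s • K) p u)
      (ee τ p u * (-(2 * Real.pi * I) * (lft (cst p) ⬝ᵥ app K (lft (cst p))) / 8)) 0 := by
  rw [ee_eq]
  convert exp_line _ (-(2 * Real.pi * I) * (lft (cst p) ⬝ᵥ app K (lft (cst p))) / 8) using 2 with s
  rw [ee_eq, app_line, dotProduct_add, dotProduct_smul, smul_eq_mul]
  congr 1
  ring

theorem lawu (h2 : HolS) (τ : Mat g) (h : Sg τ) (p : Zg g) (u w : V g) :
    du τ (u + tor τ p) w =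
      ee τ p u • HH p (du τ u w - (2 * Real.pi * I * (lft (cst p) ⬝ᵥ w)) • th τ u) := by
  funext a
  have h1 := line_u h2 τ h.2 (u + tor τ p) w a
  have h3 := (ee_line_u τ p u w).mul ((line_u h2 τ h.2 u w (a + sh p)).const_mul (hh p a))
  have h4 : (fun s : ℂ => th τ (u + tor τ p + s • w) a) =
      (fun s : ℂ => ee τ p (u + s • w)) * fun s : ℂ => hh p a * th τ (u + s • w) (a + sh p) := by
    funext s
    rw [add_right_comm, law τ h.1]
    simp [HH]
  rw [h4] at h1
  rw [h1.unique h3]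
  simp only [HH, Pi.smul_apply, Pi.sub_apply, smul_eq_mul, zero_smul, add_zero]
  ring

theorem lawK (h2 : HolS) (τ K : Mat g) (h : Sg τ) (hK : ∀ i j, K i j = K j i) (p : Zg g) :
    ∃ r : ℂ, ∀ u, dK τ K (u + tor τ p) = ee τ p u •
      HH p (dK τ K u - du τ u ((1 / 4 : ℂ) • app K (lft (cst p))) + r • th τ u) := by
  refine ⟨2 * Real.pi * I * (lft (cst p) ⬝ᵥ app K (lft (cst p))) / 8, fun u => ?_⟩
  funext a
  have h1 := line_deriv h2 τ K h.2 (u + tor τ p) ((1 / 4 : ℂ) • app K (lft (cst p))) a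
  have h3 := (ee_line_K τ K p u).mul ((line_K h2 τ K h.2 u (a + sh p)).const_mul (hh p a))
  have h4 : (fun s : ℂ => th (τ + s • K)
      (u + tor τ p + s • (1 / 4 : ℂ) • app K (lft (cst p))) a) =
      (fun s : ℂ => ee (τ + s • K) p u) * fun s : ℂ => hh p a * th (τ + s • K) u (a + sh p) := by
    funext s
    have h5 : u + tor τ p + s • (1 / 4 : ℂ) • app K (lft (cst p)) = u + tor (τ + s • K) p := by
      rw [tor_eq, tor_eq, app_line, smul_comm s, add_assoc, ← smul_add]
      congr 2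
      abel
    have h6 : ∀ i j, (τ + s • K) i j = (τ + s • K) j i := fun i j => by
      simp only [Pi.add_apply, Pi.smul_apply, h.1 i j, hK i j]
    rw [h5, law _ h6]
    simp [HH]
  rw [h4] at h1
  have h7 := h1.unique h3
  rw [lawu h2 τ h] at h7
  simp only [HH, Pi.smul_apply, Pi.sub_apply, Pi.add_apply, smul_eq_mul, zero_smul, add_zero,
    dotProduct_smul] at h7 ⊢
  linear_combination h7

theorem evenu (h2 : HolS) (τ : Mat g) (h : Sg τ) (u w : V g) (a : Ix g) :
    du τ (-u) w a = -du τ u w (-a) := by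
  have h1 := line_u h2 τ h.2 (-u) w a
  have h3 := line_u h2 τ h.2 u (-w) (-a)
  have h4 : (fun s : ℂ => th τ (-u + s • w) a) = fun s : ℂ => th τ (u + s • -w) (-a) := by
    funext s
    rw [← even]
    congr 1
    simp [add_comm]
  rw [h4] at h1
  rw [h1.unique h3, du_neg]
  rfl

theorem evenK (h2 : HolS) (τ K : Mat g) (h : Sg τ) (u : V g) (a : Ix g) :
    dK τ K (-u) a = dK τ K u (-a) := by
  have h1 := line_K h2 τ K h.2 (-u) a
  have h3 := line_K h2 τ K h.2 u (-a)
  have h4 : (fun s : ℂ => th (τ + s • K) (-u) a) = fun s : ℂ => th (τ + s • K) u (-a) := by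
    funext s
    rw [even]
  rw [h4] at h1
  exact h1.unique h3

theorem fderiv_diff (h0 : OsgS) (h2 : HolS) (τ : Mat g) (h : Pos τ) :
    Differentiable ℂ fun u : V g => fderiv ℂ (FF g) (τ, u) := by
  intro u
  have h1 : AnalyticOnNhd ℂ (FF g) {q : Mat g × V g | Pos q.1} :=
    h0 _ _ (FF g) _ (isOpen_dom h2) (h2 g).2
  have h3 : DifferentiableAt ℂ (fderiv ℂ (FF g)) (τ, u) :=
    (h1.fderiv (τ, u) h).differentiableAt
  exact h3.comp u (hasFDerivAt_prodMk_right (𝕜 := ℂ) τ u).differentiableAt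

theorem holu (h0 : OsgS) (h2 : HolS) (τ : Mat g) (h : Sg τ) : Differentiable ℂ (th τ) ∧
    Differentiable ℂ fun q : V g × V g => du τ q.1 q.2 := by
  constructor
  · intro u
    exact (FF_diff h2 τ h.2 u).comp u (hasFDerivAt_prodMk_right (𝕜 := ℂ) τ u).differentiableAt
  · have h1 : (fun q : V g × V g => du τ q.1 q.2) =
        fun q : V g × V g => fderiv ℂ (FF g) (τ, q.1) (0, q.2) := by
      funext q; exact du_eq h2 τ h.2 _ _
    rw [h1]
    exact ((fderiv_diff h0 h2 τ h.2).comp differentiable_fst).clm_apply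
      ((differentiable_const _).prodMk differentiable_snd)

theorem holK (h0 : OsgS) (h2 : HolS) (τ K : Mat g) (h : Sg τ) : Differentiable ℂ (dK τ K) := by
  have h1 : dK τ K = fun u : V g => fderiv ℂ (FF g) (τ, u) (K, 0) := by
    funext u; exact dK_eq h2 τ K h.2 _
  rw [h1]
  exact (fderiv_diff h0 h2 τ h.2).clm_apply (differentiable_const _)

end LawAux

theorem law (h0 : OsgS) (_h1 : SumS) (h2 : HolS) : LawS where
  law _ τ h p u := LawAux.law τ h.1 p u
  even _ τ u a := LawAux.even τ u a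
  lawu _ τ h p u w := LawAux.lawu h2 τ h p u w
  lawK _ τ K h hK p := LawAux.lawK h2 τ K h hK p
  evenu _ τ h u w a := LawAux.evenu h2 τ h u w a
  evenK _ τ K h u a := LawAux.evenK h2 τ K h u a
  holu _ τ h := LawAux.holu h0 h2 τ h
  holK _ τ K h := LawAux.holK h0 h2 τ K h
  cocycle _ τ h p q u X := LawAux.cocycle τ h.1 p q u X
  hh_four _ p X := LawAux.hh_four p X
  tor_four _ τ p := LawAux.tor_four τ p
  tor_add _ τ p q := LawAux.tor_add τ p q
  hh_ne _ p a := LawAux.hh_ne p a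
  HH_inj _ p X Y h := LawAux.HH_inj p X Y h
  cocompact _ τ h := LawAux.cocompact τ h.2
  per_real _ τ h := LawAux.perL_bij τ h.2

end Pool.Agent.Lib.MP_caab05_ag.GB
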