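import Mathlib
import Pool.Agent.Lib.MP_caab05_ag.GB.Stmt2

/-! The isomorphism of abelian varieties attached to an element of the congruence group. -/

namespace Pool.Agent.Lib.MP_caab05_ag.GB

open MvPolynomial Filter Topology Asymptotics Complex Matrix NumberField

namespace MatAux

variable {g : ℕ} {L : Type} [Field L] [NumberField L]

noncomputable def vecL (v : Emb L → Fin 2 → W g) : (Emb L → Fin 2 → ℂ) →ₗ[ℂ] W g where
  toFun := vec v
  map_add' X Y := by simp only [vec, Pi.add_apply, add_smul, Finset.sum_add_distrib]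
  map_smul' a X := by
    simp only [vec, Pi.smul_apply, smul_eq_mul, RingHom.id_apply, Finset.smul_sum, smul_smul]

noncomputable def perL (τ : Mat g) : W g →ₗ[ℂ] V g where
  toFun := per τ
  map_add' x y := by
    have e1 : lft (x + y) = lft x + lft y := rfl
    have e2 : rgt (x + y) = rgt x + rgt y := rfl
    simp only [per, app, e1, e2, mulVec_add]
    abel
  map_smul' a x := by
    have e1 : lft (a • x) = a • lft x := rfl
    have e2 : rgt (a • x) = a • rgt x := rfl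
    simp only [per, app, e1, e2, mulVec_smul, RingHom.id_apply, smul_add]

noncomputable def JB : W g →ₗ[ℂ] W g →ₗ[ℂ] ℂ :=
  LinearMap.mk₂ ℂ JJ
    (fun x y z => by
      have e1 : lft (x + y) = lft x + lft y := rfl
      have e2 : rgt (x + y) = rgt x + rgt y := rfl
      simp only [JJ, e1, e2, add_dotProduct]
      ring)
    (fun a x z => by
      have e1 : lft (a • x) = a • lft x := rfl
      have e2 : rgt (a • x) = a • rgt x := rfl
      simp only [JJ, e1, e2, smul_dotProduct, smul_eq_mul]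
      ring)
    (fun z x y => by
      have e1 : lft (x + y) = lft x + lft y := rfl
      have e2 : rgt (x + y) = rgt x + rgt y := rfl
      simp only [JJ, e1, e2, dotProduct_add]
      ring)
    (fun a z x => by
      have e1 : lft (a • x) = a • lft x := rfl
      have e2 : rgt (a • x) = a • rgt x := rfl
      simp only [JJ, e1, e2, dotProduct_smul, smul_eq_mul]
      ring)

theorem JJ_vec {ξ : Fin 2 → L} {v : Emb L → Fin 2 → W g} (hs : IsSym ξ v)
    (X Y : Emb L → Fin 2 → ℂ) :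
    JJ (vec v X) (vec v Y) = ∑ φ : Emb L, ∑ i, X φ i * Y (cj φ) i * φ (ξ i) := by
  classical
  show JB (vec v X) (vec v Y) = _
  have e : ∀ φ i, JB (v φ i) (vec v Y) = Y (cj φ) i * φ (ξ i) := fun φ i => by
    have e1 : ∀ ψ j, JB (v φ i) (v ψ j) = if ψ = cj φ ∧ i = j then φ (ξ i) else 0 :=
      fun ψ j => by
        have := hs.symp φ ψ i j
        by_cases h : ψ = cj φ ∧ i = j
        · rw [if_pos h] at this ⊢
          exact this
        · rw [if_neg h] at this ⊢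
          exact this
    simp only [vec, map_sum, map_smul, smul_eq_mul, e1]
    rw [Finset.sum_eq_single (cj φ), Finset.sum_eq_single i]
    · simp
    · intro j _ hj
      rw [if_neg fun h => hj h.2.symm, mul_zero]
    · simp
    · intro ψ _ hψ
      refine Finset.sum_eq_zero fun j _ => ?_
      rw [if_neg fun h => hψ h.1, mul_zero]
    · simp
  conv_lhs => rw [vec]
  simp only [map_sum, map_smul, LinearMap.sum_apply, LinearMap.smul_apply, smul_eq_mul, e,
    mul_assoc]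

theorem JJ_cst (p q : Zg g) : JJ (cst p) (cst q) = ((JJ p q : ℤ) : ℂ) := by
  simp only [JJ, dotProduct, lft, rgt, cst]
  push_cast
  rfl

/-- the action of a matrix on coordinates -/
noncomputable def act (γ : Matrix (Fin 2) (Fin 2) L) :
    (Emb L → Fin 2 → ℂ) →ₗ[ℂ] (Emb L → Fin 2 → ℂ) where
  toFun X φ := γ.map φ *ᵥ X φ
  map_add' X Y := by
    funext φ
    simp only [Pi.add_apply, mulVec_add]
  map_smul' a X := by
    funext φ
    simp only [Pi.smul_apply, mulVec_smul, RingHom.id_apply]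

omit [NumberField L] in
theorem act_apply (γ : Matrix (Fin 2) (Fin 2) L) (X : Emb L → Fin 2 → ℂ) (φ : Emb L)
    (i : Fin 2) : act γ X φ i = φ (γ i 0) * X φ 0 + φ (γ i 1) * X φ 1 := by
  show (γ.map φ *ᵥ X φ) i = _
  simp [mulVec, dotProduct, Fin.sum_univ_two]

omit [NumberField L] in
theorem act_rat (γ : Matrix (Fin 2) (Fin 2) L) (x : Fin 2 → L) :
    act γ (fun φ i => φ (x i)) = fun φ i => φ ((γ *ᵥ x) i) := by
  funext φ i
  rw [act_apply]
  simp [mulVec, dotProduct, Fin.sum_univ_two]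

omit [NumberField L] in
theorem act_surj (γ : Matrix (Fin 2) (Fin 2) L) (h : γ.det = 1) :
    Function.Surjective (act γ) := by
  intro Y
  refine ⟨act γ.adjugate Y, ?_⟩
  funext φ
  show γ.map φ *ᵥ (γ.adjugate.map φ *ᵥ Y φ) = _
  rw [mulVec_mulVec, ← Matrix.map_mul, mul_adjugate, h, one_smul,
    Matrix.map_one _ (map_zero φ) (map_one φ), one_mulVec]

theorem cj_apply {c : L ≃ₐ[ℚ] L} (hc : IsCj c) (φ : Emb L) (x : L) : cj φ x = φ (c x) := by
  rw [hc φ x]
  rfl

theorem su_rel {c : L ≃ₐ[ℚ] L} {ξ : Fin 2 → L} (hne : ∀ i, ξ i ≠ 0)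
    {γ : Matrix (Fin 2) (Fin 2) L} (h : IsSU c ξ γ) :
    c (γ 0 0) = γ 1 1 ∧ c (γ 1 1) = γ 0 0 ∧ ξ 1 * c (γ 1 0) = -(ξ 0 * γ 0 1) ∧
      ξ 0 * c (γ 0 1) = -(ξ 1 * γ 1 0) := by
  obtain ⟨hd, h⟩ := h
  rw [det_fin_two] at hd
  have h00 := h 0 0
  have h01 := h 0 1
  have h10 := h 1 0
  have h11 := h 1 1
  simp only [Fin.sum_univ_two, if_true, zero_ne_one, one_ne_zero, if_false] at h00 h01 h10 h11
  refine ⟨mul_left_cancel₀ (hne 0) ?_, mul_left_cancel₀ (hne 1) ?_, ?_, ?_⟩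
  · linear_combination γ 1 1 * h00 - γ 1 0 * h10 - ξ 0 * c (γ 0 0) * hd
  · linear_combination γ 0 0 * h11 - γ 0 1 * h01 - ξ 1 * c (γ 1 1) * hd
  · linear_combination γ 0 0 * h10 - γ 0 1 * h00 - ξ 1 * c (γ 1 0) * hd
  · linear_combination γ 1 1 * h01 - γ 1 0 * h11 - ξ 0 * c (γ 0 1) * hd

theorem xi_rel {c : L ≃ₐ[ℚ] L} {ξ : Fin 2 → L} (hx : IsXi c ξ) (φ : Mx ξ) :
    φ.1 (ξ 1) = -((rr ξ φ.1 : ℝ) : ℂ) * φ.1 (ξ 0) := by
  have hre : ∀ i, (φ.1 (ξ i)).re = 0 := fun i => by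
    have e := hx.cj φ.1 (ξ i)
    rw [hx.skew, map_neg] at e
    have e2 := congrArg Complex.re e
    simp only [neg_re, conj_re] at e2
    linarith
  have h0 := φ.2.1.ne'
  apply Complex.ext
  · simp [hre]
  · simp only [neg_mul, neg_im, mul_im, ofReal_re, ofReal_im, zero_mul, add_zero, rr]
    field_simp

theorem su_emb {c : L ≃ₐ[ℚ] L} {ξ : Fin 2 → L} (hx : IsXi c ξ)
    {γ : Matrix (Fin 2) (Fin 2) L} (h : IsSU c ξ γ) (φ : Mx ξ) :
    cj φ.1 (γ 0 0) = φ.1 (γ 1 1) ∧ cj φ.1 (γ 1 1) = φ.1 (γ 0 0) ∧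
      (rr ξ φ.1 : ℂ) * cj φ.1 (γ 1 0) = φ.1 (γ 0 1) ∧
      cj φ.1 (γ 0 1) = (rr ξ φ.1 : ℂ) * φ.1 (γ 1 0) := by
  obtain ⟨a1, a2, a3, a4⟩ := su_rel hx.ne h
  have h0 : φ.1 (ξ 0) ≠ 0 := (map_ne_zero φ.1).2 (hx.ne 0)
  have b3 := congrArg φ.1 a3
  have b4 := congrArg φ.1 a4
  rw [map_mul, map_neg, map_mul, xi_rel hx φ] at b3 b4
  simp only [cj_apply hx.cj]
  refine ⟨by rw [a1], by rw [a2], mul_left_cancel₀ h0 ?_, mul_left_cancel₀ h0 ?_⟩
  · linear_combination -b3
  · linear_combination b4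

theorem inF_act {c : L ≃ₐ[ℚ] L} {ξ : Fin 2 → L} (hx : IsXi c ξ)
    {γ : Matrix (Fin 2) (Fin 2) L} (h : IsSU c ξ γ) {z z' : Mx ξ → ℂ} (hm : Moves ξ γ z z')
    {X : Emb L → Fin 2 → ℂ} (hX : InF ξ z X) : InF ξ z' (act γ X) := by
  refine ⟨fun φ => ?_, fun ψ h0 h1 => ?_⟩
  · obtain ⟨a1, a2, a3, a4⟩ := su_emb hx h φ
    obtain ⟨b1, b2⟩ := hX.1 φ
    have m := hm φ
    simp only [act_apply]
    rw [b1, b2, a1, a2, a4]
    constructor
    · linear_combination -X φ.1 0 * m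
    · linear_combination -(rr ξ φ.1 : ℂ) * X (cj φ.1) 1 * m -
        (rr ξ φ.1 : ℂ) * z' φ * z φ * X (cj φ.1) 1 * a3
  · show γ.map ψ *ᵥ X ψ = 0
    rw [hX.2 ψ h0 h1, mulVec_zero]

theorem JJ_act {c : L ≃ₐ[ℚ] L} {ξ : Fin 2 → L} (hc : IsCj c) {v : Emb L → Fin 2 → W g}
    (hs : IsSym ξ v) {γ : Matrix (Fin 2) (Fin 2) L} (h : IsSU c ξ γ)
    (X Y : Emb L → Fin 2 → ℂ) :
    JJ (vec v (act γ X)) (vec v (act γ Y)) = JJ (vec v X) (vec v Y) := by
  rw [JJ_vec hs, JJ_vec hs]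
  refine Finset.sum_congr rfl fun φ _ => ?_
  have h00 := congrArg φ (h.2 0 0)
  have h01 := congrArg φ (h.2 0 1)
  have h10 := congrArg φ (h.2 1 0)
  have h11 := congrArg φ (h.2 1 1)
  simp only [Fin.sum_univ_two, if_true, zero_ne_one, one_ne_zero, if_false, map_add, map_mul,
    map_zero] at h00 h01 h10 h11
  simp only [Fin.sum_univ_two, act_apply, cj_apply hc]
  linear_combination X φ 0 * Y (cj φ) 0 * h00 + X φ 0 * Y (cj φ) 1 * h01 +
    X φ 1 * Y (cj φ) 0 * h10 + X φ 1 * Y (cj φ) 1 * h11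

open Classical in
theorem vec_sgl (v : Emb L → Fin 2 → W g) (φ : Emb L) (x : Fin 2 → ℂ) :
    vec v (Pi.single φ x) = x 0 • v φ 0 + x 1 • v φ 1 := by
  rw [vec, Finset.sum_eq_single φ]
  · simp [Fin.sum_univ_two]
  · intro ψ _ hψ
    simp [Pi.single_eq_of_ne hψ]
  · simp

omit [NumberField L] in
open Classical in
theorem act_single (γ : Matrix (Fin 2) (Fin 2) L) (φ : Emb L) (x : Fin 2 → ℂ) :
    act γ (Pi.single φ x) = Pi.single φ (γ.map φ *ᵥ x) := by
  funext ψ
  show γ.map ψ *ᵥ (Pi.single φ x : Emb L → Fin 2 → ℂ) ψ = _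
  by_cases h : ψ = φ
  · subst h
    simp
  · simp [Pi.single_eq_of_ne h]

omit [NumberField L] in
theorem cj_im (φ : Emb L) (x : L) : (cj φ x).im = -(φ x).im := Complex.conj_im _

omit [NumberField L] in
open Classical in
theorem inF_one {ξ : Fin 2 → L} (z : Mx ξ → ℂ) (φ : Mx ξ) :
    InF ξ z (Pi.single φ.1 ![1, z φ]) := by
  refine ⟨fun ψ => ⟨?_, ?_⟩, fun ψ h0 _ => ?_⟩
  · by_cases h : ψ = φ
    · subst h
      simp
    · have h' : ψ.1 ≠ φ.1 := fun e => h (Subtype.ext e)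
      simp [Pi.single_eq_of_ne h']
  · have h' : cj ψ.1 ≠ φ.1 := fun e => by
      have e1 := cj_im ψ.1 (ξ 0)
      rw [e] at e1
      linarith [φ.2.1, ψ.2.1]
    simp [Pi.single_eq_of_ne h']
  · have h' : ψ ≠ φ.1 := fun e => by
      rw [e] at h0
      linarith [φ.2.1]
    exact Pi.single_eq_of_ne h' _

omit [NumberField L] in
open Classical in
theorem inF_two {ξ : Fin 2 → L} (z : Mx ξ → ℂ) (φ : Mx ξ) :
    InF ξ z (Pi.single (cj φ.1) ![(rr ξ φ.1 : ℂ) * z φ, 1]) := by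
  refine ⟨fun ψ => ⟨?_, ?_⟩, fun ψ _ h1 => ?_⟩
  · have h' : ψ.1 ≠ cj φ.1 := fun e => by
      have e1 := cj_im φ.1 (ξ 0)
      rw [← e] at e1
      linarith [φ.2.1, ψ.2.1]
    simp [Pi.single_eq_of_ne h']
  · by_cases h : ψ = φ
    · subst h
      simp
    · have h' : cj ψ.1 ≠ cj φ.1 := fun e => h (Subtype.ext (star_injective e))
      simp [Pi.single_eq_of_ne h']
  · have h' : ψ ≠ cj φ.1 := fun e => by
      have e1 := cj_im φ.1 (ξ 1)
      rw [← e] at e1
      linarith [φ.2.2]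
    exact Pi.single_eq_of_ne h' _

theorem rat_den (w : W g) (hw : IsRat w) : ∃ n : ℕ, n ≠ 0 ∧ ∃ p : Zg g, (n : ℂ) • w = cst p := by
  choose q hq using hw
  refine ⟨∏ j, (q j).den, Finset.prod_ne_zero_iff.2 fun j _ => (q j).den_nz, ?_⟩
  have : ∀ j, ∃ a : ℤ, ((∏ j, (q j).den : ℕ) : ℂ) * w j = a := fun j => by
    obtain ⟨t, ht⟩ := Finset.dvd_prod_of_mem (fun j => (q j).den) (Finset.mem_univ j)
    refine ⟨t * (q j).num, ?_⟩
    rw [ht, hq j]
    have e : ((q j).den : ℂ) * (q j : ℂ) = (q j).num := by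
      exact_mod_cast Rat.den_mul_eq_num (q j)
    push_cast
    linear_combination (t : ℂ) * e
  choose p hp using this
  exact ⟨p, funext hp⟩

theorem cst_add (p q : Zg g) : cst (p + q) = cst p + cst q := by
  funext i
  simp [cst]

theorem cst_smul (n : ℤ) (p : Zg g) : cst (n • p) = (n : ℂ) • cst p := by
  funext i
  simp [cst]

theorem exists_m1 {ξ : Fin 2 → L} {v : Emb L → Fin 2 → W g} (hs : IsSym ξ v) :
    ∃ m : ℕ, m ≠ 0 ∧ ∀ y : Fin 2 → L, (∀ i, IsIntegral ℤ (y i)) →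
      ∃ p : Zg g, (m : ℂ) • vec v (fun φ i => φ (y i)) = cst p := by
  classical
  let f : (Fin 2 → 𝓞 L) → W g := fun y => vec v fun φ i => φ (y i : L)
  have f_add : ∀ x y, f (x + y) = f x + f y := fun x y => by
    refine Eq.trans ?_ ((vecL v).map_add (fun φ i => φ (x i : L)) fun φ i => φ (y i : L))
    show vec v _ = vec v _
    congr 1
    funext φ i
    simp
  have f_smul : ∀ (a : ℤ) x, f (a • x) = (a : ℂ) • f x := fun a x => by
    have := (vecL v).map_smul (a : ℂ) fun φ i => φ (x i : L)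
    refine Eq.trans ?_ this
    show vec v _ = vec v _
    congr 1
    funext φ i
    simp
  choose n hn0 hn using fun y : Fin 2 → 𝓞 L => rat_den (f y) (hs.rat _)
  obtain ⟨S, hS⟩ := Module.Finite.fg_top (R := ℤ) (M := Fin 2 → 𝓞 L)
  refine ⟨∏ y ∈ S, n y, Finset.prod_ne_zero_iff.2 fun y _ => hn0 y, fun y hy => ?_⟩
  have key : ∀ x ∈ Submodule.span ℤ (S : Set (Fin 2 → 𝓞 L)),
      ∃ p : Zg g, ((∏ y ∈ S, n y : ℕ) : ℂ) • f x = cst p := by
    intro x hx
    induction hx using Submodule.span_induction with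
    | mem x hx =>
      obtain ⟨t, ht⟩ := Finset.dvd_prod_of_mem n (Finset.mem_coe.1 hx)
      obtain ⟨p, hp⟩ := hn x
      refine ⟨(t : ℤ) • p, ?_⟩
      rw [ht, cst_smul, ← hp, smul_smul]
      push_cast
      rw [mul_comm]
    | zero =>
      refine ⟨0, ?_⟩
      have := f_smul 0 0
      rw [zero_smul, Int.cast_zero, zero_smul] at this
      rw [this, smul_zero]
      funext i
      simp [cst]
    | add x y _ _ hx hy =>
      obtain ⟨p, hp⟩ := hx
      obtain ⟨q, hq⟩ := hy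
      exact ⟨p + q, by rw [f_add, smul_add, hp, hq, cst_add]⟩
    | smul a x _ hx =>
      obtain ⟨p, hp⟩ := hx
      exact ⟨a • p, by rw [f_smul, smul_comm, hp, cst_smul]⟩
  exact key (fun i => ⟨y i, hy i⟩) (hS ▸ Submodule.mem_top)

theorem exists_m2 {ι : Type} [Fintype ι] (x : ι → L) :
    ∃ m : ℕ, m ≠ 0 ∧ ∀ a, IsIntegral ℤ ((m : L) * x a) := by
  have : ∀ a, ∃ n : ℕ, n ≠ 0 ∧ IsIntegral ℤ ((n : L) * x a) := fun a => by
    have h1 : IsAlgebraic ℤ (x a) :=
      (IsFractionRing.isAlgebraic_iff ℤ ℚ L).2 (Algebra.IsAlgebraic.isAlgebraic _)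
    obtain ⟨y, hy0, hy⟩ := h1.exists_integral_multiple
    refine ⟨y.natAbs, Int.natAbs_ne_zero.2 hy0, ?_⟩
    rcases Int.natAbs_eq y with e | e
    · have : ((y.natAbs : ℕ) : L) = (y : L) := by
        conv_rhs => rw [e]
        exact (Int.cast_natCast _).symm
      rw [this, ← zsmul_eq_mul]
      exact hy
    · have : ((y.natAbs : ℕ) : L) = -(y : L) := by
        conv_rhs => rw [e]
        rw [Int.cast_neg, neg_neg]
        exact (Int.cast_natCast _).symm
      rw [this, neg_mul, ← zsmul_eq_mul]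
      exact hy.neg
  choose n hn0 hn using this
  refine ⟨∏ a, n a, Finset.prod_ne_zero_iff.2 fun a _ => hn0 a, fun a => ?_⟩
  obtain ⟨t, ht⟩ := Finset.dvd_prod_of_mem n (Finset.mem_univ a)
  rw [ht, Nat.cast_mul, mul_comm (n a : L), mul_assoc]
  exact (isIntegral_natCast t).mul (hn a)

theorem cst_eq_sum (p : Zg g) : cst p = ∑ a, (p a : ℂ) • cst (Pi.single a 1 : Zg g) := by
  funext b
  simp [cst, Finset.sum_apply, Pi.single_apply]

end MatAux

open MatAux in
theorem matS (_h : WeakS) : MatS := by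
  classical
  intro L _ _ c ξ g v τ hx hf
  have hs := hf.sym
  let e : (Emb L → Fin 2 → ℂ) ≃ₗ[ℂ] W g := LinearEquiv.ofBijective (vecL v)
    ⟨(injective_iff_map_eq_zero _).2 hs.indep, fun w => (hs.span w).imp fun _ h => h.symm⟩
  have he : ∀ X, e X = vec v X := fun _ => rfl
  have hrat : ∀ a, IsRat (cst (Pi.single a 1 : Zg g)) := fun a j =>
    ⟨((Pi.single a 1 : Zg g) j : ℚ), by simp [cst]⟩
  choose x hxa using fun a => hs.surj _ (hrat a)
  obtain ⟨m1, hm1, h1⟩ := exists_m1 hs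
  obtain ⟨m2, hm2, h2⟩ := exists_m2 fun q : (Fin g ⊕ Fin g) × Fin 2 => x q.1 q.2
  refine ⟨8 * m1 * m2, by positivity, fun γ z z' hz hz' hγ hint hm => ?_⟩
  let R : W g →ₗ[ℂ] W g := e.toLinearMap ∘ₗ act γ ∘ₗ e.symm.toLinearMap
  have hR : ∀ X, R (vec v X) = vec v (act γ X) := fun X => by
    show e (act γ (e.symm (e X))) = _
    rw [e.symm_apply_apply, he]
  have hcol : ∀ a, ∃ p : Zg g, R (cst (Pi.single a 1 : Zg g)) =
      cst (Pi.single a 1 : Zg g) + (8 : ℂ) • cst p := fun a => by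
    let δ : Matrix (Fin 2) (Fin 2) L := Matrix.of fun i j => (γ - 1) i j / (8 * m1 * m2 : ℕ)
    let y : Fin 2 → L := δ *ᵥ fun i => (m2 : L) * x a i
    have hy : ∀ i, IsIntegral ℤ (y i) := fun i => by
      show IsIntegral ℤ (∑ j, (γ - 1) i j / (8 * m1 * m2 : ℕ) * ((m2 : L) * x a j))
      exact IsIntegral.sum _ fun j _ => (hint i j).mul (h2 (a, j))
    obtain ⟨p, hp⟩ := h1 y hy
    refine ⟨p, ?_⟩
    have hxy : γ *ᵥ x a = x a + ((8 : L) * m1) • y := by
      have hm1' : (m1 : L) ≠ 0 := Nat.cast_ne_zero.2 hm1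
      have hm2' : (m2 : L) ≠ 0 := Nat.cast_ne_zero.2 hm2
      rw [← sub_eq_iff_eq_add']
      have : γ *ᵥ x a - x a = (γ - 1) *ᵥ x a := by rw [sub_mulVec, one_mulVec]
      rw [this]
      funext i
      simp only [y, δ, mulVec, dotProduct, of_apply, Pi.smul_apply, smul_eq_mul, Finset.mul_sum]
      refine Finset.sum_congr rfl fun j _ => ?_
      push_cast
      field_simp
    rw [← hp, hxa a, hR, act_rat, hxy, smul_smul, ← he, ← he, ← he, ← map_smul, ← map_add]
    congr 1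
    funext φ i
    simp [map_ofNat]
  choose P hP using hcol
  let ρ : Matrix (Fin g ⊕ Fin g) (Fin g ⊕ Fin g) ℤ := 1 + Matrix.of fun b a => 8 * P a b
  have hρ : ∀ p : Zg g, cst (ρ *ᵥ p) = R (cst p) := fun p => by
    rw [cst_eq_sum p, map_sum]
    simp only [map_smul, hP, smul_add, Finset.sum_add_distrib]
    rw [← cst_eq_sum p, add_mulVec, one_mulVec, cst_add]
    congr 1
    funext b
    simp only [cst, mulVec, dotProduct, of_apply, Finset.sum_apply, Pi.smul_apply, smul_eq_mul]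
    push_cast
    exact Finset.sum_congr rfl fun a _ => by ring
  let ι : V g →ₗ[ℂ] W g :=
    { toFun := fun u => Sum.elim 0 u
      map_add' := fun u w => by
        funext i
        cases i <;> simp
      map_smul' := fun a u => by
        funext i
        cases i <;> simp }
  have hι : ∀ u, perL (τ z) (ι u) = u := fun u => by
    show app (τ z) 0 + u = u
    rw [app, mulVec_zero, zero_add]
  let jL : V g →ₗ[ℂ] V g := perL (τ z') ∘ₗ R ∘ₗ ι
  let j : Mat g := fun a b => LinearMap.toMatrix' jL a b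
  have hj0 : ∀ u, app j u = jL u := fun u => by
    show LinearMap.toMatrix' jL *ᵥ u = _
    rw [← Matrix.toLin'_apply, Matrix.toLin'_toMatrix']
  have hj : ∀ w, app j (per (τ z) w) = per (τ z') (R w) := fun w => by
    obtain ⟨X, hX⟩ := hs.span (w - ι (perL (τ z) w))
    have k1 : per (τ z) (vec v X) = 0 := by
      rw [← hX]
      show perL (τ z) _ = 0
      rw [map_sub, hι, sub_self]
    have k2 : perL (τ z') (R (w - ι (perL (τ z) w))) = 0 := by
      rw [hX, hR]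
      exact (hf.ker z' hz' _).2 (inF_act hx hγ hm ((hf.ker z hz X).1 k1))
    rw [map_sub, map_sub, sub_eq_zero] at k2
    rw [hj0]
    exact k2.symm
  refine ⟨ρ, j, fun p q => ?_, fun a b => ?_, fun p => ?_, ?_, fun φ => ?_⟩
  · have : ((JJ (ρ *ᵥ p) (ρ *ᵥ q) : ℤ) : ℂ) = ((JJ p q : ℤ) : ℂ) := by
      rw [← JJ_cst, ← JJ_cst, hρ, hρ]
      obtain ⟨X, hX⟩ := hs.span (cst p)
      obtain ⟨Y, hY⟩ := hs.span (cst q)
      rw [hX, hY, hR, hR, JJ_act hx.cj hs hγ]
    exact_mod_cast this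
  · simp only [ρ, add_sub_cancel_left, of_apply]
    exact dvd_mul_right _ _
  · rw [hρ, hj]
  · have hsur : Function.Surjective (Matrix.of j).mulVec := fun u => by
      obtain ⟨Y, hY⟩ := hs.span (ι u)
      obtain ⟨X, hX⟩ := act_surj γ hγ.1 Y
      refine ⟨per (τ z) (vec v X), ?_⟩
      show app j _ = u
      rw [hj, hR, hX, ← hY]
      show app (τ z') 0 + u = u
      rw [app, mulVec_zero, zero_add]
    exact ((Matrix.isUnit_iff_isUnit_det _).1 (Matrix.mulVec_surjective_iff_isUnit.1 hsur)).ne_zero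
  · obtain ⟨a1, -, a3, -⟩ := su_emb hx hγ φ
    have k1 := (hf.ker z' hz' _).2 (inF_one z' φ)
    have k2 := (hf.ker z' hz' _).2 (inF_two z' φ)
    rw [vec_sgl] at k1 k2
    have hp : ∀ w, per (τ z') w = perL (τ z') w := fun _ => rfl
    simp only [hp, map_add, map_smul, cons_val_zero, cons_val_one, one_smul] at k1 k2
    have v1 : v φ.1 1 = vec v (Pi.single φ.1 ![0, 1]) := by simp [vec_sgl]
    have v2 : v (cj φ.1) 0 = vec v (Pi.single (cj φ.1) ![1, 0]) := by simp [vec_sgl]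
    refine ⟨φ.1 (γ 1 1) - z' φ * φ.1 (γ 0 1), ?_, ?_⟩
    · rw [hj]
      conv_lhs => rw [v1, hR, act_single, vec_sgl]
      simp only [hp, map_add, map_smul, mulVec, dotProduct, Fin.sum_univ_two, map_apply,
        cons_val_zero, cons_val_one, mul_zero, mul_one, zero_add]
      rw [eq_neg_of_add_eq_zero_left k1]
      module
    · rw [hj]
      conv_lhs => rw [v2, hR, act_single, vec_sgl]
      simp only [hp, map_add, map_smul, mulVec, dotProduct, Fin.sum_univ_two, map_apply,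
        cons_val_zero, cons_val_one, mul_zero, mul_one, add_zero]
      rw [eq_neg_of_add_eq_zero_right k2, a1, ← a3]
      module

end Pool.Agent.Lib.MP_caab05_ag.GB
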