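import Mathlib
import Pool.Agent.Lib.MP_caab05_ag.GB.Stmt

/-! Mumford's non-vanishing lemma. -/

namespace Pool.Agent.Lib.MP_caab05_ag.GB

open Complex

namespace MumAux

variable {g : ℕ}

theorem sg_quarter {τ : Mat g} (h : Sg τ) : Sg (fun i j => τ i j / 4 : Mat g) := by
  refine ⟨fun i j => by simp only [h.1 i j], fun x hx => ?_⟩
  have h1 := h.2 x hx
  have h2 : ∑ i, ∑ j, x i * (τ i j / 4).im * x j = (∑ i, ∑ j, x i * (τ i j).im * x j) / 4 := by
    rw [Finset.sum_div]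
    refine Finset.sum_congr rfl fun i _ => ?_
    rw [Finset.sum_div]
    refine Finset.sum_congr rfl fun j _ => ?_
    have : (τ i j / 4).im = (τ i j).im / 4 := by
      have h4 : (4 : ℂ) = ((4 : ℝ) : ℂ) := by norm_num
      rw [h4, Complex.div_ofReal_im]
    rw [this]; ring
  show 0 < ∑ i, ∑ j, x i * (τ i j / 4).im * x j
  rw [h2]; positivity

theorem diff_th (h2 : HolS) {τ : Mat g} (h : Pos τ) : Differentiable ℂ (th τ) := by
  intro u
  have ho : IsOpen {q : Mat g × V g | Pos q.1} := (h2 g).1.preimage continuous_fst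
  have h1 : DifferentiableAt ℂ (fun q : Mat g × V g => th q.1 q.2) (τ, u) :=
    (h2 g).2.differentiableAt (ho.mem_nhds h)
  have h3 : DifferentiableAt ℂ (fun v : V g => ((τ, v) : Mat g × V g)) u := by fun_prop
  exact h1.comp u h3

theorem mul_ne {f f' : V g → ℂ} (hf : Differentiable ℂ f) (hf' : Differentiable ℂ f')
    {p q : V g} (hp : f p ≠ 0) (hq : f' q ≠ 0) : ¬ ∀ x, f x * f' x = 0 := by
  intro h
  have hl : Differentiable ℂ fun t : ℂ => p + t • (q - p) := by fun_prop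
  have a1 : AnalyticOnNhd ℂ (fun t : ℂ => f (p + t • (q - p))) Set.univ :=
    (hf.comp hl).differentiableOn.analyticOnNhd isOpen_univ
  have a2 : AnalyticOnNhd ℂ (fun t : ℂ => f' (p + t • (q - p))) Set.univ :=
    (hf'.comp hl).differentiableOn.analyticOnNhd isOpen_univ
  rcases a1.eq_zero_or_eq_zero_of_mul_eq_zero a2 (fun z _ => h _) isPreconnected_univ with h0 | h0
  · have := h0 0 trivial
    simp at this
    exact hp this
  · have := h0 1 trivial
    simp at this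
    exact hq this

theorem sum_sign (η : Fin g → Fin 2) :
    ∑ s : Fin g → Fin 2, (-1 : ℂ) ^ (∑ j, (s j : ℕ) * (η j : ℕ)) =
      if η = 0 then 2 ^ g else 0 := by
  have h1 : ∑ s : Fin g → Fin 2, (-1 : ℂ) ^ (∑ j, (s j : ℕ) * (η j : ℕ)) =
      ∏ j, ∑ t : Fin 2, (-1 : ℂ) ^ ((t : ℕ) * (η j : ℕ)) := by
    rw [Finset.prod_univ_sum]
    simp only [Fintype.piFinset_univ, Finset.prod_pow_eq_pow_sum]
  rw [h1]
  split_ifs with h
  · subst h
    simp
  · obtain ⟨j, hj⟩ := Function.ne_iff.mp h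
    refine Finset.prod_eq_zero (Finset.mem_univ j) ?_
    have : η j = 1 := by
      have h2 := (η j).isLt
      have h3 : (η j : ℕ) ≠ 0 := fun h4 => hj (Fin.ext h4)
      exact Fin.ext (by simp; omega)
    simp [this]

theorem sum_UU (X Y : Ix g → ℂ) : ∑ s : Fin g → Fin 2, UU s X Y 0 0 = 2 ^ g * (X 0 * Y 0) := by
  unfold UU
  rw [Finset.sum_comm]
  simp only [mul_assoc, ← Finset.sum_mul, sum_sign]
  rw [Finset.sum_eq_single 0]
  · simp
    rfl
  · intro η _ h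
    simp [h]
  · simp

/-- parity and half -/
noncomputable def eqv (g : ℕ) : (Fin g → Fin 2) × (Fin g → ℤ) ≃ (Fin g → ℤ) :=
  Equiv.ofBijective (fun p j => ((p.1 j : ℕ) : ℤ) + 2 * p.2 j) (by
    constructor
    · rintro ⟨k, x⟩ ⟨k', x'⟩ h
      have h1 : ∀ j, ((k j : ℕ) : ℤ) + 2 * x j = ((k' j : ℕ) : ℤ) + 2 * x' j := fun j => congrFun h j
      refine Prod.ext (funext fun j => Fin.ext ?_) (funext fun j => ?_)
      · have := h1 j
        have := (k j).isLt
        have := (k' j).isLt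
        show (k j : ℕ) = k' j
        omega
      · have := h1 j
        have := (k j).isLt
        have := (k' j).isLt
        show x j = x' j
        omega
    · intro y
      refine ⟨(fun j => ⟨(y j % 2).toNat, by omega⟩, fun j => y j / 2), funext fun j => ?_⟩
      show (((y j % 2).toNat : ℕ) : ℤ) + 2 * (y j / 2) = y j
      omega)

theorem eqv_apply (k : Fin g → Fin 2) (x : Fin g → ℤ) (j : Fin g) :
    eqv g (k, x) j = ((k j : ℕ) : ℤ) + 2 * x j := rfl

theorem neg_one_zpow_eq (n : ℤ) : (-1 : ℂ) ^ n = cexp (Real.pi * I * n) := by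
  rw [mul_comm, Complex.exp_int_mul, Complex.exp_pi_mul_I]

theorem quad {τ : Mat g} (hs : ∀ i j, τ i j = τ j i) (p y : Fin g → ℂ) :
    ∑ i, ∑ j, (p i + 2 * y i) * τ i j * (p j + 2 * y j) =
      ∑ i, ∑ j, p i * τ i j * p j + 4 * ∑ i, y i * (∑ j, τ i j * p j) +
        4 * ∑ i, ∑ j, y i * τ i j * y j := by
  have h1 : ∑ i, ∑ j, p i * τ i j * y j = ∑ i, ∑ j, y i * τ i j * p j := by
    rw [Finset.sum_comm]
    refine Finset.sum_congr rfl fun i _ => Finset.sum_congr rfl fun j _ => ?_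
    rw [hs j i]; ring
  have h2 : ∑ i, y i * (∑ j, τ i j * p j) = ∑ i, ∑ j, y i * τ i j * p j := by
    refine Finset.sum_congr rfl fun i _ => ?_
    rw [Finset.mul_sum]
    exact Finset.sum_congr rfl fun j _ => by ring
  have h3 : ∑ i, ∑ j, (p i + 2 * y i) * τ i j * (p j + 2 * y j) =
      ∑ i, ∑ j, p i * τ i j * p j + 2 * ∑ i, ∑ j, p i * τ i j * y j +
        2 * ∑ i, ∑ j, y i * τ i j * p j + 4 * ∑ i, ∑ j, y i * τ i j * y j := by
    simp only [Finset.mul_sum, ← Finset.sum_add_distrib]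
    exact Finset.sum_congr rfl fun i _ => Finset.sum_congr rfl fun j _ => by ring
  rw [h3, h1, h2]; ring

theorem AA_zero (h1 : SumS) {τ : Mat g} (hτ : Sg τ) (s : Fin g → Fin 2) (π : Fin g → ℤ)
    (h : ∀ κ : Fin g → ℤ, AA τ s (π + (2 : ℤ) • κ) 0 = 0) (s' : Fin g → Fin 2) :
    AA (fun i j => τ i j / 4) s' 0
      (fun i => ((∑ j, τ i j * (π j : ℂ)) + ((s i : ℕ) : ℂ)) / 8) = 0 := by
  set u : V g := fun i => ((∑ j, τ i j * (π j : ℂ)) + ((s i : ℕ) : ℂ)) / 4 with hu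
  set T : (Fin g → ℤ) → ℂ := fun y => (-1) ^ (∑ j, ((s' j : ℕ) : ℤ) * y j) *
    cexp (Real.pi * I * (∑ i, ∑ j, (y i : ℂ) * τ i j * (y j : ℂ)) * ((1 / 2 : ℝ) : ℂ) +
      2 * Real.pi * I * ∑ i, (y i : ℂ) * u i) with hT
  have e1 : AA (fun i j => τ i j / 4) s' 0
      (fun i => ((∑ j, τ i j * (π j : ℂ)) + ((s i : ℕ) : ℂ)) / 8) = ∑' y, T y := by
    unfold AA
    refine tsum_congr fun y => ?_
    rw [hT]
    dsimp only
    congr 2
    have a1 : ∑ i, ∑ j, (((0 : Fin g → ℤ) i + 4 * y i : ℤ) : ℂ) * (τ i j / 4) *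
        (((0 : Fin g → ℤ) j + 4 * y j : ℤ) : ℂ) = 4 * ∑ i, ∑ j, (y i : ℂ) * τ i j * (y j : ℂ) := by
      simp only [Finset.mul_sum]
      refine Finset.sum_congr rfl fun i _ => Finset.sum_congr rfl fun j _ => ?_
      push_cast; simp; ring
    have a2 : ∑ i, (((0 : Fin g → ℤ) i + 4 * y i : ℤ) : ℂ) *
        (((∑ j, τ i j * (π j : ℂ)) + ((s i : ℕ) : ℂ)) / 8) = 2 * ∑ i, (y i : ℂ) * u i := by
      rw [Finset.mul_sum]
      refine Finset.sum_congr rfl fun i _ => ?_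
      rw [hu]; push_cast; simp; ring
    rw [a1, a2]; push_cast; ring
  have hsum : Summable T := by
    refine Summable.of_norm ((h1 g τ hτ.2 (1 / 2) (by norm_num) u).congr fun y => ?_)
    rw [hT]
    simp only [norm_mul, norm_zpow, norm_neg, norm_one, one_zpow, one_mul]
  have hsum' : Summable fun c => T (eqv g c) := (eqv g).summable_iff.mpr hsum
  rw [e1, ← (eqv g).tsum_eq, hsum'.tsum_prod]
  have key : ∀ k : Fin g → Fin 2, ∑' x, T (eqv g (k, x)) = 0 := by
    intro k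
    have h0 := h fun j => ((k j : ℕ) : ℤ)
    unfold AA at h0
    set c : ℂ := cexp (Real.pi * I * (∑ j, ((s' j : ℕ) : ℂ) * ((k j : ℕ) : ℂ)) +
      Real.pi * I / 2 * (∑ j, ((s j : ℕ) : ℂ) * ((k j : ℕ) : ℂ)) -
      Real.pi * I * (∑ i, ∑ j, (π i : ℂ) * τ i j * (π j : ℂ)) / 8) with hc
    rw [← mul_zero c, ← h0, ← tsum_mul_left]
    refine tsum_congr fun x => ?_
    rw [hT, hc]
    dsimp only
    simp only [eqv_apply, neg_one_zpow_eq, ← Complex.exp_add]
    rw [Complex.exp_eq_exp_iff_exists_int]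
    refine ⟨∑ j, ((s' j : ℕ) : ℤ) * x j, ?_⟩
    set y : Fin g → ℂ := fun j => ((k j : ℕ) : ℂ) + 2 * (x j : ℂ) with hy
    have b1 : ∀ j, ((((k j : ℕ) : ℤ) + 2 * x j : ℤ) : ℂ) = y j := fun j => by
      rw [hy]; push_cast; ring
    have b2 : ∀ j, (((π + (2 : ℤ) • fun j => ((k j : ℕ) : ℤ)) j + 4 * x j : ℤ) : ℂ) =
        (π j : ℂ) + 2 * y j := fun j => by
      rw [hy]; simp; ring
    simp only [b1, b2]
    rw [quad hτ.1 (fun j => (π j : ℂ)) y]
    have b3 : ∑ i, y i * u i = (∑ i, y i * (∑ j, τ i j * (π j : ℂ))) / 4 +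
        (∑ j, ((s j : ℕ) : ℂ) * ((k j : ℕ) : ℂ)) / 4 + (∑ j, ((s j : ℕ) : ℂ) * (x j : ℂ)) / 2 := by
      simp only [Finset.sum_div, ← Finset.sum_add_distrib]
      refine Finset.sum_congr rfl fun i _ => ?_
      rw [hu, hy]; dsimp only; ring
    have b4 : ((∑ j, ((s' j : ℕ) : ℤ) * (((k j : ℕ) : ℤ) + 2 * x j) : ℤ) : ℂ) =
        ∑ j, ((s' j : ℕ) : ℂ) * ((k j : ℕ) : ℂ) + 2 * ∑ j, ((s' j : ℕ) : ℂ) * (x j : ℂ) := by
      rw [Finset.mul_sum, ← Finset.sum_add_distrib]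
      push_cast
      exact Finset.sum_congr rfl fun i _ => by ring
    rw [b3, b4]
    push_cast
    simp only [Pi.zero_apply, mul_zero, Finset.sum_const_zero]
    ring
  simp [key]

end MumAux

open MumAux in
theorem mum (h0 : OsgS) (h1 : SumS) (h2 : HolS) (h3 : UniqS) (h4 : FacS) : MumS := by
  intro g τ hτ s π
  by_contra hcon
  push Not at hcon
  have hA : ∀ κ : Fin g → ℤ, AA τ s (π + (2 : ℤ) • κ) 0 = 0 := by
    intro κ
    have := hcon κ
    rw [h4 g τ hτ] at this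
    simpa using this
  have hq := sg_quarter hτ
  set τ' : Mat g := fun i j => τ i j / 4 with hτ'
  set w : V g := fun i => ((∑ j, τ i j * (π j : ℂ)) + ((s i : ℕ) : ℂ)) / 8 with hw
  obtain ⟨p, hp⟩ := h3.ne g τ' hq 0
  have hd : Differentiable ℂ fun x => th τ' x 0 :=
    differentiable_pi.mp (diff_th h2 hq.2) 0
  have hd' : Differentiable ℂ fun x => th τ' (x - w) 0 := hd.comp (by fun_prop)
  refine mul_ne hd hd' hp (q := p + w) (by simpa using hp) fun x => ?_
  have e := sum_UU (th τ' x) (th τ' (x - w))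
  have z : ∀ s' : Fin g → Fin 2, UU s' (th τ' x) (th τ' (x - w)) 0 0 = 0 := by
    intro s'
    rw [h4 g τ' hq, sub_sub_cancel, sub_zero, AA_zero h1 hτ s π hA s', mul_zero]
  simp only [z, Finset.sum_const_zero] at e
  exact (mul_eq_zero.mp e.symm).resolve_left (pow_ne_zero _ two_ne_zero)

end Pool.Agent.Lib.MP_caab05_ag.GB
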