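import Mathlib
import Pool.Agent.Lib.MP_caab05_ag.GB.Stmt

/-! Elementary facts on `cD`, `dP` and `BiH`. -/

namespace Pool.Agent.Lib.MP_caab05_ag.GB

open MvPolynomial Filter Topology Asymptotics Complex Matrix

namespace PolAux

lemma coeff_cD {σ : Type} (D : Der) (P : MvPolynomial σ ℂ) (m : σ →₀ ℕ) :
    coeff m (cD D P) = D (coeff m P) := by
  classical
  unfold cD
  rw [coeff_sum]
  simp only [coeff_monomial]
  rw [Finset.sum_ite_eq' P.support m]
  split_ifs with h
  · rfl
  · rw [notMem_support_iff.1 h, map_zero]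

lemma cD_add {σ : Type} (D : Der) (P Q : MvPolynomial σ ℂ) :
    cD D (P + Q) = cD D P + cD D Q := by
  ext m
  simp [coeff_cD]

lemma cD_C {σ : Type} (D : Der) (a : ℂ) : cD D (C a : MvPolynomial σ ℂ) = C (D a) := by
  classical
  ext m
  simp only [coeff_cD, coeff_C]
  split_ifs <;> simp

lemma cD_mul_X {σ : Type} (D : Der) (P : MvPolynomial σ ℂ) (i : σ) :
    cD D (P * X i) = cD D P * X i := by
  classical
  ext m
  simp only [coeff_cD, coeff_mul_X']
  split_ifs <;> simp

lemma dP_C {σ : Type} [Fintype σ] (a : ℂ) (x y : σ → ℂ) : dP (C a) x y = 0 := by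
  simp [dP]

lemma dP_add_left {σ : Type} [Fintype σ] (P Q : MvPolynomial σ ℂ) (x y : σ → ℂ) :
    dP (P + Q) x y = dP P x y + dP Q x y := by
  simp [dP, add_mul, Finset.sum_add_distrib]

lemma dP_mul_X {σ : Type} [Fintype σ] (P : MvPolynomial σ ℂ) (i : σ) (x y : σ → ℂ) :
    dP (P * X i) x y = dP P x y * x i + eval x P * y i := by
  classical
  have h : ∀ j, eval x (pderiv j (P * X i)) * y j =
      eval x (pderiv j P) * y j * x i + if i = j then eval x P * y j else 0 := by
    intro j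
    rw [pderiv_mul, pderiv_X]
    by_cases hij : i = j
    · subst hij
      simp
      ring
    · simp [hij]
      ring
  simp only [dP, h, Finset.sum_add_distrib, Finset.sum_ite_eq, Finset.mem_univ, if_true,
    Finset.sum_mul]

lemma D_eval {σ : Type} [Fintype σ] (D : Der) (P : MvPolynomial σ ℂ) (x : σ → ℂ) :
    D (eval x P) = eval x (cD D P) + dP P x fun i => D (x i) := by
  induction P using MvPolynomial.induction_on with
  | C a => simp [cD_C, dP_C]
  | add p q hp hq =>
    rw [cD_add, dP_add_left, map_add, map_add, map_add, hp, hq]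
    ring
  | mul_X p i hp =>
    rw [cD_mul_X, dP_mul_X, eval_mul, eval_mul, eval_X, Derivation.leibniz, hp]
    simp only [smul_eq_mul]
    ring

lemma D_alg (D : Der) (x : ℂ) (hx : IsAlgebraic ℚ x) : D x = 0 := by
  have hi : IsIntegral ℚ x := hx.isIntegral
  have hs : (minpoly ℚ x).Separable := (minpoly.irreducible hi).separable
  have h1 := hs.aeval_derivative_ne_zero (minpoly.aeval ℚ x)
  have h2 := D.map_aeval (minpoly ℚ x) x
  rw [minpoly.aeval, map_zero, smul_eq_mul] at h2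
  exact (mul_eq_zero.1 h2.symm).resolve_left h1

lemma hh_pow {g : ℕ} (p : Zg g) (a : Ix g) : hh p a ^ 8 = 1 := by
  unfold hh
  rw [← Complex.exp_nat_mul]
  have h : (∑ j, ((p (.inl j) : ℂ) + 2 * ((a j).val : ℂ)) * (p (.inr j) : ℂ)) =
      ((∑ j, (p (.inl j) + 2 * ((a j).val : ℤ)) * p (.inr j) : ℤ) : ℂ) := by
    push_cast
    rfl
  rw [h, ← Complex.exp_int_mul_two_pi_mul_I
    (∑ j, (p (.inl j) + 2 * ((a j).val : ℤ)) * p (.inr j))]
  congr 1
  push_cast
  ring

lemma D_hh (D : Der) {g : ℕ} (p : Zg g) (a : Ix g) : D (hh p a) = 0 := by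
  apply D_alg
  refine IsAlgebraic.of_pow (n := 8) (by norm_num) ?_
  rw [hh_pow]
  exact isAlgebraic_one

lemma diff_eval {σ : Type} [Fintype σ] (P : MvPolynomial σ ℂ) :
    Differentiable ℂ fun x : σ → ℂ => eval x P := by
  induction P using MvPolynomial.induction_on with
  | C a => simp
  | add p q hp hq => simp only [map_add]; exact hp.add hq
  | mul_X p i hp => simp only [map_mul, eval_X]; exact hp.mul (differentiable_apply i)

lemma fderiv_eval {σ : Type} [Fintype σ] (P : MvPolynomial σ ℂ) (x x' : σ → ℂ) :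
    fderiv ℂ (fun y : σ → ℂ => eval y P) x x' = dP P x x' := by
  induction P using MvPolynomial.induction_on with
  | C a => simp [dP_C]
  | add p q hp hq =>
    simp only [map_add]
    rw [fderiv_fun_add (diff_eval p x) (diff_eval q x), _root_.add_apply, hp, hq,
      dP_add_left]
  | mul_X p i hp =>
    simp only [map_mul, eval_X]
    rw [fderiv_fun_mul (diff_eval p x) (differentiable_apply i x), dP_mul_X, ← hp]
    have h : fderiv ℂ (fun y : σ → ℂ => y i) x x' = x' i := by
      rw [(hasFDerivAt_apply i x).fderiv]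
      rfl
    simp only [_root_.add_apply, _root_.smul_apply, smul_eq_mul, h]
    ring

lemma dP_add {σ : Type} [Fintype σ] (P : MvPolynomial σ ℂ) (x y z : σ → ℂ) :
    dP P x (y + z) = dP P x y + dP P x z := by
  simp [dP, mul_add, Finset.sum_add_distrib]

lemma dP_smul {σ : Type} [Fintype σ] (P : MvPolynomial σ ℂ) (x y : σ → ℂ) (c : ℂ) :
    dP P x (c • y) = c * dP P x y := by
  simp only [dP, Finset.mul_sum, Pi.smul_apply, smul_eq_mul]
  exact Finset.sum_congr rfl fun i _ => by ring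

lemma hom_cD {σ : Type} (D : Der) {w : σ → ℕ} {P : MvPolynomial σ ℂ} {k : ℕ}
    (h : P.IsWeightedHomogeneous w k) : (cD D P).IsWeightedHomogeneous w k := by
  intro m hm
  apply h
  intro h0
  rw [coeff_cD, h0, map_zero] at hm
  exact hm rfl

lemma eval_scale {σ : Type} (w : σ → ℕ) {P : MvPolynomial σ ℂ} {k : ℕ}
    (hP : P.IsWeightedHomogeneous w k) (c : ℂ) (x : σ → ℂ) :
    eval (fun i => c ^ w i * x i) P = c ^ k * eval x P := by
  rw [eval_eq, eval_eq, Finset.mul_sum]
  refine Finset.sum_congr rfl fun m hm => ?_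
  have h := hP (mem_support_iff.1 hm)
  rw [Finsupp.weight_apply, Finsupp.sum] at h
  simp only [mul_pow, Finset.prod_mul_distrib, ← pow_mul, Finset.prod_pow_eq_pow_sum, ← h,
    smul_eq_mul, mul_comm (w _)]
  ring

lemma bih_eval {α β : Type} {Q : MvPolynomial (α ⊕ β) ℂ} {k l : ℕ} (h : BiH Q k l)
    (a b : ℂ) (x : α → ℂ) (y : β → ℂ) :
    eval (Sum.elim (a • x) (b • y)) Q = a ^ k * b ^ l * eval (Sum.elim x y) Q := by
  have h1 := eval_scale _ h.1 a (Sum.elim x (b • y))
  have h2 := eval_scale _ h.2 b (Sum.elim x y)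
  have e1 : (fun i => a ^ (Sum.elim (fun _ => 1) (fun _ => 0) : α ⊕ β → ℕ) i *
      Sum.elim x (b • y) i) = Sum.elim (a • x) (b • y) := by
    funext i
    cases i <;> simp
  have e2 : (fun i => b ^ (Sum.elim (fun _ => 0) (fun _ => 1) : α ⊕ β → ℕ) i *
      Sum.elim x y i) = Sum.elim x (b • y) := by
    funext i
    cases i <;> simp
  rw [e1] at h1
  rw [e2] at h2
  rw [h1, h2, mul_assoc]

lemma hasDerivAt_line {σ : Type} [Fintype σ] (P : MvPolynomial σ ℂ) (x x' : σ → ℂ) :
    HasDerivAt (fun t : ℂ => eval (x + t • x') P) (dP P x x') 0 := by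
  have h1 : HasDerivAt (fun t : ℂ => x + t • x') x' 0 := by
    simpa using ((hasDerivAt_id (0 : ℂ)).smul_const x').const_add x
  have h2 := (diff_eval P (x + (0 : ℂ) • x')).hasFDerivAt.comp_hasDerivAt (0 : ℂ) h1
  rw [fderiv_eval, zero_smul, add_zero] at h2
  exact h2

lemma bih_dP {α β : Type} [Fintype α] [Fintype β] {Q : MvPolynomial (α ⊕ β) ℂ} {k l : ℕ}
    (h : BiH Q k l) (a b : ℂ) (x x' : α → ℂ) (y y' : β → ℂ) :
    dP Q (Sum.elim (a • x) (b • y)) (Sum.elim (a • x') (b • y')) =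
      a ^ k * b ^ l * dP Q (Sum.elim x y) (Sum.elim x' y') := by
  have h1 := hasDerivAt_line Q (Sum.elim (a • x) (b • y)) (Sum.elim (a • x') (b • y'))
  have h2 := (hasDerivAt_line Q (Sum.elim x y) (Sum.elim x' y')).const_mul (a ^ k * b ^ l)
  refine h1.unique (h2.congr_of_eventuallyEq (Filter.Eventually.of_forall fun t => ?_))
  have e1 : Sum.elim (a • x) (b • y) + t • Sum.elim (a • x') (b • y') =
      Sum.elim (a • (x + t • x')) (b • (y + t • y')) := by
    funext i
    cases i <;> simp <;> ring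
  have e2 : Sum.elim x y + t • Sum.elim x' y' = Sum.elim (x + t • x') (y + t • y') := by
    funext i
    cases i <;> simp
  simp only [e1, e2, bih_eval h]

lemma euler_w {σ : Type} [Fintype σ] (w : σ → ℕ) {P : MvPolynomial σ ℂ} {k : ℕ}
    (hP : P.IsWeightedHomogeneous w k) (x : σ → ℂ) :
    dP P x (fun i => (w i : ℂ) * x i) = k * eval x P := by
  have h := congrArg (eval x) hP.sum_weight_X_mul_pderiv
  simp only [map_sum, nsmul_eq_mul, map_mul, eval_X, map_natCast] at h
  rw [← h]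
  exact Finset.sum_congr rfl fun i _ => by ring

lemma euler {α β : Type} [Fintype α] [Fintype β] {Q : MvPolynomial (α ⊕ β) ℂ} {k l : ℕ}
    (h : BiH Q k l) (a b : ℂ) (x : α → ℂ) (y : β → ℂ) :
    dP Q (Sum.elim x y) (Sum.elim (a • x) (b • y)) =
      (a * k + b * l) * eval (Sum.elim x y) Q := by
  have h1 := euler_w _ h.1 (Sum.elim x y)
  have h2 := euler_w _ h.2 (Sum.elim x y)
  have e : Sum.elim (a • x) (b • y) =
      a • (fun i => (((Sum.elim (fun _ => 1) (fun _ => 0) : α ⊕ β → ℕ) i : ℕ) : ℂ) *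
        Sum.elim x y i) +
      b • (fun i => (((Sum.elim (fun _ => 0) (fun _ => 1) : α ⊕ β → ℕ) i : ℕ) : ℂ) *
        Sum.elim x y i) := by
    funext i
    cases i <;> simp
  rw [e, dP_add, dP_smul, dP_smul, h1, h2]
  ring

lemma wronski {α : Type} [Fintype α] {Q : MvPolynomial (α ⊕ Fin 2) ℂ} {k l : ℕ}
    (h : BiH Q k l) (x : α → ℂ) (y y' : Fin 2 → ℂ) (h0 : eval (Sum.elim x y) Q = 0)
    (h1 : dP Q (Sum.elim x y) (Sum.elim 0 y') = 0) :
    eval (Sum.elim x y) (pderiv (Sum.inr 1) Q) * (y 0 * y' 1 - y 1 * y' 0) = 0 := by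
  have h2 := euler h 0 1 x y
  rw [h0, mul_zero] at h2
  simp only [dP, Fintype.sum_sum_type, Sum.elim_inl, Sum.elim_inr, Fin.sum_univ_two,
    zero_smul, one_smul, Pi.zero_apply, mul_zero, Finset.sum_const_zero, zero_add] at h1 h2
  linear_combination y 0 * h1 - y' 0 * h2

end PolAux

theorem pol : PolS where
  coeff_cD _ D P m := PolAux.coeff_cD D P m
  D_eval _ _ D P x := PolAux.D_eval D P x
  D_alg := PolAux.D_alg
  D_hh D _ p a := PolAux.D_hh D p a
  fderiv_eval _ _ P x x' := PolAux.fderiv_eval P x x'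
  diff_eval _ _ P := PolAux.diff_eval P
  dP_add _ _ P x y z := PolAux.dP_add P x y z
  dP_smul _ _ P x y c := PolAux.dP_smul P x y c
  bih_cD _ _ D _ _ _ h := ⟨PolAux.hom_cD D h.1, PolAux.hom_cD D h.2⟩
  bih_eval _ _ _ _ _ h a b x y := PolAux.bih_eval h a b x y
  bih_dP _ _ _ _ _ _ _ h a b x x' y y' := PolAux.bih_dP h a b x x' y y'
  euler _ _ _ _ _ _ _ h a b x y := PolAux.euler h a b x y
  wronski _ _ _ _ _ h x y y' h0 h1 := PolAux.wronski h x y y' h0 h1

end Pool.Agent.Lib.MP_caab05_ag.GB
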