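import Mathlib
import Pool.Agent.Lib.MP_caab05_ag.GB.Stmt
import Pool.Agent.Lib.MP_caab05_ag.LT.Base

/-! A relation of minimal degree really involves the last variable. -/

namespace Pool.Agent.Lib.MP_caab05_ag.GB

open MvPolynomial Filter Topology

namespace RelAux

lemma wh_rename {σ τ : Type} (f : σ → τ) (w : τ → ℕ) {w' : σ → ℕ} (hw : ∀ i, w (f i) = w' i)
    {Q : MvPolynomial σ ℂ} {k : ℕ} (h : Q.IsWeightedHomogeneous w' k) :
    (rename f Q).IsWeightedHomogeneous w k := by
  intro d hd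
  obtain ⟨u, rfl, hu⟩ := coeff_rename_ne_zero f Q d hd
  rw [← h hu, Finsupp.weight_apply, Finsupp.weight_apply,
    Finsupp.sum_mapDomain_index (by simp) (fun _ _ _ => add_smul _ _ _)]
  simp only [hw]

lemma bih_rename {α α' β : Type} (s : α' → α) {Q : MvPolynomial (α' ⊕ β) ℂ} {k l : ℕ}
    (h : BiH Q k l) : BiH (rename (Sum.map s id) Q) k l :=
  ⟨wh_rename _ _ (fun i => by cases i <;> rfl) h.1, wh_rename _ _ (fun i => by cases i <;> rfl) h.2⟩

lemma exp_zero {σ : Type} {Q : MvPolynomial σ ℂ} {i : σ} (h : pderiv i Q = 0) {c : σ →₀ ℕ}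
    (hc : coeff c Q ≠ 0) : c i = 0 := by
  by_contra hi
  have h1 := coeff_pderiv (i := i) Q (c - Finsupp.single i 1)
  rw [h, coeff_zero, tsub_add_cancel_of_le (Finsupp.single_le_iff.2 (by omega))] at h1
  exact mul_ne_zero hc (Nat.cast_add_one_ne_zero _) h1.symm

lemma eval_indep {σ : Type} {Q : MvPolynomial σ ℂ} {i : σ} (h : pderiv i Q = 0) {x y : σ → ℂ}
    (hxy : ∀ j, j ≠ i → x j = y j) : eval x Q = eval y Q := by
  refine eval₂_congr (RingHom.id ℂ) x y fun {j c} hj hc => hxy j ?_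
  rintro rfl
  exact Finsupp.mem_support_iff.1 hj (exp_zero h hc)

lemma pderiv_zero {α β : Type} {Q : MvPolynomial (α ⊕ β) ℂ} {k : ℕ} (h : BiH Q k 0) (b : β) :
    pderiv (Sum.inr b) Q = 0 := by
  ext m
  rw [coeff_pderiv, coeff_zero]
  by_contra hm
  have h1 := h.2 (left_ne_zero_of_mul hm)
  rw [map_add, Finsupp.weight_single] at h1
  simp at h1

lemma bih_pderiv {α β : Type} {Q : MvPolynomial (α ⊕ β) ℂ} {k l : ℕ} (h : BiH Q k (l + 1))
    (b : β) : BiH (pderiv (Sum.inr b) Q) k l :=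
  ⟨h.1.pderiv rfl, h.2.pderiv rfl⟩

/-- an immersion into projective space has independent coordinates -/
lemma indep {κ α : Type} [Fintype κ] [Fintype α] {X : (κ → ℂ) → α → ℂ} {p : κ → ℂ}
    (hX : AnalyticAt ℂ X p) (h0 : X p ≠ 0)
    (him : ∀ (w : κ → ℂ) (c : ℂ), fderiv ℂ X p w = c • X p → w = 0) :
    ∃ s : Option κ → α, Function.Injective s ∧ ∀ (G : (Option κ → ℂ) → ℂ) (k : ℕ),
      (∀ (c : ℂ) x, G (c • x) = c ^ k * G x) → (∀ᶠ z in 𝓝 p, G (fun a => X z (s a)) = 0) →
      ∀ᶠ x in 𝓝 fun a => X p (s a), G x = 0 := by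
  classical
  set L := fderiv ℂ X p with hL
  let u : Option κ → α → ℂ := fun o => o.elim (X p) fun k => L (Pi.single k 1)
  have hsum : ∀ z : Option κ → ℂ,
      ∑ o, z o • u o = z none • X p + L fun k => z (some k) := by
    intro z
    have h1 : (fun k => z (some k)) = ∑ k, z (some k) • Pi.single k (1 : ℂ) := by
      ext k
      simp [Pi.single_apply]
    rw [Fintype.sum_option, h1, map_sum]
    simp only [u, Option.elim, map_smul]
  have hli : LinearIndependent ℂ u := by
    rw [Fintype.linearIndependent_iff]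
    intro z hz
    rw [hsum] at hz
    have h1 := him (fun k => z (some k)) (-z none) (by
      rw [neg_smul]
      exact eq_neg_of_add_eq_zero_right hz)
    rw [h1, map_zero, add_zero] at hz
    rintro (_ | k)
    · exact (smul_eq_zero.1 hz).resolve_right h0
    · exact congrFun h1 k
  obtain ⟨s, hs, hdet⟩ := LT.exists_minor hli
  refine ⟨s, hs, fun G k hG hz => ?_⟩
  let T : (α → ℂ) →L[ℂ] (Option κ → ℂ) :=
    ContinuousLinearMap.pi fun o => ContinuousLinearMap.proj (s o)
  have h1 : HasStrictFDerivAt (fun q : ℂ × (κ → ℂ) => X q.2)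
      (L.comp (ContinuousLinearMap.snd ℂ ℂ (κ → ℂ))) ((1 : ℂ), p) :=
    HasStrictFDerivAt.comp (g := X) (f := Prod.snd) ((1 : ℂ), p) hX.hasStrictFDerivAt
      hasStrictFDerivAt_snd
  have h2 := (hasStrictFDerivAt_fst (𝕜 := ℂ) (p := ((1 : ℂ), p))).smul h1
  have h3 := T.hasStrictFDerivAt.comp ((1 : ℂ), p) h2
  have h4 := h3.map_nhds_eq_of_surj (by
    rw [LinearMap.range_eq_top]
    intro x
    obtain ⟨z, rfl⟩ := Matrix.vecMul_surjective_iff_isUnit.2
      ((Matrix.isUnit_iff_isUnit_det _).2 (Ne.isUnit hdet)) x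
    refine ⟨(z none, fun k => z (some k)), funext fun o => ?_⟩
    have h5 := congrFun (hsum z) (s o)
    simp only [Finset.sum_apply, Pi.smul_apply, smul_eq_mul, Pi.add_apply] at h5
    change _ = ∑ i, z i * u i (s o)
    rw [h5]
    simp [T, add_comm])
  have h5 : (fun a => X p (s a)) = T (((1 : ℂ), p).1 • X ((1 : ℂ), p).2) := by
    ext a
    simp [T]
  rw [h5]
  erw [← h4]
  rw [eventually_map]
  filter_upwards [(continuous_snd.tendsto ((1 : ℂ), p)).eventually hz] with q hq
  have h6 : G (q.1 • fun a => X q.2 (s a)) = 0 := by rw [hG, hq, mul_zero]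
  exact h6

end RelAux

open RelAux

theorem rel (h0 : OsgS) (h1 : PolS) (h2 : DepS) : RelS := by
  intro κ ι α β _ _ _ _ Ω K X Y hc i t hpre ⟨p, hp, hX0, him⟩ ⟨p', hp', hY0⟩
  classical
  have aX := h0 _ _ (X i) (Ω i) (hc.op i) (hc.holX i)
  obtain ⟨s, hs, hind⟩ := indep (aX p hp) hX0 him
  obtain ⟨Q₀, k₀, l₀, hQ₀, hb₀, hv₀⟩ := h2 κ ι α β Ω K X Y hc s t
  have key : ∀ (l : ℕ) (Q : MvPolynomial (Option κ ⊕ Fin 2) ℂ) (k : ℕ), Q ≠ 0 → BiH Q k l →
      (∀ z ∈ Ω i, eval (Sum.elim (fun a => X i z (s a)) fun b => Y i z (t b)) Q = 0) →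
      ∃ (Q : MvPolynomial (Option κ ⊕ Fin 2) ℂ) (k l : ℕ), BiH Q k l ∧
        (∀ z ∈ Ω i, eval (Sum.elim (fun a => X i z (s a)) fun b => Y i z (t b)) Q = 0) ∧
        ∃ z ∈ Ω i, eval (Sum.elim (fun a => X i z (s a)) fun b => Y i z (t b))
          (pderiv (Sum.inr 1) Q) ≠ 0 := by
    have main : ∀ (l : ℕ) (Q : MvPolynomial (Option κ ⊕ Fin 2) ℂ) (k : ℕ), Q ≠ 0 → BiH Q k l →
        (∀ z ∈ Ω i, eval (Sum.elim (fun a => X i z (s a)) fun b => Y i z (t b)) Q = 0) →
        pderiv (Sum.inr 1) Q ≠ 0 := by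
      intro l Q k hQ hb hv hd
      let e : Fin 2 → ℂ := ![1, 0]
      let G : (Option κ → ℂ) → ℂ := fun x => eval (Sum.elim x e) Q
      have hG : ∀ (x : Option κ → ℂ) (y : Fin 2 → ℂ), eval (Sum.elim x y) Q = y 0 ^ l * G x := by
        intro x y
        have e1 := h1.bih_eval _ _ Q k l hb 1 (y 0) x e
        rw [one_smul, one_pow, one_mul] at e1
        rw [← e1]
        refine eval_indep hd fun j hj => ?_
        rcases j with j | j
        · rfl
        · fin_cases j
          · simp [e]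
          · exact absurd rfl hj
      have hom : ∀ (c : ℂ) x, G (c • x) = c ^ k * G x := by
        intro c x
        have e1 := h1.bih_eval _ _ Q k l hb c 1 x e
        rwa [one_smul, one_pow, mul_one] at e1
      have dG : Differentiable ℂ G := by
        refine (h1.diff_eval _ Q).comp (differentiable_pi.2 fun j => ?_)
        rcases j with j | j
        · exact differentiable_apply j
        · exact differentiable_const _
      have df : DifferentiableOn ℂ (fun z => G fun a => X i z (s a)) (Ω i) :=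
        dG.comp_differentiableOn
          (differentiableOn_pi.2 fun a => differentiableOn_pi.1 (hc.holX i) (s a))
      have af := h0 _ _ _ (Ω i) (hc.op i) df
      have cY : ContinuousAt (fun z => Y i z (t 0)) p' :=
        ((differentiableOn_pi.1 (hc.holY i) (t 0)).differentiableAt
          ((hc.op i).mem_nhds hp')).continuousAt
      have z1 : (fun z => G fun a => X i z (s a)) =ᶠ[𝓝 p'] 0 := by
        filter_upwards [cY.eventually_ne hY0, (hc.op i).mem_nhds hp'] with z hz hzΩ
        have e1 := hv z hzΩ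
        rw [hG] at e1
        exact (mul_eq_zero.1 e1).resolve_left (pow_ne_zero _ hz)
      have z2 := af.eqOn_zero_of_preconnected_of_eventuallyEq_zero hpre hp' z1
      have z3 := hind G k hom (by
        filter_upwards [(hc.op i).mem_nhds hp] with z hz
        exact z2 hz)
      have aG := h0 _ _ G Set.univ isOpen_univ dG.differentiableOn
      have z4 := aG.eqOn_zero_of_preconnected_of_eventuallyEq_zero isPreconnected_univ
        (Set.mem_univ _) z3
      refine hQ (MvPolynomial.funext fun v => ?_)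
      have e2 : v = Sum.elim (fun a => v (Sum.inl a)) fun b => v (Sum.inr b) := by
        ext j
        cases j <;> rfl
      rw [map_zero, e2, hG, z4 (Set.mem_univ _), Pi.zero_apply, mul_zero]
    intro l
    induction l with
    | zero => exact fun Q k hQ hb hv => absurd (pderiv_zero hb 1) (main 0 Q k hQ hb hv)
    | succ l ih =>
      intro Q k hQ hb hv
      by_cases hz : ∃ z ∈ Ω i, eval (Sum.elim (fun a => X i z (s a)) fun b => Y i z (t b))
          (pderiv (Sum.inr 1) Q) ≠ 0
      · exact ⟨Q, k, l + 1, hb, hv, hz⟩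
      · push Not at hz
        exact ih _ k (main _ Q k hQ hb hv) (bih_pderiv hb 1) hz
  obtain ⟨Q, k, l, hb, hv, z, hz, hne⟩ := key l₀ Q₀ k₀ hQ₀ hb₀ (hv₀ i)
  have ev : ∀ (z : κ → ℂ) (P : MvPolynomial (Option κ ⊕ Fin 2) ℂ),
      eval (Sum.elim (X i z) fun b => Y i z (t b)) (rename (Sum.map s id) P) =
        eval (Sum.elim (fun a => X i z (s a)) fun b => Y i z (t b)) P := by
    intro z P
    rw [eval_rename]
    congr 2
    ext j
    cases j <;> rfl
  refine ⟨rename (Sum.map s id) Q, k, l, bih_rename s hb, fun z hz => ?_, z, hz, ?_⟩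
  · rw [ev]
    exact hv z hz
  · have e1 := pderiv_rename (hs.sumMap Function.injective_id) (Sum.inr (1 : Fin 2)) Q
    change pderiv (Sum.inr 1) _ = _ at e1
    rw [e1, ev]
    exact hne

end Pool.Agent.Lib.MP_caab05_ag.GB
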