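import Mathlib
import Pool.Agent.Lib.MP_caab05_ag.GB.Stmt2

/-! Positive Lagrangian subspaces, models of complex multiplication and families. -/

namespace Pool.Agent.Lib.MP_caab05_ag.GB

open MvPolynomial Filter Topology Asymptotics Complex Matrix NumberField

namespace RiemAux

variable {g : ℕ}

lemma JJ_sum {α β : Type} [Fintype α] [Fintype β] (s : α → ℂ) (t : β → ℂ) (x : α → W g)
    (y : β → W g) : JJ (∑ a, s a • x a) (∑ b, t b • y b) = ∑ a, ∑ b, s a * t b * JJ (x a) (y b) := by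
  have h1 : ∀ {γ : Type} [Fintype γ] (s : γ → ℂ) (x : γ → W g),
      lft (∑ a, s a • x a) = ∑ a, s a • lft (x a) := fun s x => by ext i; simp [lft]
  have h2 : ∀ {γ : Type} [Fintype γ] (s : γ → ℂ) (x : γ → W g),
      rgt (∑ a, s a • x a) = ∑ a, s a • rgt (x a) := fun s x => by ext i; simp [rgt]
  simp only [JJ, h1, h2, sum_dotProduct, dotProduct_sum, smul_dotProduct, dotProduct_smul,
    smul_eq_mul, Finset.mul_sum, ← Finset.sum_sub_distrib]
  rw [Finset.sum_comm]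
  exact Finset.sum_congr rfl fun _ _ => Finset.sum_congr rfl fun _ _ => by ring

/-- upper half of the matrix of a frame -/
def mm (f : Fin g → W g) : Matrix (Fin g) (Fin g) ℂ := Matrix.of fun i j => f j (.inl i)
/-- lower half of the matrix of a frame -/
def nn (f : Fin g → W g) : Matrix (Fin g) (Fin g) ℂ := Matrix.of fun i j => f j (.inr i)

lemma lft_sum (f : Fin g → W g) (t : Fin g → ℂ) : lft (∑ a, t a • f a) = mm f *ᵥ t := by
  ext i; simp [lft, mm, mulVec, dotProduct, mul_comm]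
lemma rgt_sum (f : Fin g → W g) (t : Fin g → ℂ) : rgt (∑ a, t a • f a) = nn f *ᵥ t := by
  ext i; simp [rgt, nn, mulVec, dotProduct, mul_comm]

lemma point (f : Fin g → W g) (h1 : ∀ a b, JJ (f a) (f b) = 0)
    (h2 : ∀ t : Fin g → ℂ, t ≠ 0 → 0 < (-I * JJ (∑ a, t a • f a) (star (∑ a, t a • f a))).re) :
    (mm f).det ≠ 0 ∧ Sg (-(nn f * (mm f)⁻¹)) ∧
      ∀ w, per (-(nn f * (mm f)⁻¹)) w = 0 ↔ w ∈ Submodule.span ℂ (Set.range f) := by
  have hd : (mm f).det ≠ 0 := fun h => by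
    obtain ⟨t, ht, h0⟩ := Matrix.exists_mulVec_eq_zero_iff.2 h
    have e1 : lft (∑ a, t a • f a) = 0 := by rw [lft_sum, h0]
    have e2 : lft (star (∑ a, t a • f a)) = 0 := by
      rw [show lft (star (∑ a, t a • f a)) = star (lft (∑ a, t a • f a)) from rfl, e1, star_zero]
    have := h2 t ht
    rw [JJ, e1, e2] at this
    simp at this
  have hu : IsUnit (mm f).det := Ne.isUnit hd
  have key : ∀ x : V g, ∑ a, ((mm f)⁻¹ *ᵥ x) a • f a = Sum.elim x ((nn f * (mm f)⁻¹) *ᵥ x) := by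
    intro x
    ext (i | i)
    · have := congrFun (lft_sum f ((mm f)⁻¹ *ᵥ x)) i
      rwa [mulVec_mulVec, mul_nonsing_inv _ hu, one_mulVec] at this
    · have := congrFun (rgt_sum f ((mm f)⁻¹ *ᵥ x)) i
      rwa [mulVec_mulVec] at this
  have hl : ∀ x y : V g, lft (Sum.elim x y) = x := fun _ _ => rfl
  have hr : ∀ x y : V g, rgt (Sum.elim x y) = y := fun _ _ => rfl
  have hper : ∀ w, per (-(nn f * (mm f)⁻¹)) w = rgt w - (nn f * (mm f)⁻¹) *ᵥ lft w := fun w => by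
    rw [per, app, show (Matrix.of (-(nn f * (mm f)⁻¹)) : Matrix _ _ ℂ) = -(nn f * (mm f)⁻¹) from rfl,
      neg_mulVec, neg_add_eq_sub]
  refine ⟨hd, ⟨fun i j => ?_, fun x hx => ?_⟩, fun w => ⟨fun h => ?_, fun h => ?_⟩⟩
  · have := JJ_sum ((mm f)⁻¹ *ᵥ Pi.single i 1) ((mm f)⁻¹ *ᵥ Pi.single j 1) f f
    simp only [key, h1, mul_zero, Finset.sum_const_zero] at this
    simpa [JJ, hl, hr, sub_eq_zero] using this
  · have h3 := h2 ((mm f)⁻¹ *ᵥ fun i => (x i : ℂ)) fun h => hx (by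
      have := congrArg (mm f *ᵥ ·) h
      simp only [mulVec_mulVec, mul_nonsing_inv _ hu, one_mulVec, mulVec_zero] at this
      ext i
      simpa using congrFun this i)
    rw [key] at h3
    generalize nn f * (mm f)⁻¹ = A at h3 ⊢
    have e : (-I * JJ (Sum.elim (fun i => (x i : ℂ)) (A *ᵥ fun i => (x i : ℂ)))
        (star (Sum.elim (fun i => (x i : ℂ)) (A *ᵥ fun i => (x i : ℂ))))).re =
        2 * ∑ i, ∑ j, x i * ((-A) i j).im * x j := by
      simp only [JJ, lft, rgt, dotProduct, mulVec, Pi.star_apply, Sum.elim_inl, Sum.elim_inr,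
        Finset.mul_sum, Finset.sum_mul, ← Finset.sum_sub_distrib, star_sum, re_sum]
      refine Finset.sum_congr rfl fun i _ => Finset.sum_congr rfl fun j _ => ?_
      simp; ring
    rw [e] at h3
    linarith
  · rw [hper, sub_eq_zero] at h
    refine (Submodule.mem_span_range_iff_exists_fun ℂ).2 ⟨(mm f)⁻¹ *ᵥ lft w, ?_⟩
    rw [key, ← h]
    ext (i | i) <;> rfl
  · obtain ⟨t, rfl⟩ := (Submodule.mem_span_range_iff_exists_fun ℂ).1 h
    rw [hper, lft_sum, rgt_sum, mulVec_mulVec, Matrix.nonsing_inv_mul_cancel_right _ _ hu, sub_self]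

lemma diff_det {E : Type} [NormedAddCommGroup E] [NormedSpace ℂ E] {Ω : Set E}
    {A : E → Matrix (Fin g) (Fin g) ℂ} (h : ∀ i j, DifferentiableOn ℂ (fun z => A z i j) Ω) :
    DifferentiableOn ℂ (fun z => (A z).det) Ω := by
  simp only [det_apply']
  refine DifferentiableOn.fun_sum fun σ _ => DifferentiableOn.const_mul ?_ _
  induction (Finset.univ : Finset (Fin g)) using Finset.induction_on with
  | empty => simp
  | insert a s ha ih => simpa only [Finset.prod_insert ha] using (h _ _).fun_mul ih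

end RiemAux

open RiemAux in
theorem riem : RiemS := by
  intro g κ ι _ _ Ω f hc hf h1 h2
  obtain ⟨e⟩ : Nonempty (Fin g ≃ ι) := ⟨(Fintype.equivFinOfCardEq hc).symm⟩
  have hp := fun z hz => point (fun a => f z (e a)) (fun a b => h1 z hz _ _) fun t ht => by
    have := h2 z hz (t ∘ e.symm) fun h => ht (by ext a; simpa using congrFun h (e a))
    simpa only [← e.sum_comp, Function.comp, e.symm_apply_apply] using this
  have hd : ∀ a i, DifferentiableOn ℂ (fun z => f z a i) Ω := fun a i =>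
    differentiableOn_pi.1 (differentiableOn_pi.1 hf a) i
  refine ⟨fun z => -(nn (fun a => f z (e a)) * (mm fun a => f z (e a))⁻¹), ?_,
    fun z hz => ⟨(hp z hz).2.1, fun w => ?_⟩⟩
  · refine differentiableOn_pi.2 fun i => differentiableOn_pi.2 fun j => ?_
    simp only [Matrix.neg_apply, Matrix.mul_apply, Matrix.inv_def, Matrix.smul_apply, smul_eq_mul,
      Ring.inverse_eq_inv, adjugate_apply]
    refine (DifferentiableOn.fun_sum fun k _ => (hd _ _).fun_mul (DifferentiableOn.fun_mul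
      ((diff_det fun i j => hd _ _).fun_inv fun z hz => (hp z hz).1) (diff_det fun a b => ?_))).neg
    simp only [updateRow_apply]
    split_ifs
    · exact differentiableOn_const _
    · exact hd _ _
  · rw [(hp z hz).2.2, show Set.range (fun a => f z (e a)) = Set.range (f z) from
      e.surjective.range_comp (f z)]

namespace RiemAux

variable {L : Type} [Field L] [NumberField L] {k g : ℕ} {ξ : Fin k → L} {v : Emb L → Fin k → W g}

omit [NumberField L] in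
lemma cj_cj (φ : Emb L) : cj (cj φ) = φ := star_star φ

omit [NumberField L] in
lemma cj_im (φ : Emb L) (x : L) : (cj φ x).im = -(φ x).im := by
  rw [ComplexEmbedding.conjugate_coe_eq, conj_im]

lemma vec_eq (v : Emb L → Fin k → W g) (X : Emb L → Fin k → ℂ) :
    vec v X = ∑ p : Emb L × Fin k, X p.1 p.2 • v p.1 p.2 := by
  rw [vec, Fintype.sum_prod_type]

lemma vec_sum {ι : Type} [Fintype ι] (t : ι → ℂ) (Y : ι → Emb L → Fin k → ℂ) :
    vec v (∑ a, t a • Y a) = ∑ a, t a • vec v (Y a) := by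
  simp only [vec_eq, Finset.sum_apply, Pi.smul_apply, Finset.sum_smul, Finset.smul_sum, smul_assoc]
  exact Finset.sum_comm

lemma vec_inj (hs : IsSym ξ v) {X Y : Emb L → Fin k → ℂ} (h : vec v X = vec v Y) : X = Y :=
  sub_eq_zero.1 (hs.indep _ (by
    rw [← sub_eq_zero] at h
    simpa only [vec_eq, Pi.sub_apply, sub_smul, Finset.sum_sub_distrib] using h))

lemma JJ_vec (hs : IsSym ξ v) (X Y : Emb L → Fin k → ℂ) :
    JJ (vec v X) (vec v Y) = ∑ φ : Emb L, ∑ i, X φ i * Y (cj φ) i * φ (ξ i) := by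
  classical
  rw [vec_eq, vec_eq, JJ_sum, Fintype.sum_prod_type]
  refine Finset.sum_congr rfl fun φ _ => Finset.sum_congr rfl fun i _ => ?_
  rw [Finset.sum_eq_single (cj φ, i)]
  · simp [hs.symp]
  · rintro ⟨ψ, j⟩ _ hne
    rw [hs.symp, if_neg, mul_zero]
    rintro ⟨rfl, rfl⟩
    exact hne rfl
  · simp

lemma star_vec (hs : IsSym ξ v) (X : Emb L → Fin k → ℂ) :
    star (vec v X) = vec v fun φ i => star (X (cj φ) i) := by
  simp only [vec, star_sum, star_smul, hs.conj]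
  exact Fintype.sum_bijective cj (Function.Involutive.bijective cj_cj) _ _ fun φ => by
    simp only [cj_cj]

lemma gen (hs : IsSym ξ v) (h3 : RiemS) {κ ι : Type} [Fintype κ] [Fintype ι]
    (hc : Fintype.card ι = g) (Ω : Set (κ → ℂ))
    (T : (κ → ℂ) → (ι → ℂ) →ₗ[ℂ] (Emb L → Fin k → ℂ))
    (hT : ∀ t φ i, DifferentiableOn ℂ (fun z => T z t φ i) Ω)
    (S : (κ → ℂ) → (Emb L → Fin k → ℂ) → Prop) (hS : ∀ z X, S z X ↔ ∃ t, X = T z t)
    (hinj : ∀ z t, T z t = 0 → t = 0)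
    (iso : ∀ z X Y, S z X → S z Y → ∀ φ, ∑ i, X φ i * Y (cj φ) i * φ (ξ i) = 0)
    (pos : ∀ z ∈ Ω, ∀ X, S z X → ∀ φ, X φ ≠ 0 → 0 < ∑ i, ‖X φ i‖ ^ 2 * (φ (ξ i)).im) :
    ∃ τ : (κ → ℂ) → Mat g, DifferentiableOn ℂ τ Ω ∧ ∀ z ∈ Ω, Sg (τ z) ∧
      ∀ X, per (τ z) (vec v X) = 0 ↔ S z X := by
  classical
  have e : ∀ z (t : ι → ℂ), ∑ a, t a • vec v (T z (Pi.single a 1)) = vec v (T z t) := fun z t => by
    rw [← vec_sum]
    congr 1
    conv_rhs => rw [pi_eq_sum_univ' t]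
    simp only [map_sum, map_smul]
  obtain ⟨τ, h1, h2⟩ := h3 g κ ι Ω (fun z a => vec v (T z (Pi.single a 1))) hc
    (differentiableOn_pi.2 fun a => by
      simp only [vec]
      exact DifferentiableOn.fun_sum fun φ _ => DifferentiableOn.fun_sum fun i _ =>
        (hT _ φ i).smul_const _)
    (fun z _ a b => by
      rw [JJ_vec hs]
      exact Finset.sum_eq_zero fun φ _ => iso z _ _ ((hS _ _).2 ⟨_, rfl⟩) ((hS _ _).2 ⟨_, rfl⟩) φ)
    (fun z hz t ht => by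
      rw [e, star_vec hs, JJ_vec hs, Finset.mul_sum, re_sum]
      have e2 : ∀ φ : Emb L, (-I * ∑ i, T z t φ i * star (T z t (cj (cj φ)) i) * φ (ξ i)).re =
          ∑ i, ‖T z t φ i‖ ^ 2 * (φ (ξ i)).im := fun φ => by
        rw [cj_cj, Finset.mul_sum, re_sum]
        refine Finset.sum_congr rfl fun i _ => ?_
        rw [star_def, mul_conj, normSq_eq_norm_sq]
        generalize ‖T z t φ i‖ ^ 2 = c
        simp
      simp only [e2]
      obtain ⟨φ, hφ⟩ := Function.ne_iff.1 (mt (hinj z t) ht)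
      refine Finset.sum_pos' (fun ψ _ => ?_)
        ⟨φ, Finset.mem_univ _, pos z hz _ ((hS _ _).2 ⟨_, rfl⟩) φ hφ⟩
      by_cases h0 : T z t ψ = 0
      · simp [h0]
      · exact (pos z hz _ ((hS _ _).2 ⟨_, rfl⟩) ψ h0).le)
  refine ⟨τ, h1, fun z hz => ⟨(h2 z hz).1, fun X => ?_⟩⟩
  rw [(h2 z hz).2, Submodule.mem_span_range_iff_exists_fun, hS]
  simp only [e]
  exact ⟨fun ⟨t, ht⟩ => ⟨t, (vec_inj hs ht).symm⟩, fun ⟨t, ht⟩ => ⟨t, by rw [ht]⟩⟩

/-- the positive coordinates -/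
abbrev Io (ξ : Fin k → L) : Type := {p : Emb L × Fin k // 0 < (p.1 (ξ p.2)).im}

noncomputable instance (ξ : Fin k → L) : Fintype (Io ξ) := Fintype.ofFinite _

lemma re_zero {c : L ≃ₐ[ℚ] L} (hc : IsCj c) {x : L} (h : c x = -x) (φ : Emb L) : (φ x).re = 0 := by
  have := congrArg re (hc φ x)
  rw [h, map_neg, neg_re, conj_re] at this
  linarith

lemma im_ne {c : L ≃ₐ[ℚ] L} (hc : IsCj c) {x : L} (h : c x = -x) (h0 : x ≠ 0) (φ : Emb L) :
    (φ x).im ≠ 0 := fun e =>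
  h0 (φ.injective (Complex.ext (by simpa using re_zero hc h φ) (by simpa using e)))

lemma card_Io (hs : IsSym ξ v) (h : ∀ (φ : Emb L) i, (φ (ξ i)).im ≠ 0) :
    Fintype.card (Io ξ) = g := by
  classical
  have h1 := Fintype.card_subtype_compl fun p : Emb L × Fin k => 0 < (p.1 (ξ p.2)).im
  have h2 := Fintype.card_subtype_le fun p : Emb L × Fin k => 0 < (p.1 (ξ p.2)).im
  have h3 := Fintype.card_congr (Equiv.subtypeEquiv (p := fun p : Emb L × Fin k =>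
    0 < (p.1 (ξ p.2)).im) (q := fun p : Emb L × Fin k => ¬ 0 < (p.1 (ξ p.2)).im)
    ((Function.Involutive.toPerm _ cj_cj).prodCongr (Equiv.refl _)) fun p => by
      change _ ↔ ¬ 0 < (cj p.1 (ξ p.2)).im
      rw [cj_im]
      exact ⟨fun a => by linarith, fun a => lt_of_le_of_ne (by linarith) (h _ _).symm⟩)
  have h4 := hs.card
  rw [Fintype.card_prod, Embeddings.card, Fintype.card_fin, mul_comm, ← h4] at h1 h2
  have h5 : Fintype.card (Io ξ) =
      Fintype.card {p : Emb L × Fin k // 0 < (p.1 (ξ p.2)).im} := by convert rfl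
  omega

/-- extension by zero -/
noncomputable def ex (ξ : Fin k → L) : (Io ξ → ℂ) →ₗ[ℂ] (Emb L → Fin k → ℂ) where
  toFun t φ i := if h : 0 < (φ (ξ i)).im then t ⟨(φ, i), h⟩ else 0
  map_add' s t := by ext φ i; simp only [Pi.add_apply]; split_ifs <;> simp
  map_smul' c t := by ext φ i; simp only [Pi.smul_apply]; split_ifs <;> simp

omit [NumberField L] in
lemma ex_pos (t : Io ξ → ℂ) {φ : Emb L} {i : Fin k} (h : 0 < (φ (ξ i)).im) :
    ex ξ t φ i = t ⟨(φ, i), h⟩ := dif_pos h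

omit [NumberField L] in
lemma ex_neg (t : Io ξ → ℂ) {φ : Emb L} {i : Fin k} (h : (φ (ξ i)).im ≤ 0) :
    ex ξ t φ i = 0 := dif_neg (not_lt.2 h)

end RiemAux

open RiemAux in
theorem modS (h1 : WeakS) (h2 : SymS) (h3 : RiemS) : ModS := by
  intro L _ _ c Φ hc _hΦ
  obtain ⟨ξ, a1, a2, a3⟩ := h1.xi L c Φ hc _hΦ
  obtain ⟨g, v, hs⟩ := h2 L c 1 (fun _ => ξ) hc (fun _ => a1) fun _ => a2
  have hne := im_ne hc a1 a2
  have hpos : ∀ φ : Emb L, φ ∉ Φ → 0 < (φ ξ).im := fun φ h =>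
    lt_of_le_of_ne (not_lt.1 (mt (a3 φ).2 h)) (hne φ).symm
  obtain ⟨τ, -, h4⟩ := gen hs h3 (κ := Unit) (card_Io hs fun φ _ => hne φ) Set.univ
    (fun _ => ex fun _ => ξ) (fun _ _ _ => differentiableOn_const _)
    (fun _ X => ∀ φ ∈ Φ, X φ = 0)
    (fun _ X => ⟨fun h => ⟨fun a => X a.1.1 a.1.2, by
        ext φ i
        by_cases hφ : φ ∈ Φ
        · rw [h φ hφ, ex_neg _ ((a3 φ).1 hφ).le]; rfl
        · rw [ex_pos _ (hpos φ hφ)]⟩, by
      rintro ⟨t, rfl⟩ φ hφ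
      ext i
      exact ex_neg _ ((a3 φ).1 hφ).le⟩)
    (fun _ t h => by
      ext a
      exact (ex_pos t a.2).symm.trans (congrFun (congrFun h _) _))
    (fun _ X Y hX hY φ => by
      by_cases hφ : φ ∈ Φ
      · simp [hX φ hφ]
      · simp [hY (cj φ) ((a3 _).2 (by rw [cj_im]; linarith [hpos φ hφ]))])
    (fun _ _ X hX φ h => by
      rw [Fin.sum_univ_one]
      exact mul_pos (pow_pos (norm_pos_iff.2 fun e => h (by ext i; rwa [Subsingleton.elim i 0])) 2)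
        (hpos φ fun hφ => h (hX φ hφ)))
  have e : ∀ X : Emb L → ℂ, vec v (fun φ _ => X φ) = ∑ φ : Emb L, X φ • v φ 0 := fun X => by
    simp [vec]
  refine ⟨g, τ 0, fun φ => v φ 0, (h4 0 trivial).1, fun x => e _ ▸ hs.rat fun _ => x,
    fun w hw => ?_, fun w => ?_, fun X h => ?_, fun φ j => hs.alg φ 0 j, fun X => ?_,
    by simpa using hs.card⟩
  · obtain ⟨x, rfl⟩ := hs.surj w hw
    exact ⟨x 0, by simp [vec]⟩
  · obtain ⟨X, rfl⟩ := hs.span w
    exact ⟨fun φ => X φ 0, by simp [vec]⟩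
  · ext φ
    exact congrFun (congrFun (hs.indep _ ((e X).trans h)) φ) 0
  · rw [← e, (h4 0 trivial).2]
    exact forall₂_congr fun φ _ => ⟨fun h => congrFun h 0, fun h => funext fun _ => h⟩

namespace RiemAux

variable {L : Type} [Field L] {ξ : Fin 2 → L}

/-- extension by zero of the parameter -/
noncomputable def zt (z : Mx ξ → ℂ) (φ : Emb L) : ℂ :=
  if h : 0 < (φ (ξ 0)).im ∧ (φ (ξ 1)).im < 0 then z ⟨φ, h⟩ else 0

/-- the frame of the Hodge filtration -/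
noncomputable def mix (z : Mx ξ → ℂ) : (Emb L → Fin 2 → ℂ) →ₗ[ℂ] (Emb L → Fin 2 → ℂ) where
  toFun X φ := ![X φ 0 + rr ξ (cj φ) * zt z (cj φ) * X φ 1, X φ 1 + zt z φ * X φ 0]
  map_add' s t := by ext φ i; fin_cases i <;> simp <;> ring
  map_smul' c t := by ext φ i; fin_cases i <;> simp <;> ring

lemma mix0 (z : Mx ξ → ℂ) (X : Emb L → Fin 2 → ℂ) (φ : Emb L) :
    mix z X φ 0 = X φ 0 + rr ξ (cj φ) * zt z (cj φ) * X φ 1 := rfl
lemma mix1 (z : Mx ξ → ℂ) (X : Emb L → Fin 2 → ℂ) (φ : Emb L) :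
    mix z X φ 1 = X φ 1 + zt z φ * X φ 0 := rfl
lemma zt_pos (z : Mx ξ → ℂ) (φ : Mx ξ) : zt z φ.1 = z φ := dif_pos φ.2
lemma zt_neg (z : Mx ξ → ℂ) {φ : Emb L} (h : (φ (ξ 0)).im ≤ 0 ∨ 0 ≤ (φ (ξ 1)).im) : zt z φ = 0 :=
  dif_neg fun a => h.elim (not_le.2 a.1) (not_le.2 a.2)

lemma cases4 (h : ∀ (φ : Emb L) i, (φ (ξ i)).im ≠ 0) (φ : Emb L) :
    (0 < (φ (ξ 0)).im ∧ 0 < (φ (ξ 1)).im) ∨ ((φ (ξ 0)).im < 0 ∧ (φ (ξ 1)).im < 0) ∨
      (∃ ψ : Mx ξ, φ = ψ.1) ∨ ∃ ψ : Mx ξ, φ = cj ψ.1 := by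
  rcases (h φ 0).lt_or_gt with a | a <;> rcases (h φ 1).lt_or_gt with b | b
  · exact .inr (.inl ⟨a, b⟩)
  · exact .inr (.inr (.inr ⟨⟨cj φ, by rw [cj_im]; linarith, by rw [cj_im]; linarith⟩,
      (cj_cj φ).symm⟩))
  · exact .inr (.inr (.inl ⟨⟨φ, a, b⟩, rfl⟩))
  · exact .inl ⟨a, b⟩

lemma inF_iff (h : ∀ (φ : Emb L) i, (φ (ξ i)).im ≠ 0) (z : Mx ξ → ℂ) (X : Emb L → Fin 2 → ℂ) :
    InF ξ z X ↔ ∃ t, X = (mix z ∘ₗ ex ξ) t := by
  have n0 : ∀ ψ : Mx ξ, (cj ψ.1 (ξ 0)).im ≤ 0 := fun ψ => by rw [cj_im]; linarith [ψ.2.1]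
  have p1 : ∀ ψ : Mx ξ, 0 < (cj ψ.1 (ξ 1)).im := fun ψ => by rw [cj_im]; linarith [ψ.2.2]
  refine ⟨fun hX => ⟨fun a => X a.1.1 a.1.2, funext fun φ => ?_⟩, ?_⟩
  · rw [LinearMap.comp_apply, funext_iff, Fin.forall_fin_two, mix0, mix1]
    rcases cases4 h φ with ⟨a, b⟩ | ⟨a, b⟩ | ⟨ψ, rfl⟩ | ⟨ψ, rfl⟩
    · rw [ex_pos _ a, ex_pos _ b, zt_neg z (.inr b.le), zt_neg z (.inl (by rw [cj_im]; linarith))]
      simp
    · simp [ex_neg _ a.le, ex_neg _ b.le, hX.2 φ a b]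
    · simp [ex_pos _ ψ.2.1, ex_neg _ ψ.2.2.le, zt_pos, (hX.1 ψ).1]
    · simp only [ex_pos _ (p1 ψ), ex_neg _ (n0 ψ), cj_cj, zt_pos, (hX.1 ψ).2]
      simp
  · rintro ⟨t, rfl⟩
    refine ⟨fun ψ => ?_, fun φ a b => ?_⟩
    · simp only [LinearMap.comp_apply, mix0, mix1, ex_neg _ ψ.2.2.le, ex_neg _ (n0 ψ), cj_cj, zt_pos]
      simp
    · rw [LinearMap.comp_apply, funext_iff, Fin.forall_fin_two, mix0, mix1]
      simp [ex_neg _ a.le, ex_neg _ b.le]

lemma mix_inj (z : Mx ξ → ℂ) (t : Io ξ → ℂ) (h : (mix z ∘ₗ ex ξ) t = 0) : t = 0 := by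
  ext ⟨⟨φ, i⟩, hi⟩
  have h1 := congrFun (congrFun h φ) i
  fin_cases i
  · have h2 : (cj φ (ξ 0)).im ≤ 0 := by rw [cj_im]; exact neg_nonpos.2 hi.le
    have h3 : mix z (ex ξ t) φ 0 = 0 := h1
    rw [mix0, zt_neg z (.inl h2), ex_pos (i := 0) _ hi] at h3
    simpa using h3
  · have h3 : mix z (ex ξ t) φ 1 = 0 := h1
    rw [mix1, zt_neg z (.inr hi.le), ex_pos (i := 1) _ hi] at h3
    simpa using h3

end RiemAux

open RiemAux in
theorem famS (h2 : SymS) (h3 : RiemS) : FamS := by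
  intro L _ _ c ξ hξ
  obtain ⟨g, v, hs⟩ := h2 L c 2 ξ hξ.cj hξ.skew hξ.ne
  have hne : ∀ (φ : Emb L) i, (φ (ξ i)).im ≠ 0 := fun φ i => im_ne hξ.cj (hξ.skew i) (hξ.ne i) φ
  have hr : ∀ ψ : Mx ξ, rr ξ ψ.1 * (ψ.1 (ξ 0)).im = -(ψ.1 (ξ 1)).im := fun ψ =>
    div_mul_cancel₀ _ (hne _ _)
  have hr' : ∀ ψ : Mx ξ, ψ.1 (ξ 1) = -(rr ξ ψ.1 * ψ.1 (ξ 0)) := fun ψ => Complex.ext
    (by simp [re_zero hξ.cj (hξ.skew _)]) (by simp [hr])
  have hz : ∀ φ, Differentiable ℂ fun z : Mx ξ → ℂ => zt z φ := fun φ => by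
    unfold zt
    split_ifs <;> fun_prop
  obtain ⟨τ, h4, h5⟩ := gen hs h3 (card_Io hs hne) (Dom ξ 1) (fun z => mix z ∘ₗ ex ξ)
    (fun t φ => by
      simp only [Fin.forall_fin_two, LinearMap.comp_apply, mix0, mix1]
      exact ⟨by fun_prop, by fun_prop⟩) (InF ξ) (inF_iff hne) mix_inj
    (fun z X Y hX hY φ => by
      rcases cases4 hne φ with ⟨a, b⟩ | ⟨a, b⟩ | ⟨ψ, rfl⟩ | ⟨ψ, rfl⟩
      · simp [hY.2 (cj φ) (by rw [cj_im]; linarith) (by rw [cj_im]; linarith)]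
      · simp [hX.2 φ a b]
      · rw [Fin.sum_univ_two, (hX.1 ψ).1, (hY.1 ψ).2, hr']; ring
      · rw [Fin.sum_univ_two, cj_cj, (hX.1 ψ).2, (hY.1 ψ).1, ComplexEmbedding.conjugate_coe_eq,
          ComplexEmbedding.conjugate_coe_eq, hr', map_neg, map_mul, conj_ofReal]
        ring)
    (fun z hz X hX φ h => by
      rw [Fin.sum_univ_two]
      have h' : X φ 0 ≠ 0 ∨ X φ 1 ≠ 0 := by
        simpa [funext_iff, Fin.forall_fin_two, ← not_and_or] using h
      rcases cases4 hne φ with ⟨a, b⟩ | ⟨a, b⟩ | ⟨ψ, rfl⟩ | ⟨ψ, rfl⟩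
      · rcases h' with h' | h' <;> positivity
      · exact absurd (hX.2 φ a b) h
      · have h0 : X ψ.1 0 ≠ 0 := h'.elim id fun e e' => e (by rw [(hX.1 ψ).1, e', mul_zero])
        have := mul_pos (mul_pos (pow_pos (norm_pos_iff.2 h0) 2) ψ.2.1) (sub_pos.2 (hz ψ))
        rw [(hX.1 ψ).1, norm_mul, ← neg_neg (ψ.1 (ξ 1)).im, ← hr]
        linarith
      · have h0 : X (cj ψ.1) 1 ≠ 0 := h'.elim (fun e e' => e (by rw [(hX.1 ψ).2, e', mul_zero])) id
        have := mul_pos (mul_pos (pow_pos (norm_pos_iff.2 h0) 2) (neg_pos.2 ψ.2.2))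
          (sub_pos.2 (hz ψ))
        rw [(hX.1 ψ).2, norm_mul, norm_mul, mul_pow, mul_pow, Complex.norm_real, Real.norm_eq_abs,
          sq_abs, cj_im, cj_im]
        rw [← hr] at this ⊢
        linarith)
  exact ⟨g, v, τ, hs, h4, fun z hz => (h5 z hz).1, fun z hz => (h5 z hz).2⟩

end Pool.Agent.Lib.MP_caab05_ag.GB
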