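import Mathlib
import Pool.Agent.Lib.MP_caab05_ag.GB.Stmt2

/-! Shimura's monomial relation from the family. -/

namespace Pool.Agent.Lib.MP_caab05_ag.GB

open MvPolynomial Filter Topology Complex

namespace ShiAux

theorem cj_im {L : Type} [Field L] (φ : Emb L) (x : L) : (cj φ x).im = -(φ x).im := by
  simp [cj, NumberField.ComplexEmbedding.conjugate_coe_eq]

/-- the twisted relation at a point with complex multiplication -/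
theorem at_cm (h1 : PolS) (h2 : XHolS) (h4 : XDS) {g J : ℕ} (hg : 0 < g) (D : Der)
    (τ M N : Mat g) (c' l₀ l₁ : ℂ) (hτ : Sg τ) (htw : IsTw D τ M 0 N c') (w₀ w₁ : V g)
    (hw₀ : ∀ k, D (w₀ k) = 0) (hw₁ : ∀ k, D (w₁ k) = 0) (e₀ : app M w₀ = l₀ • w₀)
    (e₁ : app M w₁ = l₁ • w₁) (s₀ s₁ : Ix g × Ix g) (Q : MvPolynomial (Al g J ⊕ Fin 2) ℂ)
    (k l : ℕ) (hQ : BiH Q k l)
    (h0 : eval (Sum.elim (Xc τ J) ![om τ w₀ s₀, om τ w₁ s₁]) Q = 0) :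
    eval (Sum.elim (Xc τ J) ![om τ w₀ s₀, om τ w₁ s₁]) (cD D Q) + (l₁ - l₀) *
      (om τ w₁ s₁ *
        eval (Sum.elim (Xc τ J) ![om τ w₀ s₀, om τ w₁ s₁]) (pderiv (Sum.inr 1) Q)) = 0 := by
  obtain ⟨c'', hc''⟩ := h4.dX g J D τ M N c' hg hτ htw
  have d₀ : D (om τ w₀ s₀) = (l₀ + 2 * c') * om τ w₀ s₀ := by
    have hz : (fun k => D (w₀ k)) = 0 := funext hw₀
    rw [h4.dom g D τ M N c' hτ htw, hz, add_zero, e₀, h2.om_smul]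
    simp only [Pi.smul_apply, smul_eq_mul]
    ring
  have d₁ : D (om τ w₁ s₁) = (l₁ + 2 * c') * om τ w₁ s₁ := by
    have hz : (fun k => D (w₁ k)) = 0 := funext hw₁
    rw [h4.dom g D τ M N c' hτ htw, hz, add_zero, e₁, h2.om_smul]
    simp only [Pi.smul_apply, smul_eq_mul]
    ring
  have hD := h1.D_eval _ D Q (Sum.elim (Xc τ J) ![om τ w₀ s₀, om τ w₁ s₁])
  rw [h0, map_zero] at hD
  have hsplit : (fun i => D (Sum.elim (Xc τ J) ![om τ w₀ s₀, om τ w₁ s₁] i)) =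
      Sum.elim (c'' • Xc τ J) ((l₀ + 2 * c') • ![om τ w₀ s₀, om τ w₁ s₁]) +
        Sum.elim (0 : Al g J → ℂ) ![0, (l₁ - l₀) * om τ w₁ s₁] := by
    funext i
    rcases i with q | b
    · simp [hc'']
    · fin_cases b
      · simp [d₀]
      · simp [d₁]
        ring
  rw [hsplit, h1.dP_add, h1.euler _ _ Q k l hQ, h0, mul_zero, zero_add] at hD
  have hlast : dP Q (Sum.elim (Xc τ J) ![om τ w₀ s₀, om τ w₁ s₁])
      (Sum.elim (0 : Al g J → ℂ) ![0, (l₁ - l₀) * om τ w₁ s₁]) = (l₁ - l₀) * (om τ w₁ s₁ *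
        eval (Sum.elim (Xc τ J) ![om τ w₀ s₀, om τ w₁ s₁]) (pderiv (Sum.inr 1) Q)) := by
    unfold dP
    rw [Fintype.sum_sum_type, Fin.sum_univ_two]
    simp
    ring
  rw [hlast] at hD
  exact hD.symm

end ShiAux

open ShiAux

theorem shi (h1 : PolS) (h2 : XHolS) (h4 : XDS) (h5 : WeakS) (h6 : FamS) (h7 : FamRelS)
    (h8 : CMPtS) : ShiS := by
  intro L _ _ c D hc Φ₀ Φ₁ Ψ₀ Ψ₁ hΦ₀ hΦ₁ hΨ₀ hΨ₁ hint hne φ hφ₀ hφ₁
  obtain ⟨ξ₀, hs₀, hn₀, hm₀⟩ := h5.xi L c Φ₀ hc hΦ₀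
  obtain ⟨ξ₁, hs₁, hn₁, hm₁⟩ := h5.xi L c Φ₁ hc hΦ₁
  have hxi : IsXi c ![ξ₀, ξ₁] := by
    refine ⟨hc, fun i => ?_, fun i => ?_, ?_⟩
    · fin_cases i
      · exact hs₀
      · exact hs₁
    · fin_cases i
      · exact hn₀
      · exact hn₁
    · obtain ⟨ψ, hψ₀, hψ₁⟩ := hne
      refine ⟨cj ψ, ?_, ?_⟩
      · have := (hm₀ ψ).mp hψ₀
        rw [cj_im]
        simpa using this
      · have := (hm₁ ψ).mp hψ₁
        rw [cj_im]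
        simpa using this
  have hφa : 0 < (φ ξ₀).im := by
    have h : cj φ ∈ Φ₀ := by
      by_contra h
      exact hφ₀ ((hΦ₀ φ).mpr h)
    have := (hm₀ _).mp h
    rw [cj_im] at this
    linarith
  have hφb : (φ ξ₁).im < 0 := (hm₁ φ).mp hφ₁
  let φ' : Mx ![ξ₀, ξ₁] := ⟨φ, hφa, hφb⟩
  obtain ⟨g, v, τ, hfam⟩ := h6 L c _ hxi
  obtain ⟨J, s₀, s₁, Q, k, l, hQ, hrel, ⟨z₀, hz₀, hnz⟩, hcont⟩ := h7 L c _ g v τ hxi hfam φ'
  have hg : 0 < g := by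
    have h := hfam.sym.card
    have : 0 < Module.finrank ℚ L := Module.finrank_pos
    omega
  have hΦ : Φ₀ ∩ Φ₁ =
      {ψ : Emb L | (ψ (![ξ₀, ξ₁] 0)).im < 0 ∧ (ψ (![ξ₀, ξ₁] 1)).im < 0} := by
    ext ψ
    exact and_congr (hm₀ ψ) (hm₁ ψ)
  have key : ∀ A₀ A₁ : Set (Emb L), IsType A₀ → IsType A₁ → A₀ ∩ A₁ = Φ₀ ∩ Φ₁ →
      eval (pt (τ z₀) v φ J s₀ s₁) (cD D Q) + (elt D A₀ φ + elt D A₁ φ) *
        (pt (τ z₀) v φ J s₀ s₁ (Sum.inr 1) *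
          eval (pt (τ z₀) v φ J s₀ s₁) (pderiv (Sum.inr 1) Q)) = 0 := by
    intro A₀ A₁ hA₀ hA₁ hA
    have hcl := h8 L c _ g v τ D hxi hfam A₀ A₁ hA₀ hA₁ (hA.trans hΦ) φ' hz₀
    have hG : Continuous fun x : Al g J ⊕ Fin 2 → ℂ =>
        eval x (cD D Q) + (elt D A₀ φ + elt D A₁ φ) *
          (x (Sum.inr 1) * eval x (pderiv (Sum.inr 1) Q)) :=
      (MvPolynomial.continuous_eval _).add (continuous_const.mul
        ((continuous_apply _).mul (MvPolynomial.continuous_eval _)))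
    have hGc := (hG.comp_continuousOn hcont z₀ hz₀).mono (fun z hz => hz.1) |>.mem_closure_image
      hcl
    refine Set.mem_singleton_iff.mp
      (closure_minimal (t := ({0} : Set ℂ)) ?_ isClosed_singleton hGc)
    rintro _ ⟨z, ⟨hz, M, N, c', l₀, l₁, htw, hw₀, hw₁, e₀, e₁, hl⟩, rfl⟩
    have := at_cm h1 h2 h4 hg D (τ z) M N c' l₀ l₁ (hfam.sg z hz) htw _ _ hw₀ hw₁ e₀ e₁ s₀ s₁ Q
      k l hQ (hrel z hz)
    rw [hl] at this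
    exact this
  have k₁ := key Φ₀ Φ₁ hΦ₀ hΦ₁ rfl
  have k₂ := key Ψ₀ Ψ₁ hΨ₀ hΨ₁ hint.symm
  exact mul_right_cancel₀ hnz (add_left_cancel (k₁.trans k₂.symm))

end Pool.Agent.Lib.MP_caab05_ag.GB
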