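import Mathlib
import Pool.Agent.Lib.MP_caab05_ag.GB.Stmt2

/-! Symplectic bases for the trace form. -/

namespace Pool.Agent.Lib.MP_caab05_ag.GB

open Matrix

namespace SymAux

/-- a nondegenerate alternating form has a symplectic basis -/
theorem exists_basis {F U : Type} [Field F] [AddCommGroup U] [Module F U] [FiniteDimensional F U]
    (B : U →ₗ[F] U →ₗ[F] F) (h0 : ∀ x, B x x = 0) (h1 : ∀ x y, B x y = -B y x)
    (S : Submodule F U) (hS : ∀ x ∈ S, (∀ y ∈ S, B x y = 0) → x = 0) :
    ∃ (g : ℕ) (e f : Fin g → U), (∀ i, e i ∈ S) ∧ (∀ i, f i ∈ S) ∧ (∀ i j, B (e i) (e j) = 0) ∧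
      (∀ i j, B (f i) (f j) = 0) ∧ (∀ i j, B (e i) (f j) = if i = j then 1 else 0) ∧
      ∀ z ∈ S, z = ∑ i, B z (f i) • e i - ∑ i, B z (e i) • f i := by
  induction S using WellFoundedLT.induction with
  | _ S ih =>
    by_cases hb : ∀ x ∈ S, x = 0
    · exact ⟨0, Fin.elim0, Fin.elim0, fun i => i.elim0, fun i => i.elim0, fun i => i.elim0,
        fun i => i.elim0, fun i => i.elim0, fun z hz => by simpa using hb z hz⟩
    push Not at hb
    obtain ⟨x, hx, hx0⟩ := hb
    obtain ⟨y, hy, hxy⟩ : ∃ y ∈ S, B x y = 1 := by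
      by_contra hc
      refine hx0 (hS x hx fun y hy => ?_)
      by_contra h
      exact hc ⟨(B x y)⁻¹ • y, S.smul_mem _ hy, by rw [map_smul, smul_eq_mul, inv_mul_cancel₀ h]⟩
    have hyx : B y x = -1 := by rw [h1, hxy]
    let T : Submodule F U := S ⊓ (LinearMap.ker (B x) ⊓ LinearMap.ker (B y))
    have hT : ∀ z, z ∈ T ↔ z ∈ S ∧ B x z = 0 ∧ B y z = 0 := fun z => Iff.rfl
    have hp : ∀ z ∈ S, z - B z y • x + B z x • y ∈ T := fun z hz => by
      refine (hT _).2 ⟨S.add_mem (S.sub_mem hz (S.smul_mem _ hx)) (S.smul_mem _ hy), ?_, ?_⟩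
      · simp only [map_add, map_sub, map_smul, smul_eq_mul, h0, hxy, h1 x z]
        ring
      · simp only [map_add, map_sub, map_smul, smul_eq_mul, h0, hyx, h1 y z]
        ring
    obtain ⟨g, e, f, a1, a2, a3, a4, a5, a6⟩ := ih T
      (lt_of_le_of_ne inf_le_left fun h => by
        have := ((hT y).1 (h ▸ hy)).2.1
        rw [hxy] at this
        exact one_ne_zero this) fun u hu h => by
      obtain ⟨u1, u2, u3⟩ := (hT u).1 hu
      refine hS u u1 fun z hz => ?_
      have := h _ (hp z hz)
      simpa only [map_add, map_sub, map_smul, smul_eq_mul, h1 u x, h1 u y, u2, u3, neg_zero,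
        mul_zero, sub_zero, add_zero] using this
    have xe : ∀ i, B x (e i) = 0 := fun i => ((hT _).1 (a1 i)).2.1
    have ye : ∀ i, B y (e i) = 0 := fun i => ((hT _).1 (a1 i)).2.2
    have xf : ∀ i, B x (f i) = 0 := fun i => ((hT _).1 (a2 i)).2.1
    have yf : ∀ i, B y (f i) = 0 := fun i => ((hT _).1 (a2 i)).2.2
    refine ⟨g + 1, Fin.cons x e, Fin.cons y f, fun i => ?_, fun i => ?_, fun i j => ?_,
      fun i j => ?_, fun i j => ?_, fun z hz => ?_⟩
    · refine Fin.cases hx (fun i => (a1 i).1) i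
    · refine Fin.cases hy (fun i => (a2 i).1) i
    · refine Fin.cases ?_ (fun i => ?_) i <;> refine Fin.cases ?_ (fun j => ?_) j <;>
        simp only [Fin.cons_zero, Fin.cons_succ]
      · exact h0 x
      · exact xe j
      · rw [h1, xe, neg_zero]
      · exact a3 i j
    · refine Fin.cases ?_ (fun i => ?_) i <;> refine Fin.cases ?_ (fun j => ?_) j <;>
        simp only [Fin.cons_zero, Fin.cons_succ]
      · exact h0 y
      · exact yf j
      · rw [h1, yf, neg_zero]
      · exact a4 i j
    · refine Fin.cases ?_ (fun i => ?_) i <;> refine Fin.cases ?_ (fun j => ?_) j <;>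
        simp only [Fin.cons_zero, Fin.cons_succ]
      · rw [hxy, if_true]
      · rw [xf, if_neg (Fin.succ_ne_zero j).symm]
      · rw [h1, ye, neg_zero, if_neg (Fin.succ_ne_zero i)]
      · simp only [a5, Fin.succ_inj]
    · have := a6 _ (hp z hz)
      simp only [map_add, map_sub, map_smul, LinearMap.add_apply, LinearMap.sub_apply,
        LinearMap.smul_apply, xe, ye, xf, yf, smul_zero, sub_zero, add_zero] at this
      simp only [Fin.sum_univ_succ, Fin.cons_zero, Fin.cons_succ]
      linear_combination (norm := abel_nf) this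

variable {L : Type} [Field L] [NumberField L]

theorem tr_sum (x : L) : ((Algebra.trace ℚ L x : ℚ) : ℂ) = ∑ φ : Emb L, φ x := by
  have := trace_eq_sum_embeddings ℂ (K := ℚ) (x := x)
  rw [eq_ratCast] at this
  rw [this]
  exact (Fintype.sum_equiv (RingHom.equivRatAlgHom L ℂ) _ _ fun φ => rfl).symm

/-- the trace form -/
noncomputable def EE {k : ℕ} (c : L ≃ₐ[ℚ] L) (ξ : Fin k → L) :
    (Fin k → L) →ₗ[ℚ] (Fin k → L) →ₗ[ℚ] ℚ :=
  LinearMap.mk₂ ℚ (fun x y => Algebra.trace ℚ L (∑ i, ξ i * x i * c (y i)))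
    (fun x x' y => by simp [mul_add, add_mul, Finset.sum_add_distrib])
    (fun q x y => by simp [Finset.mul_sum])
    (fun x y y' => by simp [mul_add, Finset.sum_add_distrib])
    (fun q x y => by
      have : ∀ z : L, c (q • z) = q • c z := fun z => c.toLinearEquiv.map_smul q z
      simp [Finset.mul_sum, this])

theorem EE_apply {k : ℕ} (c : L ≃ₐ[ℚ] L) (ξ x y : Fin k → L) :
    EE c ξ x y = Algebra.trace ℚ L (∑ i, ξ i * x i * c (y i)) := rfl

theorem JJ_sum_left {g : ℕ} {ι : Type} (s : Finset ι) (a : ι → ℂ) (x : ι → W g) (y : W g) :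
    JJ (∑ i ∈ s, a i • x i) y = ∑ i ∈ s, a i * JJ (x i) y := by
  simp only [JJ, lft, rgt, dotProduct, Finset.sum_apply, Pi.smul_apply, smul_eq_mul, mul_sub,
    Finset.sum_sub_distrib, Finset.sum_mul, Finset.mul_sum, mul_assoc]
  rw [Finset.sum_comm, Finset.sum_comm (s := Finset.univ) (t := s)]

theorem JJ_skew {g : ℕ} (x y : W g) : JJ x y = -JJ y x := by
  simp only [JJ, dotProduct_comm (lft x), dotProduct_comm (rgt x)]
  ring

theorem JJ_sum_right {g : ℕ} {ι : Type} (s : Finset ι) (a : ι → ℂ) (x : ι → W g) (y : W g) :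
    JJ y (∑ i ∈ s, a i • x i) = ∑ i ∈ s, a i * JJ y (x i) := by
  rw [JJ_skew, JJ_sum_left, ← Finset.sum_neg_distrib]
  exact Finset.sum_congr rfl fun i _ => by rw [JJ_skew y]; ring

/-- `vec` as a linear map -/
noncomputable def vecL {g k : ℕ} (v : Emb L → Fin k → W g) : (Emb L → Fin k → ℂ) →ₗ[ℂ] W g where
  toFun := vec v
  map_add' := fun X Y => by simp [vec, add_smul, Finset.sum_add_distrib]
  map_smul' := fun a X => by simp [vec, Finset.smul_sum, mul_smul]

end SymAux

open SymAux

theorem sym (h : WeakS) : SymS := by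
  intro L _ _ c k ξ hc hξ hξ0
  classical
  have hcc : ∀ x, c (c x) = x := fun x => by
    obtain ⟨φ⟩ : Nonempty (Emb L) := inferInstance
    apply φ.injective
    rw [hc, hc, Complex.conj_conj]
  have h1 : ∀ x y, EE c ξ x y = -EE c ξ y x := fun x y => by
    rw [EE_apply, EE_apply, ← map_neg, ← Algebra.trace_eq_of_algEquiv c, map_sum c,
      ← Finset.sum_neg_distrib]
    refine congrArg _ (Finset.sum_congr rfl fun i _ => ?_)
    rw [map_mul, map_mul, hξ, hcc]
    ring
  have hs : ∀ (i j : Fin k) (x y : L), EE c ξ (Pi.single i x) (Pi.single j y) =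
      if i = j then Algebra.trace ℚ L (ξ i * x * c y) else 0 := fun i j x y => by
    rw [EE_apply, Finset.sum_eq_single i (fun l _ hl => by simp [hl]) (by simp)]
    split_ifs with e
    · simp [e]
    · simp [e]
  obtain ⟨g, e, f, -, -, a3, a4, a5, a6⟩ := exists_basis (EE c ξ)
    (fun x => by linear_combination (1 / 2 : ℚ) * h1 x x) h1 ⊤ fun x _ hx => by
      funext i
      have := (traceForm_nondegenerate ℚ L).1 (ξ i * x i) fun t => by
        have k := hx (Pi.single i (c t)) trivial
        rwa [EE_apply, Finset.sum_eq_single i (fun l _ hl => by simp [hl]) (by simp),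
          Pi.single_eq_same, hcc] at k
      exact (mul_eq_zero.1 this).resolve_left (hξ0 i)
  let a : Fin k → Fin g ⊕ Fin g → L := fun i =>
    Sum.elim (fun j => ξ i * c (f j i)) (fun j => -(ξ i * c (e j i)))
  let s : (Fin k → L) → Fin g ⊕ Fin g → ℚ := fun z =>
    Sum.elim (fun j => EE c ξ z (f j)) (fun j => -EE c ξ z (e j))
  let v : Emb L → Fin k → W g := fun φ i j => φ (a i j)
  have hv : ∀ x : Fin k → L, (vec v fun φ i => φ (x i)) = fun j => (s x j : ℂ) := fun x => by
    funext j
    have e1 : (vec v fun φ i => φ (x i)) j = ∑ φ : Emb L, φ (∑ i, x i * a i j) := by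
      simp only [vec, v, Finset.sum_apply, Pi.smul_apply, smul_eq_mul, map_sum, map_mul]
    rw [e1, ← tr_sum]
    congr 1
    rcases j with j | j
    · exact congrArg _ (Finset.sum_congr rfl fun i _ => by simp only [a, Sum.elim_inl]; ring)
    · simp only [s, Sum.elim_inr]
      rw [EE_apply, ← map_neg, ← Finset.sum_neg_distrib]
      exact congrArg _ (Finset.sum_congr rfl fun i _ => by simp only [a, Sum.elim_inr]; ring)
  have hJ : ∀ z w, JJ (fun j => (s z j : ℂ)) (fun j => (s w j : ℂ)) = (EE c ξ z w : ℂ) :=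
    fun z w => by
      have e1 : EE c ξ z w = JJ (s z) (s w) := by
        conv_lhs => rw [a6 z trivial]
        simp only [JJ, lft, rgt, dotProduct, s, Sum.elim_inl, Sum.elim_inr, map_sub, map_sum,
          map_smul, LinearMap.sub_apply, LinearMap.sum_apply, LinearMap.smul_apply, smul_eq_mul]
        congr 1
        · exact Finset.sum_congr rfl fun i _ => by rw [h1 (e i)]
        · exact Finset.sum_congr rfl fun i _ => by rw [h1 (f i)]; ring
      rw [e1]
      simp only [JJ, lft, rgt, dotProduct]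
      push_cast
      rfl
  have hsurj : ∀ w : W g, IsRat w → ∃ x : Fin k → L, w = vec v fun φ i => φ (x i) := by
    intro w hw
    choose q hq using hw
    refine ⟨∑ i, q (.inl i) • e i + ∑ i, q (.inr i) • f i, ?_⟩
    rw [hv]
    funext j
    rw [hq]
    congr 1
    have a5' : ∀ i j, EE c ξ (f i) (e j) = -if j = i then 1 else 0 := fun i j => by rw [h1, a5]
    rcases j with j | j
    · simp [s, a4, a5]
    · simp [s, a3, a5']
  have hone : ∀ (i : Fin k) (x : L), ∑ φ : Emb L, φ x • v φ i =
      fun j => (s (Pi.single i x) j : ℂ) := fun i x => by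
    rw [← hv, vec]
    refine Finset.sum_congr rfl fun φ _ => ?_
    rw [Finset.sum_eq_single i (fun l _ hl => by simp [hl]) (by simp), Pi.single_eq_same]
  have hsymp : ∀ φ ψ i j, JJ (v φ i) (v ψ j) = if ψ = cj φ ∧ i = j then φ (ξ i) else 0 := by
    intro φ ψ i j
    have k1 : ∀ y : L, (fun φ : Emb L => ∑ ψ : Emb L, ψ y * (JJ (v φ i) (v ψ j) -
        if ψ = cj φ ∧ i = j then φ (ξ i) else 0)) = 0 := fun y => h.dedekind L _ fun x => by
      have e1 := hJ (Pi.single i x) (Pi.single j y)
      rw [← hone, ← hone, JJ_sum_left, hs] at e1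
      simp only [JJ_sum_right] at e1
      simp only [mul_sub, Finset.sum_sub_distrib]
      rw [e1, sub_eq_zero]
      by_cases e2 : i = j
      · rw [if_pos e2, tr_sum]
        refine Finset.sum_congr rfl fun φ _ => ?_
        simp only [e2, and_true, mul_ite, mul_zero, Finset.sum_ite_eq', Finset.mem_univ, if_true,
          map_mul, hc φ]
        rw [NumberField.ComplexEmbedding.conjugate_coe_eq]
        ring
      · simp [e2]
    exact sub_eq_zero.1 (congrFun (h.dedekind L _ fun y => congrFun (k1 y) φ) ψ)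
  have hspan : ∀ w : W g, ∃ X, w = vec v X := fun w => by
    have : ∀ j, ∃ X, Pi.single j (1 : ℂ) = vec v X := fun j => by
      obtain ⟨x, hx⟩ := hsurj (Pi.single j 1) fun l => ⟨if l = j then 1 else 0, by
        by_cases e : l = j <;> simp [e]⟩
      exact ⟨_, hx⟩
    choose X hX using this
    refine ⟨∑ j, w j • X j, ?_⟩
    change w = vecL v _
    rw [map_sum]
    simp only [map_smul]
    change w = ∑ j, w j • vec v (X j)
    funext l
    simp [← hX, Finset.sum_apply, Pi.single_apply]
  have hind : ∀ X, vec v X = 0 → X = 0 := fun X hX => by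
    funext φ i
    have e1 : JJ (vec v X) (v (cj φ) i) = X φ i * φ (ξ i) := by
      rw [vec, ← Finset.sum_product', JJ_sum_left, Finset.sum_eq_single (φ, i)]
      · rw [hsymp, if_pos ⟨rfl, rfl⟩]
      · rintro ⟨ψ, j⟩ _ hne
        rw [hsymp, if_neg, mul_zero]
        rintro ⟨e1, e2⟩
        exact hne (Prod.ext ((NumberField.ComplexEmbedding.involutive_conjugate L).injective
          e1.symm) e2)
      · simp
    rw [hX] at e1
    have e2 : JJ (0 : W g) (v (cj φ) i) = 0 := by simp [JJ, lft, rgt, dotProduct]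
    exact (mul_eq_zero.1 (e1.symm.trans e2)).resolve_right ((map_ne_zero φ).2 (hξ0 i))
  refine ⟨g, v, fun x j => ⟨s x j, congrFun (hv x) j⟩, hsurj, hsymp, hspan, hind,
    fun φ i => funext fun j => rfl, fun φ i j => ?_, ?_⟩
  · exact (Algebra.IsAlgebraic.isAlgebraic (R := ℚ) (a i j)).algHom φ.toRatAlgHom
  · have := (LinearEquiv.ofBijective (vecL v) ⟨(injective_iff_map_eq_zero _).2 hind,
      fun w => (hspan w).imp fun _ e => e.symm⟩).finrank_eq
    simp only [Module.finrank_pi_fintype, Module.finrank_self, mul_one, Fintype.card_fin,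
      Finset.sum_const, Finset.card_univ, smul_eq_mul, Fintype.card_sum,
      NumberField.Embeddings.card] at this
    rw [two_mul, ← this, mul_comm]

end Pool.Agent.Lib.MP_caab05_ag.GB
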