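import Mathlib

/-! Analytic lemmas for the infinitesimal Torelli theorem. -/

namespace Pool.Agent.Lib.MP_caab05_ag.GB.TorAux

open Filter Topology Complex Set

/-- linearly independent vectors have a nonzero maximal minor -/
lemma exists_minor {K ι κ : Type} [Field K] [Fintype ι] [DecidableEq ι] [Fintype κ]
    {u : ι → κ → K} (hu : LinearIndependent K u) :
    ∃ s : ι → κ, (Matrix.of fun i j => u i (s j)).det ≠ 0 := by
  classical
  let col : κ → ι → K := fun k i => u i k
  have hspan : Submodule.span K (Set.range col) = ⊤ := by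
    have h1 : (Matrix.of u).rank = Fintype.card ι := hu.rank_matrix
    rw [Matrix.rank_eq_finrank_span_cols] at h1
    apply Submodule.eq_top_of_finrank_eq
    rw [Module.finrank_fintype_fun_eq_card]
    exact h1
  obtain ⟨κ', a, ha, hsp, hli⟩ := exists_linearIndependent' K col
  have : Finite κ' := Finite.of_injective a ha
  have := Fintype.ofFinite κ'
  let b : Module.Basis κ' K (ι → K) := Module.Basis.mk hli (by rw [hsp, hspan])
  have hcard : Fintype.card ι = Fintype.card κ' := by
    rw [← Module.finrank_eq_card_basis b, Module.finrank_fintype_fun_eq_card]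
  let e : ι ≃ κ' := Fintype.equivOfCardEq hcard
  refine ⟨a ∘ e, ?_⟩
  have h2 : LinearIndependent K (Matrix.of fun i j => u i ((a ∘ e) j)).col :=
    hli.comp e e.injective
  rw [Matrix.linearIndependent_cols_iff_isUnit, Matrix.isUnit_iff_isUnit_det] at h2
  exact h2.ne_zero

section comm

variable {E : Type} [NormedAddCommGroup E] [NormedSpace ℂ E]

lemma hasDerivAt_snd {G : Type} [NormedAddCommGroup G] [NormedSpace ℂ G] {F : E × ℂ → G}
    {x : E} {t : ℂ} (h : DifferentiableAt ℂ F (x, t)) :
    HasDerivAt (fun s => F (x, s)) (fderiv ℂ F (x, t) (0, 1)) t := by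
  have h1 : HasDerivAt (fun s : ℂ => ((x, s) : E × ℂ)) (0, 1) t :=
    (hasDerivAt_const t x).prodMk (hasDerivAt_id t)
  exact h.hasFDerivAt.comp_hasDerivAt t h1

lemma fderiv_fst' {G H : Type} [NormedAddCommGroup G] [NormedSpace ℂ G] [NormedAddCommGroup H]
    [NormedSpace ℂ H] {F : E × H → G} {x : E} {t : H} (h : DifferentiableAt ℂ F (x, t)) (v : E) :
    fderiv ℂ (fun σ => F (σ, t)) x v = fderiv ℂ F (x, t) (v, 0) := by
  have h1 : HasFDerivAt (fun σ : E => ((σ, t) : E × H)) (ContinuousLinearMap.inl ℂ E H) x :=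
    hasFDerivAt_prodMk_left x t
  have h2 := (h.hasFDerivAt.comp x h1).fderiv
  have h3 : (fun σ => F (σ, t)) = F ∘ fun σ : E => ((σ, t) : E × H) := rfl
  rw [h3, h2]
  simp

lemma fderiv_snd' {G H : Type} [NormedAddCommGroup G] [NormedSpace ℂ G] [NormedAddCommGroup H]
    [NormedSpace ℂ H] {F : E × H → G} {x : E} {t : H} (h : DifferentiableAt ℂ F (x, t)) (v : H) :
    fderiv ℂ (fun s => F (x, s)) t v = fderiv ℂ F (x, t) (0, v) := by
  have h1 : HasFDerivAt (fun s : H => ((x, s) : E × H)) (ContinuousLinearMap.inr ℂ E H) t :=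
    hasFDerivAt_prodMk_right x t
  have h2 := (h.hasFDerivAt.comp t h1).fderiv
  have h3 : (fun s => F (x, s)) = F ∘ fun s : H => ((x, s) : E × H) := rfl
  rw [h3, h2]
  simp

/-- the derivative in the parameter commutes with the jets -/
lemma comm [CompleteSpace E] {U : Set E} (hU : IsOpen U) (j : ℕ) : ∀ F : E × ℂ → ℂ,
    AnalyticOnNhd ℂ F (U ×ˢ univ) → ∀ x ∈ U,
    DifferentiableAt ℂ (fun σ => iteratedDeriv j (fun t => F (σ, t)) 0) x ∧
    ∀ v, fderiv ℂ (fun σ => iteratedDeriv j (fun t => F (σ, t)) 0) x v =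
      iteratedDeriv j (fun t => fderiv ℂ F (x, t) (v, 0)) 0 := by
  induction j with
  | zero =>
    intro F hF x hx
    have h := (hF (x, 0) ⟨hx, trivial⟩).differentiableAt
    simp only [iteratedDeriv_zero]
    refine ⟨h.comp x (differentiableAt_id.prodMk (differentiableAt_const _)), fun v => ?_⟩
    exact fderiv_fst' h v
  | succ j ih =>
    intro F hF x hx
    have hF1 : AnalyticOnNhd ℂ (fderiv ℂ F) (U ×ˢ univ) := hF.fderiv
    have hF' : AnalyticOnNhd ℂ (fun p => fderiv ℂ F p (0, 1)) (U ×ˢ univ) := fun p hp =>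
      ((ContinuousLinearMap.apply ℂ ℂ ((0, 1) : E × ℂ)).analyticAt _).comp (hF1 p hp)
    obtain ⟨h1, h2⟩ := ih _ hF' x hx
    have he : (fun σ => iteratedDeriv (j + 1) (fun t => F (σ, t)) 0) =ᶠ[𝓝 x]
        fun σ => iteratedDeriv j (fun t => fderiv ℂ F (σ, t) (0, 1)) 0 := by
      filter_upwards [hU.mem_nhds hx] with σ hσ
      rw [iteratedDeriv_succ']
      congr 1
      funext t
      exact (hasDerivAt_snd (hF (σ, t) ⟨hσ, trivial⟩).differentiableAt).deriv
    refine ⟨h1.congr_of_eventuallyEq he, fun v => ?_⟩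
    rw [he.fderiv_eq, h2 v, iteratedDeriv_succ']
    congr 1
    funext t
    have hd := (hF1 (x, t) ⟨hx, trivial⟩).differentiableAt
    have hs : IsSymmSndFDerivAt ℂ F (x, t) :=
      ((hF (x, t) ⟨hx, trivial⟩).contDiffAt (n := ⊤)).isSymmSndFDerivAt (by simp)
    have e1 : fderiv ℂ (fun p => fderiv ℂ F p (0, 1)) (x, t) (v, 0) =
        fderiv ℂ (fderiv ℂ F) (x, t) (v, 0) (0, 1) := by
      have := ((ContinuousLinearMap.apply ℂ ℂ ((0, 1) : E × ℂ)).hasFDerivAt.comp (x, t)
        hd.hasFDerivAt).fderiv
      have h3 : (fun p => fderiv ℂ F p (0, 1)) =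
        (ContinuousLinearMap.apply ℂ ℂ ((0, 1) : E × ℂ)) ∘ fderiv ℂ F := rfl
      rw [h3, this]
      simp
    have e2 : deriv (fun t => fderiv ℂ F (x, t) (v, 0)) t =
        fderiv ℂ (fderiv ℂ F) (x, t) (0, 1) (v, 0) := by
      have := ((ContinuousLinearMap.apply ℂ ℂ ((v, 0) : E × ℂ)).hasFDerivAt.comp_hasDerivAt t
        (hasDerivAt_snd hd)).deriv
      exact this
    rw [e1, e2, hs.eq]

end comm

lemma diff_iter {f : ℂ → ℂ} (hf : Differentiable ℂ f) (k : ℕ) :
    Differentiable ℂ (iteratedDeriv k f) := by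
  induction k with
  | zero => simpa using hf
  | succ k ih =>
    rw [iteratedDeriv_succ]
    exact fun z => (ih.analyticAt z).deriv.differentiableAt

lemma iter_mul {f : ℂ → ℂ} (hf : Differentiable ℂ f) (j : ℕ) :
    iteratedDeriv j (fun t => t * deriv f t) =
      fun t => t * iteratedDeriv (j + 1) f t + j * iteratedDeriv j f t := by
  induction j with
  | zero =>
    funext t
    simp
  | succ j ih =>
    rw [iteratedDeriv_succ, ih]
    funext t
    have h1 := ((hasDerivAt_id t).mul (diff_iter hf (j + 1) t).hasDerivAt).add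
      ((diff_iter hf j t).hasDerivAt.const_mul (j : ℂ))
    have h2 : (fun t => t * iteratedDeriv (j + 1) f t + j * iteratedDeriv j f t) =
      (id * iteratedDeriv (j + 1) f) + fun y => (j : ℂ) * iteratedDeriv j f y := rfl
    rw [h2, h1.deriv, ← iteratedDeriv_succ, ← iteratedDeriv_succ]
    simp only [id, Nat.cast_add, Nat.cast_one]
    ring

/-- comparison of Taylor coefficients -/
lemma taylor_eq {A f : ℂ → ℂ} (hA : Differentiable ℂ A) (hf : Differentiable ℂ f) {a l : ℂ}
    (h : ∀ j : ℕ, iteratedDeriv j A 0 = (a + j * l) * iteratedDeriv j f 0) (z : ℂ) :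
    A z = a * f z + l * (z * deriv f z) := by
  have hg : Differentiable ℂ (fun t => t * deriv f t) :=
    differentiable_id.mul (fun z => (hf.analyticAt z).deriv.differentiableAt)
  have s1 := hasSum_taylorSeries_of_entire hA 0 z
  have s2 := (hasSum_taylorSeries_of_entire hf 0 z).mul_left a
  have s3 := (hasSum_taylorSeries_of_entire hg 0 z).mul_left l
  refine s1.unique ?_
  have s4 := s2.add s3
  have e : (fun n : ℕ => ((n.factorial : ℂ))⁻¹ • (z - 0) ^ n • iteratedDeriv n A 0) =
      fun n : ℕ => a * (((n.factorial : ℂ))⁻¹ • (z - 0) ^ n • iteratedDeriv n f 0) +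
        l * (((n.factorial : ℂ))⁻¹ • (z - 0) ^ n • iteratedDeriv n (fun t => t * deriv f t) 0) := by
    funext n
    rw [h n, iter_mul hf n]
    simp only [smul_eq_mul]
    ring
  rw [e]
  exact s4

/-- an entire function which vanishes on the lines through the points with natural coordinates -/
lemma zero_of_lines {g : ℕ} {G : (Fin g → ℂ) → ℂ} (hG : Differentiable ℂ G)
    (h : ∀ (w : Fin g → ℕ) (t : ℂ), G (t • fun k => (w k : ℂ)) = 0) (x : Fin g → ℂ) : G x = 0 := by
  classical
  have key : ∀ S : Finset (Fin g), ∀ x : Fin g → ℂ,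
      (∀ i, i ∉ S → ∃ n : ℕ, x i = 1 / ((n : ℂ) + 1)) → G x = 0 := by
    intro S
    induction S using Finset.induction_on with
    | empty =>
      intro x hx
      choose n hn using fun i => hx i (Finset.notMem_empty i)
      have hne : ∀ i, ((n i : ℂ) + 1) ≠ 0 := fun i => Nat.cast_add_one_ne_zero _
      have := h (fun i => ∏ k ∈ Finset.univ.erase i, (n k + 1)) (∏ k, ((n k : ℂ) + 1))⁻¹
      rw [← this]
      congr 1
      funext i
      rw [hn i, Pi.smul_apply, smul_eq_mul, ← Finset.mul_prod_erase _ _ (Finset.mem_univ i)]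
      have h2 : ∏ k ∈ Finset.univ.erase i, ((n k : ℂ) + 1) ≠ 0 :=
        Finset.prod_ne_zero_iff.mpr fun k _ => hne k
      push_cast
      have := hne i
      field_simp
    | insert k S hk ih =>
      intro x hx
      have hd : Differentiable ℂ fun z : ℂ => G (Function.update x k z) := by
        refine hG.comp ?_
        rw [differentiable_pi]
        intro i
        by_cases hi : i = k
        · subst hi
          simp
        · simp [Function.update_of_ne hi]
      have han : AnalyticOnNhd ℂ (fun z : ℂ => G (Function.update x k z)) univ :=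
        fun z _ => hd.analyticAt z
      have hz : ∀ n : ℕ, G (Function.update x k (1 / ((n : ℂ) + 1))) = 0 := by
        intro n
        apply ih
        intro i hi
        by_cases hik : i = k
        · subst hik
          exact ⟨n, by simp⟩
        · rw [Function.update_of_ne hik]
          exact hx i (by simp [hik, hi])
      have ht : Tendsto (fun n : ℕ => 1 / ((n : ℂ) + 1)) atTop (𝓝[≠] 0) := by
        rw [tendsto_nhdsWithin_iff]
        refine ⟨tendsto_one_div_add_atTop_nhds_zero_nat, Eventually.of_forall fun n => ?_⟩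
        exact one_div_ne_zero (Nat.cast_add_one_ne_zero n)
      have hfr : ∃ᶠ z in 𝓝[≠] (0 : ℂ), G (Function.update x k z) = 0 :=
        ht.frequently (Frequently.of_forall hz)
      have := han.eqOn_zero_of_preconnected_of_frequently_eq_zero isPreconnected_univ
        (mem_univ 0) hfr (mem_univ (x k))
      simpa using this
  exact key Finset.univ x fun i hi => absurd (Finset.mem_univ i) hi

end Pool.Agent.Lib.MP_caab05_ag.GB.TorAux
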