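import Mathlib
import Pool.Agent.Lib.MP_caab05_ag.GB.Stmt
import Pool.Agent.Lib.MP_caab05_ag.GB.Tor1

/-! The infinitesimal Torelli theorem for the jets of the theta functions. -/

namespace Pool.Agent.Lib.MP_caab05_ag.GB

open Filter Topology Complex Matrix Set

namespace TorAux

variable {g : ℕ}

lemma app_apply (M : Mat g) (x : V g) (i : Fin g) : app M x i = ∑ k, M i k * x k := rfl

/-- `M ↦ M w` as a continuous linear map -/
noncomputable def appL (w : V g) : Mat g →L[ℂ] V g :=
  LinearMap.toContinuousLinearMap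
    { toFun := fun M => app M w
      map_add' := fun M N => by
        funext i
        simp [app_apply, add_mul, Finset.sum_add_distrib]
      map_smul' := fun c M => by
        funext i
        simp [app_apply, Finset.mul_sum, mul_assoc] }

lemma appL_apply (w : V g) (M : Mat g) : appL w M = app M w := rfl

/-- `w ↦ M w` as a continuous linear map -/
noncomputable def appR (M : Mat g) : V g →L[ℂ] V g :=
  LinearMap.toContinuousLinearMap (Matrix.mulVecLin (Matrix.of M))

lemma appR_apply (M : Mat g) (w : V g) : appR M w = app M w := rfl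

lemma th_diffAt (h2 : HolS) {τ : Mat g} (hτ : Pos τ) (u : V g) :
    DifferentiableAt ℂ (fun q : Mat g × V g => th q.1 q.2) (τ, u) := by
  have ho : IsOpen {q : Mat g × V g | Pos q.1} := (h2 g).1.preimage continuous_fst
  exact (h2 g).2.differentiableAt (ho.mem_nhds hτ)

/-- derivative of a theta function along a section -/
lemma dth (h2 : HolS) {τ : Mat g} (hτ : Pos τ) {c : Mat g → V g} (hc : DifferentiableAt ℂ c τ)
    (a : Ix g) : DifferentiableAt ℂ (fun σ => th σ (c σ) a) τ ∧ ∀ K,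
      fderiv ℂ (fun σ => th σ (c σ) a) τ K =
        dK τ K (c τ) a + du τ (c τ) (fderiv ℂ c τ K) a := by
  have hd := th_diffAt h2 hτ (c τ)
  have h1 : HasFDerivAt (fun σ => (σ, c σ))
      ((ContinuousLinearMap.id ℂ (Mat g)).prod (fderiv ℂ c τ)) τ :=
    (hasFDerivAt_id τ).prodMk hc.hasFDerivAt
  have h3 := hd.hasFDerivAt.comp τ h1
  have h4 := (ContinuousLinearMap.proj (R := ℂ) (φ := fun _ : Ix g => ℂ) a).hasFDerivAt.comp τ h3
  have h5 : (fun σ => th σ (c σ) a) =
      (ContinuousLinearMap.proj (R := ℂ) (φ := fun _ : Ix g => ℂ) a) ∘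
        ((fun q : Mat g × V g => th q.1 q.2) ∘ fun σ => (σ, c σ)) := rfl
  refine ⟨h4.differentiableAt, fun K => ?_⟩
  have e1 : dK τ K (c τ) = fderiv ℂ (fun q : Mat g × V g => th q.1 q.2) (τ, c τ) (K, 0) :=
    fderiv_fst' hd K
  have e2 : du τ (c τ) (fderiv ℂ c τ K) =
      fderiv ℂ (fun q : Mat g × V g => th q.1 q.2) (τ, c τ) (0, fderiv ℂ c τ K) :=
    fderiv_snd' hd _
  rw [h5, h4.fderiv, e1, e2, ← Pi.add_apply, ← map_add]
  simp

lemma du_line (h4 : LawS) {τ : Mat g} (hτ : Sg τ) (y : V g) (t : ℂ) (a : Ix g) :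
    HasDerivAt (fun s : ℂ => th τ (s • y) a) (du τ (t • y) y a) t := by
  have h1 : HasDerivAt (fun s : ℂ => s • y) y t := by
    simpa using (hasDerivAt_id t).smul_const y
  have h3 := ((h4.holu g τ hτ).1 (t • y)).hasFDerivAt.comp_hasDerivAt t h1
  exact (ContinuousLinearMap.proj (R := ℂ) (φ := fun _ : Ix g => ℂ) a).hasFDerivAt.comp_hasDerivAt
    t h3

lemma Jm_diff (h6 : XHolS) (s : Fin g → Ix g × Ix g) (k j : Fin g) :
    DifferentiableOn ℂ (fun σ : Mat g => Jm σ s k j) {σ | Pos σ} := by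
  have h0 : DifferentiableOn ℂ (fun σ : Mat g => ((σ, Pi.single j 1) : Mat g × V g))
      {σ | Pos σ} := differentiableOn_id.prodMk (differentiableOn_const _)
  have h1 := (h6.holom g).comp h0 fun σ hσ => hσ
  exact differentiableOn_pi.mp h1 (s k)

lemma det_diff {U : Set (Mat g)} {A : Mat g → Matrix (Fin g) (Fin g) ℂ}
    (h : ∀ k j, DifferentiableOn ℂ (fun σ => A σ k j) U) :
    DifferentiableOn ℂ (fun σ => (A σ).det) U := by
  simp only [Matrix.det_apply']
  refine DifferentiableOn.fun_sum fun π _ => (differentiableOn_const _).fun_mul ?_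
  intro x hx
  exact (HasFDerivWithinAt.finsetProd (u := Finset.univ) (g := fun i σ => A σ (π i) i)
    fun i _ => (h (π i) i x hx).hasFDerivWithinAt).differentiableWithinAt

/-- the adjugate matrix as a function of the period matrix -/
noncomputable def bb (s : Fin g → Ix g × Ix g) (σ : Mat g) : Mat g :=
  fun i j => (Jm σ s).adjugate i j

lemma bb_diff (h6 : XHolS) (s : Fin g → Ix g × Ix g) :
    DifferentiableOn ℂ (bb s) {σ | Pos σ} := by
  refine differentiableOn_pi.mpr fun i => differentiableOn_pi.mpr fun j => ?_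
  simp only [bb, Matrix.adjugate_apply]
  refine det_diff fun k l => ?_
  by_cases hk : k = j
  · subst hk
    simp only [Matrix.updateRow_self]
    exact differentiableOn_const _
  · simp only [Matrix.updateRow_ne hk]
    exact Jm_diff h6 s k l

/-- the function whose jets are taken -/
noncomputable def FF (s : Fin g → Ix g × Ix g) (ab : Ix g × Ix g) (w : V g) (p : Mat g × ℂ) : ℂ :=
  Xi p.1 ab (p.2 • app (bb s p.1) w)

lemma FF_an (h0 : OsgS) (h2 : HolS) (h6 : XHolS) (s : Fin g → Ix g × Ix g) (ab : Ix g × Ix g)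
    (w : V g) : AnalyticOnNhd ℂ (FF s ab w) ({σ | Pos σ} ×ˢ univ) := by
  refine h0 _ _ _ _ ((h2 g).1.prod isOpen_univ) ?_
  have hb : DifferentiableOn ℂ (fun p : Mat g × ℂ => p.2 • app (bb s p.1) w)
      ({σ | Pos σ} ×ˢ univ) := by
    refine differentiableOn_snd.fun_smul ?_
    exact (appL w).differentiable.comp_differentiableOn
      ((bb_diff h6 s).comp differentiableOn_fst fun p hp => hp.1)
  have key : ∀ (c : Mat g × ℂ → V g) (a : Ix g), DifferentiableOn ℂ c ({σ | Pos σ} ×ˢ univ) →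
      DifferentiableOn ℂ (fun p : Mat g × ℂ => th p.1 (c p) a) ({σ | Pos σ} ×ˢ univ) := by
    intro c a hc
    have h0 : DifferentiableOn ℂ (fun p : Mat g × ℂ => ((p.1, c p) : Mat g × V g))
        ({σ | Pos σ} ×ˢ univ) := differentiableOn_fst.prodMk hc
    have h1 := (h2 g).2.comp h0 fun p hp => hp.1
    exact differentiableOn_pi.mp h1 a
  exact (key _ ab.1 hb).fun_mul (key _ ab.2 (hb.fun_const_smul I))

/-- the jets -/
noncomputable def YY (s : Fin g → Ix g × Ix g) (j : ℕ) (ab : Ix g × Ix g) (w : Fin g → ℕ)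
    (σ : Mat g) : ℂ :=
  iteratedDeriv j (fun t => FF s ab (fun k => (w k : ℂ)) (σ, t)) 0

lemma HH_add (p : Zg g) (X Y : Ix g → ℂ) : HH p (X + Y) = HH p X + HH p Y := by
  funext a
  simp [HH, mul_add]

lemma HH_smul (p : Zg g) (c : ℂ) (X : Ix g → ℂ) : HH p (c • X) = c • HH p X := by
  funext a
  simp only [HH, Pi.smul_apply, smul_eq_mul]
  ring

/-- the last step: a trivial deformation -/
lemma final (h4 : LawS) (h5 : GeoS) {τ K : Mat g} (hτ : Sg τ) (hK : ∀ i j, K i j = K j i)
    (M : V g →L[ℂ] V g) (h : ∀ u, ∃ c : ℂ, dK τ K u + du τ u (M u) = c • th τ u) : K = 0 := by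
  have key : ∀ p : Zg g, M (tor τ p) = (1 / 4 : ℂ) • app K (lft (cst p)) := by
    intro p
    obtain ⟨r, hr⟩ := h4.lawK g τ K hτ hK p
    obtain ⟨c, hc⟩ := h (0 + tor τ p)
    obtain ⟨c0, hc0⟩ := h 0
    rw [hr 0, h4.lawu g τ hτ p 0, h4.law g τ hτ p 0, ← smul_add, ← HH_add, smul_comm c,
      ← HH_smul p c] at hc
    have he : ee τ p 0 ≠ 0 := Complex.exp_ne_zero _
    have h1 := h4.HH_inj g p _ _ (smul_right_injective _ he hc)
    rw [map_zero] at hc0
    have hz : du τ 0 (0 : V g) = 0 := map_zero _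
    rw [hz, add_zero] at hc0
    rw [hc0, zero_add] at h1
    have h3 : du τ 0 (M (tor τ p) - (1 / 4 : ℂ) • app K (lft (cst p))) =
        (c - c0 - r + 2 * Real.pi * I * (lft (cst p) ⬝ᵥ M (tor τ p))) • th τ 0 := by
      have h4 : du τ 0 (M (tor τ p) - (1 / 4 : ℂ) • app K (lft (cst p))) =
          du τ 0 (M (tor τ p)) - du τ 0 ((1 / 4 : ℂ) • app K (lft (cst p))) := map_sub _ _ _
      rw [h4]
      funext a
      have := congrFun h1 a
      simp only [Pi.add_apply, Pi.sub_apply, Pi.smul_apply, smul_eq_mul] at this ⊢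
      linear_combination this
    exact sub_eq_zero.mp (h5.imm g τ hτ 0 _ _ h3)
  have hM : ∀ i, M (Pi.single i 1) = 0 := by
    intro i
    have h1 := key (Sum.elim 0 (Pi.single i 1))
    have e1 : lft (cst (Sum.elim 0 (Pi.single i 1) : Zg g)) = 0 := by
      funext k
      simp [lft, cst]
    have e2 : rgt (cst (Sum.elim 0 (Pi.single i 1) : Zg g)) = Pi.single i 1 := by
      funext k
      by_cases hk : k = i
      · subst hk
        simp [rgt, cst]
      · simp [rgt, cst, Pi.single_eq_of_ne hk]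
    have e3 : ∀ N : Mat g, app N 0 = 0 := fun N => Matrix.mulVec_zero _
    rw [tor, per, e1, e2, e3, e3, zero_add, smul_zero, map_smul] at h1
    exact (smul_eq_zero.mp h1).resolve_left (by norm_num)
  have hM0 : ∀ x, M x = 0 := by
    intro x
    rw [pi_eq_sum_univ' x, map_sum]
    refine Finset.sum_eq_zero fun i _ => ?_
    rw [map_smul, hM i, smul_zero]
  funext i j
  have h1 := key (Sum.elim (Pi.single j 1) 0)
  have e1 : lft (cst (Sum.elim (Pi.single j 1) 0 : Zg g)) = Pi.single j 1 := by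
    funext k
    by_cases hk : k = j
    · subst hk
      simp [lft, cst]
    · simp [lft, cst, Pi.single_eq_of_ne hk]
  rw [hM0, e1] at h1
  have h3 := congrFun ((smul_eq_zero.mp h1.symm).resolve_left (by norm_num)) i
  simpa [app] using h3

/-- a deformation which rescales all jets is trivial -/
lemma vanish (h0 : OsgS) (h2 : HolS) (h4 : LawS) (h5 : GeoS) (h6 : XHolS) {τ K : Mat g}
    (hτ : Sg τ) (hK : ∀ i j, K i j = K j i) {s : Fin g → Ix g × Ix g} (hs : (Jm τ s).det ≠ 0)
    {α l : ℂ}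
    (h : ∀ j ab w, fderiv ℂ (YY s j ab w) τ K = (2 * α + j * l) * YY s j ab w τ) : K = 0 := by
  have hU := (h2 g).1
  have hb : DifferentiableAt ℂ (bb s) τ := (bb_diff h6 s).differentiableAt (hU.mem_nhds hτ.2)
  have hth := (h4.holu g τ hτ).1
  have hdu := (h4.holu g τ hτ).2
  have hdK := h4.holK g τ K hτ
  let B : V g →L[ℂ] V g := appR (bb s τ)
  let B' : V g →L[ℂ] V g := (Jm τ s).det⁻¹ • appR (fun i j => Jm τ s i j)
  have hBB : ∀ u, B (B' u) = u := by
    intro u
    have : B (B' u) = (Jm τ s).det⁻¹ • ((Jm τ s).adjugate *ᵥ (Jm τ s *ᵥ u)) := by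
      simp only [B', _root_.smul_apply, map_smul]
      rfl
    rw [this, Matrix.mulVec_mulVec, Matrix.adjugate_mul, Matrix.smul_mulVec, Matrix.one_mulVec,
      smul_smul, inv_mul_cancel₀ hs, one_smul]
  let N : V g →L[ℂ] V g := appR (fderiv ℂ (bb s) τ K) - l • B
  let ψ : V g → Ix g → ℂ := fun x => dK τ K (B x) + du τ (B x) (N x) - α • th τ (B x)
  have hψ : Differentiable ℂ ψ := by
    refine ((hdK.comp B.differentiable).add ?_).sub ((hth.comp B.differentiable).const_smul α)
    exact hdu.comp (B.differentiable.prodMk N.differentiable)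
  have hG : ∀ (ab : Ix g × Ix g) (x : V g),
      ψ x ab.1 * th τ (B (I • x)) ab.2 + th τ (B x) ab.1 * ψ (I • x) ab.2 = 0 := by
    intro ab
    apply zero_of_lines
    · have hI : Differentiable ℂ fun x : V g => I • x := differentiable_id.const_smul I
      refine ((differentiable_pi.mp hψ ab.1).fun_mul
        (differentiable_pi.mp (hth.comp (B.differentiable.comp hI)) ab.2)).fun_add
        ((differentiable_pi.mp (hth.comp B.differentiable) ab.1).fun_mul
        (differentiable_pi.mp (hψ.comp hI) ab.2))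
    intro w t
    set w' : V g := fun k => (w k : ℂ) with hw'
    have han := FF_an h0 h2 h6 s ab w'
    have hA : Differentiable ℂ fun t => fderiv ℂ (FF s ab w') (τ, t) (K, 0) := by
      intro z
      have h1 := (han.fderiv (τ, z) ⟨hτ.2, trivial⟩).differentiableAt
      exact ((ContinuousLinearMap.apply ℂ ℂ ((K, 0) : Mat g × ℂ)).differentiableAt).comp z
        (hasDerivAt_snd h1).differentiableAt
    have hf : Differentiable ℂ fun t => FF s ab w' (τ, t) := fun z =>
      (hasDerivAt_snd (han (τ, z) ⟨hτ.2, trivial⟩).differentiableAt).differentiableAt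
    have h1 := taylor_eq hA hf (a := 2 * α) (l := l) (fun j => by
      rw [← (comm hU j _ han τ hτ.2).2 K]
      exact h j ab w) t
    -- the derivative in the period matrix
    have hc : HasFDerivAt (fun σ => t • app (bb s σ) w')
        (t • (appL w').comp (fderiv ℂ (bb s) τ)) τ :=
      ((appL w').hasFDerivAt.comp τ hb.hasFDerivAt).const_smul t
    have hc' : HasFDerivAt (fun σ => I • t • app (bb s σ) w')
        (I • t • (appL w').comp (fderiv ℂ (bb s) τ)) τ := hc.const_smul I
    obtain ⟨d1, e1⟩ := dth h2 hτ.2 hc.differentiableAt ab.1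
    obtain ⟨d2, e2⟩ := dth h2 hτ.2 hc'.differentiableAt ab.2
    have e3 : fderiv ℂ (FF s ab w') (τ, t) (K, 0) =
        th τ (t • app (bb s τ) w') ab.1 *
          fderiv ℂ (fun σ => th σ (I • t • app (bb s σ) w') ab.2) τ K +
        th τ (I • t • app (bb s τ) w') ab.2 *
          fderiv ℂ (fun σ => th σ (t • app (bb s σ) w') ab.1) τ K := by
      rw [← fderiv_fst' (han (τ, t) ⟨hτ.2, trivial⟩).differentiableAt K]
      have := fderiv_fun_mul d1 d2
      have h3 : (fun σ => FF s ab w' (σ, t)) = fun σ => th σ (t • app (bb s σ) w') ab.1 *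
        th σ (I • t • app (bb s σ) w') ab.2 := rfl
      rw [h3, this]
      simp
    rw [e1 K, e2 K, hc.fderiv, hc'.fderiv] at e3
    -- the derivative along the line
    have e4 : deriv (fun t => FF s ab w' (τ, t)) t =
        du τ (t • app (bb s τ) w') (app (bb s τ) w') ab.1 *
          th τ (t • I • app (bb s τ) w') ab.2 + th τ (t • app (bb s τ) w') ab.1 *
          du τ (t • I • app (bb s τ) w') (I • app (bb s τ) w') ab.2 := by
      have h3 : (fun t => FF s ab w' (τ, t)) = fun t : ℂ => th τ (t • app (bb s τ) w') ab.1 *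
          th τ (t • I • app (bb s τ) w') ab.2 := by
        funext z
        rw [smul_comm z I]
        rfl
      rw [h3]
      exact ((du_line h4 hτ _ t ab.1).fun_mul (du_line h4 hτ _ t ab.2)).deriv
    rw [smul_comm t I] at e4
    rw [e3, e4] at h1
    have b1 : B (t • w') = t • app (bb s τ) w' := map_smul B t w'
    have b2 : B (I • t • w') = I • t • app (bb s τ) w' := by rw [map_smul, b1]
    have n1 : ∀ u : V g, du τ u (N (t • w')) = du τ u (t • app (fderiv ℂ (bb s) τ K) w') -
        (l * t) • du τ u (app (bb s τ) w') := by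
      intro u
      have : N (t • w') = t • app (fderiv ℂ (bb s) τ K) w' - (l * t) • app (bb s τ) w' := by
        simp only [N, B, _root_.sub_apply, _root_.smul_apply, map_smul, smul_smul, appR_apply,
          smul_sub, mul_comm]
      rw [this]
      simp only [du, map_sub, map_smul]
    have n2 : ∀ u : V g, du τ u (N (I • t • w')) =
        du τ u (I • t • app (fderiv ℂ (bb s) τ K) w') -
        (l * t) • du τ u (I • app (bb s τ) w') := by
      intro u
      have h3 : du τ u (N (I • t • w')) = I • du τ u (N (t • w')) := by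
        simp only [du, map_smul]
      rw [h3, n1]
      simp only [du, map_smul, smul_sub, smul_smul, mul_comm]
    simp only [ψ, b1, b2, n1, n2, Pi.add_apply, Pi.sub_apply, Pi.smul_apply, smul_eq_mul]
    simp only [_root_.smul_apply, ContinuousLinearMap.comp_apply, appL_apply, FF,
      Xi] at h1
    linear_combination h1
  refine final h4 h5 hτ hK (N.comp B') fun u => ?_
  obtain ⟨b, hb⟩ := Function.ne_iff.mp (h5.nz g τ hτ (B (I • B' u)))
  refine ⟨α - ψ (I • B' u) b / th τ (B (I • B' u)) b, ?_⟩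
  funext a
  have h1 := hG (a, b) (B' u)
  have hb' : th τ (B (I • B' u)) b ≠ 0 := hb
  have h3 : ψ (B' u) a = dK τ K u a + du τ u (N (B' u)) a - α * th τ u a := by
    simp only [ψ, hBB, Pi.add_apply, Pi.sub_apply, Pi.smul_apply, smul_eq_mul]
  rw [h3, hBB] at h1
  simp only [Pi.add_apply, Pi.smul_apply, smul_eq_mul, ContinuousLinearMap.comp_apply]
  field_simp
  linear_combination h1

lemma exists_s (h6 : XHolS) {τ : Mat g} (hτ : Sg τ) : ∃ s, (Jm τ s).det ≠ 0 := by
  let L : V g →ₗ[ℂ] (Ix g × Ix g → ℂ) :=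
    { toFun := fun w => om τ w
      map_add' := fun x y => by
        funext s
        simp only [om, du, map_add, Pi.add_apply]
        ring
      map_smul' := fun c x => h6.om_smul g τ c x }
  have hL : LinearMap.ker L = ⊥ := LinearMap.ker_eq_bot'.mpr fun w hw => h6.neom g τ w hτ hw
  have hli : LinearIndependent ℂ fun j : Fin g => om τ (Pi.single j 1) := by
    have := (Pi.basisFun ℂ (Fin g)).linearIndependent.map' L hL
    have e : (L ∘ Pi.basisFun ℂ (Fin g)) = fun j : Fin g => om τ (Pi.single j 1) := by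
      funext j
      simp [L]
    rwa [e] at this
  obtain ⟨s, hs⟩ := exists_minor hli
  refine ⟨s, ?_⟩
  rw [← Matrix.det_transpose]
  exact hs

lemma fderiv_prod {Y θ n : Mat g → ℂ} {τ : Mat g} (hY : DifferentiableAt ℂ Y τ)
    (hθ : DifferentiableAt ℂ θ τ) (hn : DifferentiableAt ℂ n τ) (h1 : θ τ ≠ 0) (h2 : n τ ≠ 0)
    (k m : ℕ) (K : Mat g) :
    fderiv ℂ (fun σ => Y σ * θ σ ^ k * n σ ^ m) τ K =
      (fderiv ℂ Y τ K + (k * ((θ τ)⁻¹ * fderiv ℂ θ τ K) + m * ((n τ)⁻¹ * fderiv ℂ n τ K)) * Y τ) *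
        (θ τ ^ k * n τ ^ m) := by
  have pw : ∀ {f : Mat g → ℂ}, DifferentiableAt ℂ f τ → f τ ≠ 0 → ∀ k : ℕ,
      fderiv ℂ (fun σ => f σ ^ k) τ K = k * ((f τ)⁻¹ * fderiv ℂ f τ K) * f τ ^ k := by
    intro f hf hne k
    induction k with
    | zero => simp
    | succ k ih =>
      have e : (fun σ => f σ ^ (k + 1)) = fun σ => f σ ^ k * f σ := by
        funext σ
        rw [pow_succ]
      rw [e, fderiv_fun_mul (hf.fun_pow k) hf]
      simp only [_root_.add_apply, _root_.smul_apply, smul_eq_mul, ih]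
      push_cast
      field_simp
      ring
  rw [fderiv_fun_mul (hY.fun_mul (hθ.fun_pow k)) (hn.fun_pow m),
    fderiv_fun_mul hY (hθ.fun_pow k)]
  simp only [_root_.add_apply, _root_.smul_apply, smul_eq_mul,
    pw hθ h1, pw hn h2]
  ring

end TorAux

open TorAux in
theorem tor' (h0 : OsgS) (h2 : HolS) (h4 : LawS) (h5 : GeoS) (h6 : XHolS) : TorS := by
  intro g τ hτ
  have hU := (h2 g).1
  obtain ⟨s, hs⟩ := exists_s h6 hτ
  obtain ⟨a0, ha0⟩ := Function.ne_iff.mp (h5.nz g τ hτ 0)
  have ha0' : th τ 0 a0 ≠ 0 := ha0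
  have hθ : DifferentiableAt ℂ (fun σ : Mat g => th σ 0 a0) τ :=
    (dth h2 hτ.2 (differentiableAt_const (0 : V g)) a0).1
  have hn : DifferentiableAt ℂ (fun σ : Mat g => (Jm σ s).det) τ :=
    (det_diff (Jm_diff h6 s)).differentiableAt (hU.mem_nhds hτ.2)
  have hY : ∀ j ab w, DifferentiableAt ℂ (YY s j ab w) τ := fun j ab w =>
    (comm hU j _ (FF_an h0 h2 h6 s ab _) τ hτ.2).1
  let α : Mat g →L[ℂ] ℂ := (th τ 0 a0)⁻¹ • fderiv ℂ (fun σ : Mat g => th σ 0 a0) τ
  let ν : Mat g →L[ℂ] ℂ := (Jm τ s).det⁻¹ • fderiv ℂ (fun σ : Mat g => (Jm σ s).det) τ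
  let L : ℕ → Ix g × Ix g → (Fin g → ℕ) → Mat g →L[ℂ] ℂ := fun j ab w =>
    fderiv ℂ (YY s j ab w) τ - YY s j ab w τ • ((2 : ℂ) • α + (j : ℂ) • (ν - (2 : ℂ) • α))
  have hL : ∀ j ab w K, L j ab w K = 0 ↔ fderiv ℂ (YY s j ab w) τ K =
      (2 * α K + j * (ν K - 2 * α K)) * YY s j ab w τ := by
    intro j ab w K
    simp only [L, _root_.sub_apply, _root_.add_apply,
      _root_.smul_apply, smul_eq_mul, sub_eq_zero, mul_comm (YY s j ab w τ)]
  let S : ℕ → Submodule ℂ (Mat g) := fun J =>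
    ⨅ (j : ℕ) (ab : Ix g × Ix g) (w : Fin g → ℕ) (_ : j ≤ J ∧ ∀ k, w k ≤ J),
      LinearMap.ker (L j ab w : Mat g →ₗ[ℂ] ℂ)
  have hS : ∀ J K, K ∈ S J ↔ ∀ j ab w, (j ≤ J ∧ ∀ k, w k ≤ J) → L j ab w K = 0 := by
    intro J K
    simp only [S, Submodule.mem_iInf, LinearMap.mem_ker, ContinuousLinearMap.coe_coe]
  have hanti : ∀ J J', J ≤ J' → S J' ≤ S J := by
    intro J J' hJ K hK
    rw [hS] at hK ⊢
    exact fun j ab w h => hK j ab w ⟨h.1.trans hJ, fun k => (h.2 k).trans hJ⟩
  obtain ⟨J, hJ⟩ := IsArtinian.monotone_stabilizes (R := ℂ) (M := Mat g)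
    ⟨fun J => OrderDual.toDual (S J), fun J J' h => hanti J J' h⟩
  refine ⟨J, fun K t hK ht => ?_⟩
  have hX : DifferentiableAt ℂ (fun σ : Mat g => Xc σ J) τ :=
    (h6.hol g J).differentiableAt (hU.mem_nhds hτ.2)
  have hcomp : ∀ j ab w, (j ≤ J ∧ ∀ k, w k ≤ J) → fderiv ℂ (YY s j ab w) τ K +
      (((2 * j : ℕ) : ℂ) * α K + ((J - j : ℕ) : ℂ) * ν K) * YY s j ab w τ = t * YY s j ab w τ := by
    intro j ab w h
    let q : Al g J := (⟨j, Nat.lt_succ_of_le h.1⟩, ab, s, fun k => ⟨w k, Nat.lt_succ_of_le (h.2 k)⟩,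
      a0)
    have e1 : ∀ σ, Xc σ J q = YY s j ab w σ * th σ 0 a0 ^ (2 * j) * (Jm σ s).det ^ (J - j) :=
      fun σ => rfl
    have e2 : fderiv ℂ (fun σ => Xc σ J q) τ K = fderiv ℂ (fun σ => Xc σ J) τ K q := by
      rw [fderiv_apply hX q]
      rfl
    rw [ht] at e2
    simp only [e1, Pi.smul_apply, smul_eq_mul] at e2
    rw [fderiv_prod (hY j ab w) hθ hn ha0' hs] at e2
    have hne : th τ 0 a0 ^ (2 * j) * (Jm τ s).det ^ (J - j) ≠ 0 :=
      mul_ne_zero (pow_ne_zero _ ha0') (pow_ne_zero _ hs)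
    apply mul_right_cancel₀ hne
    simp only [α, ν, _root_.smul_apply, smul_eq_mul]
    linear_combination e2
  have ht' : t = 2 * α K + J * ν K := by
    have h1 := hcomp 0 (a0, a0) 0 ⟨Nat.zero_le _, fun _ => Nat.zero_le _⟩
    have e : YY s 0 (a0, a0) 0 = fun σ => (1 : ℂ) * th σ 0 a0 ^ 2 * (Jm σ s).det ^ 0 := by
      funext σ
      simp [YY, FF, Xi, sq]
    rw [e, fderiv_prod (differentiableAt_const _) hθ hn ha0' hs] at h1
    apply mul_right_cancel₀ (pow_ne_zero 2 ha0')
    simp only [α, ν, _root_.smul_apply, smul_eq_mul]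
    simp only [α, ν, _root_.smul_apply, smul_eq_mul, fderiv_fun_const, Pi.zero_apply,
      _root_.zero_apply, Nat.sub_zero] at h1
    push_cast at h1
    linear_combination -h1
  have hKS : K ∈ S J := by
    rw [hS]
    intro j ab w h
    rw [hL]
    have h1 := hcomp j ab w h
    rw [Nat.cast_sub h.1, ht'] at h1
    push_cast at h1
    linear_combination h1
  refine vanish h0 h2 h4 h5 h6 hτ hK hs (α := α K) (l := ν K - 2 * α K) fun j ab w => ?_
  let J' := max J (max j (Finset.univ.sup w))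
  have h1 : S J = S J' := hJ J' (le_max_left _ _)
  rw [h1, hS] at hKS
  refine (hL j ab w K).mp (hKS j ab w ⟨le_max_of_le_right (le_max_left _ _), fun k => ?_⟩)
  exact le_max_of_le_right (le_max_of_le_right (Finset.le_sup (Finset.mem_univ k)))

end Pool.Agent.Lib.MP_caab05_ag.GB
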