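import Mathlib
import Pool.Agent.Lib.MP_caab05_ag.GB.Stmt

/-! The theta transformation formula for the congruence group of level eight. -/

namespace Pool.Agent.Lib.MP_caab05_ag.GB

open MvPolynomial Filter Topology Asymptotics Complex Matrix

namespace TransAux

variable {g : ℕ}

theorem lft_add (x y : W g) : lft (x + y) = lft x + lft y := rfl
theorem rgt_add (x y : W g) : rgt (x + y) = rgt x + rgt y := rfl
theorem lft_smul (c : ℂ) (x : W g) : lft (c • x) = c • lft x := rfl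
theorem rgt_smul (c : ℂ) (x : W g) : rgt (c • x) = c • rgt x := rfl

theorem app_add (M : Mat g) (x y : V g) : app M (x + y) = app M x + app M y :=
  Matrix.mulVec_add _ _ _

theorem app_smul (M : Mat g) (c : ℂ) (x : V g) : app M (c • x) = c • app M x :=
  Matrix.mulVec_smul _ _ _

/-- the period map as a linear map -/
noncomputable def perL (τ : Mat g) : W g →ₗ[ℂ] V g where
  toFun := per τ
  map_add' x y := by
    simp only [per, lft_add, rgt_add, app_add]
    abel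
  map_smul' c x := by
    simp only [per, lft_smul, rgt_smul, app_smul, RingHom.id_apply, smul_add]

/-- the symplectic form as a bilinear map -/
noncomputable def JL (g : ℕ) : W g →ₗ[ℂ] W g →ₗ[ℂ] ℂ :=
  LinearMap.mk₂ ℂ JJ
    (fun x y z => by simp only [JJ, lft_add, rgt_add, add_dotProduct]; ring)
    (fun c x y => by simp only [JJ, lft_smul, rgt_smul, smul_dotProduct, smul_eq_mul]; ring)
    (fun x y z => by simp only [JJ, lft_add, rgt_add, dotProduct_add]; ring)
    (fun c x y => by simp only [JJ, lft_smul, rgt_smul, dotProduct_smul, smul_eq_mul]; ring)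

theorem ext_cst {M : Type} [AddCommGroup M] [Module ℂ M] {f f' : W g →ₗ[ℂ] M}
    (h : ∀ p, f (cst p) = f' (cst p)) : f = f' := by
  refine (Pi.basisFun ℂ _).ext fun a => ?_
  have e : cst (Pi.single a 1) = Pi.basisFun ℂ (Fin g ⊕ Fin g) a := by
    funext b
    by_cases hb : b = a
    · subst hb; simp [cst]
    · simp [cst, hb]
  rw [← e]
  exact h _

theorem JJ_cst (p q : Zg g) : JJ (cst p) (cst q) = ((JJ p q : ℤ) : ℂ) := by
  simp [JJ, cst, lft, rgt, dotProduct]

/-- the complexified action -/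
noncomputable def rc (ρ : Matrix (Fin g ⊕ Fin g) (Fin g ⊕ Fin g) ℤ) : W g →ₗ[ℂ] W g :=
  Matrix.mulVecLin (ρ.map (Int.cast : ℤ → ℂ))

theorem rc_cst (ρ : Matrix (Fin g ⊕ Fin g) (Fin g ⊕ Fin g) ℤ) (p : Zg g) :
    rc ρ (cst p) = cst (ρ *ᵥ p) := by
  funext a
  simp [rc, cst, Matrix.mulVec, dotProduct]

theorem JJ_rc {ρ : Matrix (Fin g ⊕ Fin g) (Fin g ⊕ Fin g) ℤ}
    (h : ∀ p q : Zg g, JJ (ρ *ᵥ p) (ρ *ᵥ q) = JJ p q) (x y : W g) :
    JJ (rc ρ x) (rc ρ y) = JJ x y := by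
  have e : (JL g).compl₁₂ (rc ρ) (rc ρ) = JL g := by
    refine ext_cst fun p => ext_cst fun q => ?_
    show JJ (rc ρ (cst p)) (rc ρ (cst q)) = JJ (cst p) (cst q)
    rw [rc_cst, rc_cst, JJ_cst, JJ_cst, h]
  exact congrArg (fun f : W g →ₗ[ℂ] W g →ₗ[ℂ] ℂ => f x y) e

theorem per_rc {τ τ' j : Mat g} {ρ : Matrix (Fin g ⊕ Fin g) (Fin g ⊕ Fin g) ℤ}
    (h : ∀ p : Zg g, app j (per τ (cst p)) = per τ' (cst (ρ *ᵥ p))) (x : W g) :
    app j (per τ x) = per τ' (rc ρ x) := by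
  have e : (Matrix.mulVecLin (Matrix.of j)) ∘ₗ perL τ = perL τ' ∘ₗ rc ρ := by
    refine ext_cst fun p => ?_
    show app j (per τ (cst p)) = per τ' (rc ρ (cst p))
    rw [rc_cst, h]
  exact congrArg (fun f : W g →ₗ[ℂ] V g => f x) e

theorem dot_app_symm {τ : Mat g} (h : ∀ i j, τ i j = τ j i) (x y : V g) :
    x ⬝ᵥ app τ y = y ⬝ᵥ app τ x := by
  simp only [app, dotProduct, Matrix.mulVec, Matrix.of_apply, Finset.mul_sum]
  rw [Finset.sum_comm]
  refine Finset.sum_congr rfl fun i _ => Finset.sum_congr rfl fun k _ => ?_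
  rw [h k i]
  ring

theorem lft_per {τ : Mat g} (h : ∀ i j, τ i j = τ j i) (x y : W g) :
    lft x ⬝ᵥ per τ y - lft y ⬝ᵥ per τ x = JJ x y := by
  simp only [per, dotProduct_add, JJ]
  rw [dot_app_symm h (lft x), dotProduct_comm (rgt x)]
  ring

/-- the vector `(0, u)` -/
def emb (u : V g) : W g := Sum.elim 0 u

theorem lft_emb (u : V g) : lft (emb u) = 0 := rfl

theorem per_emb (τ : Mat g) (u : V g) : per τ (emb u) = u := by
  have e : rgt (emb u) = u := rfl
  rw [per, lft_emb, e, app, Matrix.mulVec_zero, zero_add]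

/-- the quadratic form in the exponent -/
noncomputable def qq (j : Mat g) (ρ : Matrix (Fin g ⊕ Fin g) (Fin g ⊕ Fin g) ℤ) : Mat g :=
  fun i k => -(4 * Real.pi * I) * ∑ l, (ρ (.inl l) (.inr i) : ℂ) * j l k

theorem dot_qq (j : Mat g) (ρ : Matrix (Fin g ⊕ Fin g) (Fin g ⊕ Fin g) ℤ) (u v : V g) :
    u ⬝ᵥ app (qq j ρ) v = -(4 * Real.pi * I) * (lft (rc ρ (emb u)) ⬝ᵥ app j v) := by
  simp only [app, dotProduct, Matrix.mulVec, Matrix.of_apply, qq, lft, rc, emb,
    Matrix.mulVecLin_apply, Matrix.map_apply, Fintype.sum_sum_type, Sum.elim_inl, Sum.elim_inr,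
    Pi.zero_apply, mul_zero, Finset.sum_const_zero, zero_add, Finset.mul_sum, Finset.sum_mul]
  rw [Finset.sum_comm]
  conv_rhs => rw [Finset.sum_comm]
  refine Finset.sum_congr rfl fun k _ => ?_
  rw [Finset.sum_comm]
  refine Finset.sum_congr rfl fun l _ => Finset.sum_congr rfl fun i _ => ?_
  ring

section

variable {τ τ' j : Mat g} {ρ : Matrix (Fin g ⊕ Fin g) (Fin g ⊕ Fin g) ℤ}

theorem A_symm (hτ : Sg τ) (hτ' : Sg τ')
    (h1 : ∀ p q : Zg g, JJ (ρ *ᵥ p) (ρ *ᵥ q) = JJ p q)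
    (h3 : ∀ p : Zg g, app j (per τ (cst p)) = per τ' (cst (ρ *ᵥ p))) (x y : W g) :
    lft (rc ρ x) ⬝ᵥ app j (per τ y) - lft x ⬝ᵥ per τ y =
      lft (rc ρ y) ⬝ᵥ app j (per τ x) - lft y ⬝ᵥ per τ x := by
  rw [per_rc h3, per_rc h3]
  have e1 := lft_per hτ.1 x y
  have e2 := lft_per hτ'.1 (rc ρ x) (rc ρ y)
  have e3 := JJ_rc h1 x y
  linear_combination e2 - e1 + e3

theorem qq_left (hτ : Sg τ) (hτ' : Sg τ')
    (h1 : ∀ p q : Zg g, JJ (ρ *ᵥ p) (ρ *ᵥ q) = JJ p q)
    (h3 : ∀ p : Zg g, app j (per τ (cst p)) = per τ' (cst (ρ *ᵥ p))) (u : V g) (x : W g) :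
    u ⬝ᵥ app (qq j ρ) (per τ x) =
      -(4 * Real.pi * I) * (lft (rc ρ x) ⬝ᵥ app j u - lft x ⬝ᵥ u) := by
  have e := A_symm hτ hτ' h1 h3 (emb u) x
  rw [per_emb, lft_emb, zero_dotProduct, sub_zero] at e
  rw [dot_qq, e]

theorem qq_symm (hτ : Sg τ) (hτ' : Sg τ')
    (h1 : ∀ p q : Zg g, JJ (ρ *ᵥ p) (ρ *ᵥ q) = JJ p q)
    (h3 : ∀ p : Zg g, app j (per τ (cst p)) = per τ' (cst (ρ *ᵥ p))) (u v : V g) :
    u ⬝ᵥ app (qq j ρ) v = v ⬝ᵥ app (qq j ρ) u := by
  have e := qq_left hτ hτ' h1 h3 u (emb v)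
  rw [per_emb, lft_emb, zero_dotProduct, sub_zero] at e
  rw [e, dot_qq]

end

theorem HH_congr {p p' : Zg g} (h : ∀ a, (8 : ℤ) ∣ p' a - p a) (X : Ix g → ℂ) :
    HH p' X = HH p X := by
  choose k hk using h
  have hp : ∀ a, p' a = p a + 8 * k a := fun a => by linarith [hk a]
  have e1 : sh p' = sh p := by
    funext i
    simp only [sh, hp]
    push_cast
    have : (8 : ZMod 4) = 0 := by decide
    rw [this, zero_mul, add_zero]
  have e2 : ∀ a, hh p' a = hh p a := by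
    intro a
    simp only [hh]
    rw [Complex.exp_eq_exp_iff_exists_int]
    refine ⟨∑ i, (k (.inl i) * p (.inr i) + (p' (.inl i) + 2 * ((a i).val : ℤ)) * k (.inr i)), ?_⟩
    push_cast
    rw [Finset.mul_sum, Finset.mul_sum, Finset.sum_mul, ← Finset.sum_add_distrib]
    refine Finset.sum_congr rfl fun i _ => ?_
    simp only [hp]
    push_cast
    ring
  funext a
  simp only [HH, e1, e2]

theorem ee_eq (τ : Mat g) (p : Zg g) (u : V g) :
    ee τ p u = cexp (-(2 * Real.pi * I) *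
      (lft (cst p) ⬝ᵥ u + lft (cst p) ⬝ᵥ per τ (cst p) / 8)) := by
  rw [ee]
  congr 2
  simp only [dotProduct, lft, cst, Finset.sum_div, ← Finset.sum_add_distrib]
  refine Finset.sum_congr rfl fun i _ => ?_
  ring

theorem diff_app (j : Mat g) : Differentiable ℂ (app j) :=
  (LinearMap.toContinuousLinearMap (Matrix.mulVecLin (Matrix.of j))).differentiable

theorem diff_quad (q : Mat g) : Differentiable ℂ fun u : V g => u ⬝ᵥ app q u := by
  simp only [dotProduct]
  refine Differentiable.fun_sum fun i _ => ?_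
  exact (differentiable_apply i).mul (differentiable_pi.1 (diff_app q) i)

end TransAux

open TransAux in
theorem trans (h2 : LawS) (h3 : UniqS) (h4 : GeoS) : TransS := by
  intro g τ τ' j ρ hτ hτ' hJ h8 hj
  have hd : Differentiable ℂ fun u : V g =>
      cexp (-(u ⬝ᵥ app (qq j ρ) u)) • th τ' (app j u) :=
    (diff_quad _).neg.cexp.smul ((h2.holu g τ' hτ').1.comp (diff_app j))
  obtain ⟨κ, hκ⟩ := h3.uniq g τ hτ _ hd (by
    intro p u
    have e1 : app j (u + tor τ p) = app j u + tor τ' (ρ *ᵥ p) := by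
      rw [app_add, tor, app_smul, hj, tor]
    have e2 : HH (ρ *ᵥ p) (th τ' (app j u)) = HH p (th τ' (app j u)) := by
      refine HH_congr (fun a => ?_) _
      have e : (ρ *ᵥ p) a - p a = ((ρ - 1) *ᵥ p) a := by
        rw [Matrix.sub_mulVec, Matrix.one_mulVec]
        rfl
      rw [e, Matrix.mulVec, dotProduct]
      exact Finset.dvd_sum fun b _ => (h8 a b).mul_right _
    have e3 : cexp (-((u + tor τ p) ⬝ᵥ app (qq j ρ) (u + tor τ p))) * ee τ' (ρ *ᵥ p) (app j u) =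
        ee τ p u * cexp (-(u ⬝ᵥ app (qq j ρ) u)) := by
      rw [ee_eq, ee_eq, ← Complex.exp_add, ← Complex.exp_add]
      congr 1
      have a1 := qq_left hτ hτ' hJ hj u (cst p)
      have a2 := qq_left hτ hτ' hJ hj (per τ (cst p)) (cst p)
      have a3 := qq_symm hτ hτ' hJ hj (per τ (cst p)) u
      rw [rc_cst] at a1 a2
      rw [hj] at a2
      simp only [tor, app_add, app_smul, add_dotProduct, dotProduct_add, smul_dotProduct,
        dotProduct_smul, smul_eq_mul]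
      rw [a3, a1, a2]
      ring
    rw [e1, h2.law g τ' hτ', e2, smul_smul, e3]
    funext a
    simp only [HH, Pi.smul_apply, smul_eq_mul]
    ring)
  refine ⟨κ, qq j ρ, ?_, fun u => ?_⟩
  · rintro rfl
    have h0 := hκ 0
    rw [zero_smul, smul_eq_zero] at h0
    exact h0.elim (Complex.exp_ne_zero _) (h4.nz g τ' hτ' _)
  · rw [mul_comm, mul_smul, ← hκ u, smul_smul, ← Complex.exp_add, add_neg_cancel, Complex.exp_zero,
      one_smul]

end Pool.Agent.Lib.MP_caab05_ag.GB
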