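import Mathlib
import Pool.Agent.Lib.MP_caab05_ag.GB.Stmt

/-! The twisted addition formula. -/

namespace Pool.Agent.Lib.MP_caab05_ag.GB

open MvPolynomial Filter Topology Asymptotics Complex Matrix

namespace TwAAux

lemma tw_neg (h2 : TwS) {κ : Type} [Fintype κ] (D : Der) (k : κ) :
    Tw D (fun u : κ → ℂ => -u k) fun _ => 0 := by
  have h := h2.mul κ D _ _ _ _ (h2.const κ D (-1)) (h2.coord κ D k)
  refine h2.congr κ D _ _ _ _ h (Eventually.of_forall fun u => ?_)
    (Eventually.of_forall fun u => ?_)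
  · simp
  · simp

lemma tw_add (h2 : TwS) {κ : Type} [Fintype κ] (D : Der) (k l : κ) :
    Tw D (fun u : κ → ℂ => u k + u l) fun _ => 0 := by
  have h := h2.add κ D _ _ _ _ (h2.coord κ D k) (h2.coord κ D l)
  refine h2.congr κ D _ _ _ _ h (Eventually.of_forall fun u => rfl)
    (Eventually.of_forall fun u => ?_)
  simp

lemma tw_sub (h2 : TwS) {κ : Type} [Fintype κ] (D : Der) (k l : κ) :
    Tw D (fun u : κ → ℂ => u k - u l) fun _ => 0 := by
  have h := h2.add κ D _ _ _ _ (h2.coord κ D k) (tw_neg h2 D l)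
  refine h2.congr κ D _ _ _ _ h (Eventually.of_forall fun u => ?_)
    (Eventually.of_forall fun u => ?_)
  · simp [sub_eq_add_neg]
  · simp

/-- composition with a map whose twist vanishes -/
lemma tw_comp (h2 : TwS) {κ σ : Type} [Fintype κ] [Fintype σ] (D : Der) (F G : (σ → ℂ) → ℂ)
    (U : (κ → ℂ) → σ → ℂ) (h : Tw D F G) (hF : AnalyticAt ℂ F 0) (hU : U 0 = 0)
    (hT : ∀ i, Tw D (fun u => U u i) fun _ => 0) :
    Tw D (fun u => F (U u)) fun u => G (U u) := by
  have h' := h2.comp κ σ D F G U (fun _ _ => 0) h hF hU hT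
  refine h2.congr κ D _ _ _ _ h' (Eventually.of_forall fun u => rfl)
    (Eventually.of_forall fun u => ?_)
  have : (fun _ : σ => (0 : ℂ)) = 0 := rfl
  simp [this]

/-- two entire twists of the same function agree -/
lemma tw_uniq (h0 : OsgS) (h2 : TwS) {κ : Type} [Fintype κ] (D : Der) (F G G' : (κ → ℂ) → ℂ)
    (h : Tw D F G) (h' : Tw D F G') (hG : Differentiable ℂ G) (hG' : Differentiable ℂ G') :
    G = G' := by
  have a1 := h0 _ _ G Set.univ isOpen_univ hG.differentiableOn
  have a2 := h0 _ _ G' Set.univ isOpen_univ hG'.differentiableOn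
  exact a1.eq_of_eventuallyEq a2
    (h2.uniq κ D F G G' h h' (a1 0 (Set.mem_univ _)) (a2 0 (Set.mem_univ _)))

lemma diff_lft {g : ℕ} : Differentiable ℂ fun x : W g => lft x := by
  unfold lft
  fun_prop

lemma diff_rgt {g : ℕ} : Differentiable ℂ fun x : W g => rgt x := by
  unfold rgt
  fun_prop

lemma diff_elim {g : ℕ} {ι : Type} [Fintype ι] (θ : V g → ι → ℂ) (hθ : Differentiable ℂ θ) :
    Differentiable ℂ fun x : W g => (Sum.elim (θ (lft x)) (θ (rgt x)) : ι ⊕ ι → ℂ) := by
  rw [differentiable_pi]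
  rintro (i | i)
  · exact differentiable_pi.1 (hθ.comp diff_lft) i
  · exact differentiable_pi.1 (hθ.comp diff_rgt) i

lemma diff_dP (h1 : PolS) {E σ : Type} [NormedAddCommGroup E] [NormedSpace ℂ E] [Fintype σ]
    (P : MvPolynomial σ ℂ) (F G : E → σ → ℂ) (hF : Differentiable ℂ F)
    (hG : Differentiable ℂ G) : Differentiable ℂ fun x => dP P (F x) (G x) := by
  unfold dP
  refine Differentiable.fun_sum fun i _ => ?_
  exact ((h1.diff_eval σ (pderiv i P)).comp hF).mul (differentiable_pi.1 hG i)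

end TwAAux

open TwAAux

theorem twA (h0 : OsgS) (h1 : PolS) (h2 : TwS) (h3 : TwExS) (h4 : LawS) (h5 : GeoS) : TwAS := by
  intro g D τ hτ B hB
  have hθ : Differentiable ℂ (th τ) := (h4.holu g τ hτ).1
  obtain ⟨b0, hb0⟩ : ∃ b0, th τ 0 b0 ≠ 0 := Function.ne_iff.1 (h5.nz g τ hτ 0)
  obtain ⟨ψ, hψ, hT⟩ := h3 (Fin g) (Ix g) D (th τ)
    (fun a => C (th τ 0 b0)⁻¹ * rename (Sum.elim id id) (B a b0)) hθ (by
      intro u a
      have e : (th τ u ∘ Sum.elim id id : Ix g ⊕ Ix g → ℂ) = Sum.elim (th τ u) (th τ u) := by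
        funext i
        rcases i with i | i <;> rfl
      rw [map_mul, eval_C, eval_rename, e, ← hB.add u u a b0, sub_self, two_smul]
      field_simp)
  have hθa : ∀ a, Differentiable ℂ fun u => th τ u a := differentiable_pi.1 hθ
  have hψa : ∀ a, Differentiable ℂ fun u => ψ u a := differentiable_pi.1 hψ
  have han : ∀ a, AnalyticAt ℂ (fun u => th τ u a) 0 := fun a =>
    h0 _ _ _ Set.univ isOpen_univ (hθa a).differentiableOn 0 (Set.mem_univ _)
  refine ⟨ψ, hψ, hT, ?_, ?_⟩
  · intro u v a b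
    have t1 : Tw D (fun x : W g => th τ (lft x + rgt x) a) fun x => ψ (lft x + rgt x) a :=
      tw_comp h2 D _ _ (fun x : W g => lft x + rgt x) (hT a) (han a)
        (by funext i; simp [lft, rgt]) fun i => tw_add h2 D _ _
    have t2 : Tw D (fun x : W g => th τ (lft x - rgt x) b) fun x => ψ (lft x - rgt x) b :=
      tw_comp h2 D _ _ (fun x : W g => lft x - rgt x) (hT b) (han b)
        (by funext i; simp [lft, rgt]) fun i => tw_sub h2 D _ _
    have t3 := h2.mul _ D _ _ _ _ t1 t2
    have t4 := h2.poly (Fin g ⊕ Fin g) (Ix g ⊕ Ix g) D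
      (fun x : W g => Sum.elim (th τ (lft x)) (th τ (rgt x)))
      (fun x : W g => Sum.elim (ψ (lft x)) (ψ (rgt x))) (B a b) (by
        rintro (i | i)
        · exact tw_comp h2 D _ _ (fun x : W g => lft x) (hT i) (han i) rfl
            fun k => h2.coord _ D _
        · exact tw_comp h2 D _ _ (fun x : W g => rgt x) (hT i) (han i) rfl
            fun k => h2.coord _ D _)
    have t5 := h2.congr _ D _ _ _ _ t3
      (Eventually.of_forall fun x => hB.add (lft x) (rgt x) a b) EventuallyEq.rfl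
    have d1 := diff_lft.add (diff_rgt (g := g))
    have d2 := diff_lft.sub (diff_rgt (g := g))
    have e := tw_uniq h0 h2 D _ _ _ t5 t4
      ((((hψa a).comp d1).mul ((hθa b).comp d2)).add (((hθa a).comp d1).mul ((hψa b).comp d2)))
      (((h1.diff_eval _ (cD D (B a b))).comp (diff_elim _ hθ)).add
        (diff_dP h1 (B a b) _ _ (diff_elim _ hθ) (diff_elim _ hψ)))
    exact congrFun e (Sum.elim u v)
  · intro u a
    have t1 : Tw D (fun x : V g => th τ (-x) a) fun x => ψ (-x) a :=
      tw_comp h2 D _ _ (fun x : V g => -x) (hT a) (han a) neg_zero fun i => tw_neg h2 D i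
    have t2 := h2.congr _ D _ _ _ _ t1
      (Eventually.of_forall fun x => h4.even g τ x a) EventuallyEq.rfl
    have dn : Differentiable ℂ fun x : V g => -x := by fun_prop
    have e := tw_uniq h0 h2 D _ _ _ t2 (hT (-a)) ((hψa a).comp dn) (hψa (-a))
    exact congrFun e u

end Pool.Agent.Lib.MP_caab05_ag.GB
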