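import Mathlib
import Pool.Agent.Lib.MP_caab05_ag.GB.Stmt

/-! An entire map with a polynomial duplication formula has an entire twist. -/

namespace Pool.Agent.Lib.MP_caab05_ag.GB

open MvPolynomial Filter Topology Asymptotics Complex Metric

namespace TwExAux

section Abstract

variable {E F : Type} [NormedAddCommGroup E] [NormedSpace ℂ E]
  [NormedAddCommGroup F] [NormedSpace ℂ F]

theorem norm_half (u : E) : ‖(1 / 2 : ℂ) • u‖ = (1 / 2 : ℝ) * ‖u‖ := by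
  rw [norm_smul]; simp

omit [NormedSpace ℂ E] [NormedSpace ℂ F] in
theorem ball_of_isBigO {r : E → F} {j : ℕ} (h : r =O[𝓝 0] fun u => ‖u‖ ^ j) :
    ∃ C δ : ℝ, 0 ≤ C ∧ 0 < δ ∧ δ ≤ 1 ∧ ∀ u, ‖u‖ ≤ δ → ‖r u‖ ≤ C * ‖u‖ ^ j := by
  obtain ⟨C, hC, h⟩ := h.exists_nonneg
  have h' := h.bound
  rw [Metric.eventually_nhds_iff] at h'
  obtain ⟨ε, hε, h'⟩ := h'
  refine ⟨C, min (ε / 2) 1, hC, by positivity, min_le_right _ _, fun u hu => ?_⟩
  have : dist u 0 < ε := by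
    rw [dist_zero_right]
    have := min_le_left (ε / 2) 1
    linarith
  simpa using h' this

omit [NormedSpace ℂ E] [NormedSpace ℂ F] in
theorem isBigO_of_ball {r : E → F} {j : ℕ} {C δ : ℝ} (hδ : 0 < δ)
    (h : ∀ u, ‖u‖ ≤ δ → ‖r u‖ ≤ C * ‖u‖ ^ j) : r =O[𝓝 0] fun u => ‖u‖ ^ j := by
  refine IsBigO.of_bound C ?_
  filter_upwards [closedBall_mem_nhds (0 : E) hδ] with u hu
  simpa using h u (by simpa using hu)

/-- iterates of the linear part -/
noncomputable def dd (A : E → F →L[ℂ] F) (r : E → F) : ℕ → E → F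
  | 0 => r
  | n + 1 => fun u => A u (dd A r n ((1 / 2 : ℂ) • u))

theorem dd_diff {A : E → F →L[ℂ] F} {r : E → F} (hA : Differentiable ℂ A)
    (hr : Differentiable ℂ r) : ∀ n, Differentiable ℂ (dd A r n)
  | 0 => hr
  | n + 1 => by
    have h := dd_diff hA hr n
    exact hA.clm_apply (h.comp (differentiable_id.const_smul (1 / 2 : ℂ)))

theorem dd_small {A : E → F →L[ℂ] F} {r : E → F} {Λ C δ : ℝ} {j : ℕ} (hC : 0 ≤ C)
    (hΛ : ∀ u, ‖u‖ ≤ δ → ‖A u‖ ≤ Λ) (hj : Λ * (1 / 2) ^ j ≤ 1 / 2)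
    (hr : ∀ u, ‖u‖ ≤ δ → ‖r u‖ ≤ C * ‖u‖ ^ j) :
    ∀ n u, ‖u‖ ≤ δ → ‖dd A r n u‖ ≤ C * (1 / 2) ^ n * ‖u‖ ^ j
  | 0, u, hu => by simpa [dd] using hr u hu
  | n + 1, u, hu => by
    have h0 := norm_nonneg u
    have h1 := dd_small hC hΛ hj hr n ((1 / 2 : ℂ) • u) (by rw [norm_half]; linarith)
    rw [norm_half, mul_pow] at h1
    have h2 := hΛ u hu
    have h3 : 0 ≤ Λ := (norm_nonneg _).trans h2
    calc ‖dd A r (n + 1) u‖ ≤ ‖A u‖ * ‖dd A r n ((1 / 2 : ℂ) • u)‖ := (A u).le_opNorm _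
      _ ≤ Λ * (C * (1 / 2) ^ n * ((1 / 2) ^ j * ‖u‖ ^ j)) := by gcongr
      _ = (Λ * (1 / 2) ^ j) * (C * (1 / 2) ^ n * ‖u‖ ^ j) := by ring
      _ ≤ (1 / 2) * (C * (1 / 2) ^ n * ‖u‖ ^ j) := by gcongr
      _ = C * (1 / 2) ^ (n + 1) * ‖u‖ ^ j := by ring

omit [NormedSpace ℂ E] in
theorem bdd_ball [ProperSpace E] {G : Type} [NormedAddCommGroup G] {f : E → G}
    (hf : Continuous f) (R : ℝ) : ∃ M : ℝ, 0 ≤ M ∧ ∀ u, ‖u‖ ≤ R → ‖f u‖ ≤ M := by
  obtain ⟨M, hM⟩ := (isCompact_closedBall (0 : E) R).exists_bound_of_continuousOn hf.continuousOn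
  exact ⟨max M 0, le_max_right _ _, fun u hu => (hM u (by simpa using hu)).trans (le_max_left _ _)⟩

theorem dd_big [ProperSpace E] {A : E → F →L[ℂ] F} {r : E → F} {C δ : ℝ} {j : ℕ}
    (hA : Continuous A) (hr : Continuous r) (hC : 0 ≤ C)
    (h : ∀ n u, ‖u‖ ≤ δ → ‖dd A r n u‖ ≤ C * (1 / 2) ^ n * ‖u‖ ^ j) :
    ∀ k : ℕ, ∃ b : ℕ → ℝ, Summable b ∧ ∀ n u, ‖u‖ ≤ 2 ^ k * δ → ‖dd A r n u‖ ≤ b n
  | 0 => by
    refine ⟨fun n => C * (1 / 2) ^ n * δ ^ j,
      (summable_geometric_two.mul_left C).mul_right _, fun n u hu => ?_⟩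
    have hu' : ‖u‖ ≤ δ := by simpa using hu
    refine (h n u hu').trans ?_
    show _ ≤ C * (1 / 2) ^ n * δ ^ j
    gcongr
  | k + 1 => by
    obtain ⟨b, hb, h1⟩ := dd_big hA hr hC h k
    obtain ⟨L, hL0, hL⟩ := bdd_ball hA (2 ^ (k + 1) * δ)
    obtain ⟨M, -, hM⟩ := bdd_ball hr (2 ^ (k + 1) * δ)
    refine ⟨fun n => Nat.casesOn n M fun m => L * b m, ?_, fun n u hu => ?_⟩
    · rw [← summable_nat_add_iff 1]
      exact hb.mul_left L
    · cases n with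
      | zero => exact hM u hu
      | succ m =>
        have h2 := h1 m ((1 / 2 : ℂ) • u) (by rw [norm_half]; rw [pow_succ] at hu; linarith)
        calc ‖dd A r (m + 1) u‖ ≤ ‖A u‖ * ‖dd A r m ((1 / 2 : ℂ) • u)‖ := (A u).le_opNorm _
          _ ≤ L * b m := by
            have := hL u hu
            gcongr

/-- the entire solution of the functional equation -/
theorem fix [ProperSpace E] [CompleteSpace F] {A : E → F →L[ℂ] F} {r : E → F} {Λ : ℝ} {j : ℕ}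
    (hA : Differentiable ℂ A) (hr : Differentiable ℂ r)
    (hΛ : ∀ u, ‖u‖ ≤ 1 → ‖A u‖ ≤ Λ) (hj : Λ * (1 / 2) ^ j ≤ 1 / 2)
    (hO : r =O[𝓝 0] fun u => ‖u‖ ^ j) :
    ∃ φ : E → F, Differentiable ℂ φ ∧ (φ =O[𝓝 0] fun u => ‖u‖ ^ j) ∧
      ∀ u, φ u = r u + A u (φ ((1 / 2 : ℂ) • u)) := by
  obtain ⟨C, δ, hC, hδ, hδ1, hb⟩ := ball_of_isBigO hO
  have hs := dd_small hC (fun u hu => hΛ u (hu.trans hδ1)) hj hb
  have hB := dd_big hA.continuous hr.continuous hC hs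
  have hB' : ∀ R : ℝ, ∃ b : ℕ → ℝ, Summable b ∧ ∀ n u, ‖u‖ ≤ R → ‖dd A r n u‖ ≤ b n := by
    intro R
    obtain ⟨k, hk⟩ := pow_unbounded_of_one_lt (R / δ) (one_lt_two (α := ℝ))
    obtain ⟨b, h1, h2⟩ := hB k
    refine ⟨b, h1, fun n u hu => h2 n u (hu.trans ?_)⟩
    rw [div_lt_iff₀ hδ] at hk
    exact hk.le
  have hsum : ∀ u, Summable fun n => dd A r n u := by
    intro u
    obtain ⟨b, h1, h2⟩ := hB' ‖u‖
    exact Summable.of_norm_bounded h1 fun n => h2 n u le_rfl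
  refine ⟨fun u => ∑' n, dd A r n u, fun x => ?_, ?_, fun u => ?_⟩
  · obtain ⟨b, h1, h2⟩ := hB' (‖x‖ + 2)
    have hd := dd_diff hA hr
    refine (hasFDerivAt_tsum_of_isPreconnected (u := fun n => 2 * b n) (s := ball x 1)
      (f' := fun n y => fderiv ℂ (dd A r n) y) (x₀ := x) (h1.mul_left 2) isOpen_ball
      (convex_ball x 1).isPreconnected (fun n y _ => (hd n y).hasFDerivAt) (fun n y hy => ?_)
      (mem_ball_self one_pos) (hsum x) (mem_ball_self one_pos)).differentiableAt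
    have hy' : ‖y‖ ≤ ‖x‖ + 1 := by
      have := norm_le_norm_add_norm_sub' y x
      rw [mem_ball, dist_eq_norm] at hy
      linarith
    have h3 := norm_fderiv_le_div_of_mapsTo_ball (f := dd A r n) (c := y) (R₁ := 1)
      (R₂ := 2 * b n) (hd n).differentiableOn (fun z hz => ?_) one_pos
    · simpa using h3
    · have hz' : ‖z‖ ≤ ‖x‖ + 2 := by
        have := norm_le_norm_add_norm_sub' z y
        rw [mem_ball, dist_eq_norm] at hz
        linarith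
      rw [mem_closedBall, dist_eq_norm]
      have := norm_sub_le (dd A r n z) (dd A r n y)
      have := h2 n z hz'
      have := h2 n y (by linarith)
      linarith
  · refine isBigO_of_ball (C := C * 2) hδ fun u hu => ?_
    exact tsum_of_norm_bounded ((hasSum_geometric_two.mul_left C).mul_right _)
      fun n => hs n u hu
  · show ∑' n, dd A r n u = r u + A u (∑' n, dd A r n ((1 / 2 : ℂ) • u))
    rw [(hsum u).tsum_eq_zero_add, (A u).map_tsum (hsum _)]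
    rfl

/-- improving the order of vanishing of a solution -/
theorem boot {A : E → F →L[ℂ] F} {r φ : E → F} {Λ : ℝ} {j₀ j : ℕ} (hjj : j₀ ≤ j)
    (hΛ : ∀ u, ‖u‖ ≤ 1 → ‖A u‖ ≤ Λ) (hj : Λ * (1 / 2) ^ j₀ ≤ 1 / 2)
    (hO : r =O[𝓝 0] fun u => ‖u‖ ^ j) (hφ : φ =O[𝓝 0] fun u => ‖u‖ ^ j₀)
    (he : ∀ u, φ u = r u + A u (φ ((1 / 2 : ℂ) • u))) : φ =O[𝓝 0] fun u => ‖u‖ ^ j := by
  obtain ⟨C, δ, hC, hδ, hδ1, hb⟩ := ball_of_isBigO hO
  obtain ⟨C', δ', hC', hδ', -, hb'⟩ := ball_of_isBigO hφ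
  have hΛ0 : 0 ≤ Λ := (norm_nonneg _).trans (hΛ 0 (by simp))
  have hj' : Λ * (1 / 2) ^ j ≤ 1 / 2 := by
    refine le_trans ?_ hj
    exact mul_le_mul_of_nonneg_left (pow_le_pow_of_le_one (by norm_num) (by norm_num) hjj) hΛ0
  have key : ∀ (n : ℕ) (u : E), ‖u‖ ≤ min δ δ' →
      ‖φ u‖ ≤ 2 * C * ‖u‖ ^ j + C' * (1 / 2) ^ n * ‖u‖ ^ j₀ := by
    intro n
    induction n with
    | zero =>
      intro u hu
      have := hb' u (hu.trans (min_le_right _ _))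
      have : 0 ≤ 2 * C * ‖u‖ ^ j := by positivity
      simp only [pow_zero, mul_one]
      linarith
    | succ n ih =>
      intro u hu
      have h0 := norm_nonneg u
      have hu1 := hu.trans (min_le_left _ _)
      have h1 := ih ((1 / 2 : ℂ) • u) (by rw [norm_half]; linarith)
      rw [norm_half, mul_pow, mul_pow] at h1
      have h2 := hΛ u (hu1.trans hδ1)
      calc ‖φ u‖ = ‖r u + A u (φ ((1 / 2 : ℂ) • u))‖ := by rw [← he u]
        _ ≤ ‖r u‖ + ‖A u‖ * ‖φ ((1 / 2 : ℂ) • u)‖ :=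
          (norm_add_le _ _).trans (add_le_add le_rfl ((A u).le_opNorm _))
        _ ≤ C * ‖u‖ ^ j + Λ * (2 * C * ((1 / 2) ^ j * ‖u‖ ^ j) +
            C' * (1 / 2) ^ n * ((1 / 2) ^ j₀ * ‖u‖ ^ j₀)) := by
          have := hb u hu1
          gcongr
        _ = C * ‖u‖ ^ j + (Λ * (1 / 2) ^ j) * (2 * C * ‖u‖ ^ j) +
            (Λ * (1 / 2) ^ j₀) * (C' * (1 / 2) ^ n * ‖u‖ ^ j₀) := by ring
        _ ≤ C * ‖u‖ ^ j + (1 / 2) * (2 * C * ‖u‖ ^ j) +
            (1 / 2) * (C' * (1 / 2) ^ n * ‖u‖ ^ j₀) := by gcongr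
        _ = 2 * C * ‖u‖ ^ j + C' * (1 / 2) ^ (n + 1) * ‖u‖ ^ j₀ := by ring
  refine isBigO_of_ball (C := 2 * C) (lt_min hδ hδ') fun u hu => ?_
  have ht : Tendsto (fun n : ℕ => 2 * C * ‖u‖ ^ j + C' * (1 / 2) ^ n * ‖u‖ ^ j₀) atTop
      (𝓝 (2 * C * ‖u‖ ^ j + C' * 0 * ‖u‖ ^ j₀)) :=
    tendsto_const_nhds.add (((tendsto_pow_atTop_nhds_zero_of_lt_one (by norm_num)
      (by norm_num)).const_mul C').mul_const _)
  simpa using ge_of_tendsto' ht fun n => key n u hu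

omit [NormedSpace ℂ E] in
theorem lip {X Y : Type} [NormedAddCommGroup X] [NormedSpace ℂ X] [NormedAddCommGroup Y]
    [NormedSpace ℂ Y] [CompleteSpace Y] {H : X → Y} {x : X} (hH : AnalyticAt ℂ H x) {a b : E → X}
    (ha : Tendsto a (𝓝 0) (𝓝 x)) (hb : Tendsto b (𝓝 0) (𝓝 x)) {g : E → ℝ}
    (h : (fun u => a u - b u) =O[𝓝 0] g) : (fun u => H (a u) - H (b u)) =O[𝓝 0] g := by
  have h1 := (hH.hasStrictFDerivAt.isBigO_sub).comp_tendsto (ha.prodMk_nhds hb)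
  exact h1.trans h

omit [NormedSpace ℂ E] in
theorem pow_isBigO {j k : ℕ} (h : k ≤ j) :
    (fun u : E => ‖u‖ ^ j) =O[𝓝 0] fun u => ‖u‖ ^ k := by
  refine isBigO_of_ball (C := 1) one_pos fun u hu => ?_
  simpa using pow_le_pow_of_le_one (norm_nonneg u) hu h

theorem smul_isBigO {G : Type} [NormedAddCommGroup G] {f : E → G} {j : ℕ}
    (h : f =O[𝓝 0] fun u => ‖u‖ ^ j) (c : ℂ) :
    (fun u => f (c • u)) =O[𝓝 0] fun u => ‖u‖ ^ j := by
  have ht : Tendsto (fun u : E => c • u) (𝓝 0) (𝓝 0) := by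
    have : Continuous fun u : E => c • u := by fun_prop
    simpa using this.tendsto 0
  refine (h.comp_tendsto ht).trans (IsBigO.of_bound (‖c‖ ^ j) (Eventually.of_forall fun u => ?_))
  simp [norm_smul, mul_pow]

end Abstract

variable {κ ι : Type} [Fintype κ] [Fintype ι]

theorem tw_poly (D : Der) (Q : MvPolynomial κ ℂ) :
    Tw D (fun u => eval u Q) fun u => eval u (cD D Q) :=
  fun _ => ⟨Q, by simpa using isBigO_zero _ _, by simpa using isBigO_zero _ _⟩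

theorem tw_flat (h2 : TwS) {D : Der} {F G : (κ → ℂ) → ℂ} (h : Tw D F G) {j : ℕ}
    (hF : F =O[𝓝 0] fun u => ‖u‖ ^ j) : G =O[𝓝 0] fun u => ‖u‖ ^ j := by
  obtain ⟨Q, h3, h4⟩ := h j
  have h5 : (fun u : κ → ℂ => eval u Q) =O[𝓝 0] fun u => ‖u‖ ^ j :=
    (hF.sub h3).congr_left fun u => by ring
  exact (h4.add (h2.flat κ D Q j h5)).congr_left fun u => by ring

theorem tw_sub (h2 : TwS) {D : Der} {F G F' G' : (κ → ℂ) → ℂ} (h : Tw D F G) (h' : Tw D F' G') :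
    Tw D (fun u => F u - F' u) fun u => G u - G' u := by
  refine h2.congr κ D _ _ _ _ (h2.add κ D _ _ _ _ h
    (h2.mul κ D _ _ _ _ (h2.const κ D (-1)) h')) (Eventually.of_forall fun u => ?_)
    (Eventually.of_forall fun u => ?_)
  · simp only; ring
  · simp only [map_neg, Derivation.map_one_eq_zero]; ring

theorem tw_two (h2 : TwS) (D : Der) (Q : MvPolynomial κ ℂ) :
    Tw D (fun u => eval ((2 : ℂ) • u) Q) fun u => eval ((2 : ℂ) • u) (cD D Q) := by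
  have h2' : D 2 = 0 := by
    have := D.map_natCast 2
    simpa using this
  have h := h2.poly κ κ D (fun u => (2 : ℂ) • u) (fun _ => 0) Q fun k =>
    h2.congr κ D _ _ _ _ (h2.mul κ D _ _ _ _ (h2.const κ D 2) (h2.coord κ D k))
      (Eventually.of_forall fun u => by simp) (Eventually.of_forall fun u => by simp [h2'])
  simpa [dP] using h

/-- a polynomial map -/
noncomputable def ev {σ : Type} (P : ι → MvPolynomial σ ℂ) (x : σ → ℂ) : ι → ℂ :=
  fun i => eval x (P i)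

omit [Fintype ι] in
theorem ev_diff (h1 : PolS) {σ : Type} [Fintype σ] (P : ι → MvPolynomial σ ℂ) :
    Differentiable ℂ (ev P) :=
  differentiable_pi.2 fun i => h1.diff_eval σ (P i)

theorem fderiv_ev (h1 : PolS) (P : ι → MvPolynomial ι ℂ) (x y : ι → ℂ) (i : ι) :
    fderiv ℂ (ev P) x y i = dP (P i) x y := by
  rw [← h1.fderiv_eval]
  unfold ev
  rw [fderiv_pi fun i => h1.diff_eval ι (P i) x]
  simp

theorem fderiv_ev_diff (h0 : OsgS) (h1 : PolS) (P : ι → MvPolynomial ι ℂ) :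
    Differentiable ℂ (fderiv ℂ (ev P)) := fun x =>
  ((h0 _ _ (ev P) Set.univ isOpen_univ (ev_diff h1 P).differentiableOn).fderiv x
    (Set.mem_univ x)).differentiableAt

/-- the twisted Taylor polynomials solve the functional equation up to high order -/
theorem approx (h0 : OsgS) (h1 : PolS) (h2 : TwS) (D : Der) {θ : (κ → ℂ) → ι → ℂ}
    {P : ι → MvPolynomial ι ℂ} (hθ : Differentiable ℂ θ)
    (hP : ∀ u i, θ ((2 : ℂ) • u) i = eval (θ u) (P i)) {j : ℕ} (hj : 1 ≤ j)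
    {T : ι → MvPolynomial κ ℂ}
    (hT : ∀ i, (fun u => θ u i - eval u (T i)) =O[𝓝 0] fun u => ‖u‖ ^ j) :
    (fun u => ev (fun i => cD D (P i)) (θ ((1 / 2 : ℂ) • u)) +
      fderiv ℂ (ev P) (θ ((1 / 2 : ℂ) • u)) (ev (fun i => cD D (T i)) ((1 / 2 : ℂ) • u)) -
      ev (fun i => cD D (T i)) u) =O[𝓝 0] fun u => ‖u‖ ^ j := by
  have hT' : (fun u => θ u - ev T u) =O[𝓝 0] fun u => ‖u‖ ^ j := isBigO_pi.2 hT
  have hθ0 : Tendsto θ (𝓝 0) (𝓝 (θ 0)) := hθ.continuous.tendsto 0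
  have hT0 : Tendsto (ev T) (𝓝 0) (𝓝 (θ 0)) := by
    have h3 : Tendsto (fun u : κ → ℂ => ‖u‖ ^ j) (𝓝 0) (𝓝 0) := by
      have : Continuous fun u : κ → ℂ => ‖u‖ ^ j := by fun_prop
      simpa [zero_pow (by omega : j ≠ 0)] using this.tendsto 0
    simpa using hθ0.sub (hT'.trans_tendsto h3)
  have ht0 := (ev_diff h1 fun i => cD D (T i)).continuous.tendsto 0
  have hF : (fun u => ev T ((2 : ℂ) • u) - ev P (ev T u)) =O[𝓝 0] fun u => ‖u‖ ^ j := by
    have h3 := lip (h0 _ _ (ev P) Set.univ isOpen_univ (ev_diff h1 P).differentiableOn _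
      (Set.mem_univ _)) hθ0 hT0 hT'
    refine (h3.sub (smul_isBigO hT' 2)).congr_left fun u => ?_
    have : θ ((2 : ℂ) • u) = ev P (θ u) := funext fun i => hP u i
    rw [this]; abel
  have hG : (fun u => ev (fun i => cD D (T i)) ((2 : ℂ) • u) -
      (ev (fun i => cD D (P i)) (ev T u) + fderiv ℂ (ev P) (ev T u)
        (ev (fun i => cD D (T i)) u))) =O[𝓝 0] fun u => ‖u‖ ^ j := by
    refine isBigO_pi.2 fun i => ?_
    have h3 := tw_sub h2 (tw_two h2 D (T i)) (h2.poly κ ι D (ev T) (ev fun i => cD D (T i)) (P i)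
      fun k => tw_poly D (T k))
    refine (tw_flat h2 h3 (isBigO_pi.1 hF i)).congr_left fun u => ?_
    simp only [Pi.sub_apply, Pi.add_apply, fderiv_ev h1]
    rfl
  have hH : Differentiable ℂ fun p : (ι → ℂ) × (ι → ℂ) =>
      ev (fun i => cD D (P i)) p.1 + fderiv ℂ (ev P) p.1 p.2 :=
    ((ev_diff h1 fun i => cD D (P i)).comp differentiable_fst).add
      (((fderiv_ev_diff h0 h1 P).comp differentiable_fst).clm_apply differentiable_snd)
  have h3 := lip (h0 _ _ _ Set.univ isOpen_univ hH.differentiableOn _ (Set.mem_univ _))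
    (hθ0.prodMk_nhds ht0) (hT0.prodMk_nhds ht0) (g := fun u => ‖u‖ ^ j)
    (by simpa using hT'.prod_left (isBigO_zero (E' := ι → ℂ) _ _))
  refine (smul_isBigO (h3.sub hG) (1 / 2)).congr_left fun u => ?_
  have : (2 : ℂ) • (1 / 2 : ℂ) • u = u := by rw [smul_smul]; norm_num
  rw [this]; abel

end TwExAux

open TwExAux in
theorem twEx (h0 : OsgS) (h1 : PolS) (h2 : TwS) : TwExS := by
  intro κ ι _ _ D θ P hθ hP
  have hh : Differentiable ℂ fun u : κ → ℂ => (1 / 2 : ℂ) • u :=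
    differentiable_id.const_smul (1 / 2 : ℂ)
  have hA : Differentiable ℂ fun u => fderiv ℂ (ev P) (θ ((1 / 2 : ℂ) • u)) :=
    (fderiv_ev_diff h0 h1 P).comp (hθ.comp hh)
  obtain ⟨Λ, hΛ0, hΛ⟩ := bdd_ball hA.continuous 1
  obtain ⟨j₀, hj1, hj₀⟩ : ∃ j₀ : ℕ, 1 ≤ j₀ ∧ Λ * (1 / 2) ^ j₀ ≤ 1 / 2 := by
    have ht : Tendsto (fun n : ℕ => Λ * (1 / 2 : ℝ) ^ n) atTop (𝓝 (Λ * 0)) :=
      (tendsto_pow_atTop_nhds_zero_of_lt_one (by norm_num) (by norm_num)).const_mul Λ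
    exact ((eventually_ge_atTop 1).and (ht.eventually_le_const (by norm_num))).exists
  have hTay : ∀ j : ℕ, ∃ T : ι → MvPolynomial κ ℂ,
      ∀ i, (fun u => θ u i - eval u (T i)) =O[𝓝 0] fun u => ‖u‖ ^ j := by
    intro j
    choose T hT using fun i => h2.taylor κ (fun u => θ u i)
      (h0 _ _ _ Set.univ isOpen_univ (differentiable_pi.1 hθ i).differentiableOn 0
        (Set.mem_univ _)) j
    exact ⟨T, hT⟩
  choose T hT using hTay
  have ht := fun j => ev_diff h1 fun i => cD D (T j i)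
  have hr : Differentiable ℂ fun u => ev (fun i => cD D (P i)) (θ ((1 / 2 : ℂ) • u)) +
      fderiv ℂ (ev P) (θ ((1 / 2 : ℂ) • u)) (ev (fun i => cD D (T j₀ i)) ((1 / 2 : ℂ) • u)) -
      ev (fun i => cD D (T j₀ i)) u :=
    (((ev_diff h1 fun i => cD D (P i)).comp (hθ.comp hh)).add
      (hA.clm_apply ((ht j₀).comp hh))).sub (ht j₀)
  obtain ⟨φ, hφ, hO, he⟩ := fix hA hr hΛ hj₀ (approx h0 h1 h2 D hθ hP hj1 (hT j₀))
  refine ⟨fun u => ev (fun i => cD D (T j₀ i)) u + φ u, (ht j₀).add hφ, fun i j => ?_⟩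
  have hm := le_max_left j₀ j
  refine ⟨T (max j₀ j) i, (hT _ i).trans (pow_isBigO (le_max_right _ _)), ?_⟩
  refine IsBigO.trans ?_ (pow_isBigO (le_max_right j₀ j))
  have h3 : (fun u => ev (fun i => cD D (T j₀ i)) u - ev (fun i => cD D (T (max j₀ j) i)) u)
      =O[𝓝 0] fun u => ‖u‖ ^ j₀ := by
    refine isBigO_pi.2 fun k => tw_flat h2 (tw_sub h2 (tw_poly D _) (tw_poly D _)) ?_
    exact (((hT _ k).trans (pow_isBigO hm)).sub (hT j₀ k)).congr_left fun u => by ring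
  have h4 := boot (φ := fun u => ev (fun i => cD D (T j₀ i)) u + φ u -
      ev (fun i => cD D (T (max j₀ j) i)) u) hm hΛ hj₀
    (approx h0 h1 h2 D hθ hP (hj1.trans hm) (hT (max j₀ j)))
    ((h3.add hO).congr_left fun u => by abel) (fun u => by
      rw [he u]
      simp only [map_add, map_sub]
      abel)
  exact isBigO_pi.1 h4 i

end Pool.Agent.Lib.MP_caab05_ag.GB
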