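import Mathlib
import Pool.Agent.Lib.MP_caab05_ag.GB.Stmt

/-! The transformation law of the twisted theta functions. -/

namespace Pool.Agent.Lib.MP_caab05_ag.GB

open MvPolynomial Filter Topology Asymptotics Complex Matrix

namespace TwLAux

theorem hasDerivAt_line (h1 : PolS) {σ : Type} [Fintype σ] (P : MvPolynomial σ ℂ)
    (x x' : σ → ℂ) : HasDerivAt (fun t : ℂ => eval (x + t • x') P) (dP P x x') 0 := by
  have hl : HasDerivAt (fun t : ℂ => x + t • x') x' 0 := by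
    simpa using ((hasDerivAt_id (0 : ℂ)).smul_const x').const_add x
  have hf : HasFDerivAt (fun y : σ → ℂ => eval y P) (fderiv ℂ (fun y : σ → ℂ => eval y P) x)
      (x + (0 : ℂ) • x') := by
    simpa using (h1.diff_eval σ P x).hasFDerivAt
  have := hf.comp_hasDerivAt (0 : ℂ) hl
  rw [h1.fderiv_eval] at this
  exact this

variable {g : ℕ}

theorem HH_line (p : Zg g) (X X' : Ix g → ℂ) (t : ℂ) :
    HH p (X + t • X') = HH p X + t • HH p X' := by
  funext a
  simp only [HH, Pi.add_apply, Pi.smul_apply, smul_eq_mul]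
  ring

theorem elim_line {α β : Type} (X X' : α → ℂ) (Y Y' : β → ℂ) (t : ℂ) :
    Sum.elim X Y + t • Sum.elim X' Y' = Sum.elim (X + t • X') (Y + t • Y') := by
  funext i
  cases i <;> simp

theorem dP_transfer (h1 : PolS) {P Q : MvPolynomial (Ix g ⊕ Ix g) ℂ} {c : ℂ}
    {F G : (Ix g → ℂ) → Ix g → ℂ} (hF : ∀ X X' (t : ℂ), F (X + t • X') = F X + t • F X')
    (hG : ∀ X X' (t : ℂ), G (X + t • X') = G X + t • G X')
    (h : ∀ X Y, eval (Sum.elim (F X) (G Y)) P = c * eval (Sum.elim X Y) Q) (X X' Y Y' : Ix g → ℂ) :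
    dP P (Sum.elim (F X) (G Y)) (Sum.elim (F X') (G Y')) =
      c * dP Q (Sum.elim X Y) (Sum.elim X' Y') := by
  have e1 := hasDerivAt_line h1 P (Sum.elim (F X) (G Y)) (Sum.elim (F X') (G Y'))
  have e2 := (hasDerivAt_line h1 Q (Sum.elim X Y) (Sum.elim X' Y')).const_mul c
  refine e1.unique (e2.congr_of_eventuallyEq (Eventually.of_forall fun t => ?_))
  simp only [elim_line]
  rw [← hF, ← hG, h]

theorem cD_transfer (h1 : PolS) (D : Der) {P Q : MvPolynomial (Ix g ⊕ Ix g) ℂ} {c : ℂ}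
    {F G : (Ix g → ℂ) → Ix g → ℂ} (hF : ∀ X X' (t : ℂ), F (X + t • X') = F X + t • F X')
    (hG : ∀ X X' (t : ℂ), G (X + t • X') = G X + t • G X') (hc : D c = 0)
    (hF' : ∀ X a, D (F X a) = F (fun b => D (X b)) a)
    (hG' : ∀ X a, D (G X a) = G (fun b => D (X b)) a)
    (h : ∀ X Y, eval (Sum.elim (F X) (G Y)) P = c * eval (Sum.elim X Y) Q) (X Y : Ix g → ℂ) :
    eval (Sum.elim (F X) (G Y)) (cD D P) = c * eval (Sum.elim X Y) (cD D Q) := by
  have e := congrArg D (h X Y)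
  rw [Derivation.leibniz, hc, smul_zero, add_zero, h1.D_eval, h1.D_eval, smul_eq_mul] at e
  have e1 : (fun i => D (Sum.elim (F X) (G Y) i)) =
      Sum.elim (F fun b => D (X b)) (G fun b => D (Y b)) := by
    funext i
    cases i with
    | inl a => exact hF' X a
    | inr a => exact hG' Y a
  have e2 : (fun i => D (Sum.elim X Y i)) = Sum.elim (fun b => D (X b)) fun b => D (Y b) := by
    funext i
    cases i <;> rfl
  rw [e1, e2, dP_transfer h1 hF hG h] at e
  linear_combination e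

theorem D_HH (h1 : PolS) (D : Der) (p : Zg g) (X : Ix g → ℂ) (a : Ix g) :
    D (HH p X a) = HH p (fun b => D (X b)) a := by
  simp only [HH]
  rw [Derivation.leibniz, h1.D_hh, smul_zero, add_zero, smul_eq_mul]

theorem D_hh2 (h1 : PolS) (D : Der) (p q : Zg g) (a b : Ix g) : D (hh p a * hh q b) = 0 := by
  rw [Derivation.leibniz, h1.D_hh, h1.D_hh, smul_zero, smul_zero, add_zero]

/-- the function `ψ` translated by a torsion point, with the factor removed -/
noncomputable def tr (τ : Mat g) (p : Zg g) (ψ : V g → Ix g → ℂ) (u : V g) : Ix g → ℂ :=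
  fun a => (ee τ p u)⁻¹ * ((hh p (a - sh p))⁻¹ * ψ (u + tor τ p) (a - sh p))

theorem ee_ne (τ : Mat g) (p : Zg g) (u : V g) : ee τ p u ≠ 0 := Complex.exp_ne_zero _

theorem tr_spec (h4 : LawS) (τ : Mat g) (p : Zg g) (ψ : V g → Ix g → ℂ) (u : V g) :
    ψ (u + tor τ p) = ee τ p u • HH p (tr τ p ψ u) := by
  funext a
  have := ee_ne τ p u
  have := h4.hh_ne g p a
  simp only [tr, HH, Pi.smul_apply, smul_eq_mul, add_sub_cancel_right]
  field_simp

theorem ee_diff (τ : Mat g) (p : Zg g) : Differentiable ℂ (ee τ p) := by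
  unfold ee
  fun_prop

theorem tr_diff (τ : Mat g) (p : Zg g) {ψ : V g → Ix g → ℂ} (h : Differentiable ℂ ψ) :
    Differentiable ℂ (tr τ p ψ) := by
  refine differentiable_pi.2 fun a => ?_
  have h1 : Differentiable ℂ fun u => ψ (u + tor τ p) (a - sh p) :=
    (differentiable_pi.1 h (a - sh p)).comp (differentiable_id.add_const _)
  exact ((ee_diff τ p).inv (ee_ne τ p)).mul (h1.const_mul _)

theorem ee_mul₁ (τ : Mat g) (p : Zg g) (u v : V g) :
    ee τ p (u + v) * ee τ p (u - v) = ee τ p u ^ 2 := by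
  simp only [ee, sq, ← Complex.exp_add, ← mul_add, ← Finset.sum_add_distrib]
  congr 2
  refine Finset.sum_congr rfl fun j _ => ?_
  simp only [Pi.add_apply, Pi.sub_apply]
  ring

theorem per_neg (τ : Mat g) (p : Zg g) : per τ (cst (-p)) = -per τ (cst p) := by
  have e1 : lft (cst (-p)) = -lft (cst p) := by
    funext j
    simp [lft, cst]
  have e2 : rgt (cst (-p)) = -rgt (cst p) := by
    funext j
    simp [rgt, cst]
  simp only [per, app, e1, e2, Matrix.mulVec_neg]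
  abel

theorem tor_neg (τ : Mat g) (p : Zg g) : tor τ (-p) = -tor τ p := by
  simp only [tor, per_neg, smul_neg]

theorem sh_neg (p : Zg g) : sh (-p) = -sh p := by
  funext j
  simp [sh]

theorem ee_mul₂ (τ : Mat g) (p : Zg g) (u v : V g) :
    ee τ p (u + v) * ee τ (-p) (u - v) = ee τ p v ^ 2 := by
  simp only [ee, sq, ← Complex.exp_add, ← mul_add, ← Finset.sum_add_distrib, per_neg]
  congr 2
  refine Finset.sum_congr rfl fun j _ => ?_
  simp only [Pi.add_apply, Pi.sub_apply, Pi.neg_apply, Int.cast_neg]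
  ring

theorem step₁ (h1 : PolS) (h4 : LawS) (D : Der) {τ : Mat g} (hτ : Sg τ)
    {B : Ix g → Ix g → MvPolynomial (Ix g ⊕ Ix g) ℂ} (hB : AddF τ B) {ψ : V g → Ix g → ℂ}
    (hψ : TwAdd D τ B ψ) (p : Zg g) (u v : V g) (a b : Ix g) :
    (tr τ p ψ (u + v) - ψ (u + v)) a * th τ (u - v) b +
      th τ (u + v) a * (tr τ p ψ (u - v) - ψ (u - v)) b =
      dP (B a b) (Sum.elim (th τ u) (th τ v)) (Sum.elim (tr τ p ψ u - ψ u) 0) := by
  have e := hψ (u + tor τ p) v (a - sh p) (b - sh p)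
  have e0 := hψ u v a b
  have c1 : u + tor τ p + v = u + v + tor τ p := by abel
  have c2 : u + tor τ p - v = u - v + tor τ p := by abel
  have k1 := h1.bih_eval _ _ _ 2 2 (h1.bih_cD _ _ D _ 2 2 (hB.bih (a - sh p) (b - sh p)))
    (ee τ p u) 1 (HH p (th τ u)) (th τ v)
  have k2 := h1.bih_dP _ _ _ 2 2 (hB.bih (a - sh p) (b - sh p)) (ee τ p u) 1 (HH p (th τ u))
    (HH p (tr τ p ψ u)) (th τ v) (ψ v)
  simp only [one_smul] at k1 k2
  have k3 := cD_transfer h1 D (F := HH p) (G := id) (HH_line p) (fun _ _ _ => rfl)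
    (D_hh2 h1 D p p (a - sh p) (b - sh p)) (D_HH h1 D p) (fun _ _ => rfl)
    (fun X Y => hB.eqv₁ p X Y (a - sh p) (b - sh p)) (th τ u) (th τ v)
  have k4 := dP_transfer h1 (F := HH p) (G := id) (HH_line p) (fun _ _ _ => rfl)
    (fun X Y => hB.eqv₁ p X Y (a - sh p) (b - sh p)) (th τ u) (tr τ p ψ u) (th τ v) (ψ v)
  simp only [id, sub_add_cancel] at k3 k4
  rw [c1, c2, tr_spec h4 τ p ψ (u + v), tr_spec h4 τ p ψ (u - v), tr_spec h4 τ p ψ u,
    h4.law g τ hτ p (u + v), h4.law g τ hτ p (u - v), h4.law g τ hτ p u, k1, k2, k3, k4] at e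
  simp only [HH, Pi.smul_apply, smul_eq_mul, sub_add_cancel] at e
  have k5 : Sum.elim (tr τ p ψ u) (ψ v) =
      Sum.elim (tr τ p ψ u - ψ u) 0 + Sum.elim (ψ u) (ψ v) := by
    funext i
    cases i <;> simp
  rw [k5, h1.dP_add] at e
  have k6 := ee_mul₁ τ p u v
  have n : ee τ p u ^ 2 * (hh p (a - sh p) * hh p (b - sh p)) ≠ 0 :=
    mul_ne_zero (pow_ne_zero _ (ee_ne τ p u)) (mul_ne_zero (h4.hh_ne g p _) (h4.hh_ne g p _))
  apply mul_left_cancel₀ n
  simp only [Pi.sub_apply]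
  linear_combination e - ee τ p u ^ 2 * (hh p (a - sh p) * hh p (b - sh p)) * e0 -
    (hh p (a - sh p) * hh p (b - sh p)) * (tr τ p ψ (u + v) a * th τ (u - v) b +
      th τ (u + v) a * tr τ p ψ (u - v) b) * k6

theorem step₂ (h1 : PolS) (h4 : LawS) {τ : Mat g} (hτ : Sg τ)
    {B : Ix g → Ix g → MvPolynomial (Ix g ⊕ Ix g) ℂ} (hB : AddF τ B) {φ : V g → Ix g → ℂ}
    (hφ : ∀ u v a b, φ (u + v) a * th τ (u - v) b + th τ (u + v) a * φ (u - v) b =
      dP (B a b) (Sum.elim (th τ u) (th τ v)) (Sum.elim (φ u) 0)) (q : Zg g) (u v : V g)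
    (a b : Ix g) :
    (tr τ q φ (u + v) a - φ (u + v) a) * th τ (u - v) b +
      th τ (u + v) a * (tr τ (-q) φ (u - v) b - φ (u - v) b) = 0 := by
  have e := hφ u (v + tor τ q) (a - sh q) (b + sh q)
  have e0 := hφ u v a b
  have c1 : u + (v + tor τ q) = u + v + tor τ q := by abel
  have c2 : u - (v + tor τ q) = u - v + tor τ (-q) := by rw [tor_neg]; abel
  have z : HH q (0 : Ix g → ℂ) = 0 := by
    funext a
    simp [HH]
  have k2 := h1.bih_dP _ _ _ 2 2 (hB.bih (a - sh q) (b + sh q)) 1 (ee τ q v) (th τ u)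
    (φ u) (HH q (th τ v)) (HH q 0)
  have k4 := dP_transfer h1 (F := id) (G := HH q) (fun _ _ _ => rfl) (HH_line q)
    (fun X Y => hB.eqv₂ q X Y (a - sh q) (b + sh q)) (th τ u) (φ u) (th τ v) 0
  simp only [id, sub_add_cancel, add_sub_cancel_right] at k4
  rw [k4] at k2
  simp only [one_smul, z, smul_zero] at k2
  rw [c1, c2, tr_spec h4 τ q φ (u + v), tr_spec h4 τ (-q) φ (u - v),
    h4.law g τ hτ q (u + v), h4.law g τ hτ (-q) (u - v), h4.law g τ hτ q v, k2] at e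
  simp only [HH, Pi.smul_apply, smul_eq_mul, sub_add_cancel, sh_neg, add_neg_cancel_right] at e
  have k6 := ee_mul₂ τ q u v
  have n : ee τ q v ^ 2 * (hh q (a - sh q) * hh (-q) (b + sh q)) ≠ 0 :=
    mul_ne_zero (pow_ne_zero _ (ee_ne τ q v)) (mul_ne_zero (h4.hh_ne g q _) (h4.hh_ne g _ _))
  apply mul_left_cancel₀ n
  linear_combination e - ee τ q v ^ 2 * (hh q (a - sh q) * hh (-q) (b + sh q)) * e0 -
    (hh q (a - sh q) * hh (-q) (b + sh q)) * (tr τ q φ (u + v) a * th τ (u - v) b +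
      th τ (u + v) a * tr τ (-q) φ (u - v) b) * k6

end TwLAux

open TwLAux

theorem twL (h1 : PolS) (h4 : LawS) (h5 : GeoS) (h6 : RigS) : TwLS := by
  intro g D τ hτ B hB ψ hd hψ
  have key : ∀ p : Zg g, ∃ (μ l : V g) (c : ℂ), ∀ u,
      tr τ p ψ u - ψ u = du τ u μ + (l ⬝ᵥ u + c) • th τ u := by
    intro p
    obtain ⟨b, hb⟩ : ∃ b, th τ 0 b ≠ 0 := Function.ne_iff.1 (h5.nz g τ hτ 0)
    have hφ := step₂ h1 h4 hτ hB (φ := fun u => tr τ p ψ u - ψ u) (step₁ h1 h4 D hτ hB hψ p)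
    refine h6.rig₀ g τ hτ (fun u => tr τ p ψ u - ψ u)
      (fun q => -(tr τ (-q) (fun u => tr τ p ψ u - ψ u) 0 b - (tr τ p ψ 0 - ψ 0) b) / th τ 0 b)
      ((tr_diff τ p hd).sub hd) fun q x => ?_
    rw [tr_spec h4 τ q (fun u => tr τ p ψ u - ψ u) x]
    congr 2
    funext a
    have e := hφ q ((1 / 2 : ℂ) • x) ((1 / 2 : ℂ) • x) a b
    have c1 : (1 / 2 : ℂ) • x + (1 / 2 : ℂ) • x = x := by
      rw [← add_smul]
      norm_num
    rw [c1, sub_self] at e
    simp only [Pi.add_apply, Pi.smul_apply, smul_eq_mul]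
    field_simp
    linear_combination e
  choose μ l r h using key
  refine ⟨μ, l, r, fun p u => ?_⟩
  rw [tr_spec h4 τ p ψ u, add_assoc, ← h p u, add_sub_cancel]

theorem twM (h1 : AddS) (h2 : TwAS) (h3 : TwLS) (h4 : LawS) (h5 : GeoS) (h6 : RigS) : TwMS := by
  intro g D τ hτ
  obtain ⟨B, hB⟩ := h1 g τ hτ
  obtain ⟨ψ, hd, htw, hadd, hev⟩ := h2 g D τ hτ B hB
  obtain ⟨μ, l, r, hl⟩ := h3 g D τ hτ B hB ψ hd hadd
  obtain ⟨M, K, N, μ₀, l₀, c, hK, h⟩ := h6.rig₁ g τ hτ ψ μ l r hd hl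
  have odd : ∀ u, du τ u μ₀ = (-(l₀ ⬝ᵥ u)) • th τ u := by
    intro u
    funext a
    have e := hev u (-a)
    have a1 : app M (-u) = -app M u := Matrix.mulVec_neg _ _
    have a2 : app N (-u) = -app N u := Matrix.mulVec_neg _ _
    have d1 : du τ u (-app M u + μ₀) = -du τ u (app M u) + du τ u μ₀ := by
      simp only [du, map_add, map_neg]
    have d2 : du τ u (app M u + μ₀) = du τ u (app M u) + du τ u μ₀ := by
      simp only [du, map_add]
    rw [h (-u), h u] at e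
    simp only [Pi.add_apply, Pi.smul_apply, smul_eq_mul] at e
    rw [h4.evenu g τ hτ, h4.evenK g τ K hτ, h4.even, a1, a2, d1, d2] at e
    simp only [neg_neg, Pi.add_apply, Pi.neg_apply, dotProduct_neg, neg_dotProduct] at e
    simp only [Pi.smul_apply, smul_eq_mul]
    linear_combination (-1 / 2 : ℂ) * e
  have m0 : μ₀ = 0 := h5.imm g τ hτ 0 μ₀ _ (odd 0)
  have l0 : ∀ u, l₀ ⬝ᵥ u = 0 := by
    intro u
    have e := odd u
    rw [m0, du, map_zero] at e
    exact neg_eq_zero.1 ((smul_eq_zero.1 e.symm).resolve_right (h5.nz g τ hτ u))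
  refine ⟨M, K, N, c, hK, fun a => ?_⟩
  have e : (fun u => ψ u a) = fun u => du τ u (app M u) a + dK τ K u a +
      (u ⬝ᵥ app N u + c) * th τ u a := by
    funext u
    rw [h u, m0, l0, add_zero, add_zero]
    rfl
  rw [← e]
  exact htw a

end Pool.Agent.Lib.MP_caab05_ag.GB
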