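import Mathlib
import Pool.Agent.Lib.MP_caab05_ag.GB.Stmt

/-! The calculus of twisted Taylor series. -/

namespace Pool.Agent.Lib.MP_caab05_ag.GB

open MvPolynomial Filter Topology Asymptotics Complex Matrix

namespace TwcAux

section Ord

variable {E : Type} [NormedAddCommGroup E]

lemma pow_le {i j : ℕ} (h : j ≤ i) : (fun u : E => ‖u‖ ^ i) =O[𝓝 0] fun u => ‖u‖ ^ j := by
  refine IsBigO.of_bound' ?_
  filter_upwards [Metric.closedBall_mem_nhds (0 : E) one_pos] with u hu
  rw [mem_closedBall_zero_iff] at hu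
  rw [norm_pow, norm_pow, norm_norm]
  exact pow_le_pow_of_le_one (norm_nonneg _) hu h

lemma zero_of {H : E → ℂ} {j : ℕ} (h : H =O[𝓝 0] fun u => ‖u‖ ^ (j + 1)) : H 0 = 0 := by
  obtain ⟨c, hc⟩ := h.bound
  simpa using hc.self_of_nhds

lemma mul_one' {F : Type} [NormedRing F] {A B : E → F} {j : ℕ} (hA : A =O[𝓝 0] fun u => ‖u‖ ^ j)
    (hB : B =O[𝓝 0] fun _ => (1 : ℝ)) : (fun u => A u * B u) =O[𝓝 0] fun u => ‖u‖ ^ j := by
  simpa using hA.mul hB

lemma one_mul' {F : Type} [NormedRing F] {A B : E → F} {j : ℕ} (hB : B =O[𝓝 0] fun _ => (1 : ℝ))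
    (hA : A =O[𝓝 0] fun u => ‖u‖ ^ j) : (fun u => B u * A u) =O[𝓝 0] fun u => ‖u‖ ^ j := by
  simpa using hB.mul hA

variable [NormedSpace ℂ E]

/-- Cauchy estimate -/
lemma fderiv_ord {H : E → ℂ} {j : ℕ} (hd : ∀ᶠ u in 𝓝 0, DifferentiableAt ℂ H u)
    (h : H =O[𝓝 0] fun u => ‖u‖ ^ (j + 1)) : fderiv ℂ H =O[𝓝 0] fun u => ‖u‖ ^ j := by
  obtain ⟨c, hc0, hc⟩ := h.exists_pos
  obtain ⟨r, hr, h1⟩ := Metric.eventually_nhds_iff_ball.1 (hd.and hc.bound)
  refine IsBigO.of_bound (c * 2 ^ (j + 2)) ?_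
  filter_upwards [Metric.ball_mem_nhds (0 : E) (half_pos hr)] with u hu
  rw [mem_ball_zero_iff] at hu
  rw [norm_pow, norm_norm]
  have ht : Tendsto (fun ρ : ℝ => c * 2 ^ (j + 2) * ρ ^ j) (𝓝[>] ‖u‖)
      (𝓝 (c * 2 ^ (j + 2) * ‖u‖ ^ j)) :=
    (Continuous.tendsto (by fun_prop) _).mono_left nhdsWithin_le_nhds
  refine ge_of_tendsto ht ?_
  filter_upwards [Ioo_mem_nhdsGT hu] with ρ hρ
  have hρ0 : 0 < ρ := (norm_nonneg u).trans_lt hρ.1
  have key : ∀ z ∈ Metric.ball u ρ, DifferentiableAt ℂ H z ∧ ‖H z‖ ≤ c * (2 * ρ) ^ (j + 1) := by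
    intro z hz
    have hz' : ‖z‖ ≤ 2 * ρ := by
      linarith [norm_le_norm_add_norm_sub' z u, mem_ball_iff_norm.1 hz, hρ.1]
    have := h1 z (mem_ball_zero_iff.2 (by
      linarith [norm_le_norm_add_norm_sub' z u, mem_ball_iff_norm.1 hz, hρ.1, hρ.2]))
    refine ⟨this.1, this.2.trans ?_⟩
    rw [norm_pow, norm_norm]
    gcongr
  have := norm_fderiv_le_div_of_mapsTo_ball (f := H) (c := u) (R₁ := ρ)
    (R₂ := 2 * (c * (2 * ρ) ^ (j + 1))) (fun z hz => (key z hz).1.differentiableWithinAt)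
    (fun z hz => by
      rw [mem_closedBall_iff_norm]
      linarith [norm_sub_le (H z) (H u), (key z hz).2, (key u (Metric.mem_ball_self hρ0)).2]) hρ0
  refine this.trans_eq ?_
  rw [mul_pow]
  field_simp
  ring

lemma zero_of_flat {H : E → ℂ} (ha : AnalyticAt ℂ H 0) (h : ∀ j, H =O[𝓝 0] fun u => ‖u‖ ^ j) :
    H =ᶠ[𝓝 0] 0 := by
  obtain ⟨p, hp⟩ := ha
  have key : ∀ n (y : E), (p n fun _ => y) = 0 := fun n => by
    refine Nat.strong_induction_on n fun k hk => ?_
    have e : p.partialSum (k + 1) = fun y => p k fun _ => y := by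
      funext z
      refine Finset.sum_eq_single _ (fun b hb hnb => ?_) fun hn => ?_
      · exact hk b ((Finset.mem_range_succ_iff.mp hb).lt_of_ne hnb) z
      · exact False.elim (hn (Finset.mem_range.mpr (lt_add_one k)))
    have h1 := (h (k + 1)).sub (hp.isBigO_sub_partialSum_pow (k + 1))
    simp only [e, zero_add, sub_sub_cancel] at h1
    exact h1.continuousMultilinearMap_apply_eq_zero
  filter_upwards [hp.eventually_hasSum] with y hy
  simp only [key, zero_add] at hy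
  exact hy.unique hasSum_zero

lemma fderiv_zero {H : E → ℂ} (h : H =O[𝓝 0] fun u => ‖u‖ ^ 2) : HasFDerivAt H (0 : E →L[ℂ] ℂ) 0 := by
  rw [hasFDerivAt_iff_isLittleO_nhds_zero]
  simpa [zero_of h] using h.trans_isLittleO (isLittleO_norm_pow_id one_lt_two)

end Ord

variable (h1 : PolS) {σ : Type} (D : Der)
include h1

lemma cD_add (P Q : MvPolynomial σ ℂ) : cD D (P + Q) = cD D P + cD D Q := by
  ext m; simp [h1.coeff_cD]

lemma cD_sub (P Q : MvPolynomial σ ℂ) : cD D (P - Q) = cD D P - cD D Q := by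
  ext m; simp [h1.coeff_cD]

lemma cD_mul (P Q : MvPolynomial σ ℂ) : cD D (P * Q) = cD D P * Q + P * cD D Q := by
  classical
  ext m
  simp only [h1.coeff_cD, coeff_add, coeff_mul, map_sum, Derivation.leibniz, smul_eq_mul,
    ← Finset.sum_add_distrib]
  exact Finset.sum_congr rfl fun _ _ => by ring

lemma cD_monomial (m : σ →₀ ℕ) (a : ℂ) : cD D (monomial m a) = monomial m (D a) := by
  classical
  ext m'
  simp only [h1.coeff_cD, coeff_monomial]
  split_ifs <;> simp

lemma cD_C (a : ℂ) : cD D (C a : MvPolynomial σ ℂ) = C (D a) := cD_monomial h1 D 0 a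

lemma cD_X (i : σ) : cD D (X i : MvPolynomial σ ℂ) = 0 := by
  rw [X, cD_monomial h1]; simp

lemma cD_pderiv (i : σ) (P : MvPolynomial σ ℂ) : cD D (pderiv i P) = pderiv i (cD D P) := by
  ext m
  have : D ((m i : ℂ) + 1) = 0 := by simp
  simp only [h1.coeff_cD, coeff_pderiv, Derivation.leibniz, this, smul_eq_mul]
  ring

lemma eval_cD (P : MvPolynomial σ ℂ) : eval 0 (cD D P) = D (eval 0 P) := by
  simp [constantCoeff_eq, h1.coeff_cD]

variable [Fintype σ]

lemma poly_one (P : MvPolynomial σ ℂ) : (fun u : σ → ℂ => eval u P) =O[𝓝 0] fun _ => (1 : ℝ) :=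
  (h1.diff_eval σ P).continuous.continuousAt.isBigO_one ℝ

lemma coeff_zero_of {j : ℕ} {P : MvPolynomial σ ℂ}
    (h : (fun u : σ → ℂ => eval u P) =O[𝓝 0] fun u => ‖u‖ ^ j) (m : σ →₀ ℕ) (hm : m.degree < j) :
    coeff m P = 0 := by
  classical
  induction j generalizing P m with
  | zero => omega
  | succ j ih =>
    by_cases h0 : m = 0
    · simpa [h0, constantCoeff_eq] using zero_of h
    obtain ⟨i, hi⟩ := Finsupp.ne_iff.1 h0
    obtain ⟨m', rfl⟩ : ∃ m', m = m' + Finsupp.single i 1 :=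
      ⟨m - Finsupp.single i 1, (tsub_add_cancel_of_le (Finsupp.single_le_iff.2
        (Nat.one_le_iff_ne_zero.2 hi))).symm⟩
    have h2 := fderiv_ord (Eventually.of_forall (h1.diff_eval σ P)) h
    have h3 : (fun u : σ → ℂ => eval u (pderiv i P)) =O[𝓝 0] fun u => ‖u‖ ^ j := by
      refine IsBigO.trans (IsBigO.of_bound' (Eventually.of_forall fun u => ?_)) h2
      have := (fderiv ℂ (fun y : σ → ℂ => eval y P) u).le_opNorm (Pi.single i 1)
      rw [h1.fderiv_eval, Pi.norm_single] at this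
      simpa [dP, Pi.single_apply] using this
    have h4 := ih h3 m' (by rw [map_add, Finsupp.degree_single] at hm; omega)
    rw [coeff_pderiv] at h4
    exact (mul_eq_zero.1 h4).resolve_right (by exact_mod_cast Nat.succ_ne_zero (m' i))

omit h1 in
lemma ord_of_coeff {j : ℕ} {P : MvPolynomial σ ℂ} (h : ∀ m : σ →₀ ℕ, m.degree < j → coeff m P = 0) :
    (fun u : σ → ℂ => eval u P) =O[𝓝 0] fun u => ‖u‖ ^ j := by
  simp only [eval_eq']
  refine IsBigO.fun_sum (A := fun m (u : σ → ℂ) => coeff m P * ∏ i, u i ^ m i) fun m hm =>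
    (IsBigO.trans ?_ (pow_le (i := m.degree)
    (not_lt.1 fun h' => mem_support_iff.1 hm (h m h')))).const_mul_left _
  refine IsBigO.of_bound' (Eventually.of_forall fun u => ?_)
  rw [norm_prod, Finsupp.degree_eq_sum, norm_pow, norm_norm, ← Finset.prod_pow_eq_pow_sum]
  refine Finset.prod_le_prod (fun _ _ => norm_nonneg _) fun i _ => ?_
  rw [norm_pow]
  gcongr
  exact norm_le_pi_norm u i

lemma flat {j : ℕ} {P : MvPolynomial σ ℂ}
    (h : (fun u : σ → ℂ => eval u P) =O[𝓝 0] fun u => ‖u‖ ^ j) :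
    (fun u : σ → ℂ => eval u (cD D P)) =O[𝓝 0] fun u => ‖u‖ ^ j :=
  ord_of_coeff fun m hm => by rw [h1.coeff_cD, coeff_zero_of h1 h m hm, map_zero]

variable {D} {F G F' G' : (σ → ℂ) → ℂ}

lemma bdd (h : Tw D F G) : (F =O[𝓝 0] fun _ => (1 : ℝ)) ∧ G =O[𝓝 0] fun _ => (1 : ℝ) := by
  obtain ⟨P, a, b⟩ := h 0
  simp only [pow_zero] at a b
  exact ⟨by simpa using a.add (poly_one h1 P), by simpa using b.add (poly_one h1 (cD D P))⟩

lemma val (h : Tw D F G) : G 0 = D (F 0) := by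
  obtain ⟨P, a, b⟩ := h (0 + 1)
  have a' := zero_of a
  have b' := zero_of b
  rw [sub_eq_zero.1 a', sub_eq_zero.1 b', eval_cD h1]

lemma const (a : ℂ) : Tw D (fun _ : σ → ℂ => a) fun _ => D a := fun _ =>
  ⟨C a, by simpa using isBigO_zero _ _, by simpa [cD_C h1] using isBigO_zero _ _⟩

lemma coord (k : σ) : Tw D (fun u : σ → ℂ => u k) fun _ => 0 := fun _ =>
  ⟨X k, by simpa using isBigO_zero _ _, by simpa [cD_X h1] using isBigO_zero _ _⟩

lemma add (h : Tw D F G) (h' : Tw D F' G') : Tw D (fun u => F u + F' u) fun u => G u + G' u := by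
  intro j
  obtain ⟨P, a, b⟩ := h j
  obtain ⟨P', a', b'⟩ := h' j
  refine ⟨P + P', (a.add a').congr_left fun u => ?_, (b.add b').congr_left fun u => ?_⟩
  · rw [map_add]; ring
  · rw [cD_add h1, map_add]; ring

lemma mul (h : Tw D F G) (h' : Tw D F' G') :
    Tw D (fun u => F u * F' u) fun u => G u * F' u + F u * G' u := by
  intro j
  obtain ⟨P, a, b⟩ := h j
  obtain ⟨P', a', b'⟩ := h' j
  obtain ⟨c, d⟩ := bdd h1 h'
  refine ⟨P * P', ((mul_one' a c).add (one_mul' (poly_one h1 P) a')).congr_left fun u => ?_,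
    (((mul_one' b c).add (one_mul' (poly_one h1 (cD D P)) a')).add
      ((mul_one' a d).add (one_mul' (poly_one h1 P) b'))).congr_left fun u => ?_⟩
  · rw [map_mul]; ring
  · rw [cD_mul h1, map_add, map_mul, map_mul]; ring

lemma sum {ι : Type} (S : Finset ι) {F G : ι → (σ → ℂ) → ℂ} (h : ∀ i, Tw D (F i) (G i)) :
    Tw D (fun u => ∑ i ∈ S, F i u) fun u => ∑ i ∈ S, G i u := by
  classical
  induction S using Finset.induction_on with
  | empty => simpa using const h1 (D := D) (σ := σ) 0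
  | insert i S hi ih => simpa [Finset.sum_insert hi] using add h1 (h i) ih

lemma poly {ι : Type} [Fintype ι] {F G : (σ → ℂ) → ι → ℂ} (P : MvPolynomial ι ℂ)
    (h : ∀ i, Tw D (fun u => F u i) fun u => G u i) :
    Tw D (fun u => eval (F u) P) fun u => eval (F u) (cD D P) + dP P (F u) (G u) := by
  classical
  induction P using MvPolynomial.induction_on with
  | C a => simpa [cD_C h1, dP] using const h1 (D := D) (σ := σ) a
  | add p q hp hq =>
    convert add h1 hp hq using 2 with u u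
    · rw [map_add]
    · simp only [cD_add h1, map_add, dP, add_mul, Finset.sum_add_distrib]; ring
  | mul_X p i hp =>
    convert mul h1 hp (h i) using 2 with u u
    · simp
    · simp only [cD_mul h1, cD_X h1, dP, pderiv_mul, map_add, map_mul, eval_X, add_mul,
        Finset.sum_add_distrib, Finset.sum_mul, pderiv_X, Pi.single_apply, apply_ite (eval (F u)),
        map_zero, mul_ite, ite_mul, mul_one, mul_zero, zero_mul, Finset.sum_ite_eq,
        Finset.mem_univ, if_true, add_zero, add_assoc]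
      congr 2
      exact Finset.sum_congr rfl fun _ _ => by ring

omit h1 in
lemma congr (h : Tw D F G) (a : F =ᶠ[𝓝 0] F') (b : G =ᶠ[𝓝 0] G') : Tw D F' G' := fun j => by
  obtain ⟨P, c, d⟩ := h j
  exact ⟨P, c.congr' (a.mono fun u hu => by simp only [hu]) EventuallyEq.rfl,
    d.congr' (b.mono fun u hu => by simp only [hu]) EventuallyEq.rfl⟩

lemma other (h : Tw D F G) {j : ℕ} {P : MvPolynomial σ ℂ}
    (a : (fun u => F u - eval u P) =O[𝓝 0] fun u => ‖u‖ ^ j) :
    (fun u => G u - eval u (cD D P)) =O[𝓝 0] fun u => ‖u‖ ^ j := by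
  obtain ⟨P', a', b'⟩ := h j
  have := flat h1 D (P := P' - P) ((a.sub a').congr_left fun u => by rw [map_sub]; ring)
  exact (this.add b').congr_left fun u => by rw [cD_sub h1, map_sub]; ring

lemma uniq (h : Tw D F G) (h' : Tw D F G') (a : AnalyticAt ℂ G 0) (a' : AnalyticAt ℂ G' 0) :
    G =ᶠ[𝓝 0] G' := by
  filter_upwards [zero_of_flat (a.sub a') fun j => by
    obtain ⟨P, c, d⟩ := h j
    exact (d.sub (other h1 h' c)).congr_left fun u => by simp] with u hu
  exact sub_eq_zero.1 hu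

lemma comp {κ : Type} [Fintype κ] {U U' : (κ → ℂ) → σ → ℂ} (h : Tw D F G) (ha : AnalyticAt ℂ F 0)
    (h0 : U 0 = 0) (hU : ∀ i, Tw D (fun u => U u i) fun u => U' u i) :
    Tw D (fun u => F (U u)) fun u => G (U u) + fderiv ℂ F (U u) (U' u) := by
  have u1 : U =O[𝓝 0] fun u => ‖u‖ ^ 1 := isBigO_pi.2 fun i => by
    obtain ⟨P, a, -⟩ := hU i (0 + 1)
    have e : coeff 0 P = 0 := by simpa [h0, constantCoeff_eq] using zero_of a
    have b := ord_of_coeff (j := 1) (P := P) fun m hm => by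
      rwa [show m = 0 from (Finsupp.degree_eq_zero_iff m).1 (by omega)]
    simpa using a.add b
  have u2 : Tendsto U (𝓝 0) (𝓝 0) := u1.trans_tendsto (by
    simpa using (continuous_norm (E := κ → ℂ)).tendsto 0)
  have u3 : ∀ j, (fun u => ‖U u‖ ^ j) =O[𝓝 0] fun u => ‖u‖ ^ j := fun j => by
    simpa using u1.norm_left.pow j
  have u4 : U' =O[𝓝 0] fun _ => (1 : ℝ) := isBigO_pi.2 fun i => (bdd h1 (hU i)).2
  intro j
  obtain ⟨P, a, b⟩ := h (j + 1)
  obtain ⟨Q, c, d⟩ := poly h1 P hU j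
  have hd : ∀ᶠ v in 𝓝 (0 : σ → ℂ), DifferentiableAt ℂ F v :=
    ha.eventually_analyticAt.mono fun _ hv => hv.differentiableAt
  have e := ((fderiv_ord (hd.mono fun v hv => hv.fun_sub (h1.diff_eval σ P v)) a).comp_tendsto u2).trans
    (u3 j)
  have f : (fun u => fderiv ℂ (fun v => F v - eval v P) (U u) (U' u)) =O[𝓝 0] fun u => ‖u‖ ^ j :=
    (IsBigO.of_bound' (Eventually.of_forall fun u => by
      simpa using ContinuousLinearMap.le_opNorm _ _)).trans (mul_one' e.norm_left u4.norm_left)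
  refine ⟨Q, (((((a.trans (pow_le j.le_succ)).comp_tendsto u2).trans (u3 j))).add c).congr_left
    fun u => by simp, ((((((b.trans (pow_le j.le_succ)).comp_tendsto u2).trans (u3 j))).add f).add
      d).congr' ?_ EventuallyEq.rfl⟩
  filter_upwards [u2.eventually hd] with u hu
  rw [fderiv_fun_sub hu (h1.diff_eval σ P _), _root_.sub_apply, h1.fderiv_eval]
  simp only [Function.comp]
  ring

lemma grad (h : Tw D F G) (w : σ → ℂ) :
    D (fderiv ℂ F 0 w) = fderiv ℂ G 0 w + fderiv ℂ F 0 fun k => D (w k) := by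
  have key : ∀ (H : (σ → ℂ) → ℂ) (P : MvPolynomial σ ℂ),
      ((fun u => H u - eval u P) =O[𝓝 0] fun u => ‖u‖ ^ 2) → ∀ w, fderiv ℂ H 0 w = dP P 0 w := by
    intro H P a w
    have := ((fderiv_zero a).add (h1.diff_eval σ P 0).hasFDerivAt).fderiv
    rw [show ((fun u => H u - eval u P) + fun y => eval y P) = H by ext; simp, zero_add] at this
    rw [this, h1.fderiv_eval]
  obtain ⟨P, a, b⟩ := h 2
  simp only [key _ _ a, key _ _ b, dP, map_sum, Derivation.leibniz, ← cD_pderiv h1, eval_cD h1,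
    smul_eq_mul, ← Finset.sum_add_distrib]
  exact Finset.sum_congr rfl fun _ _ => by ring

omit h1 in
lemma taylor (ha : AnalyticAt ℂ F 0) (j : ℕ) :
    ∃ P : MvPolynomial σ ℂ, (fun u => F u - eval u P) =O[𝓝 0] fun u => ‖u‖ ^ j := by
  classical
  obtain ⟨p, hp⟩ := ha
  refine ⟨∑ n ∈ Finset.range j, ∑ r : Fin n → σ, (∏ i, X (r i)) *
    C (p n fun i => Pi.single (r i) 1), (hp.isBigO_sub_partialSum_pow j).congr_left fun u => ?_⟩
  rw [zero_add, map_sum, FormalMultilinearSeries.partialSum]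
  congr 1
  refine Finset.sum_congr rfl fun n _ => ?_
  conv_lhs => rw [pi_eq_sum_univ' u]
  rw [ContinuousMultilinearMap.map_sum, map_sum]
  refine Finset.sum_congr rfl fun r _ => ?_
  rw [ContinuousMultilinearMap.map_smul_univ]
  simp

/-- the Taylor polynomial in one variable -/
noncomputable def TP (f : ℂ → ℂ) (j : ℕ) : MvPolynomial Unit ℂ :=
  ∑ n ∈ Finset.range j, monomial (Finsupp.single () n) (iteratedDeriv n f 0 / n.factorial)

omit h1 in
lemma TP_ord {f : ℂ → ℂ} (ha : AnalyticAt ℂ f 0) (j : ℕ) :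
    (fun u : Unit → ℂ => f (u ()) - eval u (TP f j)) =O[𝓝 0] fun u => ‖u‖ ^ j := by
  have ht : Tendsto (fun u : Unit → ℂ => u ()) (𝓝 0) (𝓝 0) := (continuous_apply ()).tendsto 0
  refine ((ha.hasFPowerSeriesAt.isBigO_sub_partialSum_pow j).comp_tendsto ht).congr
    (fun u => ?_) fun u => by simp [Pi.norm_def]
  simp only [Function.comp, zero_add, TP, map_sum, FormalMultilinearSeries.partialSum]
  congr 1
  refine Finset.sum_congr rfl fun n _ => ?_
  simp [eval_monomial, mul_comm]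

omit h1 in
lemma TP_coeff (f : ℂ → ℂ) {n j : ℕ} (h : n < j) :
    coeff (Finsupp.single () n) (TP f j) = iteratedDeriv n f 0 / n.factorial := by
  rw [TP, coeff_sum, Finset.sum_eq_single n]
  · simp
  · intro b _ hb
    rw [coeff_monomial, if_neg fun e => hb (Finsupp.single_injective () e)]
  · intro hn
    exact absurd (Finset.mem_range.2 h) hn

omit h1 in
lemma D_div (a : ℂ) (n : ℕ) : D (a / n) = D a / n := by
  rw [div_eq_mul_inv, div_eq_mul_inv, show (n : ℂ)⁻¹ = ((n : ℚ)⁻¹ : ℚ) • (1 : ℂ) by simp,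
    mul_smul_comm, mul_smul_comm, mul_one, mul_one, Derivation.map_smul]

lemma jet {f f' : ℂ → ℂ} (ha : AnalyticAt ℂ f 0) (ha' : AnalyticAt ℂ f' 0) :
    Tw D (fun u : Unit → ℂ => f (u ())) (fun u => f' (u ())) ↔
      ∀ j, iteratedDeriv j f' 0 = D (iteratedDeriv j f 0) := by
  refine ⟨fun h j => ?_, fun h j => ⟨TP f j, TP_ord ha j, ?_⟩⟩
  · have a := coeff_zero_of h1 (P := TP f' (j + 1) - cD D (TP f (j + 1)))
      (((other h1 h (TP_ord ha (j + 1))).sub (TP_ord ha' (j + 1))).congr_left fun u => by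
        rw [map_sub]; ring) (Finsupp.single () j) (by simp)
    rw [coeff_sub, h1.coeff_cD, TP_coeff _ j.lt_succ_self, TP_coeff _ j.lt_succ_self, D_div,
      sub_eq_zero, div_left_inj' (by exact_mod_cast j.factorial_ne_zero)] at a
    exact a
  · have : cD D (TP f j) = TP f' j := by
      ext m
      simp only [h1.coeff_cD, TP, coeff_sum, map_sum, coeff_monomial]
      refine Finset.sum_congr rfl fun n _ => ?_
      split_ifs
      · rw [D_div, h]
      · simp
    rw [this]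
    exact TP_ord ha' j

end TwcAux

open TwcAux in
theorem twc (h0 : OsgS) (h1 : PolS) : TwS where
  val _ _ _ _ _ h := val h1 h
  const _ _ _ a := const h1 a
  coord _ _ _ k := coord h1 k
  add _ _ _ _ _ _ _ h h' := add h1 h h'
  mul _ _ _ _ _ _ _ h h' := mul h1 h h'
  sum _ _ _ _ _ _ _ h := sum h1 _ h
  poly _ _ _ _ _ _ _ P h := poly h1 P h
  congr _ _ _ _ _ _ _ h a b := congr h a b
  uniq _ _ _ _ _ _ h h' a a' := uniq h1 h h' a a'
  comp _ _ _ _ _ _ _ _ _ h ha h0 hU := comp h1 h ha h0 hU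
  grad _ _ _ _ _ h _ _ w := grad h1 h w
  flat _ _ D _ _ h := flat h1 D h
  taylor _ _ _ ha j := taylor ha j
  jet _ _ _ ha ha' := jet h1 ha ha'

end Pool.Agent.Lib.MP_caab05_ag.GB
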