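import Mathlib
import Pool.Agent.Lib.MP_caab05_ag.GB.Stmt
import Pool.Agent.Shared.HoloIntegral

/-! Fourier coefficients of entire functions with period lattice `ℤ^g`. -/

namespace Pool.Agent.Lib.MP_caab05_ag.GB.UniqAux

open Filter Topology Complex MeasureTheory UnitAddTorus

variable {g : ℕ}

abbrev TT (g : ℕ) : Type := UnitAddTorus (Fin g)

noncomputable def mu (g : ℕ) : Measure (TT g) := Measure.pi fun _ => AddCircle.haarAddCircle

instance : IsProbabilityMeasure (mu g) := by unfold mu; infer_instance

instance : (mu g).IsAddLeftInvariant := by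
  have : (AddCircle.haarAddCircle : Measure UnitAddCircle).IsAddHaarMeasure := inferInstance
  unfold mu; infer_instance

def cx (x : Fin g → ℝ) : V g := fun j => (x j : ℂ)

def ci (n : Fin g → ℤ) : V g := fun j => (n j : ℂ)

noncomputable def mk (x : Fin g → ℝ) : TT g := fun j => (x j : UnitAddCircle)

noncomputable def rp (t : TT g) : Fin g → ℝ := fun j => (AddCircle.equivIoc 1 0 (t j)).1

lemma mk_rp (t : TT g) : mk (rp t) = t := by
  funext j; simp [mk, rp]

lemma mk_add (x y : Fin g → ℝ) : mk (x + y) = mk x + mk y := by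
  funext j; simp [mk]

lemma cx_add (x y : Fin g → ℝ) : cx (x + y) = cx x + cx y := by
  funext j; simp [cx]

lemma exists_int {x y : Fin g → ℝ} (h : mk x = mk y) : ∃ n, cx x = cx y + ci n := by
  have : ∀ j, ∃ n : ℤ, x j = y j + n := by
    intro j
    have h1 : ((x j - y j : ℝ) : UnitAddCircle) = 0 := by
      rw [AddCircle.coe_sub]; exact sub_eq_zero.mpr (congrFun h j)
    obtain ⟨n, hn⟩ := (AddCircle.coe_eq_zero_iff (1 : ℝ)).mp h1
    exact ⟨n, by simp at hn; linarith⟩
  choose n hn using this
  exact ⟨n, by funext j; simp [cx, ci, hn j]⟩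

lemma norm_cx_rp (t : TT g) : ‖cx (rp t)‖ ≤ 1 := by
  refine (pi_norm_le_iff_of_nonneg zero_le_one).mpr fun j => ?_
  have := (AddCircle.equivIoc 1 0 (t j)).2
  simp only [cx, rp, Complex.norm_real, Real.norm_eq_abs]
  rw [abs_le]; constructor <;> linarith [this.1, this.2]

/-- periodic with respect to the integral vectors -/
def Per (F : V g → ℂ) : Prop := ∀ n u, F (u + ci n) = F u

lemma Per.mk_eq {F : V g → ℂ} (hF : Per F) (u : V g) (x : Fin g → ℝ) :
    F (u + cx (rp (mk x))) = F (u + cx x) := by
  obtain ⟨n, hn⟩ := exists_int (mk_rp (mk x))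
  rw [hn, ← add_assoc, hF]

lemma continuous_cx : Continuous (cx : (Fin g → ℝ) → V g) := by
  unfold cx; fun_prop

lemma Per.continuous {F : V g → ℂ} (hF : Per F) (hc : Continuous F) (u : V g) :
    Continuous fun t : TT g => F (u + cx (rp t)) := by
  have hq : IsOpenQuotientMap (mk : (Fin g → ℝ) → TT g) :=
    IsOpenQuotientMap.piMap fun _ : Fin g => QuotientAddGroup.isOpenQuotientMap_mk
  rw [← hq.continuous_comp_iff]
  have : ((fun t : TT g => F (u + cx (rp t))) ∘ mk) = fun x => F (u + cx x) := by
    funext x; exact hF.mk_eq u x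
  rw [this]
  exact hc.comp (continuous_const.add continuous_cx)

/-- the mean value over a real torus -/
noncomputable def av (F : V g → ℂ) (u : V g) : ℂ := ∫ t, F (u + cx (rp t)) ∂mu g

lemma av_real {F : V g → ℂ} (hF : Per F) (u : V g) (x : Fin g → ℝ) :
    av F (u + cx x) = av F u := by
  unfold av
  rw [← integral_add_left_eq_self (μ := mu g) (fun t => F (u + cx (rp t))) (mk x)]
  congr 1
  funext t
  have := hF.mk_eq u (x + rp t)
  rw [mk_add, mk_rp] at this
  rw [this, cx_add, add_assoc]

lemma av_line {F : V g → ℂ} (hF : Per F) (hd : Differentiable ℂ F) (u y : V g) :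
    DifferentiableOn ℂ (fun w : ℂ => av F (u + w • y)) (Metric.ball 0 2) := by
  obtain ⟨C, hC⟩ := (isCompact_closedBall (0 : V g) (‖u‖ + 2 * ‖y‖ + 1)).exists_bound_of_continuousOn
    hd.continuous.continuousOn
  refine Pool.Agent.Shared.HoloIntegral.differentiableOn_integral (μ := mu g)
    (F := fun w t => F (u + w • y + cx (rp t))) Metric.isOpen_ball (b := fun _ => C)
    (fun w _ => (hF.continuous hd.continuous _).aestronglyMeasurable)
    (Eventually.of_forall fun t => ?_) (Eventually.of_forall fun t w hw => hC _ ?_)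
    (integrable_const _)
  · exact (hd.comp (by fun_prop)).differentiableOn
  · rw [mem_closedBall_zero_iff]
    have h1 : ‖w‖ ≤ 2 := (mem_ball_zero_iff.mp hw).le
    have h2 : ‖w • y‖ ≤ 2 * ‖y‖ := by
      rw [norm_smul]; exact mul_le_mul_of_nonneg_right h1 (norm_nonneg _)
    linarith [norm_add₃_le (a := u) (b := w • y) (c := cx (rp t)), norm_cx_rp t]

/-- the mean value of an entire periodic function does not depend on the torus -/
theorem av_const {F : V g → ℂ} (hF : Per F) (hd : Differentiable ℂ F) (u : V g) :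
    av F u = av F 0 := by
  set x : Fin g → ℝ := fun j => (u j).re
  set y : Fin g → ℝ := fun j => (u j).im
  have hu : u = cx x + I • cx y := by
    funext j; simp [cx, x, y, mul_comm I]
  have hH := av_line hF hd (cx x) (cx y)
  have hfr : ∃ᶠ z in 𝓝[≠] (0 : ℂ),
      (fun w : ℂ => av F (cx x + w • cx y)) z = (fun _ => av F 0) z := by
    have ht : Tendsto (fun t : ℝ => (t : ℂ)) (𝓝[≠] 0) (𝓝[≠] 0) := by
      refine tendsto_nhdsWithin_iff.mpr ⟨?_, ?_⟩
      · exact (Complex.continuous_ofReal.tendsto' 0 0 (by simp)).mono_left nhdsWithin_le_nhds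
      · filter_upwards [self_mem_nhdsWithin] with t ht
        simpa using ht
    refine ht.frequently (Eventually.of_forall fun t => ?_).frequently
    have : cx x + (t : ℂ) • cx y = 0 + cx (x + t • y) := by
      funext j; simp [cx]
    simp only [this]
    exact av_real hF 0 _
  have := (hH.analyticOnNhd Metric.isOpen_ball).eqOn_of_preconnected_of_frequently_eq
    (analyticOnNhd_const (v := av F 0)) (convex_ball (0 : ℂ) 2).isPreconnected
    (Metric.mem_ball_self (by norm_num)) hfr (show I ∈ Metric.ball (0 : ℂ) 2 by simp)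
  rw [hu]; exact this

/-- the characters -/
noncomputable def ch (m : Fin g → ℤ) (u : V g) : ℂ := cexp (2 * Real.pi * I * ∑ j, (m j : ℂ) * u j)

lemma ch_ne (m : Fin g → ℤ) (u : V g) : ch m u ≠ 0 := Complex.exp_ne_zero _

lemma ch_add (m : Fin g → ℤ) (u v : V g) : ch m (u + v) = ch m u * ch m v := by
  simp only [ch, ← Complex.exp_add, Pi.add_apply, mul_add, Finset.sum_add_distrib]

lemma ch_int (m n : Fin g → ℤ) : ch m (ci n) = 1 := by
  rw [ch, Complex.exp_eq_one_iff]
  exact ⟨∑ j, m j * n j, by push_cast; simp only [ci]; ring⟩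

lemma ch_diff (m : Fin g → ℤ) : Differentiable ℂ (ch m) := by
  unfold ch; fun_prop

lemma ch_rp (m : Fin g → ℤ) (t : TT g) : ch m (cx (rp t)) = mFourier m t := by
  conv_rhs => rw [← mk_rp t]
  simp only [mFourier, ContinuousMap.coe_mk, mk, fourier_coe_apply, ← Complex.exp_sum, ch, cx,
    Finset.mul_sum]
  congr 1
  refine Finset.sum_congr rfl fun j _ => ?_
  push_cast; ring

lemma Per.mul_ch {F : V g → ℂ} (hF : Per F) (m : Fin g → ℤ) : Per fun u => ch m u * F u := by
  intro n u
  simp only [ch_add, ch_int, mul_one, hF n u]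

/-- the Fourier coefficients -/
noncomputable def co (F : V g → ℂ) (m : Fin g → ℤ) : ℂ := av (fun u => ch (-m) u * F u) 0

lemma co_eq {F : V g → ℂ} (hF : Per F) (hd : Differentiable ℂ F) (m : Fin g → ℤ) (u : V g) :
    co F m = ch (-m) u * ∫ t, ch (-m) (cx (rp t)) * F (u + cx (rp t)) ∂mu g := by
  rw [co, ← av_const (hF.mul_ch (-m)) ((ch_diff _).mul hd) u, av, ← integral_const_mul]
  simp only [ch_add, mul_assoc]

/-- an entire periodic function is determined by its Fourier coefficients -/
theorem eq_zero_of_co {F : V g → ℂ} (hF : Per F) (hd : Differentiable ℂ F)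
    (h : ∀ m, co F m = 0) (u : V g) : F u = 0 := by
  let f : C(TT g, ℂ) := ⟨fun t => F (u + cx (rp t)), hF.continuous hd.continuous u⟩
  have h0 : mFourierCoeff f = 0 := by
    funext m
    have h1 := co_eq hF hd m u
    rw [h m] at h1
    have h2 := (mul_eq_zero.mp h1.symm).resolve_left (ch_ne _ _)
    simp only [ch_rp] at h2
    exact h2
  have hs := hasSum_mFourier_series_apply_of_summable (f := f) (by rw [h0]; exact summable_zero)
    (mk 0)
  rw [h0] at hs
  simp only [Pi.zero_apply, zero_smul] at hs
  have h3 : f (mk 0) = 0 := hs.unique hasSum_zero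
  have h4 : f (mk 0) = F (u + cx 0) := hF.mk_eq u 0
  have h5 : cx (0 : Fin g → ℝ) = 0 := by funext j; simp [cx]
  rw [h4, h5, add_zero] at h3
  exact h3

lemma integral_mFourier (m : Fin g → ℤ) :
    ∫ t, mFourier m t ∂mu g = if m = 0 then 1 else 0 := by
  have := (orthonormal_iff_ite.mp (orthonormal_mFourier (d := Fin g))) 0 m
  simp only [ContinuousMap.inner_toLp, ← mFourier_neg, ← mFourier_add, neg_zero, add_zero] at this
  rw [show (if m = 0 then (1 : ℂ) else 0) = if 0 = m then 1 else 0 by simp only [eq_comm]]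
  rw [← this]
  rfl

/-- the constant coefficient of an absolutely convergent Fourier series -/
lemma co_zero_tsum {F : V g → ℂ} {c : (Fin g → ℤ) → ℂ} (hc : Summable fun m => ‖c m‖)
    (h : ∀ x : Fin g → ℝ, F (cx x) = ∑' m, c m * ch m (cx x)) : co F 0 = c 0 := by
  have h1 : ∀ t : TT g, ch (-(0 : Fin g → ℤ)) (0 + cx (rp t)) * F (0 + cx (rp t)) =
      ∑' m, c m * mFourier m t := by
    intro t
    simp only [zero_add, neg_zero, h, ch_rp, mFourier_zero, ContinuousMap.one_apply, one_mul]
  have hn : ∀ (m : Fin g → ℤ) (t : TT g), ‖mFourier m t‖ = 1 := by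
    intro m t
    simp only [mFourier, fourier_apply, ContinuousMap.coe_mk, norm_prod, Circle.norm_coe,
      Finset.prod_const_one]
  rw [co, av]
  simp only [h1]
  rw [← integral_tsum_of_summable_integral_norm]
  · simp only [integral_const_mul, integral_mFourier]
    rw [tsum_eq_single 0 (fun m hm => by simp [hm])]
    simp
  · intro m
    refine Integrable.const_mul ?_ _
    exact (integrable_const (1 : ℝ)).mono' (mFourier m).continuous.aestronglyMeasurable
      (Eventually.of_forall fun t => (hn m t).le)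
  · simpa [hn] using hc

lemma co_sub {F G : V g → ℂ} (hF : Per F) (hG : Per G) (hF' : Continuous F) (hG' : Continuous G)
    (κ : ℂ) (m : Fin g → ℤ) : co (fun u => F u - κ * G u) m = co F m - κ * co G m := by
  have hi : ∀ {F : V g → ℂ}, Per F → Continuous F →
      Integrable (fun t : TT g => ch (-m) (0 + cx (rp t)) * F (0 + cx (rp t))) (mu g) := by
    intro F hF hF'
    have := (hF.mul_ch (-m)).continuous ((ch_diff _).continuous.mul hF') 0
    exact this.integrable_of_hasCompactSupport (HasCompactSupport.of_compactSpace _)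
  simp only [co, av]
  rw [← integral_const_mul, ← integral_sub (hi hF hF') ((hi hG hG').const_mul κ)]
  congr 1
  funext t
  ring

end Pool.Agent.Lib.MP_caab05_ag.GB.UniqAux
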