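import Mathlib
import Pool.Agent.Lib.MP_caab05_ag.GB.Stmt
import Pool.Agent.Lib.MP_caab05_ag.GB.Uniq1

/-! Uniqueness of the theta functions of level four. -/

namespace Pool.Agent.Lib.MP_caab05_ag.GB

open MvPolynomial Filter Topology Asymptotics Complex Matrix

namespace UniqAux

open MeasureTheory

variable {g : ℕ}

/-- the transformation law -/
def Law (τ : Mat g) (G : V g → Ix g → ℂ) : Prop :=
  ∀ p u, G (u + tor τ p) = ee τ p u • HH p (G u)

def pr (n : Fin g → ℤ) : Zg g := Sum.elim 0 n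

def pl (n : Fin g → ℤ) : Zg g := Sum.elim n 0

lemma per_pr (τ : Mat g) (n : Fin g → ℤ) : per τ (cst (pr n)) = ci n := by
  have h1 : lft (cst (pr n)) = 0 := by funext j; simp [lft, cst, pr]
  have h2 : rgt (cst (pr n)) = ci n := by funext j; simp [rgt, cst, pr, ci]
  simp [per, app, h1, h2]

lemma Law.per (h3 : LawS) {τ : Mat g} {G : V g → Ix g → ℂ} (hG : Law τ G) (a : Ix g) :
    Per fun u => G u a := by
  intro n u
  have h := hG ((4 : ℤ) • pr n) u
  rw [h3.tor_four, h3.hh_four, per_pr] at h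
  have he : ee τ ((4 : ℤ) • pr n) u = 1 := by simp [ee, pr]
  simp only [h, he, one_smul]

lemma Law.quarter {τ : Mat g} {G : V g → Ix g → ℂ} (hG : Law τ G) (n : Fin g → ℤ) (u : V g) :
    G ((1 / 4 : ℂ) • ci n + u) 0 = G u 0 := by
  have h := hG (pr n) u
  have he : ee τ (pr n) u = 1 := by simp [ee, pr]
  have hs : sh (pr n) = 0 := by funext j; simp [sh, pr]
  have hh' : hh (pr n) 0 = 1 := by simp [hh, pr]
  rw [tor, per_pr, he, one_smul, add_comm] at h
  rw [h, HH, hs, hh', one_mul, add_zero]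

lemma Law.co_of_not_dvd (h3 : LawS) {τ : Mat g} {G : V g → Ix g → ℂ} (hG : Law τ G)
    (hd : Differentiable ℂ G) {m : Fin g → ℤ} {j : Fin g} (hj : ¬ (4 : ℤ) ∣ m j) :
    co (fun u => G u 0) m = 0 := by
  have hd0 : Differentiable ℂ fun u => G u 0 := differentiable_pi.mp hd 0
  have h1 := co_eq (hG.per h3 0) hd0 m ((1 / 4 : ℂ) • ci (Pi.single j 1))
  have h2 := co_eq (hG.per h3 0) hd0 m 0
  simp only [hG.quarter] at h1
  have h0 : ch (-m) 0 = 1 := by simp [ch]
  simp only [zero_add, h0, one_mul] at h2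
  rw [← h2] at h1
  by_contra hne
  have h4 : ch (-m) ((1 / 4 : ℂ) • ci (Pi.single j 1)) = 1 := by
    apply mul_right_cancel₀ hne
    rw [one_mul]; exact h1.symm
  have h5 : ∑ k, (((-m) k : ℤ) : ℂ) * ((1 / 4 : ℂ) • ci (Pi.single j (1 : ℤ))) k = -(m j) / 4 := by
    rw [Finset.sum_eq_single j]
    · simp [ci]; ring
    · intro k _ hk
      simp [ci, hk]
    · simp
  rw [ch, h5, Complex.exp_eq_one_iff] at h4
  obtain ⟨k, hk⟩ := h4
  apply hj
  have h6 : (2 * Real.pi * I : ℂ) ≠ 0 := Complex.two_pi_I_ne_zero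
  have h7 : (-(m j : ℂ)) / 4 = k := by
    apply mul_left_cancel₀ h6
    rw [hk]; ring
  have h8 : (m j : ℂ) = ((4 * (-k) : ℤ) : ℂ) := by
    push_cast
    linear_combination (-4) * h7
  exact ⟨-k, by exact_mod_cast h8⟩

lemma Law.co_four (h3 : LawS) {τ : Mat g} {G : V g → Ix g → ℂ} (hG : Law τ G)
    (hd : Differentiable ℂ G) (h0 : co (fun u => G u 0) 0 = 0) (k : Fin g → ℤ) :
    co (fun u => G u 0) ((4 : ℤ) • k) = 0 := by
  have hd0 : Differentiable ℂ fun u => G u 0 := differentiable_pi.mp hd 0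
  set p : Zg g := (4 : ℤ) • pl k with hp
  have h1 := co_eq (hG.per h3 0) hd0 0 (tor τ p)
  have h2 := co_eq (hG.per h3 0) hd0 ((4 : ℤ) • k) 0
  have he : ∀ u, ee τ p u = ee τ p 0 * ch (-((4 : ℤ) • k)) u := by
    intro u
    simp only [ee, ch, ← Complex.exp_add, Finset.mul_sum, ← Finset.sum_add_distrib]
    congr 1
    refine Finset.sum_congr rfl fun j _ => ?_
    simp only [hp, pl, Pi.smul_apply, Sum.elim_inl, Pi.zero_apply, Pi.neg_apply, smul_eq_mul]
    push_cast
    ring
  have h4 : ∀ u, G (tor τ p + u) 0 = ee τ p 0 * (ch (-((4 : ℤ) • k)) u * G u 0) := by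
    intro u
    have h := hG p u
    rw [hp, h3.hh_four, ← hp, add_comm] at h
    rw [h, he u]
    simp only [Pi.smul_apply, smul_eq_mul, mul_assoc]
  have h5 : ∀ u : V g, ch (-(0 : Fin g → ℤ)) u = 1 := by intro u; simp [ch]
  have h6 : ch (-((4 : ℤ) • k)) 0 = 1 := by simp [ch]
  simp only [h4, h5, one_mul, integral_const_mul] at h1
  simp only [zero_add, h6, one_mul] at h2
  rw [← h2, h0] at h1
  exact (mul_eq_zero.mp h1.symm).resolve_left (Complex.exp_ne_zero _)

lemma Law.shift (h3 : LawS) {τ : Mat g} {G : V g → Ix g → ℂ} (hG : Law τ G) (a : Ix g) :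
    ∃ w : V g, ∀ u, ∃ c : ℂ, c ≠ 0 ∧ G (u + w) 0 = c * G u a := by
  set p : Zg g := pl fun j => ((a j).val : ℤ) with hp
  have hs : sh p = a := by funext j; simp [sh, hp, pl]
  refine ⟨tor τ p, fun u => ⟨ee τ p u * hh p 0,
    mul_ne_zero (Complex.exp_ne_zero _) (h3.hh_ne _ _ _), ?_⟩⟩
  rw [hG p u]
  simp only [Pi.smul_apply, smul_eq_mul, HH, hs, zero_add, mul_assoc]

lemma Law.eq_zero (h3 : LawS) {τ : Mat g} {G : V g → Ix g → ℂ} (hG : Law τ G)
    (hd : Differentiable ℂ G) (h0 : co (fun u => G u 0) 0 = 0) (u : V g) : G u = 0 := by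
  have hz : ∀ u, G u 0 = 0 := by
    refine eq_zero_of_co (hG.per h3 0) (differentiable_pi.mp hd 0) fun m => ?_
    by_cases hm : ∀ j, (4 : ℤ) ∣ m j
    · choose k hk using hm
      have : m = (4 : ℤ) • k := by funext j; simp [hk j]
      rw [this]
      exact hG.co_four h3 hd h0 k
    · obtain ⟨j, hj⟩ := not_forall.mp hm
      exact hG.co_of_not_dvd h3 hd hj
  funext a
  obtain ⟨w, hw⟩ := hG.shift h3 a
  obtain ⟨c, hc, h⟩ := hw u
  rw [hz] at h
  exact (mul_eq_zero.mp h.symm).resolve_left hc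

lemma co_th (h1 : SumS) {τ : Mat g} (hτ : Sg τ) : co (fun u => th τ u 0) 0 = 1 := by
  classical
  have hs := h1 g τ hτ.2 (1 / 4) (by norm_num) 0
  set c : (Fin g → ℤ) → ℂ := fun m => if ∀ j, (m j : ZMod 4) = (0 : Ix g) j then
    cexp (Real.pi * I * (∑ i, ∑ j, (m i : ℂ) * τ i j * (m j : ℂ)) / 4) else 0 with hc
  have h := co_zero_tsum (F := fun u => th τ u 0) (c := c) ?_ ?_
  · rw [h]; simp [hc]
  · refine Summable.of_nonneg_of_le (fun _ => norm_nonneg _) (fun m => ?_) hs
    simp only [hc]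
    split_ifs
    · apply le_of_eq
      congr 2
      simp only [Pi.zero_apply, mul_zero, Finset.sum_const_zero, add_zero]
      push_cast
      ring
    · simp
  · intro x
    simp only [th]
    congr 1
    funext m
    simp only [hc]
    split_ifs
    · rw [Complex.exp_add, ch]
    · simp

end UniqAux

open UniqAux in
theorem uniq (h0 : OsgS) (h1 : SumS) (h2 : HolS) (h3 : LawS) : UniqS where
  uniq := by
    intro g τ hτ G hd hG
    have hG : Law τ G := hG
    have ht : Law τ (th τ) := h3.law g τ hτ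
    have htd := (h3.holu g τ hτ).1
    set κ : ℂ := co (fun u => G u 0) 0 with hκ
    have hL : Law τ fun u => G u - κ • th τ u := by
      intro p u
      funext a
      simp only [hG p u, ht p u, Pi.sub_apply, Pi.smul_apply, smul_eq_mul, HH]
      ring
    have h5 : co (fun u => (G u - κ • th τ u) 0) 0 = 0 := by
      have := co_sub (hG.per h3 0) (ht.per h3 0) (differentiable_pi.mp hd 0).continuous
        (differentiable_pi.mp htd 0).continuous κ 0
      rw [co_th h1 hτ, mul_one, ← hκ, sub_self] at this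
      exact this
    exact ⟨κ, fun u => sub_eq_zero.mp (hL.eq_zero h3 (hd.sub (htd.const_smul κ)) h5 u)⟩
  ne := by
    intro g τ hτ a
    by_contra hne
    push Not at hne
    have ht : Law τ (th τ) := h3.law g τ hτ
    obtain ⟨w, hw⟩ := ht.shift h3 a
    have hz : (fun u => th τ u 0) = fun _ => 0 := by
      funext u
      obtain ⟨c, -, h⟩ := hw (u - w)
      rw [sub_add_cancel, hne, mul_zero] at h
      exact h
    have := co_th h1 hτ
    rw [hz] at this
    simp [co, av] at this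

end Pool.Agent.Lib.MP_caab05_ag.GB
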