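import Mathlib
import Pool.Agent.Lib.MP_caab05_ag.GB.Stmt

/-! A derivation acting on determinants, adjugates and jets. -/

namespace Pool.Agent.Lib.MP_caab05_ag.GB.XDAux

open Matrix

/-- the ring homomorphism `a ↦ a + ε D a` -/
noncomputable def dual (D : Der) : ℂ →+* TrivSqZeroExt ℂ ℂ where
  toFun a := TrivSqZeroExt.inl a + TrivSqZeroExt.inr (D a)
  map_one' := by ext <;> simp
  map_mul' a b := by
    ext
    · simp
    · simp [Derivation.leibniz, mul_comm]
  map_zero' := by ext <;> simp
  map_add' a b := by ext <;> simp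

theorem dual_snd (D : Der) (a : ℂ) : (dual D a).snd = D a := by simp [dual]

/-- the inclusion of the constants -/
noncomputable def incl : ℂ →+* TrivSqZeroExt ℂ ℂ := TrivSqZeroExt.inlHom ℂ ℂ

/-- the infinitesimal element -/
noncomputable def eps : TrivSqZeroExt ℂ ℂ := TrivSqZeroExt.inr 1

theorem eps_sq : eps ^ 2 = 0 := by
  rw [pow_two]; exact TrivSqZeroExt.inr_mul_inr ℂ _ _

theorem dual_eq (D : Der) (a : ℂ) : dual D a = incl a + eps * incl (D a) := by
  ext <;> simp [dual, incl, eps]

theorem snd_eq (a b : ℂ) : (incl a + eps * incl b).snd = b := by simp [incl, eps]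

variable {n : Type} [Fintype n] [DecidableEq n]

theorem map_dual (D : Der) (J A : Matrix n n ℂ) (h : ∀ i j, D (J i j) = (J * A) i j) :
    (dual D).mapMatrix J = incl.mapMatrix J * (1 + eps • incl.mapMatrix A) := by
  rw [mul_add, mul_one, Matrix.mul_smul, ← map_mul]
  ext1 i j
  simp only [RingHom.mapMatrix_apply, map_apply, Matrix.add_apply, Matrix.smul_apply,
    smul_eq_mul]
  rw [dual_eq, h]

theorem det_eps (A : Matrix n n ℂ) :
    (1 + eps • incl.mapMatrix A).det = 1 + eps * incl A.trace := by
  rw [det_one_add_smul, eps_sq, mul_zero, add_zero, mul_comm]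
  congr 2
  simp [trace]

theorem adj_eps (A : Matrix n n ℂ) :
    (1 + eps • incl.mapMatrix A).adjugate =
      1 + eps • incl.mapMatrix (A.trace • (1 : Matrix n n ℂ) - A) := by
  have e2 : eps * eps = 0 := by rw [← pow_two, eps_sq]
  have h1 : (1 + eps • incl.mapMatrix A) * (1 - eps • incl.mapMatrix A) = 1 := by
    rw [mul_sub, mul_one, add_mul, one_mul, Matrix.smul_mul, Matrix.mul_smul, smul_smul, e2,
      zero_smul, add_zero, add_sub_cancel_right]
  have h2 : (1 + eps • incl.mapMatrix A).adjugate =
      (1 + eps • incl.mapMatrix A).det • (1 - eps • incl.mapMatrix A) := by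
    have h0 := congrArg ((1 + eps • incl.mapMatrix A).adjugate * ·) h1
    simp only [mul_one] at h0
    rw [← h0, ← mul_assoc, adjugate_mul, Matrix.smul_mul, one_mul]
  have h3 : incl.mapMatrix (A.trace • (1 : Matrix n n ℂ)) = incl A.trace • 1 := by
    ext1 i j
    by_cases h : i = j <;> simp [h]
  rw [h2, det_eps, map_sub, h3, add_smul, one_smul, smul_sub, smul_sub, smul_smul, smul_smul,
    mul_right_comm, e2, zero_mul, zero_smul, sub_zero]
  abel

theorem D_det (D : Der) (J A : Matrix n n ℂ) (h : ∀ i j, D (J i j) = (J * A) i j) :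
    D J.det = A.trace * J.det := by
  rw [← dual_snd, RingHom.map_det, map_dual D J A h, det_mul, det_eps, ← RingHom.map_det,
    mul_add, mul_one, mul_left_comm, ← map_mul, snd_eq, mul_comm]

theorem D_adj (D : Der) (J A : Matrix n n ℂ) (h : ∀ i j, D (J i j) = (J * A) i j) (i j : n) :
    D (J.adjugate i j) = ((A.trace • (1 : Matrix n n ℂ) - A) * J.adjugate) i j := by
  have h1 := (dual D).map_adjugate J
  rw [map_dual D J A h, adjugate_mul_distrib, adj_eps, ← RingHom.map_adjugate, add_mul, one_mul,
    Matrix.smul_mul, ← map_mul] at h1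
  have h2 := congrFun (congrFun h1 i) j
  simp only [RingHom.mapMatrix_apply, map_apply, Matrix.add_apply, Matrix.smul_apply,
    smul_eq_mul] at h2
  rw [← dual_snd, h2, snd_eq]

theorem D_adj_vec (D : Der) (J A : Matrix n n ℂ) (h : ∀ i j, D (J i j) = (J * A) i j)
    (w : n → ℂ) (hw : ∀ k, D (w k) = 0) :
    (fun i => D ((J.adjugate *ᵥ w) i)) =
      A.trace • (J.adjugate *ᵥ w) - A *ᵥ (J.adjugate *ᵥ w) := by
  have h1 : (fun i => D ((J.adjugate *ᵥ w) i)) =
      ((A.trace • (1 : Matrix n n ℂ) - A) * J.adjugate) *ᵥ w := by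
    funext i
    simp only [mulVec, dotProduct, map_sum, Derivation.leibniz, hw, smul_eq_mul, mul_zero,
      zero_add, D_adj D J A h]
    exact Finset.sum_congr rfl fun k _ => mul_comm _ _
  rw [h1, ← mulVec_mulVec, sub_mulVec, smul_mulVec, one_mulVec]

theorem D_pow (D : Der) {x a : ℂ} (h : D x = a * x) (k : ℕ) : D (x ^ k) = k * a * x ^ k := by
  induction k with
  | zero => simp
  | succ k ih =>
    rw [pow_succ, Derivation.leibniz, ih, h]
    simp only [smul_eq_mul]
    push_cast
    ring

theorem euler_jet (j : ℕ) : ∀ f : ℂ → ℂ, Differentiable ℂ f →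
    iteratedDeriv j (fun t => t * deriv f t) 0 = j * iteratedDeriv j f 0 := by
  induction j with
  | zero => intro f _; simp
  | succ j ih =>
    intro f hf
    have h1 : Differentiable ℂ (deriv f) := hf.deriv
    have h2 : deriv (fun t => t * deriv f t) = fun t => deriv f t + t * deriv (deriv f) t := by
      funext t
      have := ((hasDerivAt_id' t).fun_mul (h1 t).hasDerivAt).deriv
      simpa using this
    have h3 : Differentiable ℂ fun t => t * deriv (deriv f) t := differentiable_id.mul h1.deriv
    rw [iteratedDeriv_succ', h2, iteratedDeriv_fun_add h1.contDiff.contDiffAt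
      h3.contDiff.contDiffAt, ih _ h1, iteratedDeriv_succ']
    push_cast
    ring

end Pool.Agent.Lib.MP_caab05_ag.GB.XDAux
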