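import Mathlib
import Pool.Agent.Lib.MP_caab05_ag.GB.Stmt
import Pool.Agent.Lib.MP_caab05_ag.GB.XD1

/-! The action of a derivation on the jets of the theta functions. -/

namespace Pool.Agent.Lib.MP_caab05_ag.GB

open MvPolynomial Filter Topology Asymptotics Complex Matrix

namespace XDAux

variable {g : ℕ}

theorem app_zero (M : Mat g) : app M 0 = 0 := mulVec_zero _

theorem app_smul (M : Mat g) (c : ℂ) (x : V g) : app M (c • x) = c • app M x := mulVec_smul _ _ _

theorem app_add (M : Mat g) (x y : V g) : app M (x + y) = app M x + app M y := mulVec_add _ _ _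

/-- `app M` as a continuous linear map -/
noncomputable def appL (M : Mat g) : V g →L[ℂ] V g :=
  LinearMap.toContinuousLinearMap (Matrix.mulVecLin (Matrix.of M))

theorem appL_apply (M : Mat g) (x : V g) : appL M x = app M x := rfl

theorem dK_zero (τ : Mat g) (u : V g) : dK τ 0 u = 0 := map_zero _

theorem du_zero (τ : Mat g) (u : V g) : du τ u 0 = 0 := map_zero _

theorem du_smul (τ : Mat g) (u w : V g) (c : ℂ) : du τ u (c • w) = c • du τ u w := map_smul _ _ _

theorem du_add (τ : Mat g) (u w w' : V g) : du τ u (w + w') = du τ u w + du τ u w' :=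
  map_add _ _ _

theorem has_th {τ : Mat g} (h : Differentiable ℂ (th τ)) (u : V g) (a : Ix g) :
    HasFDerivAt (fun u => th τ u a)
      ((ContinuousLinearMap.proj a).comp (fderiv ℂ (th τ) u)) u :=
  (ContinuousLinearMap.proj (R := ℂ) (φ := fun _ : Ix g => ℂ) a).hasFDerivAt.comp u
    (h u).hasFDerivAt

theorem nul (h2 : TwS) (D : Der) (τ M N : Mat g) (c : ℂ) (h : IsTw D τ M 0 N c) (a : Ix g) :
    D (th τ 0 a) = c * th τ 0 a := by
  have := h2.val _ D _ _ (h.2 a)
  simp only [app_zero, du_zero, dK_zero, Pi.zero_apply, zero_add, dotProduct_zero] at this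
  exact this.symm

theorem D_du (h0 : OsgS) (h2 : TwS) (h4 : LawS) (D : Der) (τ M N : Mat g) (c : ℂ) (hτ : Sg τ)
    (h : IsTw D τ M 0 N c) (w : V g) (a : Ix g) :
    D (du τ 0 w a) = du τ 0 (app M w + fun k => D (w k)) a + c * du τ 0 w a := by
  have hd := (h4.holu g τ hτ).1
  have han : AnalyticOnNhd ℂ (th τ) Set.univ := h0 _ _ _ _ isOpen_univ hd.differentiableOn
  have hf : DifferentiableAt ℂ (fderiv ℂ (th τ)) 0 :=
    (han.fderiv 0 (Set.mem_univ _)).differentiableAt
  have e1 := (ContinuousLinearMap.proj (R := ℂ) (φ := fun _ : Ix g => ℂ) a).hasFDerivAt.comp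
    (0 : V g) (hf.hasFDerivAt.clm_apply (appL M).hasFDerivAt)
  have e2 : HasFDerivAt (fun u : V g => u ⬝ᵥ app N u) (0 : V g →L[ℂ] ℂ) 0 := by
    have : ∀ i, HasFDerivAt (fun u : V g => u i * app N u i) (0 : V g →L[ℂ] ℂ) 0 := by
      intro i
      have b1 := (ContinuousLinearMap.proj (R := ℂ) (φ := fun _ : Fin g => ℂ) i).hasFDerivAt
        (x := 0)
      have b2 := ((ContinuousLinearMap.proj (R := ℂ) (φ := fun _ : Fin g => ℂ) i).comp
        (appL N)).hasFDerivAt (x := 0)
      have b3 := b1.fun_mul b2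
      refine b3.congr_fderiv ?_
      ext x
      simp
    have b4 := HasFDerivAt.fun_sum (u := Finset.univ) fun i _ => this i
    simpa [dotProduct] using b4
  have e3 := e1.fun_add ((e2.add_const c).fun_mul (has_th hd 0 a))
  have e4 : (fun u => du τ u (app M u) a + dK τ 0 u a + (u ⬝ᵥ app N u + c) * th τ u a) =
      fun u => du τ u (app M u) a + (u ⬝ᵥ app N u + c) * th τ u a := by
    funext u; rw [dK_zero, Pi.zero_apply, add_zero]
  have e5 := h.2 a
  rw [e4] at e5
  have e6 := h2.grad _ D _ _ e5 (has_th hd 0 a).differentiableAt e3.differentiableAt w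
  have e7 : fderiv ℂ (fun u => du τ u (app M u) a + (u ⬝ᵥ app N u + c) * th τ u a) 0 = _ :=
    e3.fderiv
  rw [e7, (has_th hd 0 a).fderiv] at e6
  rw [du_add]
  simp only [du]
  simp [appL_apply, app_zero] at e6
  rw [e6, Pi.add_apply]
  ring

theorem dom (h0 : OsgS) (h2 : TwS) (h4 : LawS) (D : Der) (τ M N : Mat g) (c : ℂ) (hτ : Sg τ)
    (h : IsTw D τ M 0 N c) (w : V g) (s : Ix g × Ix g) :
    D (om τ w s) = om τ (app M w + fun k => D (w k)) s + 2 * c * om τ w s := by
  simp only [om, map_sub, Derivation.leibniz, smul_eq_mul, nul h2 D τ M N c h,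
    D_du h0 h2 h4 D τ M N c hτ h]
  ring

theorem om_sum (τ : Mat g) (w : V g) (s : Ix g × Ix g) :
    om τ w s = ∑ i, om τ (Pi.single i 1) s * w i := by
  have : ∀ a, du τ 0 w a = ∑ i, du τ 0 (Pi.single i 1) a * w i := by
    intro a
    conv_lhs => rw [pi_eq_sum_univ' w]
    simp only [du, map_sum, map_smul, Finset.sum_apply, Pi.smul_apply, smul_eq_mul]
    exact Finset.sum_congr rfl fun i _ => mul_comm _ _
  simp only [om]
  rw [this s.1, this s.2, Finset.mul_sum, Finset.mul_sum, ← Finset.sum_sub_distrib]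
  exact Finset.sum_congr rfl fun i _ => by ring

theorem D_Jm (h0 : OsgS) (h2 : TwS) (h4 : LawS) (D : Der) (τ M N : Mat g) (c : ℂ) (hτ : Sg τ)
    (h : IsTw D τ M 0 N c) (s : Fin g → Ix g × Ix g) (k j : Fin g) :
    D (Jm τ s k j) = (Jm τ s * (Matrix.of M + (2 * c) • (1 : Matrix (Fin g) (Fin g) ℂ))) k j := by
  have e : (fun i => D ((Pi.single j 1 : V g) i)) = 0 := by
    funext i
    by_cases hi : i = j
    · subst hi; simp
    · simp [hi]
  rw [Matrix.mul_add, Matrix.mul_smul, Matrix.mul_one, Matrix.add_apply, Matrix.smul_apply,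
    Matrix.mul_apply]
  simp only [Jm, of_apply, smul_eq_mul]
  rw [dom h0 h2 h4 D τ M N c hτ h, e, add_zero, om_sum τ (app M _)]
  simp [app]

/-- the derivative of `Xi` -/
theorem has_Xi {τ : Mat g} (hd : Differentiable ℂ (th τ)) (ab : Ix g × Ix g) (u : V g) :
    DifferentiableAt ℂ (Xi τ ab) u ∧ ∀ w, fderiv ℂ (Xi τ ab) u w =
      du τ u w ab.1 * th τ (I • u) ab.2 + th τ u ab.1 * du τ (I • u) (I • w) ab.2 := by
  have e1 : HasFDerivAt (fun u : V g => I • u) (I • ContinuousLinearMap.id ℂ (V g)) u :=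
    (hasFDerivAt_id u).const_smul I
  have e2 := (has_th hd (I • u) ab.2).comp u e1
  have e3 := (has_th hd u ab.1).fun_mul e2
  refine ⟨e3.differentiableAt, fun w => ?_⟩
  have e4 : fderiv ℂ (Xi τ ab) u = _ := e3.fderiv
  rw [e4]
  simp [du]
  ring

theorem tw_Xi (h0 : OsgS) (h1 : PolS) (h2 : TwS) (h4 : LawS) (D : Der) (τ M N : Mat g) (c : ℂ)
    (hτ : Sg τ) (h : IsTw D τ M 0 N c) (ab : Ix g × Ix g) :
    Tw D (Xi τ ab) fun u => fderiv ℂ (Xi τ ab) u (app M u) + 2 * c * Xi τ ab u := by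
  have hd := (h4.holu g τ hτ).1
  have hI : D I = 0 := h1.D_alg D I ⟨Polynomial.X ^ 2 + 1, by
    exact_mod_cast Polynomial.X_pow_add_C_ne_zero (R := ℚ) two_pos 1, by simp⟩
  have han : AnalyticAt ℂ (fun u => th τ u ab.2) 0 :=
    h0 _ _ _ _ isOpen_univ (fun u _ => (has_th hd u ab.2).differentiableAt.differentiableWithinAt)
      0 (Set.mem_univ _)
  have e1 : ∀ i, Tw D (fun u : V g => (I • u) i) fun u => (0 : V g) i := by
    intro i
    have := h2.mul _ D _ _ _ _ (h2.const (Fin g) D I) (h2.coord _ D i)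
    simpa [hI] using this
  have e2 := h2.comp _ _ D _ _ (fun u : V g => I • u) (fun _ => 0) (h.2 ab.2) han (smul_zero _) e1
  have e3 := h2.mul _ D _ _ _ _ (h.2 ab.1) e2
  refine h2.congr _ D _ _ _ _ e3 (Eventually.of_forall fun u => rfl)
    (Eventually.of_forall fun u => ?_)
  simp only [(has_Xi hd ab u).2, dK_zero, Pi.zero_apply, map_zero, add_zero, app_smul,
    smul_dotProduct, dotProduct_smul, smul_eq_mul, Xi]
  linear_combination (u ⬝ᵥ app N u) * th τ u ab.1 * th τ (I • u) ab.2 * I_mul_I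

theorem D_jet (h0 : OsgS) (h1 : PolS) (h2 : TwS) (h4 : LawS) (D : Der) (τ M N : Mat g) (c : ℂ)
    (hτ : Sg τ) (h : IsTw D τ M 0 N c) (ab : Ix g × Ix g) (v : V g) (μ : ℂ)
    (hv : (fun i => D (v i)) = μ • v - app M v) (j : ℕ) :
    D (iteratedDeriv j (fun t : ℂ => Xi τ ab (t • v)) 0) =
      (j * μ + 2 * c) * iteratedDeriv j (fun t : ℂ => Xi τ ab (t • v)) 0 := by
  have hd := (h4.holu g τ hτ).1
  have hX : Differentiable ℂ (Xi τ ab) := fun u => (has_Xi hd ab u).1
  have han : AnalyticAt ℂ (Xi τ ab) 0 :=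
    h0 _ _ _ _ isOpen_univ hX.differentiableOn 0 (Set.mem_univ _)
  have e1 : ∀ i, Tw D (fun u : Unit → ℂ => (u () • v) i) fun u => (u () • fun i => D (v i)) i := by
    intro i
    have := h2.mul _ D _ _ _ _ (h2.coord Unit D ()) (h2.const Unit D (v i))
    simpa using this
  have e2 := h2.comp _ _ D _ _ (fun u : Unit → ℂ => u () • v)
    (fun u => u () • fun i => D (v i)) (tw_Xi h0 h1 h2 h4 D τ M N c hτ h ab) han (by simp) e1
  set f : ℂ → ℂ := fun t => Xi τ ab (t • v) with hf
  have e3 : ∀ t, HasDerivAt f (fderiv ℂ (Xi τ ab) (t • v) v) t := by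
    intro t
    have := (hX (t • v)).hasFDerivAt.comp_hasDerivAt t ((hasDerivAt_id t).smul_const v)
    rw [one_smul] at this
    exact this
  have hf1 : Differentiable ℂ f := fun t => (e3 t).differentiableAt
  have hf2 : Differentiable ℂ fun t => μ * (t * deriv f t) :=
    (differentiable_id.mul hf1.deriv).const_mul μ
  have hf3 : Differentiable ℂ fun t => 2 * c * f t := hf1.const_mul _
  have e4 : Tw D (fun u : Unit → ℂ => f (u ()))
      fun u => (fun t => μ * (t * deriv f t) + 2 * c * f t) (u ()) := by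
    refine h2.congr _ D _ _ _ _ e2 (Eventually.of_forall fun u => rfl)
      (Eventually.of_forall fun u => ?_)
    have e0 : f (u ()) = Xi τ ab (u () • v) := rfl
    simp only [hv, (e3 _).deriv, app_smul, map_smul, map_sub, smul_eq_mul, e0]
    ring
  have e5 := (h2.jet D f _ (hf1.analyticAt 0) ((hf2.add hf3).analyticAt 0)).1 e4 j
  rw [← e5, iteratedDeriv_add hf2.contDiff.contDiffAt hf3.contDiff.contDiffAt,
    iteratedDeriv_const_mul_field, iteratedDeriv_const_mul_field, euler_jet j f hf1]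
  ring

theorem dX (h0 : OsgS) (h1 : PolS) (h2 : TwS) (h4 : LawS) (J : ℕ) (D : Der) (τ M N : Mat g)
    (c : ℂ) (hτ : Sg τ) (h : IsTw D τ M 0 N c) :
    ∃ c' : ℂ, ∀ q, D (Xc τ J q) = c' * Xc τ J q := by
  set A : Matrix (Fin g) (Fin g) ℂ := Matrix.of M + (2 * c) • (1 : Matrix (Fin g) (Fin g) ℂ)
    with hA
  refine ⟨2 * c + J * A.trace, ?_⟩
  rintro ⟨j, ab, s, w, a⟩
  have e1 := D_Jm h0 h2 h4 D τ M N c hτ h s
  have e2 := D_adj_vec D _ A e1 (fun k => ((w k : ℕ) : ℂ)) fun k => D.map_natCast _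
  have e3 := D_jet h0 h1 h2 h4 D τ M N c hτ h ab _ (A.trace - 2 * c) (by
    rw [e2, hA, add_mulVec, smul_mulVec, one_mulVec, sub_smul, app]
    abel) j
  have e4 := D_pow D (D_det D _ A e1) (J - j)
  have e5 := D_pow D (nul h2 D τ M N c h a) (2 * j)
  have e6 : (j : ℕ) ≤ J := Nat.lt_succ_iff.1 j.2
  simp only [Xc, Derivation.leibniz, smul_eq_mul]
  rw [e3, e4, e5]
  push_cast [e6]
  ring

theorem rigid (D : Der) (τ M K : Mat g) (S : Set (W g))
    (h : ∀ f ∈ S, (∀ j, D (f j) = 0) ∧ per τ f = 0 ∧ beta D τ M K f = 0)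
    (hs : ∀ w, per τ w = 0 → w ∈ Submodule.span ℂ S) : K = 0 ∧ ∀ i j, D (τ i j) = 0 := by
  have key : ∀ w ∈ Submodule.span ℂ S,
      app (fun i j => D (τ i j)) (lft w) = 0 ∧ app K (lft w) = 0 := by
    intro w hw
    induction hw using Submodule.span_induction with
    | mem f hf =>
      obtain ⟨a1, a2, a3⟩ := h f hf
      have b1 : app (fun i j => D (τ i j)) (lft f) = 0 := by
        funext i
        have := congrArg D (congrFun a2 i)
        simp only [per, app, Pi.add_apply, mulVec, dotProduct, map_add, map_sum,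
          Derivation.leibniz, lft, rgt, a1, of_apply, smul_eq_mul, mul_zero, zero_add, add_zero,
          Pi.zero_apply, map_zero] at this
        simp only [app, mulVec, dotProduct, of_apply, lft, Pi.zero_apply]
        rw [← this]
        exact Finset.sum_congr rfl fun k _ => mul_comm _ _
      refine ⟨b1, ?_⟩
      rw [beta, a2, app_zero, zero_add] at a3
      funext i
      have c1 := congrFun b1 i
      have c2 := congrFun a3 i
      simp only [app, mulVec, dotProduct, of_apply, Pi.zero_apply, sub_mul,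
        Finset.sum_sub_distrib] at c1 c2 ⊢
      linear_combination c1 - c2
    | zero => exact ⟨app_zero _, app_zero _⟩
    | add x y _ _ hx hy =>
      have : lft (x + y) = lft x + lft y := rfl
      rw [this, app_add, app_add, hx.1, hx.2, hy.1, hy.2, add_zero]
      exact ⟨rfl, rfl⟩
    | smul a x _ hx =>
      have : lft (a • x) = a • lft x := rfl
      rw [this, app_smul, app_smul, hx.1, hx.2, smul_zero]
      exact ⟨rfl, rfl⟩
  have key2 : ∀ m : V g, app (fun i j => D (τ i j)) m = 0 ∧ app K m = 0 := fun m =>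
    key (Sum.elim m (-app τ m)) (hs _ (add_neg_cancel (app τ m)))
  refine ⟨?_, fun i j => ?_⟩
  · funext i j
    simpa [app] using congrFun (key2 (Pi.single j 1)).2 i
  · simpa [app] using congrFun (key2 (Pi.single j 1)).1 i

end XDAux

theorem xd (h0 : OsgS) (h1 : PolS) (h2 : TwS) (h4 : LawS) : XDS where
  nul _ D τ M N c _ h := XDAux.nul h2 D τ M N c h
  dom _ D τ M N c hτ h := XDAux.dom h0 h2 h4 D τ M N c hτ h
  dX _ J D τ M N c _ hτ h := XDAux.dX h0 h1 h2 h4 J D τ M N c hτ h
  rigid _ D τ M K S h hs := XDAux.rigid D τ M K S h hs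

end Pool.Agent.Lib.MP_caab05_ag.GB
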