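import Mathlib
import Pool.Agent.Lib.MP_caab05_ag.GB.Add
import Pool.Agent.Lib.MP_caab05_ag.GB.Aff
import Pool.Agent.Lib.MP_caab05_ag.GB.CMPt
import Pool.Agent.Lib.MP_caab05_ag.GB.Cpt
import Pool.Agent.Lib.MP_caab05_ag.GB.CuA
import Pool.Agent.Lib.MP_caab05_ag.GB.CuB
import Pool.Agent.Lib.MP_caab05_ag.GB.Dep
import Pool.Agent.Lib.MP_caab05_ag.GB.Der
import Pool.Agent.Lib.MP_caab05_ag.GB.Ell
import Pool.Agent.Lib.MP_caab05_ag.GB.Fac
import Pool.Agent.Lib.MP_caab05_ag.GB.FamRel
import Pool.Agent.Lib.MP_caab05_ag.GB.Geo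
import Pool.Agent.Lib.MP_caab05_ag.GB.Hol
import Pool.Agent.Lib.MP_caab05_ag.GB.Hom
import Pool.Agent.Lib.MP_caab05_ag.GB.Ideal
import Pool.Agent.Lib.MP_caab05_ag.GB.Img
import Pool.Agent.Lib.MP_caab05_ag.GB.Law
import Pool.Agent.Lib.MP_caab05_ag.GB.Mat
import Pool.Agent.Lib.MP_caab05_ag.GB.Mum
import Pool.Agent.Lib.MP_caab05_ag.GB.Osg
import Pool.Agent.Lib.MP_caab05_ag.GB.Pol
import Pool.Agent.Lib.MP_caab05_ag.GB.Rel
import Pool.Agent.Lib.MP_caab05_ag.GB.Riem
import Pool.Agent.Lib.MP_caab05_ag.GB.Rig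
import Pool.Agent.Lib.MP_caab05_ag.GB.Shi
import Pool.Agent.Lib.MP_caab05_ag.GB.Sym
import Pool.Agent.Lib.MP_caab05_ag.GB.Tor
import Pool.Agent.Lib.MP_caab05_ag.GB.Trans
import Pool.Agent.Lib.MP_caab05_ag.GB.TwA
import Pool.Agent.Lib.MP_caab05_ag.GB.TwEx
import Pool.Agent.Lib.MP_caab05_ag.GB.TwL
import Pool.Agent.Lib.MP_caab05_ag.GB.Twc
import Pool.Agent.Lib.MP_caab05_ag.GB.Uniq
import Pool.Agent.Lib.MP_caab05_ag.GB.Weak
import Pool.Agent.Lib.MP_caab05_ag.GB.XD
import Pool.Agent.Lib.MP_caab05_ag.GB.XHol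

/-! The general steps, without hypotheses. -/

namespace Pool.Agent.Lib.MP_caab05_ag.GB

theorem dep' : DepS := dep osg
theorem rel' : RelS := rel osg pol dep'
theorem img' : ImgS := img osg dep' rel'
theorem twc' : TwS := twc osg pol
theorem twEx' : TwExS := twEx osg pol twc'
theorem law' : LawS := law osg sumS hol
theorem uniq' : UniqS := uniq osg sumS hol law'
theorem fac' : FacS := fac sumS
theorem mum' : MumS := mum osg sumS hol uniq' fac'
theorem add' : AddS := addS pol (rie fac') mum'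
theorem geo' : GeoS := geo osg pol law' uniq' add'
theorem trans' : TransS := trans law' uniq' geo'
theorem rig' : RigS := rig law' uniq' geo'
theorem twA' : TwAS := twA osg pol twc' twEx' law' geo'
theorem twM' : TwMS := twM add' twA' (twL pol law' geo' rig') law' geo' rig'
theorem xhol' : XHolS := xhol osg hol law' geo'
theorem hom' : HomS := hom osg pol twc' law' geo' xhol' (homRel rel' law' geo')
theorem xd' : XDS := xd osg pol twc' law'
theorem tor'' : TorS := tor' osg hol law' geo' xhol'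
theorem sym' : SymS := sym weak
theorem mod' : ModS := modS weak sym' riem
theorem fam' : FamS := famS sym' riem
theorem ell' : EllS := ellS pol twM' hom' xd' weak mod'
theorem famRel' : FamRelS := famRel osg pol rel' trans' xhol' tor'' (cptS weak) (matS weak)
theorem shi' : ShiS := shi pol xhol' xd' weak fam' famRel' (cmPt pol twM' xd' weak ell')
theorem cuB' : CuBS := cuB cuA
theorem ideal' : IdealS := ideal osg pol twc' der law' geo' img'

end Pool.Agent.Lib.MP_caab05_ag.GB
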