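import Mathlib
import Pool.Agent.Lib.MP_caab05_ag.GB.Stmt2

/-! The periods of the type of the curve. -/

namespace Pool.Agent.Lib.MP_caab05_ag.GB

open MvPolynomial Filter Topology Asymptotics Complex Matrix

namespace CurveAux

variable {g : ℕ}

theorem app_smul (M : Mat g) (c : ℂ) (x : V g) : app M (c • x) = c • app M x :=
  Matrix.mulVec_smul _ _ _

/-- the period map as a linear map -/
noncomputable def perL (τ : Mat g) : W g →ₗ[ℂ] V g where
  toFun := per τ
  map_add' x y := by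
    have e : app τ (lft x + lft y) = app τ (lft x) + app τ (lft y) := Matrix.mulVec_add _ _ _
    show app τ (lft x + lft y) + (rgt x + rgt y) = app τ (lft x) + rgt x + (app τ (lft y) + rgt y)
    rw [e]
    abel
  map_smul' c x := by
    show app τ (c • lft x) + c • rgt x = c • (app τ (lft x) + rgt x)
    rw [app_smul, smul_add]

theorem exists_exp {r : ℕ} (hr : 2 ≤ r) {z : ℂ} (hz : IsPrimitiveRoot z (2 ^ r)) :
    z.im ≠ 0 ∧ (0 < z.im → ∃ t : ℕ, Odd t ∧ t < 2 ^ (r - 1) ∧ z = ze (2 * 2 ^ (r - 1)) ^ t) := by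
  have hN : 2 * 2 ^ (r - 1) = 2 ^ r := by
    rw [← pow_succ']
    congr 1
    omega
  constructor
  · intro h
    have h1 : z = (z.re : ℂ) := Complex.ext rfl (by simpa using h)
    have h2 : z.re ^ (2 ^ r) = 1 := by
      have := hz.pow_eq_one
      rw [h1] at this
      exact_mod_cast this
    have h3 : z ^ 2 = 1 := by
      rw [h1]
      rcases (pow_eq_one_iff_of_ne_zero (by positivity)).1 h2 with h | h
      · rw [h]; norm_num
      · rw [h.1]; norm_num
    have h4 := Nat.le_of_dvd (by norm_num) (hz.dvd_of_pow_eq_one 2 h3)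
    have h5 : 2 ^ 2 ≤ 2 ^ r := Nat.pow_le_pow_right (by norm_num) hr
    omega
  · intro h
    obtain ⟨t, ht, hc, rfl⟩ := (Complex.isPrimitiveRoot_iff z _ (by positivity)).1 hz
    refine ⟨t, ?_, ?_, ?_⟩
    · exact Nat.coprime_two_right.1 (Nat.Coprime.coprime_dvd_right (dvd_pow_self 2 (by omega)) hc)
    · by_contra hlt
      rw [not_lt] at hlt
      have e : 2 * (Real.pi : ℂ) * I * ((t : ℂ) / ((2 ^ r : ℕ) : ℂ)) =
          ((2 * Real.pi * (t / (2 ^ r : ℕ)) : ℝ) : ℂ) * I := by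
        push_cast
        ring
      rw [e, Complex.exp_ofReal_mul_I_im] at h
      have hp : (0 : ℝ) < (2 ^ r : ℕ) := by positivity
      have a1 : (t : ℝ) / (2 ^ r : ℕ) ≤ 1 := by
        rw [div_le_one hp]
        exact_mod_cast ht.le
      have a2 : (1 : ℝ) / 2 ≤ t / (2 ^ r : ℕ) := by
        rw [div_le_div_iff₀ (by norm_num) hp]
        have : 1 * 2 ^ r ≤ t * 2 := by omega
        exact_mod_cast this
      have a3 := Real.sin_nonpos_of_nonpos_of_neg_pi_le
        (x := 2 * Real.pi * (t / (2 ^ r : ℕ)) - 2 * Real.pi)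
        (by nlinarith [Real.pi_pos]) (by nlinarith [Real.pi_pos])
      rw [Real.sin_sub_two_pi] at a3
      linarith
    · rw [hN, ze, ← Complex.exp_nat_mul]
      congr 1
      ring

theorem exists_den {ι : Type} [Finite ι] (w : ι → W g) (h : ∀ i, IsRat (w i)) :
    ∃ N : ℤ, N ≠ 0 ∧ ∀ i, ∃ p : Zg g, (N : ℂ) • w i = cst p := by
  choose q hq using h
  obtain ⟨b, hb⟩ := IsLocalization.exist_integer_multiples_of_finite (nonZeroDivisors ℤ)
    (fun x : ι × (Fin g ⊕ Fin g) => q x.1 x.2)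
  refine ⟨b, nonZeroDivisors.coe_ne_zero b, fun i => ?_⟩
  choose p hp using fun a => hb (i, a)
  refine ⟨p, funext fun a => ?_⟩
  have e := congrArg (Rat.cast : ℚ → ℂ) (hp a)
  simp only [eq_intCast, Rat.cast_intCast, zsmul_eq_mul, Rat.cast_mul] at e
  simp only [Pi.smul_apply, smul_eq_mul, cst, hq, e]

open Classical in
theorem per_sum {L : Type} [Field L] [NumberField L] {Φ : Set (Emb L)} {τ : Mat g}
    {v : Emb L → W g} (h : IsModel Φ τ v) (X : Emb L → ℂ) :
    per τ (∑ φ : Emb L, X φ • v φ) = ∑ φ : Φ, X φ • per τ (v φ) := by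
  have h0 : ∀ φ, φ ∉ Φ → per τ (v φ) = 0 := by
    intro φ hφ
    have e := (h.ker (Pi.single φ 1)).2 fun ψ hψ =>
      Pi.single_eq_of_ne (fun e : ψ = φ => hφ (e ▸ hψ)) _
    simpa [Pi.single_apply] using e
  have e : per τ (∑ φ : Emb L, X φ • v φ) = ∑ φ : Emb L, X φ • per τ (v φ) := by
    have := map_sum (perL τ) (fun φ => X φ • v φ) Finset.univ
    simp only [map_smul] at this
    exact this
  rw [e, ← Finset.sum_subtype (Finset.univ.filter (· ∈ Φ)) (p := (· ∈ Φ)) (by simp)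
    (fun φ => X φ • per τ (v φ))]
  refine (Finset.sum_filter_of_ne fun φ _ hφ => ?_).symm
  by_contra hn
  exact hφ (by rw [h0 φ hn, smul_zero])

end CurveAux

open CurveAux Classical in
theorem curve (_h1 : PolS) (h6 : ModS) (h7 : EllS) (h8 : CuAS) (h9 : CuTwS) : CurveS := by
  intro r L _ _ c ζ D hr hc hζ hD
  have hN : 2 * 2 ^ (r - 1) = 2 ^ r := by
    rw [← pow_succ']
    congr 1
    omega
  have hp : ∀ φ : Emb L, IsPrimitiveRoot (φ ζ) (2 ^ r) := fun φ =>
    hζ.map_of_injective φ.injective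
  have hT : IsType {ψ : Emb L | 0 < (ψ ζ).im} := by
    intro φ
    have h0 := (exists_exp hr (hp φ)).1
    simp only [Set.mem_ofPred_eq, cj, NumberField.ComplexEmbedding.conjugate_coe_eq, conj_im,
      not_lt]
    exact ⟨fun h => by linarith, fun h => lt_of_le_of_ne (by linarith) h0.symm⟩
  refine ⟨hT, ?_⟩
  set Φ : Set (Emb L) := {ψ : Emb L | 0 < (ψ ζ).im} with hΦ
  obtain ⟨g, τ, v, hm⟩ := h6 L c Φ hc hT
  obtain ⟨M, N, c', htw, hper, hM⟩ := h7.still L c Φ D g τ v hc hT hm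
  choose t ht1 ht2 ht3 using fun φ : Φ => (exists_exp hr (hp φ)).2 φ.2
  set n := 2 ^ (r - 1) with hn
  have hn0 : 0 < n := by positivity
  obtain ⟨N0, hN0, hden⟩ := exists_den
    (fun x : Fin (2 ^ r) × Bool => ∑ φ : Emb L,
      φ (ζ ^ (x.1 : ℕ) * if x.2 then 1 else 2 * ζ / (1 + ζ)) • v φ) fun x => hm.rat _
  have hB : ∀ φ : Φ, (BB (2 * n) (t φ) : ℂ) ≠ 0 := fun φ =>
    ofReal_ne_zero.2 (h8.pos _ _ (by omega) (ht1 φ).pos).ne'
  have hlat : ∀ (j : ℕ) (b : Bool), ∃ p, ∑ φ : Φ,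
      ((N0 : ℂ) * φ.1 (ζ ^ j * if b then 1 else 2 * ζ / (1 + ζ))) • per τ (v φ) =
        per τ (cst p) := by
    intro j b
    obtain ⟨p, hp'⟩ := hden (⟨j % 2 ^ r, Nat.mod_lt _ (by positivity)⟩, b)
    refine ⟨p, ?_⟩
    have e : ζ ^ (j % 2 ^ r) = ζ ^ j := by
      conv_rhs => rw [← Nat.div_add_mod j (2 ^ r), pow_add, pow_mul, hζ.pow_eq_one, one_pow,
        one_mul]
    simp only [e, Finset.smul_sum, smul_smul] at hp'
    rw [← hp', per_sum hm]
  have hAJ : IsAJ n τ t fun φ : Φ => ((N0 : ℂ) / BB (2 * n) (t φ)) • per τ (v φ) := by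
    refine ⟨hm.sg, ?_, ht1, ht2, hn0, fun j => ?_, fun j => ?_⟩
    · exact (Nat.even_pow' (by omega)).2 even_two
    · obtain ⟨p, hp'⟩ := hlat j true
      refine ⟨p, ?_⟩
      rw [← hp']
      refine Finset.sum_congr rfl fun φ _ => ?_
      rw [smul_smul]
      congr 1
      have := hB φ
      simp only [if_true, mul_one, map_pow, ht3 φ]
      rw [← pow_mul, mul_comm (t φ) j]
      field_simp
    · obtain ⟨p, hp'⟩ := hlat j false
      refine ⟨p, ?_⟩
      rw [← hp']
      refine Finset.sum_congr rfl fun φ _ => ?_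
      rw [smul_smul]
      congr 1
      have := hB φ
      simp only [Bool.false_eq_true, if_false, map_mul, map_pow, map_div₀, map_add, map_one,
        map_ofNat, ht3 φ]
      rw [← pow_mul, mul_comm (t φ) j]
      field_simp
  have key := h9 g Φ n τ t _ D M N c' hAJ htw
  have key2 : per τ (∑ φ : Emb L, ((N0 : ℂ) * ell D Φ φ) • v φ) = 0 := by
    rw [per_sum hm, ← key]
    refine Finset.sum_congr rfl fun φ _ => ?_
    have e : (fun k => D ((((N0 : ℂ) / BB (2 * n) (t φ)) • per τ (v φ)) k)) = 0 := by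
      funext k
      have hb : D (BB (2 * n) (t φ) : ℂ) = 0 := by
        rw [hN]
        exact hD _ (ht1 φ) (by have := ht2 φ; omega)
      simp only [Pi.smul_apply, smul_eq_mul, Derivation.leibniz, hper, Derivation.leibniz_div, hb,
        Derivation.map_intCast, mul_zero, sub_zero, add_zero, Pi.zero_apply]
    rw [e, add_zero, app_smul, hM, smul_smul, smul_smul]
    congr 1
    have := hB φ
    field_simp
  have key3 : ∀ φ ∈ Φ, ell D Φ φ = 0 := fun φ hφ =>
    (mul_eq_zero.1 ((hm.ker _).1 key2 φ hφ)).resolve_left (Int.cast_ne_zero.2 hN0)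
  intro φ
  rw [elt]
  split_ifs with h
  · exact key3 φ h
  · rw [key3 (cj φ) (by by_contra h'; exact h ((hT φ).2 h')), neg_zero]

end Pool.Agent.Lib.MP_caab05_ag.GB
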