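import Mathlib
import Pool.Agent.Lib.MP_caab05_ag.GB.Stmt2

/-! Cyclotomic fields of two-power conductor, and a Vandermonde span. -/

namespace Pool.Agent.Lib.MP_caab05_ag.GB

open Complex NumberField

namespace CycAux

theorem span_eq {d l : ℕ} (a ω : Fin d → ℂ) (n : Fin l → ℂ) (hn : ∀ i, n i ≠ 0)
    (hl : (Finset.univ.image a).card ≤ l) :
    Submodule.span ℂ (Set.range fun (i : Fin l) (k : Fin d) => n i * a k ^ (i : ℕ) * ω k) =
      Submodule.span ℂ (Set.range fun (α : Finset.univ.image a) (k : Fin d) =>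
        if a k = α.1 then ω k else 0) := by
  classical
  apply le_antisymm
  · rw [Submodule.span_le]
    rintro _ ⟨i, rfl⟩
    refine (Submodule.mem_span_range_iff_exists_fun ℂ).2 ⟨fun α => n i * α.1 ^ (i : ℕ), ?_⟩
    funext k
    rw [Finset.sum_apply, Finset.sum_eq_single ⟨a k, by simp⟩]
    · simp
    · intro b _ hb
      have : a k ≠ b.1 := fun h => hb (Subtype.ext h.symm)
      simp [this]
    · simp
  · rw [Submodule.span_le]
    rintro _ ⟨⟨α, hα⟩, rfl⟩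
    refine (Submodule.mem_span_range_iff_exists_fun ℂ).2
      ⟨fun i => (Lagrange.basis (Finset.univ.image a) id α).coeff i / n i, ?_⟩
    funext k
    have hdeg : (Lagrange.basis (Finset.univ.image a) id α).natDegree < l := by
      rw [Lagrange.natDegree_basis (Set.injOn_id _) hα]
      have := Finset.card_pos.2 ⟨α, hα⟩
      omega
    have e := Polynomial.eval_eq_sum_range' hdeg (a k)
    rw [Finset.sum_range] at e
    have e2 : (∑ i : Fin l, ((Lagrange.basis (Finset.univ.image a) id α).coeff i / n i) •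
        fun k => n i * a k ^ (i : ℕ) * ω k) k =
        (Lagrange.basis (Finset.univ.image a) id α).eval (a k) * ω k := by
      rw [Finset.sum_apply, e, Finset.sum_mul]
      refine Finset.sum_congr rfl fun i _ => ?_
      have := hn i
      simp only [Pi.smul_apply, smul_eq_mul]
      field_simp
    rw [e2]
    by_cases h : a k = α
    · have := Lagrange.eval_basis_self (v := id) (Set.injOn_id _) hα
      simp only [id] at this
      simp only [h, this, if_true, one_mul]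
    · have := Lagrange.eval_basis_of_ne (s := Finset.univ.image a) (v := id) (Ne.symm h)
        (Finset.mem_image_of_mem a (Finset.mem_univ k))
      simp only [id] at this
      simp only [h, this, if_false, zero_mul]

variable {L : Type} [Field L] [NumberField L]

omit [NumberField L] in
theorem cj_cj (φ : Emb L) : cj (cj φ) = φ := by
  ext x
  simp

omit [NumberField L] in
theorem cj_comp (φ : Emb L) (σ : L →+* L) : (cj φ).comp σ = cj (φ.comp σ) := by
  ext x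
  simp [ComplexEmbedding.conjugate_coe_eq]

theorem card_type {Φ : Set (Emb L)} (h : IsType Φ) {m : ℕ} (hm : Module.finrank ℚ L = 2 * m) :
    Φ.ncard = m := by
  have h1 : Φ.ncard + Φᶜ.ncard = 2 * m := by
    rw [Set.ncard_add_ncard_compl, Nat.card_eq_fintype_card, Embeddings.card, hm]
  have h2 : Φᶜ = cj '' Φ := by
    ext φ
    constructor
    · intro hφ
      exact ⟨cj φ, (h _).2 (by rw [cj_cj]; exact hφ), cj_cj φ⟩
    · rintro ⟨ψ, hψ, rfl⟩
      exact (h ψ).1 hψ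
  have h3 : Function.Injective (cj : Emb L → Emb L) :=
    Function.LeftInverse.injective (g := cj) cj_cj
  rw [h2, Set.ncard_image_of_injective _ h3] at h1
  omega

omit [NumberField L] in
theorem swap_type {S : Set (Emb L)} (h : IsType S) {φ₁ : Emb L} (h1 : φ₁ ∈ S) :
    IsType (insert (cj φ₁) (S \ {φ₁})) := by
  have h3 : Function.Injective (cj : Emb L → Emb L) :=
    Function.LeftInverse.injective (g := cj) cj_cj
  intro φ
  simp only [Set.mem_insert_iff, Set.mem_sdiff, Set.mem_singleton_iff, h3.eq_iff, not_or, not_and,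
    not_not]
  constructor
  · rintro (rfl | ⟨h2, h4⟩)
    · refine ⟨fun e => (h φ₁).1 h1 (e.symm ▸ h1), fun _ => cj_cj φ₁⟩
    · exact ⟨h4, fun h5 => absurd h5 ((h φ).1 h2)⟩
  · rintro ⟨h2, h4⟩
    by_cases h5 : cj φ ∈ S
    · left
      rw [← h4 h5, cj_cj]
    · exact Or.inr ⟨(h φ).2 h5, h2⟩

theorem primitive {S : Set (Emb L)} (h : IsType S) {φ₁ : Emb L} (h1 : φ₁ ∈ S)
    {c u : L ≃ₐ[ℚ] L} (hc : IsCj c) (hu : ∀ χ ∈ S, χ.comp (u : L →+* L) ∈ S)
    (huu : ∀ χ : Emb L, (χ.comp (u : L →+* L)).comp (u : L →+* L) = χ)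
    (hu1 : ∀ χ : Emb L, χ.comp (u : L →+* L) ≠ χ) (h3 : 3 ≤ S.ncard)
    (htr : ∀ φ ψ : Emb L, ∃ σ : L ≃ₐ[ℚ] L, ψ = φ.comp (σ : L →+* L))
    (hcm : ∀ σ σ' : L ≃ₐ[ℚ] L, σ * σ' = σ' * σ) (φ ψ : Emb L) (hne : φ ≠ ψ) :
    ∃ σ : L ≃ₐ[ℚ] L, φ.comp (σ : L →+* L) ∈ insert (cj φ₁) (S \ {φ₁}) ∧
      ψ.comp (σ : L →+* L) ∉ insert (cj φ₁) (S \ {φ₁}) := by
  have hT := swap_type h h1
  generalize hΦ : insert (cj φ₁) (S \ {φ₁}) = Φ at hT
  have mem : ∀ χ, χ ∈ Φ ↔ χ = cj φ₁ ∨ (χ ∈ S ∧ χ ≠ φ₁) := fun χ => by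
    rw [← hΦ]
    simp
  have comm : ∀ (χ : Emb L) (σ σ' : L ≃ₐ[ℚ] L), (χ.comp (σ : L →+* L)).comp (σ' : L →+* L) =
      (χ.comp (σ' : L →+* L)).comp (σ : L →+* L) := fun χ σ σ' => by
    ext x
    exact congrArg χ (congrArg (fun s : L ≃ₐ[ℚ] L => s x) (hcm σ σ'))
  by_contra hcon
  push Not at hcon
  obtain ⟨σ₀, rfl⟩ := htr φ ψ
  have p1 : ∀ χ ∈ Φ, χ.comp (σ₀ : L →+* L) ∈ Φ := fun χ hχ => by
    obtain ⟨σ, rfl⟩ := htr φ χ
    rw [comm]
    exact hcon σ hχ
  have p2 : ∀ χ, χ ∉ Φ → χ.comp (σ₀ : L →+* L) ∉ Φ := fun χ hχ h' => by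
    have := p1 (cj χ) ((hT _).2 (by rw [cj_cj]; exact hχ))
    rw [cj_comp] at this
    exact (hT _).1 h' this
  have n1 : φ₁ ∉ Φ := fun h' => (hT _).1 h' ((mem _).2 (Or.inl rfl))
  have q1 : (φ₁.comp (u : L →+* L)).comp (σ₀ : L →+* L) ∈ Φ :=
    p1 _ ((mem _).2 (Or.inr ⟨hu _ h1, hu1 _⟩))
  have q2 : ((φ₁.comp (u : L →+* L)).comp (σ₀ : L →+* L)).comp (u : L →+* L) ∉ Φ := by
    rw [comm, huu]
    exact p2 _ n1
  rcases (mem _).1 q1 with e | ⟨e1, _⟩
  · have e' : ∀ x, u (σ₀ x) = c x := fun x => φ₁.injective (by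
      rw [hc φ₁ x]
      exact congrArg (fun f : Emb L => f x) e)
    obtain ⟨χ, hχ, hχ'⟩ : ∃ χ ∈ S, χ ∉ ({φ₁, φ₁.comp (u : L →+* L)} : Set (Emb L)) := by
      by_contra hn
      push Not at hn
      have := (Set.ncard_le_ncard hn (Set.toFinite _)).trans (Set.ncard_pair (hu1 φ₁).symm).le
      omega
    simp only [Set.mem_insert_iff, Set.mem_singleton_iff, not_or] at hχ'
    have r1 : χ.comp (u : L →+* L) ∈ Φ :=
      (mem _).2 (Or.inr ⟨hu _ hχ, fun e => hχ'.2 (by rw [← e, huu])⟩)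
    have r2 : (χ.comp (u : L →+* L)).comp (σ₀ : L →+* L) = cj χ := by
      ext x
      exact (congrArg χ (e' x)).trans (hc χ x)
    exact (hT _).1 ((mem _).2 (Or.inr ⟨hχ, hχ'.1⟩)) (r2 ▸ p1 _ r1)
  · have e2 : ((φ₁.comp (u : L →+* L)).comp (σ₀ : L →+* L)).comp (u : L →+* L) = φ₁ := by
      by_contra hn
      exact q2 ((mem _).2 (Or.inr ⟨hu _ e1, hn⟩))
    rw [comm, huu] at e2
    apply hne
    ext x
    have e3 : φ₁ (σ₀ x) = φ₁ x := RingHom.congr_fun e2 x
    exact congrArg φ (φ₁.injective e3).symm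

end CycAux

open CycAux

theorem spanS : SpanS := by
  classical
  intro d l a ω n F _ hω hF hn hl y
  have e : Submodule.span ℂ (Set.range y) = _ := span_eq a ω n hn hl
  rw [e]
  constructor
  · rw [finrank_span_eq_card, Fintype.card_coe]
    rw [Fintype.linearIndependent_iff]
    intro c hc α
    obtain ⟨k, _, hk⟩ := Finset.mem_image.1 α.2
    have e1 := congrFun hc k
    rw [Finset.sum_apply, Finset.sum_eq_single α] at e1
    · simpa [hk, hω k] using e1
    · intro b _ hb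
      have : a k ≠ b.1 := fun h => hb (Subtype.ext (h.symm.trans hk))
      simp [this]
    · simp
  · apply le_antisymm
    · rw [Submodule.span_le]
      exact fun w hw => hw.1
    · rw [Submodule.span_le]
      rintro _ ⟨α, rfl⟩
      obtain ⟨k, _, hk⟩ := Finset.mem_image.1 α.2
      have e1 : (fun j => if a j = α.1 then ω j else 0) =
          ω k • (ω k)⁻¹ • fun j => if a j = α.1 then ω j else 0 := by
        rw [smul_inv_smul₀ (hω k)]
      change (fun j => if a j = α.1 then ω j else 0) ∈ _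
      rw [e1]
      refine Submodule.smul_mem _ _ (Submodule.subset_span
        ⟨Submodule.smul_mem _ _ (Submodule.subset_span ⟨α, rfl⟩), fun j => ?_⟩)
      simp only [Pi.smul_apply, smul_eq_mul]
      split_ifs with h
      · rw [mul_comm, ← div_eq_mul_inv]
        exact hF j k (h.trans hk.symm)
      · rw [mul_zero]
        exact F.zero_mem

theorem cyc : CycS := by
  classical
  intro r L _ _ _ ζ hr hζ
  obtain ⟨s, rfl⟩ : ∃ s, r = s + 4 := ⟨r - 4, by omega⟩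
  have hs2 : s + 4 - 2 = s + 2 := by omega
  have hs3 : s + 4 - 3 = s + 1 := by omega
  rw [hs2, hs3]
  have hirr : Irreducible (Polynomial.cyclotomic (2 ^ (s + 4)) ℚ) :=
    Polynomial.cyclotomic.irreducible_rat (by positivity)
  have htot : (2 ^ (s + 4)).totient = 2 * 2 ^ (s + 2) := by
    rw [Nat.totient_prime_pow Nat.prime_two (by omega)]
    simp [pow_succ]
    ring
  have hfin : Module.finrank ℚ L = 2 * 2 ^ (s + 2) := by
    rw [IsCyclotomicExtension.finrank L hirr, htot]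
  have hG : IsGalois ℚ L := IsCyclotomicExtension.isGalois {2 ^ (s + 4)} ℚ L
  have hcm : ∀ σ σ' : L ≃ₐ[ℚ] L, σ * σ' = σ' * σ :=
    (IsCyclotomicExtension.isMulCommutative {2 ^ (s + 4)} ℚ L).is_comm.comm
  have htr : ∀ φ ψ : Emb L, ∃ σ : L ≃ₐ[ℚ] L, ψ = φ.comp (σ : L →+* L) := fun φ ψ => by
    obtain ⟨σ, hσ⟩ := ComplexEmbedding.exists_comp_symm_eq_of_comp_eq (k := ℚ) φ ψ
      (Subsingleton.elim _ _)
    exact ⟨σ.symm, hσ.symm⟩
  have hext : ∀ φ ψ : Emb L, φ ζ = ψ ζ → φ = ψ := fun φ ψ h => by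
    have := (hζ.powerBasis ℚ).algHom_ext (f := φ.toRatAlgHom) (g := ψ.toRatAlgHom)
      (by simpa using h)
    ext x
    exact congrArg (fun f : L →ₐ[ℚ] ℂ => f x) this
  obtain ⟨c, hc⟩ : ∃ c : L ≃ₐ[ℚ] L, IsCj c := by
    obtain ⟨φ₀⟩ : Nonempty (Emb L) := inferInstance
    obtain ⟨c, hc⟩ := htr φ₀ (cj φ₀)
    refine ⟨c, fun φ x => ?_⟩
    obtain ⟨σ, rfl⟩ := htr φ₀ φ
    have e1 : σ (c x) = c (σ x) := congrArg (fun t : L ≃ₐ[ℚ] L => t x) (hcm σ c)
    have e2 := congrArg (fun f : Emb L => f (σ x)) hc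
    change φ₀ (σ (c x)) = starRingEnd ℂ (φ₀ (σ x))
    rw [e1]
    exact e2.symm
  have hneg : IsPrimitiveRoot (-ζ) (2 ^ (s + 4)) := by
    have h1 : ζ ^ 2 ^ (s + 3) = -1 :=
      (hζ.pow (by positivity) (by rw [pow_succ] : 2 ^ (s + 4) = 2 ^ (s + 3) * 2)).eq_neg_one_of_two_right
    have h2 := hζ.pow_of_coprime (2 ^ (s + 3) + 1) (Nat.Coprime.pow_right _ (by
      rw [Nat.coprime_two_right]
      exact Even.add_one (by simp [pow_succ])))
    rwa [pow_succ, h1, neg_one_mul] at h2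
  obtain ⟨u, hu⟩ : ∃ u : L ≃ₐ[ℚ] L, u ζ = -ζ :=
    IsConjRoot.exists_algEquiv (K := ℚ) (x := -ζ) (y := ζ) (by
      rw [IsConjRoot, ← hneg.minpoly_eq_cyclotomic_of_irreducible hirr,
        ← hζ.minpoly_eq_cyclotomic_of_irreducible hirr])
  have hz0 : ζ ≠ 0 := hζ.ne_zero (by positivity)
  have hz : ∀ φ : Emb L, φ ζ ≠ 0 := fun φ => (map_ne_zero φ).2 hz0
  have hu0 : ∀ χ : Emb L, (χ.comp (u : L →+* L)) ζ = -χ ζ := fun χ => by
    simp [hu]
  have hu2 : ∀ χ : Emb L, (χ.comp (u : L →+* L)) (ζ ^ 2) = χ (ζ ^ 2) := fun χ => by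
    rw [map_pow, hu0, map_pow, neg_sq]
  have hu1 : ∀ χ : Emb L, χ.comp (u : L →+* L) ≠ χ := fun χ h => by
    have := hu0 χ
    rw [h] at this
    exact hz χ (by linear_combination (1 / 2 : ℂ) * this)
  have huu : ∀ χ : Emb L, (χ.comp (u : L →+* L)).comp (u : L →+* L) = χ := fun χ =>
    hext _ _ (by rw [hu0, hu0, neg_neg])
  have him : ∀ φ : Emb L, (φ (ζ ^ 2)).im ≠ 0 := fun φ h => by
    have h1 : IsPrimitiveRoot (φ (ζ ^ 2)) (2 ^ (s + 3)) :=
      (hζ.pow (by positivity) (by rw [pow_succ'] : 2 ^ (s + 4) = 2 * 2 ^ (s + 3))).map_of_injective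
        φ.injective
    have h2 := h1.norm'_eq_one (by positivity)
    have h3 : φ (ζ ^ 2) = ((φ (ζ ^ 2)).re : ℂ) := Complex.ext rfl (by simpa using h)
    have h4 : φ (ζ ^ 2) ^ 2 = 1 := by
      rw [h3, Complex.norm_real, Real.norm_eq_abs] at h2
      rw [h3, ← Complex.ofReal_pow, ← sq_abs, h2]
      simp
    have h5 := Nat.le_of_dvd (by norm_num) (h1.dvd_of_pow_eq_one 2 h4)
    have h6 : 2 ^ 3 ≤ 2 ^ (s + 3) := Nat.pow_le_pow_right (by norm_num) (by omega)
    omega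
  have hS : IsType {ψ : Emb L | 0 < (ψ (ζ ^ 2)).im} := fun φ => by
    have := him φ
    simp only [Set.mem_ofPred_eq, ComplexEmbedding.conjugate_coe_eq, Complex.conj_im, not_lt]
    constructor
    · intro h
      linarith
    · intro h
      exact lt_of_le_of_ne (by linarith) this.symm
  have hcard := card_type hS hfin
  have h4 : 2 ^ 2 ≤ 2 ^ (s + 2) := Nat.pow_le_pow_right (by norm_num) (by omega)
  obtain ⟨φ₁, h1⟩ : Set.Nonempty {ψ : Emb L | 0 < (ψ (ζ ^ 2)).im} :=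
    Set.nonempty_of_ncard_ne_zero (by omega)
  have hT := swap_type hS h1
  have huS : ∀ χ ∈ {ψ : Emb L | 0 < (ψ (ζ ^ 2)).im},
      χ.comp (u : L →+* L) ∈ {ψ : Emb L | 0 < (ψ (ζ ^ 2)).im} := fun χ hχ => by
    rw [Set.mem_ofPred_eq, hu2]
    exact hχ
  refine ⟨hfin, ⟨c, hc⟩, htr, hcm, ?_, ?_⟩
  · have h0 := linearIndependent_pow (K := ℚ) ζ
    have hd : (minpoly ℚ ζ).natDegree = 2 * 2 ^ (s + 2) := by
      rw [← hζ.minpoly_eq_cyclotomic_of_irreducible hirr, Polynomial.natDegree_cyclotomic, htot]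
    exact (h0.comp (fun i : Fin (2 ^ (s + 2)) => ⟨2 * i, by have := i.2; omega⟩)
      (fun i j h => Fin.ext (by simpa using h))).restrict_scalars' ℤ
  have hprim := primitive hS h1 hc huS huu hu1 (by omega) htr hcm
  have hcT := card_type hT hfin
  generalize hΦ : insert (cj φ₁) ({ψ : Emb L | 0 < (ψ (ζ ^ 2)).im} \ {φ₁}) = Φ at hT hcT hprim
  obtain ⟨e⟩ : Nonempty (Fin (2 ^ (s + 2)) ≃ Φ) :=
    ⟨(Finite.equivFinOfCardEq (by rw [Nat.card_coe_set_eq, hcT])).symm⟩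
  have hinj : Function.Injective fun k => (e k).1 := Subtype.val_injective.comp e.injective
  refine ⟨Φ, fun k => (e k).1, hT, hinj, ?_, hprim, fun k k' h => ?_, ?_⟩
  · ext φ
    exact ⟨fun ⟨k, hk⟩ => hk ▸ (e k).2, fun h => ⟨e.symm ⟨φ, h⟩, by simp⟩⟩
  · rw [map_pow, map_pow] at h
    rcases sq_eq_sq_iff_eq_or_eq_neg.1 h.symm with h' | h'
    · exact Or.inl (hinj (hext _ _ h'.symm))
    · exact Or.inr h'
  · have k1 : 2 * ((Finset.univ.filter fun ψ : Emb L => 0 < (ψ (ζ ^ 2)).im).image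
        fun ψ => ψ (ζ ^ 2)).card ≤ (Finset.univ.filter fun ψ : Emb L => 0 < (ψ (ζ ^ 2)).im).card := by
      refine Finset.mul_card_image_le_card _ _ fun b hb => ?_
      obtain ⟨χ, hχ, rfl⟩ := Finset.mem_image.1 hb
      refine (Finset.card_pair (hu1 χ)).symm.trans_le (Finset.card_le_card fun ψ hψ => ?_)
      rcases Finset.mem_insert.1 hψ with rfl | hψ
      · exact Finset.mem_filter.2 ⟨Finset.mem_filter.2 ⟨Finset.mem_univ _,
          huS χ (Finset.mem_filter.1 hχ).2⟩, hu2 χ⟩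
      · rw [Finset.mem_singleton.1 hψ]
        exact Finset.mem_filter.2 ⟨hχ, rfl⟩
    have k2 : (Finset.univ.filter fun ψ : Emb L => 0 < (ψ (ζ ^ 2)).im).card = 2 ^ (s + 2) := by
      rw [← hcard, ← Set.ncard_coe_finset]
      congr 1
      ext ψ
      simp
    have k3 : (Finset.univ.image fun k => (e k).1 (ζ ^ 2)) ⊆ insert (cj φ₁ (ζ ^ 2))
        ((Finset.univ.filter fun ψ : Emb L => 0 < (ψ (ζ ^ 2)).im).image fun ψ => ψ (ζ ^ 2)) := by
      intro b hb
      obtain ⟨k, _, rfl⟩ := Finset.mem_image.1 hb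
      have hk : (e k).1 ∈ insert (cj φ₁) ({ψ : Emb L | 0 < (ψ (ζ ^ 2)).im} \ {φ₁}) :=
        hΦ ▸ (e k).2
      rcases hk with hk | hk
      · rw [hk]
        exact Finset.mem_insert_self _ _
      · exact Finset.mem_insert_of_mem (Finset.mem_image_of_mem _
          (Finset.mem_filter.2 ⟨Finset.mem_univ _, hk.1⟩))
    have k4 := (Finset.card_le_card k3).trans (Finset.card_insert_le _ _)
    rw [k2] at k1
    have k5 : 2 ^ (s + 2) = 2 * 2 ^ (s + 1) := by ring
    exact k4.trans (by omega)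

end Pool.Agent.Lib.MP_caab05_ag.GB
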