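import Mathlib
import Pool.Agent.Lib.MP_caab05_ag.GB.Stmt2

/-! The abelian variety over the algebraic numbers attached to a model. -/

namespace Pool.Agent.Lib.MP_caab05_ag.GB

open MvPolynomial Filter Topology Asymptotics Complex Matrix

namespace VarAux

variable {g : ℕ}

/-- the period map as a linear map -/
noncomputable def perL (τ : Mat g) : W g →ₗ[ℂ] V g where
  toFun := per τ
  map_add' x y := by
    have e1 : lft (x + y) = lft x + lft y := rfl
    have e2 : rgt (x + y) = rgt x + rgt y := rfl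
    unfold per app
    rw [e1, e2, Matrix.mulVec_add]
    abel
  map_smul' c x := by
    have e1 : lft (c • x) = c • lft x := rfl
    have e2 : rgt (c • x) = c • rgt x := rfl
    unfold per app
    rw [e1, e2, Matrix.mulVec_smul, RingHom.id_apply, smul_add]

theorem perL_apply (τ : Mat g) (x : W g) : perL τ x = per τ x := rfl

theorem per_surj (τ : Mat g) (u : V g) : per τ (Sum.elim 0 u) = u := by
  have e1 : lft (Sum.elim (0 : V g) u) = 0 := rfl
  have e2 : rgt (Sum.elim (0 : V g) u) = u := rfl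
  unfold per app
  rw [e1, e2, Matrix.mulVec_zero, zero_add]

/-- integral vectors as an additive map -/
def cstL (g : ℕ) : Zg g →+ W g where
  toFun := cst
  map_zero' := funext fun _ => Int.cast_zero
  map_add' p q := funext fun i => Int.cast_add (p i) (q i)

/-- the lattice in the coordinates `b` -/
noncomputable def lat {d : ℕ} (τ : Mat g) (b : V d →L[ℂ] V g) : Submodule ℤ (V d) where
  carrier := {y | ∃ p : Zg g, b y = per τ (cst p)}
  add_mem' := by
    rintro y z ⟨p, hp⟩ ⟨q, hq⟩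
    refine ⟨p + q, ?_⟩
    rw [map_add, hp, hq]
    exact ((perL τ).map_add _ _).symm.trans (congrArg (per τ) ((cstL g).map_add p q).symm)
  zero_mem' := ⟨0, by
    rw [map_zero]
    exact (perL τ).map_zero.symm.trans (congrArg (per τ) (cstL g).map_zero.symm)⟩
  smul_mem' := by
    rintro n y ⟨p, hp⟩
    refine ⟨n • p, ?_⟩
    rw [map_zsmul, hp]
    exact (map_zsmul (perL τ) n _).symm.trans (congrArg (per τ) (map_zsmul (cstL g) n p).symm)

theorem mem_lat {d : ℕ} (τ : Mat g) (b : V d →L[ℂ] V g) (y : V d) :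
    y ∈ lat τ b ↔ ∃ p : Zg g, b y = per τ (cst p) := Iff.rfl

/-- the period map on real vectors -/
noncomputable def perR (τ : Mat g) : (Fin g ⊕ Fin g → ℝ) →ₗ[ℝ] V g where
  toFun x := per τ fun i => (x i : ℂ)
  map_add' x y := by
    refine Eq.trans (congrArg (per τ) ?_) ((perL τ).map_add _ _)
    exact funext fun i => Complex.ofReal_add (x i) (y i)
  map_smul' c x := by
    refine Eq.trans (congrArg (per τ) ?_) ((perL τ).map_smul (c : ℂ) fun i => (x i : ℂ))
    exact funext fun i => Complex.ofReal_mul c (x i)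

theorem perR_int (τ : Mat g) (p : Zg g) : perR τ (fun i => (p i : ℝ)) = per τ (cst p) :=
  congrArg (per τ) (funext fun i => Complex.ofReal_intCast (p i))

theorem lat_discrete {d : ℕ} (τ : Mat g) (b : V d →L[ℂ] V g) (hb : Function.Injective b)
    (hR : Function.Bijective (perR τ)) : DiscreteTopology (lat τ b) := by
  let R := (LinearEquiv.ofBijective (perR τ) hR).symm
  have hc : Continuous fun y : lat τ b => R (b y.1) :=
    (LinearMap.continuous_of_finiteDimensional R.toLinearMap).comp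
      (b.continuous.comp continuous_subtype_val)
  have ho := (Metric.isOpen_ball (x := (0 : Fin g ⊕ Fin g → ℝ)) (ε := 1)).preimage hc
  refine discreteTopology_of_isOpen_singleton_zero ?_
  have e : ({0} : Set (lat τ b)) = (fun y : lat τ b => R (b y.1)) ⁻¹' Metric.ball 0 1 := by
    ext y
    constructor
    · rintro rfl
      show R (b 0) ∈ Metric.ball 0 1
      rw [map_zero, map_zero]
      exact Metric.mem_ball_self one_pos
    · intro hy
      obtain ⟨p, hp⟩ := y.2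
      have h1 : R (b y.1) = fun i => (p i : ℝ) := by
        rw [hp, ← perR_int]
        exact (LinearEquiv.ofBijective (perR τ) hR).symm_apply_apply _
      have h2 : ‖R (b y.1)‖ < 1 := mem_ball_zero_iff.1 hy
      have h3 : (fun i => (p i : ℝ)) = 0 := by
        funext i
        have h4 := lt_of_le_of_lt (norm_le_pi_norm _ i) h2
        rw [h1, Real.norm_eq_abs] at h4
        have h4' : |(p i : ℝ)| < 1 := h4
        have h5 : |p i| < 1 := by exact_mod_cast h4'
        show (p i : ℝ) = 0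
        rw [Int.abs_lt_one_iff.1 h5, Int.cast_zero]
      refine Subtype.ext (hb ?_)
      rw [hp, ← perR_int, h3, map_zero]
      exact b.map_zero.symm
  rw [e]
  exact ho

theorem lat_span {d : ℕ} (τ : Mat g) (b : V d →L[ℂ] V g) (hb : Function.Bijective b)
    (hR : Function.Bijective (perR τ)) :
    Submodule.span ℝ ((lat τ b : Submodule ℤ (V d)) : Set (V d)) = ⊤ := by
  classical
  refine eq_top_iff.2 fun y _ => ?_
  obtain ⟨x, hx⟩ := hR.2 (b y)
  choose z hz using fun i : Fin g ⊕ Fin g => hb.2 (per τ (cst (Pi.single i 1)))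
  have e : y = ∑ i, x i • z i := by
    refine hb.1 ?_
    rw [← hx, map_sum, pi_eq_sum_univ' x, map_sum]
    refine Finset.sum_congr rfl fun i _ => ?_
    rw [map_smul, b.map_smul_of_tower, hz, ← perR_int, ← pi_eq_sum_univ' x]
    congr 2
    funext j
    by_cases h : j = i
    · subst h
      simp
    · simp [h]
  rw [e]
  exact Submodule.sum_mem _ fun i _ =>
    Submodule.smul_mem _ _ (Submodule.subset_span ⟨_, hz i⟩)

theorem alg_rename {σ τ : Type} (f : σ → τ) (hf : Function.Injective f) {P : MvPolynomial σ ℂ}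
    (hP : LT.AlgCoeff P) : LT.AlgCoeff (rename f P) := by
  intro m
  by_cases h : coeff m (rename f P) = 0
  · rw [h]
    exact isAlgebraic_zero
  · obtain ⟨u, rfl, -⟩ := coeff_rename_ne_zero f P m h
    rw [coeff_rename_mapDomain f hf]
    exact hP u

theorem wh_rename {σ τ M : Type} [AddCommMonoid M] (f : σ → τ) (w : τ → M)
    {P : MvPolynomial σ ℂ} {k : M} (hP : P.IsWeightedHomogeneous (w ∘ f) k) :
    (rename f P).IsWeightedHomogeneous w k := by
  intro m hm
  obtain ⟨u, rfl, hu⟩ := coeff_rename_ne_zero f P m hm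
  exact (Finsupp.linearCombination_mapDomain ℕ f u).trans (hP hu)

theorem wh_pair {α β : Type} {Q : MvPolynomial (α ⊕ β) ℂ} {k l : ℕ} (h : BiH Q k l) :
    Q.IsWeightedHomogeneous
      (Sum.elim (fun _ => (1, 0)) (fun _ => (0, 1)) : α ⊕ β → ℕ × ℕ) (k, l) := by
  intro m hm
  have h1 := h.1 hm
  have h2 := h.2 hm
  rw [Finsupp.weight_apply] at h1 h2 ⊢
  refine Prod.ext ?_ ?_
  · refine (map_finsuppSum (AddMonoidHom.fst ℕ ℕ) m _).trans (Eq.trans ?_ h1)
    refine Finsupp.sum_congr fun i _ => ?_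
    cases i <;> rfl
  · refine (map_finsuppSum (AddMonoidHom.snd ℕ ℕ) m _).trans (Eq.trans ?_ h2)
    refine Finsupp.sum_congr fun i _ => ?_
    cases i <;> rfl

theorem fderiv_quot {E : Type} [NormedAddCommGroup E] [NormedSpace ℂ E] {f h : E → ℂ}
    {f' h' : E →L[ℂ] ℂ} {x : E} (hf : HasFDerivAt f f' x) (hh : HasFDerivAt h h' x)
    (h0 : h x ≠ 0) : DifferentiableAt ℂ (fun z => f z / h z) x ∧
      ∀ w, fderiv ℂ (fun z => f z / h z) x w = (h x * f' w - f x * h' w) / h x ^ 2 := by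
  have h1 := (hasDerivAt_inv h0).comp_hasFDerivAt x hh
  have h2 := hf.mul h1
  have e : (fun z => f z / h z) = f * ((fun y : ℂ => y⁻¹) ∘ h) :=
    funext fun z => div_eq_mul_inv _ _
  rw [e]
  refine ⟨h2.differentiableAt, fun w => ?_⟩
  rw [h2.fderiv]
  simp only [_root_.add_apply, _root_.smul_apply, smul_eq_mul, Function.comp_apply]
  field_simp
  ring

theorem quot_deriv {d : ℕ} {τ : Mat g} (hd : Differentiable ℂ (th τ)) (b : V d →L[ℂ] V g)
    (a a₀ : Ix g) (h0 : th τ 0 a₀ ≠ 0) :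
    DifferentiableAt ℂ (fun z => th τ (b z) a / th τ (b z) a₀) 0 ∧
      ∀ w, fderiv ℂ (fun z => th τ (b z) a / th τ (b z) a₀) 0 w =
        om τ (b w) (a, a₀) / th τ 0 a₀ ^ 2 := by
  have h1 : HasFDerivAt (fun z => th τ (b z)) ((fderiv ℂ (th τ) (b 0)).comp b) 0 :=
    (hd (b 0)).hasFDerivAt.comp (0 : V d) b.hasFDerivAt
  have h2 := hasFDerivAt_pi'.1 h1
  have h3 := fderiv_quot (h2 a) (h2 a₀) (by rw [map_zero]; exact h0)
  refine ⟨h3.1, fun w => (h3.2 w).trans ?_⟩
  rw [map_zero]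
  rfl

theorem exists_equiv (a₀ : Ix g) : ∃ (M : ℕ) (σ : Fin (M + 1) ≃ Ix g), σ 0 = a₀ := by
  classical
  obtain ⟨M, hM⟩ := Nat.exists_eq_succ_of_ne_zero (Fintype.card_ne_zero (α := Ix g))
  let σ := (Fintype.equivFinOfCardEq hM).symm
  exact ⟨M, σ.trans (Equiv.swap (σ 0) a₀), Equiv.swap_apply_left _ _⟩

theorem ee_eq {d : ℕ} (τ : Mat g) (b : V d →L[ℂ] V g) (q : Zg g) :
    ∃ (a : V d →ₗ[ℂ] ℂ) (r : ℂ), ∀ z, ee τ q (b z) = cexp (a z + r) := by
  refine ⟨(-(2 * Real.pi * I)) • ∑ j, (q (.inl j) : ℂ) • ((LinearMap.proj j).comp b.toLinearMap),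
    -(2 * Real.pi * I) * ∑ j, (q (.inl j) : ℂ) * (per τ (cst q) j / 8), fun z => ?_⟩
  unfold ee
  congr 1
  rw [LinearMap.smul_apply, LinearMap.sum_apply, smul_eq_mul, ← mul_add, ← Finset.sum_add_distrib]
  congr 1
  exact Finset.sum_congr rfl fun j _ => mul_add _ _ _

theorem comp_iff {M : ℕ} (σ : Fin (M + 1) ≃ Ix g) (x : Fin (M + 1) → ℂ) (c : ℂ) (y : Ix g → ℂ) :
    x ∘ σ.symm = c • y ↔ x = c • fun i => y (σ i) := by
  constructor
  · intro h
    funext i
    have h1 := congrFun h (σ i)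
    rw [Function.comp_apply, σ.symm_apply_apply] at h1
    exact h1
  · rintro rfl
    funext a
    show c • y (σ (σ.symm a)) = c • y a
    rw [σ.apply_symm_apply]

theorem comp_ne {M : ℕ} (σ : Fin (M + 1) ≃ Ix g) {y : Ix g → ℂ} (hy : y ≠ 0) :
    (fun i => y (σ i)) ≠ 0 := by
  intro h
  refine hy (funext fun a => ?_)
  have h1 := congrFun h (σ.symm a)
  rw [σ.apply_symm_apply] at h1
  exact h1

theorem elim_comp {M : ℕ} (σ : Fin (M + 1) ≃ Ix g) (x y : Ix g → ℂ) :
    Sum.elim (fun i => x (σ i)) (fun i => y (σ i)) ∘ Sum.map σ.symm σ.symm = Sum.elim x y := by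
  funext s
  cases s with
  | inl a => exact congrArg x (σ.apply_symm_apply a)
  | inr a => exact congrArg y (σ.apply_symm_apply a)

theorem add_law {d M : ℕ} {τ : Mat g} (hnz : ∀ u, th τ u ≠ 0)
    {B : Ix g → Ix g → MvPolynomial (Ix g ⊕ Ix g) ℂ} (hB : AddF τ B) (b : V d →L[ℂ] V g)
    (σ : Fin (M + 1) ≃ Ix g) {t : ℂ} (ht : t ≠ 0) (halg : ∀ a, IsAlgebraic ℚ (th τ 0 a / t))
    (z₀ w₀ : V d) : ∃ (k : ℕ × ℕ)
      (B' : Fin (M + 1) → MvPolynomial (Fin (M + 1) ⊕ Fin (M + 1)) ℂ),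
      (∀ i, (B' i).IsWeightedHomogeneous (Sum.elim (fun _ => (1, 0)) (fun _ => (0, 1))) k ∧
        LT.AlgCoeff (B' i)) ∧
      (fun i => eval (Sum.elim (fun i => th τ (b z₀) (σ i)) fun i => th τ (b w₀) (σ i))
        (B' i)) ≠ 0 ∧
      ∀ z w, ∃ c : ℂ, (fun i => eval (Sum.elim (fun i => th τ (b z) (σ i))
        fun i => th τ (b w) (σ i)) (B' i)) = c • fun i => th τ (b (z + w)) (σ i) := by
  obtain ⟨a', ha'⟩ := Function.ne_iff.1 (hnz (b z₀ - b w₀))
  have key : ∀ z w, (fun i => eval (Sum.elim (fun i => th τ (b z) (σ i))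
      fun i => th τ (b w) (σ i)) (rename (Sum.map σ.symm σ.symm) (C (t ^ 2) * B (σ i) a'))) =
      (t ^ 2 * th τ (b z - b w) a') • fun i => th τ (b (z + w)) (σ i) := by
    intro z w
    funext i
    rw [eval_rename, elim_comp, map_mul, eval_C, ← hB.add, map_add]
    show _ = t ^ 2 * th τ (b z - b w) a' * th τ (b z + b w) (σ i)
    ring
  refine ⟨(2, 2), fun i => rename (Sum.map σ.symm σ.symm) (C (t ^ 2) * B (σ i) a'),
    fun i => ⟨wh_rename _ _ ?_, alg_rename _ (σ.symm.injective.sumMap σ.symm.injective) ?_⟩,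
    ?_, fun z w => ⟨_, key z w⟩⟩
  · have e : (Sum.elim (fun _ => (1, 0)) (fun _ => (0, 1)) :
        Fin (M + 1) ⊕ Fin (M + 1) → ℕ × ℕ) ∘ Sum.map σ.symm σ.symm =
        (Sum.elim (fun _ => (1, 0)) (fun _ => (0, 1)) : Ix g ⊕ Ix g → ℕ × ℕ) := by
      funext s
      cases s <;> rfl
    rw [e]
    intro m hm
    rw [coeff_C_mul] at hm
    exact wh_pair (hB.bih (σ i) a') (right_ne_zero_of_mul hm)
  · intro m
    rw [coeff_C_mul, mul_comm]
    exact hB.alg t ht halg _ _ m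
  · rw [key]
    exact smul_ne_zero (mul_ne_zero (pow_ne_zero 2 ht) ha') (comp_ne σ (hnz _))

theorem image_law {d M : ℕ} {τ : Mat g} (b : V d →L[ℂ] V g) (hb : Function.Surjective b)
    (σ : Fin (M + 1) ≃ Ix g) {S : Set (MvPolynomial (Ix g) ℂ)}
    (hS : ∀ P ∈ S, (∃ k, P.IsHomogeneous k) ∧ LT.AlgCoeff P)
    (hz : {x | ∀ P ∈ S, eval x P = 0} = {x | ∃ (c : ℂ) (z : V g), x = c • th τ z}) :
    ∃ S' : Set (MvPolynomial (Fin (M + 1)) ℂ),
      (∀ P ∈ S', (∃ k, P.IsHomogeneous k) ∧ LT.AlgCoeff P) ∧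
      {x | ∀ P ∈ S', eval x P = 0} =
        {x | ∃ (c : ℂ) (z : V d), x = c • fun i => th τ (b z) (σ i)} := by
  refine ⟨rename σ.symm '' S, ?_, ?_⟩
  · rintro _ ⟨P, hP, rfl⟩
    obtain ⟨⟨k, hk⟩, h2⟩ := hS P hP
    exact ⟨⟨k, hk.rename_isHomogeneous⟩, alg_rename _ σ.symm.injective h2⟩
  · ext x
    have h1 := Set.ext_iff.1 hz (x ∘ σ.symm)
    constructor
    · intro hx
      obtain ⟨c, u, hu⟩ := h1.1 fun P hP => (eval_rename _ _ _).symm.trans (hx _ ⟨P, hP, rfl⟩)
      obtain ⟨z, rfl⟩ := hb u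
      exact ⟨c, z, (comp_iff σ x c _).1 hu⟩
    · rintro ⟨c, z, hx⟩ _ ⟨P, hP, rfl⟩
      rw [eval_rename]
      exact h1.2 ⟨c, b z, (comp_iff σ x c _).2 hx⟩ P hP

/-- the abelian variety in the coordinates `b` -/
theorem mkVar (h4 : LawS) (h5 : GeoS) (h6 : AddS) (h7 : XHolS) {d : ℕ} {τ : Mat g} (hτ : Sg τ)
    (b : V d →L[ℂ] V g) (hb : Function.Bijective b) (a₀ : Ix g) (h0 : th τ 0 a₀ ≠ 0)
    (halg : ∀ a, IsAlgebraic ℚ (th τ 0 a / th τ 0 a₀))
    (htan : ∀ a j, IsAlgebraic ℚ (om τ (b (Pi.single j 1)) (a, a₀) / th τ 0 a₀ ^ 2))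
    {S : Set (MvPolynomial (Ix g) ℂ)} (hS : ∀ P ∈ S, (∃ k, P.IsHomogeneous k) ∧ LT.AlgCoeff P)
    (hz : {x | ∀ P ∈ S, eval x P = 0} = {x | ∃ (c : ℂ) (z : V g), x = c • th τ z}) :
    ∃ (M : ℕ) (A : LT.AbVar d M), A.Λ = lat τ b := by
  obtain ⟨M, σ, hσ⟩ := exists_equiv a₀
  obtain ⟨B, hB⟩ := h6 g τ hτ
  have hd := (h4.holu g τ hτ).1
  have hR : Function.Bijective (perR τ) := h4.per_real g τ hτ
  subst hσ
  refine ⟨M,
    { Λ := lat τ b
      discrete := lat_discrete τ b hb.1 hR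
      span_top := lat_span τ b hb hR
      θ := fun z i => th τ (b z) (σ i)
      holo := differentiable_pi.2 fun i =>
        differentiable_pi.1 (hd.comp b.differentiable) (σ i)
      ne_zero := fun z => comp_ne σ (h5.nz g τ hτ _)
      theta := ?_
      inj := ?_
      image := image_law b hb.2 σ hS hz
      add := add_law (h5.nz g τ hτ) hB b σ h0 halg
      origin := ?_
      origin_alg := ?_
      tangent_alg := ?_
      immersion := ?_ }, rfl⟩
  · rintro l ⟨p, hp⟩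
    obtain ⟨a, r, ha⟩ := ee_eq τ b ((4 : ℤ) • p)
    refine ⟨a, r, fun z => ?_⟩
    rw [map_add, hp, ← h4.tor_four, h4.law g τ hτ, h4.hh_four, ha]
    rfl
  · intro z w c h
    have h1 := (comp_iff σ _ c (th τ (b w))).2 h
    have h2 : (fun i => th τ (b z) (σ i)) ∘ σ.symm = th τ (b z) :=
      funext fun a => congrArg (th τ (b z)) (σ.apply_symm_apply a)
    rw [h2] at h1
    obtain ⟨p, hp⟩ := h5.inj g τ hτ _ _ c h1
    exact ⟨p, (map_sub b z w).trans hp⟩
  · show th τ (b 0) (σ 0) ≠ 0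
    rw [map_zero]
    exact h0
  · intro i
    show IsAlgebraic ℚ (th τ (b 0) (σ i) / th τ (b 0) (σ 0))
    rw [map_zero]
    exact halg _
  · intro i j
    have h1 := (quot_deriv hd b (σ i) (σ 0) h0).2 (Pi.single j 1)
    exact h1 ▸ htan (σ i) j
  · refine (injective_iff_map_eq_zero _).2 fun w hw => ?_
    rw [fderiv_pi fun i => (quot_deriv hd b (σ i) (σ 0) h0).1] at hw
    refine hb.1 ((h7.neom' g τ (b w) (σ 0) hτ h0 fun a => ?_).trans b.map_zero.symm)
    have h1 : fderiv ℂ (fun z => th τ (b z) (σ (σ.symm a)) / th τ (b z) (σ 0)) 0 w = 0 :=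
      congrFun hw (σ.symm a)
    rw [σ.apply_symm_apply, (quot_deriv hd b a (σ 0) h0).2 w] at h1
    exact (div_eq_zero_iff.1 h1).resolve_right (pow_ne_zero 2 h0)

theorem alg_of_der (h3 : DerS) {x : ℂ} (h : ∀ D : Der, D x = 0) : IsAlgebraic ℚ x :=
  (h3 ⊥ x fun D _ => h D).restrictScalars ℚ

theorem der_div (D : Der) {x y l m : ℂ} (hy : y ≠ 0) (h1 : D x = l * x) (h2 : D y = m * y) :
    D (x / y) = (l - m) * (x / y) := by
  rw [D.leibniz_div, h1, h2]
  simp only [smul_eq_mul]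
  field_simp

theorem der_sq (D : Der) {y m : ℂ} (h2 : D y = m * y) : D (y ^ 2) = 2 * m * y ^ 2 := by
  rw [pow_two, D.leibniz, h2]
  simp only [smul_eq_mul]
  ring

theorem exists_den {w : W g} (hw : IsRat w) : ∃ (n : ℤ) (p : Zg g), n ≠ 0 ∧ n • w = cst p := by
  classical
  choose q hq using hw
  refine ⟨∏ j, ((q j).den : ℤ), fun j => (q j).num * ∏ i ∈ Finset.univ.erase j, ((q i).den : ℤ),
    Finset.prod_ne_zero_iff.2 fun j _ => Int.natCast_ne_zero.2 (q j).den_nz, funext fun j => ?_⟩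
  have h : ((q j).num : ℂ) = (q j : ℂ) * ((q j).den : ℂ) := by
    exact_mod_cast congrArg (fun r : ℚ => (r : ℂ)) (Rat.mul_den_eq_num (q j)).symm
  show (∏ j, ((q j).den : ℤ)) • w j =
    (((q j).num * ∏ i ∈ Finset.univ.erase j, ((q i).den : ℤ) : ℤ) : ℂ)
  rw [← Finset.mul_prod_erase _ _ (Finset.mem_univ j), zsmul_eq_mul, Int.cast_mul, Int.cast_mul, h,
    hq, Int.cast_natCast]
  ring

section Model

variable {L : Type} [Field L] [NumberField L] {Φ : Set (Emb L)} {τ : Mat g} {v : Emb L → W g}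
  {d : ℕ} {e : Fin d → Emb L}

theorem per_zero (hM : IsModel Φ τ v) {φ : Emb L} (h : φ ∉ Φ) : per τ (v φ) = 0 := by
  classical
  have h1 := (hM.ker (Pi.single φ 1)).2 fun ψ hψ =>
    Pi.single_eq_of_ne (fun e : ψ = φ => h (e ▸ hψ)) _
  rw [Finset.sum_eq_single φ (fun ψ _ hψ => by rw [Pi.single_eq_of_ne hψ, zero_smul])
    (fun h => absurd (Finset.mem_univ φ) h), Pi.single_eq_same, one_smul] at h1
  exact h1

theorem per_sum (hM : IsModel Φ τ v) (he : Function.Injective e) (hr : Set.range e = Φ)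
    (X : Emb L → ℂ) : per τ (∑ φ : Emb L, X φ • v φ) = ∑ k, X (e k) • per τ (v (e k)) := by
  rw [← perL_apply, map_sum]
  refine (Fintype.sum_of_injective e he _ _ (fun φ hφ => ?_) fun k => ?_).symm
  · rw [map_smul, perL_apply, per_zero hM (hr ▸ hφ), smul_zero]
  · rw [map_smul, perL_apply]

theorem comb_inj (hM : IsModel Φ τ v) (he : Function.Injective e) (hr : Set.range e = Φ)
    (w : Fin d → ℂ) (h : ∑ k, w k • per τ (v (e k)) = 0) : w = 0 := by
  have h1 := per_sum hM he hr (Function.extend e w 0)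
  simp only [he.extend_apply] at h1
  funext k
  have h2 := (hM.ker _).1 (h1.trans h) (e k) (hr ▸ Set.mem_range_self k)
  rw [he.extend_apply] at h2
  exact h2

/-- the coordinates on the tangent space -/
noncomputable def crd (p : Fin d → V g) (ω : Fin d → ℂ) : V d →L[ℂ] V g :=
  ∑ k, (ContinuousLinearMap.proj k : V d →L[ℂ] ℂ).smulRight ((ω k)⁻¹ • p k)

theorem crd_apply (p : Fin d → V g) (ω : Fin d → ℂ) (w : V d) :
    crd p ω w = ∑ k, (w k * (ω k)⁻¹) • p k := by
  unfold crd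
  rw [_root_.sum_apply]
  exact Finset.sum_congr rfl fun k _ => smul_smul (w k) (ω k)⁻¹ (p k)

theorem crd_mul (p : Fin d → V g) {ω : Fin d → ℂ} (hω : ∀ k, ω k ≠ 0) (w : V d) :
    crd p ω (fun k => w k * ω k) = ∑ k, w k • p k := by
  rw [crd_apply]
  exact Finset.sum_congr rfl fun k _ => by rw [mul_inv_cancel_right₀ (hω k)]

theorem crd_single (p : Fin d → V g) (ω : Fin d → ℂ) (j : Fin d) :
    crd p ω (Pi.single j 1) = (ω j)⁻¹ • p j := by
  rw [crd_apply, Finset.sum_eq_single j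
    (fun k _ hk => by rw [Pi.single_eq_of_ne hk, zero_mul, zero_smul])
    (fun h => absurd (Finset.mem_univ j) h), Pi.single_eq_same, one_mul]

theorem crd_bij (hM : IsModel Φ τ v) (he : Function.Injective e) (hr : Set.range e = Φ)
    {ω : Fin d → ℂ} (hω : ∀ k, ω k ≠ 0) :
    Function.Bijective (crd (fun k => per τ (v (e k))) ω) := by
  constructor
  · refine (injective_iff_map_eq_zero _).2 fun w hw => ?_
    rw [crd_apply] at hw
    have h1 := comb_inj hM he hr _ hw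
    funext k
    exact (mul_eq_zero.1 (congrFun h1 k)).resolve_right (inv_ne_zero (hω k))
  · intro u
    obtain ⟨X, hX⟩ := hM.span (Sum.elim 0 u)
    refine ⟨fun k => X (e k) * ω k, ?_⟩
    rw [crd_mul _ hω fun k => X (e k), ← per_sum hM he hr, ← hX, per_surj]

/-- the rational structure as an additive map -/
noncomputable def ratL (v : Emb L → W g) : L →+ W g where
  toFun x := ∑ φ : Emb L, φ x • v φ
  map_zero' := Finset.sum_eq_zero fun φ _ => by rw [map_zero, zero_smul]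
  map_add' x y := by
    rw [← Finset.sum_add_distrib]
    exact Finset.sum_congr rfl fun φ _ => by rw [map_add, add_smul]

/-- the lattice in the field -/
noncomputable def latL (v : Emb L → W g) : Submodule ℤ L :=
  (AddSubgroup.comap (ratL v) (cstL g).range).toIntSubmodule

theorem mem_latL (v : Emb L → W g) (x : L) :
    x ∈ latL v ↔ ∃ p : Zg g, cst p = ∑ φ : Emb L, φ x • v φ := Iff.rfl

end Model

end VarAux

open VarAux in
theorem varS (h1 : PolS) (h3 : DerS) (h4 : LawS) (h5 : GeoS) (h6 : AddS) (h7 : XHolS) (h8 : XDS)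
    (h9 : ModS) (h10 : EllS) (h11 : IdealS) : VarS := by
  have _ := h1
  intro L _ _ c Φ d e hc hΦ he hr
  obtain ⟨g, τ, v, hM⟩ := h9 L c Φ hc hΦ
  have hτ := hM.sg
  have hst := fun D : Der => h10.still L c Φ D g τ v hc hΦ hM
  obtain ⟨a₀, h0⟩ := Function.ne_iff.1 (h5.nz g τ hτ 0)
  have h0' : th τ 0 a₀ ≠ 0 := h0
  have ht : th τ 0 a₀ ^ 2 ≠ 0 := pow_ne_zero 2 h0'
  have hp : ∀ k, ∃ a, om τ (per τ (v (e k))) (a, a₀) ≠ 0 := by
    intro k
    by_contra hn
    have h := h7.neom' g τ _ a₀ hτ h0' fun a => not_not.1 fun ha => hn ⟨a, ha⟩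
    have h2 := comb_inj hM he hr (Pi.single k 1) (by
      rw [Finset.sum_eq_single k (fun j _ hj => by rw [Pi.single_eq_of_ne hj, zero_smul])
        (fun h => absurd (Finset.mem_univ k) h), h, smul_zero])
    have h3 := congrFun h2 k
    rw [Pi.single_eq_same] at h3
    exact one_ne_zero h3
  choose a ha using hp
  have hD : ∀ (D : Der) (k : Fin d) (s : Ix g × Ix g),
      D (om τ (per τ (v (e k))) s / th τ 0 a₀ ^ 2) =
        ell D Φ (e k) * (om τ (per τ (v (e k))) s / th τ 0 a₀ ^ 2) := by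
    intro D k s
    obtain ⟨M, N, c', hT, hz, hl⟩ := hst D
    have e1 : (app M (per τ (v (e k))) + fun j => D (per τ (v (e k)) j)) =
        ell D Φ (e k) • per τ (v (e k)) := by
      rw [hl, funext (hz (e k))]
      exact add_zero _
    have e2 := h8.dom g D τ M N c' hτ hT (per τ (v (e k))) s
    rw [e1, h7.om_smul, Pi.smul_apply, smul_eq_mul, ← add_mul] at e2
    rw [der_div D ht e2 (der_sq D (h8.nul g D τ M N c' hτ hT a₀)), add_sub_cancel_right]
  have hω : ∀ k, om τ (per τ (v (e k))) (a k, a₀) / th τ 0 a₀ ^ 2 ≠ 0 :=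
    fun k => div_ne_zero (ha k) ht
  generalize hωe : (fun k => om τ (per τ (v (e k))) (a k, a₀) / th τ 0 a₀ ^ 2) = ω
  have hωk : ∀ k, om τ (per τ (v (e k))) (a k, a₀) / th τ 0 a₀ ^ 2 = ω k := congrFun hωe
  have hω' : ∀ k, ω k ≠ 0 := fun k => hωk k ▸ hω k
  have hDω : ∀ (D : Der) (k : Fin d), D (ω k) = ell D Φ (e k) * ω k :=
    fun D k => hωk k ▸ hD D k (a k, a₀)
  have hb := crd_bij hM he hr hω'
  obtain ⟨S, hS, hz⟩ := h11 g τ hτ fun D => by
    obtain ⟨M, N, c', hT, -⟩ := hst D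
    exact ⟨M, N, c', hT⟩
  obtain ⟨M, A, hA⟩ := mkVar h4 h5 h6 h7 hτ _ hb a₀ h0'
    (fun a' => alg_of_der h3 fun D => by
      obtain ⟨M, N, c', hT, -⟩ := hst D
      rw [der_div D h0' (h8.nul g D τ M N c' hτ hT a') (h8.nul g D τ M N c' hτ hT a₀), sub_self,
        zero_mul])
    (fun a' j => alg_of_der h3 fun D => by
      rw [crd_single, h7.om_smul, Pi.smul_apply, smul_eq_mul, mul_div_assoc, ← div_eq_inv_mul,
        der_div D (hω' j) (hD D j (a', a₀)) (hDω D j), sub_self, zero_mul])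
    hS hz
  refine ⟨M, A, ω, latL v, hω', fun x => ?_, fun y => ?_, fun D k => ?_⟩
  · obtain ⟨n, p, hn, hp⟩ := exists_den (hM.rat x)
    exact ⟨n, hn, p, hp.symm.trans (map_zsmul (ratL v) n x).symm⟩
  · rw [hA, mem_lat]
    constructor
    · rintro ⟨p, hp⟩
      obtain ⟨x, hx⟩ := hM.surj (cst p) fun j => ⟨p j, (Rat.cast_intCast (p j)).symm⟩
      refine ⟨x, ⟨p, hx⟩, hb.1 ?_⟩
      rw [hp, hx, per_sum hM he hr, crd_mul _ hω' fun k => e k x]
    · rintro ⟨x, ⟨p, hp⟩, rfl⟩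
      refine ⟨p, ?_⟩
      have hp' : cst p = ∑ φ : Emb L, φ x • v φ := hp
      rw [hp', per_sum hM he hr, crd_mul _ hω' fun k => e k x]
  · rw [hDω, elt, if_pos (hr ▸ Set.mem_range_self k)]

end Pool.Agent.Lib.MP_caab05_ag.GB
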