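import Mathlib
import Pool.Agent.Lib.MP_caab05_ag.GB.Stmt3
import Pool.Agent.Lib.MP_caab05_ag.GB.Var
import Pool.Agent.Lib.MP_caab05_ag.GB.Riem

/-! The product of abelian varieties with complex multiplication by the same field. -/

namespace Pool.Agent.Lib.MP_caab05_ag.GB

open MvPolynomial Filter Topology Asymptotics Complex Matrix

namespace Var2Aux

open VarAux RiemAux

variable {g k : ℕ} {L : Type} [Field L] [NumberField L] {ξ : Fin k → L}
  {v : Emb L → Fin k → W g} {Φ : Fin k → Set (Emb L)} {τ : Mat g}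

/-- the period matrix of the product -/
theorem model (h9 : WeakS) (h10 : SymS) (h11 : RiemS) {c : L ≃ₐ[ℚ] L} (hc : IsCj c)
    (hΦ : ∀ i, IsType (Φ i)) : ∃ (g : ℕ) (ξ : Fin k → L) (v : Emb L → Fin k → W g) (τ : Mat g),
      IsSym ξ v ∧ Sg τ ∧ ∀ X, per τ (vec v X) = 0 ↔ ∀ φ i, φ ∈ Φ i → X φ i = 0 := by
  choose ξ a1 a2 a3 using fun i => h9.xi L c (Φ i) hc (hΦ i)
  obtain ⟨g, v, hs⟩ := h10 L c k ξ hc a1 a2
  have hne := fun (φ : Emb L) i => im_ne hc (a1 i) (a2 i) φ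
  have hpos : ∀ (φ : Emb L) i, φ ∉ Φ i → 0 < (φ (ξ i)).im := fun φ i h =>
    lt_of_le_of_ne (not_lt.1 (mt (a3 i φ).2 h)) (hne φ i).symm
  obtain ⟨τ, -, h4⟩ := gen hs h11 (κ := Unit) (card_Io hs hne) Set.univ
    (fun _ => ex ξ) (fun _ _ _ => differentiableOn_const _)
    (fun _ X => ∀ φ i, φ ∈ Φ i → X φ i = 0)
    (fun _ X => ⟨fun h => ⟨fun a => X a.1.1 a.1.2, by
        ext φ i
        by_cases hφ : φ ∈ Φ i
        · rw [h φ i hφ, ex_neg _ ((a3 i φ).1 hφ).le]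
        · rw [ex_pos _ (hpos φ i hφ)]⟩, by
      rintro ⟨t, rfl⟩ φ i hφ
      exact ex_neg _ ((a3 i φ).1 hφ).le⟩)
    (fun _ t h => by
      ext a
      exact (ex_pos t a.2).symm.trans (congrFun (congrFun h _) _))
    (fun _ X Y hX hY φ => Finset.sum_eq_zero fun i _ => by
      by_cases hφ : φ ∈ Φ i
      · rw [hX φ i hφ, zero_mul, zero_mul]
      · rw [hY (cj φ) i ((a3 i _).2 (by rw [cj_im]; linarith [hpos φ i hφ])), mul_zero, zero_mul])
    (fun _ _ X hX φ h => by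
      obtain ⟨i, hi⟩ := Function.ne_iff.1 h
      refine Finset.sum_pos' (fun j _ => ?_) ⟨i, Finset.mem_univ _,
        mul_pos (pow_pos (norm_pos_iff.2 hi) 2) (hpos φ i fun hφ => hi (hX φ i hφ))⟩
      by_cases hφ : φ ∈ Φ j
      · rw [hX φ j hφ, norm_zero, zero_pow two_ne_zero, zero_mul]
      · exact mul_nonneg (sq_nonneg _) (hpos φ j hφ).le)
  exact ⟨g, ξ, v, τ 0, hs, (h4 0 trivial).1, (h4 0 trivial).2⟩

theorem per_zero (hk : ∀ X, per τ (vec v X) = 0 ↔ ∀ φ i, φ ∈ Φ i → X φ i = 0) {φ : Emb L}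
    {i : Fin k} (h : φ ∉ Φ i) : per τ (v φ i) = 0 := by
  classical
  have h1 := (hk fun ψ j => if (ψ, j) = (φ, i) then 1 else 0).2 fun ψ j hψ =>
    if_neg fun e => h (by cases e; exact hψ)
  rw [vec_eq, Finset.sum_eq_single (φ, i) (fun p _ hp => by rw [if_neg hp, zero_smul])
    (fun h => absurd (Finset.mem_univ _) h), if_pos rfl, one_smul] at h1
  exact h1

theorem ratF (hs : IsSym ξ v) (i : Fin k) : RatF fun ψ => v ψ i := fun x => by
  classical
  have h1 := hs.rat (Pi.single i x)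
  have e : (vec v fun φ j => φ ((Pi.single i x : Fin k → L) j)) = ∑ φ : Emb L, φ x • v φ i := by
    simp only [vec]
    refine Finset.sum_congr rfl fun φ _ => ?_
    rw [Finset.sum_eq_single i (fun j _ hj => by rw [Pi.single_eq_of_ne hj, map_zero, zero_smul])
      (fun h => absurd (Finset.mem_univ _) h), Pi.single_eq_same]
  rw [e] at h1
  exact h1

theorem D_per (D : Der) (τ : Mat g) (x : W g) (hτ : ∀ i j, D (τ i j) = 0)
    (hx : ∀ j, D (x j) = 0) (k : Fin g) : D (per τ x k) = 0 := by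
  have e : per τ x k = ∑ j, τ k j * x (.inl j) + x (.inr k) := rfl
  rw [e, map_add, map_sum, hx, add_zero]
  refine Finset.sum_eq_zero fun j _ => ?_
  rw [Derivation.leibniz, hτ, hx, smul_zero, smul_zero, add_zero]

theorem beta_zero (D : Der) (τ M : Mat g) (hτ : ∀ i j, D (τ i j) = 0) (x : W g) :
    beta D τ M 0 x = app M (per τ x) := by
  unfold beta
  have e : (fun i j => D (τ i j) - (0 : Mat g) i j) = (0 : Mat g) := by
    funext i j
    simp [hτ]
  rw [e]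
  have e2 : app (0 : Mat g) (lft x) = 0 := Matrix.zero_mulVec _
  rw [e2, add_zero]

/-- the product does not move -/
theorem still (h1 : PolS) (h2 : TwMS) (h8 : XDS) (h12 : EllS) {c : L ≃ₐ[ℚ] L} (hc : IsCj c)
    (hΦ : ∀ i, IsType (Φ i)) (hs : IsSym ξ v) (hτ : Sg τ)
    (hk : ∀ X, per τ (vec v X) = 0 ↔ ∀ φ i, φ ∈ Φ i → X φ i = 0) (D : Der) :
    ∃ M N c', IsTw D τ M 0 N c' ∧ (∀ φ i j, D (per τ (v φ i) j) = 0) ∧
      ∀ φ i, app M (per τ (v φ i)) = ell D (Φ i) φ • per τ (v φ i) := by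
  obtain ⟨M, K, N, c', hT⟩ := h2 g D τ hτ
  have b : ∀ φ i, beta D τ M K (v φ i) = ell D (Φ i) φ • per τ (v φ i) := fun φ i =>
    h12.spec L c (Φ i) D hc (hΦ i) φ g τ M K N c' (fun ψ => v ψ i) hτ hT (ratF hs i)
      fun ψ hψ => per_zero hk hψ
  have rig := h8.rigid g D τ M K {w | ∃ φ i, φ ∉ Φ i ∧ w = v φ i} ?_ ?_
  · obtain ⟨rfl, hD⟩ := rig
    simp only [beta_zero D τ M hD] at b
    exact ⟨M, N, c', hT, fun ψ i j => D_per D τ _ hD (fun j => h1.D_alg D _ (hs.alg ψ i j)) j, b⟩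
  · rintro f ⟨φ, i, hφ, rfl⟩
    refine ⟨fun j => h1.D_alg D _ (hs.alg φ i j), per_zero hk hφ, ?_⟩
    rw [b, per_zero hk hφ, smul_zero]
  · intro w hw
    obtain ⟨X, rfl⟩ := hs.span w
    have a := (hk X).1 hw
    unfold vec
    refine Submodule.sum_mem _ fun φ _ => Submodule.sum_mem _ fun i _ => ?_
    by_cases e : φ ∈ Φ i
    · rw [a φ i e, zero_smul]
      exact Submodule.zero_mem _
    · exact Submodule.smul_mem _ _ (Submodule.subset_span ⟨φ, i, e, rfl⟩)

variable {d : ℕ} {e : Fin d → Emb L × Fin k}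

theorem per_sum (hk : ∀ X, per τ (vec v X) = 0 ↔ ∀ φ i, φ ∈ Φ i → X φ i = 0)
    (he : Function.Injective e) (hr : Set.range e = {p | p.1 ∈ Φ p.2})
    (X : Emb L → Fin k → ℂ) :
    per τ (vec v X) = ∑ j, X (e j).1 (e j).2 • per τ (v (e j).1 (e j).2) := by
  rw [← perL_apply, vec_eq, map_sum]
  refine (Fintype.sum_of_injective e he _ _ (fun p hp => ?_) fun j => ?_).symm
  · rw [hr] at hp
    rw [map_smul, perL_apply, per_zero hk hp, smul_zero]
  · rw [map_smul, perL_apply]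

omit [NumberField L] in
theorem mem_of (hr : Set.range e = {p | p.1 ∈ Φ p.2}) (j : Fin d) : (e j).1 ∈ Φ (e j).2 := by
  have h := Set.mem_range_self (f := e) j
  rw [hr] at h
  exact h

theorem comb_inj (hk : ∀ X, per τ (vec v X) = 0 ↔ ∀ φ i, φ ∈ Φ i → X φ i = 0)
    (he : Function.Injective e) (hr : Set.range e = {p | p.1 ∈ Φ p.2})
    (w : Fin d → ℂ) (h : ∑ j, w j • per τ (v (e j).1 (e j).2) = 0) : w = 0 := by
  have h1 := per_sum hk he hr fun φ i => Function.extend e w 0 (φ, i)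
  simp only [Prod.mk.eta, he.extend_apply] at h1
  funext j
  have h2 := (hk _).1 (h1.trans h) (e j).1 (e j).2 (mem_of hr j)
  simp only [Prod.mk.eta, he.extend_apply] at h2
  exact h2

theorem crd_bij (hs : IsSym ξ v)
    (hk : ∀ X, per τ (vec v X) = 0 ↔ ∀ φ i, φ ∈ Φ i → X φ i = 0)
    (he : Function.Injective e) (hr : Set.range e = {p | p.1 ∈ Φ p.2})
    {ω : Fin d → ℂ} (hω : ∀ j, ω j ≠ 0) :
    Function.Bijective (crd (fun j => per τ (v (e j).1 (e j).2)) ω) := by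
  constructor
  · refine (injective_iff_map_eq_zero _).2 fun w hw => ?_
    rw [crd_apply] at hw
    have h1 := comb_inj hk he hr _ hw
    funext j
    exact (mul_eq_zero.1 (congrFun h1 j)).resolve_right (inv_ne_zero (hω j))
  · intro u
    obtain ⟨X, hX⟩ := hs.span (Sum.elim 0 u)
    refine ⟨fun j => X (e j).1 (e j).2 * ω j, ?_⟩
    rw [crd_mul _ hω fun j => X (e j).1 (e j).2, ← per_sum hk he hr, ← hX, per_surj]

/-- the rational structure as an additive map -/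
noncomputable def ratL (v : Emb L → Fin k → W g) : (Fin k → L) →+ W g where
  toFun x := vec v fun φ i => φ (x i)
  map_zero' := Finset.sum_eq_zero fun φ _ => Finset.sum_eq_zero fun i _ => by
    simp only [Pi.zero_apply, map_zero, zero_smul]
  map_add' x y := by
    simp only [vec]
    rw [← Finset.sum_add_distrib]
    refine Finset.sum_congr rfl fun φ _ => ?_
    rw [← Finset.sum_add_distrib]
    exact Finset.sum_congr rfl fun i _ => by rw [Pi.add_apply, map_add, add_smul]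

/-- the lattice in the rational structure -/
noncomputable def latL (v : Emb L → Fin k → W g) : Submodule ℤ (Fin k → L) :=
  (AddSubgroup.comap (ratL v) (cstL g).range).toIntSubmodule

end Var2Aux

open VarAux in
theorem var2 (h1 : PolS) (h2 : TwMS) (h3 : DerS) (h4 : LawS) (h5 : GeoS) (h6 : AddS)
    (h7 : XHolS) (h8 : XDS) (h9 : WeakS) (h10 : SymS) (h11 : RiemS) (h12 : EllS)
    (h13 : IdealS) : Var2S := by
  intro L _ _ c Φ d e hc hΦ he hr
  obtain ⟨g, ξ, v, τ, hs, hτ, hk⟩ := Var2Aux.model h9 h10 h11 hc hΦ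
  have hst := Var2Aux.still h1 h2 h8 h12 hc hΦ hs hτ hk
  obtain ⟨a₀, h0⟩ := Function.ne_iff.1 (h5.nz g τ hτ 0)
  have h0' : th τ 0 a₀ ≠ 0 := h0
  have ht : th τ 0 a₀ ^ 2 ≠ 0 := pow_ne_zero 2 h0'
  have hp : ∀ k, ∃ a, om τ (per τ (v (e k).1 (e k).2)) (a, a₀) ≠ 0 := by
    intro k
    by_contra hn
    have h := h7.neom' g τ _ a₀ hτ h0' fun a => not_not.1 fun ha => hn ⟨a, ha⟩
    have h2 := Var2Aux.comb_inj hk he hr (Pi.single k 1) (by
      rw [Finset.sum_eq_single k (fun j _ hj => by rw [Pi.single_eq_of_ne hj, zero_smul])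
        (fun h => absurd (Finset.mem_univ k) h), h, smul_zero])
    have h3 := congrFun h2 k
    rw [Pi.single_eq_same] at h3
    exact one_ne_zero h3
  choose a ha using hp
  have hD : ∀ (D : Der) (k : Fin d) (s : Ix g × Ix g),
      D (om τ (per τ (v (e k).1 (e k).2)) s / th τ 0 a₀ ^ 2) =
        ell D (Φ (e k).2) (e k).1 * (om τ (per τ (v (e k).1 (e k).2)) s / th τ 0 a₀ ^ 2) := by
    intro D k s
    obtain ⟨M, N, c', hT, hz, hl⟩ := hst D
    have e1 : (app M (per τ (v (e k).1 (e k).2)) + fun j => D (per τ (v (e k).1 (e k).2) j)) =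
        ell D (Φ (e k).2) (e k).1 • per τ (v (e k).1 (e k).2) := by
      rw [hl, funext (hz (e k).1 (e k).2)]
      exact add_zero _
    have e2 := h8.dom g D τ M N c' hτ hT (per τ (v (e k).1 (e k).2)) s
    rw [e1, h7.om_smul, Pi.smul_apply, smul_eq_mul, ← add_mul] at e2
    rw [der_div D ht e2 (der_sq D (h8.nul g D τ M N c' hτ hT a₀)), add_sub_cancel_right]
  have hω : ∀ k, om τ (per τ (v (e k).1 (e k).2)) (a k, a₀) / th τ 0 a₀ ^ 2 ≠ 0 :=
    fun k => div_ne_zero (ha k) ht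
  generalize hωe : (fun k => om τ (per τ (v (e k).1 (e k).2)) (a k, a₀) / th τ 0 a₀ ^ 2) = ω
  have hωk : ∀ k, om τ (per τ (v (e k).1 (e k).2)) (a k, a₀) / th τ 0 a₀ ^ 2 = ω k :=
    congrFun hωe
  have hω' : ∀ k, ω k ≠ 0 := fun k => hωk k ▸ hω k
  have hDω : ∀ (D : Der) (k : Fin d), D (ω k) = ell D (Φ (e k).2) (e k).1 * ω k :=
    fun D k => hωk k ▸ hD D k (a k, a₀)
  have hb := Var2Aux.crd_bij hs hk he hr hω'
  obtain ⟨S, hS, hz⟩ := h13 g τ hτ fun D => by
    obtain ⟨M, N, c', hT, -⟩ := hst D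
    exact ⟨M, N, c', hT⟩
  obtain ⟨M, A, hA⟩ := mkVar h4 h5 h6 h7 hτ _ hb a₀ h0'
    (fun a' => alg_of_der h3 fun D => by
      obtain ⟨M, N, c', hT, -⟩ := hst D
      rw [der_div D h0' (h8.nul g D τ M N c' hτ hT a') (h8.nul g D τ M N c' hτ hT a₀), sub_self,
        zero_mul])
    (fun a' j => alg_of_der h3 fun D => by
      rw [crd_single, h7.om_smul, Pi.smul_apply, smul_eq_mul, mul_div_assoc, ← div_eq_inv_mul,
        der_div D (hω' j) (hD D j (a', a₀)) (hDω D j), sub_self, zero_mul])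
    hS hz
  refine ⟨M, A, ω, Var2Aux.latL v, hω', fun x => ?_, fun y => ?_, fun D k => ?_⟩
  · obtain ⟨n, p, hn, hp⟩ := exists_den (hs.rat x)
    exact ⟨n, hn, p, hp.symm.trans (map_zsmul (Var2Aux.ratL v) n x).symm⟩
  · rw [hA, mem_lat]
    constructor
    · rintro ⟨p, hp⟩
      obtain ⟨x, hx⟩ := hs.surj (cst p) fun j => ⟨p j, (Rat.cast_intCast (p j)).symm⟩
      refine ⟨x, ⟨p, hx⟩, hb.1 ?_⟩
      rw [hp, hx, Var2Aux.per_sum hk he hr, crd_mul _ hω' fun k => (e k).1 (x (e k).2)]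
    · rintro ⟨x, ⟨p, hp⟩, rfl⟩
      refine ⟨p, ?_⟩
      have hp' : cst p = vec v fun φ i => φ (x i) := hp
      rw [hp', Var2Aux.per_sum hk he hr, crd_mul _ hω' fun k => (e k).1 (x (e k).2)]
  · rw [hDω, elt, if_pos (Var2Aux.mem_of hr k)]

end Pool.Agent.Lib.MP_caab05_ag.GB
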