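import Mathlib
import Pool.Agent.Lib.MP_caab05_ag.GB.Stmt3

/-! Relations between the Beta integrals, and cyclotomic fields. -/

namespace Pool.Agent.Lib.MP_caab05_ag.GB

open NumberField

namespace BetAux

theorem beta_half {x : ℝ} (hx : 0 < x) :
    ∫ u in (0 : ℝ)..1, u ^ (x - 1) * (1 - u) ^ ((1 / 2 : ℝ) - 1) =
      Real.Gamma x * Real.Gamma (1 / 2) / Real.Gamma (x + 1 / 2) := by
  have h := Complex.betaIntegral_eq_Gamma_mul_div x ((1 / 2 : ℝ) : ℂ) (by simpa) (by simp)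
  rw [← Complex.ofReal_add, Complex.Gamma_ofReal, Complex.Gamma_ofReal, Complex.Gamma_ofReal,
    Complex.betaIntegral] at h
  have h2 : ∫ u in (0 : ℝ)..1, (u : ℂ) ^ ((x : ℂ) - 1) * (1 - (u : ℂ)) ^ (((1 / 2 : ℝ) : ℂ) - 1) =
      ((∫ u in (0 : ℝ)..1, u ^ (x - 1) * (1 - u) ^ ((1 / 2 : ℝ) - 1) : ℝ) : ℂ) := by
    rw [← intervalIntegral.integral_ofReal]
    refine intervalIntegral.integral_congr fun t ht => ?_
    rw [Set.uIcc_of_le (by norm_num)] at ht
    rw [Complex.ofReal_mul, Complex.ofReal_cpow ht.1, Complex.ofReal_cpow (by linarith [ht.2])]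
    push_cast
    rfl
  rw [h2] at h
  exact_mod_cast h

theorem BB_eq {N t : ℕ} (hN : 0 < N) (ht : 0 < t) : BB N t =
    Real.Gamma (t / N) * Real.Gamma (1 / 2) / Real.Gamma (t / N + 1 / 2) / N := by
  have hN' : (0 : ℝ) < N := by exact_mod_cast hN
  have ht' : (0 : ℝ) < t := by exact_mod_cast ht
  have h := intervalIntegral.integral_comp_mul_deriv_of_deriv_nonneg (a := 0) (b := 1)
    (f := fun x : ℝ => x ^ N) (f' := fun x => N * x ^ (N - 1))
    (g := fun u => u ^ ((t : ℝ) / N - 1) * (1 - u) ^ ((1 / 2 : ℝ) - 1)) (by fun_prop)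
    (fun x _ => hasDerivAt_pow N x) fun x hx => by
      have : 0 < x := by simpa using hx.1
      positivity
  rw [zero_pow hN.ne', one_pow, beta_half (div_pos ht' hN')] at h
  rw [← h, eq_div_iff hN'.ne', BB, ← intervalIntegral.integral_mul_const,
    intervalIntegral.integral_of_le zero_le_one, intervalIntegral.integral_of_le zero_le_one]
  refine MeasureTheory.setIntegral_congr_fun measurableSet_Ioc fun x hx => ?_
  have h1 : 0 ≤ 1 - x ^ N := sub_nonneg.2 (pow_le_one₀ hx.1.le hx.2)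
  have h2 : (1 - x ^ N) ^ ((1 / 2 : ℝ) - 1) = (√(1 - x ^ N))⁻¹ := by
    rw [Real.sqrt_eq_rpow, ← Real.rpow_neg h1]
    norm_num
  have h3 : (x ^ N) ^ ((t : ℝ) / N - 1) * x ^ (N - 1) = x ^ (t - 1) := by
    rw [← Real.rpow_natCast, ← Real.rpow_natCast, ← Real.rpow_natCast, ← Real.rpow_mul hx.1.le,
      ← Real.rpow_add hx.1, Nat.cast_pred hN, Nat.cast_pred ht]
    congr 1
    field_simp
    ring
  simp only [Function.comp_apply]
  rw [h2, ← h3]
  ring

theorem sin_alg (q : ℚ) : IsAlgebraic ℚ (Real.sin (Real.pi * q)) := by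
  rw [mul_comm]
  exact (Real.isAlgebraic_sin_rat_mul_pi q).extendScalars (algebraMap ℤ ℚ).injective_int

end BetAux

open BetAux

theorem bet (_h6 : CuAS) (_h7 : CuBS) : BetS := by
  refine ⟨fun e N s he hN hs => ?_, fun n t ht htn => ?_⟩
  · have he' : (e : ℝ) ≠ 0 := by positivity
    rw [BB_eq (Nat.mul_pos he hN) (Nat.mul_pos he hs), BB_eq hN hs, Nat.cast_mul, Nat.cast_mul,
      mul_div_mul_left _ _ he', div_div _ (N : ℝ), mul_comm (N : ℝ)]
  · have hn : (0 : ℝ) < n := by exact_mod_cast ht.trans htn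
    have ht' : (0 : ℝ) < t := by exact_mod_cast ht
    have htn' : (t : ℝ) < n := by exact_mod_cast htn
    obtain ⟨x, hx⟩ : ∃ x : ℚ, (x : ℝ) = t / ((2 * n : ℕ) : ℝ) := ⟨t / (2 * n : ℕ), by simp⟩
    have e1 : ((n - t : ℕ) : ℝ) / ((2 * n : ℕ) : ℝ) = 1 - (x + 1 / 2) := by
      rw [hx, Nat.cast_sub htn.le]
      push_cast
      field_simp
      ring
    have n2 : (0 : ℝ) < ((2 * n : ℕ) : ℝ) := by
      push_cast
      linarith
    have x0 : (0 : ℝ) < x := by rw [hx]; exact div_pos ht' n2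
    have x1 : (x : ℝ) < 1 / 2 := by
      rw [hx, div_lt_iff₀ n2]
      push_cast
      linarith
    refine ⟨Real.sin (Real.pi * ((x + 1 / 2 : ℚ) : ℝ)) / Real.sin (Real.pi * x),
      (sin_alg _).mul (sin_alg _).inv, ?_⟩
    have g1 := Real.Gamma_mul_Gamma_one_sub (x : ℝ)
    have g2 := Real.Gamma_mul_Gamma_one_sub ((x : ℝ) + 1 / 2)
    have p1 := (Real.Gamma_pos_of_pos (by linarith : 0 < (x : ℝ) + 1 / 2)).ne'
    have p2 := (Real.Gamma_pos_of_pos (by linarith : 0 < 1 - (x : ℝ))).ne'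
    have s1 : Real.sin (Real.pi * x) ≠ 0 := (Real.sin_pos_of_pos_of_lt_pi (by positivity)
      (by nlinarith [Real.pi_pos])).ne'
    have s2 : Real.sin (Real.pi * (x + 1 / 2)) ≠ 0 := (Real.sin_pos_of_pos_of_lt_pi (by positivity)
      (by nlinarith [Real.pi_pos])).ne'
    rw [BB_eq (by omega) ht, BB_eq (by omega) (by omega), e1, ← hx,
      show 1 - ((x : ℝ) + 1 / 2) + 1 / 2 = 1 - x by ring, eq_div_of_mul_eq p2 g1,
      eq_div_of_mul_eq p1 ((mul_comm _ _).trans g2)]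
    push_cast
    generalize Real.sin (Real.pi * ((x : ℝ) + 1 / 2)) = s at s2
    generalize Real.Gamma ((x : ℝ) + 1 / 2) = a at p1
    field_simp

theorem cyc2 : Cyc2S := by
  classical
  intro N L _ _ _ ζ hN hζ
  have : NeZero N := ⟨by omega⟩
  have hirr : Irreducible (Polynomial.cyclotomic N ℚ) :=
    Polynomial.cyclotomic.irreducible_rat (by omega)
  have hG : IsGalois ℚ L := IsCyclotomicExtension.isGalois {N} ℚ L
  have hcm : ∀ σ σ' : L ≃ₐ[ℚ] L, σ * σ' = σ' * σ :=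
    (IsCyclotomicExtension.isMulCommutative {N} ℚ L).is_comm.comm
  have htr : ∀ φ ψ : Emb L, ∃ σ : L ≃ₐ[ℚ] L, ψ = φ.comp (σ : L →+* L) := fun φ ψ => by
    obtain ⟨σ, hσ⟩ := ComplexEmbedding.exists_comp_symm_eq_of_comp_eq (k := ℚ) φ ψ
      (Subsingleton.elim _ _)
    exact ⟨σ.symm, hσ.symm⟩
  have hext : ∀ φ ψ : Emb L, φ ζ = ψ ζ → φ = ψ := fun φ ψ h => by
    have := (hζ.powerBasis ℚ).algHom_ext (f := φ.toRatAlgHom) (g := ψ.toRatAlgHom)
      (by simpa using h)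
    ext x
    exact congrArg (fun f : L →ₐ[ℚ] ℂ => f x) this
  obtain ⟨φ₀⟩ : Nonempty (Emb L) := inferInstance
  obtain ⟨c, hc⟩ : ∃ c : L ≃ₐ[ℚ] L, IsCj c := by
    obtain ⟨c, hc⟩ := htr φ₀ (cj φ₀)
    refine ⟨c, fun φ x => ?_⟩
    obtain ⟨σ, rfl⟩ := htr φ₀ φ
    have e1 : σ (c x) = c (σ x) := congrArg (fun t : L ≃ₐ[ℚ] L => t x) (hcm σ c)
    have e2 := congrArg (fun f : Emb L => f (σ x)) hc
    change φ₀ (σ (c x)) = starRingEnd ℂ (φ₀ (σ x))
    rw [e1]
    exact e2.symm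
  have hc1 : c ≠ 1 := by
    rintro rfl
    have h1 := hζ.map_of_injective φ₀.injective
    have h2 : φ₀ ζ = starRingEnd ℂ (φ₀ ζ) := hc φ₀ ζ
    have h3 : φ₀ ζ ^ 2 = 1 := by
      rw [sq]
      nth_rewrite 2 [h2]
      rw [Complex.mul_conj, Complex.normSq_eq_norm_sq, h1.norm'_eq_one (by omega)]
      simp
    have := Nat.le_of_dvd two_pos (h1.dvd_of_pow_eq_one 2 h3)
    omega
  have hb : (fun i : Fin (Module.finrank ℚ L) => ζ ^ (i : ℕ)) =
      (hζ.powerBasis ℚ).basis.reindex (finCongr (hζ.powerBasis ℚ).finrank.symm) := by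
    funext i
    rw [Module.Basis.reindex_apply, PowerBasis.basis_eq_pow, hζ.powerBasis_gen ℚ]
    rfl
  refine ⟨IsCyclotomicExtension.finrank L hirr, ⟨c, hc, hc1⟩, htr, hcm, ?_, ?_, hext⟩
  · rw [hb]
    exact Module.Basis.linearIndependent _
  · rw [hb]
    exact Module.Basis.span_eq _

end Pool.Agent.Lib.MP_caab05_ag.GB
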