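import Mathlib
import Pool.Agent.Lib.MP_caab05_ag.GB.Stmt3

/-! The square waves of all levels generate the odd part of the group ring. -/

namespace Pool.Agent.Lib.MP_caab05_ag.GB

open Complex Finset DirichletCharacter

namespace CharAux

lemma sum_zmod {M : ℕ} [NeZero M] (F : ZMod M → ℂ) :
    ∑ x : ZMod M, F x = ∑ s ∈ range M, F (s : ZMod M) := by
  refine Finset.sum_nbij' (fun x => x.val) (fun s => (s : ZMod M)) ?_ ?_ ?_ ?_ ?_
  · intro x _
    exact mem_range.2 (ZMod.val_lt x)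
  · intro s _
    exact mem_univ _
  · intro x _
    exact ZMod.natCast_zmod_val x
  · intro s hs
    exact ZMod.val_cast_of_lt (mem_range.1 hs)
  · intro x _
    rw [ZMod.natCast_zmod_val]

lemma sum_units_map {N M : ℕ} [NeZero N] [NeZero M] (h : M ∣ N) :
    ∃ c : ℕ, c ≠ 0 ∧ ∀ F : (ZMod M)ˣ → ℂ,
      ∑ b : (ZMod N)ˣ, F (ZMod.unitsMap h b) = c * ∑ x : (ZMod M)ˣ, F x := by
  classical
  refine ⟨#{b | ZMod.unitsMap h b = 1}, ?_, fun F => ?_⟩
  · exact (Finset.card_pos.2 ⟨1, by simp⟩).ne'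
  · rw [← Finset.sum_fiberwise (s := univ) (g := ZMod.unitsMap h), Finset.mul_sum]
    refine Finset.sum_congr rfl fun x _ => ?_
    rw [Finset.sum_congr rfl (g := fun _ => F x) fun b hb => by rw [(mem_filter.1 hb).2],
      Finset.sum_const, nsmul_eq_mul,
      MonoidHom.card_fiber_eq_of_mem_range (ZMod.unitsMap h) (ZMod.unitsMap_surjective h x)
        (ZMod.unitsMap_surjective h 1)]

lemma sum_units {M : ℕ} [NeZero M] (F : ZMod M → ℂ) (hF : ∀ x, ¬ IsUnit x → F x = 0) :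
    ∑ x : (ZMod M)ˣ, F x = ∑ x : ZMod M, F x :=
  Fintype.sum_of_injective (fun x : (ZMod M)ˣ => (x : ZMod M)) Units.val_injective _ _
    (fun x hx => hF x fun ⟨u, hu⟩ => hx ⟨u, hu⟩) fun _ => rfl

lemma ze_prim {N : ℕ} (hN : N ≠ 0) : IsPrimitiveRoot (ze N) N := Complex.isPrimitiveRoot_exp N hN

lemma ze_pow {e M : ℕ} (he : e ≠ 0) : ze (e * M) ^ e = ze M := by
  unfold ze
  rw [← Complex.exp_nat_mul]
  congr 1
  have : (e : ℂ) ≠ 0 := by exact_mod_cast he
  push_cast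
  field_simp

lemma im_pos {m : ℕ} (hm : 0 < m) (k : ℕ) :
    0 < (ze (2 * m) ^ k).im ↔ 0 < k % (2 * m) ∧ k % (2 * m) < m := by
  have e0 : ze (2 * m) ^ k = ze (2 * m) ^ (k % (2 * m)) := by
    conv_lhs => rw [← Nat.mod_add_div k (2 * m), pow_add, pow_mul,
      (ze_prim (by omega : 2 * m ≠ 0)).pow_eq_one, one_pow, mul_one]
  rw [e0]
  have hs : k % (2 * m) < 2 * m := Nat.mod_lt _ (by omega)
  generalize k % (2 * m) = s at hs
  have hm' : (0 : ℝ) < m := by exact_mod_cast hm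
  have e : ze (2 * m) ^ s = cexp (((Real.pi * s / m : ℝ) : ℂ) * I) := by
    unfold ze
    rw [← Complex.exp_nat_mul]
    congr 1
    have : (m : ℂ) ≠ 0 := by exact_mod_cast hm.ne'
    push_cast
    field_simp
  rw [e, Complex.exp_ofReal_mul_I_im]
  have hpi := Real.pi_pos
  constructor
  · intro h
    refine ⟨Nat.pos_of_ne_zero ?_, ?_⟩
    · rintro rfl
      simp at h
    · by_contra h1
      have h2 : (m : ℝ) ≤ s := by exact_mod_cast not_lt.1 h1
      have h3 : (s : ℝ) ≤ 2 * m := by exact_mod_cast hs.le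
      have h4 : Real.pi * s / m = Real.pi * (s - m) / m + Real.pi := by
        field_simp
        ring
      have h5 : 0 ≤ Real.sin (Real.pi * (s - m) / m) := by
        refine Real.sin_nonneg_of_nonneg_of_le_pi (by have := sub_nonneg.2 h2; positivity) ?_
        rw [div_le_iff₀ hm']
        nlinarith
      rw [h4, Real.sin_add_pi] at h
      linarith
  · rintro ⟨h1, h2⟩
    have h3 : (0 : ℝ) < s := by exact_mod_cast h1
    have h4 : (s : ℝ) < m := by exact_mod_cast h2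
    refine Real.sin_pos_of_pos_of_lt_pi (by positivity) ?_
    rw [div_lt_iff₀ hm']
    nlinarith

lemma three_le {f : ℕ} [NeZero f] {χ : DirichletCharacter ℂ f} (ho : χ.Odd) : 3 ≤ f := by
  by_contra h
  have h0 := NeZero.ne f
  have h1 : (-1 : ZMod f) = 1 := by
    obtain rfl | rfl : f = 1 ∨ f = 2 := by omega
    · exact Subsingleton.elim _ _
    · rfl
  have h2 : χ (-1) = -1 := ho
  rw [h1, map_one] at h2
  norm_num at h2

lemma shift {m : ℕ} [NeZero (2 * m)] {χ : DirichletCharacter ℂ (2 * m)} (hp : χ.IsPrimitive)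
    (hm : 2 ≤ m) (s : ℕ) : χ ((m + s : ℕ) : ZMod (2 * m)) = -χ (s : ZMod (2 * m)) := by
  have hd : m ∣ 2 * m := dvd_mul_left m 2
  have h1 : ¬ (ZMod.unitsMap hd).ker ≤ χ.toUnitHom.ker := by
    rw [← factorsThrough_iff_ker_unitsMap hd]
    intro h
    have h2 : χ.conductor ≤ m := Nat.sInf_le h
    rw [hp] at h2
    omega
  obtain ⟨u, hu, hu'⟩ := SetLike.not_le_iff_exists.1 h1
  have h2 : (u : ZMod (2 * m)).val % m = 1 := by
    have h := congrArg (fun x : (ZMod m)ˣ => (x : ZMod m)) (MonoidHom.mem_ker.1 hu)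
    simp only [ZMod.unitsMap_val, ZMod.cast_eq_val, Units.val_one] at h
    rw [← Nat.cast_one (R := ZMod m), ZMod.natCast_eq_natCast_iff', Nat.mod_eq_of_lt (a := 1) hm]
      at h
    exact h
  have h3 : (u : ZMod (2 * m)).val < 2 * m := ZMod.val_lt _
  have h4 : χ u ≠ 1 := fun h => hu' (MonoidHom.mem_ker.2 (Units.ext (by simpa using h)))
  have h5 : (u : ZMod (2 * m)).val = 1 + m := by
    rcases lt_or_ge (u : ZMod (2 * m)).val m with h | h
    · rw [Nat.mod_eq_of_lt h] at h2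
      refine absurd ?_ h4
      rw [← ZMod.natCast_zmod_val (u : ZMod (2 * m)), h2, Nat.cast_one, map_one]
    · rw [Nat.mod_eq_sub_mod h, Nat.mod_eq_of_lt (by omega)] at h2
      omega
  have h6 : (u : ZMod (2 * m)) = 1 + m := by
    rw [← ZMod.natCast_zmod_val (u : ZMod (2 * m)), h5]
    push_cast
    rfl
  have h7 : Even m := by
    have h := ZMod.val_coe_unit_coprime u
    rw [h5] at h
    have h' := (Nat.coprime_two_right.1 (Nat.Coprime.coprime_mul_right_right h))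
    rcases Nat.even_or_odd m with h8 | h8
    · exact h8
    · exact absurd h' (Nat.not_odd_iff_even.2 (odd_one.add_odd h8))
  have h8 : (2 : ZMod (2 * m)) * m = 0 := by exact_mod_cast ZMod.natCast_self (2 * m)
  have h9 : χ u = -1 := by
    obtain ⟨k, hk⟩ := h7
    have hk' : (m : ZMod (2 * m)) = k + k := by exact_mod_cast congrArg (Nat.cast (R := ZMod (2 * m))) hk
    have h10 : (u : ZMod (2 * m)) * u = 1 := by
      rw [h6]
      linear_combination (1 + (k : ZMod (2 * m))) * h8 + (m : ZMod (2 * m)) * hk'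
    have h11 : χ u * χ u = 1 := by rw [← map_mul, h10, map_one]
    exact (mul_self_eq_one_iff.1 h11).resolve_left h4
  have hz : ∀ t : ℕ, Even t → χ (t : ZMod (2 * m)) = 0 := fun t ht =>
    χ.map_nonunit fun h => by
      have h' := Nat.coprime_two_right.1
        (Nat.Coprime.coprime_mul_right_right ((ZMod.isUnit_iff_coprime t _).1 h))
      exact Nat.not_odd_iff_even.2 ht h'
  rcases Nat.even_or_odd s with hs | ⟨k, rfl⟩
  · rw [hz s hs, hz _ (h7.add hs), neg_zero]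
  · have e : ((m + (2 * k + 1) : ℕ) : ZMod (2 * m)) = u * ((2 * k + 1 : ℕ) : ZMod (2 * m)) := by
      rw [h6]
      push_cast
      linear_combination (-(k : ZMod (2 * m))) * h8
    rw [e, map_mul, h9, neg_one_mul]

lemma half_even (h : NonvS) {m : ℕ} [NeZero (2 * m)] {χ : DirichletCharacter ℂ (2 * m)}
    (hp : χ.IsPrimitive) (ho : χ.Odd) : ∑ s ∈ range m, χ (s : ZMod (2 * m)) ≠ 0 := by
  have hm : 2 ≤ m := by have := three_le ho; omega
  intro h0
  apply h _ χ hp ho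
  have e : ∑ s ∈ range (m + m), (s : ℂ) * χ (s : ZMod (2 * m)) = 0 := by
    rw [Finset.sum_range_add, ← Finset.sum_add_distrib]
    simp only [shift hp hm]
    rw [Finset.sum_congr rfl (g := fun s : ℕ => -(m : ℂ) * χ (s : ZMod (2 * m)))
      fun s _ => by push_cast; ring, ← Finset.mul_sum, h0, mul_zero]
  rwa [← two_mul] at e

lemma half_odd (h : NonvS) {f : ℕ} [NeZero f] (hf : Odd f) {χ : DirichletCharacter ℂ f}
    (hp : χ.IsPrimitive) (ho : χ.Odd) :
    ∑ s ∈ range f, changeLevel (dvd_mul_left f 2) χ (s : ZMod (2 * f)) ≠ 0 := by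
  have hT := h _ χ hp ho
  set T := ∑ s ∈ range f, (s : ℂ) * χ (s : ZMod f) with hT'
  have hT1 : T = ∑ x : ZMod f, (x.val : ℂ) * χ x := by
    rw [sum_zmod]
    exact Finset.sum_congr rfl fun s hs => by rw [ZMod.val_cast_of_lt (mem_range.1 hs)]
  have hO : ∑ s ∈ range f, changeLevel (dvd_mul_left f 2) χ (s : ZMod (2 * f)) =
      ∑ x : ZMod f, (if Odd x.val then 1 else 0) * χ x := by
    rw [sum_zmod]
    refine Finset.sum_congr rfl fun s hs => ?_
    rw [ZMod.val_cast_of_lt (mem_range.1 hs)]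
    by_cases hc : Nat.Coprime s (2 * f)
    · have h1 := changeLevel_eq_cast_of_dvd' χ (dvd_mul_left f 2) (a := (s : ℤ))
        (Nat.isCoprime_iff_coprime.2 hc)
      rw [if_pos (Nat.coprime_two_right.1 (Nat.Coprime.coprime_mul_right_right hc)), one_mul]
      simpa using h1
    · rw [MulChar.map_nonunit _ fun hu => hc ((ZMod.isUnit_iff_coprime s _).1 hu)]
      split_ifs with hs'
      · rw [MulChar.map_nonunit _ fun hu => hc (Nat.Coprime.mul_right
          (Nat.coprime_two_right.2 hs') ((ZMod.isUnit_iff_coprime s _).1 hu)), mul_zero]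
      · rw [zero_mul]
  rw [hO]
  intro h0
  have h2 : IsUnit ((2 : ℕ) : ZMod f) :=
    (ZMod.isUnit_iff_coprime 2 f).2 (Nat.coprime_two_left.2 hf)
  have hb : Function.Bijective fun x : ZMod f => ((2 : ℕ) : ZMod f) * x := h2.unit.mulLeft.bijective
  have key : ∀ x : ZMod f, ((((2 : ℕ) : ZMod f) * x).val : ℂ) +
      f * (if Odd (((2 : ℕ) : ZMod f) * x).val then 1 else 0) = 2 * x.val := by
    intro x
    have e : (((2 : ℕ) : ZMod f) * x).val = 2 * x.val % f := by
      conv_lhs => rw [← ZMod.natCast_zmod_val x, ← Nat.cast_mul, ZMod.val_natCast]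
    have hx := ZMod.val_lt x
    rw [e]
    obtain ⟨k, hk⟩ := hf
    rcases lt_or_ge (2 * x.val) f with h1 | h1
    · rw [Nat.mod_eq_of_lt h1, if_neg (Nat.not_odd_iff_even.2 (even_two_mul _))]
      push_cast
      ring
    · rw [Nat.mod_eq_sub_mod h1, Nat.mod_eq_of_lt (by omega),
        if_pos ⟨x.val - k - 1, by omega⟩, Nat.cast_sub h1]
      push_cast
      ring
  have h3 : T + f * ∑ x : ZMod f, (if Odd x.val then 1 else 0) * χ x =
      2 * χ ((2 : ℕ) : ZMod f) * T := by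
    conv_lhs => rw [hT1, Finset.mul_sum, ← Finset.sum_add_distrib, ← hb.sum_comp]
    rw [hT1, Finset.mul_sum]
    refine Finset.sum_congr rfl fun x _ => ?_
    rw [← mul_assoc, ← add_mul, key, map_mul]
    ring
  rw [h0, mul_zero, add_zero] at h3
  have h4 : 2 * χ ((2 : ℕ) : ZMod f) = 1 := by
    refine mul_right_cancel₀ hT ?_
    rw [← h3, one_mul]
  have h5 := congrArg norm h4
  have h6 := χ.unit_norm_eq_one h2.unit
  rw [IsUnit.unit_spec] at h6
  rw [norm_mul, h6] at h5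
  norm_num at h5

lemma exists_level (h : NonvS) {n : ℕ} [NeZero (2 * n)] (χ : DirichletCharacter ℂ (2 * n))
    (ho : χ.Odd) : ∃ (m : ℕ) (hd : 2 * m ∣ 2 * n) (ψ : DirichletCharacter ℂ (2 * m)), 2 ≤ m ∧
      χ = changeLevel hd ψ ∧ ∑ s ∈ range m, ψ (s : ZMod (2 * m)) ≠ 0 := by
  obtain ⟨f, hf, χ₀, hp, rfl⟩ : ∃ (f : ℕ) (hf : f ∣ 2 * n) (χ₀ : DirichletCharacter ℂ f),
      χ₀.IsPrimitive ∧ χ = changeLevel hf χ₀ :=
    ⟨_, _, _, χ.primitiveCharacter_isPrimitive, χ.changeLevel_primitiveCharacter.symm⟩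
  have : NeZero f := ⟨fun h0 => NeZero.ne (2 * n) (zero_dvd_iff.1 (h0 ▸ hf))⟩
  have ho' : χ₀.Odd := by
    have h1 := changeLevel_eq_cast_of_dvd' χ₀ hf (a := -1) isCoprime_one_left.neg_left
    have h2 : changeLevel hf χ₀ (-1) = -1 := ho
    simp only [Int.reduceNeg, Int.cast_neg, Int.cast_one] at h1
    exact h1.symm.trans h2
  have h3 := three_le ho'
  rcases Nat.even_or_odd' f with ⟨m, rfl | hm⟩
  · exact ⟨m, hf, χ₀, by omega, rfl, half_even h hp ho'⟩
  · have hfo : Odd f := ⟨m, hm⟩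
    have hd : 2 * f ∣ 2 * n :=
      Nat.mul_dvd_mul_left 2 ((Nat.coprime_two_right.2 hfo).dvd_of_dvd_mul_left hf)
    exact ⟨f, hd, changeLevel (dvd_mul_left f 2) χ₀, by omega,
      changeLevel_trans χ₀ (dvd_mul_left f 2) hd, half_odd h hfo hp ho'⟩

lemma wave (h : NonvS) {n : ℕ} [NeZero (2 * n)] (χ : DirichletCharacter ℂ (2 * n)) (ho : χ.Odd) :
    ∃ e m : ℕ, 2 ≤ m ∧ e * m = n ∧ ∑ b : (ZMod (2 * n))ˣ,
      (if 0 < ((ze (2 * n) ^ (b : ZMod (2 * n)).val) ^ e).im then χ b else 0) ≠ 0 := by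
  obtain ⟨m, hd, ψ, hm, rfl, hS⟩ := exists_level h χ ho
  obtain ⟨e, he⟩ := Nat.dvd_of_mul_dvd_mul_left two_pos hd
  have : NeZero (2 * m) := ⟨by omega⟩
  have he0 : e ≠ 0 := by
    rintro rfl
    exact NeZero.ne (2 * n) (by rw [he]; simp)
  refine ⟨e, m, hm, by rw [he, mul_comm], ?_⟩
  obtain ⟨c, hc, hsum⟩ := sum_units_map hd
  let F : ZMod (2 * m) → ℂ := fun x => if 0 < x.val ∧ x.val < m then ψ x else 0
  have h1 : ∀ b : (ZMod (2 * n))ˣ,
      (if 0 < ((ze (2 * n) ^ (b : ZMod (2 * n)).val) ^ e).im then changeLevel hd ψ b else 0) =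
      F (ZMod.unitsMap hd b) := by
    intro b
    have e1 : (ze (2 * n) ^ (b : ZMod (2 * n)).val) ^ e = ze (2 * m) ^ (b : ZMod (2 * n)).val := by
      rw [← pow_mul, mul_comm _ e, pow_mul, ← ze_pow (M := 2 * m) he0]
      congr 3
      rw [he]
      ring
    simp only [e1, im_pos (by omega : 0 < m), F, changeLevel_eq_cast_of_dvd, ZMod.unitsMap_val,
      ZMod.cast_eq_val, ZMod.val_natCast]
  simp only [h1]
  rw [hsum fun x => F x, sum_units F fun x hx => by simp [F, ψ.map_nonunit hx], sum_zmod]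
  refine mul_ne_zero (by exact_mod_cast hc) ?_
  have h2 : ∑ s ∈ range (2 * m), F s = ∑ s ∈ range m, ψ (s : ZMod (2 * m)) := by
    symm
    refine Finset.sum_subset_zero_on_sdiff (Finset.range_subset_range.2 (by omega)) ?_ ?_
    · intro s hs
      have h3 := mem_range.1 (mem_sdiff.1 hs).1
      have h4 := (mem_sdiff.1 hs).2
      simp only [F, ZMod.val_cast_of_lt h3]
      exact if_neg fun h5 => h4 (mem_range.2 h5.2)
    · intro s hs
      have h3 := mem_range.1 hs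
      simp only [F, ZMod.val_cast_of_lt (by omega : s < 2 * m)]
      split_ifs with h5
      · rfl
      · obtain rfl : s = 0 := by omega
        rw [Nat.cast_zero]
        exact ψ.map_zero' (by omega)
  rwa [h2]

lemma vanish (h : NonvS) {n : ℕ} [NeZero (2 * n)] (Q : (ZMod (2 * n))ˣ → ℂ)
    (hodd : ∀ b, Q (-b) = -Q b)
    (hc : ∀ e m : ℕ, 2 ≤ m → e * m = n → ∀ a, ∑ b : (ZMod (2 * n))ˣ,
      (if 0 < ((ze (2 * n) ^ (b : ZMod (2 * n)).val) ^ e).im then Q (b * a⁻¹) else 0) = 0)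
    (b₀ : (ZMod (2 * n))ˣ) : Q b₀ = 0 := by
  classical
  have h1 : ∀ χ : DirichletCharacter ℂ (2 * n),
      ∑ r : (ZMod (2 * n))ˣ, χ (r⁻¹ : (ZMod (2 * n))ˣ) * Q r = 0 := by
    intro χ
    rcases χ.even_or_odd with he | ho
    · have h2 := Equiv.sum_comp (Equiv.neg (ZMod (2 * n))ˣ)
        fun r : (ZMod (2 * n))ˣ => χ (r⁻¹ : (ZMod (2 * n))ˣ) * Q r
      simp only [Equiv.neg_apply, hodd, inv_neg, Units.val_neg, he.eval_neg, mul_neg,
        Finset.sum_neg_distrib] at h2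
      linear_combination (-1 / 2 : ℂ) * h2
    · obtain ⟨e, m, hm, hem, hS⟩ := wave h χ ho
      refine (mul_eq_zero.1 ?_).resolve_left hS
      have h2 : ∑ a : (ZMod (2 * n))ˣ, χ a * ∑ b : (ZMod (2 * n))ˣ,
          (if 0 < ((ze (2 * n) ^ (b : ZMod (2 * n)).val) ^ e).im then Q (b * a⁻¹) else 0) = 0 := by
        simp only [hc e m hm hem, mul_zero, Finset.sum_const_zero]
      refine Eq.trans ?_ h2
      rw [Finset.sum_mul]
      simp only [Finset.mul_sum]
      conv_rhs => rw [Finset.sum_comm]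
      refine Finset.sum_congr rfl fun b _ => ?_
      rw [← Equiv.sum_comp ((Equiv.inv (ZMod (2 * n))ˣ).trans (Equiv.mulLeft b))]
      refine Finset.sum_congr rfl fun a _ => ?_
      simp only [Equiv.trans_apply, Equiv.inv_apply, Equiv.coe_mulLeft]
      split_ifs
      · rw [← mul_assoc, ← map_mul, ← Units.val_mul]
        congr 3
        rw [mul_inv_rev, inv_inv, mul_comm a, mul_inv_cancel_left]
      · simp
  have h2 : ∑ χ : DirichletCharacter ℂ (2 * n), χ b₀ *
      ∑ r : (ZMod (2 * n))ˣ, χ (r⁻¹ : (ZMod (2 * n))ˣ) * Q r = (2 * n).totient * Q b₀ := by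
    simp only [Finset.mul_sum]
    rw [Finset.sum_comm]
    have h3 : ∀ r : (ZMod (2 * n))ˣ, ∑ χ : DirichletCharacter ℂ (2 * n),
        χ b₀ * (χ (r⁻¹ : (ZMod (2 * n))ˣ) * Q r) =
        if r = b₀ then ((2 * n).totient : ℂ) * Q r else 0 := by
      intro r
      have h4 := DirichletCharacter.sum_char_inv_mul_char_eq ℂ r.isUnit (b₀ : ZMod (2 * n))
      rw [ZMod.inv_coe_unit] at h4
      rw [Finset.sum_congr rfl (g := fun χ : DirichletCharacter ℂ (2 * n) =>
        χ (r⁻¹ : (ZMod (2 * n))ˣ) * χ b₀ * Q r) fun χ _ => by ring, ← Finset.sum_mul, h4]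
      simp [Units.ext_iff]
    simp only [h3, Finset.sum_ite_eq', mem_univ, if_true]
  simp only [h1, mul_zero, Finset.sum_const_zero] at h2
  refine (mul_eq_zero.1 h2.symm).resolve_left ?_
  exact_mod_cast (Nat.totient_pos.2 (NeZero.pos _)).ne'

lemma emb_ext {N : ℕ} [NeZero N] {L : Type} [Field L] [NumberField L]
    [IsCyclotomicExtension {N} ℚ L] {ζ : L} (hζ : IsPrimitiveRoot ζ N) {φ ψ : Emb L}
    (h : φ ζ = ψ ζ) : φ = ψ := by
  have : φ.toRatAlgHom = ψ.toRatAlgHom := by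
    apply (hζ.powerBasis ℚ).algHom_ext
    rw [hζ.powerBasis_gen ℚ]
    exact h
  ext x
  exact AlgHom.congr_fun this x

lemma exists_param {N : ℕ} [NeZero N] {L : Type} [Field L] [NumberField L]
    [IsCyclotomicExtension {N} ℚ L] {ζ : L} (hζ : IsPrimitiveRoot ζ N) :
    ∃ (emb : (ZMod N)ˣ → Emb L) (s : (ZMod N)ˣ → L ≃ₐ[ℚ] L), Function.Bijective emb ∧
      (∀ a, emb a ζ = ze N ^ (a : ZMod N).val) ∧
      (∀ a b, (emb a).comp (s b : L →+* L) = emb (a * b)) ∧ ∀ a, emb (-a) = cj (emb a) := by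
  have hirr := Polynomial.cyclotomic.irreducible_rat (NeZero.pos N)
  have hω := ze_prim (NeZero.ne N)
  let φ₀ : L →ₐ[ℚ] ℂ := (hζ.embeddingsEquivPrimitiveRoots ℂ hirr).symm
    ⟨ze N, (mem_primitiveRoots (NeZero.pos N)).2 hω⟩
  have h0 : φ₀ ζ = ze N := by
    rw [← hζ.embeddingsEquivPrimitiveRoots_apply_coe ℂ hirr φ₀, Equiv.apply_symm_apply]
  let E := IsCyclotomicExtension.autEquivPow L hirr
  have hs : ∀ a, E.symm a ζ = ζ ^ (a : ZMod N).val := by
    intro a
    have h1 := (IsCyclotomicExtension.zeta_spec N ℚ L).autToPow_spec ℚ (E.symm a)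
    have h2 : (IsCyclotomicExtension.zeta_spec N ℚ L).autToPow ℚ (E.symm a) = a :=
      E.apply_symm_apply a
    obtain ⟨k, -, hk⟩ := (IsCyclotomicExtension.zeta_spec N ℚ L).eq_pow_of_pow_eq_one
      hζ.pow_eq_one
    rw [h2] at h1
    rw [← hk, map_pow, ← h1, ← pow_mul, ← pow_mul, mul_comm]
  let emb : (ZMod N)ˣ → Emb L := fun a => (φ₀ : L →+* ℂ).comp (E.symm a : L →+* L)
  have he : ∀ a, emb a ζ = ze N ^ (a : ZMod N).val := fun a => by
    show φ₀ (E.symm a ζ) = _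
    rw [hs, map_pow, h0]
  refine ⟨emb, E.symm, ⟨fun a b hab => ?_, fun ψ => ?_⟩, he, fun a b => ?_, fun a => ?_⟩
  · have h1 := RingHom.congr_fun hab ζ
    rw [he, he] at h1
    exact Units.ext (ZMod.val_injective N (hω.pow_inj (ZMod.val_lt _) (ZMod.val_lt _) h1))
  · have h1 : IsPrimitiveRoot (ψ ζ) N := hζ.map_of_injective ψ.injective
    obtain ⟨i, hi, hi'⟩ := hω.eq_pow_of_pow_eq_one h1.pow_eq_one
    have h2 : i.Coprime N := (hω.pow_iff_coprime (NeZero.pos N) i).1 (hi' ▸ h1)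
    refine ⟨ZMod.unitOfCoprime i h2, emb_ext hζ ?_⟩
    rw [he, ZMod.coe_unitOfCoprime, ZMod.val_cast_of_lt hi, hi']
  · ext x
    show φ₀ (E.symm a (E.symm b x)) = φ₀ (E.symm (a * b) x)
    rw [map_mul, AlgEquiv.mul_apply]
  · refine emb_ext hζ ?_
    rw [NumberField.ComplexEmbedding.conjugate_coe_eq, he, he]
    have h1 : ‖ze N ^ (a : ZMod N).val‖ = 1 := by
      rw [norm_pow, hω.norm'_eq_one (NeZero.ne N), one_pow]
    rw [← Complex.inv_eq_conj h1]
    refine eq_inv_of_mul_eq_one_left ?_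
    rw [← pow_add, hω.pow_eq_one_iff_dvd, ← ZMod.natCast_eq_zero_iff]
    simp

end CharAux

open CharAux in
theorem charS (h : NonvS) : CharS := by
  intro n L _ _ _ ζ q hn hζ hodd hinv hsum φ ψ
  classical
  have : NeZero (2 * n) := ⟨by omega⟩
  obtain ⟨emb, s, hb, he, hmul, hneg⟩ := exists_param hζ
  have hq : ∀ a b, q (emb a) (emb b) = q (emb 1) (emb (b * a⁻¹)) := fun a b => by
    rw [← hinv (s a⁻¹), hmul, hmul, mul_inv_cancel]
  obtain ⟨a, rfl⟩ := hb.2 φ
  obtain ⟨b, rfl⟩ := hb.2 ψ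
  rw [hq]
  refine vanish h (fun b => q (emb 1) (emb b)) (fun b => by rw [hneg, hodd]) ?_ _
  intro e m hm hem a
  refine Eq.trans ?_ (hsum e m hm hem (emb a))
  rw [← hb.sum_comp]
  refine Finset.sum_congr rfl fun b _ => ?_
  simp only [Set.indicator_apply, Set.mem_ofPred_eq, map_pow, he, hq a b]

end Pool.Agent.Lib.MP_caab05_ag.GB
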