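import Mathlib
import Pool.Agent.Lib.MP_caab05_ag.GB.Stmt2

/-! An algebraic relation along the Abel-Jacobi map of the curve `y ^ 2 = 1 - x ^ N`. -/

namespace Pool.Agent.Lib.MP_caab05_ag.GB

open Complex

namespace CuRelAux

theorem dense_gen {N : ℕ} (hN : 0 < N) : Dense {x : ℂ | (x ^ N).im ≠ 0} := by
  have : NeZero N := ⟨hN.ne'⟩
  exact ((dense_compl_singleton (0 : ℝ)).preimage Complex.isOpenMap_im).preimage
    (Complex.isOpenQuotientMap_pow N).isOpenMap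

/-- charts in one variable -/
theorem charts_lift {ι β : Type} [Fintype β] (Ω K G : ι → Set ℂ) (X : ι → ℂ → Fin 2 → ℂ)
    (Y : ι → ℂ → β → ℂ) (op : ∀ i, IsOpen (Ω i)) (cp : ∀ i, IsCompact (K i))
    (sub : ∀ i, K i ⊆ Ω i) (hX : ∀ i, Differentiable ℂ (X i))
    (hY : ∀ i, ∀ x ∈ Ω i, DifferentiableAt ℂ (Y i) x) (nX : ∀ i x, X i x ≠ 0)
    (nY : ∀ i x, Y i x ≠ 0) (hG : ∀ i, Dense (G i))
    (mt : ∀ i, ∀ x ∈ G i, ∃ j, ∃ x' ∈ K j, ∃ a b : ℂ, X i x = a • X j x' ∧ Y i x = b • Y j x') :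
    Charts (fun i => {p : Unit → ℂ | p () ∈ Ω i}) (fun i => {p : Unit → ℂ | p () ∈ K i})
      (fun i p => X i (p ())) (fun i p => Y i (p ())) where
  op := fun i => (op i).preimage (continuous_apply ())
  cpt := fun i => by
    have e : {p : Unit → ℂ | p () ∈ K i} = (fun x _ => x) '' K i := by
      ext p
      exact ⟨fun h => ⟨p (), h, rfl⟩, fun ⟨x, hx, e⟩ => e ▸ hx⟩
    rw [e]
    exact (cp i).image (continuous_pi fun _ => continuous_id)
  sub := fun i _ hp => sub i hp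
  holX := fun i => ((hX i).comp (differentiable_apply ())).differentiableOn
  holY := fun i p hp =>
    ((hY i _ hp).comp p (differentiableAt_apply () p)).differentiableWithinAt
  neX := fun i _ _ => nX i _
  neY := fun i _ _ => nY i _
  mtch := fun i => by
    have hd : Dense {p : Unit → ℂ | p () ∈ G i} :=
      (hG i).preimage (isOpenMap_eval (X := fun _ : Unit => ℂ) ())
    refine (hd.open_subset_closure_inter ((op i).preimage (continuous_apply ()))).trans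
      (closure_mono ?_)
    rintro p ⟨h1, h2⟩
    obtain ⟨j, x', hx', a, b, e1, e2⟩ := mt i _ h2
    exact ⟨h1, j, fun _ => x', hx', a, b, e1, e2⟩

variable {g : ℕ} {ι : Type} [Fintype ι]

/-- the Abel-Jacobi map in the chart `x` -/
noncomputable def UA (n : ℕ) (t : ι → ℕ) (w : ι → V g) (x : ℂ) : V g :=
  ∑ i, II (2 * n) (t i) x • w i

/-- the Abel-Jacobi map near a branch point -/
noncomputable def UB (n : ℕ) (t : ι → ℕ) (w : ι → V g) (j : ℕ) (s : ℂ) : V g :=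
  ∑ i, (ze (2 * n) ^ (j * t i) * JI (2 * n) (t i) s) • w i

/-- the Abel-Jacobi map near infinity -/
noncomputable def UC (n : ℕ) (t : ι → ℕ) (w : ι → V g) (s : ℂ) : V g :=
  ∑ i, (I * II (2 * n) (n - t i) s) • w i

/-- proportional values of the theta functions -/
def Pr (τ : Mat g) (u u' : V g) : Prop := ∃ b : ℂ, th τ u = b • th τ u'

theorem pr_add (h4 : LawS) {τ : Mat g} (hτ : Sg τ) (p : Zg g) (u : V g) :
    Pr τ (u + per τ (cst p)) u ∧ Pr τ u (u + per τ (cst p)) := by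
  have h := h4.law g τ hτ ((4 : ℤ) • p) u
  rw [h4.tor_four, h4.hh_four] at h
  refine ⟨⟨_, h⟩, (ee τ ((4 : ℤ) • p) u)⁻¹, ?_⟩
  have h0 : ee τ ((4 : ℤ) • p) u ≠ 0 := Complex.exp_ne_zero _
  rw [h, smul_smul, inv_mul_cancel₀ h0, one_smul]

variable {n : ℕ} {τ : Mat g} {t : ι → ℕ} {w : ι → V g}

theorem neg_one_pow_N (n : ℕ) : (-1 : ℂ) ^ (2 * n) = 1 := by rw [pow_mul]; norm_num

theorem neg_pow_N (n : ℕ) (x : ℂ) : (-x) ^ (2 * n) = x ^ (2 * n) := by
  rw [neg_pow, neg_one_pow_N, one_mul]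

theorem II_neg (h6 : CuAS) (n : ℕ) {k : ℕ} (hk : Odd k) (x : ℂ) :
    II (2 * n) k (-x) = -II (2 * n) k x := by
  have h := h6.rot (2 * n) k (-1) x (neg_one_pow_N n)
  rwa [hk.neg_one_pow, neg_one_mul, neg_one_mul] at h

theorem UA_neg (h6 : CuAS) (h : IsAJ n τ t w) (x : ℂ) : UA n t w (-x) = -UA n t w x := by
  unfold UA
  rw [← Finset.sum_neg_distrib]
  exact Finset.sum_congr rfl fun i _ => by rw [II_neg h6 n (h.odd i), neg_smul]

theorem UB_neg (h6 : CuAS) (j : ℕ) (s : ℂ) : UB n t w j (-s) = -UB n t w j s := by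
  unfold UB
  rw [← Finset.sum_neg_distrib]
  exact Finset.sum_congr rfl fun i _ => by rw [h6.oddJ, mul_neg, neg_smul]

theorem UC_neg (h6 : CuAS) (h : IsAJ n τ t w) (s : ℂ) : UC n t w (-s) = -UC n t w s := by
  unfold UC
  rw [← Finset.sum_neg_distrib]
  exact Finset.sum_congr rfl fun i _ => by
    rw [II_neg h6 n (Nat.Even.sub_odd (h.lt i).le h.even (h.odd i)), mul_neg, neg_smul]

theorem ze_prim (hn : 0 < n) : IsPrimitiveRoot (ze (2 * n)) (2 * n) :=
  Complex.isPrimitiveRoot_exp (2 * n) (by omega)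

theorem ze_pow (hn : 0 < n) (j : ℕ) : (ze (2 * n) ^ j) ^ (2 * n) = 1 := by
  rw [← pow_mul, mul_comm j, pow_mul, (ze_prim hn).pow_eq_one, one_pow]

theorem re_ne {s : ℂ} (hs : (s ^ 2).im ≠ 0) : s.re ≠ 0 := by
  intro h
  apply hs
  rw [sq, Complex.mul_im, h]
  ring

/-- the passage to the branch points -/
theorem keyB (h6 : CuAS) (h : IsAJ n τ t w) {s : ℂ} (hs : (s ^ 2).im ≠ 0) (hr : 0 < s.re) :
    ∃ x₀ : ℂ, x₀ ^ (2 * n) = 1 - s ^ 2 ∧ ∀ j : ℕ, ∃ p,
      UA n t w (ze (2 * n) ^ j * x₀) = UB n t w j (-s) + per τ (cst p) := by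
  have hN : 0 < 2 * n := by have := h.npos; omega
  have hs' : s ∈ St 2 := Or.inr (by simpa using hs)
  refine ⟨(1 - s ^ 2) ^ (1 / (2 * n : ℕ) : ℂ), (h6.branch (2 * n) 1 hN one_pos s hs' hr).2.1,
    fun j => ?_⟩
  obtain ⟨p, hp⟩ := h.lat₁ j
  refine ⟨p, ?_⟩
  rw [← hp]
  unfold UA UB
  rw [← Finset.sum_add_distrib]
  refine Finset.sum_congr rfl fun i _ => ?_
  rw [h6.rot _ _ _ _ (ze_pow h.npos j), (h6.branch (2 * n) (t i) hN (h.odd i).pos s hs' hr).2.2,
    h6.oddJ, ← add_smul, ← pow_mul]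
  congr 1
  ring

/-- the passage to infinity -/
theorem keyC (h7 : CuBS) (h : IsAJ n τ t w) {x : ℂ} (hx : (x ^ (2 * n)).im ≠ 0) :
    ∃ p, UA n t w x = UC n t w x⁻¹ + per τ (cst p) ∨
      UA n t w x = -UC n t w x⁻¹ + per τ (cst p) := by
  obtain ⟨j, ε, hε, he⟩ := h7 n h.npos x hx
  obtain ⟨p, hp⟩ := h.lat₂ j
  refine ⟨p, ?_⟩
  have h1 : ε = I ∨ ε = -I := sq_eq_sq_iff_eq_or_eq_neg.1 (by rw [hε, Complex.I_sq])
  rw [← hp]
  unfold UA UC
  rcases h1 with rfl | rfl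
  · left
    rw [← Finset.sum_add_distrib]
    refine Finset.sum_congr rfl fun i _ => ?_
    rw [he (t i) (h.odd i).pos (h.lt i), ← add_smul, add_comm]
  · right
    rw [← Finset.sum_neg_distrib, ← Finset.sum_add_distrib]
    refine Finset.sum_congr rfl fun i _ => ?_
    rw [he (t i) (h.odd i).pos (h.lt i), ← neg_smul, ← add_smul, add_comm, neg_mul]

/-- index set of the charts -/
abbrev Ch (n : ℕ) : Type := Option (Option (Fin (2 * n)))

def Om (n : ℕ) : Ch n → Set ℂ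
  | none => St (2 * n)
  | some none => St (2 * n)
  | some (some _) => St 2

def Kc (n : ℕ) : Ch n → Set ℂ
  | none => {x | ‖x‖ ≤ 2 ∧ (x ^ (2 * n)).re ≤ 1 / 2}
  | some none => {x | ‖x‖ ≤ 1 / 2}
  | some (some _) => {s : ℂ | ‖1 - s ^ 2‖ ≤ 2 ^ (2 * n) ∧ (1 / 2 : ℝ) ≤ (1 - s ^ 2 : ℂ).re}

def Gn (n : ℕ) : Ch n → Set ℂ
  | none => {x | (x ^ (2 * n)).im ≠ 0}
  | some none => {x | (x ^ (2 * n)).im ≠ 0}
  | some (some _) => {s | (s ^ 2).im ≠ 0}

noncomputable def Xb (n : ℕ) : Ch n → ℂ → Fin 2 → ℂ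
  | none => fun x => ![1, x ^ (2 * n)]
  | some none => fun x => ![x ^ (2 * n), 1]
  | some (some _) => fun s => ![1, 1 - s ^ 2]

noncomputable def Uu (n : ℕ) (t : ι → ℕ) (w : ι → V g) : Ch n → ℂ → V g
  | none => UA n t w
  | some none => UC n t w
  | some (some j) => UB n t w j

/-- matched with a point of one of the compact sets -/
def Mt (n : ℕ) (τ : Mat g) (t : ι → ℕ) (w : ι → V g) (v : Fin 2 → ℂ) (u : V g) : Prop :=
  ∃ j, ∃ x' ∈ Kc n j, ∃ a b : ℂ, v = a • Xb n j x' ∧ th τ u = b • th τ (Uu n t w j x')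

theorem Mt.of {v v' : Fin 2 → ℂ} {u u' : V g} (h : Mt n τ t w v' u') {a : ℂ} (hv : v = a • v')
    (hu : Pr τ u u') : Mt n τ t w v u := by
  obtain ⟨j, x', hx', a', b', e1, e2⟩ := h
  obtain ⟨b, e3⟩ := hu
  exact ⟨j, x', hx', a * a', b * b', by rw [hv, e1, smul_smul], by rw [e3, e2, smul_smul]⟩

theorem Mt.self (j : Ch n) {x : ℂ} (hx : x ∈ Kc n j) : Mt n τ t w (Xb n j x) (Uu n t w j x) :=
  ⟨j, x, hx, 1, 1, (one_smul _ _).symm, (one_smul _ _).symm⟩

theorem ne_of_im {x : ℂ} {N : ℕ} (hN : 0 < N) (hx : (x ^ N).im ≠ 0) : x ≠ 0 := by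
  rintro rfl
  rw [zero_pow hN.ne'] at hx
  exact hx rfl

theorem mtA (h4 : LawS) (h6 : CuAS) (h7 : CuBS) (h : IsAJ n τ t w) {x : ℂ}
    (hx : (x ^ (2 * n)).im ≠ 0) : Mt n τ t w ![1, x ^ (2 * n)] (UA n t w x) := by
  have hN : 0 < 2 * n := by have := h.npos; omega
  have : NeZero (2 * n) := ⟨hN.ne'⟩
  have hx0 := ne_of_im hN hx
  rcases le_total ‖x‖ 2 with h1 | h1
  · rcases le_total (x ^ (2 * n)).re (1 / 2) with h2 | h2
    · exact Mt.self none ⟨h1, h2⟩
    · obtain ⟨s, hs, hr⟩ : ∃ s : ℂ, s ^ 2 = 1 - x ^ (2 * n) ∧ 0 < s.re := by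
        obtain ⟨s, hs⟩ := IsAlgClosed.exists_pow_nat_eq (1 - x ^ (2 * n)) two_pos
        have h3 : s.re ≠ 0 := re_ne (by rw [hs]; simpa using hx)
        rcases h3.lt_or_gt with h3 | h3
        · exact ⟨-s, by rw [neg_sq, hs], by simpa using h3⟩
        · exact ⟨s, hs, h3⟩
      obtain ⟨x₀, e0, hx₀⟩ := keyB h6 h (s := s) (by rw [hs]; simpa using hx) hr
      rw [hs, sub_sub_cancel] at e0
      have h0 : x₀ ≠ 0 := ne_of_im hN (by rw [e0]; exact hx)
      obtain ⟨j, hj, ej⟩ := (ze_prim h.npos).eq_pow_of_pow_eq_one (ξ := x / x₀)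
        (by rw [div_pow, e0, div_self (pow_ne_zero _ hx0)])
      obtain ⟨p, hp⟩ := hx₀ j
      rw [ej, div_mul_cancel₀ _ h0] at hp
      have e1 : 1 - (-s) ^ 2 = x ^ (2 * n) := by rw [neg_sq, hs, sub_sub_cancel]
      have hk : -s ∈ Kc n (some (some ⟨j, hj⟩)) := by
        refine ⟨?_, ?_⟩
        · rw [e1, norm_pow]
          exact pow_le_pow_left₀ (norm_nonneg _) h1 _
        · rw [e1]
          exact h2
      refine (Mt.self (τ := τ) (t := t) (w := w) _ hk).of (a := 1) ?_ ?_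
      · rw [one_smul, ← e1]
        rfl
      · rw [hp]
        exact (pr_add h4 h.sg p _).1
  · have hk : ‖x⁻¹‖ ≤ 1 / 2 := by
      rw [norm_inv, one_div]
      exact inv_anti₀ two_pos h1
    have e : ∀ y : ℂ, y ^ (2 * n) = x⁻¹ ^ (2 * n) →
        (![1, x ^ (2 * n)] : Fin 2 → ℂ) = x ^ (2 * n) • ![y ^ (2 * n), 1] := by
      intro y hy
      rw [hy, inv_pow]
      funext i
      fin_cases i
      · simp [pow_ne_zero _ hx0]
      · simp
    obtain ⟨p, hp | hp⟩ := keyC h7 h hx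
    · refine (Mt.self (τ := τ) (t := t) (w := w) (some none) (x := x⁻¹) hk).of (e _ rfl) ?_
      rw [hp]
      exact (pr_add h4 h.sg p _).1
    · refine (Mt.self (τ := τ) (t := t) (w := w) (some none) (x := -x⁻¹)
        (by show ‖-x⁻¹‖ ≤ 1 / 2; rwa [norm_neg])).of (e _ (neg_pow_N n _)) ?_
      rw [hp, ← UC_neg h6 h]
      exact (pr_add h4 h.sg p _).1

theorem mtB (h4 : LawS) (h6 : CuAS) (h7 : CuBS) (h : IsAJ n τ t w) (j : ℕ) {s : ℂ}
    (hs : (s ^ 2).im ≠ 0) : Mt n τ t w ![1, 1 - s ^ 2] (UB n t w j s) := by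
  rcases (re_ne hs).lt_or_gt with hr | hr
  · obtain ⟨x₀, e0, hx₀⟩ := keyB h6 h (s := -s) (by rwa [neg_sq]) (by simpa using hr)
    obtain ⟨p, hp⟩ := hx₀ j
    rw [neg_neg] at hp
    have e1 : (ze (2 * n) ^ j * x₀) ^ (2 * n) = 1 - s ^ 2 := by
      rw [mul_pow, ze_pow h.npos, one_mul, e0, neg_sq]
    refine (mtA h4 h6 h7 h (x := ze (2 * n) ^ j * x₀) (by rw [e1]; simpa using hs)).of (a := 1)
      (by rw [one_smul, e1]) ?_
    rw [hp]
    exact (pr_add h4 h.sg p _).2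
  · obtain ⟨x₀, e0, hx₀⟩ := keyB h6 h hs hr
    obtain ⟨p, hp⟩ := hx₀ j
    have e1 : (-(ze (2 * n) ^ j * x₀)) ^ (2 * n) = 1 - s ^ 2 := by
      rw [neg_pow_N, mul_pow, ze_pow h.npos, one_mul, e0]
    refine (mtA h4 h6 h7 h (x := -(ze (2 * n) ^ j * x₀)) (by rw [e1]; simpa using hs)).of (a := 1)
      (by rw [one_smul, e1]) ?_
    have e2 : UB n t w j s = UA n t w (-(ze (2 * n) ^ j * x₀)) + per τ (cst p) := by
      rw [UA_neg h6 h, hp, UB_neg h6]
      abel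
    rw [e2]
    exact (pr_add h4 h.sg p _).1

theorem mtC (h4 : LawS) (h6 : CuAS) (h7 : CuBS) (h : IsAJ n τ t w) {s : ℂ}
    (hs : (s ^ (2 * n)).im ≠ 0) : Mt n τ t w ![s ^ (2 * n), 1] (UC n t w s) := by
  have hN : 0 < 2 * n := by have := h.npos; omega
  have hs0 := ne_of_im hN hs
  have hx : (s⁻¹ ^ (2 * n)).im ≠ 0 := by
    rw [inv_pow, Complex.inv_im]
    exact div_ne_zero (neg_ne_zero.2 hs) (Complex.normSq_pos.2 (pow_ne_zero _ hs0)).ne'
  have e : ∀ y : ℂ, y ^ (2 * n) = s⁻¹ ^ (2 * n) →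
      (![s ^ (2 * n), 1] : Fin 2 → ℂ) = s ^ (2 * n) • ![1, y ^ (2 * n)] := by
    intro y hy
    rw [hy, inv_pow]
    funext i
    fin_cases i
    · simp
    · simp [pow_ne_zero _ hs0]
  obtain ⟨p, hp | hp⟩ := keyC h7 h hx
  · rw [inv_inv] at hp
    refine (mtA h4 h6 h7 h hx).of (e _ rfl) ?_
    rw [hp]
    exact (pr_add h4 h.sg p _).2
  · rw [inv_inv] at hp
    refine (mtA h4 h6 h7 h (x := -s⁻¹) (by rwa [neg_pow_N])).of (e _ (neg_pow_N n _)) ?_
    have e2 : UC n t w s = UA n t w (-s⁻¹) + per τ (cst p) := by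
      rw [UA_neg h6 h, hp]
      abel
    rw [e2]
    exact (pr_add h4 h.sg p _).1

theorem Kc_cpt (n : ℕ) (i : Ch n) : IsCompact (Kc n i) := by
  rcases i with _ | _ | j
  · refine Metric.isCompact_of_isClosed_isBounded ?_
      ((Metric.isBounded_closedBall (x := (0 : ℂ)) (r := 2)).subset fun x hx => ?_)
    · exact (isClosed_le continuous_norm continuous_const).inter
        (isClosed_le (Complex.continuous_re.comp (continuous_pow _)) continuous_const)
    · exact mem_closedBall_zero_iff.2 hx.1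
  · refine Metric.isCompact_of_isClosed_isBounded (isClosed_le continuous_norm continuous_const)
      ((Metric.isBounded_closedBall (x := (0 : ℂ)) (r := 1 / 2)).subset fun x hx => ?_)
    exact mem_closedBall_zero_iff.2 hx
  · have hc : Continuous fun s : ℂ => 1 - s ^ 2 := continuous_const.sub (continuous_pow _)
    refine Metric.isCompact_of_isClosed_isBounded ?_
      ((Metric.isBounded_closedBall (x := (0 : ℂ)) (r := 2 + 2 ^ (2 * n))).subset fun s hs => ?_)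
    · exact (isClosed_le hc.norm continuous_const).inter
        (isClosed_le continuous_const (Complex.continuous_re.comp hc))
    · have h1 : ‖1 - s ^ 2‖ ≤ 2 ^ (2 * n) := hs.1
      have h2 := norm_sub_norm_le (s ^ 2) 1
      rw [norm_sub_rev, norm_pow, norm_one] at h2
      refine mem_closedBall_zero_iff.2 ?_
      nlinarith [sq_nonneg (‖s‖ - 1), norm_nonneg s]

theorem mem_St {N : ℕ} (hN : 0 < N) {x : ℂ} (hx : ‖x‖ ≤ 1 / 2) : x ∈ St N := by
  refine Or.inl ?_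
  have h1 : ‖x ^ N‖ < 1 := by
    rw [norm_pow]
    exact pow_lt_one₀ (norm_nonneg _) (by linarith) hN.ne'
  have h2 := Complex.re_le_norm (x ^ N)
  rw [Complex.sub_re, Complex.one_re]
  linarith

theorem Kc_sub (hn : 0 < n) (i : Ch n) : Kc n i ⊆ Om n i := by
  rcases i with _ | _ | j
  · intro x hx
    refine Or.inl ?_
    have h1 : (x ^ (2 * n)).re ≤ 1 / 2 := hx.2
    rw [Complex.sub_re, Complex.one_re]
    linarith
  · exact fun x hx => mem_St (by omega) hx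
  · intro s hs
    have h1 : (1 / 2 : ℝ) ≤ (1 - s ^ 2 : ℂ).re := hs.2
    exact Or.inl (by linarith)

theorem Xb_diff (n : ℕ) (i : Ch n) : Differentiable ℂ (Xb n i) := by
  rcases i with _ | _ | j
  all_goals
    refine differentiable_pi.2 fun k => ?_
    fin_cases k
    all_goals
      simp only [Xb, Fin.zero_eta, Fin.mk_one, Matrix.cons_val_zero, Matrix.cons_val_one]
      fun_prop

theorem Xb_ne (n : ℕ) (i : Ch n) (x : ℂ) : Xb n i x ≠ 0 := by
  rcases i with _ | _ | j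
  · exact fun h => one_ne_zero (congrFun h 0)
  · exact fun h => one_ne_zero (congrFun h 1)
  · exact fun h => one_ne_zero (congrFun h 0)

theorem Uu_diff (h6 : CuAS) (h : IsAJ n τ t w) (i : Ch n) (x : ℂ) (hx : x ∈ Om n i) :
    DifferentiableAt ℂ (Uu n t w i) x := by
  rcases i with _ | _ | j
  · exact DifferentiableAt.fun_sum fun k _ =>
      (h6.hol _ _ (h.odd k).pos x hx).differentiableAt.smul_const _
  · exact DifferentiableAt.fun_sum fun k _ =>
      ((h6.hol _ _ (Nat.sub_pos_of_lt (h.lt k)) x hx).differentiableAt.const_mul _).smul_const _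
  · exact DifferentiableAt.fun_sum fun k _ =>
      ((h6.holJ _ _ x hx).differentiableAt.const_mul _).smul_const _

theorem charts (h4 : LawS) (h5 : GeoS) (h6 : CuAS) (h7 : CuBS) (h : IsAJ n τ t w) :
    Charts (fun i => {p : Unit → ℂ | p () ∈ Om n i}) (fun i => {p : Unit → ℂ | p () ∈ Kc n i})
      (fun i p => Xb n i (p ())) (fun i p => th τ (Uu n t w i (p ()))) := by
  have hN : 0 < 2 * n := by have := h.npos; omega
  refine charts_lift (Om n) (Kc n) (Gn n) (Xb n) (fun i x => th τ (Uu n t w i x)) ?_ (Kc_cpt n)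
    (Kc_sub h.npos) (Xb_diff n)
    (fun i x hx => ((h4.holu g τ h.sg).1 _).comp x (Uu_diff h6 h i x hx)) (Xb_ne n)
    (fun i x => h5.nz g τ h.sg _) ?_ ?_
  · rintro (_ | _ | j) <;> exact h6.op _
  · rintro (_ | _ | j)
    · exact dense_gen hN
    · exact dense_gen hN
    · exact dense_gen two_pos
  · rintro (_ | _ | j) x hx
    · exact mtA h4 h6 h7 h hx
    · exact mtC h4 h6 h7 h hx
    · exact mtB h4 h6 h7 h j hx

theorem imm {N : ℕ} (hN : 0 < N) (v : Unit → ℂ) (c : ℂ)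
    (h : fderiv ℂ (fun p : Unit → ℂ => (![1, p () ^ N] : Fin 2 → ℂ)) (fun _ => 1 / 2) v =
      c • ![1, (1 / 2 : ℂ) ^ N]) : v = 0 := by
  have d1 : HasFDerivAt (fun p : Unit → ℂ => p () ^ N)
      ((N • (1 / 2 : ℂ) ^ (N - 1)) • ContinuousLinearMap.proj (R := ℂ) (φ := fun _ : Unit => ℂ) ())
      (fun _ => 1 / 2) :=
    (hasFDerivAt_apply (𝕜 := ℂ) () (fun _ : Unit => (1 / 2 : ℂ))).pow N
  have d2 : HasFDerivAt (fun p : Unit → ℂ => (![1, p () ^ N] : Fin 2 → ℂ))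
      (ContinuousLinearMap.pi ![0, (N • (1 / 2 : ℂ) ^ (N - 1)) •
        ContinuousLinearMap.proj (R := ℂ) (φ := fun _ : Unit => ℂ) ()]) (fun _ => 1 / 2) := by
    refine hasFDerivAt_pi.2 fun k => ?_
    fin_cases k
    · exact hasFDerivAt_const (1 : ℂ) _
    · exact d1
  rw [d2.fderiv] at h
  have h0 := congrFun h 0
  have h1 := congrFun h 1
  simp at h0 h1
  funext k
  rw [← h0] at h1
  simpa [hN.ne'] using h1

end CuRelAux

open CuRelAux in
theorem cuRel (h2 : RelS) (h4 : LawS) (h5 : GeoS) (h6 : CuAS) (h7 : CuBS) : CuRelS := by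
  intro g ι _ n τ t w h a ha
  have hN : 0 < 2 * n := by have := h.npos; omega
  have hc : IsPreconnected {p : Unit → ℂ | p () ∈ Om n none} := by
    have e : {p : Unit → ℂ | p () ∈ Om n none} = (fun x _ => x) '' St (2 * n) := by
      ext p
      exact ⟨fun h => ⟨p (), h, rfl⟩, fun ⟨x, hx, e⟩ => e ▸ hx⟩
    rw [e]
    exact (h6.conn _ hN).image _ (continuous_pi fun _ => continuous_id).continuousOn
  obtain ⟨Q, k, l, h1, h2, p, hp, h3⟩ := h2 Unit (Ch n) (Fin 2) (Ix g) _ _ _ _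
    (charts h4 h5 h6 h7 h) none a hc
    ⟨fun _ => 1 / 2, mem_St hN (by norm_num), Xb_ne n none _, imm hN⟩
    ⟨fun _ => 0, mem_St hN (by norm_num), by
      have e : Uu n t w none 0 = 0 :=
        Finset.sum_eq_zero fun i _ => by rw [(h6.zero _ _ (h.odd i).pos).1, zero_smul]
      show th τ (Uu n t w none 0) (a 0) ≠ 0
      rwa [e]⟩
  exact ⟨Q, k, l, h1, fun x hx => h2 (fun _ => x) hx, p (), hp, h3⟩

end Pool.Agent.Lib.MP_caab05_ag.GB
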