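import Mathlib
import Pool.Agent.Lib.MP_caab05_ag.GB.Stmt3
import Pool.Agent.Lib.MP_caab05_ag.GB.CuRel

/-! An algebraic relation along the Abel-Jacobi map of the curve `y ^ 2 = 1 - x ^ N`, any parity. -/

namespace Pool.Agent.Lib.MP_caab05_ag.GB

open Complex

namespace CuRel2Aux

open CuRelAux (UA UB UC Pr pr_add neg_pow_N II_neg UB_neg ze_prim ze_pow re_ne ne_of_im mem_St
  dense_gen charts_lift imm)

variable {g : ℕ} {ι : Type} [Fintype ι] {n : ℕ} {τ : Mat g} {t : ι → ℕ} {w : ι → V g}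

theorem UA_neg (h6 : CuAS) (h : IsAJ2 n τ t w) (x : ℂ) : UA n t w (-x) = -UA n t w x := by
  unfold UA
  rw [← Finset.sum_neg_distrib]
  exact Finset.sum_congr rfl fun i _ => by rw [II_neg h6 n (h.odd i), neg_smul]

/-- the passage to the branch points -/
theorem keyB (h6 : CuAS) (h : IsAJ2 n τ t w) {s : ℂ} (hs : (s ^ 2).im ≠ 0) (hr : 0 < s.re) :
    ∃ x₀ : ℂ, x₀ ^ (2 * n) = 1 - s ^ 2 ∧ ∀ j : ℕ, ∃ p,
      UA n t w (ze (2 * n) ^ j * x₀) = UB n t w j (-s) + per τ (cst p) := by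
  have hN : 0 < 2 * n := by have := h.npos; omega
  have hs' : s ∈ St 2 := Or.inr (by simpa using hs)
  refine ⟨(1 - s ^ 2) ^ (1 / (2 * n : ℕ) : ℂ), (h6.branch (2 * n) 1 hN one_pos s hs' hr).2.1,
    fun j => ?_⟩
  obtain ⟨p, hp⟩ := h.lat₁ j
  refine ⟨p, ?_⟩
  rw [← hp]
  unfold UA UB
  rw [← Finset.sum_add_distrib]
  refine Finset.sum_congr rfl fun i _ => ?_
  rw [h6.rot _ _ _ _ (ze_pow h.npos j), (h6.branch (2 * n) (t i) hN (h.odd i).pos s hs' hr).2.2,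
    h6.oddJ, ← add_smul, ← pow_mul]
  congr 1
  ring

/-- the passage to infinity -/
theorem keyC (h7 : CuBS) (h : IsAJ2 n τ t w) {x : ℂ} (hx : (x ^ (2 * n)).im ≠ 0) :
    ∃ p, UA n t w x = UC n t w x⁻¹ + per τ (cst p) ∨
      UA n t w x = -UC n t w x⁻¹ + per τ (cst p) := by
  obtain ⟨j, ε, hε, he⟩ := h7 n h.npos x hx
  obtain ⟨p, hp⟩ := h.lat₂ j
  refine ⟨p, ?_⟩
  have h1 : ε = I ∨ ε = -I := sq_eq_sq_iff_eq_or_eq_neg.1 (by rw [hε, Complex.I_sq])
  rw [← hp]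
  unfold UA UC
  rcases h1 with rfl | rfl
  · left
    rw [← Finset.sum_add_distrib]
    refine Finset.sum_congr rfl fun i _ => ?_
    rw [he (t i) (h.odd i).pos (h.lt i), ← add_smul, add_comm]
  · right
    rw [← Finset.sum_neg_distrib, ← Finset.sum_add_distrib]
    refine Finset.sum_congr rfl fun i _ => ?_
    rw [he (t i) (h.odd i).pos (h.lt i), ← neg_smul, ← add_smul, add_comm, neg_mul]

/-- index set of the charts: the old charts and a second chart at infinity -/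
abbrev Ch (n : ℕ) : Type := Option (CuRelAux.Ch n)

/-- the old chart with the same base data -/
def old (n : ℕ) : Ch n → CuRelAux.Ch n
  | none => some none
  | some j => j

def Om (n : ℕ) (i : Ch n) : Set ℂ := CuRelAux.Om n (old n i)

def Kc (n : ℕ) (i : Ch n) : Set ℂ := CuRelAux.Kc n (old n i)

def Gn (n : ℕ) (i : Ch n) : Set ℂ := CuRelAux.Gn n (old n i)

noncomputable def Xb (n : ℕ) (i : Ch n) : ℂ → Fin 2 → ℂ := CuRelAux.Xb n (old n i)

noncomputable def Uu (n : ℕ) (t : ι → ℕ) (w : ι → V g) : Ch n → ℂ → V g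
  | none => fun s => -UC n t w s
  | some j => CuRelAux.Uu n t w j

/-- matched with a point of one of the compact sets -/
def Mt (n : ℕ) (τ : Mat g) (t : ι → ℕ) (w : ι → V g) (v : Fin 2 → ℂ) (u : V g) : Prop :=
  ∃ j, ∃ x' ∈ Kc n j, ∃ a b : ℂ, v = a • Xb n j x' ∧ th τ u = b • th τ (Uu n t w j x')

theorem Mt.of {v v' : Fin 2 → ℂ} {u u' : V g} (h : Mt n τ t w v' u') {a : ℂ} (hv : v = a • v')
    (hu : Pr τ u u') : Mt n τ t w v u := by
  obtain ⟨j, x', hx', a', b', e1, e2⟩ := h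
  obtain ⟨b, e3⟩ := hu
  exact ⟨j, x', hx', a * a', b * b', by rw [hv, e1, smul_smul], by rw [e3, e2, smul_smul]⟩

theorem Mt.self (j : Ch n) {x : ℂ} (hx : x ∈ Kc n j) : Mt n τ t w (Xb n j x) (Uu n t w j x) :=
  ⟨j, x, hx, 1, 1, (one_smul _ _).symm, (one_smul _ _).symm⟩

theorem mtA (h4 : LawS) (h6 : CuAS) (h7 : CuBS) (h : IsAJ2 n τ t w) {x : ℂ}
    (hx : (x ^ (2 * n)).im ≠ 0) : Mt n τ t w ![1, x ^ (2 * n)] (UA n t w x) := by
  have hN : 0 < 2 * n := by have := h.npos; omega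
  have : NeZero (2 * n) := ⟨hN.ne'⟩
  have hx0 := ne_of_im hN hx
  rcases le_total ‖x‖ 2 with h1 | h1
  · rcases le_total (x ^ (2 * n)).re (1 / 2) with h2 | h2
    · exact Mt.self (some none) ⟨h1, h2⟩
    · obtain ⟨s, hs, hr⟩ : ∃ s : ℂ, s ^ 2 = 1 - x ^ (2 * n) ∧ 0 < s.re := by
        obtain ⟨s, hs⟩ := IsAlgClosed.exists_pow_nat_eq (1 - x ^ (2 * n)) two_pos
        have h3 : s.re ≠ 0 := re_ne (by rw [hs]; simpa using hx)
        rcases h3.lt_or_gt with h3 | h3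
        · exact ⟨-s, by rw [neg_sq, hs], by simpa using h3⟩
        · exact ⟨s, hs, h3⟩
      obtain ⟨x₀, e0, hx₀⟩ := keyB h6 h (s := s) (by rw [hs]; simpa using hx) hr
      rw [hs, sub_sub_cancel] at e0
      have h0 : x₀ ≠ 0 := ne_of_im hN (by rw [e0]; exact hx)
      obtain ⟨j, hj, ej⟩ := (ze_prim h.npos).eq_pow_of_pow_eq_one (ξ := x / x₀)
        (by rw [div_pow, e0, div_self (pow_ne_zero _ hx0)])
      obtain ⟨p, hp⟩ := hx₀ j
      rw [ej, div_mul_cancel₀ _ h0] at hp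
      have e1 : 1 - (-s) ^ 2 = x ^ (2 * n) := by rw [neg_sq, hs, sub_sub_cancel]
      have hk : -s ∈ Kc n (some (some (some ⟨j, hj⟩))) := by
        refine ⟨?_, ?_⟩
        · rw [e1, norm_pow]
          exact pow_le_pow_left₀ (norm_nonneg _) h1 _
        · rw [e1]
          exact h2
      refine (Mt.self (τ := τ) (t := t) (w := w) _ hk).of (a := 1) ?_ ?_
      · rw [one_smul, ← e1]
        rfl
      · rw [hp]
        exact (pr_add h4 h.sg p _).1
  · have hk : ‖x⁻¹‖ ≤ 1 / 2 := by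
      rw [norm_inv, one_div]
      exact inv_anti₀ two_pos h1
    have e : (![1, x ^ (2 * n)] : Fin 2 → ℂ) = x ^ (2 * n) • ![x⁻¹ ^ (2 * n), 1] := by
      rw [inv_pow]
      funext i
      fin_cases i
      · simp [pow_ne_zero _ hx0]
      · simp
    obtain ⟨p, hp | hp⟩ := keyC h7 h hx
    · refine (Mt.self (τ := τ) (t := t) (w := w) (some (some none)) (x := x⁻¹) hk).of e ?_
      rw [hp]
      exact (pr_add h4 h.sg p _).1
    · refine (Mt.self (τ := τ) (t := t) (w := w) none (x := x⁻¹) hk).of e ?_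
      rw [hp]
      exact (pr_add h4 h.sg p _).1

theorem mtB (h4 : LawS) (h6 : CuAS) (h7 : CuBS) (h : IsAJ2 n τ t w) (j : ℕ) {s : ℂ}
    (hs : (s ^ 2).im ≠ 0) : Mt n τ t w ![1, 1 - s ^ 2] (UB n t w j s) := by
  rcases (re_ne hs).lt_or_gt with hr | hr
  · obtain ⟨x₀, e0, hx₀⟩ := keyB h6 h (s := -s) (by rwa [neg_sq]) (by simpa using hr)
    obtain ⟨p, hp⟩ := hx₀ j
    rw [neg_neg] at hp
    have e1 : (ze (2 * n) ^ j * x₀) ^ (2 * n) = 1 - s ^ 2 := by
      rw [mul_pow, ze_pow h.npos, one_mul, e0, neg_sq]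
    refine (mtA h4 h6 h7 h (x := ze (2 * n) ^ j * x₀) (by rw [e1]; simpa using hs)).of (a := 1)
      (by rw [one_smul, e1]) ?_
    rw [hp]
    exact (pr_add h4 h.sg p _).2
  · obtain ⟨x₀, e0, hx₀⟩ := keyB h6 h hs hr
    obtain ⟨p, hp⟩ := hx₀ j
    have e1 : (-(ze (2 * n) ^ j * x₀)) ^ (2 * n) = 1 - s ^ 2 := by
      rw [neg_pow_N, mul_pow, ze_pow h.npos, one_mul, e0]
    refine (mtA h4 h6 h7 h (x := -(ze (2 * n) ^ j * x₀)) (by rw [e1]; simpa using hs)).of (a := 1)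
      (by rw [one_smul, e1]) ?_
    have e2 : UB n t w j s = UA n t w (-(ze (2 * n) ^ j * x₀)) + per τ (cst p) := by
      rw [UA_neg h6 h, hp, UB_neg h6]
      abel
    rw [e2]
    exact (pr_add h4 h.sg p _).1

theorem mtC (h4 : LawS) (h6 : CuAS) (h7 : CuBS) (h : IsAJ2 n τ t w) {s : ℂ}
    (hs : (s ^ (2 * n)).im ≠ 0) : Mt n τ t w ![s ^ (2 * n), 1] (UC n t w s) ∧
      Mt n τ t w ![s ^ (2 * n), 1] (-UC n t w s) := by
  have hN : 0 < 2 * n := by have := h.npos; omega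
  have hs0 := ne_of_im hN hs
  have hx : (s⁻¹ ^ (2 * n)).im ≠ 0 := by
    rw [inv_pow, Complex.inv_im]
    exact div_ne_zero (neg_ne_zero.2 hs) (Complex.normSq_pos.2 (pow_ne_zero _ hs0)).ne'
  have e : ∀ y : ℂ, y ^ (2 * n) = s⁻¹ ^ (2 * n) →
      (![s ^ (2 * n), 1] : Fin 2 → ℂ) = s ^ (2 * n) • ![1, y ^ (2 * n)] := by
    intro y hy
    rw [hy, inv_pow]
    funext i
    fin_cases i
    · simp
    · simp [pow_ne_zero _ hs0]
  have m1 : ∀ (u : V g) (p : Zg g), UA n t w s⁻¹ = u + per τ (cst p) →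
      Mt n τ t w ![s ^ (2 * n), 1] u := by
    intro u p hp
    refine (mtA h4 h6 h7 h hx).of (e _ rfl) ?_
    rw [hp]
    exact (pr_add h4 h.sg p _).2
  have m2 : ∀ (u : V g) (p : Zg g), UA n t w s⁻¹ = -u + per τ (cst p) →
      Mt n τ t w ![s ^ (2 * n), 1] u := by
    intro u p hp
    refine (mtA h4 h6 h7 h (x := -s⁻¹) (by rwa [neg_pow_N])).of (e _ (neg_pow_N n _)) ?_
    have e2 : u = UA n t w (-s⁻¹) + per τ (cst p) := by
      rw [UA_neg h6 h, hp]
      abel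
    rw [e2]
    exact (pr_add h4 h.sg p _).1
  obtain ⟨p, hp | hp⟩ := keyC h7 h hx
  · rw [inv_inv] at hp
    exact ⟨m1 _ p hp, m2 _ p (by rw [neg_neg]; exact hp)⟩
  · rw [inv_inv] at hp
    exact ⟨m2 _ p hp, m1 _ p hp⟩

theorem Uu_diff (h6 : CuAS) (h : IsAJ2 n τ t w) (i : Ch n) (x : ℂ) (hx : x ∈ Om n i) :
    DifferentiableAt ℂ (Uu n t w i) x := by
  have hC : ∀ x ∈ St (2 * n), DifferentiableAt ℂ (UC n t w) x := fun x hx =>
    DifferentiableAt.fun_sum fun k _ =>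
      ((h6.hol _ _ (Nat.sub_pos_of_lt (h.lt k)) x hx).differentiableAt.const_mul _).smul_const _
  rcases i with _ | _ | _ | j
  · exact (hC x hx).fun_neg
  · exact DifferentiableAt.fun_sum fun k _ =>
      (h6.hol _ _ (h.odd k).pos x hx).differentiableAt.smul_const _
  · exact hC x hx
  · exact DifferentiableAt.fun_sum fun k _ =>
      ((h6.holJ _ _ x hx).differentiableAt.const_mul _).smul_const _

theorem charts (h4 : LawS) (h5 : GeoS) (h6 : CuAS) (h7 : CuBS) (h : IsAJ2 n τ t w) :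
    Charts (fun i => {p : Unit → ℂ | p () ∈ Om n i}) (fun i => {p : Unit → ℂ | p () ∈ Kc n i})
      (fun i p => Xb n i (p ())) (fun i p => th τ (Uu n t w i (p ()))) := by
  have hN : 0 < 2 * n := by have := h.npos; omega
  refine charts_lift (Om n) (Kc n) (Gn n) (Xb n) (fun i x => th τ (Uu n t w i x)) ?_
    (fun i => CuRelAux.Kc_cpt n _) (fun i => CuRelAux.Kc_sub h.npos _)
    (fun i => CuRelAux.Xb_diff n _)
    (fun i x hx => ((h4.holu g τ h.sg).1 _).comp x (Uu_diff h6 h i x hx))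
    (fun i => CuRelAux.Xb_ne n _) (fun i x => h5.nz g τ h.sg _) ?_ ?_
  · rintro (_ | _ | _ | j) <;> exact h6.op _
  · rintro (_ | _ | _ | j)
    · exact dense_gen hN
    · exact dense_gen hN
    · exact dense_gen hN
    · exact dense_gen two_pos
  · rintro (_ | _ | _ | j) x hx
    · exact (mtC h4 h6 h7 h hx).2
    · exact mtA h4 h6 h7 h hx
    · exact (mtC h4 h6 h7 h hx).1
    · exact mtB h4 h6 h7 h j hx

end CuRel2Aux

open CuRel2Aux in
theorem cuRel2 (h2 : RelS) (h4 : LawS) (h5 : GeoS) (h6 : CuAS) (h7 : CuBS) : CuRel2S := by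
  intro g ι _ n τ t w h a ha
  have hN : 0 < 2 * n := by have := h.npos; omega
  have hc : IsPreconnected {p : Unit → ℂ | p () ∈ Om n (some none)} := by
    have e : {p : Unit → ℂ | p () ∈ Om n (some none)} = (fun x _ => x) '' St (2 * n) := by
      ext p
      exact ⟨fun h => ⟨p (), h, rfl⟩, fun ⟨x, hx, e⟩ => e ▸ hx⟩
    rw [e]
    exact (h6.conn _ hN).image _ (continuous_pi fun _ => continuous_id).continuousOn
  obtain ⟨Q, k, l, h1, h2, p, hp, h3⟩ := h2 Unit (Ch n) (Fin 2) (Ix g) _ _ _ _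
    (charts h4 h5 h6 h7 h) (some none) a hc
    ⟨fun _ => 1 / 2, CuRelAux.mem_St hN (by norm_num), CuRelAux.Xb_ne n none _, CuRelAux.imm hN⟩
    ⟨fun _ => 0, CuRelAux.mem_St hN (by norm_num), by
      have e : Uu n t w (some none) 0 = 0 :=
        Finset.sum_eq_zero fun i _ => by rw [(h6.zero _ _ (h.odd i).pos).1, zero_smul]
      show th τ (Uu n t w (some none) 0) (a 0) ≠ 0
      rwa [e]⟩
  exact ⟨Q, k, l, h1, fun x hx => h2 (fun _ => x) hx, p (), hp, h3⟩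

end Pool.Agent.Lib.MP_caab05_ag.GB
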