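import Mathlib
import Pool.Agent.Lib.MP_caab05_ag.GB.Stmt2

/-! Twisting the relation on the curve at two points. -/

namespace Pool.Agent.Lib.MP_caab05_ag.GB

open MvPolynomial Filter Topology Asymptotics Complex Matrix

namespace CuTwAux

variable {g : ℕ} {ι : Type} [Fintype ι]

noncomputable def uu (f : ι → ℂ → ℂ) (w : ι → V g) (s : ℂ) : V g := ∑ i, f i s • w i

noncomputable def yy (τ : Mat g) (a : Fin 2 → Ix g) (u : V g) : Fin 2 → ℂ := fun b => th τ u (a b)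

noncomputable def dy (τ : Mat g) (a : Fin 2 → Ix g) (u v : V g) : Fin 2 → ℂ :=
  fun b => du τ u v (a b)

noncomputable def pp (τ : Mat g) (a : Fin 2 → Ix g) (β : ℂ) (u : V g) : Fin 2 ⊕ Fin 2 → ℂ :=
  Sum.elim ![1, β] (yy τ a u)

/-- the twisted relation -/
noncomputable def EE (D : Der) (Q : MvPolynomial (Fin 2 ⊕ Fin 2) ℂ) (τ : Mat g)
    (a : Fin 2 → Ix g) (β : ℂ) (u v : V g) : ℂ :=
  eval (pp τ a β u) (cD D Q) + dP Q (pp τ a β u) (Sum.elim 0 (dy τ a u v))

theorem uu_diff {Ω : Set ℂ} {f : ι → ℂ → ℂ} (hf : ∀ i, DifferentiableOn ℂ (f i) Ω)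
    (w : ι → V g) : DifferentiableOn ℂ (uu f w) Ω :=
  DifferentiableOn.fun_sum fun i _ => (hf i).smul_const _

theorem yy_diff (h4 : LawS) {τ : Mat g} (hτ : Sg τ) (a : Fin 2 → Ix g) {Ω : Set ℂ}
    {u : ℂ → V g} (hu : DifferentiableOn ℂ u Ω) (b : Fin 2) :
    DifferentiableOn ℂ (fun s => yy τ a (u s) b) Ω :=
  differentiableOn_pi.1 ((h4.holu g τ hτ).1.comp_differentiableOn hu) (a b)

theorem dy_diff (h4 : LawS) {τ : Mat g} (hτ : Sg τ) (a : Fin 2 → Ix g) {Ω : Set ℂ}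
    {u v : ℂ → V g} (hu : DifferentiableOn ℂ u Ω) (hv : DifferentiableOn ℂ v Ω) (b : Fin 2) :
    DifferentiableOn ℂ (fun s => dy τ a (u s) (v s) b) Ω :=
  differentiableOn_pi.1 ((h4.holu g τ hτ).2.comp_differentiableOn (hu.prodMk hv)) (a b)

theorem ev_diff (h1 : PolS) (h4 : LawS) {τ : Mat g} (hτ : Sg τ) (a : Fin 2 → Ix g) {Ω : Set ℂ}
    {β : ℂ → ℂ} {u : ℂ → V g} (hβ : DifferentiableOn ℂ β Ω) (hu : DifferentiableOn ℂ u Ω)
    (P : MvPolynomial (Fin 2 ⊕ Fin 2) ℂ) :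
    DifferentiableOn ℂ (fun s => eval (pp τ a (β s) (u s)) P) Ω := by
  refine (h1.diff_eval _ P).comp_differentiableOn (f := fun s => pp τ a (β s) (u s))
    (differentiableOn_pi.2 fun i => ?_)
  rcases i with i | i
  · fin_cases i
    · exact differentiableOn_const 1
    · exact hβ
  · exact yy_diff h4 hτ a hu i

theorem EE_diff (h1 : PolS) (h4 : LawS) {τ : Mat g} (hτ : Sg τ) (a : Fin 2 → Ix g) {Ω : Set ℂ}
    {β : ℂ → ℂ} {u v : ℂ → V g} (hβ : DifferentiableOn ℂ β Ω) (hu : DifferentiableOn ℂ u Ω)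
    (hv : DifferentiableOn ℂ v Ω) (D : Der) (Q : MvPolynomial (Fin 2 ⊕ Fin 2) ℂ) :
    DifferentiableOn ℂ (fun s => EE D Q τ a (β s) (u s) (v s)) Ω := by
  refine (ev_diff h1 h4 hτ a hβ hu _).add (DifferentiableOn.fun_sum fun i _ =>
    (ev_diff h1 h4 hτ a hβ hu _).mul ?_)
  rcases i with i | i
  · exact differentiableOn_const 0
  · exact dy_diff h4 hτ a hu hv i

theorem app_uu (M : Mat g) (f : ι → ℂ → ℂ) (w : ι → V g) (s : ℂ) :
    app M (uu f w s) = uu f (fun i => app M (w i)) s := by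
  unfold app uu
  rw [Matrix.mulVec_sum]
  exact Finset.sum_congr rfl fun i _ => Matrix.mulVec_smul _ _ _

theorem uu_add (f : ι → ℂ → ℂ) (w w' : ι → V g) (s : ℂ) :
    uu f w s + uu f w' s = uu f (fun i => w i + w' i) s := by
  unfold uu
  rw [← Finset.sum_add_distrib]
  exact Finset.sum_congr rfl fun i _ => (smul_add _ _ _).symm

theorem dy_add (τ : Mat g) (a : Fin 2 → Ix g) (u v v' : V g) :
    dy τ a u (v + v') = dy τ a u v + dy τ a u v' := by
  funext b
  simp only [dy, du, map_add, Pi.add_apply]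

theorem elim_add (y y' : Fin 2 → ℂ) :
    (Sum.elim 0 (y + y') : Fin 2 ⊕ Fin 2 → ℂ) =
      Sum.elim (0 : Fin 2 → ℂ) y + Sum.elim (0 : Fin 2 → ℂ) y' := by
  funext i
  rcases i with i | i <;> simp

/-- Euler's identity removes multiples of the point -/
theorem dP_euler (h1 : PolS) {Q : MvPolynomial (Fin 2 ⊕ Fin 2) ℂ} {k l : ℕ} (hQ : BiH Q k l)
    {x y : Fin 2 → ℂ} (h : eval (Sum.elim x y) Q = 0) (y' : Fin 2 → ℂ) (μ : ℂ) :
    dP Q (Sum.elim x y) (Sum.elim 0 (y' + μ • y)) = dP Q (Sum.elim x y) (Sum.elim 0 y') := by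
  have e := h1.euler _ _ Q k l hQ 0 μ x y
  rw [zero_smul, h, mul_zero] at e
  rw [elim_add, h1.dP_add, e, add_zero]

theorem tw_pow (h2 : TwS) (D : Der) (m : ℕ) :
    Tw D (fun u : Unit → ℂ => u () ^ m) fun _ => 0 := by
  induction m with
  | zero =>
    refine h2.congr _ D _ _ _ _ (h2.const Unit D 1) (Eventually.of_forall fun u => ?_)
      (Eventually.of_forall fun u => ?_)
    · simp
    · simp
  | succ m ih =>
    refine h2.congr _ D _ _ _ _ (h2.mul _ D _ _ _ _ ih (h2.coord Unit D ()))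
      (Eventually.of_forall fun u => ?_) (Eventually.of_forall fun u => ?_)
    · simp [pow_succ]
    · simp

theorem tw_neg (h2 : TwS) (D : Der) {F : (Unit → ℂ) → ℂ} (h : Tw D F fun _ => 0) :
    Tw D (fun u => -F u) fun _ => 0 := by
  refine h2.congr _ D _ _ _ _ (h2.mul _ D _ _ _ _ (h2.const Unit D (-1)) h)
    (Eventually.of_forall fun u => ?_) (Eventually.of_forall fun u => ?_)
  · simp
  · simp

theorem tw_one_sub (h2 : TwS) (D : Der) :
    Tw D (fun u : Unit → ℂ => 1 - u () ^ 2) fun _ => 0 := by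
  refine h2.congr _ D _ _ _ _ (h2.add _ D _ _ _ _ (h2.const Unit D 1)
    (tw_neg h2 D (tw_pow h2 D 2))) (Eventually.of_forall fun u => ?_)
    (Eventually.of_forall fun u => ?_)
  · simp [sub_eq_add_neg]
  · simp

theorem tw_rat (h2 : TwS) (D : Der) {f : ℂ → ℂ} (hf : AnalyticAt ℂ f 0)
    (hj : ∀ j, ∃ q : ℚ, iteratedDeriv j f 0 = q) :
    Tw D (fun u : Unit → ℂ => f (u ())) fun _ => 0 := by
  refine (h2.jet D f (fun _ => 0) hf analyticAt_const).2 fun j => ?_
  obtain ⟨q, hq⟩ := hj j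
  rw [hq, iteratedDeriv_fun_const_zero]
  exact (D.map_algebraMap q).symm

/-- the twist of a relation along a curve through the origin -/
theorem twist (h0 : OsgS) (h1 : PolS) (h2 : TwS) (h4 : LawS) {τ M N : Mat g} {c : ℂ} {D : Der}
    (hτ : Sg τ) (hT : IsTw D τ M 0 N c) (a : Fin 2 → Ix g)
    {Q : MvPolynomial (Fin 2 ⊕ Fin 2) ℂ} {k l : ℕ} (hQ : BiH Q k l) {Ω : Set ℂ} (op : IsOpen Ω)
    (cn : IsPreconnected Ω) (z : (0 : ℂ) ∈ Ω) {β : ℂ → ℂ} {f : ι → ℂ → ℂ} (w : ι → V g)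
    (hβ : DifferentiableOn ℂ β Ω) (hf : ∀ i, DifferentiableOn ℂ (f i) Ω) (f0 : ∀ i, f i 0 = 0)
    (tβ : Tw D (fun u : Unit → ℂ => β (u ())) fun _ => 0)
    (tf : ∀ i, Tw D (fun u : Unit → ℂ => f i (u ())) fun _ => 0)
    (rel : ∀ s ∈ Ω, eval (pp τ a (β s) (uu f w s)) Q = 0) :
    ∀ s ∈ Ω, EE D Q τ a (β s) (uu f w s)
      (uu f (fun i => app M (w i) + fun k => D (w i k)) s) = 0 := by
  set w' : ι → V g := fun i => app M (w i) + fun k => D (w i k) with hw'
  have hE := EE_diff h1 h4 hτ a hβ (uu_diff hf w) (uu_diff hf w') D Q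
  have hth := (h4.holu g τ hτ).1
  -- the twist of the curve
  have tU : ∀ k, Tw D (fun u : Unit → ℂ => uu f w (u ()) k)
      fun u => uu f (fun i k => D (w i k)) (u ()) k := fun k => by
    refine h2.congr _ D _ _ _ _ (h2.sum Unit ι D _ _ fun i =>
      h2.mul _ D _ _ _ _ (tf i) (h2.const Unit D (w i k)))
      (Eventually.of_forall fun u => ?_) (Eventually.of_forall fun u => ?_)
    · simp [uu, Finset.sum_apply]
    · simp [uu, Finset.sum_apply]
  have U0 : uu f w ((0 : Unit → ℂ) ()) = 0 := by simp [uu, f0]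
  have tY : ∀ b, Tw D (fun u : Unit → ℂ => yy τ a (uu f w (u ())) b) fun u =>
      (dy τ a (uu f w (u ())) (uu f w' (u ())) +
        (uu f w (u ()) ⬝ᵥ app N (uu f w (u ())) + c) • yy τ a (uu f w (u ()))) b := fun b => by
    have an : AnalyticAt ℂ (fun u => th τ u (a b)) 0 :=
      h0 _ _ _ Set.univ isOpen_univ
        (differentiable_pi.1 hth (a b)).differentiableOn 0 (Set.mem_univ _)
    refine h2.congr _ D _ _ _ _ (h2.comp Unit (Fin g) D _ _ (fun u => uu f w (u ()))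
      (fun u => uu f (fun i k => D (w i k)) (u ())) (hT.2 (a b)) an U0 tU)
      (Eventually.of_forall fun u => rfl) (Eventually.of_forall fun u => ?_)
    have e1 : dK τ 0 (uu f w (u ())) = 0 := map_zero _
    have e2 : uu f w' (u ()) =
        app M (uu f w (u ())) + uu f (fun i k => D (w i k)) (u ()) := by
      rw [app_uu, uu_add]
    simp only [fderiv_apply (hth _) (a b), e1, e2, dy_add, Pi.add_apply, Pi.smul_apply,
      Pi.zero_apply, smul_eq_mul, ContinuousLinearMap.comp_apply, ContinuousLinearMap.proj_apply,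
      dy, yy, du]
    ring
  have tP := h2.poly Unit (Fin 2 ⊕ Fin 2) D (fun u => pp τ a (β (u ())) (uu f w (u ())))
    (fun u => Sum.elim 0 (dy τ a (uu f w (u ())) (uu f w' (u ())) +
        (uu f w (u ()) ⬝ᵥ app N (uu f w (u ())) + c) • yy τ a (uu f w (u ())))) Q (by
      rintro (i | i)
      · fin_cases i
        · refine h2.congr _ D _ _ _ _ (h2.const Unit D 1) (Eventually.of_forall fun u => rfl)
            (Eventually.of_forall fun u => ?_)
          simp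
        · exact tβ
      · exact tY i)
  have ev : ∀ᶠ u : Unit → ℂ in 𝓝 0, u () ∈ Ω :=
    (continuous_apply ()).continuousAt.preimage_mem_nhds (op.mem_nhds z)
  have t1 : Tw D (fun _ : Unit → ℂ => (0 : ℂ))
      fun u => EE D Q τ a (β (u ())) (uu f w (u ())) (uu f w' (u ())) := by
    refine h2.congr _ D _ _ _ _ tP (ev.mono fun u hu => rel _ hu) (ev.mono fun u hu => ?_)
    simp only [EE]
    congr 1
    exact dP_euler h1 hQ (rel _ hu) _ _
  have an := hE.analyticOnNhd op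
  have t2 := h2.uniq Unit D _ _ _ t1 (h2.const Unit D 0)
    ((an 0 z).comp_of_eq ((ContinuousLinearMap.proj (R := ℂ) (φ := fun _ : Unit => ℂ)
      ()).analyticAt 0) rfl) analyticAt_const
  have tt : Tendsto (fun (s : ℂ) (_ : Unit) => s) (𝓝 0) (𝓝 0) :=
    (continuous_pi fun _ => continuous_id).tendsto' 0 0 rfl
  refine an.eqOn_zero_of_preconnected_of_eventuallyEq_zero cn z ((tt.eventually t2).mono
    fun s hs => ?_)
  simpa using hs

/-- translation by a period -/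
theorem transl (h4 : LawS) {τ : Mat g} (hτ : Sg τ) (a : Fin 2 → Ix g) (p : Zg g) (u : V g) :
    ∃ e : ℂ, e ≠ 0 ∧ yy τ a (u + per τ (cst p)) = e • yy τ a u ∧
      ∀ v, ∃ μ : ℂ, dy τ a (u + per τ (cst p)) v = e • (dy τ a u v + μ • yy τ a u) := by
  refine ⟨ee τ ((4 : ℤ) • p) u, Complex.exp_ne_zero _, ?_, fun v =>
    ⟨-(2 * Real.pi * I * (lft (cst ((4 : ℤ) • p)) ⬝ᵥ v)), ?_⟩⟩
  · funext b
    rw [yy, ← h4.tor_four, h4.law g τ hτ, h4.hh_four]
    rfl
  · funext b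
    rw [dy, ← h4.tor_four, h4.lawu g τ hτ, h4.hh_four]
    simp only [dy, yy, Pi.smul_apply, Pi.sub_apply, Pi.add_apply, smul_eq_mul]
    ring

theorem dP_last (Q : MvPolynomial (Fin 2 ⊕ Fin 2) ℂ) (x : Fin 2 ⊕ Fin 2 → ℂ) (e : ℂ) :
    dP Q x (Sum.elim 0 (e • ![0, 1])) = eval x (pderiv (Sum.inr 1) Q) * e := by
  simp [dP, Fintype.sum_sum_type, Fin.sum_univ_two]

theorem half_mem : (1 / 2 : ℂ) ∈ St 2 := by
  left
  norm_num [Complex.sub_re, pow_two]

theorem zero_mem {N : ℕ} (h : 0 < N) : (0 : ℂ) ∈ St N := by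
  change 1 - (0 : ℂ) ^ N ∈ slitPlane
  rw [zero_pow h.ne', sub_zero]
  exact one_mem_slitPlane

end CuTwAux

open CuTwAux

theorem cuTw (h0 : OsgS) (h1 : PolS) (h2 : TwS) (h4 : LawS) (h5 : GeoS) (h6 : XHolS) (h7 : CuAS)
    (h8 : CuRelS) : CuTwS := by
  intro g ι _ n τ t w D M N c hA hT
  have hτ := hA.sg
  have hN : 0 < 2 * n := by have := hA.npos; omega
  have ht : ∀ i, 0 < t i := fun i => (hA.odd i).pos
  set w' : ι → V g := fun i => app M (w i) + fun k => D (w i k) with hw'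
  set Wv : V g := ∑ i, (BB (2 * n) (t i) : ℂ) • w' i with hW
  obtain ⟨a₀, ha₀⟩ := Function.ne_iff.1 (h5.nz g τ hτ 0)
  refine h6.neom' g τ Wv a₀ hτ ha₀ fun a₁ => ?_
  set a : Fin 2 → Ix g := ![a₀, a₁] with ha
  obtain ⟨Q, k, l, hQ, relA, x₀, hx₀, hne⟩ := h8 g ι n τ t w hA a ha₀
  obtain ⟨p, hp⟩ := hA.lat₁ 0
  simp only [zero_mul, pow_zero, one_mul] at hp
  set fA : ι → ℂ → ℂ := fun i => II (2 * n) (t i) with hfA
  set fB : ι → ℂ → ℂ := fun i s => -JI (2 * n) (t i) s with hfB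
  have dA : ∀ i, DifferentiableOn ℂ (fA i) (St (2 * n)) := fun i x hx =>
    (h7.hol _ _ (ht i) x hx).differentiableAt.differentiableWithinAt
  have dJ : ∀ i, DifferentiableOn ℂ (JI (2 * n) (t i)) (St 2) := fun i x hx =>
    (h7.holJ _ _ x hx).differentiableAt.differentiableWithinAt
  have dB : ∀ i, DifferentiableOn ℂ (fB i) (St 2) := fun i => (dJ i).neg
  have bA : DifferentiableOn ℂ (fun x : ℂ => x ^ (2 * n)) (St (2 * n)) := by fun_prop
  have bB : DifferentiableOn ℂ (fun s : ℂ => 1 - s ^ 2) (St 2) := by fun_prop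
  have relA' : ∀ x ∈ St (2 * n), eval (pp τ a (x ^ (2 * n)) (uu fA w x)) Q = 0 := relA
  have EA := twist h0 h1 h2 h4 hτ hT a hQ (h7.op _) (h7.conn _ hN) (zero_mem hN) w bA dA
    (fun i => (h7.zero _ _ (ht i)).1) (tw_pow h2 D _)
    (fun i => tw_rat h2 D ((dA i).analyticAt ((h7.op _).mem_nhds (zero_mem hN)))
      (h7.jet _ _ hN (ht i))) relA'
  -- the change of the local parameter
  set xs : ℂ → ℂ := fun s => (1 - s ^ 2) ^ (1 / ((2 * n : ℕ) : ℂ)) with hxs
  have br : ∀ s ∈ St 2, 0 < s.re → xs s ∈ St (2 * n) ∧ xs s ^ (2 * n) = 1 - s ^ 2 ∧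
      ∀ v : ι → V g, uu fA v (xs s) = uu fB v s + ∑ i, (BB (2 * n) (t i) : ℂ) • v i :=
    fun s hs hr => ⟨(h7.branch _ 1 hN one_pos s hs hr).1, (h7.branch _ 1 hN one_pos s hs hr).2.1,
      fun v => by
        unfold uu
        rw [← Finset.sum_add_distrib]
        refine Finset.sum_congr rfl fun i _ => ?_
        rw [← add_smul]
        congr 1
        exact (h7.branch _ _ hN (ht i) s hs hr).2.2.trans (by simp only [hfB]; ring)⟩
  have nb : ∀ᶠ s in 𝓝 (1 / 2 : ℂ), s ∈ St 2 ∧ 0 < s.re :=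
    Eventually.and ((h7.op 2).mem_nhds half_mem)
      ((isOpen_lt continuous_const Complex.continuous_re).mem_nhds (by norm_num))
  have scal : ∀ s ∈ St 2, 0 < s.re → ∃ e : ℂ, e ≠ 0 ∧
      pp τ a (xs s ^ (2 * n)) (uu fA w (xs s)) =
        Sum.elim ((1 : ℂ) • ![1, 1 - s ^ 2]) (e • yy τ a (uu fB w s)) ∧
      ∀ v, ∃ μ : ℂ, dy τ a (uu fA w (xs s)) v =
        e • (dy τ a (uu fB w s) v + μ • yy τ a (uu fB w s)) := fun s hs hr => by
    obtain ⟨-, b2, b3⟩ := br s hs hr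
    obtain ⟨e, e0, e1, e2⟩ := transl h4 hτ a p (uu fB w s)
    rw [b2, b3, hp]
    exact ⟨e, e0, by rw [pp, e1, one_smul], e2⟩
  have relB : ∀ s ∈ St 2, eval (pp τ a (1 - s ^ 2) (uu fB w s)) Q = 0 := by
    refine ((ev_diff h1 h4 hτ a bB (uu_diff dB w) Q).analyticOnNhd
      (h7.op 2)).eqOn_zero_of_preconnected_of_eventuallyEq_zero (h7.conn 2 two_pos) half_mem
      (nb.mono fun s hs => ?_)
    obtain ⟨e, e0, e1, -⟩ := scal s hs.1 hs.2
    have k1 := relA' _ (br s hs.1 hs.2).1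
    rw [e1, h1.bih_eval _ _ Q k l hQ, one_pow, one_mul] at k1
    exact (mul_eq_zero.1 k1).resolve_left (pow_ne_zero _ e0)
  have EB := twist h0 h1 h2 h4 hτ hT a hQ (h7.op _) (h7.conn _ two_pos) (zero_mem two_pos) w bB dB
    (fun i => by simp only [hfB, (h7.zero _ _ (ht i)).2, neg_zero]) (tw_one_sub h2 D)
    (fun i => tw_neg h2 D (tw_rat h2 D
      ((dJ i).analyticAt ((h7.op _).mem_nhds (zero_mem two_pos))) (h7.jetJ _ _ hN))) relB
  set P : ℂ → ℂ := fun s => eval (pp τ a (1 - s ^ 2) (uu fB w s)) (pderiv (Sum.inr 1) Q) with hP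
  set Wr : ℂ → ℂ := fun s => yy τ a (uu fB w s) 0 * dy τ a (uu fB w s) Wv 1 -
    yy τ a (uu fB w s) 1 * dy τ a (uu fB w s) Wv 0 with hWr
  have prod : ∀ s ∈ St 2, 0 < s.re → P s * Wr s = 0 := fun s hs hr => by
    obtain ⟨e, e0, e1, e2⟩ := scal s hs hr
    obtain ⟨b1, -, b3⟩ := br s hs hr
    obtain ⟨μ, e3⟩ := e2 (uu fA w' (xs s))
    have k1 := EA _ b1
    have k2 := EB s hs
    have k3 := h1.bih_dP _ _ Q k l hQ 1 e ![1, 1 - s ^ 2] 0 (yy τ a (uu fB w s))
      (dy τ a (uu fB w s) (uu fA w' (xs s)) + μ • yy τ a (uu fB w s))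
    rw [smul_zero, dP_euler h1 hQ (relB s hs), b3, dy_add, elim_add, h1.dP_add] at k3
    rw [EE, e1, e3, b3, dy_add, k3, h1.bih_eval _ _ _ k l (h1.bih_cD _ _ D Q k l hQ), ← mul_add, one_pow,
      one_mul, ← add_assoc] at k1
    have k4 := (mul_eq_zero.1 k1).resolve_left (pow_ne_zero _ e0)
    rw [EE, pp] at k2
    rw [k2, zero_add] at k4
    exact h1.wronski _ Q k l hQ _ _ _ (relB s hs) k4
  have aP := (ev_diff h1 h4 hτ a bB (uu_diff dB w) (pderiv (Sum.inr 1) Q)).analyticOnNhd (h7.op 2)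
  have cW : DifferentiableOn ℂ (fun _ : ℂ => Wv) (St 2) := differentiableOn_const _
  have aW : AnalyticOnNhd ℂ Wr (St 2) :=
    (((yy_diff h4 hτ a (uu_diff dB w) 0).mul (dy_diff h4 hτ a (uu_diff dB w) cW 1)).sub
      ((yy_diff h4 hτ a (uu_diff dB w) 1).mul
        (dy_diff h4 hτ a (uu_diff dB w) cW 0))).analyticOnNhd (h7.op 2)
  rcases (aP _ half_mem).eventually_eq_zero_or_eventually_ne_zero with hz | hz
  · exfalso
    have aG := (ev_diff h1 h4 hτ a bA (uu_diff dA w) (pderiv (Sum.inr 1) Q)).analyticOnNhd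
      (h7.op _)
    have hre : 0 < (1 / 2 : ℂ).re := by norm_num
    have cx : ContinuousAt xs (1 / 2) :=
      ContinuousAt.cpow (by fun_prop) continuousAt_const half_mem
    have tx : Tendsto xs (𝓝[≠] (1 / 2)) (𝓝[≠] xs (1 / 2)) := by
      refine tendsto_nhdsWithin_iff.2 ⟨cx.tendsto.mono_left nhdsWithin_le_nhds, ?_⟩
      filter_upwards [nhdsWithin_le_nhds nb, self_mem_nhdsWithin] with s hs hs' e
      have k1 := (br s hs.1 hs.2).2.1
      rw [Set.mem_singleton_iff.1 e, (br _ half_mem hre).2.1] at k1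
      have k2 : (s - 1 / 2) * (s + 1 / 2) = 0 := by linear_combination k1
      rcases mul_eq_zero.1 k2 with k3 | k3
      · exact hs' (sub_eq_zero.1 k3)
      · have k4 := congrArg Complex.re k3
        rw [Complex.add_re, Complex.zero_re] at k4
        linarith [hs.2]
    refine hne (aG.eqOn_zero_of_preconnected_of_frequently_eq_zero (h7.conn _ hN)
      (br _ half_mem hre).1 (tx.frequently (Eventually.frequently ?_)) hx₀)
    filter_upwards [nhdsWithin_le_nhds nb, nhdsWithin_le_nhds hz] with s hs hs'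
    obtain ⟨e, e0, e1, -⟩ := scal s hs.1 hs.2
    have k3 := h1.bih_dP _ _ Q k l hQ 1 e ![1, 1 - s ^ 2] 0 (yy τ a (uu fB w s)) ![0, 1]
    have k4 := dP_last Q (pp τ a (1 - s ^ 2) (uu fB w s)) 1
    rw [one_smul, hs', zero_mul, pp] at k4
    rw [smul_zero, dP_last, k4, mul_zero] at k3
    rw [e1]
    exact (mul_eq_zero.1 k3).resolve_right e0
  · have k := aW.eqOn_zero_of_preconnected_of_frequently_eq_zero (h7.conn 2 two_pos) half_mem
      (Eventually.frequently (by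
        filter_upwards [nhdsWithin_le_nhds nb, hz] with s hs hs'
        exact (mul_eq_zero.1 (prod s hs.1 hs.2)).resolve_left hs')) (zero_mem two_pos)
    have U0 : uu fB w 0 = 0 := by
      simp only [uu, hfB, (h7.zero _ _ (ht _)).2, neg_zero, zero_smul, Finset.sum_const_zero]
    simp only [hWr, U0] at k
    exact k

end Pool.Agent.Lib.MP_caab05_ag.GB
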