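import Mathlib
import Pool.Agent.Lib.MP_caab05_ag.GB.Stmt3
import Pool.Agent.Lib.MP_caab05_ag.GB.CuTw
import Pool.Agent.Lib.MP_caab05_ag.GB.Curve

/-! Twisting the relation on the curve, and the periods of its type, for any even level. -/

namespace Pool.Agent.Lib.MP_caab05_ag.GB

open MvPolynomial Filter Topology Asymptotics Complex Matrix

namespace CuTw2Aux

theorem exists_exp2 {n : ℕ} (hn : 2 ≤ n) {z : ℂ} (hz : IsPrimitiveRoot z (2 * n)) :
    z.im ≠ 0 ∧ (0 < z.im → ∃ t : ℕ, Odd t ∧ t < n ∧ z = ze (2 * n) ^ t) := by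
  constructor
  · intro h
    have h1 : z = (z.re : ℂ) := Complex.ext rfl (by simpa using h)
    have h2 : z.re ^ (2 * n) = 1 := by
      have := hz.pow_eq_one
      rw [h1] at this
      exact_mod_cast this
    have h3 : z ^ 2 = 1 := by
      rw [h1]
      rcases (pow_eq_one_iff_of_ne_zero (by omega)).1 h2 with h | h
      · rw [h]; norm_num
      · rw [h.1]; norm_num
    have h4 := Nat.le_of_dvd (by norm_num) (hz.dvd_of_pow_eq_one 2 h3)
    omega
  · intro h
    obtain ⟨t, ht, hc, rfl⟩ := (Complex.isPrimitiveRoot_iff z _ (by omega)).1 hz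
    refine ⟨t, ?_, ?_, ?_⟩
    · exact Nat.coprime_two_right.1 (Nat.Coprime.coprime_dvd_right (Dvd.intro n rfl) hc)
    · by_contra hlt
      rw [not_lt] at hlt
      have e : 2 * (Real.pi : ℂ) * I * ((t : ℂ) / ((2 * n : ℕ) : ℂ)) =
          ((2 * Real.pi * (t / (2 * n : ℕ)) : ℝ) : ℂ) * I := by
        push_cast
        ring
      rw [e, Complex.exp_ofReal_mul_I_im] at h
      have hp : (0 : ℝ) < (2 * n : ℕ) := by
        have : 0 < 2 * n := by omega
        exact_mod_cast this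
      have a1 : (t : ℝ) / (2 * n : ℕ) ≤ 1 := by
        rw [div_le_one hp]
        exact_mod_cast ht.le
      have a2 : (1 : ℝ) / 2 ≤ t / (2 * n : ℕ) := by
        rw [div_le_div_iff₀ (by norm_num) hp]
        have : 1 * (2 * n) ≤ t * 2 := by omega
        exact_mod_cast this
      have a3 := Real.sin_nonpos_of_nonpos_of_neg_pi_le
        (x := 2 * Real.pi * (t / (2 * n : ℕ)) - 2 * Real.pi)
        (by nlinarith [Real.pi_pos]) (by nlinarith [Real.pi_pos])
      rw [Real.sin_sub_two_pi] at a3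
      linarith
    · rw [ze, ← Complex.exp_nat_mul]
      congr 1
      ring

end CuTw2Aux

open CuTwAux in
theorem cuTw2 (h0 : OsgS) (h1 : PolS) (h2 : TwS) (h4 : LawS) (h5 : GeoS) (h6 : XHolS) (h7 : CuAS)
    (h8 : CuRel2S) : CuTw2S := by
  intro g ι _ n τ t w D M N c hA hT
  have hτ := hA.sg
  have hN : 0 < 2 * n := by have := hA.npos; omega
  have ht : ∀ i, 0 < t i := fun i => (hA.odd i).pos
  set w' : ι → V g := fun i => app M (w i) + fun k => D (w i k) with hw'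
  set Wv : V g := ∑ i, (BB (2 * n) (t i) : ℂ) • w' i with hW
  obtain ⟨a₀, ha₀⟩ := Function.ne_iff.1 (h5.nz g τ hτ 0)
  refine h6.neom' g τ Wv a₀ hτ ha₀ fun a₁ => ?_
  set a : Fin 2 → Ix g := ![a₀, a₁] with ha
  obtain ⟨Q, k, l, hQ, relA, x₀, hx₀, hne⟩ := h8 g ι n τ t w hA a ha₀
  obtain ⟨p, hp⟩ := hA.lat₁ 0
  simp only [zero_mul, pow_zero, one_mul] at hp
  set fA : ι → ℂ → ℂ := fun i => II (2 * n) (t i) with hfA
  set fB : ι → ℂ → ℂ := fun i s => -JI (2 * n) (t i) s with hfB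
  have dA : ∀ i, DifferentiableOn ℂ (fA i) (St (2 * n)) := fun i x hx =>
    (h7.hol _ _ (ht i) x hx).differentiableAt.differentiableWithinAt
  have dJ : ∀ i, DifferentiableOn ℂ (JI (2 * n) (t i)) (St 2) := fun i x hx =>
    (h7.holJ _ _ x hx).differentiableAt.differentiableWithinAt
  have dB : ∀ i, DifferentiableOn ℂ (fB i) (St 2) := fun i => (dJ i).neg
  have bA : DifferentiableOn ℂ (fun x : ℂ => x ^ (2 * n)) (St (2 * n)) := by fun_prop
  have bB : DifferentiableOn ℂ (fun s : ℂ => 1 - s ^ 2) (St 2) := by fun_prop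
  have relA' : ∀ x ∈ St (2 * n), eval (pp τ a (x ^ (2 * n)) (uu fA w x)) Q = 0 := relA
  have EA := twist h0 h1 h2 h4 hτ hT a hQ (h7.op _) (h7.conn _ hN) (zero_mem hN) w bA dA
    (fun i => (h7.zero _ _ (ht i)).1) (tw_pow h2 D _)
    (fun i => tw_rat h2 D ((dA i).analyticAt ((h7.op _).mem_nhds (zero_mem hN)))
      (h7.jet _ _ hN (ht i))) relA'
  -- the change of the local parameter
  set xs : ℂ → ℂ := fun s => (1 - s ^ 2) ^ (1 / ((2 * n : ℕ) : ℂ)) with hxs
  have br : ∀ s ∈ St 2, 0 < s.re → xs s ∈ St (2 * n) ∧ xs s ^ (2 * n) = 1 - s ^ 2 ∧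
      ∀ v : ι → V g, uu fA v (xs s) = uu fB v s + ∑ i, (BB (2 * n) (t i) : ℂ) • v i :=
    fun s hs hr => ⟨(h7.branch _ 1 hN one_pos s hs hr).1, (h7.branch _ 1 hN one_pos s hs hr).2.1,
      fun v => by
        unfold uu
        rw [← Finset.sum_add_distrib]
        refine Finset.sum_congr rfl fun i _ => ?_
        rw [← add_smul]
        congr 1
        exact (h7.branch _ _ hN (ht i) s hs hr).2.2.trans (by simp only [hfB]; ring)⟩
  have nb : ∀ᶠ s in 𝓝 (1 / 2 : ℂ), s ∈ St 2 ∧ 0 < s.re :=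
    Eventually.and ((h7.op 2).mem_nhds half_mem)
      ((isOpen_lt continuous_const Complex.continuous_re).mem_nhds (by norm_num))
  have scal : ∀ s ∈ St 2, 0 < s.re → ∃ e : ℂ, e ≠ 0 ∧
      pp τ a (xs s ^ (2 * n)) (uu fA w (xs s)) =
        Sum.elim ((1 : ℂ) • ![1, 1 - s ^ 2]) (e • yy τ a (uu fB w s)) ∧
      ∀ v, ∃ μ : ℂ, dy τ a (uu fA w (xs s)) v =
        e • (dy τ a (uu fB w s) v + μ • yy τ a (uu fB w s)) := fun s hs hr => by
    obtain ⟨-, b2, b3⟩ := br s hs hr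
    obtain ⟨e, e0, e1, e2⟩ := transl h4 hτ a p (uu fB w s)
    rw [b2, b3, hp]
    exact ⟨e, e0, by rw [pp, e1, one_smul], e2⟩
  have relB : ∀ s ∈ St 2, eval (pp τ a (1 - s ^ 2) (uu fB w s)) Q = 0 := by
    refine ((ev_diff h1 h4 hτ a bB (uu_diff dB w) Q).analyticOnNhd
      (h7.op 2)).eqOn_zero_of_preconnected_of_eventuallyEq_zero (h7.conn 2 two_pos) half_mem
      (nb.mono fun s hs => ?_)
    obtain ⟨e, e0, e1, -⟩ := scal s hs.1 hs.2
    have k1 := relA' _ (br s hs.1 hs.2).1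
    rw [e1, h1.bih_eval _ _ Q k l hQ, one_pow, one_mul] at k1
    exact (mul_eq_zero.1 k1).resolve_left (pow_ne_zero _ e0)
  have EB := twist h0 h1 h2 h4 hτ hT a hQ (h7.op _) (h7.conn _ two_pos) (zero_mem two_pos) w bB dB
    (fun i => by simp only [hfB, (h7.zero _ _ (ht i)).2, neg_zero]) (tw_one_sub h2 D)
    (fun i => tw_neg h2 D (tw_rat h2 D
      ((dJ i).analyticAt ((h7.op _).mem_nhds (zero_mem two_pos))) (h7.jetJ _ _ hN))) relB
  set P : ℂ → ℂ := fun s => eval (pp τ a (1 - s ^ 2) (uu fB w s)) (pderiv (Sum.inr 1) Q) with hP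
  set Wr : ℂ → ℂ := fun s => yy τ a (uu fB w s) 0 * dy τ a (uu fB w s) Wv 1 -
    yy τ a (uu fB w s) 1 * dy τ a (uu fB w s) Wv 0 with hWr
  have prod : ∀ s ∈ St 2, 0 < s.re → P s * Wr s = 0 := fun s hs hr => by
    obtain ⟨e, e0, e1, e2⟩ := scal s hs hr
    obtain ⟨b1, -, b3⟩ := br s hs hr
    obtain ⟨μ, e3⟩ := e2 (uu fA w' (xs s))
    have k1 := EA _ b1
    have k2 := EB s hs
    have k3 := h1.bih_dP _ _ Q k l hQ 1 e ![1, 1 - s ^ 2] 0 (yy τ a (uu fB w s))
      (dy τ a (uu fB w s) (uu fA w' (xs s)) + μ • yy τ a (uu fB w s))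
    rw [smul_zero, dP_euler h1 hQ (relB s hs), b3, dy_add, elim_add, h1.dP_add] at k3
    rw [EE, e1, e3, b3, dy_add, k3, h1.bih_eval _ _ _ k l (h1.bih_cD _ _ D Q k l hQ), ← mul_add, one_pow,
      one_mul, ← add_assoc] at k1
    have k4 := (mul_eq_zero.1 k1).resolve_left (pow_ne_zero _ e0)
    rw [EE, pp] at k2
    rw [k2, zero_add] at k4
    exact h1.wronski _ Q k l hQ _ _ _ (relB s hs) k4
  have aP := (ev_diff h1 h4 hτ a bB (uu_diff dB w) (pderiv (Sum.inr 1) Q)).analyticOnNhd (h7.op 2)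
  have cW : DifferentiableOn ℂ (fun _ : ℂ => Wv) (St 2) := differentiableOn_const _
  have aW : AnalyticOnNhd ℂ Wr (St 2) :=
    (((yy_diff h4 hτ a (uu_diff dB w) 0).mul (dy_diff h4 hτ a (uu_diff dB w) cW 1)).sub
      ((yy_diff h4 hτ a (uu_diff dB w) 1).mul
        (dy_diff h4 hτ a (uu_diff dB w) cW 0))).analyticOnNhd (h7.op 2)
  rcases (aP _ half_mem).eventually_eq_zero_or_eventually_ne_zero with hz | hz
  · exfalso
    have aG := (ev_diff h1 h4 hτ a bA (uu_diff dA w) (pderiv (Sum.inr 1) Q)).analyticOnNhd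
      (h7.op _)
    have hre : 0 < (1 / 2 : ℂ).re := by norm_num
    have cx : ContinuousAt xs (1 / 2) :=
      ContinuousAt.cpow (by fun_prop) continuousAt_const half_mem
    have tx : Tendsto xs (𝓝[≠] (1 / 2)) (𝓝[≠] xs (1 / 2)) := by
      refine tendsto_nhdsWithin_iff.2 ⟨cx.tendsto.mono_left nhdsWithin_le_nhds, ?_⟩
      filter_upwards [nhdsWithin_le_nhds nb, self_mem_nhdsWithin] with s hs hs' e
      have k1 := (br s hs.1 hs.2).2.1
      rw [Set.mem_singleton_iff.1 e, (br _ half_mem hre).2.1] at k1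
      have k2 : (s - 1 / 2) * (s + 1 / 2) = 0 := by linear_combination k1
      rcases mul_eq_zero.1 k2 with k3 | k3
      · exact hs' (sub_eq_zero.1 k3)
      · have k4 := congrArg Complex.re k3
        rw [Complex.add_re, Complex.zero_re] at k4
        linarith [hs.2]
    refine hne (aG.eqOn_zero_of_preconnected_of_frequently_eq_zero (h7.conn _ hN)
      (br _ half_mem hre).1 (tx.frequently (Eventually.frequently ?_)) hx₀)
    filter_upwards [nhdsWithin_le_nhds nb, nhdsWithin_le_nhds hz] with s hs hs'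
    obtain ⟨e, e0, e1, -⟩ := scal s hs.1 hs.2
    have k3 := h1.bih_dP _ _ Q k l hQ 1 e ![1, 1 - s ^ 2] 0 (yy τ a (uu fB w s)) ![0, 1]
    have k4 := dP_last Q (pp τ a (1 - s ^ 2) (uu fB w s)) 1
    rw [one_smul, hs', zero_mul, pp] at k4
    rw [smul_zero, dP_last, k4, mul_zero] at k3
    rw [e1]
    exact (mul_eq_zero.1 k3).resolve_right e0
  · have k := aW.eqOn_zero_of_preconnected_of_frequently_eq_zero (h7.conn 2 two_pos) half_mem
      (Eventually.frequently (by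
        filter_upwards [nhdsWithin_le_nhds nb, hz] with s hs hs'
        exact (mul_eq_zero.1 (prod s hs.1 hs.2)).resolve_left hs')) (zero_mem two_pos)
    have U0 : uu fB w 0 = 0 := by
      simp only [uu, hfB, (h7.zero _ _ (ht _)).2, neg_zero, zero_smul, Finset.sum_const_zero]
    simp only [hWr, U0] at k
    exact k

open CurveAux CuTw2Aux Classical in
theorem curve2 (h6 : ModS) (h7 : EllS) (h8 : CuAS) (h9 : CuTw2S) : Curve2S := by
  intro n L _ _ c ζ D hr hc hζ hD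
  have hp : ∀ φ : Emb L, IsPrimitiveRoot (φ ζ) (2 * n) := fun φ =>
    hζ.map_of_injective φ.injective
  have hT : IsType {ψ : Emb L | 0 < (ψ ζ).im} := by
    intro φ
    have h0 := (exists_exp2 hr (hp φ)).1
    simp only [Set.mem_ofPred_eq, cj, NumberField.ComplexEmbedding.conjugate_coe_eq, conj_im,
      not_lt]
    exact ⟨fun h => by linarith, fun h => lt_of_le_of_ne (by linarith) h0.symm⟩
  refine ⟨hT, ?_⟩
  set Φ : Set (Emb L) := {ψ : Emb L | 0 < (ψ ζ).im} with hΦ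
  obtain ⟨g, τ, v, hm⟩ := h6 L c Φ hc hT
  obtain ⟨M, N, c', htw, hper, hM⟩ := h7.still L c Φ D g τ v hc hT hm
  choose t ht1 ht2 ht3 using fun φ : Φ => (exists_exp2 hr (hp φ)).2 φ.2
  have hn0 : 0 < n := by omega
  obtain ⟨N0, hN0, hden⟩ := exists_den
    (fun x : Fin (2 * n) × Bool => ∑ φ : Emb L,
      φ (ζ ^ (x.1 : ℕ) * if x.2 then 1 else 2 * ζ / (1 + ζ)) • v φ) fun x => hm.rat _
  have hB : ∀ φ : Φ, (BB (2 * n) (t φ) : ℂ) ≠ 0 := fun φ =>
    ofReal_ne_zero.2 (h8.pos _ _ (by omega) (ht1 φ).pos).ne'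
  have hlat : ∀ (j : ℕ) (b : Bool), ∃ p, ∑ φ : Φ,
      ((N0 : ℂ) * φ.1 (ζ ^ j * if b then 1 else 2 * ζ / (1 + ζ))) • per τ (v φ) =
        per τ (cst p) := by
    intro j b
    obtain ⟨p, hp'⟩ := hden (⟨j % (2 * n), Nat.mod_lt _ (by omega)⟩, b)
    refine ⟨p, ?_⟩
    have e : ζ ^ (j % (2 * n)) = ζ ^ j := by
      conv_rhs => rw [← Nat.div_add_mod j (2 * n), pow_add, pow_mul, hζ.pow_eq_one, one_pow,
        one_mul]
    simp only [e, Finset.smul_sum, smul_smul] at hp'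
    rw [← hp', per_sum hm]
  have hAJ : IsAJ2 n τ t fun φ : Φ => ((N0 : ℂ) / BB (2 * n) (t φ)) • per τ (v φ) := by
    refine ⟨hm.sg, ht1, ht2, hn0, fun j => ?_, fun j => ?_⟩
    · obtain ⟨p, hp'⟩ := hlat j true
      refine ⟨p, ?_⟩
      rw [← hp']
      refine Finset.sum_congr rfl fun φ _ => ?_
      rw [smul_smul]
      congr 1
      have := hB φ
      simp only [if_true, mul_one, map_pow, ht3 φ]
      rw [← pow_mul, mul_comm (t φ) j]
      field_simp
    · obtain ⟨p, hp'⟩ := hlat j false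
      refine ⟨p, ?_⟩
      rw [← hp']
      refine Finset.sum_congr rfl fun φ _ => ?_
      rw [smul_smul]
      congr 1
      have := hB φ
      simp only [Bool.false_eq_true, if_false, map_mul, map_pow, map_div₀, map_add, map_one,
        map_ofNat, ht3 φ]
      rw [← pow_mul, mul_comm (t φ) j]
      field_simp
  have key := h9 g Φ n τ t _ D M N c' hAJ htw
  have key2 : per τ (∑ φ : Emb L, ((N0 : ℂ) * ell D Φ φ) • v φ) = 0 := by
    rw [per_sum hm, ← key]
    refine Finset.sum_congr rfl fun φ _ => ?_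
    have e : (fun k => D ((((N0 : ℂ) / BB (2 * n) (t φ)) • per τ (v φ)) k)) = 0 := by
      funext k
      have hb : D (BB (2 * n) (t φ) : ℂ) = 0 := hD _ (ht1 φ).pos (ht2 φ)
      simp only [Pi.smul_apply, smul_eq_mul, Derivation.leibniz, hper, Derivation.leibniz_div, hb,
        Derivation.map_intCast, mul_zero, sub_zero, add_zero, Pi.zero_apply]
    rw [e, add_zero, app_smul, hM, smul_smul, smul_smul]
    congr 1
    have := hB φ
    field_simp
  have key3 : ∀ φ ∈ Φ, ell D Φ φ = 0 := fun φ hφ =>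
    (mul_eq_zero.1 ((hm.ker _).1 key2 φ hφ)).resolve_left (Int.cast_ne_zero.2 hN0)
  intro φ
  rw [elt]
  split_ifs with h
  · exact key3 φ h
  · rw [key3 (cj φ) (by by_contra h'; exact h ((hT φ).2 h')), neg_zero]

end Pool.Agent.Lib.MP_caab05_ag.GB
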