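import Mathlib
import Pool.Agent.Lib.MP_caab05_ag.GB.Stmt3

/-! The final assembly for all levels. -/

namespace Pool.Agent.Lib.MP_caab05_ag.GB

open Complex

namespace Final2Aux

noncomputable def ofR : ℝ →ₐ[ℚ] ℂ := Complex.ofRealHom.toRatAlgHom

theorem exists_field (S : Set ℝ) : ∃ F₀ F : IntermediateField ℚ ℂ,
    (∀ b ∈ S, (b : ℂ) ∈ F₀) ∧ (∀ x : ℂ, IsAlgebraic F₀ x → x ∈ F) ∧
      Algebra.trdeg ℚ F = Algebra.trdeg ℚ (IntermediateField.adjoin ℚ S) := by
  let F₀ := (IntermediateField.adjoin ℚ S).map ofR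
  refine ⟨F₀, (algebraicClosure F₀ ℂ).restrictScalars ℚ, fun b hb => ?_, fun x hx => ?_, ?_⟩
  · exact ⟨b, IntermediateField.subset_adjoin ℚ S hb, rfl⟩
  · exact mem_algebraicClosure_iff.2 hx
  · have h1 := trdeg_add_eq ℚ F₀ (A := algebraicClosure F₀ ℂ)
    rw [trdeg_eq_zero (R := F₀) (A := algebraicClosure F₀ ℂ), add_zero] at h1
    exact h1.symm.trans ((IntermediateField.adjoin ℚ S).equivMap ofR).trdeg_eq.symm

theorem D_alg (D : Der) (x : ℂ) (hx : IsAlgebraic ℚ x) : D x = 0 := by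
  have hi : IsIntegral ℚ x := hx.isIntegral
  have hs : (minpoly ℚ x).Separable := (minpoly.irreducible hi).separable
  have h1 := hs.aeval_derivative_ne_zero (minpoly.aeval ℚ x)
  have h2 := D.map_aeval (minpoly ℚ x) x
  rw [minpoly.aeval, map_zero, smul_eq_mul] at h2
  exact (mul_eq_zero.1 h2.symm).resolve_left h1

theorem D_mul (D : Der) {a : ℝ} {b : ℂ} (ha : IsAlgebraic ℚ a) (hb : D b = 0) :
    D (a * b) = 0 := by
  rw [D.leibniz, hb, D_alg D a (ha.algHom ofR)]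
  simp

theorem D_scale (h9 : BetS) (D : Der) {e N s : ℕ} (he : 0 < e) (hN : 0 < N) (hs : 0 < s) :
    D (BB (e * N) (e * s)) = 0 ↔ D (BB N s) = 0 := by
  have he' : (e : ℝ) ≠ 0 := by exact_mod_cast he.ne'
  have h := h9.scale e N s he hN hs
  constructor
  · intro h0
    have h1 : BB N s = e * BB (e * N) (e * s) := by rw [h]; field_simp
    rw [h1, Complex.ofReal_mul]
    exact D_mul D (isAlgebraic_natCast e) h0
  · intro h0
    rw [h, div_eq_inv_mul, Complex.ofReal_mul]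
    exact D_mul D (isAlgebraic_natCast e).inv h0

theorem exists_level (h9 : BetS) (N : ℕ) (hN : 0 < N) : ∃ n : ℕ, (2 * n).totient = N.totient ∧
    ∀ D : Der, (∀ t : ℕ, 0 < t → 2 * t < N → D (BB N t) = 0) →
      ∀ t : ℕ, 0 < t → t < n → D (BB (2 * n) t) = 0 := by
  rcases Nat.even_or_odd' N with ⟨n, rfl | h⟩
  · exact ⟨n, rfl, fun D hD t ht ht' => hD t ht (by omega)⟩
  · refine ⟨N, Nat.totient_two_mul_of_odd ⟨n, h⟩, fun D hD => ?_⟩
    have ev : ∀ s : ℕ, 0 < s → 2 * s < N → D (BB (2 * N) (2 * s)) = 0 := fun s hs hs' =>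
      (D_scale h9 D (by norm_num) hN hs).2 (hD s hs hs')
    intro t ht ht'
    rcases Nat.even_or_odd' t with ⟨s, rfl | rfl⟩
    · exact ev s (by omega) ht'
    · obtain ⟨a, ha, e⟩ := h9.refl N (2 * s + 1) ht ht'
      rw [e, Complex.ofReal_mul, show N - (2 * s + 1) = 2 * (n - s) by omega]
      exact D_mul D ha (ev (n - s) (by omega) (by omega))

theorem arith {d n : ℕ} {t : Cardinal} (hd : 0 < d) (hn : 2 * n = d + 2)
    (H : ((d * (d - n) : ℕ) : Cardinal) ≤ ((d * (2 * n + 2 - d) : ℕ) : Cardinal) * t) :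
    ((d : ℕ) : Cardinal) ≤ 8 * t + 2 := by
  rcases lt_or_ge t Cardinal.aleph0 with ht | ht
  · obtain ⟨m, rfl⟩ := Cardinal.lt_aleph0.1 ht
    have H' : d * (d - n) ≤ d * (2 * n + 2 - d) * m := by exact_mod_cast H
    rw [mul_assoc d] at H'
    have h1 := Nat.le_of_mul_le_mul_left H' hd
    rw [show 2 * n + 2 - d = 4 by omega] at h1
    have h3 : d ≤ 8 * m + 2 := by omega
    exact_mod_cast h3
  · refine (Cardinal.natCast_lt_aleph0.le.trans ht).trans (le_trans ?_ le_self_add)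
    exact Cardinal.le_mul_left (by norm_num)

theorem li_int {L ι : Type} [Field L] [NumberField L] {v : ι → L} (h : LinearIndependent ℚ v) :
    LinearIndependent ℤ v := h.restrict_scalars' ℤ

end Final2Aux

open Final2Aux

theorem final2 (h3 : DerS) (h4 : EllS) (h5 : ShiS) (h6 : AffS) (h7 : CharS) (h8 : Curve2S)
    (h9 : BetS) (h10 : Var2S) (h11 : Gen2S) (h12 : PairS) (h13 : Cyc2S) (h14 : SpanS)
    (h15 : MainS) : Final2S := by
  intro N hN
  have hN0 : 0 < N := Nat.totient_pos.1 (by omega)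
  obtain ⟨F₀, F, hS, hF, htr⟩ := exists_field {b : ℝ | ∃ t : ℕ, 0 < t ∧ 2 * t < N ∧
      b = ∫ x in (0 : ℝ)..1, x ^ (t - 1) / √(1 - x ^ N)}
  rw [← htr]
  obtain ⟨n, hn, hlev⟩ := exists_level h9 N hN0
  have hn3 : 22 ≤ 2 * n := (hn ▸ hN).trans (Nat.totient_le _)
  have : NeZero (2 * n) := ⟨by omega⟩
  let L : Type := CyclotomicField (2 * n) ℚ
  have : IsCyclotomicExtension {2 * n} ℚ L := CyclotomicField.isCyclotomicExtension _ _
  have hζ := IsCyclotomicExtension.zeta_spec (2 * n) ℚ L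
  set ζ := IsCyclotomicExtension.zeta (2 * n) ℚ L
  obtain ⟨hrk, ⟨c, hc, hc1⟩, htrans, hcomm, hli, hspan, hinj⟩ := h13 (2 * n) L ζ (by omega) hζ
  rw [hn] at hrk
  obtain ⟨Φ, e, hΦ, he, hrange, hsep, hcard⟩ := h12 L c hc hc1 (by omega) htrans hcomm
  obtain ⟨M, A, ω, 𝔪, hω, h𝔪, hΛ, hD⟩ := h10 L c Φ _ e hc hΦ he hrange
  have key : ∀ D : Der, (∀ y ∈ F₀, D y = 0) → ∀ Ψ, IsType Ψ → ∀ φ : Emb L, elt D Ψ φ = 0 := by
    intro D hD0 Ψ hΨ φ
    obtain ⟨q, q1, q2, q3⟩ := h6 L c (elt D) hc (by omega) (h5 L c D hc)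
      (fun Ψ σ ψ => h4.eqv L Ψ D σ ψ) (fun Ψ hΨ ψ => h4.odd L Ψ D hΨ ψ)
    have hB := hlev D fun t ht ht' => hD0 _ (hS _ ⟨t, ht, ht', rfl⟩)
    have h := h7 n L ζ q (by omega) hζ q1 q2 (fun e m hm hem ψ => by
      have he0 : 0 < e := Nat.pos_of_ne_zero (by rintro rfl; omega)
      have hem' : 2 * n = e * (2 * m) := by rw [← hem]; ring
      obtain ⟨c1, c2⟩ := h8 m L c (ζ ^ e) D hm hc (hζ.pow (by omega) hem') fun t ht ht' => by
        refine (D_scale h9 D he0 (by omega) ht).1 ?_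
        rw [← hem']
        exact hB _ (Nat.mul_pos he0 ht) (hem ▸ Nat.mul_lt_mul_of_pos_left ht' he0)
      rw [← q3 _ c1, c2])
    rw [q3 Ψ hΨ]
    refine Finset.sum_eq_zero fun ψ _ => ?_
    rw [show q φ = 0 from funext fun ψ => h φ ψ]
    simp
  have hωF : ∀ k, ω k ∈ F := fun k => hF _ (h3 F₀ _ fun D hD0 => by
    rw [hD D k, key D hD0 _ (hΦ _), zero_mul])
  choose m hm0 hm using fun i : Fin (Module.finrank ℚ L) => h𝔪 (fun _ => ζ ^ (i : ℕ))
  have hy : ∀ (i : Fin (Module.finrank ℚ L)) k, (m i : ℂ) * (e k).1 ζ ^ (i : ℕ) * ω k =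
      (e k).1 (m i • ζ ^ (i : ℕ)) * ω k := fun i k => by simp
  have hc2 : (Finset.univ.image fun k => (e k).1 ζ).card = (Set.range fun k => (e k).1).ncard := by
    rw [← Set.ncard_coe_finset, Finset.coe_image, Finset.coe_univ, Set.image_univ,
      ← Set.ncard_image_of_injective (Set.range fun k => (e k).1)
        (f := fun φ : Emb L => φ ζ) (fun φ ψ h => hinj φ ψ h), ← Set.range_comp]
    rfl
  obtain ⟨s1, s2⟩ := h14 (Module.finrank ℚ L) (Module.finrank ℚ L) (fun k => (e k).1 ζ) ω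
    (fun i => (m i : ℂ)) F
    (fun k => hF _ (((Algebra.IsAlgebraic.isAlgebraic (R := ℚ) ζ).algHom
      (e k).1.toRatAlgHom).tower_top F₀))
    hω (fun k k' _ => F.div_mem (hωF k) (hωF k'))
    (fun i => Int.cast_ne_zero.2 (hm0 i)) (by omega)
  have hgen := h11 L Φ _ M e A ω 𝔪 (Submodule.span ℂ (Set.range
      fun (i : Fin (Module.finrank ℚ L)) k => (m i : ℂ) * (e k).1 ζ ^ (i : ℕ) * ω k))
    hΦ he hrange hω hΛ htrans hcomm hsep (fun x => by
      have hx : x ∈ Submodule.span ℚ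
          (Set.range fun i : Fin (Module.finrank ℚ L) => ζ ^ (i : ℕ)) := by
        rw [hspan]; trivial
      obtain ⟨a, ha⟩ := (Submodule.mem_span_range_iff_exists_fun ℚ).1 hx
      refine (Submodule.mem_span_range_iff_exists_fun ℂ).2 ⟨fun i => (a i : ℂ) / m i, ?_⟩
      funext k
      rw [← ha, map_sum, Finset.sum_mul, Finset.sum_apply]
      refine Finset.sum_congr rfl fun i _ => ?_
      have hmi : (m i : ℂ) ≠ 0 := Int.cast_ne_zero.2 (hm0 i)
      rw [Rat.smul_def, map_mul, map_ratCast, map_pow, Pi.smul_apply, smul_eq_mul]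
      field_simp)
  have hmain := h15 _ M _ _ A (fun (i : Fin (Module.finrank ℚ L)) k =>
      (m i : ℂ) * (e k).1 ζ ^ (i : ℕ) * ω k)
    (fun i => (hΛ _).2 ⟨_, hm i, funext (hy i)⟩) (by
      rw [Fintype.linearIndependent_iff]
      intro g hg i
      have k : Fin (Module.finrank ℚ L) := i
      have h1 := congrFun hg k
      simp only [Finset.sum_apply, Pi.smul_apply, hy, Pi.zero_apply] at h1
      have h2 : (e k).1 (∑ j, (g j * m j) • ζ ^ (j : ℕ)) * ω k = 0 := by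
        rw [← h1, map_sum, Finset.sum_mul]
        refine Finset.sum_congr rfl fun j _ => ?_
        simp only [zsmul_eq_mul, map_mul, map_intCast, Int.cast_mul]
        ring
      have h3 := (map_eq_zero (e k).1).1 ((mul_eq_zero.1 h2).resolve_right (hω k))
      have h4 := Fintype.linearIndependent_iff.1 (li_int hli) _ h3 i
      exact (mul_eq_zero.1 h4).resolve_right (hm0 i))
    s1 hgen F s2
  rw [← hrk]
  exact arith (by omega) (hc2 ▸ hcard) hmain

end Pool.Agent.Lib.MP_caab05_ag.GB
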