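import Mathlib
import Pool.Agent.Lib.MP_caab05_ag.GB.Stmt4
import Pool.Agent.Lib.MP_caab05_ag.GB.Gen2

/-! Subtori of a product of two tori with complex multiplication, coordinate form. -/

namespace Pool.Agent.Lib.MP_caab05_ag.GB

open Complex NumberField Matrix

open Gen2Aux in
theorem gen3 (h : WeakS) : Gen3S := by
  classical
  intro L _ _ Φ d M e A ω 𝔪 W hΦ he hr hω hΛ h1 h2 h3 hW U hU
  rw [or_iff_not_imp_left]
  intro hU0
  let S : Set (Fin 2 → L) := {x | rho e ω (ev L (Fin 2) x) ∈ U}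
  let P : Submodule ℚ (Fin 2 → L) :=
    (U.restrictScalars ℚ).comap (((rho e ω).restrictScalars ℚ).comp (ev L (Fin 2)))
  have hUS : ∀ w ∈ U, w ∈ Submodule.span ℝ ((fun x => rho e ω (ev L (Fin 2) x)) '' S) := by
    intro w hw
    have hw' : w ∈ Submodule.span ℝ ((U : Set (Fin d → ℂ)) ∩ (A.Λ : Set (Fin d → ℂ))) := by
      rw [hU]
      exact hw
    refine Submodule.span_mono ?_ hw'
    rintro y ⟨hy1, hy2⟩
    obtain ⟨x, -, rfl⟩ := (hΛ y).1 hy2
    exact ⟨x, hy1, rfl⟩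
  obtain ⟨x₀, hx₀, hx₀0⟩ : ∃ x ∈ P, x ≠ 0 := by
    by_contra hne
    refine hU0 (eq_bot_iff.2 fun w hw => ?_)
    have hle : Submodule.span ℝ ((fun x => rho e ω (ev L (Fin 2) x)) '' S) ≤ ⊥ := by
      rw [Submodule.span_le]
      rintro _ ⟨x, hx, rfl⟩
      have hx0 : x = 0 := not_not.1 fun h0 => hne ⟨x, hx, h0⟩
      show rho e ω (ev L (Fin 2) x) = 0
      rw [hx0, map_zero, map_zero]
    exact hle (hUS w hw)
  obtain ⟨i, hi⟩ := Function.ne_iff.1 hx₀0
  let Q : Submodule ℂ (Emb L × Fin 2 → ℂ) := U.comap (rho e ω)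
  have hPQ : Submodule.span ℂ (ev L (Fin 2) '' (P : Set (Fin 2 → L))) ≤ Q := by
    rw [Submodule.span_le]
    rintro _ ⟨x, hx, rfl⟩
    exact hx
  have hs : ∀ φ : Emb L, (Pi.single (φ, i) 1 : Emb L × Fin 2 → ℂ) ∈ Q := fun φ =>
    hPQ (single_mem _ (fun σ : L ≃ₐ[ℚ] L => shift (Fin 2) σ ⁻¹' Set.range e)
      (fun σ X hX => stab h e he h1 h2 P
        (fun y hy x hx => relation hΦ e he hr hω U S hUS y hy x hx) σ hX)
      (fun p q hpq => by
        obtain ⟨σ, hσ1, hσ2⟩ := h3 p q hpq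
        rw [hr]
        exact ⟨σ, hσ1, hσ2⟩)
      (Submodule.subset_span ⟨x₀, hx₀, rfl⟩) ((_root_.map_ne_zero φ).2 hi))
  have hd : ∀ φ : Emb L, rho e ω (fun p => if p.1 = φ then 1 else 0) ∈ W := by
    intro φ
    obtain ⟨n, x, a, -, ha1, ha2⟩ := h.dual L φ
    have e1 : (fun p : Emb L × Fin 2 => if p.1 = φ then (1 : ℂ) else 0) =
        ∑ k, a k • ev L (Fin 2) fun _ => x k := by
      funext ⟨ψ, l⟩
      rw [Finset.sum_apply]
      by_cases hψ : ψ = φ
      · subst hψ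
        exact (if_pos rfl).trans ha1.symm
      · exact (if_neg hψ).trans (ha2 ψ hψ).symm
    rw [e1, map_sum]
    refine W.sum_mem fun k _ => ?_
    rw [map_smul]
    exact W.smul_mem _ (hW (x k))
  refine ⟨Finset.univ.filter fun k => (e k).2 = i, fun k hk => ?_, fun z => ?_⟩
  · have hk' : (e k).2 = i := (Finset.mem_filter.1 hk).2
    have e1 : (Pi.single k 1 : Fin d → ℂ) = (ω k)⁻¹ • rho e ω (Pi.single ((e k).1, i) 1) := by
      rw [← hk']
      funext l
      show _ = (ω k)⁻¹ * ((Pi.single (e k) 1 : Emb L × Fin 2 → ℂ) (e l) * ω l)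
      by_cases hl : l = k
      · rw [hl, Pi.single_eq_same, Pi.single_eq_same, one_mul, inv_mul_cancel₀ (hω k)]
      · rw [Pi.single_eq_of_ne hl, Pi.single_eq_of_ne (he.ne hl), zero_mul, mul_zero]
    rw [e1]
    exact U.smul_mem _ (hs _)
  · refine ⟨∑ l ∈ Finset.univ.filter fun l => (e l).2 ≠ i,
      (z l / ω l) • rho e ω (fun p => if p.1 = (e l).1 then 1 else 0),
      W.sum_mem fun l _ => W.smul_mem _ (hd _), fun k hk => ?_⟩
    have hk' : (e k).2 ≠ i := fun h0 => hk (Finset.mem_filter.2 ⟨Finset.mem_univ _, h0⟩)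
    rw [Finset.sum_apply, Finset.sum_eq_single k (fun l hl hlk => ?_)
      (fun h0 => (h0 (Finset.mem_filter.2 ⟨Finset.mem_univ k, hk'⟩)).elim)]
    · show z k / ω k * ((if (e k).1 = (e k).1 then 1 else 0) * ω k) = z k
      rw [if_pos rfl, one_mul, div_mul_cancel₀ _ (hω k)]
    · show z l / ω l * ((if (e k).1 = (e l).1 then 1 else 0) * ω k) = 0
      have hl' : (e l).2 ≠ i := (Finset.mem_filter.1 hl).2
      have h4 : (e k).2 = (e l).2 := by omega
      rw [if_neg fun h5 => hlk (he (Prod.ext h5 h4)).symm, zero_mul, mul_zero]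

end Pool.Agent.Lib.MP_caab05_ag.GB
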