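import Mathlib
import Pool.Agent.Lib.MP_caab05_ag.GB.Stmt3

/-! The first Bernoulli number of an odd primitive character does not vanish. -/

namespace Pool.Agent.Lib.MP_caab05_ag.GB

open Filter Topology Complex Set

namespace NonvAux

theorem deriv_cpow (r : ℂ) {y : ℝ} (hy : 0 < y) :
    HasDerivAt (fun x : ℝ => (x : ℂ) ^ r) (r * (y : ℂ) ^ (r - 1)) y :=
  (Complex.hasStrictDerivAt_cpow_const (c := r)
    (Complex.ofReal_mem_slitPlane.2 hy)).hasDerivAt.comp_ofReal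

theorem step₁ {s : ℂ} (hs : s ∈ Metric.ball (1 : ℂ) (3 / 2)) {y₀ : ℝ} (h₀ : 1 ≤ y₀) {y : ℝ}
    (hy : y ∈ Icc y₀ (y₀ + 1)) :
    ‖(y : ℂ) ^ (-s - 1) - (y₀ : ℂ) ^ (-s - 1)‖ ≤ 7 / 2 * y₀ ^ (-3 / 2 : ℝ) := by
  rw [mem_ball_iff_norm] at hs
  have h1 : ‖-s - 1‖ ≤ 7 / 2 := by
    have e : -s - 1 = -(s - 1) - 2 := by ring
    have := norm_sub_le (-(s - 1)) 2
    rw [norm_neg, Complex.norm_ofNat] at this
    rw [e]
    linarith
  have h2 : -1 / 2 ≤ s.re := by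
    have := (abs_le.1 ((abs_re_le_norm (s - 1)).trans hs.le)).1
    rw [sub_re, one_re] at this
    linarith
  have h := norm_image_sub_le_of_norm_deriv_le_segment' (a := y₀) (b := y₀ + 1)
    (f := fun x : ℝ => (x : ℂ) ^ (-s - 1)) (C := 7 / 2 * y₀ ^ (-3 / 2 : ℝ))
    (fun x hx => (deriv_cpow (-s - 1) (by linarith [hx.1])).hasDerivWithinAt)
    (fun x hx => by
      rw [norm_mul, norm_cpow_eq_rpow_re_of_pos (by linarith [hx.1])]
      refine mul_le_mul h1 ?_ (Real.rpow_nonneg (by linarith [hx.1]) _) (by norm_num)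
      refine (Real.rpow_le_rpow_of_exponent_le (h₀.trans hx.1) (z := -3 / 2) ?_).trans
        (Real.rpow_le_rpow_of_nonpos (by linarith) hx.1 (by norm_num))
      simp only [sub_re, neg_re, one_re]
      linarith) y hy
  refine h.trans (mul_le_of_le_one_right (by positivity) (by linarith [hy.2]))

theorem step₂ {s : ℂ} (hs : s ∈ Metric.ball (1 : ℂ) (3 / 2)) {y₀ : ℝ} (h₀ : 1 ≤ y₀) {a : ℝ}
    (ha : a ∈ Icc (0 : ℝ) 1) :
    ‖((y₀ + a : ℝ) : ℂ) ^ (-s) - (y₀ : ℂ) ^ (-s) + s * a * (y₀ : ℂ) ^ (-s - 1)‖ ≤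
      9 * y₀ ^ (-3 / 2 : ℝ) := by
  have h1 : ‖s‖ ≤ 5 / 2 := by
    rw [mem_ball_iff_norm] at hs
    have := norm_add_le (s - 1) 1
    rw [sub_add_cancel, norm_one] at this
    linarith
  have hp : 0 ≤ y₀ ^ (-3 / 2 : ℝ) := by positivity
  have h := norm_image_sub_le_of_norm_deriv_le_segment' (a := y₀) (b := y₀ + 1)
    (f := fun x : ℝ => (x : ℂ) ^ (-s) + s * x * (y₀ : ℂ) ^ (-s - 1))
    (f' := fun x : ℝ => -s * (x : ℂ) ^ (-s - 1) + s * 1 * (y₀ : ℂ) ^ (-s - 1))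
    (C := 9 * y₀ ^ (-3 / 2 : ℝ))
    (fun x hx => ((deriv_cpow (-s) (by linarith [hx.1])).add
      (((hasDerivAt_id (x : ℂ)).comp_ofReal.const_mul s).mul_const _)).hasDerivWithinAt)
    (fun x hx => by
      have e : -s * (x : ℂ) ^ (-s - 1) + s * 1 * (y₀ : ℂ) ^ (-s - 1) =
          -s * ((x : ℂ) ^ (-s - 1) - (y₀ : ℂ) ^ (-s - 1)) := by ring
      rw [e, norm_mul, norm_neg]
      have h3 := mul_le_mul h1 (step₁ hs h₀ ⟨hx.1, hx.2.le⟩) (norm_nonneg _) (by norm_num)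
      linarith) (y₀ + a) ⟨by linarith [ha.1], by linarith [ha.2]⟩
  have e : ((y₀ + a : ℝ) : ℂ) ^ (-s) - (y₀ : ℂ) ^ (-s) + s * a * (y₀ : ℂ) ^ (-s - 1) =
      ((y₀ + a : ℝ) : ℂ) ^ (-s) + s * ((y₀ + a : ℝ) : ℂ) * (y₀ : ℂ) ^ (-s - 1) -
        ((y₀ : ℂ) ^ (-s) + s * y₀ * (y₀ : ℂ) ^ (-s - 1)) := by
    push_cast
    ring
  rw [e]
  exact h.trans (mul_le_of_le_one_right (by positivity) (by linarith [ha.2]))

variable {N : ℕ} [NeZero N]

/-- the terms of the regrouped series -/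
noncomputable def gg (Φ : ZMod N → ℂ) (n : ℕ) (s : ℂ) : ℂ :=
  ∑ j, Φ j * (1 / ((n : ℂ) + ((j.val / N : ℝ) : ℂ)) ^ s)

theorem a_mem (j : ZMod N) : (j.val / N : ℝ) ∈ Icc (0 : ℝ) 1 := by
  have h : (0 : ℝ) < N := Nat.cast_pos.2 (NeZero.pos N)
  exact ⟨by positivity, (div_le_one h).2 (Nat.cast_le.2 j.val_lt.le)⟩

theorem gg_diff {Φ : ZMod N → ℂ} (h0 : Φ 0 = 0) (n : ℕ) : Differentiable ℂ (gg Φ n) := by
  refine Differentiable.fun_sum fun j _ => ?_
  by_cases hj : j = 0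
  · simp [hj, h0]
  have h : (0 : ℝ) < N := Nat.cast_pos.2 (NeZero.pos N)
  have h1 : (0 : ℝ) < j.val := Nat.cast_pos.2 (ZMod.val_pos.2 hj)
  have h2 : (n : ℂ) + ((j.val / N : ℝ) : ℂ) ≠ 0 := by
    have : (0 : ℝ) < n + j.val / N := by positivity
    exact_mod_cast this.ne'
  refine Differentiable.const_mul (fun s => ?_) _
  exact (differentiableAt_const _).div (differentiableAt_id.const_cpow (.inl h2))
    (cpow_ne_zero_iff.2 (.inl h2))

theorem gg_bound {Φ : ZMod N → ℂ} (h1 : ∑ j, Φ j = 0) (h2 : ∑ j, (j.val : ℂ) * Φ j = 0) (n : ℕ)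
    {s : ℂ} (hs : s ∈ Metric.ball (1 : ℂ) (3 / 2)) :
    ‖gg Φ (n + 1) s‖ ≤ (∑ j, ‖Φ j‖) * 9 * ((n + 1 : ℕ) : ℝ) ^ (-3 / 2 : ℝ) := by
  set y₀ : ℝ := ((n + 1 : ℕ) : ℝ) with hy
  have e : gg Φ (n + 1) s = ∑ j, Φ j * (((y₀ + j.val / N : ℝ) : ℂ) ^ (-s) - (y₀ : ℂ) ^ (-s) +
      s * (j.val / N : ℝ) * (y₀ : ℂ) ^ (-s - 1)) := by
    have e1 : ∑ j, Φ j * (s * (j.val / N : ℝ) * (y₀ : ℂ) ^ (-s - 1)) =
        (∑ j, (j.val : ℂ) * Φ j) * (s / N * (y₀ : ℂ) ^ (-s - 1)) := by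
      rw [Finset.sum_mul]
      refine Finset.sum_congr rfl fun j _ => ?_
      push_cast
      ring
    simp only [mul_add, mul_sub, Finset.sum_add_distrib, Finset.sum_sub_distrib, e1,
      ← Finset.sum_mul, h1, h2, zero_mul, sub_zero, add_zero]
    refine Finset.sum_congr rfl fun j _ => ?_
    rw [cpow_neg, one_div, hy]
    push_cast
    rfl
  rw [e, Finset.sum_mul, Finset.sum_mul]
  refine norm_sum_le_of_le _ fun j _ => ?_
  rw [norm_mul, mul_assoc ‖Φ j‖]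
  exact mul_le_mul_of_nonneg_left
    (step₂ hs (Nat.one_le_cast.2 (Nat.succ_pos n)) (a_mem j)) (norm_nonneg (Φ j))

theorem L_zero {Φ : ZMod N → ℂ} (h0 : Φ 0 = 0) (h1 : ∑ j, Φ j = 0)
    (h2 : ∑ j, (j.val : ℂ) * Φ j = 0) : ZMod.LFunction Φ 0 = 0 := by
  have hN : (N : ℂ) ≠ 0 := NeZero.ne _
  have hsum : Summable fun n : ℕ => (∑ j, ‖Φ j‖) * 9 * ((n + 1 : ℕ) : ℝ) ^ (-3 / 2 : ℝ) :=
    ((summable_nat_add_iff 1).2 (Real.summable_nat_rpow.2 (by norm_num))).mul_left _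
  have hG : DifferentiableOn ℂ (fun s => (N : ℂ) ^ (-s) * (gg Φ 0 s + ∑' n, gg Φ (n + 1) s))
      (Metric.ball (1 : ℂ) (3 / 2)) := by
    refine DifferentiableOn.mul ?_ ((gg_diff h0 0).differentiableOn.add ?_)
    · exact (differentiable_id.neg.const_cpow (.inl hN)).differentiableOn
    · exact differentiableOn_tsum_of_summable_norm hsum
        (fun n => (gg_diff h0 _).differentiableOn) Metric.isOpen_ball
        fun n s hs => gg_bound h1 h2 n hs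
  have hL : DifferentiableOn ℂ (ZMod.LFunction Φ) (Metric.ball (1 : ℂ) (3 / 2)) :=
    (ZMod.differentiable_LFunction_of_sum_zero h1).differentiableOn
  have hev : ZMod.LFunction Φ =ᶠ[𝓝 2]
      fun s => (N : ℂ) ^ (-s) * (gg Φ 0 s + ∑' n, gg Φ (n + 1) s) := by
    have ho : IsOpen {s : ℂ | 1 < s.re} := isOpen_lt continuous_const continuous_re
    filter_upwards [ho.mem_nhds (show 1 < (2 : ℂ).re by norm_num)] with s hs
    have h : HasSum (fun n => gg Φ n s)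
        (∑ j, Φ j * HurwitzZeta.hurwitzZeta (ZMod.toAddCircle j) s) := by
      refine hasSum_sum fun j _ => HasSum.mul_left _ ?_
      rw [ZMod.toAddCircle_apply]
      exact HurwitzZeta.hasSum_hurwitzZeta_of_one_lt_re (a_mem j) hs
    rw [ZMod.LFunction, ← h.tsum_eq, h.summable.tsum_eq_zero_add]
  have key := (hL.analyticOnNhd Metric.isOpen_ball).eqOn_of_preconnected_of_eventuallyEq
    (hG.analyticOnNhd Metric.isOpen_ball) (convex_ball _ _).isPreconnected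
    (z₀ := 2) (by rw [mem_ball_iff_norm]; norm_num) hev
    (x := 0) (by rw [mem_ball_iff_norm]; norm_num)
  have hz : ∀ n, gg Φ n 0 = 0 := fun n => by simp [gg, h1]
  rw [key]
  simp [hz]

end NonvAux

open DirichletCharacter in
theorem nonv : NonvS := by
  intro f _ χ hp ho h
  have h1 : χ ≠ 1 := by
    rintro rfl
    exact ho.not_even _ (MulChar.one_apply isUnit_one.neg)
  have hf : f ≠ 1 := by
    rintro rfl
    exact h1 (level_one χ)
  have h2 : ∑ j : ZMod f, (j.val : ℂ) * χ j = 0 := by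
    rw [← h]
    refine Finset.sum_bij' (fun j _ => j.val) (fun i _ => (i : ZMod f)) ?_ ?_ ?_ ?_ ?_
    · exact fun j _ => Finset.mem_range.2 j.val_lt
    · exact fun _ _ => Finset.mem_univ _
    · exact fun j _ => ZMod.natCast_zmod_val j
    · exact fun i hi => ZMod.val_cast_of_lt (Finset.mem_range.1 hi)
    · exact fun j _ => by rw [ZMod.natCast_zmod_val]
  have h3 : LFunction χ 0 = 0 :=
    NonvAux.L_zero (χ.map_zero' hf) (χ.sum_eq_zero_of_ne_one h1) h2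
  rw [LFunction_eq_completed_div_gammaFactor χ 0 (.inr hf), ho.gammaFactor_def,
    div_eq_zero_iff] at h3
  have h4 := h3.resolve_right (Gammaℝ_ne_zero_of_re_pos (by simp))
  have hp' : χ⁻¹.IsPrimitive := by
    rw [IsPrimitive, conductor_inv]
    exact hp
  have h5 := hp'.completedLFunction_one_sub 0
  rw [inv_inv, h4, mul_zero, sub_zero] at h5
  refine LFunction_apply_one_ne_zero (inv_ne_one.2 h1) ?_
  rw [LFunction_eq_completed_div_gammaFactor χ⁻¹ 1 (.inr hf), h5, zero_div]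

end Pool.Agent.Lib.MP_caab05_ag.GB
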