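import Mathlib
import Pool.Agent.Lib.MP_caab05_ag.GB.All
import Pool.Agent.Lib.MP_caab05_ag.GB.Bet
import Pool.Agent.Lib.MP_caab05_ag.GB.Char
import Pool.Agent.Lib.MP_caab05_ag.GB.CuRel2
import Pool.Agent.Lib.MP_caab05_ag.GB.CuTw2
import Pool.Agent.Lib.MP_caab05_ag.GB.Cyc
import Pool.Agent.Lib.MP_caab05_ag.GB.Final3
import Pool.Agent.Lib.MP_caab05_ag.GB.Gen3
import Pool.Agent.Lib.MP_caab05_ag.GB.Nonv
import Pool.Agent.Lib.MP_caab05_ag.GB.Pair
import Pool.Agent.Lib.MP_caab05_ag.GB.Var2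
import Pool.Agent.Lib.MP_caab05_ag.LT.DetA
import Pool.Agent.Lib.MP_caab05_ag.LT.ElimAff
import Pool.Agent.Lib.MP_caab05_ag.LT.FacBd
import Pool.Agent.Lib.MP_caab05_ag.LT.MainC
import Pool.Agent.Lib.MP_caab05_ag.LT.Norm
import Pool.Agent.Lib.MP_caab05_ag.LT.Per
import Pool.Agent.Lib.MP_caab05_ag.LT.ZeroC

/-! The theorem for all levels, without hypotheses. -/

namespace Pool.Agent.Lib.MP_caab05_ag.GB

theorem mainC' : LT.MainCS :=
  LT.mainC LT.zeroC (LT.elimA (LT.detA LT.per LT.facBd (LT.normS LT.per)))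

theorem curve2' : Curve2S :=
  curve2 mod' ell' cuA (cuTw2 osg pol twc' law' geo' xhol' cuA (cuRel2 rel' law' geo' cuA cuB'))

theorem var2' : Var2S :=
  var2 pol twM' der law' geo' add' xhol' xd' weak sym' riem ell' ideal'

theorem all_levels : Final2S :=
  final3 der ell' shi' aff (charS nonv) curve2' (bet cuA cuB') var2' (gen3 weak) pair cyc2 spanS
    mainC'

end Pool.Agent.Lib.MP_caab05_ag.GB
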