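import Mathlib
import Pool.Agent.Lib.MP_caab05_ag.GB.Stmt5
import Pool.Agent.Lib.MP_caab05_ag.GB.Pair

/-! Explicit pairs of adjacent primitive types for small cyclotomic fields. -/

namespace Pool.Agent.Lib.MP_caab05_ag.GB

namespace Pair2Aux

open PairAux

variable {G : Type} [CommGroup G]

/-- a type with trivial stabiliser whose neighbour has the same property and is not conjugate -/
def Good (c : G) : Prop :=
  ∃ f ∈ Ty c, ∀ σ, (σ ≠ 1 → ¬ ∀ g, f (g * σ) = f g) ∧
    (σ ≠ 1 → ¬ ∀ g, f (g * σ) + dl c (g * σ) = f g + dl c g) ∧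
    ¬ ∀ g, f (g * σ) = f g + dl c g

theorem grp2 {c : G} (hc2 : c * c = 1) (hG : Good c) :
    ∃ T : Fin 2 → Set G, (∀ i g, g ∈ T i ↔ g * c ∉ T i) ∧
      (∀ p q : G × Fin 2, p ≠ q → ∃ σ, p.1 * σ ∈ T p.2 ∧ q.1 * σ ∉ T q.2) ∧
      ∃ a, a ∉ T 0 ∧ T 0 ∪ T 1 = insert a (T 0) := by
  obtain ⟨f, hf, h⟩ := hG
  let F : Fin 2 → G → ZMod 2 := ![f, fun g => f g + dl c g]
  have hF : ∀ i g, F i (g * c) = F i g + 1 := by
    intro i g
    fin_cases i
    · exact hf g
    · simp only [F, Fin.mk_one, Matrix.cons_val_one, Matrix.cons_val_zero, hf g, dl_mul hc2]; ring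
  have z2 : ∀ x : ZMod 2, x = 0 ↔ ¬ x + 1 = 0 := by decide
  refine ⟨fun i => {g | F i g = 0}, fun i g => ?_, ?_, ?_⟩
  · simp only [Set.mem_ofPred_eq, hF]; exact z2 _
  · rintro ⟨g, i⟩ ⟨k, j⟩ hne
    by_contra hn
    push Not at hn
    simp only [Set.mem_ofPred_eq] at hn
    have key : ∀ σ, F j (k * σ) = F i (g * σ) := by
      intro σ
      have a1 := hn σ
      have a2 := hn (σ * c)
      rw [← mul_assoc, ← mul_assoc, hF, hF] at a2
      revert a1 a2
      generalize F j (k * σ) = x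
      generalize F i (g * σ) = y
      revert x y
      decide
    have k1 : ∀ x, F j (x * (k * g⁻¹)) = F i x := fun x => by
      have := key (g⁻¹ * x)
      rw [mul_inv_cancel_left] at this
      rw [← this]; congr 1; rw [mul_comm x, mul_assoc]
    have k2 : ∀ x, F i (x * (g * k⁻¹)) = F j x := fun x => by
      have := key (k⁻¹ * x)
      rw [mul_inv_cancel_left] at this
      rw [this]; congr 1; rw [mul_comm x, mul_assoc]
    have ne : i = j → k * g⁻¹ ≠ 1 := fun e k' => hne (by rw [e, mul_inv_eq_one.1 k'])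
    fin_cases i <;> fin_cases j
    · exact (h _).1 (ne rfl) k1
    · exact (h _).2.2 k2
    · exact (h _).2.2 k1
    · exact (h _).2.1 (ne rfl) k1
  · have z3 : ∀ x : ZMod 2, x = 0 ∨ x = 1 := by decide
    have f1 : f c = f 1 + 1 := by rw [← hf, one_mul]
    have main : ∀ a b : G, ((a = 1 ∧ b = c) ∨ (a = c ∧ b = 1)) → f a = 1 → f b = 0 →
        a ∉ {g | F 0 g = 0} ∧ {g | F 0 g = 0} ∪ {g | F 1 g = 0} = insert a {g | F 0 g = 0} := by
      intro a b hab ha hb
      refine ⟨by simp [F, ha], ?_⟩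
      ext g
      simp only [F, Set.mem_union, Set.mem_ofPred_eq, Set.mem_insert_iff, Matrix.cons_val_one,
        Matrix.cons_val_zero]
      by_cases e1 : g = a
      · have : dl c a = 1 := by rcases hab with ⟨rfl, _⟩ | ⟨rfl, _⟩ <;> simp [dl]
        simp only [e1, ha, this, true_or, iff_true]
        right; rfl
      by_cases e2 : g = b
      · simp [e2, hb]
      have : dl c g = 0 := by rcases hab with ⟨rfl, rfl⟩ | ⟨rfl, rfl⟩ <;> simp [dl, e1, e2]
      simp [e1, this]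
    rcases z3 (f 1) with e | e
    · exact ⟨c, main c 1 (Or.inr ⟨rfl, rfl⟩) (by rw [f1, e, zero_add]) e⟩
    · exact ⟨1, main 1 c (Or.inl ⟨rfl, rfl⟩) e (by rw [f1, e]; rfl)⟩

/-- the indicator of the complement of a list -/
def F (S : List ℕ) (u : ℕ) : ZMod 2 := if u ∈ S then 0 else 1

/-- the indicator of plus and minus one -/
def D (N u : ℕ) : ZMod 2 := if u = 1 ∨ u = N - 1 then 1 else 0

/-- a translate of `a` differs from `b` -/
def Ex (N σ : ℕ) (a b : ℕ → ZMod 2) : Prop := ∃ g < N, Nat.gcd g N = 1 ∧ a (g * σ % N) ≠ b g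

instance (N σ : ℕ) (a b : ℕ → ZMod 2) : Decidable (Ex N σ a b) := by
  unfold Ex
  infer_instance

/-- the finite check -/
def Chk (N : ℕ) (S : List ℕ) : Prop :=
  (∀ g < N, Nat.gcd g N = 1 → F S (g * (N - 1) % N) = F S g + 1) ∧
  ∀ σ < N, Nat.gcd σ N = 1 → (σ ≠ 1 → Ex N σ (F S) (F S)) ∧
    (σ ≠ 1 → Ex N σ (fun g => F S g + D N g) fun g => F S g + D N g) ∧
    Ex N σ (F S) fun g => F S g + D N g

instance (N : ℕ) (S : List ℕ) : Decidable (Chk N S) := by
  unfold Chk
  infer_instance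

theorem good_of_chk {N : ℕ} {S : List ℕ} (h : Chk N S) {c : G} (v : G → ℕ)
    (inj : Function.Injective v) (lt : ∀ g, v g < N) (cop : ∀ g, Nat.gcd (v g) N = 1)
    (mul : ∀ g k, v (g * k) = v g * v k % N) (one : v 1 = 1) (hc : v c = N - 1)
    (surj : ∀ u < N, Nat.gcd u N = 1 → ∃ g, v g = u) : Good c := by
  have hd : ∀ g, dl c g = D N (v g) := fun g => by
    have e : (g = 1 ∨ g = c) ↔ (v g = 1 ∨ v g = N - 1) := by
      rw [← hc, inj.eq_iff, ← inj.eq_iff (b := 1), one]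
    unfold dl D
    by_cases k : g = 1 ∨ g = c
    · rw [if_pos k, if_pos (e.1 k)]
    · rw [if_neg k, if_neg fun k' => k (e.2 k')]
  refine ⟨fun g => F S (v g), fun g => ?_, fun σ => ?_⟩
  · simp only [mul, hc]
    exact h.1 _ (lt g) (cop g)
  · obtain ⟨h1, h2, h3⟩ := h.2 _ (lt σ) (cop σ)
    have ne : σ ≠ 1 → v σ ≠ 1 := fun k k' => k (inj (k'.trans one.symm))
    refine ⟨fun k H => ?_, fun k H => ?_, fun H => ?_⟩
    · obtain ⟨u, a1, a2, a3⟩ := h1 (ne k)
      obtain ⟨g, rfl⟩ := surj u a1 a2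
      exact a3 (by simpa only [mul] using H g)
    · obtain ⟨u, a1, a2, a3⟩ := h2 (ne k)
      obtain ⟨g, rfl⟩ := surj u a1 a2
      exact a3 (by simpa only [hd, mul] using H g)
    · obtain ⟨u, a1, a2, a3⟩ := h3
      obtain ⟨g, rfl⟩ := surj u a1 a2
      exact a3 (by simpa only [hd, mul] using H g)

theorem le_sq (N : ℕ) : N ≤ N.totient ^ 2 * if 2 ∣ N then 2 else 1 := by
  induction N using Nat.recOnPosPrimePosCoprime with
  | zero => simp
  | one => simp
  | prime_pow p k hp hk =>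
    obtain ⟨k, rfl⟩ : ∃ j, k = j + 1 := ⟨k - 1, by omega⟩
    rw [Nat.totient_prime_pow_succ hp]
    have h0 : 1 ≤ p ^ k := Nat.one_le_pow _ _ hp.pos
    by_cases h2 : p = 2
    · subst h2
      rw [if_pos (dvd_pow_self 2 (by omega)), pow_succ 2 k]
      nlinarith
    · have h3 : 3 ≤ p := by have := hp.two_le; omega
      obtain ⟨q, rfl⟩ : ∃ q, p = q + 1 := ⟨p - 1, by omega⟩
      have h4 : (q + 1) ^ (k + 1) ≤ ((q + 1) ^ k * (q + 1 - 1)) ^ 2 := by
        rw [Nat.add_sub_cancel, pow_succ, mul_pow]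
        exact Nat.mul_le_mul (by nlinarith) (by nlinarith)
      refine h4.trans (Nat.le_mul_of_pos_right _ ?_)
      split_ifs <;> norm_num
  | coprime a b _ _ hab ha hb =>
    rw [Nat.totient_mul hab, mul_pow]
    refine (Nat.mul_le_mul ha hb).trans ?_
    rw [mul_mul_mul_comm]
    refine Nat.mul_le_mul_left _ ?_
    by_cases h1 : 2 ∣ a
    · have h2 : ¬ 2 ∣ b := fun h2 => by
        have := Nat.eq_one_of_dvd_coprimes hab h1 h2
        omega
      rw [if_pos h1, if_neg h2, if_pos (h1.mul_right b), mul_one]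
    · by_cases h2 : 2 ∣ b
      · rw [if_neg h1, if_pos h2, if_pos (h2.mul_left a), one_mul]
      · rw [if_neg h1, if_neg h2]
        split_ifs <;> norm_num

theorem small : ∀ n < 442, 10 ≤ (2 * n).totient → (2 * n).totient ≤ 21 →
    2 * n ∈ [22, 26, 28, 32, 34, 36, 38, 40, 42, 44, 48, 50, 54, 60, 66] := by
  decide +kernel

theorem exists_chk {n : ℕ} (h1 : 10 ≤ (2 * n).totient) (h2 : (2 * n).totient ≤ 21) :
    ∃ S, Chk (2 * n) S := by
  have h3 := le_sq (2 * n)
  rw [if_pos (dvd_mul_right 2 n)] at h3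
  have h4 := small n (by nlinarith) h1 h2
  simp only [List.mem_cons, List.not_mem_nil, or_false] at h4
  rcases h4 with h | h | h | h | h | h | h | h | h | h | h | h | h | h | h <;> rw [h]
  · exact ⟨[1, 3, 5, 7, 9], by decide +kernel⟩
  · exact ⟨[1, 3, 5, 7, 9, 11], by decide +kernel⟩
  · exact ⟨[1, 3, 5, 9, 13, 17], by decide +kernel⟩
  · exact ⟨[1, 3, 5, 7, 9, 11, 15, 19], by decide +kernel⟩
  · exact ⟨[1, 3, 5, 7, 9, 11, 13, 15], by decide +kernel⟩
  · exact ⟨[1, 5, 7, 11, 17, 23], by decide +kernel⟩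
  · exact ⟨[1, 3, 5, 7, 9, 11, 13, 15, 17], by decide +kernel⟩
  · exact ⟨[1, 3, 7, 9, 11, 13, 19, 23], by decide +kernel⟩
  · exact ⟨[1, 5, 11, 13, 17, 19], by decide +kernel⟩
  · exact ⟨[1, 3, 5, 7, 9, 13, 15, 17, 21, 25], by decide +kernel⟩
  · exact ⟨[1, 5, 7, 11, 13, 17, 23, 29], by decide +kernel⟩
  · exact ⟨[1, 3, 7, 9, 11, 13, 17, 19, 21, 23], by decide +kernel⟩
  · exact ⟨[1, 5, 7, 11, 13, 17, 19, 23, 25], by decide +kernel⟩
  · exact ⟨[1, 7, 11, 13, 17, 19, 29, 37], by decide +kernel⟩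
  · exact ⟨[1, 5, 7, 13, 17, 19, 23, 25, 29, 31], by decide +kernel⟩

end Pair2Aux

open PairAux Pair2Aux NumberField in
theorem pair2 : Pair2S := by
  intro n L _ _ _ c hcj hc hn0 hfr htr hcm
  by_cases h22 : 22 ≤ (2 * n).totient
  · exact pair L c hcj hc (hfr ▸ h22) htr hcm
  have hn : 10 ≤ Module.finrank ℚ L := hfr ▸ hn0
  let _ : CommGroup (L ≃ₐ[ℚ] L) := { (inferInstance : Group (L ≃ₐ[ℚ] L)) with mul_comm := hcm }
  have hgood : Emb L → Good c := fun φ0 => by
    obtain ⟨S, hS⟩ := exists_chk hn0 (by omega)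
    have h1 : 1 < 2 * n := by
      have := (2 * n).totient_le
      omega
    have : NeZero (2 * n) := ⟨by omega⟩
    have : Fact (1 < 2 * n) := ⟨h1⟩
    let e := IsCyclotomicExtension.Rat.galEquivZMod (2 * n) L
    have hζ := IsCyclotomicExtension.zeta_spec (2 * n) ℚ L
    refine good_of_chk hS (fun g => (e g).val.val)
      (fun g k h => e.injective (Units.ext (ZMod.val_injective _ h)))
      (fun g => ZMod.val_lt _) (fun g => ZMod.val_coe_unit_coprime _) (fun g k => ?_) ?_ ?_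
      fun u hu hcop => ⟨e.symm (ZMod.unitOfCoprime u hcop), ?_⟩
    · simp only [map_mul, Units.val_mul, ZMod.val_mul]
    · simp only [map_one, Units.val_one, ZMod.val_one]
    · refine hζ.pow_inj (ZMod.val_lt _) (by omega) ?_
      rw [← IsCyclotomicExtension.Rat.galEquivZMod_apply_of_pow_eq (2 * n) L c hζ.pow_eq_one]
      set ζ := IsCyclotomicExtension.zeta (2 * n) ℚ L
      have h2 : φ0 ζ ^ (2 * n) = 1 := by rw [← map_pow, hζ.pow_eq_one, map_one]
      have h3 : ‖φ0 ζ‖ = 1 := Complex.norm_eq_one_of_pow_eq_one h2 (by omega)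
      refine φ0.injective ?_
      rw [hcj, map_pow, ← Complex.inv_eq_conj h3]
      refine inv_eq_of_mul_eq_one_right ?_
      rw [← pow_succ', ← h2]
      congr 1
      omega
    · simp only [MulEquiv.apply_symm_apply, ZMod.coe_unitOfCoprime, ZMod.val_natCast,
        Nat.mod_eq_of_lt hu]
  classical
  have hcard : Fintype.card (Emb L) = Module.finrank ℚ L := Embeddings.card L ℂ
  obtain ⟨φ0⟩ : Nonempty (Emb L) := Fintype.card_pos_iff.1 (by omega)
  let ι : (L ≃ₐ[ℚ] L) → Emb L := fun σ => φ0.comp (σ : L →+* L)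
  have ιinj : Function.Injective ι := fun σ τ h =>
    AlgEquiv.ext fun x => φ0.injective (RingHom.congr_fun h x)
  have ιsurj : Function.Surjective ι := fun ψ => (htr φ0 ψ).imp fun _ h => h.symm
  have ιmul : ∀ σ τ : L ≃ₐ[ℚ] L, (ι σ).comp (τ : L →+* L) = ι (σ * τ) := fun _ _ => rfl
  have ιcj : ∀ σ, cj (ι σ) = ι (σ * c) := fun σ => RingHom.ext fun x => (hcj (ι σ) x).symm
  have hc2 : c * c = 1 := AlgEquiv.ext fun x => φ0.injective (by
    rw [AlgEquiv.mul_apply, hcj, hcj]; simp)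
  have hG : Nat.card (L ≃ₐ[ℚ] L) = Module.finrank ℚ L := by
    rw [Nat.card_eq_of_bijective ι ⟨ιinj, ιsurj⟩, Nat.card_eq_fintype_card, hcard]
  obtain ⟨T, h1, h2, a, h3, h4⟩ := grp2 hc2 (hgood φ0)
  have mem : ∀ i σ, ι σ ∈ ι '' T i ↔ σ ∈ T i := fun i σ => ιinj.mem_set_image
  have half : ∀ i, 2 * (ι '' T i).ncard = Module.finrank ℚ L := fun i => by
    rw [Set.ncard_image_of_injective _ ιinj, card_half hc2 (h1 i), hG]
  let P : Set (Emb L × Fin 2) := {p | p.1 ∈ ι '' T p.2}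
  have hP : Nat.card P = Module.finrank ℚ L := by
    have e : P = (fun φ => (φ, 0)) '' (ι '' T 0) ∪ (fun φ => (φ, 1)) '' (ι '' T 1) := by
      ext ⟨φ, i⟩
      fin_cases i <;> simp [P]
    rw [Nat.card_coe_set_eq, e, Set.ncard_union_eq, Set.ncard_image_of_injective,
      Set.ncard_image_of_injective (f := fun φ : Emb L => (φ, (1 : Fin 2)))]
    · have := half 0
      have := half 1
      omega
    · exact fun _ _ h => congrArg Prod.fst h
    · exact fun _ _ h => congrArg Prod.fst h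
    · rw [Set.disjoint_left]
      rintro _ ⟨x, _, rfl⟩ ⟨y, _, e⟩
      simp at e
  let E := (Finite.equivFinOfCardEq hP).symm
  have hr : Set.range (fun k => (E k).1) = P := by
    rw [show (fun k => (E k).1) = Subtype.val ∘ E from rfl, Set.range_comp, E.surjective.range_eq,
      Set.image_univ, Subtype.range_coe]
  refine ⟨fun i => ι '' T i, fun k => (E k).1, fun i φ => ?_,
    Subtype.val_injective.comp E.injective, hr, ?_, ?_⟩
  · obtain ⟨σ, rfl⟩ := ιsurj φ
    rw [ιcj, mem, mem]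
    exact h1 i σ
  · rintro ⟨φ, i⟩ ⟨ψ, j⟩ hne
    obtain ⟨σ, rfl⟩ := ιsurj φ
    obtain ⟨τ, rfl⟩ := ιsurj ψ
    obtain ⟨ρ, k1, k2⟩ := h2 (σ, i) (τ, j) fun k => hne (by
      rw [Prod.mk.injEq] at k; rw [k.1, k.2])
    exact ⟨ρ, (mem i _).2 k1, fun k => k2 ((mem j _).1 k)⟩
  · have e : (Set.range fun k => (E k).1.1) = ι '' (T 0 ∪ T 1) := by
      rw [show (fun k => (E k).1.1) = Prod.fst ∘ fun k => (E k).1 from rfl, Set.range_comp, hr,
        Set.image_union]
      ext φ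
      constructor
      · rintro ⟨⟨ψ, i⟩, hp, rfl⟩
        fin_cases i
        · exact Or.inl hp
        · exact Or.inr hp
      · rintro (hp | hp)
        · exact ⟨(φ, 0), hp, rfl⟩
        · exact ⟨(φ, 1), hp, rfl⟩
    rw [e, h4, Set.ncard_image_of_injective _ ιinj, Set.ncard_insert_of_notMem h3]
    have := card_half hc2 (h1 0)
    omega

end Pool.Agent.Lib.MP_caab05_ag.GB
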