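import Mathlib
import Pool.Agent.Lib.MP_caab05_ag.GB.Levels
import Pool.Agent.Lib.MP_caab05_ag.GB.Final4
import Pool.Agent.Lib.MP_caab05_ag.GB.Pair2
import Pool.Agent.Lib.MP_caab05_ag.LT.MainQ

/-! The improved bound for all levels, without hypotheses. -/

namespace Pool.Agent.Lib.MP_caab05_ag.GB

theorem all_levels2 : Final4S :=
  final4 der ell' shi' aff (charS nonv) curve2' (bet cuA cuB') var2' (gen3 weak) pair2 cyc2 spanS
    LT.mainQ

end Pool.Agent.Lib.MP_caab05_ag.GB
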