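import Mathlib
import Pool.Agent.Lib.MP_caab05_ag.GB.Stmt2
import Pool.Agent.Lib.MP_caab05_ag.LT.Main

/-! The final assembly. -/

namespace Pool.Agent.Lib.MP_caab05_ag.GB

open Complex

namespace FinalAux

noncomputable def ofR : ℝ →ₐ[ℚ] ℂ := Complex.ofRealHom.toRatAlgHom

theorem exists_field (S : Set ℝ) : ∃ F₀ F : IntermediateField ℚ ℂ,
    (∀ b ∈ S, (b : ℂ) ∈ F₀) ∧ (∀ x : ℂ, IsAlgebraic F₀ x → x ∈ F) ∧
      Algebra.trdeg ℚ F = Algebra.trdeg ℚ (IntermediateField.adjoin ℚ S) := by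
  let F₀ := (IntermediateField.adjoin ℚ S).map ofR
  refine ⟨F₀, (algebraicClosure F₀ ℂ).restrictScalars ℚ, fun b hb => ?_, fun x hx => ?_, ?_⟩
  · exact ⟨b, IntermediateField.subset_adjoin ℚ S hb, rfl⟩
  · exact mem_algebraicClosure_iff.2 hx
  · have h1 := trdeg_add_eq ℚ F₀ (A := algebraicClosure F₀ ℂ)
    rw [trdeg_eq_zero (R := F₀) (A := algebraicClosure F₀ ℂ), add_zero] at h1
    exact h1.symm.trans ((IntermediateField.adjoin ℚ S).equivMap ofR).trdeg_eq.symm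

theorem D_div (D : Der) {a b l : ℂ} (hb : b ≠ 0) (h1 : D a = l * a) (h2 : D b = l * b) :
    D (a / b) = 0 := by
  have h3 := D.leibniz (a / b) b
  rw [div_mul_cancel₀ _ hb, h1, h2, smul_eq_mul, smul_eq_mul] at h3
  have h4 : a / b * (l * b) = l * a := by field_simp
  rw [h4] at h3
  have h5 : b * D (a / b) = 0 := by linear_combination -h3
  exact (mul_eq_zero.1 h5).resolve_left hb

theorem arith {h n : ℕ} {t : Cardinal} (hh : 0 < h) (hn : n ≤ h + 1)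
    (H : ((2 * h * (2 * h - n) : ℕ) : Cardinal) ≤
      ((2 * h * (2 * n + 2 - 2 * h) : ℕ) : Cardinal) * t) :
    ((8 * h : ℕ) : Cardinal) ≤ 32 * t + 8 := by
  rcases lt_or_ge t Cardinal.aleph0 with ht | ht
  · obtain ⟨m, rfl⟩ := Cardinal.lt_aleph0.1 ht
    have H' : 2 * h * (2 * h - n) ≤ 2 * h * (2 * n + 2 - 2 * h) * m := by exact_mod_cast H
    rw [mul_assoc (2 * h)] at H'
    have h1 := Nat.le_of_mul_le_mul_left H' (by omega)
    have h2 : (2 * n + 2 - 2 * h) * m ≤ 4 * m := Nat.mul_le_mul_right m (by omega)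
    have h3 : 8 * h ≤ 32 * m + 8 := by omega
    exact_mod_cast h3
  · refine (Cardinal.natCast_lt_aleph0.le.trans ht).trans (le_trans ?_ le_self_add)
    exact Cardinal.le_mul_left (by norm_num)

end FinalAux

open FinalAux

theorem final (h3 : DerS) (h4 : EllS) (h5 : ShiS) (h6 : AffS) (h7 : SqS) (h8 : CurveS)
    (h9 : VarS) (h10 : SimS) (h11 : CycS) (h12 : SpanS) : FinalS := by
  intro r
  rcases lt_or_ge r 4 with hr | hr
  · refine le_trans ?_ le_add_self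
    have : 2 ^ r ≤ 2 ^ 3 := Nat.pow_le_pow_right (by norm_num) (by omega)
    exact_mod_cast this
  obtain ⟨F₀, F, hS, hF, htr⟩ := exists_field {b : ℝ | ∃ t : ℕ, Odd t ∧ 2 * t < 2 ^ r ∧
      b = ∫ x in (0 : ℝ)..1, x ^ (t - 1) / √(1 - x ^ 2 ^ r)}
  rw [← htr]
  let L : Type := CyclotomicField (2 ^ r) ℚ
  have : IsCyclotomicExtension {2 ^ r} ℚ L := CyclotomicField.isCyclotomicExtension _ _
  have hζ := IsCyclotomicExtension.zeta_spec (2 ^ r) ℚ L
  set ζ := IsCyclotomicExtension.zeta (2 ^ r) ℚ L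
  obtain ⟨hrk, ⟨c, hc⟩, htrans, hcomm, hli, Φ, e, hΦ, he, hrange, hprim, hpair, hcard⟩ :=
    h11 r L ζ hr hζ
  obtain ⟨M, A, ω, 𝔪, hω, h𝔪, hΛ, hD⟩ := h9 L c Φ _ e hc hΦ he hrange
  have hA := h10 L Φ _ M e A ω 𝔪 hΦ he hrange hω hΛ htrans hcomm hprim
  have hd : 2 ^ (r - 2) = 2 * 2 ^ (r - 3) := by
    rw [show r - 2 = r - 3 + 1 by omega, pow_succ, mul_comm]
  have hd' : 2 ^ r = 8 * 2 ^ (r - 3) := by
    conv_lhs => rw [show r = r - 3 + 3 by omega, pow_add]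
    ring
  have hh : 2 ≤ 2 ^ (r - 3) := by
    calc 2 = 2 ^ 1 := by norm_num
      _ ≤ _ := Nat.pow_le_pow_right (by norm_num) (by omega)
  have key : ∀ D : Der, (∀ y ∈ F₀, D y = 0) → ∀ φ φ' : Emb L, φ' ζ = -φ ζ →
      elt D Φ φ' = elt D Φ φ := by
    intro D hD0 φ φ' hφ
    obtain ⟨q, q1, q2, q3⟩ := h6 L c (elt D) hc (by omega) (h5 L c D hc)
      (fun Ψ σ ψ => h4.eqv L Ψ D σ ψ) (fun Ψ hΨ ψ => h4.odd L Ψ D hΨ ψ)
    obtain ⟨c1, c2⟩ := h8 r L c ζ D (by omega) hc hζ fun t ht ht' =>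
      hD0 _ (hS _ ⟨t, ht, ht', rfl⟩)
    have h := h7 r L ζ q hr hζ q1 q2 (fun ψ => by rw [← q3 _ c1, c2]) φ φ'
    rw [q3 Φ hΦ, q3 Φ hΦ, show q φ' = q φ from funext fun ψ => h ψ hφ]
  choose n hn0 hn using fun i : Fin (2 ^ (r - 2)) => h𝔪 (ζ ^ (2 * (i : ℕ)))
  have hy : ∀ (i : Fin (2 ^ (r - 2))) k, (n i : ℂ) * e k (ζ ^ 2) ^ (i : ℕ) * ω k =
      e k (n i • ζ ^ (2 * (i : ℕ))) * ω k := fun i k => by
    simp [pow_mul]
  obtain ⟨s1, s2⟩ := h12 (2 ^ (r - 2)) (2 ^ (r - 2)) (fun k => e k (ζ ^ 2)) ω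
    (fun i => (n i : ℂ)) F
    (fun k => hF _ (((Algebra.IsAlgebraic.isAlgebraic (R := ℚ) (ζ ^ 2)).algHom
      (e k).toRatAlgHom).tower_top F₀))
    hω (fun k k' hk => by
      refine hF _ (h3 F₀ _ fun D hD0 => ?_)
      rcases hpair k k' hk with rfl | h
      · exact D_div D (hω k) (hD D k) (hD D k)
      · exact D_div D (hω k') (hD D k) (key D hD0 _ _ h ▸ hD D k'))
    (fun i => Int.cast_ne_zero.2 (hn0 i)) (by omega)
  have hm := LT.main A hA (y := fun (i : Fin (2 ^ (r - 2))) k =>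
      (n i : ℂ) * e k (ζ ^ 2) ^ (i : ℕ) * ω k)
    (fun i => (hΛ _).2 ⟨_, hn i, funext (hy i)⟩) (by
      rw [Fintype.linearIndependent_iff]
      intro g hg i
      have k : Fin (2 ^ (r - 2)) := i
      have h1 := congrFun hg k
      simp only [Finset.sum_apply, Pi.smul_apply, hy, Pi.zero_apply] at h1
      have h2 : e k (∑ j, (g j * n j) • ζ ^ (2 * (j : ℕ))) * ω k = 0 := by
        rw [← h1, map_sum, Finset.sum_mul]
        refine Finset.sum_congr rfl fun j _ => ?_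
        simp only [zsmul_eq_mul, map_mul, map_intCast, Int.cast_mul]
        ring
      have h3 := (map_eq_zero (e k)).1 ((mul_eq_zero.1 h2).resolve_right (hω k))
      exact (mul_eq_zero.1 (Fintype.linearIndependent_iff.1 hli _ h3 i)).resolve_right (hn0 i))
    s1 F s2
  generalize (Finset.univ.image fun k => e k (ζ ^ 2)).card = m at hm hcard
  rw [hd] at hm
  rw [hd']
  exact arith (by omega) hcard hm

end Pool.Agent.Lib.MP_caab05_ag.GB
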