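import Mathlib
import Pool.Agent.Lib.MP_caab05_ag.GB.Stmt

/-! The theta functions of level four embed the torus. -/

namespace Pool.Agent.Lib.MP_caab05_ag.GB

open MvPolynomial Filter Topology Asymptotics Complex Matrix

namespace GeoAux

variable {g : ℕ}

theorem prod_zero (h0 : OsgS) {f k : V g → ℂ} (hf : Differentiable ℂ f) (hk : Differentiable ℂ k)
    (h : ∀ v, f v * k v = 0) {p : V g} (hp : f p ≠ 0) (v : V g) : k v = 0 := by
  have h1 : AnalyticOnNhd ℂ k Set.univ := h0 _ _ k Set.univ isOpen_univ hk.differentiableOn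
  have h2 : k =ᶠ[𝓝 p] 0 := by
    filter_upwards [hf.continuous.continuousAt.eventually_ne hp] with x hx
    exact (mul_eq_zero.1 (h x)).resolve_left hx
  exact h1.eqOn_zero_of_preconnected_of_eventuallyEq_zero isPreconnected_univ (Set.mem_univ p) h2
    (Set.mem_univ v)

theorem line {F : Type} [NormedAddCommGroup F] [NormedSpace ℂ F] {θ : V g → F}
    (hθ : Differentiable ℂ θ) (x w : V g) :
    HasDerivAt (fun t : ℂ => θ (x + t • w)) (fderiv ℂ θ x w) 0 := by
  have h1 : HasDerivAt (fun t : ℂ => x + t • w) w 0 := by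
    simpa using ((hasDerivAt_id (0 : ℂ)).smul_const w).const_add x
  have h2 : HasFDerivAt θ (fderiv ℂ θ x) (x + (0 : ℂ) • w) := by
    simpa using (hθ x).hasFDerivAt
  exact h2.comp_hasDerivAt (0 : ℂ) h1

theorem ratio_diff {ι : Type} [Fintype ι] {F θ : V g → ι → ℂ} {G : V g → ℂ}
    (hF : Differentiable ℂ F) (hθ : Differentiable ℂ θ) (hne : ∀ x, θ x ≠ 0)
    (h : ∀ x, F x = G x • θ x) : Differentiable ℂ G := by
  intro x
  obtain ⟨a, ha⟩ := Function.ne_iff.1 (hne x)
  have ha' : θ x a ≠ 0 := ha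
  have h1 : Differentiable ℂ fun y => F y a := differentiable_pi.1 hF a
  have h2 : Differentiable ℂ fun y => θ y a := differentiable_pi.1 hθ a
  refine ((h1 x).mul ((h2 x).inv ha')).congr_of_eventuallyEq ?_
  filter_upwards [h2.continuous.continuousAt.eventually_ne ha'] with y hy
  simp only [Pi.mul_apply, Pi.inv_apply, h y, Pi.smul_apply, smul_eq_mul]
  field_simp

theorem half_add (x y : V g) : (1 / 2 : ℂ) • (x + y) + (1 / 2 : ℂ) • (x - y) = x := by
  ext i; simp only [Pi.add_apply, Pi.smul_apply, Pi.sub_apply, smul_eq_mul]; ring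

theorem half_sub (x y : V g) : (1 / 2 : ℂ) • (x + y) - (1 / 2 : ℂ) • (x - y) = y := by
  ext i; simp only [Pi.add_apply, Pi.smul_apply, Pi.sub_apply, smul_eq_mul]; ring

theorem half_two (x : V g) : (1 / 2 : ℂ) • x + (1 / 2 : ℂ) • x = x := by
  ext i; simp only [Pi.add_apply, Pi.smul_apply, smul_eq_mul]; ring

theorem mul_exp {G : V g → ℂ} (hG : Differentiable ℂ G) (h0 : G 0 ≠ 0)
    (h : ∀ x v, G (x + v) * G (x - v) = G x ^ 2) :
    ∃ l : V g →L[ℂ] ℂ, ∀ x, G x = G 0 * cexp (l x) := by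
  have key : ∀ x y, G (x + y) = G x * G y / G 0 := by
    intro x y
    have h1 := h ((1 / 2 : ℂ) • (x + y)) ((1 / 2 : ℂ) • (x - y))
    have h2 := h ((1 / 2 : ℂ) • (x + y)) ((1 / 2 : ℂ) • (x + y))
    rw [half_add, half_sub] at h1
    rw [half_two, sub_self] at h2
    rw [eq_div_iff h0, h1, h2]
  refine ⟨(G 0)⁻¹ • fderiv ℂ G 0, ?_⟩
  generalize hl : (G 0)⁻¹ • fderiv ℂ G 0 = l
  have hd : ∀ y w, fderiv ℂ G y w = G y * l w := by
    intro y w
    have h1 := line hG y w
    have h2 := ((line hG 0 w).const_mul (G y)).div_const (G 0)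
    simp only [zero_add, ← key] at h2
    rw [h1.unique h2, ← hl]
    simp only [_root_.smul_apply, smul_eq_mul]
    ring
  have hc : ∀ x, HasFDerivAt (fun y => G y * cexp (-l y)) (0 : V g →L[ℂ] ℂ) x := by
    intro x
    have h1 := (hG x).hasFDerivAt.mul (l.hasFDerivAt (x := x)).neg.cexp
    refine h1.congr_fderiv ?_
    ext1 w
    simp only [_root_.add_apply, _root_.smul_apply,
      _root_.neg_apply, hd, smul_eq_mul, _root_.zero_apply, Pi.neg_apply]
    ring
  intro x
  have h1 := is_const_of_fderiv_eq_zero (𝕜 := ℂ) (fun y => (hc y).differentiableAt)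
    (fun y => (hc y).fderiv) x 0
  simp only [map_zero, neg_zero, Complex.exp_zero, mul_one] at h1
  rw [← h1, mul_assoc, ← Complex.exp_add, neg_add_cancel, Complex.exp_zero, mul_one]

theorem add_lin {G : V g → ℂ} (hG : Differentiable ℂ G)
    (h : ∀ x v, G (x + v) + G (x - v) = 2 * G x) :
    ∃ l : V g →L[ℂ] ℂ, ∀ x, G x = G 0 + l x := by
  have key : ∀ x y, G (x + y) = G x + G y - G 0 := by
    intro x y
    have h1 := h ((1 / 2 : ℂ) • (x + y)) ((1 / 2 : ℂ) • (x - y))
    have h2 := h ((1 / 2 : ℂ) • (x + y)) ((1 / 2 : ℂ) • (x + y))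
    rw [half_add, half_sub] at h1
    rw [half_two, sub_self] at h2
    rw [h1, ← h2]
    ring
  refine ⟨fderiv ℂ G 0, ?_⟩
  generalize hl : fderiv ℂ G 0 = l
  have hd : ∀ y w, fderiv ℂ G y w = l w := by
    intro y w
    have h1 := line hG y w
    have h2 := ((line hG 0 w).const_add (G y)).sub_const (G 0)
    simp only [zero_add, ← key] at h2
    rw [h1.unique h2, hl]
  have hc : ∀ x, HasFDerivAt (fun y => G y - l y) (0 : V g →L[ℂ] ℂ) x := by
    intro x
    have h1 := (hG x).hasFDerivAt.sub (l.hasFDerivAt (x := x))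
    refine h1.congr_fderiv ?_
    ext1 w
    simp only [_root_.sub_apply, hd, _root_.zero_apply, sub_self]
  intro x
  have h1 := is_const_of_fderiv_eq_zero (𝕜 := ℂ) (fun y => (hc y).differentiableAt)
    (fun y => (hc y).fderiv) x 0
  simp only [map_zero, sub_zero] at h1
  rw [← h1]
  ring

theorem HH_smul (p : Zg g) (c : ℂ) (X : Ix g → ℂ) : HH p (c • X) = c • HH p X := by
  ext a
  simp only [HH, Pi.smul_apply, smul_eq_mul]
  ring

theorem cancel (h2 : LawS) (p : Zg g) {X : Ix g → ℂ} (hX : X ≠ 0) {a b : ℂ}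
    (h : a • HH p X = b • HH p X) : a = b := by
  refine smul_left_injective ℂ (fun h1 => hX (h2.HH_inj g p X 0 ?_)) h
  rw [h1]
  ext a
  simp only [HH, Pi.zero_apply, mul_zero]

theorem ee_add (τ : Mat g) (p : Zg g) (x y : V g) :
    ee τ p (x + y) = ee τ p x * cexp (-(2 * Real.pi * I) * (lft (cst p) ⬝ᵥ y)) := by
  simp only [ee, ← Complex.exp_add, ← mul_add, dotProduct, ← Finset.sum_add_distrib, lft, cst,
    Pi.add_apply]
  congr 2
  exact Finset.sum_congr rfl fun j _ => by ring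

theorem ee_ne (τ : Mat g) (p : Zg g) (x : V g) : ee τ p x ≠ 0 := Complex.exp_ne_zero _

/-- the lattice vector `(e_j, 0)` -/
def pL (j : Fin g) : Zg g := Sum.elim (Pi.single j 1) 0

/-- the lattice vector `(0, e_j)` -/
def pR (j : Fin g) : Zg g := Sum.elim 0 (Pi.single j 1)

theorem lft_pL (j : Fin g) : lft (cst (pL j)) = Pi.single j 1 := by
  ext i
  by_cases h : i = j <;> simp [lft, cst, pL, h]

theorem rgt_pL (j : Fin g) : rgt (cst (pL j)) = 0 := by
  ext i
  simp [rgt, cst, pL]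

theorem lft_pR (j : Fin g) : lft (cst (pR j)) = 0 := by
  ext i
  simp [lft, cst, pR]

theorem rgt_pR (j : Fin g) : rgt (cst (pR j)) = Pi.single j 1 := by
  ext i
  by_cases h : i = j <;> simp [rgt, cst, pR, h]

theorem tor_pR (τ : Mat g) (j : Fin g) : tor τ (pR j) = (1 / 4 : ℂ) • Pi.single j 1 := by
  simp [tor, per, app, lft_pR, rgt_pR]

theorem tor_pL (τ : Mat g) (j : Fin g) : tor τ (pL j) = (1 / 4 : ℂ) • fun i => τ i j := by
  simp only [tor, per, app, lft_pL, rgt_pL, add_zero]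
  congr 1
  ext i
  simp

theorem lin_sum (l : V g →L[ℂ] ℂ) (x : V g) : l x = ∑ j, x j * l (Pi.single j 1) := by
  conv_lhs => rw [pi_eq_sum_univ' x]
  simp only [map_sum, map_smul, smul_eq_mul]

theorem nz (h0 : OsgS) (h1 : PolS) (h2 : LawS) (h3 : UniqS) (h4 : AddS) {τ : Mat g} (hτ : Sg τ)
    (u : V g) : th τ u ≠ 0 := by
  intro hu
  obtain ⟨B, hB⟩ := h4 g τ hτ
  have hθ : Differentiable ℂ fun x => th τ x 0 := differentiable_pi.1 (h2.holu g τ hτ).1 0
  obtain ⟨x, hx⟩ := h3.ne g τ hτ 0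
  have hf : Differentiable ℂ fun v => th τ (u + v) 0 := hθ.comp (by fun_prop)
  have hk : Differentiable ℂ fun v => th τ (u - v) 0 := hθ.comp (by fun_prop)
  have h5 : ∀ v, th τ (u + v) 0 * th τ (u - v) 0 = 0 := by
    intro v
    have h6 := h1.bih_eval _ _ _ _ _ (hB.bih 0 0) 0 1 0 (th τ v)
    rw [hB.add, hu]
    simpa using h6
  have h6 := prod_zero h0 hf hk h5 (p := x - u) (by simpa using hx) (u - x)
  exact hx (by simpa using h6)

theorem inj_step (h1 : PolS) {τ : Mat g} {B : Ix g → Ix g → MvPolynomial (Ix g ⊕ Ix g) ℂ}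
    (hB : AddF τ B) {x lam : V g} {c : ℂ} (h : th τ (x + lam) = c • th τ x) (v : V g)
    (a b : Ix g) : th τ (x + v + lam) a * th τ (x - v + lam) b =
      c ^ 2 * (th τ (x + v) a * th τ (x - v) b) := by
  have h6 := h1.bih_eval _ _ _ _ _ (hB.bih a b) c 1 (th τ x) (th τ v)
  rw [one_smul, one_pow, mul_one, ← h, ← hB.add, ← hB.add] at h6
  rw [add_right_comm x v lam, sub_add_eq_add_sub, h6]

theorem inj (h0 : OsgS) (h1 : PolS) (h2 : LawS) (h3 : UniqS) (h4 : AddS) {τ : Mat g} (hτ : Sg τ)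
    (u w : V g) (c : ℂ) (h : th τ u = c • th τ w) : ∃ p, u - w = per τ (cst p) := by
  obtain ⟨B, hB⟩ := h4 g τ hτ
  have hnz := nz h0 h1 h2 h3 h4 hτ
  have hθ := (h2.holu g τ hτ).1
  generalize hlam : u - w = lam
  have h' : th τ (w + lam) = c • th τ w := by rw [← hlam, add_sub_cancel, h]
  have hex : ∀ x, ∃ k : ℂ, th τ (x + lam) = k • th τ x := by
    intro x
    obtain ⟨b, hb⟩ := Function.ne_iff.1 (hnz (w - (x - w) + lam))
    have hb' : th τ (w - (x - w) + lam) b ≠ 0 := hb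
    refine ⟨c ^ 2 * th τ (w - (x - w)) b / th τ (w - (x - w) + lam) b, funext fun a => ?_⟩
    have h5 := inj_step h1 hB h' (x - w) a b
    rw [add_sub_cancel] at h5
    simp only [Pi.smul_apply, smul_eq_mul]
    field_simp
    linear_combination h5
  choose G hG using hex
  have hGd : Differentiable ℂ G :=
    ratio_diff (F := fun x => th τ (x + lam)) (hθ.comp (by fun_prop)) hθ hnz hG
  have hG0 : G 0 ≠ 0 := fun h5 => hnz (0 + lam) (by rw [hG, h5, zero_smul])
  obtain ⟨l, hl⟩ := mul_exp hGd hG0 fun x v => by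
    obtain ⟨a, ha⟩ := Function.ne_iff.1 (hnz (x + v))
    obtain ⟨b, hb⟩ := Function.ne_iff.1 (hnz (x - v))
    have ha' : th τ (x + v) a ≠ 0 := ha
    have hb' : th τ (x - v) b ≠ 0 := hb
    have h5 := inj_step h1 hB (hG x) v a b
    rw [hG, hG] at h5
    simp only [Pi.smul_apply, smul_eq_mul] at h5
    refine mul_right_cancel₀ (mul_ne_zero ha' hb') ?_
    linear_combination h5
  have key : ∀ p, ∃ n : ℤ, l (tor τ p) =
      -(2 * Real.pi * I) * (lft (cst p) ⬝ᵥ lam) + n * (2 * Real.pi * I) := by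
    intro p
    have h5 := h2.law g τ hτ p (0 + lam)
    rw [add_right_comm, hG, hG, h2.law g τ hτ, HH_smul, smul_smul, smul_smul] at h5
    have h6 := cancel h2 p (hnz 0) h5
    rw [ee_add, zero_add, hl] at h6
    refine Complex.exp_eq_exp_iff_exists_int.1 ?_
    refine mul_left_cancel₀ (mul_ne_zero hG0 (ee_ne τ p 0)) ?_
    linear_combination h6
  choose n hn using key
  have hpi : (2 * Real.pi * I : ℂ) ≠ 0 := Complex.two_pi_I_ne_zero
  have hk : ∀ j, l (Pi.single j 1) = 4 * n (pR j) * (2 * Real.pi * I) := by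
    intro j
    have h5 := hn (pR j)
    rw [tor_pR, lft_pR, map_smul, zero_dotProduct, smul_eq_mul] at h5
    linear_combination 4 * h5
  refine ⟨Sum.elim (fun j => -n (pR j)) fun j => n (pL j), funext fun j => ?_⟩
  have h5 := hn (pL j)
  rw [tor_pL, lft_pL, map_smul, single_dotProduct, smul_eq_mul, lin_sum] at h5
  simp only [hk] at h5
  have h6 : ∑ i, τ i j * (4 * n (pR i) * (2 * Real.pi * I)) =
      -(4 * (2 * Real.pi * I)) * ∑ i, τ j i * ((-n (pR i) : ℤ) : ℂ) := by
    rw [Finset.mul_sum]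
    refine Finset.sum_congr rfl fun i _ => ?_
    rw [hτ.1 i j]
    push_cast
    ring
  rw [h6] at h5
  have h7 : per τ (cst (Sum.elim (fun j => -n (pR j)) fun j => n (pL j))) j =
      ∑ i, τ j i * ((-n (pR i) : ℤ) : ℂ) + n (pL j) := rfl
  rw [h7]
  refine mul_left_cancel₀ hpi ?_
  linear_combination h5

theorem imm_step (h1 : PolS) {τ : Mat g} {B : Ix g → Ix g → MvPolynomial (Ix g ⊕ Ix g) ℂ}
    (hB : AddF τ B) (hθ : Differentiable ℂ (th τ)) {x w : V g} {c : ℂ}
    (h : du τ x w = c • th τ x) (v : V g) (a b : Ix g) :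
    du τ (x + v) w a * th τ (x - v) b + th τ (x + v) a * du τ (x - v) w b =
      2 * c * (th τ (x + v) a * th τ (x - v) b) := by
  have e1 := hasDerivAt_pi.1 (line hθ (x + v) w) a
  have e2 := hasDerivAt_pi.1 (line hθ (x - v) w) b
  have e3 := e1.mul e2
  have e4 : HasDerivAt (fun t : ℂ => (Sum.elim (th τ (x + t • w)) (th τ v) : Ix g ⊕ Ix g → ℂ))
      (Sum.elim (c • th τ x) ((0 : ℂ) • th τ v)) 0 := by
    refine hasDerivAt_pi.2 fun i => ?_
    rcases i with i | i
    · have e5 := hasDerivAt_pi.1 (line hθ x w) i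
      rw [← h]
      exact e5
    · simpa using hasDerivAt_const (0 : ℂ) (th τ v i)
  have e5 := (h1.diff_eval _ (B a b) (Sum.elim (th τ (x + (0 : ℂ) • w)) (th τ v))).hasFDerivAt
    |>.comp_hasDerivAt (0 : ℂ) e4
  rw [h1.fderiv_eval, zero_smul ℂ w, add_zero, h1.euler _ _ _ _ _ (hB.bih a b), ← hB.add] at e5
  have e6 : (fun t : ℂ => th τ (x + v + t • w) a) * (fun t : ℂ => th τ (x - v + t • w) b) =
      (fun y : Ix g ⊕ Ix g → ℂ => eval y (B a b)) ∘
        fun t : ℂ => (Sum.elim (th τ (x + t • w)) (th τ v) : Ix g ⊕ Ix g → ℂ) := by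
    ext t
    simp only [Pi.mul_apply, Function.comp_apply]
    rw [← hB.add, add_right_comm x v, sub_add_eq_add_sub]
  rw [e6] at e3
  have e7 := e3.unique e5
  simp only [zero_smul, add_zero] at e7
  unfold du
  rw [e7]
  push_cast
  ring

theorem imm (h0 : OsgS) (h1 : PolS) (h2 : LawS) (h3 : UniqS) (h4 : AddS) {τ : Mat g} (hτ : Sg τ)
    (u w : V g) (c : ℂ) (h : du τ u w = c • th τ u) : w = 0 := by
  obtain ⟨B, hB⟩ := h4 g τ hτ
  have hnz := nz h0 h1 h2 h3 h4 hτ
  have hθ := (h2.holu g τ hτ).1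
  have hex : ∀ x, ∃ k : ℂ, du τ x w = k • th τ x := by
    intro x
    obtain ⟨b, hb⟩ := Function.ne_iff.1 (hnz (u - (x - u)))
    have hb' : th τ (u - (x - u)) b ≠ 0 := hb
    refine ⟨2 * c - du τ (u - (x - u)) w b / th τ (u - (x - u)) b, funext fun a => ?_⟩
    have h5 := imm_step h1 hB hθ h (x - u) a b
    rw [add_sub_cancel] at h5
    simp only [Pi.smul_apply, smul_eq_mul]
    field_simp
    linear_combination h5
  choose G hG using hex
  have hGd : Differentiable ℂ G :=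
    ratio_diff (F := fun x => du τ x w)
      ((h2.holu g τ hτ).2.comp (f := fun x => (x, w)) (by fun_prop)) hθ hnz hG
  obtain ⟨l, hl⟩ := add_lin hGd fun x v => by
    obtain ⟨a, ha⟩ := Function.ne_iff.1 (hnz (x + v))
    obtain ⟨b, hb⟩ := Function.ne_iff.1 (hnz (x - v))
    have ha' : th τ (x + v) a ≠ 0 := ha
    have hb' : th τ (x - v) b ≠ 0 := hb
    have h5 := imm_step h1 hB hθ (hG x) v a b
    rw [hG, hG] at h5
    simp only [Pi.smul_apply, smul_eq_mul] at h5
    refine mul_right_cancel₀ (mul_ne_zero ha' hb') ?_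
    linear_combination h5
  have key : ∀ p, l (tor τ p) = -(2 * Real.pi * I * (lft (cst p) ⬝ᵥ w)) := by
    intro p
    have h5 := h2.lawu g τ hτ p 0 w
    rw [hG, hG, h2.law g τ hτ, ← sub_smul, HH_smul, smul_smul, smul_smul] at h5
    have h6 := cancel h2 p (hnz 0) h5
    rw [zero_add, hl] at h6
    refine mul_left_cancel₀ (ee_ne τ p 0) ?_
    linear_combination h6
  have hk : ∀ j, l (Pi.single j 1) = 0 := by
    intro j
    have h5 := key (pR j)
    rw [tor_pR, lft_pR, map_smul, zero_dotProduct, smul_eq_mul] at h5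
    linear_combination 4 * h5
  funext j
  have h5 := key (pL j)
  rw [lin_sum, lft_pL, single_dotProduct] at h5
  simp only [hk, mul_zero, Finset.sum_const_zero] at h5
  refine mul_left_cancel₀ Complex.two_pi_I_ne_zero ?_
  rw [Pi.zero_apply]
  linear_combination h5

end GeoAux

theorem geo (h0 : OsgS) (h1 : PolS) (h2 : LawS) (h3 : UniqS) (h4 : AddS) : GeoS :=
  ⟨fun _ _ hτ => GeoAux.nz h0 h1 h2 h3 h4 hτ, fun _ _ hτ => GeoAux.inj h0 h1 h2 h3 h4 hτ,
    fun _ _ hτ => GeoAux.imm h0 h1 h2 h3 h4 hτ⟩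

end Pool.Agent.Lib.MP_caab05_ag.GB
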