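import Pool.Agent.Lib.MP_caab05_ag.GB.Stmt

/-! Holomorphic functions of polynomial growth off a hypersurface are polynomials. -/

namespace Pool.Agent.Lib.MP_caab05_ag.GB.ImgAux

open MvPolynomial Filter Topology Asymptotics Complex Metric

lemma diff_eval {σ : Type} [Fintype σ] (P : MvPolynomial σ ℂ) :
    Differentiable ℂ fun x : σ → ℂ => eval x P := by
  induction P using MvPolynomial.induction_on with
  | C a => simp
  | add p q hp hq => simp only [map_add]; exact hp.add hq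
  | mul_X p i hp => simp only [map_mul, eval_X]; exact hp.mul (differentiable_apply i)

section ident

variable {E : Type} [NormedAddCommGroup E] [NormedSpace ℂ E] [FiniteDimensional ℂ E]

lemma ident (h0 : OsgS) {f : E → ℂ} (hf : Differentiable ℂ f) {a : E}
    (h : ∀ᶠ x in 𝓝 a, f x = 0) (x : E) : f x = 0 :=
  (h0 E ℂ f Set.univ isOpen_univ
    hf.differentiableOn).eqOn_zero_of_preconnected_of_eventuallyEq_zero
    isPreconnected_univ (Set.mem_univ a) h (Set.mem_univ x)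

lemma freq (h0 : OsgS) {f : E → ℂ} (hf : Differentiable ℂ f) {b : E} (hb : f b ≠ 0) (a : E) :
    ∃ᶠ x in 𝓝 a, f x ≠ 0 := by
  intro h
  exact hb (ident h0 hf (h.mono fun x hx => not_not.1 hx) b)

lemma mul_zero' (h0 : OsgS) {f g : E → ℂ} (hf : Differentiable ℂ f) (hg : Differentiable ℂ g)
    (h : ∀ x, f x * g x = 0) {b : E} (hb : f b ≠ 0) (x : E) : g x = 0 :=
  ident h0 hg ((hf.continuous.continuousAt.eventually_ne hb).mono fun y hy =>
    (mul_eq_zero.1 (h y)).resolve_left hy) x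

lemma contDiff_of (h0 : OsgS) {F : Type} [NormedAddCommGroup F] [NormedSpace ℂ F]
    [CompleteSpace F] {f : E → F} (hf : Differentiable ℂ f) (n : WithTop ℕ∞) : ContDiff ℂ n f :=
  (h0 E F f Set.univ isOpen_univ hf.differentiableOn).contDiff

end ident

lemma exists_eval_ne {n : ℕ} {P : MvPolynomial (Fin n) ℂ} (hP : P ≠ 0) : ∃ w, eval w P ≠ 0 := by
  by_contra h
  push Not at h
  exact hP (MvPolynomial.funext fun w => by rw [h w, map_zero])

lemma poly_diag {n i : ℕ} (M : ContinuousMultilinearMap ℂ (fun _ : Fin i => (Fin n → ℂ)) ℂ) :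
    ∃ P : MvPolynomial (Fin n) ℂ, ∀ w, M (fun _ => w) = eval w P := by
  refine ⟨∑ f : Fin i → Fin n, C (M fun k => Pi.single (f k) 1) * ∏ k, X (f k), fun w => ?_⟩
  have : (fun _ : Fin i => w) = fun _ => ∑ j, w j • (Pi.single j 1 : Fin n → ℂ) := by
    funext _ j
    simp [Finset.sum_apply, Pi.single_apply]
  rw [this, M.map_sum]
  simp only [map_sum, map_mul, eval_C, map_prod, eval_X]
  refine Finset.sum_congr rfl fun f _ => ?_
  rw [M.map_smul_univ, smul_eq_mul, mul_comm]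

/-- an entire function of polynomial growth is a polynomial -/
lemma liou (h0 : OsgS) {n k : ℕ} {g : (Fin n → ℂ) → ℂ} (hg : Differentiable ℂ g) {B : ℝ}
    (hb : ∀ w, ‖g w‖ ≤ B * (1 + ‖w‖) ^ k) : ∃ P : MvPolynomial (Fin n) ℂ, ∀ w, g w = eval w P := by
  have hB : 0 ≤ B := by simpa using (norm_nonneg _).trans (hb 0)
  choose P hP using fun i => poly_diag (iteratedFDeriv ℂ i g 0)
  refine ⟨∑ i ∈ Finset.range (k + 1), C ((i.factorial : ℂ)⁻¹) * P i, fun w => ?_⟩
  let L : ℂ →L[ℂ] (Fin n → ℂ) := ContinuousLinearMap.toSpanSingleton ℂ w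
  have hL : ∀ t, L t = t • w := fun t => rfl
  have hh : Differentiable ℂ (g ∘ L) := hg.comp L.differentiable
  have e1 : ∀ i, iteratedDeriv i (g ∘ L) 0 = eval w (P i) := fun i => by
    rw [iteratedDeriv_eq_iteratedFDeriv, L.iteratedFDeriv_comp_right (contDiff_of h0 hg i) 0 le_rfl,
      ← hP i w]
    simp [hL]
  have e2 : ∀ i, k + 1 ≤ i → iteratedDeriv i (g ∘ L) 0 = 0 := fun i hi => by
    have key : ∀ R : ℝ, 1 ≤ R →
        ‖iteratedDeriv i (g ∘ L) 0‖ ≤ i.factorial * (B * (1 + ‖w‖) ^ k) / R := fun R hR => by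
      have h1 := norm_iteratedDeriv_le_of_forall_mem_sphere_norm_le (c := 0) (R := R)
        (C := B * (1 + ‖w‖) ^ k * R ^ k) (f := g ∘ L) i (by linarith) hh.diffContOnCl
        (fun z hz => by
          have hz' : ‖z‖ = R := by simpa using hz
          refine (hb _).trans ?_
          rw [mul_assoc, ← mul_pow, hL, norm_smul, hz']
          gcongr
          nlinarith [norm_nonneg w])
      refine h1.trans ?_
      rw [div_le_div_iff₀ (by positivity) (by linarith)]
      have : R ^ k * R ≤ R ^ i := by rw [← pow_succ]; exact pow_le_pow_right₀ hR hi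
      calc (i.factorial : ℝ) * (B * (1 + ‖w‖) ^ k * R ^ k) * R
          = i.factorial * (B * (1 + ‖w‖) ^ k) * (R ^ k * R) := by ring
        _ ≤ _ := by gcongr
    have lim : Tendsto (fun R : ℝ => i.factorial * (B * (1 + ‖w‖) ^ k) / R) atTop (𝓝 0) :=
      tendsto_const_nhds.div_atTop tendsto_id
    exact norm_le_zero_iff.1 (ge_of_tendsto lim ((eventually_ge_atTop 1).mono key))
  have hs := hasSum_taylorSeries_of_entire hh 0 1
  have hs' := hasSum_sum_of_ne_finset_zero (s := Finset.range (k + 1)) (L := .unconditional ℕ)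
    (f := fun i : ℕ => (i.factorial : ℂ)⁻¹ • ((1 : ℂ) - 0) ^ i • iteratedDeriv i (g ∘ L) 0)
    (fun i hi => by rw [e2 i (by simpa using hi)]; simp)
  have := hs.unique hs'
  simp only [Function.comp, hL, one_smul] at this
  rw [this, map_sum]
  refine Finset.sum_congr rfl fun i _ => ?_
  have e := e1 i
  simp only [Function.comp_def, hL] at e
  simp [Function.comp_def, hL, e]

lemma eval_growth {n : ℕ} (P : MvPolynomial (Fin n) ℂ) :
    ∃ (B : ℝ) (k : ℕ), 0 ≤ B ∧ ∀ w : Fin n → ℂ, ‖eval w P‖ ≤ B * (1 + ‖w‖) ^ k := by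
  induction P using MvPolynomial.induction_on with
  | C a => exact ⟨‖a‖, 0, norm_nonneg _, fun w => by simp⟩
  | add p q hp hq =>
    obtain ⟨B, k, hB, h⟩ := hp
    obtain ⟨B', k', hB', h'⟩ := hq
    refine ⟨B + B', k + k', by positivity, fun w => ?_⟩
    have h1 : (1 : ℝ) ≤ 1 + ‖w‖ := by linarith [norm_nonneg w]
    have a1 : (1 + ‖w‖) ^ k ≤ (1 + ‖w‖) ^ (k + k') := pow_le_pow_right₀ h1 (by omega)
    have a2 : (1 + ‖w‖) ^ k' ≤ (1 + ‖w‖) ^ (k + k') := pow_le_pow_right₀ h1 (by omega)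
    rw [map_add, add_mul]
    refine (norm_add_le _ _).trans (add_le_add ((h w).trans ?_) ((h' w).trans ?_)) <;> gcongr
  | mul_X p i hp =>
    obtain ⟨B, k, hB, h⟩ := hp
    refine ⟨B, k + 1, hB, fun w => ?_⟩
    rw [map_mul, eval_X, norm_mul, pow_succ, ← mul_assoc]
    have := norm_le_pi_norm w i
    exact mul_le_mul (h w) (by linarith) (norm_nonneg _) (by positivity)

lemma ext_sq (h0 : OsgS) {n k : ℕ} {Δ : MvPolynomial (Fin n) ℂ} {f : (Fin n → ℂ) → ℂ} {B : ℝ}
    (hB : 0 ≤ B) (hd : ∀ w, eval w Δ ≠ 0 → DifferentiableAt ℂ f w)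
    (hb : ∀ w, eval w Δ ≠ 0 → ‖f w‖ ≤ B * (1 + ‖w‖) ^ k) :
    ∃ G : MvPolynomial (Fin n) ℂ, ∀ w, eval w Δ ^ 2 * f w = eval w G := by
  have hb' : ∀ w, ‖eval w Δ ^ 2 * f w‖ ≤ B * (1 + ‖w‖) ^ k * ‖eval w Δ * eval w Δ‖ := fun w => by
    by_cases h : eval w Δ = 0
    · simp [h]
    · rw [norm_mul, mul_comm, sq]
      exact mul_le_mul_of_nonneg_right (hb w h) (norm_nonneg _)
  obtain ⟨B', k', hB', h'⟩ := eval_growth (Δ * Δ)
  refine liou h0 (k := k + k') (B := B * B') (fun w => ?_) fun w => ?_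
  · by_cases h : eval w Δ = 0
    · have hΔ := diff_eval Δ w
      have o1 : (fun y => eval y Δ) =O[𝓝 w] fun y => y - w := by simpa [h] using hΔ.isBigO_sub
      have o2 : (fun y : Fin n → ℂ => eval y Δ) =o[𝓝 w] fun _ => (1 : ℝ) := by
        rw [isLittleO_one_iff]
        simpa [ContinuousAt, h] using hΔ.continuousAt
      have o3 : (fun y : Fin n → ℂ => eval y Δ * eval y Δ) =o[𝓝 w] fun y => y - w := by
        have := o2.norm_left.mul_isBigO o1.norm_norm
        simp only [one_mul, ← norm_mul] at this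
        exact this.of_norm_norm
      have o4 : (fun y : Fin n → ℂ => eval y Δ ^ 2 * f y) =O[𝓝 w]
          fun y => eval y Δ * eval y Δ := by
        refine IsBigO.of_bound (B * (1 + (‖w‖ + 1)) ^ k) ?_
        have : ∀ᶠ y in 𝓝 w, ‖y‖ < ‖w‖ + 1 :=
          continuous_norm.continuousAt.eventually_lt continuousAt_const (by linarith)
        refine this.mono fun y hy => (hb' y).trans ?_
        gcongr
      have : HasFDerivAt (fun y : Fin n → ℂ => eval y Δ ^ 2 * f y) (0 : (Fin n → ℂ) →L[ℂ] ℂ) w := by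
        rw [hasFDerivAt_iff_isLittleO]
        simpa [h] using o4.trans_isLittleO o3
      exact this.differentiableAt
    · exact ((diff_eval Δ w).pow 2).mul (hd w h)
  · refine (hb' w).trans ?_
    rw [← map_mul, pow_add]
    calc B * (1 + ‖w‖) ^ k * ‖eval w (Δ * Δ)‖ ≤ B * (1 + ‖w‖) ^ k * (B' * (1 + ‖w‖) ^ k') := by
          gcongr; exact h' w
      _ = _ := by ring

/-- a holomorphic function of polynomial growth off a hypersurface is a polynomial -/
lemma ext_poly (h0 : OsgS) {n k : ℕ} {Δ : MvPolynomial (Fin n) ℂ} (hΔ : Δ ≠ 0)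
    {f : (Fin n → ℂ) → ℂ} {B : ℝ}
    (hB : 0 ≤ B) (hd : ∀ w, eval w Δ ≠ 0 → DifferentiableAt ℂ f w)
    (hb : ∀ w, eval w Δ ≠ 0 → ‖f w‖ ≤ B * (1 + ‖w‖) ^ k) :
    ∃ P : MvPolynomial (Fin n) ℂ, ∀ w, eval w Δ ≠ 0 → f w = eval w P := by
  have hm : ∀ m : ℕ, ∃ G : MvPolynomial (Fin n) ℂ, ∀ w, eval w Δ ^ 2 * f w ^ m = eval w G :=
    fun m => ext_sq h0 (k := k * m) (B := B ^ m) (f := fun w => f w ^ m) (by positivity)
      (fun w hw => (hd w hw).pow m) fun w hw => by
        rw [norm_pow, pow_mul, ← mul_pow]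
        exact pow_le_pow_left₀ (norm_nonneg _) (hb w hw) m
  choose G hG using hm
  have hD : Δ ^ 2 ≠ 0 := pow_ne_zero 2 hΔ
  obtain ⟨a, b, c, hab, ha, hb⟩ := UniqueFactorizationMonoid.exists_reduced_factors' (G 1) _ hD
  have hc : c ≠ 0 := fun e => hD (by rw [← hb, e, zero_mul])
  have key : ∀ m, b ^ m ∣ Δ ^ 2 := fun m => by
    have e : G 1 ^ m * Δ ^ 2 = (Δ ^ 2) ^ m * G m := MvPolynomial.funext fun w => by
      simp only [map_mul, map_pow, ← hG]
      ring
    rw [← ha, show (Δ ^ 2) ^ m = (c * b) ^ m by rw [hb], mul_pow, mul_pow, mul_assoc,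
      mul_assoc] at e
    have e' := mul_left_cancel₀ (pow_ne_zero m hc) e
    exact (hab.symm.pow (m := m) (n := m)).dvd_of_dvd_mul_left ⟨_, e'⟩
  have hu : IsUnit b := by
    by_contra hu
    obtain ⟨m, hm⟩ := FiniteMultiplicity.of_not_isUnit hu hD
    exact hm (key _)
  obtain ⟨b', hb'⟩ := hu.exists_right_inv
  refine ⟨b' * a, fun w hw => ?_⟩
  have e : G 1 = Δ ^ 2 * (b' * a) := by
    rw [← ha, ← hb]
    linear_combination (-(c * a)) * hb'
  have := hG 1 w
  rw [e, map_mul, map_pow, pow_one] at this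
  exact mul_left_cancel₀ (pow_ne_zero 2 hw) this

end Pool.Agent.Lib.MP_caab05_ag.GB.ImgAux
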