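import Pool.Agent.Lib.MP_caab05_ag.GB.Img1

/-! A finite analytic cover of polynomial growth is cut out by polynomials. -/

namespace Pool.Agent.Lib.MP_caab05_ag.GB.ImgAux

open MvPolynomial Filter Topology Asymptotics Complex Metric

lemma sep (h0 : OsgS) {n N : ℕ} {Γ : Set ((Fin n → ℂ) × ℂ)} (hc : IsClosed Γ) {B : ℝ}
    (hB : 0 ≤ B) (hb : ∀ q ∈ Γ, ‖q.2‖ ≤ B * ‖q.1‖) {Δ : MvPolynomial (Fin n) ℂ} (hΔ : Δ ≠ 0)
    (hN : ∀ w, eval w Δ ≠ 0 → ∃ s : Finset ℂ, s.card ≤ N ∧ ∀ t, (w, t) ∈ Γ → t ∈ s)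
    (hloc : ∀ w t, (w, t) ∈ Γ → eval w Δ ≠ 0 → ∃ τ : (Fin n → ℂ) → ℂ, DifferentiableAt ℂ τ w ∧
      τ w = t ∧ (∀ᶠ y in 𝓝 w, (y, τ y) ∈ Γ) ∧ ∀ᶠ q in 𝓝 (w, t), q ∈ Γ → q.2 = τ q.1)
    {w0 : Fin n → ℂ} {t0 : ℂ} (hq : (w0, t0) ∉ Γ) :
    ∃ P : MvPolynomial (Option (Fin n)) ℂ,
      (∀ w t, (w, t) ∈ Γ → eval w Δ ≠ 0 → eval (fun o => o.elim t w) P = 0) ∧
      eval (fun o => o.elim t0 w0) P ≠ 0 := by
  classical
  have hs : ∀ w, eval w Δ ≠ 0 → ∃ s : Finset ℂ, s.card ≤ N ∧ ∀ t, t ∈ s ↔ (w, t) ∈ Γ :=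
    fun w hw => by
      obtain ⟨s, h1, h2⟩ := hN w hw
      exact ⟨s.filter fun t => (w, t) ∈ Γ, (Finset.card_filter_le _ _).trans h1, fun t => by
        simpa using h2 t⟩
  choose! s hsN hs using hs
  set f : ℂ → (Fin n → ℂ) → ℂ :=
    fun T w => (T - (t0 + 1)) ^ (N - (s w).card) * ∏ t ∈ s w, (T - t) with hf
  have hΔc := (diff_eval Δ).continuous
  -- differentiability
  have hd : ∀ T w, eval w Δ ≠ 0 → DifferentiableAt ℂ (f T) w := fun T w hw => by
    choose! τ τd τe τm τu using fun t (ht : (w, t) ∈ Γ) => hloc w t ht hw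
    have e1 : ∀ᶠ y in 𝓝 w, ∀ t ∈ s w, (y, τ t y) ∈ Γ :=
      (eventually_all_finset _).2 fun t ht => τm t ((hs w hw t).1 ht)
    have e2 : ∀ᶠ y in 𝓝 w, ∀ t ∈ s w, ∀ t' ∈ s w, t ≠ t' → τ t y - τ t' y ≠ 0 :=
      (eventually_all_finset _).2 fun t ht => (eventually_all_finset _).2 fun t' ht' => by
        by_cases e : t = t'
        · simp [e]
        · have h1 := (hs w hw t).1 ht
          have h2 := (hs w hw t').1 ht'
          have : ContinuousAt (fun y => τ t y - τ t' y) w :=
            (τd t h1).continuousAt.sub (τd t' h2).continuousAt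
          refine (this.eventually_ne (y := 0) ?_).mono fun y hy _ => hy
          rw [τe t h1, τe t' h2]
          exact sub_ne_zero.2 e
    have e3 : ∀ᶠ y in 𝓝 w, ∀ u ∈ closedBall (0 : ℂ) (B * (‖w‖ + 1)),
        (y, u) ∈ Γ → ∃ t ∈ s w, u = τ t y := by
      refine (isCompact_closedBall _ _).eventually_forall_of_forall_eventually fun u _ => ?_
      by_cases hu : (w, u) ∈ Γ
      · exact (τu u hu).mono fun q h1 h2 => ⟨u, (hs w hw u).2 hu, h1 h2⟩
      · exact (hc.isOpen_compl.eventually_mem hu).mono fun q h1 h2 => absurd h2 h1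
    have e4 : ∀ᶠ y in 𝓝 w, ‖y‖ < ‖w‖ + 1 :=
      continuous_norm.continuousAt.eventually_lt continuousAt_const (by linarith)
    have e5 : ∀ᶠ y in 𝓝 w, eval y Δ ≠ 0 := hΔc.continuousAt.eventually_ne hw
    have e : f T =ᶠ[𝓝 w]
        fun y => (T - (t0 + 1)) ^ (N - (s w).card) * ∏ t ∈ s w, (T - τ t y) := by
      filter_upwards [e1, e2, e3, e4, e5] with y a1 a2 a3 a4 a5
      have inj : Set.InjOn (fun t => τ t y) (s w) := fun t ht t' ht' e => by
        by_contra hne
        exact a2 t ht t' ht' hne (sub_eq_zero.2 e)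
      have hy : s y = (s w).image fun t => τ t y := by
        ext u
        rw [hs y a5, Finset.mem_image]
        constructor
        · intro hu
          obtain ⟨t, ht, e⟩ := a3 u (by
            rw [mem_closedBall_zero_iff]
            exact (hb _ hu).trans (by gcongr)) hu
          exact ⟨t, ht, e.symm⟩
        · rintro ⟨t, ht, rfl⟩
          exact a1 t ht
      simp only [hf]
      rw [hy, Finset.card_image_of_injOn inj, Finset.prod_image inj]
    refine DifferentiableAt.congr_of_eventuallyEq ?_ e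
    exact (differentiableAt_const _).mul (HasFDerivAt.finsetProd fun t ht =>
      ((differentiableAt_const T).sub (τd t ((hs w hw t).1 ht))).hasFDerivAt).differentiableAt
  -- growth
  have hg : ∀ T w, eval w Δ ≠ 0 →
      ‖f T w‖ ≤ (‖T‖ + ‖t0 + 1‖ + B) ^ N * (1 + ‖w‖) ^ N := fun T w hw => by
    have hw0 := norm_nonneg w
    have hT := norm_nonneg T
    have ht1 := norm_nonneg (t0 + 1)
    set A := (‖T‖ + ‖t0 + 1‖ + B) * (1 + ‖w‖) with hA
    have a1 : ‖T - (t0 + 1)‖ ≤ A := (norm_sub_le _ _).trans (by nlinarith)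
    have a2 : ∀ t ∈ s w, ‖T - t‖ ≤ A := fun t ht => by
      have : ‖t‖ ≤ B * ‖w‖ := hb _ ((hs w hw t).1 ht)
      exact (norm_sub_le _ _).trans (by nlinarith)
    have a3 : ‖∏ t ∈ s w, (T - t)‖ ≤ A ^ (s w).card := by
      rw [norm_prod, ← Finset.prod_const]
      exact Finset.prod_le_prod (fun _ _ => norm_nonneg _) a2
    rw [← mul_pow, ← hA]
    calc ‖f T w‖ ≤ A ^ (N - (s w).card) * A ^ (s w).card := by
          simp only [hf]
          rw [norm_mul, norm_pow]
          gcongr
      _ = A ^ N := by rw [← pow_add, Nat.sub_add_cancel (hsN w hw)]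
  choose Pf hPf using fun T => ext_poly h0 hΔ (f := f T) (by positivity) (hd T) (hg T)
  -- interpolation
  have inj : Set.InjOn (fun i : ℕ => (i : ℂ)) (Finset.range (N + 1)) :=
    fun _ _ _ _ e => Nat.cast_injective e
  set P : MvPolynomial (Option (Fin n)) ℂ := ∑ i ∈ Finset.range (N + 1),
    rename some (Pf i) * Polynomial.aeval (X none)
      (Lagrange.basis (Finset.range (N + 1)) (fun i : ℕ => (i : ℂ)) i) with hP
  have evP : ∀ T w, eval (fun o : Option (Fin n) => o.elim T w) P = ∑ i ∈ Finset.range (N + 1),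
      eval w (Pf i) * (Lagrange.basis (Finset.range (N + 1)) (fun i : ℕ => (i : ℂ)) i).eval T :=
    fun T w => by
      rw [hP, map_sum]
      refine Finset.sum_congr rfl fun i _ => ?_
      rw [map_mul, eval_rename]
      congr 1
      rw [← coe_aeval_eq_eval, RingHom.coe_coe, ← Polynomial.aeval_algHom_apply, aeval_X]
      simp
  have key : ∀ T w, eval w Δ ≠ 0 → eval (fun o : Option (Fin n) => o.elim T w) P = f T w :=
    fun T w hw => by
      set χ : Polynomial ℂ := (Polynomial.X - Polynomial.C (t0 + 1)) ^ (N - (s w).card) *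
        ∏ t ∈ s w, (Polynomial.X - Polynomial.C t) with hχ
      have ev : ∀ T, χ.eval T = f T w := fun T => by
        simp only [hχ, hf, Polynomial.eval_mul, Polynomial.eval_pow, Polynomial.eval_prod,
          Polynomial.eval_sub, Polynomial.eval_X, Polynomial.eval_C]
      have dg : χ.degree < (Finset.range (N + 1)).card := by
        have : χ.natDegree ≤ N := by
          refine Polynomial.natDegree_mul_le.trans ?_
          rw [Polynomial.natDegree_finsetProd_X_sub_C_eq_card]
          have := Polynomial.natDegree_pow_le (p := Polynomial.X - Polynomial.C (t0 + 1))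
            (n := N - (s w).card)
          rw [Polynomial.natDegree_X_sub_C] at this
          have := hsN w hw
          omega
        rw [Finset.card_range]
        exact Polynomial.degree_le_natDegree.trans_lt (by exact_mod_cast Nat.lt_succ_of_le this)
      rw [evP, ← ev, Lagrange.eq_interpolate inj dg, Lagrange.interpolate_apply,
        Polynomial.eval_finsetSum]
      refine Finset.sum_congr rfl fun i _ => ?_
      rw [Polynomial.eval_mul, Polynomial.eval_C, ev, hPf _ w hw]
  refine ⟨P, fun w t ht hw => ?_, ?_⟩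
  · rw [key t w hw]
    simp only [hf]
    rw [Finset.prod_eq_zero ((hs w hw t).2 ht) (sub_self t), mul_zero]
  · obtain ⟨δ, hδ, hball⟩ := Metric.isOpen_iff.1 hc.isOpen_compl _ hq
    obtain ⟨b, hb'⟩ := exists_eval_ne hΔ
    have low : ∀ᶠ w in 𝓝 w0, eval w Δ ≠ 0 → (min δ 1) ^ N ≤ ‖f t0 w‖ := by
      filter_upwards [ball_mem_nhds w0 hδ] with w hw hw'
      have hm : 0 ≤ min δ 1 := le_min hδ.le zero_le_one
      have a2 : ∀ t ∈ s w, min δ 1 ≤ ‖t0 - t‖ := fun t ht => by
        refine (min_le_left _ _).trans (not_lt.1 fun hlt => ?_)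
        refine hball (a := (w, t)) ?_ ((hs w hw' t).1 ht)
        rw [mem_ball, Prod.dist_eq, max_lt_iff]
        exact ⟨hw, by rwa [dist_comm, dist_eq_norm]⟩
      have a3 : (min δ 1) ^ (s w).card ≤ ‖∏ t ∈ s w, (t0 - t)‖ := by
        rw [norm_prod, ← Finset.prod_const]
        exact Finset.prod_le_prod (fun _ _ => hm) a2
      simp only [hf]
      rw [norm_mul, norm_pow, show t0 - (t0 + 1) = -1 by ring, norm_neg, norm_one, one_pow,
        one_mul]
      exact (pow_le_pow_of_le_one hm (min_le_right _ _) (hsN w hw')).trans a3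
    have cont : Continuous fun w : Fin n → ℂ => eval (fun o : Option (Fin n) => o.elim t0 w) P := by
      simp only [evP]
      exact continuous_finsetSum _ fun i _ => (diff_eval _).continuous.mul continuous_const
    intro h
    have up : ∀ᶠ w in 𝓝 w0,
        ‖eval (fun o : Option (Fin n) => o.elim t0 w) P‖ < (min δ 1) ^ N :=
      cont.norm.continuousAt.eventually_lt continuousAt_const (by
        rw [h, norm_zero]
        exact pow_pos (lt_min hδ one_pos) N)
    obtain ⟨w, h1, h2, h3⟩ := ((freq h0 (diff_eval Δ) hb' w0).and_eventually (low.and up)).exists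
    rw [key t0 w h1] at h3
    exact absurd (h2 h1) (not_le.2 h3)

end Pool.Agent.Lib.MP_caab05_ag.GB.ImgAux
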