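import Mathlib
import Pool.Agent.Lib.MP_caab05_ag.GB.Stmt

/-! Infinitesimal rigidity of the theta functions. -/

namespace Pool.Agent.Lib.MP_caab05_ag.GB

open MvPolynomial Filter Topology Asymptotics Complex Matrix

namespace RigAux

variable {g : ℕ}

theorem HH_add (p : Zg g) (X Y : Ix g → ℂ) : HH p (X + Y) = HH p X + HH p Y := by
  funext a
  simp only [HH, Pi.add_apply]
  ring

theorem HH_sub (p : Zg g) (X Y : Ix g → ℂ) : HH p (X - Y) = HH p X - HH p Y := by
  funext a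
  simp only [HH, Pi.sub_apply]
  ring

theorem HH_smul (p : Zg g) (c : ℂ) (X : Ix g → ℂ) : HH p (c • X) = c • HH p X := by
  funext a
  simp only [HH, Pi.smul_apply, smul_eq_mul]
  ring

theorem du_add (τ : Mat g) (u w w' : V g) : du τ u (w + w') = du τ u w + du τ u w' :=
  map_add _ _ _

theorem du_sub (τ : Mat g) (u w w' : V g) : du τ u (w - w') = du τ u w - du τ u w' :=
  map_sub _ _ _

theorem du_zero (τ : Mat g) (u : V g) : du τ u 0 = 0 := map_zero _

theorem ee_ne (τ : Mat g) (p : Zg g) (u : V g) : ee τ p u ≠ 0 := Complex.exp_ne_zero _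

/-- the transformation law with correction terms -/
def Tr (τ : Mat g) (F : V g → Ix g → ℂ) (μ : Zg g → V g) (c : Zg g → V g → ℂ) : Prop :=
  ∀ p u, F (u + tor τ p) = ee τ p u • HH p (F u + du τ u (μ p) + c p u • th τ u)

theorem Tr.sub {τ : Mat g} {F F' : V g → Ix g → ℂ} {μ μ' : Zg g → V g}
    {c c' : Zg g → V g → ℂ} (h : Tr τ F μ c) (h' : Tr τ F' μ' c') :
    Tr τ (fun u => F u - F' u) (fun p => μ p - μ' p) (fun p u => c p u - c' p u) := by
  intro p u
  show F (u + tor τ p) - F' (u + tor τ p) = _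
  rw [h p u, h' p u, ← smul_sub, ← HH_sub, du_sub, sub_smul]
  congr 2
  beta_reduce
  abel

theorem Tr.add {τ : Mat g} {F F' : V g → Ix g → ℂ} {μ μ' : Zg g → V g}
    {c c' : Zg g → V g → ℂ} (h : Tr τ F μ c) (h' : Tr τ F' μ' c') :
    Tr τ (fun u => F u + F' u) (fun p => μ p + μ' p) (fun p u => c p u + c' p u) := by
  intro p u
  show F (u + tor τ p) + F' (u + tor τ p) = _
  rw [h p u, h' p u, ← smul_add, ← HH_add, du_add, add_smul]
  congr 2
  beta_reduce
  abel

theorem tr_du (h2 : LawS) {τ : Mat g} (hτ : Sg τ) (w : V g → V g) (μ : Zg g → V g)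
    (hw : ∀ p u, w (u + tor τ p) = w u + μ p) :
    Tr τ (fun u => du τ u (w u)) μ
      (fun p u => -(2 * Real.pi * I * (lft (cst p) ⬝ᵥ (w u + μ p)))) := by
  intro p u
  show du τ (u + tor τ p) (w (u + tor τ p)) = _
  rw [h2.lawu g τ hτ p u, hw, du_add, neg_smul, sub_eq_add_neg]

theorem tr_th (h2 : LawS) {τ : Mat g} (hτ : Sg τ) (f : V g → ℂ) :
    Tr τ (fun u => f u • th τ u) (fun _ => 0) (fun p u => f (u + tor τ p) - f u) := by
  intro p u
  show f (u + tor τ p) • th τ (u + tor τ p) = _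
  rw [h2.law g τ hτ p u, du_zero, add_zero, ← add_smul, HH_smul, smul_comm]
  congr 2
  ring

theorem tr_dK (h2 : LawS) {τ K : Mat g} (hτ : Sg τ) (hK : ∀ i j, K i j = K j i) :
    ∃ r : Zg g → ℂ, Tr τ (dK τ K) (fun p => -((1 / 4 : ℂ) • app K (lft (cst p))))
      (fun p _ => r p) := by
  choose r hr using h2.lawK g τ K hτ hK
  refine ⟨r, fun p u => ?_⟩
  rw [hr p u]
  congr 3
  beta_reduce
  rw [← zero_sub ((1 / 4 : ℂ) • app K (lft (cst p))), du_sub, du_zero]
  abel

theorem indep (h4 : GeoS) {τ : Mat g} (hτ : Sg τ) (u w : V g) (c : ℂ)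
    (h : du τ u w + c • th τ u = 0) : w = 0 ∧ c = 0 := by
  have hw : w = 0 := by
    refine h4.imm g τ hτ u w (-c) ?_
    rw [neg_smul]
    exact eq_neg_of_add_eq_zero_left h
  refine ⟨hw, ?_⟩
  rw [hw, du_zero, zero_add] at h
  exact (smul_eq_zero.1 h).resolve_right (h4.nz g τ hτ u)

theorem cocyc (h2 : LawS) (h4 : GeoS) {τ : Mat g} (hτ : Sg τ) {F : V g → Ix g → ℂ}
    {μ : Zg g → V g} {c : Zg g → V g → ℂ} (h : Tr τ F μ c) (p q : Zg g) (u : V g) :
    μ (p + q) = μ p + μ q ∧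
      c (p + q) u = c q u + c p (u + tor τ q) - 2 * Real.pi * I * (lft (cst q) ⬝ᵥ μ p) := by
  have e1 := h (p + q) u
  have e2 : u + tor τ (p + q) = (u + tor τ q) + tor τ p := by
    rw [h2.tor_add]
    abel
  rw [e2, h p, h q, h2.lawu g τ hτ q u, h2.law g τ hτ q u, smul_comm (c p (u + tor τ q)),
    ← smul_add, ← smul_add, ← HH_smul q (c p (u + tor τ q)), ← HH_add, ← HH_add, HH_smul,
    smul_smul, ← h2.cocycle g τ hτ] at e1
  have e3 := h2.HH_inj g _ _ _ (smul_right_injective _ (ee_ne τ (p + q) u) e1)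
  have e4 : du τ u (μ (p + q) - (μ p + μ q)) +
      (c (p + q) u - (c q u + c p (u + tor τ q) -
        2 * Real.pi * I * (lft (cst q) ⬝ᵥ μ p))) • th τ u = 0 := by
    rw [du_sub, du_add, sub_smul, sub_smul, add_smul]
    have e5 : du τ u (μ (p + q)) + c (p + q) u • th τ u =
        du τ u (μ q) + c q u • th τ u +
          (du τ u (μ p) - (2 * Real.pi * I * (lft (cst q) ⬝ᵥ μ p)) • th τ u) +
          c p (u + tor τ q) • th τ u := by
      apply add_left_cancel (a := F u)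
      rw [← add_assoc, ← e3]
      abel
    rw [eq_sub_of_add_eq e5]
    abel
  obtain ⟨a1, a2⟩ := indep h4 hτ u _ _ e4
  exact ⟨sub_eq_zero.1 a1, sub_eq_zero.1 a2⟩

theorem additive {E : Type} [AddCommGroup E] [Module ℂ E] (f : Zg g → E)
    (hf : ∀ p q, f (p + q) = f p + f q) (p : Zg g) :
    f p = ∑ j, (p (.inl j) : ℂ) • f (Pi.single (.inl j) 1) +
      ∑ j, (p (.inr j) : ℂ) • f (Pi.single (.inr j) 1) := by
  let φ : Zg g →+ E := AddMonoidHom.mk' f hf
  have e : p = ∑ i, p i • (Pi.single i 1 : Zg g) := by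
    funext k
    simp [Finset.sum_apply, Pi.single_apply]
  have e2 : φ p = ∑ i, (p i : ℂ) • φ (Pi.single i 1) := by
    conv_lhs => rw [e]
    rw [map_sum]
    refine Finset.sum_congr rfl fun i _ => ?_
    rw [map_zsmul, Int.cast_smul_eq_zsmul]
  rw [Fintype.sum_sum_type] at e2
  exact e2

theorem diff_du (h2 : LawS) {τ : Mat g} (hτ : Sg τ) (w : V g → V g)
    (hw : Differentiable ℂ w) : Differentiable ℂ fun u => du τ u (w u) :=
  (h2.holu g τ hτ).2.comp (differentiable_id.prodMk hw)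

theorem diff_app (M : Mat g) : Differentiable ℂ (app M) := by
  refine differentiable_pi.2 fun i => ?_
  simp only [app, mulVec, dotProduct]
  fun_prop

theorem diff_dot (a b : V g → V g) (ha : Differentiable ℂ a) (hb : Differentiable ℂ b) :
    Differentiable ℂ fun u => a u ⬝ᵥ b u := by
  simp only [dotProduct]
  fun_prop

theorem pi_ne : (2 * Real.pi * I : ℂ) ≠ 0 := Complex.two_pi_I_ne_zero

theorem rig0 (h2 : LawS) (h3 : UniqS) (h4 : GeoS) {τ : Mat g} (hτ : Sg τ)
    (ψ : V g → Ix g → ℂ) (r : Zg g → ℂ) (hψ : Differentiable ℂ ψ)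
    (h : Tr τ ψ (fun _ => 0) fun p _ => r p) :
    ∃ (μ l : V g) (c : ℂ), ∀ u, ψ u = du τ u μ + (l ⬝ᵥ u + c) • th τ u := by
  have hr : ∀ p q, r (p + q) = r p + r q := fun p q => by
    have := (cocyc h2 h4 hτ h p q 0).2
    simp only [dotProduct_zero, mul_zero, sub_zero] at this
    rw [this, add_comm]
  let α : V g := fun j => r (Pi.single (.inl j) 1)
  let β : V g := fun j => r (Pi.single (.inr j) 1)
  let μ : V g := (2 * Real.pi * I : ℂ)⁻¹ • (β ᵥ* Matrix.of τ - α)
  let l : V g := (4 : ℂ) • β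
  have key : ∀ p, r p = l ⬝ᵥ tor τ p - 2 * Real.pi * I * (lft (cst p) ⬝ᵥ μ) := fun p => by
    have e1 : r p = lft (cst p) ⬝ᵥ α + rgt (cst p) ⬝ᵥ β := additive r hr p
    rw [e1]
    simp only [l, μ, tor, per, app, dotProduct_smul, smul_dotProduct, smul_eq_mul,
      dotProduct_add, dotProduct_sub, dotProduct_mulVec, smul_vecMul]
    rw [dotProduct_comm (lft (cst p)) (β ᵥ* Matrix.of τ), dotProduct_comm β (rgt (cst p))]
    field_simp [pi_ne]
    ring
  have t1 := tr_du h2 hτ (fun _ => μ) (fun _ => 0) (fun _ _ => (add_zero _).symm)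
  have t2 := tr_th h2 hτ fun u => l ⬝ᵥ u
  have t3 := h.sub (t1.add t2)
  have z : ∀ p u, r p - (-(2 * Real.pi * I * (lft (cst p) ⬝ᵥ μ)) +
      (l ⬝ᵥ (u + tor τ p) - l ⬝ᵥ u)) = 0 := fun p u => by
    rw [key p, dotProduct_add]
    ring
  obtain ⟨κ, hκ⟩ := h3.uniq g τ hτ (fun u => ψ u - (du τ u μ + (l ⬝ᵥ u) • th τ u))
    (hψ.sub ((diff_du h2 hτ _ (differentiable_const μ)).add
      ((diff_dot _ _ (differentiable_const l) differentiable_id).smul (h2.holu g τ hτ).1)))
    (fun p u => by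
      have e := t3 p u
      simp only [add_zero, sub_zero, du_zero, z p u, zero_smul] at e
      exact e)
  refine ⟨μ, l, κ, fun u => ?_⟩
  rw [add_smul, ← hκ u]
  abel

theorem lft_inl (a : Fin g) : lft (cst (Pi.single (.inl a) 1 : Zg g)) = Pi.single a 1 := by
  funext i
  simp [lft, cst, Pi.single_apply]

theorem rgt_inl (a : Fin g) : rgt (cst (Pi.single (.inl a) 1 : Zg g)) = 0 := by
  funext i
  simp [rgt, cst]

theorem lft_inr (a : Fin g) : lft (cst (Pi.single (.inr a) 1 : Zg g)) = 0 := by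
  funext i
  simp [lft, cst]

theorem rgt_inr (a : Fin g) : rgt (cst (Pi.single (.inr a) 1 : Zg g)) = Pi.single a 1 := by
  funext i
  simp [rgt, cst, Pi.single_apply]

theorem additive' (f : Zg g → V g) (hf : ∀ p q, f (p + q) = f p + f q) :
    ∃ A B : Matrix (Fin g) (Fin g) ℂ, ∀ p, f p = A *ᵥ lft (cst p) + B *ᵥ rgt (cst p) := by
  refine ⟨Matrix.of fun i j => f (Pi.single (.inl j) 1) i,
    Matrix.of fun i j => f (Pi.single (.inr j) 1) i, fun p => ?_⟩
  rw [additive f hf p]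
  funext i
  simp only [Pi.add_apply, Finset.sum_apply, Pi.smul_apply, smul_eq_mul, mulVec, dotProduct,
    of_apply, lft, rgt, cst]
  congr 1 <;> exact Finset.sum_congr rfl fun j _ => mul_comm _ _

theorem rig1 (h2 : LawS) (h3 : UniqS) (h4 : GeoS) {τ : Mat g} (hτ : Sg τ)
    (ψ : V g → Ix g → ℂ) (μ l : Zg g → V g) (r : Zg g → ℂ) (hψ : Differentiable ℂ ψ)
    (h : Tr τ ψ μ fun p u => l p ⬝ᵥ u + r p) :
    ∃ (M K N : Mat g) (μ₀ l₀ : V g) (c : ℂ), (∀ i j, K i j = K j i) ∧ ∀ u,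
      ψ u = du τ u (app M u + μ₀) + dK τ K u + (u ⬝ᵥ app N u + l₀ ⬝ᵥ u + c) • th τ u := by
  have hμ : ∀ p q, μ (p + q) = μ p + μ q := fun p q => (cocyc h2 h4 hτ h p q 0).1
  have hr : ∀ p q, r (p + q) =
      r q + (l p ⬝ᵥ tor τ q + r p) - 2 * Real.pi * I * (lft (cst q) ⬝ᵥ μ p) := fun p q => by
    have := (cocyc h2 h4 hτ h p q 0).2
    simpa only [dotProduct_zero, zero_add] using this
  have hl : ∀ p q, l (p + q) = l p + l q := fun p q => by
    funext i
    have := (cocyc h2 h4 hτ h p q (Pi.single i 1)).2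
    simp only [dotProduct_add, dotProduct_single, mul_one] at this
    rw [hr p q] at this
    rw [Pi.add_apply]
    linear_combination this
  have hS : ∀ p q, l p ⬝ᵥ tor τ q - 2 * Real.pi * I * (lft (cst q) ⬝ᵥ μ p) =
      l q ⬝ᵥ tor τ p - 2 * Real.pi * I * (lft (cst p) ⬝ᵥ μ q) := fun p q => by
    have e1 := hr p q
    rw [add_comm p q, hr q p] at e1
    linear_combination -e1
  obtain ⟨A, B, hAB⟩ := additive' μ hμ
  obtain ⟨C, D, hCD⟩ := additive' l hl
  set T : Matrix (Fin g) (Fin g) ℂ := Matrix.of τ with hT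
  have htor : ∀ p, tor τ p = (1 / 4 : ℂ) • (T *ᵥ lft (cst p) + rgt (cst p)) := fun p => rfl
  have hD : Dᵀ = D := by
    ext a b
    have e := hS (Pi.single (.inr a) 1) (Pi.single (.inr b) 1)
    simp only [hAB, hCD, htor, lft_inr, rgt_inr, mulVec_zero, zero_add, zero_dotProduct,
      mul_zero, sub_zero, dotProduct_smul, dotProduct_single, mul_one, mulVec_single_one,
      smul_eq_mul, col_apply] at e
    rw [transpose_apply]
    linear_combination 4 * e
  have hC : C = D * T - (4 * (2 * Real.pi * I) : ℂ) • Bᵀ := by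
    ext b a
    have e := hS (Pi.single (.inl a) 1) (Pi.single (.inr b) 1)
    simp only [hAB, hCD, htor, lft_inr, rgt_inr, lft_inl, rgt_inl, mulVec_zero, zero_add,
      add_zero, zero_dotProduct, mul_zero, sub_zero, dotProduct_smul, dotProduct_single, mul_one,
      mulVec_single_one, smul_eq_mul, col_apply, single_dotProduct, one_mul] at e
    have e2 : (D * T) b a = D.col b ⬝ᵥ T.col a := by
      conv_lhs => rw [← hD]
      rfl
    rw [Matrix.sub_apply, e2, Matrix.smul_apply, transpose_apply, smul_eq_mul]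
    linear_combination 4 * e
  have hK : (B * T - A)ᵀ = B * T - A := by
    ext a b
    have e := hS (Pi.single (.inl a) 1) (Pi.single (.inl b) 1)
    simp only [hAB, hCD, htor, lft_inl, rgt_inl, mulVec_zero, add_zero, dotProduct_smul,
      mulVec_single_one, smul_eq_mul, col_apply, single_dotProduct, one_mul] at e
    have e2 : ∀ a b, C.col a ⬝ᵥ T.col b = (Cᵀ * T) a b := fun _ _ => rfl
    have e3 : Cᵀ * T = Tᵀ * D * T - (4 * (2 * Real.pi * I) : ℂ) • (B * T) := by
      rw [hC, transpose_sub, transpose_mul, transpose_smul, transpose_transpose, hD,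
        Matrix.sub_mul, Matrix.smul_mul]
    have e4 : (Tᵀ * D * T) b a = (Tᵀ * D * T) a b := by
      rw [← transpose_apply (Tᵀ * D * T) a b, transpose_mul, transpose_mul, transpose_transpose,
        hD, Matrix.mul_assoc]
    rw [e2, e2, e3] at e
    simp only [Matrix.sub_apply, Matrix.smul_apply, smul_eq_mul] at e
    rw [e4] at e
    rw [transpose_apply, Matrix.sub_apply, Matrix.sub_apply]
    apply mul_left_cancel₀ pi_ne
    linear_combination e
  let M : Mat g := fun i j => ((4 : ℂ) • B) i j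
  let K : Mat g := fun i j => ((4 : ℂ) • (B * T - A)) i j
  let N : Mat g := fun i j => ((2 : ℂ) • D) i j
  have hM : ∀ x, app M x = ((4 : ℂ) • B) *ᵥ x := fun _ => rfl
  have hK' : ∀ x, app K x = ((4 : ℂ) • (B * T - A)) *ᵥ x := fun _ => rfl
  have hN : ∀ x, app N x = ((2 : ℂ) • D) *ᵥ x := fun _ => rfl
  have hKs : ∀ i j, K i j = K j i := fun i j => by
    show (4 : ℂ) * (B * T - A) i j = 4 * (B * T - A) j i
    rw [← transpose_apply (B * T - A) i j, hK]
  have t1 := tr_du h2 hτ (app M) (fun p => app M (tor τ p)) (fun _ _ => mulVec_add _ _ _)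
  obtain ⟨r', t2⟩ := tr_dK h2 hτ hKs
  have t3 := tr_th h2 hτ fun u => u ⬝ᵥ app N u
  have t4 := h.sub ((t1.add t2).add t3)
  have z1 : ∀ p, μ p - (app M (tor τ p) + -((1 / 4 : ℂ) • app K (lft (cst p))) + 0) = 0 := by
    intro p
    rw [hM, hK', hAB, htor]
    simp only [smul_mulVec, mulVec_smul, mulVec_add, sub_mulVec, ← mulVec_mulVec]
    module
  have z2 : ∀ p u, l p ⬝ᵥ u + r p -
      (-(2 * Real.pi * I * (lft (cst p) ⬝ᵥ (app M u + app M (tor τ p)))) + r' p +
        ((u + tor τ p) ⬝ᵥ app N (u + tor τ p) - u ⬝ᵥ app N u)) =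
      r p + 2 * Real.pi * I * (lft (cst p) ⬝ᵥ app M (tor τ p)) - r' p -
        tor τ p ⬝ᵥ app N (tor τ p) := by
    intro p u
    have a1 : tor τ p ⬝ᵥ D *ᵥ u = u ⬝ᵥ D *ᵥ tor τ p := by
      rw [dotProduct_mulVec, ← mulVec_transpose, hD, dotProduct_comm]
    have a2 : lft (cst p) ⬝ᵥ B *ᵥ u = u ⬝ᵥ Bᵀ *ᵥ lft (cst p) := by
      rw [dotProduct_mulVec, ← mulVec_transpose, dotProduct_comm]
    have a3 : l p ⬝ᵥ u = 4 * (u ⬝ᵥ D *ᵥ tor τ p) -
        4 * (2 * Real.pi * I) * (u ⬝ᵥ Bᵀ *ᵥ lft (cst p)) := by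
      rw [dotProduct_comm, hCD, hC, htor]
      simp only [smul_mulVec, mulVec_smul, mulVec_add, sub_mulVec, mulVec_mulVec, dotProduct_add,
        dotProduct_sub, dotProduct_smul, smul_eq_mul]
      ring
    rw [a3]
    simp only [hM u, hN (u + tor τ p), hN u, hN (tor τ p), smul_mulVec, mulVec_add,
      dotProduct_add, add_dotProduct, dotProduct_smul, smul_eq_mul, a1, a2]
    ring
  obtain ⟨μ₀, l₀, c, hc⟩ := rig0 h2 h3 h4 hτ
    (fun u => ψ u - (du τ u (app M u) + dK τ K u + (u ⬝ᵥ app N u) • th τ u))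
    (fun p => r p + 2 * Real.pi * I * (lft (cst p) ⬝ᵥ app M (tor τ p)) - r' p -
        tor τ p ⬝ᵥ app N (tor τ p))
    (hψ.sub (((diff_du h2 hτ _ (diff_app M)).add (h2.holK g τ K hτ)).add
      ((diff_dot _ _ differentiable_id (diff_app N)).smul (h2.holu g τ hτ).1)))
    (fun p u => by
      have e := t4 p u
      simp only [z1 p, z2 p u] at e
      exact e)
  refine ⟨M, K, N, μ₀, l₀, c, hKs, fun u => ?_⟩
  rw [du_add, add_assoc (u ⬝ᵥ app N u), add_smul, eq_add_of_sub_eq (hc u)]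
  abel

end RigAux

theorem rig (h2 : LawS) (h3 : UniqS) (h4 : GeoS) : RigS where
  rig₀ _ _ hτ ψ r hψ h := RigAux.rig0 h2 h3 h4 hτ ψ r hψ fun p u => by
    rw [h p u, RigAux.du_zero, add_zero]
  rig₁ _ _ hτ ψ μ l r hψ h := RigAux.rig1 h2 h3 h4 hτ ψ μ l r hψ h

end Pool.Agent.Lib.MP_caab05_ag.GB
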