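import Mathlib
import Pool.Agent.Lib.MP_caab05_ag.GB.Stmt2

/-! Primitive types give simple abelian varieties. -/

namespace Pool.Agent.Lib.MP_caab05_ag.GB

open Complex NumberField

namespace SimAux

variable {L : Type} [Field L] [NumberField L]

lemma trace_eq (x : L) : ((Algebra.trace ℚ L x : ℚ) : ℂ) = ∑ ψ : Emb L, ψ x := by
  have h := trace_eq_sum_embeddings ℂ (K := ℚ) (L := L) (x := x)
  rw [eq_ratCast] at h
  rw [h]
  exact (Fintype.sum_equiv (RingHom.equivRatAlgHom L ℂ) _ _ (fun ψ => rfl)).symm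

lemma sum_range {d : ℕ} (e : Fin d → Emb L) (he : Function.Injective e) (g : Emb L → ℂ) :
    ∑ ψ : Emb L, (Set.range e).indicator g ψ = ∑ k, g (e k) := by
  classical
  have h1 : ∑ ψ : Emb L, (Set.range e).indicator g ψ =
      ∑ ψ ∈ Finset.univ.image e, g ψ := by
    rw [← Finset.sum_subset (Finset.subset_univ (Finset.univ.image e))]
    · refine Finset.sum_congr rfl fun ψ hψ => ?_
      rw [Set.indicator_of_mem]
      simpa using hψ
    · intro ψ _ hψ
      rw [Set.indicator_of_notMem]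
      simpa using hψ
  rw [h1, Finset.sum_image fun a _ b _ hab => he hab]

/-- the trace is twice the real part of the sum over a type -/
lemma sum_type {d : ℕ} (e : Fin d → Emb L) (he : Function.Injective e)
    (hΦ : IsType (Set.range e)) (z : L) :
    ∑ ψ : Emb L, ψ z = ∑ k, e k z + starRingEnd ℂ (∑ k, e k z) := by
  have h1 : ∀ ψ : Emb L, ψ z = (Set.range e).indicator (fun χ : Emb L => χ z) ψ +
      (Set.range e).indicator (fun χ : Emb L => cj χ z) (cj ψ) := by
    intro ψ
    by_cases hψ : ψ ∈ Set.range e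
    · rw [Set.indicator_of_mem hψ, Set.indicator_of_notMem ((hΦ ψ).1 hψ), add_zero]
    · have h2 : cj ψ ∈ Set.range e := by
        by_contra h3
        exact hψ ((hΦ ψ).2 h3)
      rw [Set.indicator_of_notMem hψ, Set.indicator_of_mem h2, zero_add]
      simp
  rw [Finset.sum_congr rfl fun ψ _ => h1 ψ, Finset.sum_add_distrib, sum_range e he]
  congr 1
  rw [Fintype.sum_equiv (ComplexEmbedding.involutive_conjugate L).toPerm
    (fun ψ => (Set.range e).indicator (fun χ : Emb L => cj χ z) (cj ψ))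
    ((Set.range e).indicator fun χ : Emb L => cj χ z) (fun ψ => rfl), sum_range e he, map_sum]
  rfl

/-- a relation over the type holds over all its translates -/
lemma translate {d : ℕ} (e : Fin d → Emb L)
    (h1 : ∀ φ ψ : Emb L, ∃ σ : L ≃ₐ[ℚ] L, ψ = φ.comp (σ : L →+* L))
    (h2 : ∀ σ σ' : L ≃ₐ[ℚ] L, σ * σ' = σ' * σ) (z : L) (hz : ∑ k, e k z = 0)
    (τ : L ≃ₐ[ℚ] L) : ∑ k, e k (τ z) = 0 := by
  obtain ⟨φ₀⟩ : Nonempty (Emb L) := inferInstance
  choose s hs using fun k => h1 φ₀ (e k)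
  have h3 : ∀ k w, e k w = φ₀ (s k w) := fun k w => by rw [hs k]; rfl
  have h4 : ∑ k, s k z = 0 := by
    apply φ₀.injective
    rw [map_sum, map_zero, ← hz]
    exact Finset.sum_congr rfl fun k _ => (h3 k z).symm
  have h5 : ∀ k, s k (τ z) = τ (s k z) := fun k => by
    have := congrArg (fun f : L ≃ₐ[ℚ] L => f z) (h2 (s k) τ)
    simpa using this
  simp only [h3, h5]
  rw [← map_sum, ← map_sum, h4, map_zero, map_zero]

/-- the relation written as a sum over all embeddings -/
lemma translate' {d : ℕ} (e : Fin d → Emb L) (he : Function.Injective e)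
    (h1 : ∀ φ ψ : Emb L, ∃ σ : L ≃ₐ[ℚ] L, ψ = φ.comp (σ : L →+* L))
    (h2 : ∀ σ σ' : L ≃ₐ[ℚ] L, σ * σ' = σ' * σ) (z : L) (hz : ∑ k, e k z = 0)
    (σ : L ≃ₐ[ℚ] L) :
    ∑ ψ : Emb L, {χ : Emb L | χ.comp (σ : L →+* L) ∈ Set.range e}.indicator
      (fun χ : Emb L => χ z) ψ = 0 := by
  have h3 := translate e h1 h2 z hz σ.symm
  let e' : Fin d → Emb L := fun k => (e k).comp (σ.symm : L →+* L)
  have he' : Function.Injective e' := by
    intro k k' hk
    apply he
    ext x
    have := congrArg (fun f : Emb L => f (σ x)) hk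
    simpa [e'] using this
  have h4 : {χ : Emb L | χ.comp (σ : L →+* L) ∈ Set.range e} = Set.range e' := by
    ext χ
    constructor
    · rintro ⟨k, hk⟩
      refine ⟨k, ?_⟩
      ext x
      simp [e', hk]
    · rintro ⟨k, rfl⟩
      refine ⟨k, ?_⟩
      ext x
      simp [e']
  rw [h4, sum_range e' he']
  exact h3

/-- double annihilator: a vector killed by the orthogonal complement of `P` is a complex
combination of points of `P` -/
lemma biorth (h : WeakS) (P : Submodule ℚ L) (X : Emb L → ℂ)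
    (hX : ∀ y : L, (∀ x ∈ P, ∑ ψ : Emb L, ψ (x * y) = 0) → ∑ ψ : Emb L, ψ y * X ψ = 0) :
    ∃ (n : ℕ) (x : Fin n → L) (c : Fin n → ℂ), (∀ i, x i ∈ P) ∧
      ∀ ψ : Emb L, X ψ = ∑ i, c i * ψ (x i) := by
  classical
  obtain ⟨P', hP'⟩ := P.exists_isCompl
  let π : L →ₗ[ℚ] L := P.subtype ∘ₗ P.projectionOnto P' hP'
  have hπ1 : ∀ x, π x ∈ P := fun x => (P.projectionOnto P' hP' x).2
  have hπ2 : ∀ x ∈ P, π x = x := fun x hx =>
    congrArg Subtype.val (Submodule.projectionOnto_apply_left hP' ⟨x, hx⟩)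
  let b := Module.finBasis ℚ L
  let b' := b.traceDual
  have hb : ∀ x : L, x = ∑ i, Algebra.trace ℚ L (x * b' i) • b i := by
    intro x
    conv_lhs => rw [← b.sum_repr x]
    refine Finset.sum_congr rfl fun i _ => ?_
    congr 1
    have h1 := b'.traceDual_repr_apply x i
    rw [Module.Basis.traceDual_traceDual] at h1
    rw [h1, Algebra.traceForm_apply]
  refine ⟨_, fun i => π (b i), fun i => ∑ χ : Emb L, χ (b' i) * X χ, fun i => hπ1 _, ?_⟩
  have key : ∀ y : L, ∑ ψ : Emb L, ψ y *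
      (X ψ - ∑ i, (∑ χ : Emb L, χ (b' i) * X χ) * ψ (π (b i))) = 0 := by
    intro y
    have h1 := hX (y - ∑ i, Algebra.trace ℚ L (π (b i) * y) • b' i) (by
      intro x hx
      rw [← trace_eq, mul_sub, Finset.mul_sum, map_sub, map_sum]
      have h2 : Algebra.trace ℚ L (x * y) =
          ∑ i, Algebra.trace ℚ L (x * (Algebra.trace ℚ L (π (b i) * y) • b' i)) := by
        conv_lhs => rw [← hπ2 x hx, hb x, map_sum, Finset.sum_mul, map_sum]
        refine Finset.sum_congr rfl fun i _ => ?_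
        rw [map_smul, smul_mul_assoc, map_smul, mul_smul_comm, map_smul, smul_eq_mul,
          smul_eq_mul, mul_comm]
      rw [← h2, sub_self, Rat.cast_zero])
    simp only [map_sub, map_sum, sub_mul, Finset.sum_sub_distrib, Finset.sum_mul,
      Rat.smul_def, map_ratCast, trace_eq, map_mul] at h1
    simp only [mul_sub, Finset.sum_sub_distrib, Finset.mul_sum, Finset.sum_mul]
    rw [← h1]
    congr 1
    rw [Finset.sum_comm]
    conv_rhs => rw [Finset.sum_comm]
    refine Finset.sum_congr rfl fun i _ => ?_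
    rw [Finset.sum_comm]
    refine Finset.sum_congr rfl fun χ _ => Finset.sum_congr rfl fun ψ _ => ?_
    ring
  intro ψ
  have h3 := congrFun (h.dedekind L _ key) ψ
  exact sub_eq_zero.1 h3

end SimAux

open SimAux in
theorem sim (h : WeakS) : SimS := by
  classical
  intro L _ _ Φ d M e A ω 𝔪 hΦ he hr hω hΛ h1 h2 h3 U hU
  subst hr
  rw [or_iff_not_imp_left]
  intro hU0
  let ι : L →ₗ[ℚ] (Fin d → ℂ) :=
    { toFun := fun x k => e k x * ω k
      map_add' := fun x y => by ext k; simp [add_mul]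
      map_smul' := fun q x => by ext k; simp [Rat.smul_def, mul_assoc] }
  let S : Set L := {x | x ∈ 𝔪 ∧ ι x ∈ U}
  let P : Submodule ℚ L := Submodule.span ℚ S
  have hPU : ∀ x ∈ P, ι x ∈ U := by
    intro x hx
    have : P ≤ (U.restrictScalars ℚ).comap ι := Submodule.span_le.2 fun y hy => hy.2
    exact this hx
  -- a nonzero point
  obtain ⟨x₀, hx₀, hx₀0⟩ : ∃ x ∈ P, x ≠ 0 := by
    by_contra hne
    push Not at hne
    apply hU0
    rw [eq_bot_iff]
    intro w hw
    have hw' : w ∈ Submodule.span ℝ ((U : Set (Fin d → ℂ)) ∩ (A.Λ : Set (Fin d → ℂ))) := by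
      rw [hU]; exact hw
    have hle : Submodule.span ℝ ((U : Set (Fin d → ℂ)) ∩ (A.Λ : Set (Fin d → ℂ))) ≤ ⊥ := by
      rw [Submodule.span_le]
      rintro y ⟨hy1, hy2⟩
      obtain ⟨x, hx, rfl⟩ := (hΛ y).1 hy2
      have hx0 : x = 0 := hne x (Submodule.subset_span ⟨hx, hy1⟩)
      subst hx0
      ext k
      simp
    simpa using hle hw'
  -- the relation over the type
  have rel : ∀ y : L, (∀ x ∈ P, ∑ ψ : Emb L, ψ (x * y) = 0) →
      ∀ x ∈ P, ∑ k, e k (x * y) = 0 := by
    intro y hy x hx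
    let μ : (Fin d → ℂ) →ₗ[ℂ] ℂ :=
      { toFun := fun w => ∑ k, w k / ω k * e k y
        map_add' := fun w w' => by simp [add_div, add_mul, Finset.sum_add_distrib]
        map_smul' := fun c w => by simp [Finset.mul_sum, mul_div_assoc, mul_assoc] }
    have hμ : ∀ x : L, μ (ι x) = ∑ k, e k (x * y) := by
      intro x
      change ∑ k, e k x * ω k / ω k * e k y = _
      refine Finset.sum_congr rfl fun k _ => ?_
      rw [mul_div_cancel_right₀ _ (hω k), map_mul]
    have hre : ∀ w ∈ U, (μ w).re = 0 := by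
      intro w hw
      have hw' : w ∈ Submodule.span ℝ ((U : Set (Fin d → ℂ)) ∩ (A.Λ : Set (Fin d → ℂ))) := by
        rw [hU]; exact hw
      have hle : Submodule.span ℝ ((U : Set (Fin d → ℂ)) ∩ (A.Λ : Set (Fin d → ℂ))) ≤
          LinearMap.ker (Complex.reLm ∘ₗ (μ.restrictScalars ℝ : (Fin d → ℂ) →ₗ[ℝ] ℂ)) := by
        rw [Submodule.span_le]
        rintro z ⟨hz1, hz2⟩
        obtain ⟨x', hx', rfl⟩ := (hΛ z).1 hz2
        have h4 := hy x' (Submodule.subset_span ⟨hx', hz1⟩)
        rw [sum_type e he hΦ, Complex.add_conj] at h4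
        have h5 : (μ (ι x')).re = 0 := by
          rw [hμ]
          have h6 : (2 * (∑ k, e k (x' * y)).re : ℝ) = 0 := by exact_mod_cast h4
          linarith
        exact h5
      exact hle hw'
    rw [← hμ]
    have h7 := hre _ (hPU x hx)
    have h8 := hre _ (U.smul_mem I (hPU x hx))
    rw [map_smul, smul_eq_mul] at h8
    apply Complex.ext
    · simpa using h7
    · simpa using h8
  -- the annihilator is stable under the indicators of the translates
  have stab : ∀ (σ : L ≃ₐ[ℚ] L) (X : Emb L → ℂ),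
      (∀ y : L, (∀ x ∈ P, ∑ ψ : Emb L, ψ (x * y) = 0) → ∑ ψ : Emb L, ψ y * X ψ = 0) →
      ∀ y : L, (∀ x ∈ P, ∑ ψ : Emb L, ψ (x * y) = 0) → ∑ ψ : Emb L, ψ y *
        {χ : Emb L | χ.comp (σ : L →+* L) ∈ Set.range e}.indicator X ψ = 0 := by
    intro σ X hX y hy
    obtain ⟨n, x, c, hxP, hXc⟩ := biorth h P X hX
    have h4 : ∀ ψ : Emb L, ψ y *
        {χ : Emb L | χ.comp (σ : L →+* L) ∈ Set.range e}.indicator X ψ =
        ∑ i, c i * {χ : Emb L | χ.comp (σ : L →+* L) ∈ Set.range e}.indicator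
          (fun χ : Emb L => χ (x i * y)) ψ := by
      intro ψ
      by_cases hψ : ψ ∈ {χ : Emb L | χ.comp (σ : L →+* L) ∈ Set.range e}
      · simp only [Set.indicator_of_mem hψ, hXc, Finset.mul_sum, map_mul]
        exact Finset.sum_congr rfl fun i _ => by ring
      · simp only [Set.indicator_of_notMem hψ, mul_zero, Finset.sum_const_zero]
    rw [Finset.sum_congr rfl fun ψ _ => h4 ψ, Finset.sum_comm]
    refine Finset.sum_eq_zero fun i _ => ?_
    rw [← Finset.mul_sum, translate' e he h1 h2 _ (rel y hy _ (hxP i)), mul_zero]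
  -- the orthogonal complement vanishes
  have perp : ∀ y : L, (∀ x ∈ P, ∑ ψ : Emb L, ψ (x * y) = 0) → y = 0 := by
    obtain ⟨φ⟩ : Nonempty (Emb L) := inferInstance
    have ind : ∀ s : Finset (Emb L), φ ∉ s → ∃ X : Emb L → ℂ, X φ ≠ 0 ∧ (∀ ψ ∈ s, X ψ = 0) ∧
        ∀ y : L, (∀ x ∈ P, ∑ ψ : Emb L, ψ (x * y) = 0) → ∑ ψ : Emb L, ψ y * X ψ = 0 := by
      intro s
      induction s using Finset.induction_on with
      | empty =>
        intro _
        refine ⟨fun ψ => ψ x₀, by simpa using hx₀0, by simp, fun y hy => ?_⟩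
        rw [← hy x₀ hx₀]
        exact Finset.sum_congr rfl fun ψ _ => by rw [map_mul, mul_comm]
      | insert χ s hχ ih =>
        intro hφ
        rw [Finset.mem_insert, not_or] at hφ
        obtain ⟨X, hX1, hX2, hX3⟩ := ih hφ.2
        obtain ⟨σ, hσ1, hσ2⟩ := h3 φ χ hφ.1
        refine ⟨{χ : Emb L | χ.comp (σ : L →+* L) ∈ Set.range e}.indicator X, ?_, ?_,
          stab σ X hX3⟩
        · rwa [Set.indicator_of_mem (by exact hσ1)]
        · intro ψ hψ
          rcases Finset.mem_insert.1 hψ with rfl | hψ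
          · exact Set.indicator_of_notMem (by exact hσ2) _
          · exact Set.indicator_apply_eq_zero.2 fun _ => hX2 ψ hψ
    intro y hy
    obtain ⟨X, hX1, hX2, hX3⟩ := ind (Finset.univ.erase φ) (by simp)
    have h4 := hX3 y hy
    rw [Finset.sum_eq_single φ (fun ψ _ hψ => by rw [hX2 ψ (by simpa using hψ), mul_zero])
      (by simp)] at h4
    have h5 : φ y = 0 := (mul_eq_zero.1 h4).resolve_right hX1
    simpa using h5
  rw [eq_top_iff]
  intro w _
  obtain ⟨n, x, c, hxP, hXc⟩ := biorth h P (Function.extend e (fun k => w k / ω k) 0)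
    (fun y hy => by rw [perp y hy]; simp)
  have h4 : w = ∑ i, c i • ι (x i) := by
    ext k
    have h5 := hXc (e k)
    rw [he.extend_apply, div_eq_iff (hω k)] at h5
    rw [h5, Finset.sum_apply, Finset.sum_mul]
    refine Finset.sum_congr rfl fun i _ => ?_
    simp [ι, mul_assoc]
  rw [h4]
  exact U.sum_mem fun i _ => U.smul_mem _ (hPU _ (hxP i))

end Pool.Agent.Lib.MP_caab05_ag.GB
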