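import Mathlib
import Pool.Agent.Lib.MP_caab05_ag.GB.Stmt
import Pool.Agent.Lib.MP_caab05_ag.LT.Base

/-! Holomorphy, non-vanishing and transformation of the jets of the theta functions. -/

namespace Pool.Agent.Lib.MP_caab05_ag.GB

open MvPolynomial Filter Topology Asymptotics Complex Matrix

namespace XHolAux

section General

variable {E : Type} [NormedAddCommGroup E] [NormedSpace ℂ E]

theorem diffOn_det {n : Type} [Fintype n] [DecidableEq n] {A : E → Matrix n n ℂ} {S : Set E}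
    (h : ∀ i j, DifferentiableOn ℂ (fun x => A x i j) S) :
    DifferentiableOn ℂ (fun x => (A x).det) S := by
  simp only [Matrix.det_apply']
  refine DifferentiableOn.fun_sum fun σ _ => ?_
  refine DifferentiableOn.const_mul ?_ _
  intro x hx
  exact (HasFDerivWithinAt.finsetProd (g := fun i x => A x (σ i) i)
    fun i _ => (h _ _ x hx).hasFDerivWithinAt).differentiableWithinAt

theorem diffOn_adj {n : Type} [Fintype n] [DecidableEq n] {A : E → Matrix n n ℂ} {S : Set E}
    (h : ∀ i j, DifferentiableOn ℂ (fun x => A x i j) S) (i j : n) :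
    DifferentiableOn ℂ (fun x => (A x).adjugate i j) S := by
  simp only [Matrix.adjugate_apply]
  refine diffOn_det fun k l => ?_
  simp only [Matrix.updateRow_apply]
  split_ifs
  · exact differentiableOn_const _
  · exact h _ _

/-- derivative in the second variable -/
theorem fderiv_snd {F G : Type} [NormedAddCommGroup F] [NormedSpace ℂ F] [NormedAddCommGroup G]
    [NormedSpace ℂ G] {Φ : E × F → G} {x : E} {u : F} (h : DifferentiableAt ℂ Φ (x, u)) (w : F) :
    fderiv ℂ (fun y => Φ (x, y)) u w = fderiv ℂ Φ (x, u) (0, w) := by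
  have h1 : HasFDerivAt (fun y : F => ((x, y) : E × F)) (ContinuousLinearMap.inr ℂ E F) u :=
    hasFDerivAt_prodMk_right x u
  have h2 := (HasFDerivAt.comp (f := fun y : F => ((x, y) : E × F)) u h.hasFDerivAt h1).fderiv
  have h3 : (fun y => Φ (x, y)) = Φ ∘ fun y : F => ((x, y) : E × F) := rfl
  rw [h3, h2]
  rfl

theorem analytic_iter {S : Set E} (hS : IsOpen S) {Φ : E × ℂ → ℂ}
    (h : AnalyticOnNhd ℂ Φ {q | q.1 ∈ S}) (n : ℕ) :
    AnalyticOnNhd ℂ (fun q : E × ℂ => iteratedDeriv n (fun t => Φ (q.1, t)) q.2) {q | q.1 ∈ S} := by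
  have hU : IsOpen {q : E × ℂ | q.1 ∈ S} := hS.preimage continuous_fst
  induction n with
  | zero => simpa using h
  | succ n ih =>
    have h1 : AnalyticOnNhd ℂ (fun q : E × ℂ => fderiv ℂ
        (fun q : E × ℂ => iteratedDeriv n (fun t => Φ (q.1, t)) q.2) q (0, 1)) {q | q.1 ∈ S} :=
      fun q hq => ((ContinuousLinearMap.apply ℂ ℂ ((0, 1) : E × ℂ)).analyticAt _).comp
        (ih.fderiv q hq)
    refine h1.congr hU fun q hq => ?_
    have h2 := fderiv_snd (x := q.1) (u := q.2) (ih q hq).differentiableAt 1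
    simp only [iteratedDeriv_succ]
    exact h2.symm

end General

variable {g : ℕ}

theorem om_add (τ : Mat g) (w w' : V g) : om τ (w + w') = om τ w + om τ w' := by
  funext s
  simp only [om, du, map_add, Pi.add_apply]
  ring

theorem om_smul (τ : Mat g) (c : ℂ) (w : V g) : om τ (c • w) = c • om τ w := by
  funext s
  simp only [om, du, map_smul, Pi.smul_apply, smul_eq_mul]
  ring

/-- `om` as a linear map -/
noncomputable def omL (τ : Mat g) : V g →ₗ[ℂ] (Ix g × Ix g → ℂ) where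
  toFun := om τ
  map_add' := om_add τ
  map_smul' := om_smul τ

theorem om_eq (τ : Mat g) (w : V g) (s : Ix g × Ix g) :
    om τ w s = ∑ j, om τ (Pi.single j 1) s * w j := by
  have h : w = ∑ j, w j • (Pi.single j 1 : V g) := by
    funext k
    simp [Finset.sum_apply, Pi.single_apply]
  have h2 : omL τ w = ∑ j, w j • omL τ (Pi.single j 1) := by
    conv_lhs => rw [h]
    simp only [map_sum, map_smul]
  have h3 := congrFun h2 s
  simp only [Finset.sum_apply, Pi.smul_apply, smul_eq_mul] at h3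
  refine h3.trans (Finset.sum_congr rfl fun j _ => mul_comm _ _)

theorem holth (h2 : HolS) : DifferentiableOn ℂ (fun τ : Mat g => th τ 0) {τ | Pos τ} :=
  DifferentiableOn.comp (g := fun q : Mat g × V g => th q.1 q.2) (f := fun τ : Mat g => (τ, 0))
    (h2 g).2 (by fun_prop) fun _ h => h

theorem holom (h0 : OsgS) (h2 : HolS) :
    DifferentiableOn ℂ (fun q : Mat g × V g => om q.1 q.2) {q | Pos q.1} := by
  have hU : IsOpen {q : Mat g × V g | Pos q.1} := (h2 g).1.preimage continuous_fst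
  have ha := h0 _ _ _ _ hU (h2 g).2
  have h1 : DifferentiableOn ℂ (fun q : Mat g × V g => th q.1 0) {q | Pos q.1} :=
    DifferentiableOn.comp (g := fun τ : Mat g => th τ 0) (f := fun q : Mat g × V g => q.1)
      (holth h2) (by fun_prop) fun _ h => h
  have h3 : DifferentiableOn ℂ (fun q : Mat g × V g =>
      fderiv ℂ (fun q : Mat g × V g => th q.1 q.2) (q.1, 0)) {q | Pos q.1} :=
    DifferentiableOn.comp (g := fderiv ℂ (fun q : Mat g × V g => th q.1 q.2))
      (f := fun q : Mat g × V g => (q.1, 0)) ha.fderiv.differentiableOn (by fun_prop) fun _ h => h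
  have h4 : DifferentiableOn ℂ (fun q : Mat g × V g => du q.1 0 q.2) {q | Pos q.1} := by
    refine (h3.clm_apply (u := fun q : Mat g × V g => ((0, q.2) : Mat g × V g))
      (by fun_prop)).congr fun q hq => ?_
    exact fderiv_snd (Φ := fun q : Mat g × V g => th q.1 q.2) (x := q.1) (u := 0)
      (ha (q.1, 0) hq).differentiableAt q.2
  rw [differentiableOn_pi] at h1 h4 ⊢
  intro s
  exact ((h1 _).mul (h4 _)).sub ((h1 _).mul (h4 _))

theorem holJm (h0 : OsgS) (h2 : HolS) (s : Fin g → Ix g × Ix g) (k j : Fin g) :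
    DifferentiableOn ℂ (fun τ : Mat g => Jm τ s k j) {τ | Pos τ} := by
  have h := DifferentiableOn.comp (g := fun q : Mat g × V g => om q.1 q.2)
    (f := fun τ : Mat g => (τ, Pi.single j 1)) (s := {τ | Pos τ}) (holom h0 h2) (by fun_prop)
    fun _ h => h
  exact differentiableOn_pi.1 h (s k)

theorem holjet (h0 : OsgS) (h2 : HolS) (n : ℕ) (ab : Ix g × Ix g) {b : Mat g → V g}
    (hb : DifferentiableOn ℂ b {τ | Pos τ}) :
    DifferentiableOn ℂ (fun τ : Mat g => iteratedDeriv n (fun t : ℂ => Xi τ ab (t • b τ)) 0)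
      {τ | Pos τ} := by
  have hU : IsOpen {q : Mat g × ℂ | q.1 ∈ {τ : Mat g | Pos τ}} :=
    (h2 g).1.preimage continuous_fst
  have hb' : DifferentiableOn ℂ (fun q : Mat g × ℂ => q.2 • b q.1)
      {q : Mat g × ℂ | q.1 ∈ {τ : Mat g | Pos τ}} :=
    DifferentiableOn.smul (c := fun q : Mat g × ℂ => q.2) (by fun_prop)
      (DifferentiableOn.comp (g := b) (f := fun q : Mat g × ℂ => q.1) hb (by fun_prop) fun _ h => h)
  have k : ∀ {f : Mat g × ℂ → V g}, DifferentiableOn ℂ f {q | q.1 ∈ {τ : Mat g | Pos τ}} → ∀ a,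
      DifferentiableOn ℂ (fun q : Mat g × ℂ => th q.1 (f q) a) {q | q.1 ∈ {τ : Mat g | Pos τ}} := by
    intro f hf a
    have h := DifferentiableOn.comp (g := fun q : Mat g × V g => th q.1 q.2)
      (f := fun q : Mat g × ℂ => (q.1, f q)) (h2 g).2
      (DifferentiableOn.prodMk (by fun_prop) hf) fun _ h => h
    exact differentiableOn_pi.1 h a
  have h1 : DifferentiableOn ℂ (fun q : Mat g × ℂ => Xi q.1 ab (q.2 • b q.1))
      {q : Mat g × ℂ | q.1 ∈ {τ : Mat g | Pos τ}} :=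
    (k hb' _).mul (k (hb'.const_smul I) _)
  have h3 := (analytic_iter (h2 g).1 (h0 _ _ _ _ hU h1) n).differentiableOn
  exact DifferentiableOn.comp (f := fun τ : Mat g => ((τ, 0) : Mat g × ℂ)) h3 (by fun_prop)
    fun _ h => h

theorem hol (h0 : OsgS) (h2 : HolS) (J : ℕ) :
    DifferentiableOn ℂ (fun τ : Mat g => Xc τ J) {τ | Pos τ} := by
  rw [differentiableOn_pi]
  intro q
  refine ((holjet h0 h2 _ _ ?_).mul ((differentiableOn_pi.1 (holth h2) _).pow _)).mul
    ((diffOn_det (holJm h0 h2 _)).pow _)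
  rw [differentiableOn_pi]
  intro i
  simp only [Matrix.mulVec, dotProduct]
  exact DifferentiableOn.fun_sum fun k _ => (diffOn_adj (holJm h0 h2 _) _ _).mul_const _

theorem neom' (h5 : GeoS) (τ : Mat g) (w : V g) (a₀ : Ix g) (hτ : Sg τ) (ha : th τ 0 a₀ ≠ 0)
    (h : ∀ a, om τ w (a, a₀) = 0) : w = 0 := by
  refine h5.imm g τ hτ 0 w (du τ 0 w a₀ / th τ 0 a₀) (funext fun a => ?_)
  have h1 := h a
  simp only [om] at h1
  simp only [Pi.smul_apply, smul_eq_mul]
  field_simp
  linear_combination h1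

theorem neom (h5 : GeoS) (τ : Mat g) (w : V g) (hτ : Sg τ) (h : om τ w = 0) : w = 0 := by
  obtain ⟨a₀, ha⟩ := Function.ne_iff.1 (h5.nz g τ hτ 0)
  exact neom' h5 τ w a₀ hτ ha fun a => congrFun h _

theorem exists_det (h5 : GeoS) (τ : Mat g) (hτ : Sg τ) : ∃ s, (Jm τ s).det ≠ 0 := by
  have h1 : LinearIndependent ℂ fun j : Fin g => om τ (Pi.single j 1) := by
    have h := (Pi.basisFun ℂ (Fin g)).linearIndependent.map' (omL τ)
      (LinearMap.ker_eq_bot'.2 fun w hw => neom h5 τ w hτ hw)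
    have e : (omL τ ∘ Pi.basisFun ℂ (Fin g)) = fun j : Fin g => om τ (Pi.single j 1) := by
      funext j
      simp only [Function.comp, Pi.basisFun_apply]
      rfl
    rwa [e] at h
  obtain ⟨s, -, hs⟩ := LT.exists_minor h1
  refine ⟨s, ?_⟩
  rw [← Matrix.det_transpose]
  exact hs

theorem ne (h5 : GeoS) (J : ℕ) (τ : Mat g) (hτ : Sg τ) : Xc τ J ≠ 0 := by
  obtain ⟨a₀, ha⟩ := Function.ne_iff.1 (h5.nz g τ hτ 0)
  obtain ⟨s, hs⟩ := exists_det h5 τ hτ
  refine Function.ne_iff.2 ⟨(0, (a₀, a₀), s, 0, a₀), ?_⟩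
  simp only [Xc, Fin.val_zero, iteratedDeriv_zero, zero_smul, Xi, smul_zero, mul_zero, pow_zero,
    mul_one, Pi.zero_apply]
  exact mul_ne_zero (mul_ne_zero ha ha) (pow_ne_zero _ hs)

theorem app_smul (j : Mat g) (c : ℂ) (u : V g) : app j (c • u) = c • app j u :=
  Matrix.mulVec_smul _ _ _

theorem app_zero (j : Mat g) : app j 0 = 0 := Matrix.mulVec_zero _

section Trans

variable {τ τ' j q : Mat g} {κ : ℂ}

theorem th_trans (h : ∀ u, th τ' (app j u) = (κ * cexp (u ⬝ᵥ app q u)) • th τ u) :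
    th τ' 0 = κ • th τ 0 := by
  have h1 := h 0
  rwa [app_zero, zero_dotProduct, Complex.exp_zero, mul_one] at h1

theorem du_trans (d : Differentiable ℂ (th τ)) (d' : Differentiable ℂ (th τ'))
    (h : ∀ u, th τ' (app j u) = (κ * cexp (u ⬝ᵥ app q u)) • th τ u) (w : V g) :
    du τ' 0 (app j w) = κ • du τ 0 w := by
  have l : ∀ v : V g, HasDerivAt (fun t : ℂ => t • v) v 0 := fun v => by
    simpa using (hasDerivAt_id (0 : ℂ)).smul_const v
  have k : ∀ {F : V g → Ix g → ℂ}, Differentiable ℂ F → ∀ v : V g,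
      HasDerivAt (fun t : ℂ => F (t • v)) (fderiv ℂ F 0 v) 0 := by
    intro F hF v
    have h1 : HasFDerivAt F (fderiv ℂ F 0) ((0 : ℂ) • v) := by
      rw [zero_smul]; exact (hF 0).hasFDerivAt
    exact HasFDerivAt.comp_hasDerivAt (f := fun t : ℂ => t • v) 0 h1 (l v)
  have h1 := k d' (app j w)
  have h2 : HasDerivAt (fun t : ℂ => κ * cexp (t ^ 2 * (w ⬝ᵥ app q w))) 0 0 := by
    have h3 := ((((hasDerivAt_id (0 : ℂ)).pow 2).mul_const (w ⬝ᵥ app q w)).cexp).const_mul κ
    simpa using h3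
  have h3 := h2.smul (k d w)
  have e : (fun t : ℂ => th τ' (t • app j w)) =
      (fun t : ℂ => κ * cexp (t ^ 2 * (w ⬝ᵥ app q w))) • fun t : ℂ => th τ (t • w) := by
    funext t
    rw [← app_smul, h, app_smul, smul_dotProduct, dotProduct_smul, smul_eq_mul, smul_eq_mul,
      ← mul_assoc t t, ← sq]
    rfl
  rw [e] at h1
  have h4 := h1.unique h3
  simpa [du] using h4

theorem om_trans (d : Differentiable ℂ (th τ)) (d' : Differentiable ℂ (th τ'))
    (h : ∀ u, th τ' (app j u) = (κ * cexp (u ⬝ᵥ app q u)) • th τ u) (w : V g) :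
    om τ' (app j w) = κ ^ 2 • om τ w := by
  funext s
  simp only [om, du_trans d d' h, th_trans h, Pi.smul_apply, smul_eq_mul]
  ring

theorem Jm_trans (d : Differentiable ℂ (th τ)) (d' : Differentiable ℂ (th τ'))
    (h : ∀ u, th τ' (app j u) = (κ * cexp (u ⬝ᵥ app q u)) • th τ u) (s : Fin g → Ix g × Ix g) :
    Jm τ' s * Matrix.of j = κ ^ 2 • Jm τ s := by
  ext k l
  have h1 := congrFun (om_trans d d' h (Pi.single l 1)) (s k)
  rw [om_eq] at h1
  simp only [app, Matrix.mulVec_single_one, Matrix.col_apply] at h1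
  exact h1

theorem Xi_trans (h : ∀ u, th τ' (app j u) = (κ * cexp (u ⬝ᵥ app q u)) • th τ u)
    (ab : Ix g × Ix g) (u : V g) : Xi τ' ab (app j u) = κ ^ 2 * Xi τ ab u := by
  have e : cexp (u ⬝ᵥ app q u) * cexp ((I • u) ⬝ᵥ app q (I • u)) = 1 := by
    rw [← Complex.exp_add, app_smul, smul_dotProduct, dotProduct_smul, smul_eq_mul, smul_eq_mul,
      ← mul_assoc I I, I_mul_I, neg_one_mul, add_neg_cancel, Complex.exp_zero]
  rw [Xi, ← app_smul, h, h, Xi]
  simp only [Pi.smul_apply, smul_eq_mul]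
  linear_combination (κ ^ 2 * th τ u ab.1 * th τ (I • u) ab.2) * e

theorem det_trans {A B j : Matrix (Fin g) (Fin g) ℂ} {k : ℂ} (hj : j.det ≠ 0)
    (h : A * j = k • B) : A.det = k ^ g / j.det * B.det := by
  have h1 := congrArg Matrix.det h
  rw [Matrix.det_mul, Matrix.det_smul, Fintype.card_fin] at h1
  field_simp
  exact h1

theorem adj_trans {A B j : Matrix (Fin g) (Fin g) ℂ} {k : ℂ} (hj : j.det ≠ 0)
    (h : A * j = k • B) (w : V g) :
    A.adjugate *ᵥ w = (k ^ (g - 1) / j.det) • (j *ᵥ (B.adjugate *ᵥ w)) := by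
  have h1 := congrArg (fun M => j * Matrix.adjugate M) h
  simp only [Matrix.adjugate_mul_distrib, Matrix.adjugate_smul, Fintype.card_fin] at h1
  rw [← Matrix.mul_assoc, Matrix.mul_adjugate, Matrix.smul_mul, Matrix.one_mul,
    Matrix.mul_smul] at h1
  have h2 : A.adjugate = (k ^ (g - 1) / j.det) • (j * B.adjugate) := by
    rw [div_eq_inv_mul, mul_smul, ← h1, smul_smul, inv_mul_cancel₀ hj, one_smul]
  rw [h2, Matrix.smul_mulVec, Matrix.mulVec_mulVec]

theorem jet_trans (d : Differentiable ℂ (th τ))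
    (h : ∀ u, th τ' (app j u) = (κ * cexp (u ⬝ᵥ app q u)) • th τ u)
    (ab : Ix g × Ix g) (n : ℕ) (l : ℂ) (b : V g) :
    iteratedDeriv n (fun t : ℂ => Xi τ' ab (t • l • app j b)) 0 =
      κ ^ 2 * l ^ n * iteratedDeriv n (fun t : ℂ => Xi τ ab (t • b)) 0 := by
  have hd : Differentiable ℂ fun t : ℂ => Xi τ ab (t • b) := by
    have h1 : ∀ {f : ℂ → V g}, Differentiable ℂ f → ∀ a,
        Differentiable ℂ fun t => th τ (f t) a := fun hf a => differentiable_pi.1 (d.comp hf) a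
    exact (h1 (by fun_prop) _).mul (h1 (f := fun t : ℂ => I • t • b) (by fun_prop) _)
  have e : (fun t : ℂ => Xi τ' ab (t • l • app j b)) =
      fun t : ℂ => κ ^ 2 * (fun t : ℂ => Xi τ ab (t • b)) (l * t) := by
    funext t
    rw [smul_smul, ← app_smul, Xi_trans h, mul_comm t l]
  rw [e, iteratedDeriv_const_mul_field, iteratedDeriv_comp_const_mul hd.contDiff, mul_assoc]
  simp only [mul_zero]

theorem Xc_trans (hg : 0 < g) (d : Differentiable ℂ (th τ)) (d' : Differentiable ℂ (th τ'))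
    (hj : (Matrix.of j).det ≠ 0)
    (h : ∀ u, th τ' (app j u) = (κ * cexp (u ⬝ᵥ app q u)) • th τ u) (J : ℕ) :
    Xc τ' J = (κ ^ 2 * ((κ ^ 2) ^ g / (Matrix.of j).det) ^ J) • Xc τ J := by
  funext x
  obtain ⟨n, ab, s, w, a⟩ := x
  have hJ := Jm_trans d d' h s
  obtain ⟨m, hm⟩ := Nat.exists_eq_add_of_le (Nat.lt_succ_iff.1 n.2)
  obtain ⟨f, rfl⟩ := Nat.exists_eq_succ_of_ne_zero hg.ne'
  have hm' : J - n = m := by omega
  simp only [Xc, Pi.smul_apply, smul_eq_mul, adj_trans hj hJ, det_trans hj hJ, th_trans h, hm']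
  have h1 := jet_trans d h ab n ((κ ^ 2) ^ (f.succ - 1) / (Matrix.of j).det)
    ((Jm τ s).adjugate *ᵥ fun k => ((w k : ℕ) : ℂ))
  rw [show ((κ ^ 2) ^ f.succ / (Matrix.of j).det) ^ J =
    ((κ ^ 2) ^ f.succ / (Matrix.of j).det) ^ ((n : ℕ) + m) by rw [← hm]]
  unfold app at h1
  rw [h1, Nat.succ_sub_one, show (κ ^ 2) ^ f.succ = (κ ^ 2) ^ f * κ ^ 2 from pow_succ _ _]
  ring

end Trans

end XHolAux

open XHolAux in
theorem xhol (h0 : OsgS) (h2 : HolS) (h4 : LawS) (h5 : GeoS) : XHolS where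
  hol _ J := hol h0 h2 J
  holom _ := holom h0 h2
  ne _ J τ hτ := XHolAux.ne h5 J τ hτ
  neom _ τ w hτ h := neom h5 τ w hτ h
  neom' _ τ w a₀ hτ ha h := neom' h5 τ w a₀ hτ ha h
  trans g J τ τ' j q κ hg hτ hτ' hκ hj h := by
    have d := (h4.holu g τ hτ).1
    have d' := (h4.holu g τ' hτ').1
    refine ⟨⟨(κ ^ 2 * ((κ ^ 2) ^ g / (Matrix.of j).det) ^ J)⁻¹, ?_⟩, om_trans d d' h⟩
    rw [Xc_trans hg d d' hj h J, smul_smul, inv_mul_cancel₀, one_smul]
    exact mul_ne_zero (pow_ne_zero _ hκ)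
      (pow_ne_zero _ (div_ne_zero (pow_ne_zero _ (pow_ne_zero _ hκ)) hj))
  om_smul _ τ c w := om_smul τ c w

end Pool.Agent.Lib.MP_caab05_ag.GB
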